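import Mathlib

set_option autoImplicit false

namespace Pool.Agent.H6.AvgL

open SimpleGraph

noncomputable def lam {V : Type} (G : SimpleGraph V) (v w : V) : ℕ :=
  sSup {m | ∃ P : Fin m → G.Walk v w, (∀ i, (P i).IsPath) ∧
    ∀ i j, i ≠ j → (P i).edges.Disjoint (P j).edges}

def HasSub {V : Type} (G : SimpleGraph V) (t : ℕ) : Prop :=
  ∃ (W : Type) (H : SimpleGraph W), Nontrivial W ∧ H.IsEdgeConnected t ∧ H ⊑ G

lemma mader (s n : ℕ) : ∀ (V : Type) [Finite V] [Nonempty V] (G : SimpleGraph V), Nat.card V = n →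
    s * n < G.edgeSet.ncard + s → HasSub G (s + 1) := by
  induction n using Nat.strong_induction_on with
  | _ n ih =>
  intro V _ _ G hn he
  by_cases hc : G.IsEdgeConnected (s + 1)
  · refine ⟨V, G, ?_, hc, IsContained.refl G⟩
    by_contra hV
    rw [not_nontrivial_iff_subsingleton] at hV
    have h1 : G.edgeSet = ∅ := by rw [edgeSet_eq_empty]; exact Subsingleton.elim _ _
    have h2 : n = 1 := by rw [← hn]; exact Nat.card_eq_one_iff_unique.2 ⟨hV, inferInstance⟩
    rw [h1, h2] at he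
    simp at he
  simp only [IsEdgeConnected, IsEdgeReachable, not_forall] at hc
  obtain ⟨u, v, T, hT, huv⟩ := hc
  let A : Set V := {x | (G.deleteEdges T).Reachable u x}
  have hT' : T.ncard ≤ s := by
    rw [← (Set.toFinite T).cast_ncard_eq] at hT
    have : T.ncard < s + 1 := by exact_mod_cast hT
    omega
  have hsub : G.edgeSet ⊆ (Sym2.map Subtype.val '' (G.induce A).edgeSet ∪
      Sym2.map Subtype.val '' (G.induce Aᶜ).edgeSet) ∪ T := by
    intro e he
    induction e using Sym2.ind with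
    | _ x y =>
    by_cases h : s(x, y) ∈ T
    · exact .inr h
    have a : (G.deleteEdges T).Adj x y := deleteEdges_adj.2 ⟨he, h⟩
    by_cases hx : x ∈ A
    · exact .inl (.inl ⟨s(⟨x, hx⟩, ⟨y, Reachable.trans hx a.reachable⟩), he, rfl⟩)
    · exact .inl (.inr ⟨s(⟨x, hx⟩, ⟨y, fun hy => hx (Reachable.trans hy a.symm.reachable)⟩), he, rfl⟩)
  have h1 := Set.ncard_le_ncard hsub
  have h2 := Set.ncard_union_le (Sym2.map Subtype.val '' (G.induce A).edgeSet ∪
      Sym2.map Subtype.val '' (G.induce Aᶜ).edgeSet) T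
  have h3 := Set.ncard_union_le (Sym2.map Subtype.val '' (G.induce A).edgeSet)
      (Sym2.map Subtype.val '' (G.induce Aᶜ).edgeSet)
  have h4 := Set.ncard_image_le (f := Sym2.map Subtype.val) (s := (G.induce A).edgeSet)
  have h5 := Set.ncard_image_le (f := Sym2.map Subtype.val) (s := (G.induce Aᶜ).edgeSet)
  have h6 := Set.ncard_add_ncard_compl A
  have hA : Nonempty A := ⟨⟨u, Reachable.refl _⟩⟩
  have hB : Nonempty (Aᶜ : Set V) := ⟨⟨v, huv⟩⟩
  have h7 : 0 < A.ncard := by rw [← Nat.card_coe_set_eq]; exact Nat.card_pos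
  have h8 : 0 < Aᶜ.ncard := by rw [← Nat.card_coe_set_eq]; exact Nat.card_pos
  rw [hn] at h6
  rw [← h6, mul_add] at he
  by_cases c : s * A.ncard < (G.induce A).edgeSet.ncard + s
  · obtain ⟨W, H, a, b, d⟩ := ih A.ncard (by omega) A (G.induce A) (Nat.card_coe_set_eq _) c
    exact ⟨W, H, a, b, d.trans (Embedding.induce A).isContained⟩
  · obtain ⟨W, H, a, b, d⟩ := ih Aᶜ.ncard (by omega) (Aᶜ : Set V) (G.induce Aᶜ)
      (Nat.card_coe_set_eq _) (by omega)
    exact ⟨W, H, a, b, d.trans (Embedding.induce Aᶜ).isContained⟩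

lemma le_deg {V : Type} [Fintype V] (G : SimpleGraph V) [DecidableRel G.Adj] {v w : V} (h : v ≠ w)
    (m : ℕ) (hm : m ∈ {m | ∃ P : Fin m → G.Walk v w, (∀ i, (P i).IsPath) ∧
      ∀ i j, i ≠ j → (P i).edges.Disjoint (P j).edges}) : m ≤ G.degree v := by
  obtain ⟨P, -, h2⟩ := hm
  have e : ∀ i, ∃ x, G.Adj v x ∧ s(v, x) ∈ (P i).edges := fun i => by
    cases hp : P i with
    | nil => exact absurd rfl h
    | cons a p => exact ⟨_, a, by simp⟩
  choose f f1 f2 using e
  have := Finset.card_le_card_of_injOn (s := Finset.univ) (t := G.neighborFinset v) f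
    (fun i _ => by simpa using f1 i) (fun i _ j _ e => by
      by_contra c
      exact h2 i j c (f2 i) (e ▸ f2 j))
  simpa using this

lemma lam_le {V : Type} [Fintype V] (G : SimpleGraph V) [DecidableRel G.Adj] {v w : V} (h : v ≠ w) :
    lam G v w ≤ G.degree v := csSup_le' (le_deg G h)

lemma le_lam {V C : Type} [Fintype V] [Fintype C] (G : SimpleGraph V) {v w : V} (h : v ≠ w)
    (K : C → SimpleGraph V) (hK : ∀ c, K c ≤ G)
    (hd : ∀ c d x y, (K c).Adj x y → (K d).Adj x y → c = d) (hr : ∀ c, (K c).Reachable v w) :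
    Fintype.card C ≤ lam G v w := by
  classical
  refine le_csSup ⟨_, le_deg G h⟩ ?_
  have e : ∀ c, ∃ p : G.Walk v w, p.IsPath ∧ ∀ e ∈ p.edges, e ∈ (K c).edgeSet := fun c => by
    obtain ⟨p, hp⟩ := (hr c).exists_isPath
    refine ⟨p.mapLe (hK c), hp.mapLe _, fun e he => p.edges_subset_edgeSet ?_⟩
    simpa using he
  choose P P1 P2 using e
  refine ⟨fun i => P ((Fintype.equivFin C).symm i), fun i => P1 _, fun i j hij e h1 h2 => hij ?_⟩
  induction e using Sym2.ind with
  | _ x y => exact (Fintype.equivFin C).symm.injective (hd _ _ x y (P2 _ _ h1) (P2 _ _ h2))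

lemma no_sub {V : Type} [Fintype V] (G : SimpleGraph V) (lev : V → ℕ) (k t : ℕ)
    (h : ∀ v, {w | G.Adj v w ∧ lev w ≤ lev v}.ncard ≤ k) (hs : HasSub G t) : t ≤ k := by
  classical
  obtain ⟨W, H, a, b, ⟨f⟩⟩ := hs
  have : Finite W := Finite.of_injective _ f.injective
  have := Fintype.ofFinite W
  obtain ⟨w, hw⟩ := Finite.exists_max fun w => lev (f w)
  refine (b.le_degree (u := w)).trans (le_trans ?_ (h (f w)))
  rw [← card_neighborSet_eq_degree, ← Nat.card_eq_fintype_card, Nat.card_coe_set_eq]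
  exact Set.ncard_le_ncard_of_injOn f (fun x hx => ⟨f.toHom.map_adj hx, hw x⟩) f.injective.injOn

lemma lower {V : Type} [Fintype V] [DecidableEq V] (G : SimpleGraph V) (l : ℕ) (hl : 1 ≤ l)
    (h2 : 2 ≤ Fintype.card V)
    (h : l * (Fintype.card V * (Fintype.card V - 1)) ≤
      ∑ p ∈ (Finset.univ : Finset V).offDiag, lam G p.1 p.2) : HasSub G (l / 2 + 1) := by
  classical
  have : Nonempty V := Fintype.card_pos_iff.1 (by omega)
  refine mader (l / 2) _ V G rfl ?_
  have a1 : ∑ p ∈ (Finset.univ : Finset V).offDiag, lam G p.1 p.2 ≤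
      ∑ p ∈ (Finset.univ : Finset V).offDiag, G.degree p.1 :=
    Finset.sum_le_sum fun p hp => lam_le G (Finset.mem_offDiag.1 hp).2.2
  have a2 : ∑ p ∈ (Finset.univ : Finset V).offDiag, G.degree p.1 =
      (∑ v, G.degree v) * (Fintype.card V - 1) := by
    rw [Finset.sum_mul, Finset.sum_finset_product _ Finset.univ (fun v => Finset.univ.erase v)
      (fun p => by simp [eq_comm])]
    refine Finset.sum_congr rfl fun v _ => ?_
    rw [Finset.sum_const_nat (m := G.degree v) (fun _ _ => rfl), Finset.card_erase_of_mem (Finset.mem_univ _),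
      Finset.card_univ, mul_comm]
  rw [a2, sum_degrees_eq_twice_card_edges] at a1
  have a3 : G.edgeSet.ncard = G.edgeFinset.card := by
    rw [← coe_edgeFinset, Set.ncard_coe_finset]
  rw [a3, Nat.card_eq_fintype_card]
  have a4 := h.trans a1
  rw [← mul_assoc] at a4
  have a5 := Nat.le_of_mul_le_mul_right a4 (by omega)
  obtain ⟨n, hn⟩ : ∃ n, Fintype.card V = n + 1 := ⟨Fintype.card V - 1, by omega⟩
  rw [hn] at a5 ⊢
  have a6 : 2 * (l / 2) ≤ l := by omega
  have a7 := Nat.mul_le_mul_right n a6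
  nlinarith

/-- layered graph -/
def LG (r k : ℕ) : SimpleGraph (Fin r × ZMod k) where
  Adj u v := u.1.1 + 1 = v.1.1 ∨ v.1.1 + 1 = u.1.1
  symm := ⟨fun _ _ h => h.symm⟩
  loopless := ⟨fun _ h => by omega⟩

def lab {k : ℕ} (i j : ℕ) (a b : ZMod k) (p : ℕ) (y z : ZMod k) : Bool × ZMod k :=
  if p + 1 = i then (true, y) else if p = i then (decide (y ≠ a), z)
  else if p + 1 < j then (if y = z then (false, y) else (true, y - (p - i - 1 : ℕ)))
  else if p + 1 = j then (if z = b then (false, y) else (true, y - (p - i - 1 : ℕ)))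
  else (true, z - (j - i - 2 : ℕ))

def KG (r k i j : ℕ) (a b : ZMod k) (c : Bool × ZMod k) : SimpleGraph (Fin r × ZMod k) where
  Adj u v := (u.1.1 + 1 = v.1.1 ∧ lab i j a b u.1.1 u.2 v.2 = c) ∨
    (v.1.1 + 1 = u.1.1 ∧ lab i j a b v.1.1 v.2 u.2 = c)
  symm := ⟨fun _ _ h => h.symm⟩
  loopless := ⟨fun _ h => by omega⟩

lemma reach (r k : ℕ) [Fact (1 < k)] (i j : Fin r) (a b : ZMod k) (h1 : 1 ≤ i.1) (h2 : i.1 + 2 ≤ j.1)
    (h3 : j.1 + 2 ≤ r) (c : Bool × ZMod k) : (KG r k i j a b c).Reachable (i, a) (j, b) := by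
  have up : ∀ (p : ℕ) (hp : p + 1 < r) (y z : ZMod k), lab i j a b p y z = c →
      (KG r k i j a b c).Reachable (⟨p, by omega⟩, y) (⟨p + 1, hp⟩, z) :=
    fun p hp y z h => Adj.reachable (.inl ⟨rfl, h⟩)
  obtain ⟨i, hi⟩ := i
  obtain ⟨j, hj⟩ := j
  dsimp only at *
  obtain ⟨i, rfl⟩ : ∃ i', i = i' + 1 := ⟨i - 1, by omega⟩
  obtain ⟨d, rfl⟩ : ∃ d, j = i + 1 + 1 + d + 1 := ⟨j - i - 3, by omega⟩
  have n1 : ∀ x : ZMod k, x + 1 ≠ x := fun x => by simp
  obtain ⟨_ | _, x⟩ := c
  · have s : ∀ (e : ℕ) (he : e ≤ d), (KG r k (i + 1) (i + 1 + 1 + d + 1) a b (false, x)).Reachable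
        (⟨i + 1, hi⟩, a) (⟨i + 1 + 1 + e, by omega⟩, x) := by
      intro e
      induction e with
      | zero => intro _; exact up (i + 1) (by omega) a x (by simp [lab])
      | succ e ih =>
        intro he
        refine (ih (by omega)).trans (up (i + 1 + 1 + e) (by omega) x x ?_)
        rw [lab, if_neg (by omega), if_neg (by omega), if_pos (by omega), if_pos rfl]
    refine (s d le_rfl).trans (up (i + 1 + 1 + d) (by omega) x b ?_)
    rw [lab, if_neg (by omega), if_neg (by omega), if_neg (by omega), if_pos rfl, if_pos rfl]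
  · have s : ∀ (e : ℕ) (he : e ≤ d), (KG r k (i + 1) (i + 1 + 1 + d + 1) a b (true, x)).Reachable
        (⟨i + 1, hi⟩, a) (⟨i + 1 + 1 + e, by omega⟩, x + e) := by
      intro e
      induction e with
      | zero =>
        intro _
        refine (up i (by omega) x a (by simp [lab])).symm.trans
          ((up i (by omega) x (a + 1) (by simp [lab])).trans
          (up (i + 1) (by omega) (a + 1) _ (by simp [lab])))
      | succ e ih =>
        intro he
        refine (ih (by omega)).trans (up (i + 1 + 1 + e) (by omega) _ _ ?_)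
        rw [lab, if_neg (by omega), if_neg (by omega), if_pos (by omega),
          if_neg (by push_cast; rw [← add_assoc]; exact (n1 _).symm),
          show i + 1 + 1 + e - (i + 1) - 1 = e by omega, add_sub_cancel_right]
    refine (s d le_rfl).trans ((up (i + 1 + 1 + d) (by omega) _ (b + 1) ?_).trans
      ((up (i + 1 + 1 + d + 1) (by omega) (b + 1) (x + d) ?_).trans
      (up (i + 1 + 1 + d + 1) (by omega) b (x + d) ?_).symm))
    · rw [lab, if_neg (by omega), if_neg (by omega), if_neg (by omega), if_pos rfl, if_neg (n1 _),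
        show i + 1 + 1 + d - (i + 1) - 1 = d by omega, add_sub_cancel_right]
    all_goals
      rw [lab, if_neg (by omega), if_neg (by omega), if_neg (by omega), if_neg (by omega),
        show i + 1 + 1 + d + 1 - (i + 1) - 2 = d by omega, add_sub_cancel_right]

lemma lam_LG (r k : ℕ) (hk : 1 < k) [NeZero k] (u v : Fin r × ZMod k) (h1 : 1 ≤ u.1.1) (h2 : 1 ≤ v.1.1)
    (h3 : u.1.1 + 2 ≤ r) (h4 : v.1.1 + 2 ≤ r) (h : u.1.1 + 2 ≤ v.1.1 ∨ v.1.1 + 2 ≤ u.1.1) :
    2 * k ≤ lam (LG r k) u v := by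
  have : Fact (1 < k) := ⟨hk⟩
  have e : Fintype.card (Bool × ZMod k) = 2 * k := by simp
  have hne : u ≠ v := fun e => by rw [e] at h; omega
  have a : ∀ i j a b c, KG r k i j a b c ≤ LG r k := fun i j a b c x y h => h.imp And.left And.left
  have b : ∀ i j a b c d x y, (KG r k i j a b c).Adj x y → (KG r k i j a b d).Adj x y → c = d := by
    rintro i j a b c d x y (⟨h1, h2⟩ | ⟨h1, h2⟩) (⟨h3, h4⟩ | ⟨h3, h4⟩)
    · rw [← h2, ← h4]
    · omega
    · omega
    · rw [← h2, ← h4]
  rw [← e]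
  rcases h with h | h
  · exact le_lam _ hne _ (a u.1 v.1 u.2 v.2) (b _ _ _ _) (reach r k u.1 v.1 u.2 v.2 h1 h h4)
  · exact le_lam _ hne _ (a v.1 u.1 v.2 u.2) (b _ _ _ _)
      fun c => (reach r k v.1 u.1 v.2 u.2 h2 h h3 c).symm

lemma LG_deg (r k : ℕ) [NeZero k] (v : Fin r × ZMod k) :
    {w | (LG r k).Adj v w ∧ w.1.1 ≤ v.1.1}.ncard ≤ k := by
  have := Set.ncard_le_ncard_of_injOn (s := {w | (LG r k).Adj v w ∧ w.1.1 ≤ v.1.1})
    (t := Set.univ) Prod.snd (fun _ _ => trivial) (fun x hx y hy e => by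
      refine Prod.ext (Fin.ext ?_) e
      have := hx.1; have := hy.1; have := hx.2; have := hy.2
      simp only [LG] at *
      omega)
  simpa using this

lemma cnt (r k : ℕ) [NeZero k] (B : Finset ℕ) :
    r * k ≤ (Finset.univ.filter fun v : Fin r × ZMod k => v.1.1 ∉ B).card + B.card * k := by
  have h1 := Finset.card_filter_add_card_filter_not (s := (Finset.univ : Finset (Fin r × ZMod k)))
    (fun v => v.1.1 ∈ B)
  have h2 := Finset.card_le_card_of_injOn
    (s := Finset.univ.filter fun v : Fin r × ZMod k => v.1.1 ∈ B) (t := B ×ˢ Finset.univ)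
    (fun v => (v.1.1, v.2)) (fun v hv => by simpa using hv)
    (fun x _ y _ e => by
      simp only [Prod.mk.injEq] at e
      exact Prod.ext (Fin.ext e.1) e.2)
  simp only [Finset.card_univ, Fintype.card_prod, Fintype.card_fin, ZMod.card,
    Finset.card_product] at h1 h2
  omega

lemma upper (k : ℕ) (hk : 1 < k) [NeZero k] :
    (2 * k - 1) * ((14 * k * k) * (14 * k * k - 1)) ≤
      ∑ p ∈ (Finset.univ : Finset (Fin (14 * k) × ZMod k)).offDiag, lam (LG (14 * k) k) p.1 p.2 := by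
  rw [Finset.sum_finset_product _ Finset.univ (fun v => Finset.univ.erase v)
      (fun p => by simp [eq_comm])]
  have a1 : ∀ u ∈ (Finset.univ.filter fun v : Fin (14 * k) × ZMod k => v.1.1 ∉ ({0, 14 * k - 1} : Finset ℕ)),
      (14 * k * k - 5 * k) * (2 * k) ≤ ∑ v ∈ Finset.univ.erase u, lam (LG (14 * k) k) u v := by
    intro u hu
    simp only [Finset.mem_filter, Finset.mem_univ, true_and, Finset.mem_insert, Finset.mem_singleton] at hu
    have c1 := cnt (14 * k) k {0, 14 * k - 1, u.1.1 - 1, u.1.1, u.1.1 + 1}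
    have c2 : ({0, 14 * k - 1, u.1.1 - 1, u.1.1, u.1.1 + 1} : Finset ℕ).card ≤ 5 := Finset.card_le_five
    have c3 := Nat.mul_le_mul_right k c2
    have c4 := Finset.card_nsmul_le_sum (Finset.univ.filter fun v : Fin (14 * k) × ZMod k =>
        v.1.1 ∉ ({0, 14 * k - 1, u.1.1 - 1, u.1.1, u.1.1 + 1} : Finset ℕ))
      (fun v => lam (LG (14 * k) k) u v) (2 * k) (fun v hv => by
        simp only [Finset.mem_filter, Finset.mem_univ, true_and, Finset.mem_insert,
          Finset.mem_singleton] at hv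
        have := u.1.2; have := v.1.2
        exact lam_LG _ k hk u v (by omega) (by omega) (by omega) (by omega) (by omega))
    refine le_trans (Nat.mul_le_mul_right _ (by omega)) (c4.trans
      (Finset.sum_le_sum_of_subset fun v hv => ?_))
    simp only [Finset.mem_filter, Finset.mem_univ, true_and, Finset.mem_insert,
      Finset.mem_singleton] at hv
    refine Finset.mem_erase.2 ⟨fun e => ?_, Finset.mem_univ _⟩
    rw [e] at hv
    omega
  have a2 := Finset.card_nsmul_le_sum _ _ _ a1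
  have c1 := cnt (14 * k) k {0, 14 * k - 1}
  have c2 : ({0, 14 * k - 1} : Finset ℕ).card ≤ 2 := Finset.card_le_two
  have c3 := Nat.mul_le_mul_right k c2
  refine le_trans ?_ (a2.trans (Finset.sum_le_sum_of_subset (Finset.subset_univ _)))
  refine le_trans ?_ (Nat.mul_le_mul_right _ (show 14 * k * k - 2 * k ≤ _ by omega))
  obtain ⟨m, rfl⟩ : ∃ m, k = m + 1 := ⟨k - 1, by omega⟩
  have e1 : 14 * (m + 1) * (m + 1) - 2 * (m + 1) = (14 * m + 12) * (m + 1) := by
    rw [Nat.sub_eq_iff_eq_add (by nlinarith)]; ring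
  have e2 : 14 * (m + 1) * (m + 1) - 5 * (m + 1) = (14 * m + 9) * (m + 1) := by
    rw [Nat.sub_eq_iff_eq_add (by nlinarith)]; ring
  rw [e1, e2, show 2 * (m + 1) - 1 = 2 * m + 1 by omega]
  refine le_trans (Nat.mul_le_mul_left _ (Nat.mul_le_mul_left _ (Nat.sub_le _ 1))) ?_
  have : (14 * m + 12) * (m + 1) * ((14 * m + 9) * (m + 1) * (2 * (m + 1))) =
      (2 * m + 1) * (14 * (m + 1) * (m + 1) * (14 * (m + 1) * (m + 1))) + 20 * (m + 1) ^ 3 := by ring
  omega

end Pool.Agent.H6.AvgL
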