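import Mathlib

set_option autoImplicit false

namespace Pool.Agent.H6.Bit

open Finset

noncomputable def allB (n : Nat) (f : Nat → Bool) : Bool :=
  Nat.rec (motive := fun _ => Bool) true
    (fun i r => Bool.rec (motive := fun _ => Bool) false r (f i)) n

noncomputable def anyB (n : Nat) (f : Nat → Bool) : Bool :=
  Nat.rec (motive := fun _ => Bool) false
    (fun i r => Bool.rec (motive := fun _ => Bool) r true (f i)) n

noncomputable def all2 (m n : Nat) (f : Nat → Bool) : Bool :=
  allB m fun i => allB n fun j => f (Nat.add (Nat.mul n i) j)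

def tb (n i : Nat) : Bool := Nat.beq (Nat.land 1 (Nat.shiftRight n i)) 1

noncomputable def pc (n a : Nat) : Nat :=
  Nat.rec (motive := fun _ => Nat) 0
    (fun i r => Bool.rec (motive := fun _ => Nat) r (Nat.succ r) (tb a i)) n

def fl (a s : Nat) : Nat := Nat.xor a (Nat.pow 2 s)

lemma allB_spec {n : ℕ} {f : ℕ → Bool} (h : allB n f = true) : ∀ i < n, f i = true := by
  induction n with
  | zero => simp
  | succ n ih =>
    have h' : f n = true ∧ allB n f = true := by
      have : Bool.rec (motive := fun _ => Bool) false (allB n f) (f n) = true := h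
      revert this
      cases f n <;> simp
    intro i hi
    rcases Nat.lt_succ_iff_lt_or_eq.1 hi with l | rfl
    exacts [ih h'.2 i l, h'.1]

lemma anyB_spec {n : ℕ} {f : ℕ → Bool} (h : anyB n f = true) : ∃ i < n, f i = true := by
  induction n with
  | zero => exact absurd h (by simp [anyB])
  | succ n ih =>
    have h' : f n = true ∨ anyB n f = true := by
      have : Bool.rec (motive := fun _ => Bool) (anyB n f) true (f n) = true := h
      revert this
      cases f n <;> simp
    rcases h' with h' | h'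
    · exact ⟨n, by omega, h'⟩
    · obtain ⟨i, a, b⟩ := ih h'
      exact ⟨i, by omega, b⟩

lemma all2_spec {m n : ℕ} {f : ℕ → Bool} (h : all2 m n f = true) (a : ℕ) (ha : a < n * m) :
    f a = true := by
  have hn : 0 < n := Nat.pos_of_mul_pos_right (Nat.zero_lt_of_lt ha)
  have := allB_spec (allB_spec h (a / n) (Nat.div_lt_of_lt_mul ha)) (a % n) (Nat.mod_lt _ hn)
  rwa [show Nat.add (Nat.mul n (a / n)) (a % n) = a from Nat.div_add_mod a n] at this

lemma tb_eq (n i : ℕ) : tb n i = n.testBit i := by
  show Nat.beq (1 &&& (n >>> i)) 1 = ((1 &&& (n >>> i)) != 0)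
  rw [Nat.one_and_eq_mod_two]
  rcases Nat.mod_two_eq_zero_or_one (n >>> i) with h | h <;> rw [h] <;> rfl

def dec (n a : ℕ) : Finset (Fin n) := univ.filter fun v => a.testBit v = true

lemma mem_dec {n a : ℕ} {v : Fin n} : v ∈ dec n a ↔ a.testBit v = true := by simp [dec]

lemma dec_surj {n : ℕ} (D : Finset (Fin n)) : ∃ a < 2 ^ n, dec n a = D := by
  induction D using Finset.induction_on with
  | empty => exact ⟨0, Nat.two_pow_pos n, by ext; simp [mem_dec]⟩
  | insert v s _ ih =>
    obtain ⟨a, h, rfl⟩ := ih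
    refine ⟨a ||| 2 ^ v.1, Nat.or_lt_two_pow h (Nat.pow_lt_pow_right (by omega) v.2), ?_⟩
    ext w
    simp only [mem_dec, Nat.testBit_or, Nat.testBit_two_pow, Bool.or_eq_true, decide_eq_true_eq,
      mem_insert, Fin.ext_iff]
    exact or_comm.trans (or_congr_left eq_comm)

lemma pc_eq (n a : ℕ) : pc n a = (dec n a).card := by
  rw [dec, card_filter, Fin.sum_univ_eq_sum_range (fun i => if a.testBit i = true then 1 else 0)]
  induction n with
  | zero => rfl
  | succ n ih =>
    rw [sum_range_succ, ← ih, ← tb_eq]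
    show Bool.rec (motive := fun _ => Nat) (pc n a) (Nat.succ (pc n a)) (tb a n) = _
    cases tb a n <;> simp

lemma fl_lt {a s n : ℕ} (h : a < 2 ^ n) (k : s < n) : fl a s < 2 ^ n :=
  Nat.xor_lt_two_pow h (Nat.pow_lt_pow_right (by omega) k)

lemma fl_bit (a s t : ℕ) : (fl a s).testBit t = (a.testBit t ^^ decide (s = t)) := by
  show (a ^^^ 2 ^ s).testBit t = _
  rw [Nat.testBit_xor, Nat.testBit_two_pow]

lemma dec_move {n a : ℕ} {v w : Fin n} (hv : v ∈ dec n a) (hw : w ∉ dec n a) :
    dec n (fl (fl a v) w) = (insert w (dec n a)).erase v := by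
  have ne : v ≠ w := fun e => hw (e ▸ hv)
  ext t
  simp only [mem_dec, fl_bit, mem_erase, mem_insert, Fin.val_inj] at *
  by_cases h : v = t
  · subst h; simp [hv, ne.symm]
  by_cases k : w = t
  · subst k; simp [hw, ne, ne.symm]
  simp [h, k, Ne.symm h, Ne.symm k]

end Pool.Agent.H6.Bit
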