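import Mathlib
import Pool.Agent.H6.Dist

set_option autoImplicit false

namespace Pool.Agent.H6.Bnr

def G : SimpleGraph (Fin 12) := SimpleGraph.fromRel fun u v => (u, v) ∈
  [(2, 4), (1, 5), (3, 6), (5, 6), (3, 7), (4, 7), (6, 7), (0, 8), (4, 8), (5, 8), (6, 8), (7, 8),
   (2, 9), (4, 9), (7, 9), (8, 9), (1, 10), (5, 10), (6, 10), (8, 10), (0, 11), (4, 11), (5, 11),
   (6, 11), (7, 11), (8, 11), (9, 11), (10, 11)]

instance : DecidableRel G.Adj := fun u v => by unfold G; infer_instance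

def d (a b : Fin 12) : ℕ := ([[0, 3, 3, 3, 2, 2, 2, 2, 1, 2, 2, 1], [3, 0, 4, 3, 3, 1, 2, 3, 2, 3, 1, 2],
  [3, 4, 0, 3, 1, 3, 3, 2, 2, 1, 3, 2], [3, 3, 3, 0, 2, 2, 1, 1, 2, 2, 2, 2],
  [2, 3, 1, 2, 0, 2, 2, 1, 1, 1, 2, 1], [2, 1, 3, 2, 2, 0, 1, 2, 1, 2, 1, 1],
  [2, 2, 3, 1, 2, 1, 0, 1, 1, 2, 1, 1], [2, 3, 2, 1, 1, 2, 1, 0, 1, 1, 2, 1],
  [1, 2, 2, 2, 1, 1, 1, 1, 0, 1, 1, 1], [2, 3, 1, 2, 1, 2, 2, 1, 1, 0, 2, 1],
  [2, 1, 3, 2, 2, 1, 1, 2, 1, 2, 0, 1], [1, 2, 2, 2, 1, 1, 1, 1, 1, 1, 1, 0]].getD a.1 []).getD b.1 0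

lemma rd (u w : Fin 12) : G.Reachable u w ∧ G.dist u w = d u w :=
  Pool.Agent.H6.Dist.reach_dist G d (by decide +kernel) (by
    intro u v w h; revert w; revert u v; decide +kernel) (by decide +kernel) u w

def H (g : Fin 12 → ℕ) (u : Fin 12) : Prop := ∃ v, 1 ≤ g v ∧ d u v ≤ g v
instance (g : Fin 12 → ℕ) (u : Fin 12) : Decidable (H g u) := by unfold H; infer_instance

def chk : ℕ → (Fin 12 → ℕ) → Bool
  | 0, _ => false
  | n + 1, g => match (List.finRange 12).find? (fun u => decide (¬ H g u)) with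
    | some u => (List.finRange 12).all fun v => chk n (Function.update g v (max 1 (d u v)))
    | none => decide (∑ v, g v ≤ 4 ∨ ∃ v, 0 < g v ∧ ∀ u, H (Function.update g v (g v - 1)) u)

lemma sound (f : Fin 12 → ℕ) (hf : ∀ u, H f u) (hm : ∀ g < f, ¬ ∀ u, H g u) (n : ℕ) :
    ∀ g, chk n g = true → g ≤ f → ∑ v, f v ≤ 4 := by
  induction n with
  | zero => intro g h; simp [chk] at h
  | succ n ih =>
    intro g h hg
    rw [chk] at h
    split at h
    · rename_i u _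
      obtain ⟨v, h1, h2⟩ := hf u
      refine ih _ (List.all_eq_true.1 h v (List.mem_finRange v)) fun w => ?_
      by_cases e : w = v
      · subst e; simp [h1, h2]
      · simpa [e] using hg w
    · rename_i hn
      have a : ∀ u, H g u := fun u => by
        simpa using List.find?_eq_none.1 hn u (List.mem_finRange u)
      have e : g = f := by
        by_contra c
        exact hm g (lt_of_le_of_ne hg c) a
      subst e
      rcases of_decide_eq_true h with h | ⟨v, h1, h2⟩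
      · exact h
      · refine absurd h2 (hm _ (lt_of_le_of_ne (fun w => ?_) fun e => ?_))
        · by_cases e : w = v
          · subst e; simp
          · simp [e]
        · have := congrFun e v
          simp at this
          omega

lemma bound (f : Fin 12 → ℕ) (hf : ∀ u, H f u) (hm : ∀ g < f, ¬ ∀ u, H g u) : ∑ v, f v ≤ 4 :=
  sound f hf hm 5 (fun _ => 0) (by decide +kernel) fun _ => Nat.zero_le _

def f0 : Fin 12 → ℕ := ![1, 2, 2, 0, 0, 0, 0, 0, 0, 0, 0, 0]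

def rt (v : Fin 12) : Fin 12 := if v = 8 then 11 else 8

lemma two (v : Fin 12) : (G.induce {v}ᶜ).Connected := by
  have r : rt v ∈ ({v}ᶜ : Set (Fin 12)) := (by decide : ∀ v, rt v ≠ v) v
  have k : ∀ n (u : ({v}ᶜ : Set (Fin 12))), d u (rt v) = n → (G.induce {v}ᶜ).Reachable u ⟨_, r⟩ := by
    intro n
    induction n using Nat.strong_induction_on with
    | _ n ih =>
    intro u hu
    rcases (by decide +kernel : ∀ v u, u = rt v ∨ ∃ w, w ≠ v ∧ G.Adj u w ∧ d w (rt v) < d u (rt v)) v u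
      with e | ⟨w, h1, h2, h3⟩
    · rw [show u = ⟨_, r⟩ from Subtype.ext e]
    · exact (SimpleGraph.Adj.reachable (G := G.induce {v}ᶜ) (u := u) (v := ⟨w, h1⟩) h2).trans
        (ih _ (hu ▸ h3) _ rfl)
  have : Nonempty ({v}ᶜ : Set (Fin 12)) := ⟨⟨_, r⟩⟩
  exact ⟨fun a b => (k _ a rfl).trans (k _ b rfl).symm⟩

theorem main : (∀ v, (f0 v : ℕ∞) ≤ G.eccent v) ∧
    (∀ u v, u ≠ v → 0 < f0 u → 0 < f0 v → ∀ x, G.dist x u ≤ f0 u → G.dist x v ≤ f0 v →
      G.dist x u = f0 u ∧ G.dist x v = f0 v) ∧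
    (∀ v, 0 < f0 v → ∃ u, G.dist u v ≤ f0 v ∧ ¬ ∃ w, 1 ≤ Function.update f0 v (f0 v - 1) w ∧
      G.dist u w ≤ Function.update f0 v (f0 v - 1) w) ∧
    ∀ g : Fin 12 → ℕ, (((∀ v, (g v : ℕ∞) ≤ G.eccent v) ∧ ∀ u, ∃ v, 1 ≤ g v ∧ G.dist u v ≤ g v) ∧
      ∀ h, h < g → ¬ ((∀ v, (h v : ℕ∞) ≤ G.eccent v) ∧ ∀ u, ∃ v, 1 ≤ h v ∧ G.dist u v ≤ h v)) →
      ∑ v, g v < ∑ v, f0 v := by
  have ds : ∀ u w, G.dist u w = d u w := fun u w => (rd u w).2
  simp only [ds]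
  refine ⟨fun v => ?_, by decide +kernel, by decide +kernel, fun g hg => ?_⟩
  · obtain ⟨u, hu⟩ := (by decide +kernel : ∀ v, ∃ u, f0 v ≤ d v u) v
    refine le_trans ?_ (SimpleGraph.edist_le_eccent (v := u))
    rw [← (rd v u).1.coe_dist_eq_edist, ds]
    exact_mod_cast hu
  · have := bound g hg.1.2 fun h hh a => hg.2 h hh
      ⟨fun v => le_trans (by exact_mod_cast hh.le v) (hg.1.1 v), a⟩
    rw [show ∑ v, f0 v = 5 by decide]
    omega

end Pool.Agent.H6.Bnr
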