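import Mathlib

namespace Pool.Agent.H6.Box

open Set MeasureTheory

variable {d : ℕ}

/-- An axis-parallel closed box. -/
def box (a b : Fin d → ℝ) : Set (EuclideanSpace ℝ (Fin d)) := {x | ∀ i, a i ≤ x i ∧ x i ≤ b i}

lemma box_image (a b : Fin d → ℝ) :
    box a b = (WithLp.linearEquiv 2 ℝ (Fin d → ℝ)).symm '' (univ.pi fun i => Icc (a i) (b i)) := by
  ext x
  constructor
  · intro hx
    exact ⟨x.ofLp, fun i _ => hx i, rfl⟩
  · rintro ⟨y, hy, rfl⟩ i
    exact hy i (mem_univ i)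

lemma corners_image (a b : Fin d → ℝ) :
    {x : EuclideanSpace ℝ (Fin d) | ∀ i, x i = a i ∨ x i = b i} =
      (WithLp.linearEquiv 2 ℝ (Fin d → ℝ)).symm '' (univ.pi fun i => {a i, b i}) := by
  ext x
  constructor
  · intro hx
    exact ⟨x.ofLp, fun i _ => hx i, rfl⟩
  · rintro ⟨y, hy, rfl⟩ i
    exact hy i (mem_univ i)

lemma corners_finite (a b : Fin d → ℝ) :
    {x : EuclideanSpace ℝ (Fin d) | ∀ i, x i = a i ∨ x i = b i}.Finite := by
  rw [corners_image]
  exact (Finite.pi fun i => toFinite _).image _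

lemma box_hull {a b : Fin d → ℝ} (h : ∀ i, a i ≤ b i) :
    box a b = convexHull ℝ {x : EuclideanSpace ℝ (Fin d) | ∀ i, x i = a i ∨ x i = b i} := by
  rw [corners_image, box_image]
  have := LinearMap.image_convexHull (WithLp.linearEquiv 2 ℝ (Fin d → ℝ)).symm.toLinearMap
    (univ.pi fun i => ({a i, b i} : Set ℝ))
  simp only [LinearEquiv.coe_coe] at this
  rw [← this, convexHull_pi]
  congr 2
  ext1 i
  rw [convexHull_pair, segment_eq_Icc (h i)]

lemma box_extreme {a b : Fin d → ℝ} (h : ∀ i, a i ≤ b i) :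
    (box a b).extremePoints ℝ = {x : EuclideanSpace ℝ (Fin d) | ∀ i, x i = a i ∨ x i = b i} := by
  rw [corners_image, box_image, ← image_extremePoints, extremePoints_pi]
  congr 2
  ext1 i
  exact Set.extremePoints_Icc (h i)

lemma box_interior (a b : Fin d → ℝ) :
    interior (box a b) = {x | ∀ i, a i < x i ∧ x i < b i} := by
  have : box a b = (EuclideanSpace.equiv (Fin d) ℝ).toHomeomorph ⁻¹'
      (univ.pi fun i => Icc (a i) (b i)) := by
    ext x
    exact ⟨fun hx i _ => hx i, fun hx i => hx i (mem_univ i)⟩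
  rw [this, ← Homeomorph.preimage_interior, interior_pi_set finite_univ]
  ext x
  simp only [interior_Icc, mem_preimage, mem_univ_pi, mem_Ioo, mem_ofPred_eq]
  rfl

lemma box_closed (a b : Fin d → ℝ) : IsClosed (box a b) := by
  have : box a b = ⋂ i, ({x : EuclideanSpace ℝ (Fin d) | a i ≤ x i} ∩ {x | x i ≤ b i}) := by
    ext x
    simp only [box, mem_ofPred_eq, mem_iInter, mem_inter_iff]
  rw [this]
  exact isClosed_iInter fun i => (isClosed_le continuous_const (by fun_prop)).inter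
    (isClosed_le (by fun_prop) continuous_const)

lemma box_frontier (a b : Fin d → ℝ) :
    frontier (box a b) = box a b \ {x | ∀ i, a i < x i ∧ x i < b i} := by
  rw [(box_closed a b).frontier_eq, box_interior]

lemma box_volume {a b : Fin d → ℝ} (h : ∀ i, a i ≤ b i) :
    (volume (box a b)).toReal = ∏ i, (b i - a i) := by
  have : box a b = (@WithLp.ofLp 2 (Fin d → ℝ)) ⁻¹' (Icc a b) := by
    ext x
    exact ⟨fun hx => ⟨fun i => (hx i).1, fun i => (hx i).2⟩, fun hx i => ⟨hx.1 i, hx.2 i⟩⟩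
  rw [this, (PiLp.volume_preserving_ofLp (Fin d)).measure_preimage
    measurableSet_Icc.nullMeasurableSet, Real.volume_Icc_pi_toReal h]

lemma box_subset {a b a' b' : Fin d → ℝ} (h : ∀ i, a i ≤ b i) :
    box a b ⊆ box a' b' ↔ ∀ i, a' i ≤ a i ∧ b i ≤ b' i := by
  constructor
  · intro hs i
    have h1 := hs (a := WithLp.toLp 2 a) (fun j => ⟨le_rfl, h j⟩) i
    have h2 := hs (a := WithLp.toLp 2 b) (fun j => ⟨h j, le_rfl⟩) i
    exact ⟨h1.1, h2.2⟩
  · intro hs x hx i
    exact ⟨(hs i).1.trans (hx i).1, (hx i).2.trans (hs i).2⟩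

lemma box_vadd (a b : Fin d → ℝ) (v : EuclideanSpace ℝ (Fin d)) :
    (fun x => v + x) '' box a b = box (fun i => v i + a i) (fun i => v i + b i) := by
  ext x
  constructor
  · rintro ⟨y, hy, rfl⟩ i
    have := hy i
    simp only [PiLp.add_apply]
    constructor <;> linarith [this.1, this.2]
  · intro hx
    refine ⟨x - v, fun i => ?_, by simp⟩
    have := hx i
    simp only [PiLp.sub_apply]
    constructor <;> linarith [this.1, this.2]

lemma box_infl (a b : Fin d → ℝ) :
    (fun x : EuclideanSpace ℝ (Fin d) => (-2 : ℝ) • x) '' box a b =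
      box (fun i => -2 * b i) (fun i => -2 * a i) := by
  ext x
  constructor
  · rintro ⟨y, hy, rfl⟩ i
    have := hy i
    simp only [PiLp.smul_apply, smul_eq_mul]
    constructor <;> linarith [this.1, this.2]
  · intro hx
    refine ⟨(-1 / 2 : ℝ) • x, fun i => ?_, by simp only [smul_smul]; norm_num⟩
    have := hx i
    simp only [PiLp.smul_apply, smul_eq_mul]
    constructor <;> linarith [this.1, this.2]

lemma box_exposed {a b a' b' : Fin d → ℝ}
    (h : ∀ i, (a i = a' i ∧ b i = b' i) ∨ b i ≤ a' i ∨ b' i ≤ a i) :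
    IsExposed ℝ (box a b) (box a b ∩ box a' b') := by
  classical
  rintro ⟨p, hp, hp'⟩
  let s : Fin d → ℝ := fun i =>
    if a i = a' i ∧ b i = b' i then 0 else if b i ≤ a' i then 1 else -1
  have key : ∀ x ∈ box a b ∩ box a' b', ∀ y ∈ box a b, ∀ i, s i * y i ≤ s i * x i := by
    intro x hx y hy i
    have h1 := hx.1 i
    have h2 := hx.2 i
    have h3 := hy i
    simp only [s]
    split_ifs with c1 c2
    · simp
    · linarith [h1.2, h2.1, h3.2]
    · have := ((h i).resolve_left c1).resolve_left c2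
      linarith [h1.1, h2.2, h3.1]
  refine ⟨innerSL ℝ (WithLp.toLp 2 s : EuclideanSpace ℝ (Fin d)), ?_⟩
  have hl : ∀ x : EuclideanSpace ℝ (Fin d),
      innerSL ℝ (WithLp.toLp 2 s : EuclideanSpace ℝ (Fin d)) x = ∑ i, s i * x i := by
    intro x
    simp [PiLp.inner_apply, mul_comm]
  ext x
  simp only [mem_sep_iff, hl]
  constructor
  · intro hx
    exact ⟨hx.1, fun y hy => Finset.sum_le_sum fun i _ => key x hx y hy i⟩
  · rintro ⟨hx, hmax⟩
    refine ⟨hx, fun i => ?_⟩
    have h1 := hmax p hp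
    have h2 := fun i (_ : i ∈ Finset.univ) => key p ⟨hp, hp'⟩ x hx i
    have h3 := (Finset.sum_eq_sum_iff_of_le h2).mp
      (le_antisymm (Finset.sum_le_sum h2) h1) i (Finset.mem_univ i)
    have h4 := hx i
    have h5 := hp' i
    simp only [s] at h3
    split_ifs at h3 with c1 c2
    · rw [← c1.1, ← c1.2]; exact h4
    · have : x i = p i := by linarith
      rw [this]; exact h5
    · have : x i = p i := by linarith
      rw [this]; exact h5

lemma ncard_grid (F : Fin d → Finset ℤ) :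
    {x : EuclideanSpace ℝ (Fin d) | ∀ i, ∃ n ∈ F i, x i = 2 * (n : ℝ)}.ncard =
      ∏ i, (F i).card := by
  classical
  let f : (Fin d → ℤ) → EuclideanSpace ℝ (Fin d) := fun n => WithLp.toLp 2 fun i => 2 * (n i : ℝ)
  have hf : Function.Injective f := by
    intro n m h
    ext i
    have := congrArg (fun x : EuclideanSpace ℝ (Fin d) => x i) h
    simp only [f] at this
    have h2 : (n i : ℝ) = m i := by linarith
    exact_mod_cast h2
  have : {x : EuclideanSpace ℝ (Fin d) | ∀ i, ∃ n ∈ F i, x i = 2 * (n : ℝ)} =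
      f '' (Fintype.piFinset F : Set (Fin d → ℤ)) := by
    ext x
    constructor
    · intro hx
      choose n hn hx using hx
      refine ⟨n, by simpa using hn, ?_⟩
      ext i
      exact (hx i).symm
    · rintro ⟨n, hn, rfl⟩ i
      exact ⟨n i, by simpa using (Fintype.mem_piFinset.mp hn) i, rfl⟩
  rw [this, ncard_image_of_injective _ hf, ncard_coe_finset, Fintype.card_piFinset]

lemma grid_finite (F : Fin d → Finset ℤ) :
    {x : EuclideanSpace ℝ (Fin d) | ∀ i, ∃ n ∈ F i, x i = 2 * (n : ℝ)}.Finite := by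
  classical
  let f : (Fin d → ℤ) → EuclideanSpace ℝ (Fin d) := fun n => WithLp.toLp 2 fun i => 2 * (n i : ℝ)
  refine ((Fintype.piFinset F).finite_toSet.image f).subset ?_
  intro x hx
  choose n hn hx using hx
  refine ⟨n, by simpa using hn, ?_⟩
  ext i
  exact (hx i).symm

lemma face_finite {m : ℕ} (a b : Fin (m + 1) → ℝ) (i : Fin (m + 1)) (c : ℝ) :
    μH[(m : ℝ)] {x ∈ box a b | x i = c} ≠ ⊤ := by
  let g : (Fin m → ℝ) → EuclideanSpace ℝ (Fin (m + 1)) := fun y =>
    WithLp.toLp 2 (Fin.insertNth (α := fun _ => ℝ) i c y)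
  have h1 : LipschitzWith 1 fun y : Fin m → ℝ => Fin.insertNth (α := fun _ => ℝ) i c y := by
    refine LipschitzWith.of_dist_le_mul fun y z => ?_
    rw [Fin.dist_insertNth_insertNth]
    simp
  have h2 := (PiLp.lipschitzWith_toLp 2 (fun _ : Fin (m + 1) => ℝ)).comp h1
  have h3 : {x ∈ box a b | x i = c} ⊆
      g '' Icc (fun j => a (i.succAbove j)) (fun j => b (i.succAbove j)) := by
    rintro x ⟨hx, rfl⟩
    refine ⟨fun j => x (i.succAbove j), ⟨fun j => (hx _).1, fun j => (hx _).2⟩, ?_⟩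
    ext j
    simp only [g]
    exact congrFun (Fin.insertNth_self_removeNth (α := fun _ => ℝ) i x.ofLp) j
  refine ne_top_of_le_ne_top ?_ ((measure_mono h3).trans
    (h2.hausdorffMeasure_image_le (d := (m : ℝ)) (by positivity) _))
  refine ENNReal.mul_ne_top (ENNReal.rpow_ne_top_of_nonneg (by positivity) ENNReal.coe_ne_top) ?_
  have h4 := hausdorffMeasure_pi_real (ι := Fin m)
  rw [Fintype.card_fin] at h4
  rw [h4]
  exact isCompact_Icc.measure_lt_top.ne

lemma frontier_finite {m : ℕ} (a b : Fin (m + 1) → ℝ) :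
    μHE[m] (frontier (box a b)) ≠ ⊤ := by
  have h3 : frontier (box a b) ⊆
      ⋃ i, ({x ∈ box a b | x i = a i} ∪ {x ∈ box a b | x i = b i}) := by
    rw [box_frontier]
    rintro x ⟨hx, hx'⟩
    simp only [mem_ofPred_eq, not_forall] at hx'
    obtain ⟨i, hi⟩ := hx'
    refine mem_iUnion.mpr ⟨i, ?_⟩
    rcases (hx i).1.eq_or_lt with h | h
    · exact Or.inl ⟨hx, h.symm⟩
    rcases (hx i).2.eq_or_lt with h' | h'
    · exact Or.inr ⟨hx, h'⟩
    exact absurd ⟨h, h'⟩ hi
  have h4 : μH[(m : ℝ)] (frontier (box a b)) ≠ ⊤ := by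
    refine ne_top_of_le_ne_top ?_ ((measure_mono h3).trans (measure_iUnion_fintype_le _ _))
    refine ENNReal.sum_ne_top.mpr fun i _ => ?_
    exact ne_top_of_le_ne_top (ENNReal.add_ne_top.mpr ⟨face_finite a b i _, face_finite a b i _⟩)
      (measure_union_le _ _)
  rw [Measure.euclideanHausdorffMeasure_def, Measure.smul_apply, ENNReal.smul_def, smul_eq_mul]
  exact ENNReal.mul_ne_top ENNReal.coe_ne_top h4

/-- The analytic core. -/
lemma not_small (m : ℕ) (x : ℝ) (n : ℕ → ℝ)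
    (hn : ∀ k, 3 * n k = 2 ^ (k + 2) + 3 - (-1) ^ k) :
    ¬ (fun k : ℕ => n k ^ (m + 1) - (2 ^ (k + 2)) ^ (m + 1) * x
      - (1 / 2) * (n k ^ (m + 1) - (n k - 2) ^ (m + 1))) =o[Filter.atTop]
        fun k : ℕ => ((2 : ℝ) ^ k) ^ m := by
  intro h
  let D : ℝ := ((m + 1 : ℕ) : ℝ) * (4 / 3 : ℝ) ^ m
  have hD : 0 < D := by positivity
  have hd : HasDerivAt (fun y : ℝ => y ^ (m + 1)) D (4 / 3) := by
    simpa [D] using hasDerivAt_pow (m + 1) (4 / 3 : ℝ)
  have h2 : Filter.Tendsto (fun k : ℕ => (2 : ℝ) ^ k) Filter.atTop Filter.atTop :=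
    tendsto_pow_atTop_atTop_of_one_lt (by norm_num)
  have lim : ∀ (α : ℝ) (u : ℕ → ℕ), Filter.Tendsto u Filter.atTop Filter.atTop →
      Filter.Tendsto (fun j => (2 : ℝ) ^ u j * ((4 / 3 + α / 2 ^ u j) ^ (m + 1)
        - (4 / 3) ^ (m + 1))) Filter.atTop (nhds (α * D)) := by
    intro α u hu
    have := hd.hasFDerivAt.lim α (c := fun j => (2 : ℝ) ^ u j) (l := Filter.atTop)
      (by simpa [Function.comp_def] using h2.comp hu)
    simpa [div_eq_inv_mul] using this
  have h0 := h.tendsto_div_nhds_zero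
  let κ : ℝ := (4 / 3) ^ (m + 1) - 4 ^ (m + 1) * x
  have form : ∀ (k : ℕ) (e : ℝ), (-1 : ℝ) ^ k = e →
      (n k ^ (m + 1) - (2 ^ (k + 2)) ^ (m + 1) * x
      - (1 / 2) * (n k ^ (m + 1) - (n k - 2) ^ (m + 1))) / ((2 : ℝ) ^ k) ^ m =
      2 ^ k * κ + (1 / 2) * ((2 : ℝ) ^ k * ((4 / 3 + (1 - e / 3) / 2 ^ k) ^ (m + 1)
        - (4 / 3) ^ (m + 1)) + (2 : ℝ) ^ k * ((4 / 3 + (-1 - e / 3) / 2 ^ k) ^ (m + 1)
        - (4 / 3) ^ (m + 1))) := by
    intro k e he
    have hk := hn k
    rw [he] at hk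
    have hp : (0 : ℝ) < 2 ^ k := by positivity
    have e1 : n k = 2 ^ k * (4 / 3 + (1 - e / 3) / 2 ^ k) := by
      field_simp
      rw [pow_add] at hk
      linarith
    have e2 : n k - 2 = 2 ^ k * (4 / 3 + (-1 - e / 3) / 2 ^ k) := by
      field_simp
      rw [pow_add] at hk
      linarith
    have e3 : (2 : ℝ) ^ (k + 2) = 2 ^ k * 4 := by rw [pow_add]; norm_num
    rw [e2, e3]
    rw [e1]
    generalize (4 / 3 + (1 - e / 3) / 2 ^ k : ℝ) = y
    generalize (4 / 3 + (-1 - e / 3) / 2 ^ k : ℝ) = z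
    simp only [κ, mul_pow]
    generalize ((2 : ℝ) ^ k) = t at hp
    field_simp
    ring
  have u0 : Filter.Tendsto (fun j : ℕ => 2 * j) Filter.atTop Filter.atTop :=
    Filter.tendsto_id.const_mul_atTop' (by norm_num)
  have u1 : Filter.Tendsto (fun j : ℕ => 2 * j + 1) Filter.atTop Filter.atTop :=
    (Filter.tendsto_add_atTop_nat 1).comp u0
  have a0 := h0.comp u0
  have a1 := h0.comp u1
  have b0 := ((lim (1 - 1 / 3) _ u0).add (lim (-1 - 1 / 3) _ u0)).const_mul (1 / 2)
  have b1 := ((lim (1 - (-1) / 3) _ u1).add (lim (-1 - (-1) / 3) _ u1)).const_mul (1 / 2)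
  have c := (a1.sub b1).sub ((a0.sub b0).const_mul 2)
  have c' : Filter.Tendsto (fun _ : ℕ => (0 : ℝ)) Filter.atTop (nhds
      ((0 - 1 / 2 * ((1 - (-1) / 3) * D + (-1 - (-1) / 3) * D)) -
        2 * (0 - 1 / 2 * ((1 - 1 / 3) * D + (-1 - 1 / 3) * D)))) := by
    refine c.congr fun j => ?_
    simp only [Function.comp]
    rw [form (2 * j) 1 (by simp), form (2 * j + 1) (-1) (by simp [pow_succ])]
    ring
  have := tendsto_nhds_unique c' tendsto_const_nhds
  linarith

end Pool.Agent.H6.Box
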