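import Mathlib

/-! Concentration on the slice and a flow lemma for supersaturation. -/

namespace Pool.Agent.H6.Flow

open Finset

theorem sum_split {α : Type*} [DecidableEq α] (a : α) (X : Finset α) (ha : a ∉ X) (k : ℕ)
    (g : Finset α → ℝ) :
    ∑ S ∈ powersetCard (k + 1) (insert a X), g S =
      ∑ S ∈ powersetCard (k + 1) X, g S + ∑ R ∈ powersetCard k X, g (insert a R) := by
  rw [powersetCard_succ_insert ha, sum_union, sum_image]
  · intro R hR R' hR' h
    have h1 : a ∉ R := fun h => ha ((mem_powersetCard.1 hR).1 h)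
    have h2 : a ∉ R' := fun h => ha ((mem_powersetCard.1 hR').1 h)
    rw [← erase_insert h1, ← erase_insert h2]
    exact congrArg (fun s => Finset.erase s a) h
  · rw [disjoint_left]
    intro S hS hS'
    obtain ⟨R, _, rfl⟩ := mem_image.1 hS'
    exact ha ((mem_powersetCard.1 hS).1 (mem_insert_self _ _))

theorem sum_erase_count {α : Type*} [DecidableEq α] (X : Finset α) (k : ℕ)
    (g : Finset α → ℝ) :
    ∑ S ∈ powersetCard (k + 1) X, ∑ i ∈ S, g (S.erase i) =
      ((X.card - k : ℕ) : ℝ) * ∑ R ∈ powersetCard k X, g R := by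
  have h1 : ∑ S ∈ powersetCard (k + 1) X, ∑ i ∈ S, g (S.erase i) =
      ∑ S ∈ powersetCard (k + 1) X, ∑ i ∈ X, if i ∈ S then g (S.erase i) else 0 := by
    refine sum_congr rfl fun S hS => ?_
    rw [← sum_filter]
    refine sum_congr ?_ fun _ _ => rfl
    ext i
    simp only [mem_filter]
    exact ⟨fun h => ⟨(mem_powersetCard.1 hS).1 h, h⟩, fun h => h.2⟩
  have h2 : ((X.card - k : ℕ) : ℝ) * ∑ R ∈ powersetCard k X, g R =
      ∑ R ∈ powersetCard k X, ∑ i ∈ X, if i ∉ R then g R else 0 := by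
    rw [mul_sum]
    refine sum_congr rfl fun R hR => ?_
    rw [← sum_filter, sum_const, nsmul_eq_mul]
    congr 2
    have : X.filter (fun i => i ∉ R) = X \ R := by
      ext i; simp
    rw [this, card_sdiff_of_subset (mem_powersetCard.1 hR).1, (mem_powersetCard.1 hR).2]
  rw [h1, h2, sum_comm, sum_comm (s := powersetCard k X)]
  refine sum_congr rfl fun i hi => ?_
  rw [← sum_filter, ← sum_filter]
  refine sum_bij' (fun S _ => S.erase i) (fun R _ => insert i R) ?_ ?_ ?_ ?_ ?_
  · intro S hS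
    obtain ⟨hS1, hS2⟩ := mem_filter.1 hS
    obtain ⟨hS3, hS4⟩ := mem_powersetCard.1 hS1
    refine mem_filter.2 ⟨mem_powersetCard.2 ⟨(erase_subset _ _).trans hS3, ?_⟩, notMem_erase _ _⟩
    rw [card_erase_of_mem hS2, hS4]; rfl
  · intro R hR
    obtain ⟨hR1, hR2⟩ := mem_filter.1 hR
    obtain ⟨hR3, hR4⟩ := mem_powersetCard.1 hR1
    refine mem_filter.2 ⟨mem_powersetCard.2 ⟨insert_subset hi hR3, ?_⟩, mem_insert_self _ _⟩
    rw [card_insert_of_notMem hR2, hR4]
  · intro S hS
    exact insert_erase (mem_filter.1 hS).2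
  · intro R hR
    exact erase_insert (mem_filter.1 hR).2
  · intro S _
    rfl

theorem two_point (N0 N1 y0 y1 c : ℝ) (h0 : 0 ≤ N0) (h1 : 0 ≤ N1) (hc : c ≤ 1)
    (hy0 : |y0| ≤ c) (hy1 : |y1| ≤ c) (h : N0 * y0 + N1 * y1 = 0) :
    N0 * Real.exp y0 + N1 * Real.exp y1 ≤ (N0 + N1) * Real.exp (c ^ 2) := by
  have e0 := (abs_le.1 (Real.abs_exp_sub_one_sub_id_le (hy0.trans hc))).2
  have e1 := (abs_le.1 (Real.abs_exp_sub_one_sub_id_le (hy1.trans hc))).2
  have s0 : y0 ^ 2 ≤ c ^ 2 := by rw [← sq_abs y0]; gcongr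
  have s1 : y1 ^ 2 ≤ c ^ 2 := by rw [← sq_abs y1]; gcongr
  have e2 := Real.add_one_le_exp (c ^ 2)
  have a0 : N0 * Real.exp y0 ≤ N0 * (y0 + Real.exp (c ^ 2)) := by gcongr; linarith
  have a1 : N1 * Real.exp y1 ≤ N1 * (y1 + Real.exp (c ^ 2)) := by gcongr; linarith
  nlinarith

theorem mgf {α : Type*} [DecidableEq α] (L t : ℝ) (hL : 0 ≤ L) (ht : |t| * L ≤ 1)
    (X : Finset α) :
    ∀ (k : ℕ) (f : Finset α → ℝ) (μ : ℝ),
      (∀ S ∈ powersetCard k X, ∀ i ∈ S, ∀ j ∈ X, j ∉ S →
        |f S - f (insert j (S.erase i))| ≤ L) →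
      ∑ S ∈ powersetCard k X, f S = (X.card.choose k : ℝ) * μ →
      ∑ S ∈ powersetCard k X, Real.exp (t * (f S - μ)) ≤
        (X.card.choose k : ℝ) * Real.exp (X.card * (|t| * L) ^ 2) := by
  have zero_case : ∀ (X : Finset α) (f : Finset α → ℝ) (μ : ℝ),
      ∑ S ∈ powersetCard 0 X, f S = (X.card.choose 0 : ℝ) * μ →
      ∑ S ∈ powersetCard 0 X, Real.exp (t * (f S - μ)) ≤
        (X.card.choose 0 : ℝ) * Real.exp (X.card * (|t| * L) ^ 2) := by
    intro X f μ h
    simp only [powersetCard_zero, sum_singleton, Nat.choose_zero_right, Nat.cast_one,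
      one_mul] at h ⊢
    rw [h, sub_self, mul_zero]
    exact Real.exp_le_exp.2 (by positivity)
  induction X using Finset.induction_on with
  | empty =>
    intro k f μ _ h
    cases k with
    | zero => exact zero_case _ f μ h
    | succ k =>
      rw [powersetCard_eq_empty.2 (by simp)]
      simp
  | insert a X ha ih =>
    intro k f μ hf h
    cases k with
    | zero => exact zero_case _ f μ h
    | succ k =>
      rw [sum_split a X ha] at h ⊢
      rw [card_insert_of_notMem ha, Nat.choose_succ_succ'] at h ⊢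
      push_cast at h ⊢
      set N1 : ℝ := (X.card.choose k : ℝ) with hN1
      set N0 : ℝ := (X.card.choose (k + 1) : ℝ) with hN0
      have hN1' : 0 ≤ N1 := by positivity
      have hN0' : 0 ≤ N0 := by positivity
      have hf0 : ∀ S ∈ powersetCard (k + 1) X, ∀ i ∈ S, ∀ j ∈ X, j ∉ S →
          |f S - f (insert j (S.erase i))| ≤ L := by
        intro S hS i hi j hj hjS
        obtain ⟨hS1, hS2⟩ := mem_powersetCard.1 hS
        exact hf S (mem_powersetCard.2 ⟨hS1.trans (subset_insert _ _), hS2⟩) i hi j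
          (mem_insert_of_mem hj) hjS
      have hf1 : ∀ R ∈ powersetCard k X, ∀ i ∈ R, ∀ j ∈ X, j ∉ R →
          |f (insert a R) - f (insert a (insert j (R.erase i)))| ≤ L := by
        intro R hR i hi j hj hjR
        obtain ⟨hR1, hR2⟩ := mem_powersetCard.1 hR
        have haR : a ∉ R := fun h => ha (hR1 h)
        have hia : a ≠ i := fun h => haR (h ▸ hi)
        have hja : j ≠ a := fun h => ha (h ▸ hj)
        have := hf (insert a R) (mem_powersetCard.2 ⟨insert_subset_insert _ hR1, by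
          rw [card_insert_of_notMem haR, hR2]⟩) i (mem_insert_of_mem hi) j
          (mem_insert_of_mem hj) (by simp [hja, hjR])
        rwa [erase_insert_of_ne hia, insert_comm] at this
      have hmeans : ∃ m0 m1 : ℝ, ∑ S ∈ powersetCard (k + 1) X, f S = N0 * m0 ∧
          ∑ R ∈ powersetCard k X, f (insert a R) = N1 * m1 ∧ |m0 - μ| ≤ L ∧ |m1 - μ| ≤ L := by
        by_cases hk : k + 1 ≤ X.card
        · have p0 : 0 < N0 := by rw [hN0]; exact_mod_cast Nat.choose_pos hk
          have p1 : 0 < N1 := by rw [hN1]; exact_mod_cast Nat.choose_pos (by omega)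
          set m0 := (∑ S ∈ powersetCard (k + 1) X, f S) / N0 with hm0
          set m1 := (∑ R ∈ powersetCard k X, f (insert a R)) / N1 with hm1
          have q0 : ∑ S ∈ powersetCard (k + 1) X, f S = N0 * m0 := by
            rw [hm0]; field_simp
          have q1 : ∑ R ∈ powersetCard k X, f (insert a R) = N1 * m1 := by
            rw [hm1]; field_simp
          have hd : |m0 - m1| ≤ L := by
            have c1 := sum_erase_count X k (fun R => f (insert a R))
            have c2 : N0 * ((k : ℝ) + 1) = N1 * ((X.card - k : ℕ) : ℝ) := by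
              rw [hN0, hN1]; exact_mod_cast Nat.choose_succ_right_eq _ _
            have c3 : ∑ S ∈ powersetCard (k + 1) X, ∑ i ∈ S, (f S - f (insert a (S.erase i))) =
                N0 * ((k : ℝ) + 1) * (m0 - m1) := by
              simp only [sum_sub_distrib]
              rw [c1, q1]
              have : ∑ S ∈ powersetCard (k + 1) X, ∑ _i ∈ S, f S =
                  ((k : ℝ) + 1) * ∑ S ∈ powersetCard (k + 1) X, f S := by
                rw [mul_sum]
                refine sum_congr rfl fun S hS => ?_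
                rw [sum_const, nsmul_eq_mul, (mem_powersetCard.1 hS).2]; push_cast; ring
              rw [this, q0]
              linear_combination m1 * c2
            have c4 : |∑ S ∈ powersetCard (k + 1) X, ∑ i ∈ S, (f S - f (insert a (S.erase i)))| ≤
                N0 * ((k : ℝ) + 1) * L := by
              calc _ ≤ ∑ S ∈ powersetCard (k + 1) X, |∑ i ∈ S, (f S - f (insert a (S.erase i)))| :=
                    abs_sum_le_sum_abs _ _
                _ ≤ ∑ S ∈ powersetCard (k + 1) X, ((k : ℝ) + 1) * L := by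
                    refine sum_le_sum fun S hS => ?_
                    obtain ⟨hS1, hS2⟩ := mem_powersetCard.1 hS
                    calc _ ≤ ∑ i ∈ S, |f S - f (insert a (S.erase i))| := abs_sum_le_sum_abs _ _
                      _ ≤ ∑ _i ∈ S, L := by
                          refine sum_le_sum fun i hi => ?_
                          exact hf S (mem_powersetCard.2 ⟨hS1.trans (subset_insert _ _), hS2⟩) i hi
                            a (mem_insert_self _ _) (fun h => ha (hS1 h))
                      _ = _ := by rw [sum_const, nsmul_eq_mul, hS2]; push_cast; ring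
                _ = _ := by rw [sum_const, nsmul_eq_mul, card_powersetCard]; ring
            rw [c3, abs_mul, abs_of_pos (by positivity : 0 < N0 * ((k : ℝ) + 1))] at c4
            exact le_of_mul_le_mul_left c4 (by positivity)
          rw [q0, q1] at h
          have hs : 0 < N0 + N1 := by linarith
          obtain ⟨d1, d2⟩ := abs_le.1 hd
          refine ⟨m0, m1, q0, q1, abs_le.2 ⟨?_, ?_⟩, abs_le.2 ⟨?_, ?_⟩⟩
          · by_contra hc; push Not at hc; nlinarith
          · by_contra hc; push Not at hc; nlinarith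
          · by_contra hc; push Not at hc; nlinarith
          · by_contra hc; push Not at hc; nlinarith
        · have e0 : powersetCard (k + 1) X = ∅ := powersetCard_eq_empty.2 (by omega)
          have p0 : N0 = 0 := by rw [hN0]; exact_mod_cast Nat.choose_eq_zero_of_lt (by omega)
          refine ⟨μ, μ, by rw [e0, p0]; simp, ?_, by simpa using hL, by simpa using hL⟩
          rw [e0, p0] at h
          simpa using h
      obtain ⟨m0, m1, q0, q1, d0, d1⟩ := hmeans
      have i0 := ih (k + 1) f m0 hf0 q0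
      have i1 := ih k (fun R => f (insert a R)) m1 hf1 q1
      have r0 : ∑ S ∈ powersetCard (k + 1) X, Real.exp (t * (f S - μ)) =
          Real.exp (t * (m0 - μ)) * ∑ S ∈ powersetCard (k + 1) X, Real.exp (t * (f S - m0)) := by
        rw [mul_sum]
        refine sum_congr rfl fun S _ => ?_
        rw [← Real.exp_add]; congr 1; ring
      have r1 : ∑ R ∈ powersetCard k X, Real.exp (t * (f (insert a R) - μ)) =
          Real.exp (t * (m1 - μ)) *
            ∑ R ∈ powersetCard k X, Real.exp (t * (f (insert a R) - m1)) := by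
        rw [mul_sum]
        refine sum_congr rfl fun S _ => ?_
        rw [← Real.exp_add]; congr 1; ring
      rw [r0, r1]
      have tp := two_point N0 N1 (t * (m0 - μ)) (t * (m1 - μ)) (|t| * L) hN0' hN1' ht
        (by rw [abs_mul]; gcongr) (by rw [abs_mul]; gcongr)
        (by rw [q0, q1] at h; linear_combination t * h)
      set E := Real.exp (X.card * (|t| * L) ^ 2) with hE
      have hE' : 0 < E := Real.exp_pos _
      have : Real.exp ((X.card + 1) * (|t| * L) ^ 2) = E * Real.exp ((|t| * L) ^ 2) := by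
        rw [hE, ← Real.exp_add]; congr 1; ring
      rw [this]
      calc _ ≤ Real.exp (t * (m0 - μ)) * (N0 * E) + Real.exp (t * (m1 - μ)) * (N1 * E) := by
            gcongr
        _ = E * (N0 * Real.exp (t * (m0 - μ)) + N1 * Real.exp (t * (m1 - μ))) := by ring
        _ ≤ E * ((N0 + N1) * Real.exp ((|t| * L) ^ 2)) := by gcongr
        _ = _ := by ring

/-- First-moment concentration on the slice. -/
theorem abs_dev {α : Type*} [DecidableEq α] (L r : ℝ) (hL : 0 < L) (X : Finset α) (hr1 : 1 ≤ r)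
    (hr : (X.card : ℝ) ≤ r ^ 2) (k : ℕ) (f : Finset α → ℝ) (μ : ℝ)
    (hf : ∀ S ∈ powersetCard k X, ∀ i ∈ S, ∀ j ∈ X, j ∉ S →
        |f S - f (insert j (S.erase i))| ≤ L)
    (h : ∑ S ∈ powersetCard k X, f S = (X.card.choose k : ℝ) * μ) :
    ∑ S ∈ powersetCard k X, |f S - μ| ≤ 6 * L * r * (X.card.choose k : ℝ) := by
  have hr0 : 0 < r := by linarith
  set t : ℝ := 1 / (L * r) with ht
  have ht0 : 0 < t := by positivity
  have htL : t * L = 1 / r := by rw [ht]; field_simp
  have h1 : |t| * L ≤ 1 := by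
    rw [abs_of_pos ht0, htL, div_le_one hr0]; exact hr1
  have h2 : |-t| * L ≤ 1 := by rwa [abs_neg]
  have m1 := mgf L t hL.le h1 X k f μ hf h
  have m2 := mgf L (-t) hL.le h2 X k f μ hf h
  rw [abs_neg] at m2
  rw [abs_of_pos ht0, htL] at m1 m2
  have hE : Real.exp (X.card * (1 / r) ^ 2) ≤ 3 := by
    have : (X.card : ℝ) * (1 / r) ^ 2 ≤ 1 := by
      rw [div_pow, one_pow, mul_one_div, div_le_one (by positivity)]; exact hr
    calc _ ≤ Real.exp 1 := Real.exp_le_exp.2 this
      _ ≤ 3 := by have := Real.exp_one_lt_d9; linarith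
  have hN : (0 : ℝ) ≤ (X.card.choose k : ℝ) := by positivity
  have h3 : ∑ S ∈ powersetCard k X, t * |f S - μ| ≤
      ∑ S ∈ powersetCard k X, (Real.exp (t * (f S - μ)) + Real.exp (-t * (f S - μ))) := by
    refine sum_le_sum fun S _ => ?_
    have a1 := Real.add_one_le_exp (t * (f S - μ))
    have a2 := Real.add_one_le_exp (-t * (f S - μ))
    have a3 := Real.exp_pos (t * (f S - μ))
    have a4 := Real.exp_pos (-t * (f S - μ))
    rcases abs_cases (f S - μ) with ⟨e, _⟩ | ⟨e, _⟩ <;> rw [e] <;> nlinarith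
  rw [sum_add_distrib, ← mul_sum] at h3
  have h4 : t * ∑ S ∈ powersetCard k X, |f S - μ| ≤ 6 * (X.card.choose k : ℝ) := by
    have : (X.card.choose k : ℝ) * Real.exp (X.card * (1 / r) ^ 2) ≤ (X.card.choose k : ℝ) * 3 := by
      gcongr
    linarith
  rw [ht, div_mul_eq_mul_div, one_mul, div_le_iff₀ (by positivity)] at h4
  linarith

/-- Lower tail on the slice. -/
theorem low_tail {α : Type*} [DecidableEq α] (L t s : ℝ) (hL : 0 ≤ L) (ht0 : 0 ≤ t)
    (ht : t * L ≤ 1) (X : Finset α) (k : ℕ) (f : Finset α → ℝ) (μ : ℝ)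
    (hf : ∀ S ∈ powersetCard k X, ∀ i ∈ S, ∀ j ∈ X, j ∉ S →
        |f S - f (insert j (S.erase i))| ≤ L)
    (h : ∑ S ∈ powersetCard k X, f S = (X.card.choose k : ℝ) * μ) (θ : ℝ) (hθ : θ + s ≤ μ) :
    (((powersetCard k X).filter (fun S => f S < θ)).card : ℝ) ≤
      (X.card.choose k : ℝ) * Real.exp (X.card * (t * L) ^ 2 - t * s) := by
  have h2 : |-t| * L ≤ 1 := by rwa [abs_neg, abs_of_nonneg ht0]
  have m2 := mgf L (-t) hL h2 X k f μ hf h
  rw [abs_neg, abs_of_nonneg ht0] at m2
  have h3 : (((powersetCard k X).filter (fun S => f S < θ)).card : ℝ) * Real.exp (t * s) ≤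
      ∑ S ∈ powersetCard k X, Real.exp (-t * (f S - μ)) := by
    calc _ = ∑ _S ∈ (powersetCard k X).filter (fun S => f S < θ), Real.exp (t * s) := by
          rw [sum_const, nsmul_eq_mul]
      _ ≤ ∑ S ∈ (powersetCard k X).filter (fun S => f S < θ), Real.exp (-t * (f S - μ)) := by
          refine sum_le_sum fun S hS => Real.exp_le_exp.2 ?_
          have := (mem_filter.1 hS).2
          nlinarith
      _ ≤ _ := sum_le_sum_of_subset_of_nonneg (filter_subset _ _)
          fun _ _ _ => (Real.exp_pos _).le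
  rw [Real.exp_sub, ← mul_div_assoc, le_div_iff₀ (Real.exp_pos _)]
  exact h3.trans m2

section Chain

variable {β : Type*} [DecidableEq β]

/-- Powers of a kernel on the finite set `Ω`. -/
def kpow (Ω : Finset β) (R : β → β → ℝ) : ℕ → β → β → ℝ
  | 0 => fun x y => if x = y then 1 else 0
  | j + 1 => fun x y => ∑ z ∈ Ω, kpow Ω R j x z * R z y

/-- Mass of chains that already met `U`. -/
def mass (Ω U : Finset β) (R : β → β → ℝ) : ℕ → β → ℝ
  | 0 => fun _ => 0
  | j + 1 => fun y => if y ∈ U then 1 else ∑ z ∈ Ω, mass Ω U R j z * R z y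

theorem chain (Ω U : Finset β) (hU : U ⊆ Ω) (R : β → β → ℝ) (lt : β → β → Prop)
    [DecidableRel lt] (ρ : β → ℕ) (d : ℕ) (hd : 0 < d) (η : ℝ)
    (htr : ∀ x y z, lt x y → lt y z → lt x z)
    (h0 : ∀ x y, 0 ≤ R x y) (hη : ∀ x ∈ Ω, ∀ y ∈ Ω, R x y ≤ η)
    (hs : ∀ x ∈ Ω, ∀ y ∈ Ω, R x y ≠ 0 → lt x y ∧ ρ y = ρ x + d)
    (hrow : ∀ x ∈ Ω, ∑ y ∈ Ω, R x y ≤ 1) (hcol : ∀ y ∈ Ω, ∑ x ∈ Ω, R x y ≤ 1) :
    (U.card : ℝ) ≤ ∑ x ∈ Ω, (1 - ∑ y ∈ Ω, R x y) +
      η * (((U ×ˢ U).filter (fun p => lt p.1 p.2)).card : ℝ) := by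
  have k0 : ∀ j x y, 0 ≤ kpow Ω R j x y := by
    intro j
    induction j with
    | zero => intro x y; simp only [kpow]; split_ifs <;> norm_num
    | succ j ih => intro x y; exact sum_nonneg fun z _ => mul_nonneg (ih _ _) (h0 _ _)
  have krow : ∀ j x, ∑ y ∈ Ω, kpow Ω R j x y ≤ 1 := by
    intro j
    induction j with
    | zero => intro x; simp only [kpow, sum_ite_eq]; split_ifs <;> norm_num
    | succ j ih =>
      intro x
      simp only [kpow]
      rw [sum_comm]
      refine le_trans (sum_le_sum fun z hz => ?_) (ih x)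
      rw [← mul_sum]
      exact mul_le_of_le_one_right (k0 _ _ _) (hrow z hz)
  have ksup : ∀ j x, ∀ y ∈ Ω, kpow Ω R (j + 1) x y ≠ 0 → lt x y ∧ ρ y = ρ x + d * (j + 1) := by
    intro j
    induction j with
    | zero =>
      intro x y hy h
      simp only [kpow] at h
      obtain ⟨z, hz, hz'⟩ := exists_ne_zero_of_sum_ne_zero h
      have e : x = z := by
        by_contra hc
        simp [hc] at hz'
      subst e
      have := hs x hz y hy (right_ne_zero_of_mul hz')
      exact ⟨this.1, by omega⟩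
    | succ j ih =>
      intro x y hy h
      rw [kpow] at h
      obtain ⟨z, hz, hz'⟩ := exists_ne_zero_of_sum_ne_zero h
      have a1 := ih x z hz (left_ne_zero_of_mul hz')
      have a2 := hs z hz y hy (right_ne_zero_of_mul hz')
      refine ⟨htr _ _ _ a1.1 a2.1, ?_⟩
      rw [a2.2, a1.2]; ring
  have kη : ∀ j x, ∀ y ∈ Ω, kpow Ω R (j + 1) x y ≤ η := by
    intro j x y hy
    have hη0 : 0 ≤ η := (h0 y y).trans (hη y hy y hy)
    rw [kpow]
    calc _ ≤ ∑ z ∈ Ω, kpow Ω R j x z * η :=
          sum_le_sum fun z hz => mul_le_mul_of_nonneg_left (hη z hz y hy) (k0 _ _ _)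
      _ = (∑ z ∈ Ω, kpow Ω R j x z) * η := by rw [sum_mul]
      _ ≤ η := mul_le_of_le_one_left hη0 (krow j x)
  have ktot : ∀ T x, ∀ y ∈ Ω, ∑ j ∈ range T, kpow Ω R (j + 1) x y ≤ if lt x y then η else 0 := by
    intro T x y hy
    have hη0 : 0 ≤ η := (h0 y y).trans (hη y hy y hy)
    by_cases hex : ∃ j ∈ range T, kpow Ω R (j + 1) x y ≠ 0
    · obtain ⟨j, hj, hj'⟩ := hex
      have a1 := ksup j x y hy hj'
      rw [if_pos a1.1, sum_eq_single_of_mem j hj]
      · exact kη j x y hy
      · intro i _ hij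
        by_contra hc
        have a2 := ksup i x y hy hc
        have : d * (i + 1) = d * (j + 1) := by omega
        have := Nat.eq_of_mul_eq_mul_left hd this
        omega
    · push Not at hex
      rw [sum_eq_zero hex]
      split_ifs
      · exact hη0
      · exact le_rfl
  have m0 : ∀ j y, 0 ≤ mass Ω U R j y := by
    intro j
    induction j with
    | zero => intro y; exact le_rfl
    | succ j ih =>
      intro y
      simp only [mass]
      split_ifs
      · norm_num
      · exact sum_nonneg fun z _ => mul_nonneg (ih _) (h0 _ _)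
  have m1 : ∀ j, ∀ y ∈ Ω, mass Ω U R j y ≤ 1 := by
    intro j
    induction j with
    | zero => intro y _; exact zero_le_one
    | succ j ih =>
      intro y hy
      simp only [mass]
      split_ifs
      · exact le_rfl
      · exact le_trans (sum_le_sum fun z hz => mul_le_of_le_one_left (h0 _ _) (ih z hz))
          (hcol y hy)
  have mk : ∀ T y, mass Ω U R T y ≤ ∑ x ∈ U, ∑ j ∈ range T, kpow Ω R j x y := by
    intro T
    induction T with
    | zero => intro y; simp [mass]
    | succ T ih =>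
      intro y
      simp only [mass, sum_range_succ', sum_add_distrib]
      have hA : ∑ z ∈ Ω, mass Ω U R T z * R z y ≤
          ∑ x ∈ U, ∑ j ∈ range T, kpow Ω R (j + 1) x y := by
        calc _ ≤ ∑ z ∈ Ω, (∑ x ∈ U, ∑ j ∈ range T, kpow Ω R j x z) * R z y :=
              sum_le_sum fun z _ => mul_le_mul_of_nonneg_right (ih z) (h0 _ _)
          _ = _ := by
              simp only [kpow, sum_mul]
              rw [sum_comm]
              refine sum_congr rfl fun x _ => sum_comm
      have hB : 0 ≤ ∑ x ∈ U, ∑ j ∈ range T, kpow Ω R (j + 1) x y :=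
        sum_nonneg fun _ _ => sum_nonneg fun _ _ => k0 _ _ _
      have hC : ∑ x ∈ U, kpow Ω R 0 x y = if y ∈ U then 1 else 0 := by
        simp only [kpow, sum_ite_eq']
      rw [hC]
      split_ifs <;> linarith
  have rk : ∀ T, ∀ y ∈ Ω, ∑ z ∈ Ω, mass Ω U R T z * R z y ≤
      ∑ x ∈ U, if lt x y then η else 0 := by
    intro T y hy
    calc _ ≤ ∑ z ∈ Ω, (∑ x ∈ U, ∑ j ∈ range T, kpow Ω R j x z) * R z y :=
          sum_le_sum fun z _ => mul_le_mul_of_nonneg_right (mk T z) (h0 _ _)
      _ = ∑ x ∈ U, ∑ j ∈ range T, kpow Ω R (j + 1) x y := by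
          simp only [kpow, sum_mul]
          rw [sum_comm]
          refine sum_congr rfl fun x _ => sum_comm
      _ ≤ _ := sum_le_sum fun x _ => ktot T x y hy
  have stab : ∀ T, ∀ y ∈ Ω, ρ y < T → mass Ω U R (T + 1) y = mass Ω U R T y := by
    intro T
    induction T with
    | zero => intro y _ h; omega
    | succ T ih =>
      intro y hy h
      change (if y ∈ U then 1 else ∑ z ∈ Ω, mass Ω U R (T + 1) z * R z y) =
        (if y ∈ U then 1 else ∑ z ∈ Ω, mass Ω U R T z * R z y)
      split_ifs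
      · rfl
      · refine sum_congr rfl fun z hz => ?_
        by_cases hR : R z y = 0
        · simp [hR]
        · have := (hs z hz y hy hR).2
          rw [ih z hz (by omega)]
  set T := Ω.sup ρ + 1 with hT
  have fix : ∀ y ∈ Ω, mass Ω U R T y =
      if y ∈ U then 1 else ∑ z ∈ Ω, mass Ω U R T z * R z y := by
    intro y hy
    rw [← stab T y hy (Nat.lt_succ_of_le (le_sup (f := ρ) hy))]
    rfl
  set m := mass Ω U R T with hm
  have e1 : ∑ y ∈ Ω, m y =
      ∑ y ∈ U, (1 - ∑ z ∈ Ω, m z * R z y) + ∑ y ∈ Ω, ∑ z ∈ Ω, m z * R z y := by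
    have : ∑ y ∈ U, (1 - ∑ z ∈ Ω, m z * R z y) =
        ∑ y ∈ Ω, if y ∈ U then (1 - ∑ z ∈ Ω, m z * R z y) else 0 := by
      rw [← sum_filter]
      refine sum_congr ?_ fun _ _ => rfl
      ext y
      simp only [mem_filter]
      exact ⟨fun h => ⟨hU h, h⟩, fun h => h.2⟩
    rw [this, ← sum_add_distrib]
    refine sum_congr rfl fun y hy => ?_
    rw [fix y hy]
    split_ifs <;> ring
  have e2 : ∑ y ∈ Ω, m y - ∑ y ∈ Ω, ∑ z ∈ Ω, m z * R z y ≤ ∑ x ∈ Ω, (1 - ∑ y ∈ Ω, R x y) := by
    rw [sum_comm, ← sum_sub_distrib]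
    refine sum_le_sum fun x hx => ?_
    rw [← mul_sum]
    have a1 := hrow x hx
    have a2 := m1 T x hx
    have a3 := m0 T x
    nlinarith
  have e3 : ∑ y ∈ U, ∑ z ∈ Ω, m z * R z y ≤
      η * (((U ×ˢ U).filter (fun p => lt p.1 p.2)).card : ℝ) := by
    calc _ ≤ ∑ y ∈ U, ∑ x ∈ U, if lt x y then η else 0 :=
          sum_le_sum fun y hy => rk T y (hU hy)
      _ = ∑ p ∈ U ×ˢ U, if lt p.1 p.2 then η else 0 := by
          rw [sum_product, sum_comm]
      _ = _ := by rw [← sum_filter, sum_const, nsmul_eq_mul, mul_comm]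
  rw [sum_sub_distrib, sum_const, nsmul_eq_mul, mul_one] at e1
  linarith

omit [DecidableEq β] in
/-- Deficit of the square of a doubly substochastic kernel. -/
theorem square (Ω : Finset β) (Q : β → β → ℝ)
    (hrow : ∀ x ∈ Ω, ∑ y ∈ Ω, Q x y ≤ 1) (hcol : ∀ y ∈ Ω, ∑ x ∈ Ω, Q x y ≤ 1) :
    ∑ x ∈ Ω, (1 - ∑ y ∈ Ω, ∑ z ∈ Ω, Q x z * Q z y) ≤ 2 * ∑ x ∈ Ω, (1 - ∑ y ∈ Ω, Q x y) := by
  have e : ∑ x ∈ Ω, ∑ y ∈ Ω, ∑ z ∈ Ω, Q x z * Q z y =
      ∑ z ∈ Ω, (∑ x ∈ Ω, Q x z) * ∑ y ∈ Ω, Q z y := by
    simp only [sum_mul_sum]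
    rw [sum_comm (s := Ω) (t := Ω) (f := fun z x => ∑ y ∈ Ω, Q x z * Q z y)]
    exact sum_congr rfl fun x _ => sum_comm
  have e2 : ∑ z ∈ Ω, ((∑ x ∈ Ω, Q x z) + (∑ y ∈ Ω, Q z y) - 1) ≤
      ∑ z ∈ Ω, (∑ x ∈ Ω, Q x z) * ∑ y ∈ Ω, Q z y := by
    refine sum_le_sum fun z hz => ?_
    have a1 := hrow z hz
    have a2 := hcol z hz
    nlinarith
  have e3 : ∑ z ∈ Ω, ∑ x ∈ Ω, Q x z = ∑ x ∈ Ω, ∑ z ∈ Ω, Q x z := sum_comm
  simp only [sum_sub_distrib, sum_add_distrib] at e2 ⊢
  rw [e]
  rw [e3] at e2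
  linarith

omit [DecidableEq β] in
/-- Normalising a weight kernel to a doubly substochastic kernel with small deficit. -/
theorem flow (Ω : Finset β) (ω : β → β → ℝ) (O I A : β → ℝ) (θ B Λ : ℝ) (hθ : 0 < θ)
    (hΛ : Λ ≤ θ) (hB : 0 ≤ B) (h0 : ∀ x y, 0 ≤ ω x y)
    (hO : ∀ x ∈ Ω, O x = ∑ y ∈ Ω, ω x y) (hI : ∀ y ∈ Ω, I y = ∑ x ∈ Ω, ω x y)
    (hA : ∀ y ∈ Ω, A y = ∑ x ∈ Ω, ω x y * (O x - O y))
    (hIB : ∀ y ∈ Ω, I y ≤ B)
    (hOΛ : ∀ x ∈ Ω, ∀ y ∈ Ω, ω x y ≠ 0 → |O x - O y| ≤ Λ) :
    ∃ Q : β → β → ℝ, (∀ x y, 0 ≤ Q x y) ∧ (∀ x y, Q x y ≤ ω x y / θ) ∧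
      (∀ x ∈ Ω, ∑ y ∈ Ω, Q x y ≤ 1) ∧ (∀ y ∈ Ω, ∑ x ∈ Ω, Q x y ≤ 1) ∧
      ∑ x ∈ Ω, (1 - ∑ y ∈ Ω, Q x y) ≤
        (1 + B / θ) * ((Ω.filter (fun x => O x < 2 * θ)).card : ℝ) +
          (∑ x ∈ Ω, |O x - I x|) / θ + (∑ x ∈ Ω, |A x|) / θ ^ 2 +
          (Ω.card : ℝ) * (B * Λ ^ 2 / θ ^ 3) := by
  set P : β → β → ℝ := fun x y => ω x y / max (O x) θ with hP
  have hm : ∀ x, 0 < max (O x) θ := fun x => lt_of_lt_of_le hθ (le_max_right _ _)
  have P0 : ∀ x y, 0 ≤ P x y := fun x y => div_nonneg (h0 _ _) (hm x).le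
  have Pθ : ∀ x y, P x y ≤ ω x y / θ := fun x y =>
    div_le_div_of_nonneg_left (h0 _ _) hθ (le_max_right _ _)
  have Prow : ∀ x ∈ Ω, ∑ y ∈ Ω, P x y = O x / max (O x) θ := by
    intro x hx
    rw [hO x hx, sum_div, ← hO x hx]
  set c : β → ℝ := fun y => ∑ x ∈ Ω, P x y with hc
  have hc1 : ∀ y, 1 ≤ max (c y) 1 := fun y => le_max_right _ _
  have QP : ∀ x y, P x y / max (c y) 1 ≤ P x y := fun x y => div_le_self (P0 _ _) (hc1 y)
  refine ⟨fun x y => P x y / max (c y) 1, fun x y => div_nonneg (P0 _ _) (by linarith [hc1 y]),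
    fun x y => (QP x y).trans (Pθ x y), fun x hx => ?_, fun y _ => ?_, ?_⟩
  · refine (sum_le_sum fun y _ => QP x y).trans ?_
    rw [Prow x hx, div_le_one (hm x)]
    exact le_max_left _ _
  · rw [← sum_div, div_le_one (by linarith [hc1 y])]
    exact le_max_left _ _
  · have e1 : ∑ x ∈ Ω, (1 - ∑ y ∈ Ω, P x y / max (c y) 1) =
        ∑ x ∈ Ω, ((1 - O x / max (O x) θ) + (c x - c x / max (c x) 1)) := by
      simp only [sum_sub_distrib, sum_add_distrib]
      have a1 : ∑ x ∈ Ω, ∑ y ∈ Ω, P x y / max (c y) 1 = ∑ y ∈ Ω, c y / max (c y) 1 := by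
        rw [sum_comm]
        exact sum_congr rfl fun y _ => by rw [← sum_div]
      have a2 : ∑ x ∈ Ω, O x / max (O x) θ = ∑ y ∈ Ω, c y := by
        rw [← sum_congr rfl Prow, sum_comm]
      rw [a1, a2]; ring
    rw [e1]
    have e2 : ∀ y ∈ Ω, (1 - O y / max (O y) θ) + (c y - c y / max (c y) 1) ≤
        (if O y < 2 * θ then 1 + B / θ else 0) + |O y - I y| / θ + |A y| / θ ^ 2 +
          B * Λ ^ 2 / θ ^ 3 := by
      intro y hy
      have n1 : 0 ≤ |O y - I y| / θ := by positivity
      have n2 : 0 ≤ |A y| / θ ^ 2 := by positivity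
      have n3 : 0 ≤ B * Λ ^ 2 / θ ^ 3 := by positivity
      have c0 : 0 ≤ c y := sum_nonneg fun x _ => P0 x y
      have O0 : 0 ≤ O y := by rw [hO y hy]; exact sum_nonneg fun x _ => h0 _ _
      split_ifs with hb
      · have b1 : 0 ≤ O y / max (O y) θ := div_nonneg O0 (hm y).le
        have b2 : 0 ≤ c y / max (c y) 1 := div_nonneg c0 (by linarith [hc1 y])
        have b3 : c y ≤ B / θ := by
          calc c y ≤ ∑ x ∈ Ω, ω x y / θ := sum_le_sum fun x _ => Pθ x y
            _ = I y / θ := by rw [hI y hy, sum_div]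
            _ ≤ B / θ := by gcongr; exact hIB y hy
        linarith
      · push Not at hb
        have v0 : 0 < O y := by linarith
        have b1 : O y / max (O y) θ = 1 := by
          rw [max_eq_left (by linarith), div_self v0.ne']
        have b2 : c y ≤ 1 + (|O y - I y| / θ + |A y| / θ ^ 2 + B * Λ ^ 2 / θ ^ 3) := by
          have d1 : c y ≤ ∑ x ∈ Ω, (ω x y / O y - ω x y * (O x - O y) / O y ^ 2 +
              ω x y * (Λ ^ 2 / θ ^ 3)) := by
            refine sum_le_sum fun x hx => ?_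
            by_cases hω : ω x y = 0
            · simp [hP, hω]
            · have l1 := hOΛ x hx y hy hω
              have l2 := abs_le.1 l1
              have u0 : θ ≤ O x := by linarith
              have u1 : 0 < O x := by linarith
              have l3 : (O x - O y) ^ 2 ≤ Λ ^ 2 := by
                rw [← sq_abs]; gcongr
              simp only [hP]
              rw [max_eq_left u0]
              have id1 : ω x y / O x = ω x y / O y - ω x y * (O x - O y) / O y ^ 2 +
                  ω x y * ((O x - O y) ^ 2 / (O y ^ 2 * O x)) := by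
                field_simp; ring
              rw [id1]
              have l4 : (O x - O y) ^ 2 / (O y ^ 2 * O x) ≤ Λ ^ 2 / θ ^ 3 := by
                have : θ ^ 3 ≤ O y ^ 2 * O x := by
                  have : θ ^ 2 ≤ O y ^ 2 := by gcongr; linarith
                  calc θ ^ 3 = θ ^ 2 * θ := by ring
                    _ ≤ _ := by gcongr
                exact div_le_div₀ (by positivity) l3 (by positivity) this
              have := mul_le_mul_of_nonneg_left l4 (h0 x y)
              linarith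
          rw [sum_add_distrib, sum_sub_distrib, ← sum_div, ← sum_div, ← sum_mul, ← hI y hy,
            ← hA y hy] at d1
          have d2 : I y / O y ≤ 1 + |O y - I y| / θ := by
            have : I y / O y = 1 + (I y - O y) / O y := by field_simp; ring
            rw [this]
            have t1 : (I y - O y) / O y ≤ |O y - I y| / O y := by
              gcongr; rw [abs_sub_comm]; exact le_abs_self _
            have t2 : |O y - I y| / O y ≤ |O y - I y| / θ := by
              gcongr; linarith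
            linarith
          have d3 : -(A y / O y ^ 2) ≤ |A y| / θ ^ 2 := by
            have t1 : -(A y / O y ^ 2) ≤ |A y| / O y ^ 2 := by
              rw [← neg_div]; gcongr; exact neg_le_abs _
            have t2 : |A y| / O y ^ 2 ≤ |A y| / θ ^ 2 := by
              gcongr; linarith
            linarith
          have d4 : I y * (Λ ^ 2 / θ ^ 3) ≤ B * Λ ^ 2 / θ ^ 3 := by
            rw [mul_div_assoc]; gcongr; exact hIB y hy
          linarith
        have b3 : c y - c y / max (c y) 1 ≤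
            |O y - I y| / θ + |A y| / θ ^ 2 + B * Λ ^ 2 / θ ^ 3 := by
          rcases le_total (c y) 1 with h1 | h1
          · rw [max_eq_right h1, div_one]; linarith
          · rw [max_eq_left h1, div_self (by linarith)]; linarith
        linarith
    refine (sum_le_sum e2).trans (le_of_eq ?_)
    simp only [sum_add_distrib]
    rw [← sum_filter, sum_const, sum_const, nsmul_eq_mul, nsmul_eq_mul, ← sum_div, ← sum_div]
    ring

end Chain

end Pool.Agent.H6.Flow
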