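import Mathlib
import Pool.Agent.H6.Flow

/-! Graphs of large odd girth and large chromatic number; minimal non-colourable subgraphs. -/

namespace Pool.Agent.H6.Crit

open Finset Pool.Agent.H6.Flow

theorem kneser {α : Type*} [DecidableEq α] (X : Finset α) (k : ℕ) (hk : 0 < k)
    (hX : X.card = 2 * k) (ε : ℝ) (hε : 0 < ε) (hε1 : ε ≤ 1) (I : Finset (Finset α))
    (hI : I ⊆ powersetCard k X) (h : ∀ u ∈ I, ∀ v ∈ I, ε * k ≤ ((u ∩ v).card : ℝ)) :
    (I.card : ℝ) ≤ ((2 * k).choose k : ℝ) * Real.exp (-(ε ^ 2 * k / 128)) := by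
  rcases I.eq_empty_or_nonempty with rfl | hne
  · simp only [card_empty, Nat.cast_zero]; positivity
  have hkR : (0 : ℝ) < k := by exact_mod_cast hk
  set g : Finset α → ℕ := fun S => I.inf' hne (fun T => (S \ T).card) with hg
  have glip : ∀ (S S' : Finset α) (i : α), S ⊆ insert i S' → g S ≤ g S' + 1 := by
    intro S S' i hS
    obtain ⟨T, hT, e⟩ := exists_mem_eq_inf' hne (fun T => (S' \ T).card)
    have a1 : g S ≤ (S \ T).card := inf'_le _ hT
    have a2 : S \ T ⊆ insert i (S' \ T) := by
      intro a ha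
      obtain ⟨b1, b2⟩ := mem_sdiff.1 ha
      rcases mem_insert.1 (hS b1) with rfl | b3
      · exact mem_insert_self _ _
      · exact mem_insert_of_mem (mem_sdiff.2 ⟨b3, b2⟩)
    have a3 := (card_le_card a2).trans (card_insert_le _ _)
    have a4 : g S' = (S' \ T).card := e
    omega
  have hlip : ∀ (S : Finset α) (i j : α), |(g S : ℝ) - g (insert j (S.erase i))| ≤ 1 := by
    intro S i j
    have a1 := glip S (insert j (S.erase i)) i (by
      intro a ha
      by_cases hai : a = i
      · exact hai ▸ mem_insert_self _ _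
      · exact mem_insert_of_mem (mem_insert_of_mem (mem_erase.2 ⟨hai, ha⟩)))
    have a2 := glip (insert j (S.erase i)) S j (insert_subset_insert _ (erase_subset _ _))
    have b1 : (g S : ℝ) ≤ g (insert j (S.erase i)) + 1 := by exact_mod_cast a1
    have b2 : (g (insert j (S.erase i)) : ℝ) ≤ g S + 1 := by exact_mod_cast a2
    rw [abs_le]; constructor <;> linarith
  have hN : (0 : ℝ) < (X.card.choose k : ℝ) := by exact_mod_cast Nat.choose_pos (by omega)
  set μ := (∑ S ∈ powersetCard k X, (g S : ℝ)) / (X.card.choose k : ℝ) with hμ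
  have e0 : ∑ S ∈ powersetCard k X, (g S : ℝ) = (X.card.choose k : ℝ) * μ := by
    rw [hμ]; field_simp
  have hexp : (X.card : ℝ) * (ε / 16 * 1) ^ 2 - ε / 16 * (ε * k / 4) = -(ε ^ 2 * k / 128) := by
    rw [hX]; push_cast; ring
  have hεk : 0 < ε * k := by positivity
  rcases le_total (ε * k / 2) μ with hm | hm
  · have t := low_tail 1 (ε / 16) (ε * k / 4) zero_le_one (by positivity) (by linarith) X k
      (fun S => (g S : ℝ)) μ (fun S _ i _ j _ _ => hlip S i j) e0 (ε * k / 4) (by linarith)
    rw [hexp, hX] at t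
    refine le_trans ?_ t
    norm_cast
    refine card_le_card fun T hT => mem_filter.2 ⟨hI hT, ?_⟩
    have : g T ≤ (T \ T).card := inf'_le _ hT
    have : g T = 0 := by simpa using this
    rw [this]; push_cast; linarith
  · have t := low_tail 1 (ε / 16) (ε * k / 4) zero_le_one (by positivity) (by linarith) X k
      (fun S => -(g S : ℝ)) (-μ) (fun S _ i _ j _ _ => by
        rw [neg_sub_neg, abs_sub_comm]; exact hlip S i j)
      (by rw [sum_neg_distrib, e0]; ring) (-(3 * (ε * k) / 4)) (by linarith)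
    rw [hexp, hX] at t
    refine le_trans ?_ t
    norm_cast
    refine card_le_card_of_injOn (fun u => X \ u) (fun u hu => ?_) (fun u hu v hv e => ?_)
    · obtain ⟨u1, u2⟩ := mem_powersetCard.1 (hI hu)
      refine mem_coe.2 (mem_filter.2 ⟨mem_powersetCard.2 ⟨sdiff_subset, ?_⟩, ?_⟩)
      · rw [card_sdiff_of_subset u1]; omega
      · obtain ⟨T, hT, e⟩ := exists_mem_eq_inf' hne (fun T => ((X \ u) \ T).card)
        have a4 : g (X \ u) = ((X \ u) \ T).card := e
        obtain ⟨v1, v2⟩ := mem_powersetCard.1 (hI hT)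
        have a5 : (X \ u) \ T = X \ (u ∪ T) := by rw [sdiff_sdiff_left, sup_eq_union]
        have a6 := card_union_add_card_inter u T
        have a7 := card_sdiff_add_card_eq_card (union_subset u1 v1)
        have a8 : g (X \ u) = (u ∩ T).card := by rw [a4, a5]; omega
        have := h u hu T hT
        rw [a8]; push_cast; linarith
    · have u1 := (mem_powersetCard.1 (hI hu)).1
      have v1 := (mem_powersetCard.1 (hI hv)).1
      rw [← Finset.sdiff_sdiff_eq_self u1, ← Finset.sdiff_sdiff_eq_self v1]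
      exact congrArg (fun s => X \ s) e

/-- No closed walk of odd length below `ℓ`. -/
def NoOdd {V : Type*} (G : SimpleGraph V) (ℓ : ℕ) : Prop :=
  ∀ (v : V) (p : G.Walk v v), Odd p.length → ℓ ≤ p.length

theorem NoOdd.of_hom {V W : Type*} {G : SimpleGraph V} {H : SimpleGraph W} {ℓ : ℕ}
    (f : G →g H) (h : NoOdd H ℓ) : NoOdd G ℓ := by
  intro v p hp
  have := h (f v) (p.map f) (by rwa [SimpleGraph.Walk.length_map])
  rwa [SimpleGraph.Walk.length_map] at this

theorem minimal {V : Type*} [Finite V] (G : SimpleGraph V) (K : ℕ) (h : ¬ G.Colorable K) :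
    ∃ H ≤ G, ¬ H.Colorable K ∧ ∀ e ∈ H.edgeSet, (H.deleteEdges {e}).Colorable K := by
  obtain ⟨H, hH, hmin⟩ := exists_minimal_le_of_wellFoundedLT (fun H : SimpleGraph V => ¬ H.Colorable K) G h
  refine ⟨H, hH, hmin.prop, fun e he => ?_⟩
  by_contra hc
  have h1 : H ≤ H.deleteEdges {e} := hmin.le_of_le hc (SimpleGraph.deleteEdges_le _)
  have h2 := SimpleGraph.edgeSet_mono h1 he
  simp at h2

/-- generalized Kneser graph -/
def GK (k ℓ : ℕ) (_hk : 0 < k) (hℓ : 0 < ℓ) :
    SimpleGraph (powersetCard k (univ : Finset (Fin (2 * k)))) where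
  Adj u v := ℓ * (u.1 ∩ v.1).card < k
  symm := ⟨fun u v h => by rw [inter_comm]; exact h⟩
  loopless := ⟨fun u h => by
    rw [inter_self, (mem_powersetCard.1 u.2).2] at h
    have := Nat.le_mul_of_pos_left k hℓ
    omega⟩

theorem GK_walk (k ℓ : ℕ) (hk : 0 < k) (hℓ : 0 < ℓ)
    (u w : powersetCard k (univ : Finset (Fin (2 * k)))) (p : (GK k ℓ hk hℓ).Walk u w) :
    (Even p.length → ℓ * (u.1 \ w.1).card ≤ p.length * k) ∧
      (Odd p.length → ℓ * (u.1 ∩ w.1).card ≤ p.length * k) := by
  induction p with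
  | nil => simp
  | @cons u v w h p ih =>
    have hu := (mem_powersetCard.1 u.2).2
    have hv := (mem_powersetCard.1 v.2).2
    have hw := (mem_powersetCard.1 w.2).2
    have h' : ℓ * (u.1 ∩ v.1).card < k := h
    have a0 := card_sdiff_add_card_inter v.1 w.1
    rw [SimpleGraph.Walk.length_cons]
    constructor
    · intro he
      have i2 := ih.2 (by rcases Nat.even_or_odd p.length with h | h
                          · exact absurd he (by rw [Nat.even_add_one]; simpa using h)
                          · exact h)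
      have a1 : u.1 \ w.1 ⊆ (u.1 ∩ v.1) ∪ (univ \ (v.1 ∪ w.1)) := by
        intro a ha
        by_cases hv : a ∈ v.1 <;> simp_all
      have a2 := (card_le_card a1).trans (card_union_le _ _)
      have a3 := card_sdiff_add_card_eq_card (subset_univ (v.1 ∪ w.1))
      have a4 := card_union_add_card_inter v.1 w.1
      rw [card_univ, Fintype.card_fin] at a3
      have a5 : (u.1 \ w.1).card ≤ (u.1 ∩ v.1).card + (v.1 ∩ w.1).card := by omega
      have a6 := Nat.mul_le_mul_left ℓ a5
      rw [mul_add] at a6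
      rw [add_mul]
      omega
    · intro ho
      have i1 := ih.1 (by rcases Nat.even_or_odd p.length with h | h
                          · exact h
                          · exact absurd ho (by rw [Nat.odd_add_one]; simpa using h))
      have a1 : u.1 ∩ w.1 ⊆ (u.1 ∩ v.1) ∪ (w.1 \ v.1) := by
        intro a ha
        by_cases hv : a ∈ v.1 <;> simp_all
      have a2 := (card_le_card a1).trans (card_union_le _ _)
      have a3 := card_sdiff_add_card_inter w.1 v.1
      rw [inter_comm w.1 v.1] at a3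
      have a5 : (u.1 ∩ w.1).card ≤ (u.1 ∩ v.1).card + (v.1 \ w.1).card := by omega
      have a6 := Nat.mul_le_mul_left ℓ a5
      rw [mul_add] at a6
      rw [add_mul]
      omega

theorem GK_noOdd (k ℓ : ℕ) (hk : 0 < k) (hℓ : 0 < ℓ) : NoOdd (GK k ℓ hk hℓ) ℓ := by
  intro u p hp
  have := (GK_walk k ℓ hk hℓ u u p).2 hp
  rw [inter_self, (mem_powersetCard.1 u.2).2] at this
  exact Nat.le_of_mul_le_mul_right this hk

theorem GK_not_colorable (K ℓ : ℕ) (hK : 0 < K) (hℓ : 0 < ℓ) :
    ¬ (GK (128 * ℓ ^ 2 * K) ℓ (by positivity) hℓ).Colorable K := by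
  classical
  set k := 128 * ℓ ^ 2 * K with hk
  have k0 : 0 < k := by positivity
  rintro ⟨col⟩
  have hℓR : (1 : ℝ) ≤ ℓ := by exact_mod_cast hℓ
  have hcl : ∀ a : Fin K, (((univ.filter (fun u => col u = a)).image Subtype.val).card : ℝ)
      ≤ ((2 * k).choose k : ℝ) * Real.exp (-((1 / (ℓ : ℝ)) ^ 2 * k / 128)) := by
    intro a
    refine kneser univ k k0 (by rw [card_univ, Fintype.card_fin]) (1 / ℓ) (by positivity)
      (by rw [div_le_one (by linarith)]; exact hℓR) _ ?_ ?_
    · intro u hu
      obtain ⟨w, _, rfl⟩ := mem_image.1 hu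
      exact w.2
    · intro u hu v hv
      obtain ⟨w, hw, rfl⟩ := mem_image.1 hu
      obtain ⟨z, hz, rfl⟩ := mem_image.1 hv
      have : ¬ ℓ * (w.1 ∩ z.1).card < k := fun h =>
        col.valid (v := w) (w := z) h ((mem_filter.1 hw).2.trans (mem_filter.1 hz).2.symm)
      have : (k : ℝ) ≤ ℓ * (w.1 ∩ z.1).card := by exact_mod_cast not_lt.1 this
      rw [div_mul_eq_mul_div, one_mul, div_le_iff₀ (by linarith)]
      linarith
  have e : (1 / (ℓ : ℝ)) ^ 2 * k / 128 = K := by
    rw [hk]; push_cast; field_simp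
  rw [e] at hcl
  have hsum : (((2 * k).choose k : ℕ) : ℝ) ≤
      K * (((2 * k).choose k : ℝ) * Real.exp (-(K : ℝ))) := by
    have a1 : (univ : Finset (powersetCard k (univ : Finset (Fin (2 * k))))).card =
        ∑ a : Fin K, (univ.filter (fun u => col u = a)).card :=
      card_eq_sum_card_fiberwise fun _ _ => mem_univ _
    rw [card_univ, Fintype.card_coe, card_powersetCard, card_univ, Fintype.card_fin] at a1
    calc _ = ∑ a : Fin K, ((univ.filter (fun u => col u = a)).card : ℝ) := by
          exact_mod_cast a1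
      _ ≤ ∑ _a : Fin K, ((2 * k).choose k : ℝ) * Real.exp (-(K : ℝ)) := by
          refine sum_le_sum fun a _ => ?_
          have := hcl a
          rwa [card_image_of_injective _ Subtype.val_injective] at this
      _ = _ := by rw [sum_const, card_univ, Fintype.card_fin, nsmul_eq_mul]
  have hN : (0 : ℝ) < ((2 * k).choose k : ℕ) := by exact_mod_cast Nat.choose_pos (by omega)
  have h1 : 1 ≤ K * Real.exp (-(K : ℝ)) := by
    refine le_of_mul_le_mul_left ?_ hN
    linarith
  rw [Real.exp_neg, ← div_eq_mul_inv, one_le_div (Real.exp_pos _)] at h1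
  have := Real.add_one_le_exp (K : ℝ)
  linarith

/-- An equality gadget: a finite graph of large odd girth with a critical edge. -/
theorem gadget (K ℓ : ℕ) (hK : 0 < K) (hℓ : 0 < ℓ) :
    ∃ (W : Type) (_ : Fintype W) (F : SimpleGraph W) (x y : W), F.Adj x y ∧ NoOdd F ℓ ∧
      ¬ F.Colorable K ∧ (F.deleteEdges {s(x, y)}).Colorable K := by
  obtain ⟨H, h1, h2, h3⟩ := minimal _ K (GK_not_colorable K ℓ hK hℓ)
  have : ∃ x y, H.Adj x y := by
    by_contra hc
    push Not at hc
    exact h2 ⟨SimpleGraph.Coloring.mk (fun _ => ⟨0, hK⟩) fun h => absurd h (hc _ _)⟩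
  obtain ⟨x, y, hxy⟩ := this
  exact ⟨_, inferInstance, H, x, y, hxy,
    NoOdd.of_hom (SimpleGraph.Hom.ofLE h1) (GK_noOdd _ ℓ _ hℓ), h2, h3 _ hxy⟩

/-- Passing to a critical subgraph without isolated vertices on `Fin n`. -/
theorem extract {V : Type*} [Fintype V] (G : SimpleGraph V) (K ℓ : ℕ) (hK : 0 < K)
    (h : ¬ G.Colorable K) (ho : NoOdd G ℓ) {ι : Type*} [Fintype ι] (a b : ι → V)
    (ha : Function.Injective a) (hb : Function.Injective b) (hab : ∀ i j, a i ≠ b j)
    (hcrit : ∀ i j, (G.deleteEdges {s(a i, b j)}).Colorable K) :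
    ∃ n : ℕ, Fintype.card ι ≤ n ∧ n ≤ Fintype.card V ∧ ∃ H : SimpleGraph (Fin n),
      H.chromaticNumber = ((K + 1 : ℕ) : ℕ∞) ∧
      (∀ e ∈ H.edgeSet, (H.deleteEdges {e}).Colorable K) ∧
      (∀ v : Fin n, ∃ w : Fin n, H.Adj v w) ∧ NoOdd H ℓ ∧
      Fintype.card ι ^ 2 ≤ Nat.card H.edgeSet := by
  classical
  obtain ⟨H, h1, h2, h3⟩ := minimal G K h
  have hadj : ∀ i j, H.Adj (a i) (b j) := by
    intro i j
    by_contra hc
    refine h2 ((hcrit i j).mono_left fun u v huv => ?_)
    rw [SimpleGraph.deleteEdges_adj]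
    refine ⟨h1 huv, fun he => hc ?_⟩
    have he' : s(u, v) = s(a i, b j) := he
    rwa [← SimpleGraph.mem_edgeSet, he', SimpleGraph.mem_edgeSet] at huv
  set S := {v : V // ∃ w, H.Adj v w} with hS
  set e := Fintype.equivFin S with he
  set ψ : Fin (Fintype.card S) → V := fun i => (e.symm i).1 with hψ
  have ψinj : Function.Injective ψ := Subtype.val_injective.comp e.symm.injective
  have ψsur : ∀ v w, H.Adj v w → ∃ i, ψ i = v := fun v w hvw =>
    ⟨e ⟨v, w, hvw⟩, by simp [hψ]⟩
  have hdel : ∀ e ∈ (H.comap ψ).edgeSet, ((H.comap ψ).deleteEdges {e}).Colorable K := by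
    intro s hs
    induction s using Sym2.ind with
    | h u v =>
      refine SimpleGraph.Colorable.of_hom (G' := H.deleteEdges {s(ψ u, ψ v)}) ⟨ψ, ?_⟩ (h3 _ hs)
      intro p q hpq
      rw [SimpleGraph.deleteEdges_adj] at hpq ⊢
      refine ⟨hpq.1, fun h => hpq.2 ?_⟩
      have h' : s(ψ p, ψ q) = s(ψ u, ψ v) := h
      change s(p, q) = s(u, v)
      exact Sym2.map.injective ψinj h'
  have hnc : ¬ (H.comap ψ).Colorable K := by
    rintro ⟨c⟩
    refine h2 ⟨SimpleGraph.Coloring.mk
      (fun v => if hv : ∃ i, ψ i = v then c hv.choose else ⟨0, hK⟩) ?_⟩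
    intro u v huv
    have hu := ψsur u v huv
    have hv := ψsur v u huv.symm
    simp only [dif_pos hu, dif_pos hv]
    refine c.valid ?_
    change H.Adj (ψ _) (ψ _)
    rwa [hu.choose_spec, hv.choose_spec]
  rcases isEmpty_or_nonempty ι with hι | ⟨⟨i0⟩⟩
  all_goals refine ⟨Fintype.card S, ?_, Fintype.card_subtype_le _, H.comap ψ, ?_, hdel, ?_,
    NoOdd.of_hom (SimpleGraph.Hom.comap ψ H) (NoOdd.of_hom (SimpleGraph.Hom.ofLE h1) ho), ?_⟩
  · simp
  rotate_left 2
  · simp
  · exact Fintype.card_le_of_injective (fun i => (⟨a i, b i0, hadj i i0⟩ : S))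
      fun i j hij => ha (congrArg Subtype.val hij)
  rotate_left 2
  · choose a' ha' using fun i => ψsur (a i) (b i0) (hadj i i0)
    choose b' hb' using fun j => ψsur (b j) (a i0) (hadj i0 j).symm
    have : Nat.card (ι × ι) ≤ Nat.card (H.comap ψ).edgeSet := by
      refine Nat.card_le_card_of_injective (fun p => ⟨s(a' p.1, b' p.2), ?_⟩) ?_
      · change H.Adj (ψ _) (ψ _)
        rw [ha', hb']; exact hadj _ _
      · rintro ⟨i, j⟩ ⟨i', j'⟩ hh
        have hh' : s(a' i, b' j) = s(a' i', b' j') := congrArg Subtype.val hh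
        rcases Sym2.eq_iff.1 hh' with ⟨e1, e2⟩ | ⟨e1, _⟩
        · have f1 := congrArg ψ e1
          have f2 := congrArg ψ e2
          rw [ha', ha'] at f1
          rw [hb', hb'] at f2
          rw [ha f1, hb f2]
        · have f1 := congrArg ψ e1
          rw [ha', hb'] at f1
          exact absurd f1 (hab _ _)
    rwa [Nat.card_prod, Nat.card_eq_fintype_card, ← sq] at this
  all_goals first
    | (intro v
       obtain ⟨w, hw⟩ := (e.symm v).2
       obtain ⟨j, hj⟩ := ψsur w _ hw.symm
       exact ⟨j, by change H.Adj (ψ v) (ψ j); rw [hj]; exact hw⟩)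
    | (push_cast
       rw [SimpleGraph.chromaticNumber_eq_iff_colorable_not_colorable]
       refine ⟨?_, hnc⟩
       have : ∃ x y, (H.comap ψ).Adj x y := by
         by_contra hc
         push Not at hc
         exact hnc ⟨SimpleGraph.Coloring.mk (fun _ => ⟨0, hK⟩) fun h => absurd h (hc _ _)⟩
       obtain ⟨x, y, hxy⟩ := this
       obtain ⟨c⟩ := hdel s(x, y) hxy
       refine ⟨SimpleGraph.Coloring.mk
         (fun v => if v = x then Fin.last K else (c v).castSucc) ?_⟩
       intro u v huv
       by_cases hu : u = x <;> by_cases hv : v = x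
       · exact absurd (hu.trans hv.symm) huv.ne
       · simp only [if_pos hu, if_neg hv]; exact (Fin.castSucc_ne_last _).symm
       · simp only [if_neg hu, if_pos hv]; exact Fin.castSucc_ne_last _
       · simp only [if_neg hu, if_neg hv]
         refine fun hh => c.valid ?_ (Fin.castSucc_injective _ hh)
         rw [SimpleGraph.deleteEdges_adj]
         refine ⟨huv, fun h => ?_⟩
         have h' : s(u, v) = s(x, y) := h
         rcases Sym2.eq_iff.1 h' with ⟨e1, _⟩ | ⟨_, e1⟩
         · exact hu e1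
         · exact hv e1)

end Pool.Agent.H6.Crit
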