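import Mathlib

set_option linter.unusedSectionVars false

namespace Pool.Agent.H6.CycSTS

open Finset

section Count

variable {n : ℕ}

/-- `σ` is an isomorphism from `B` to `C`. -/
def Iso (σ : Equiv.Perm (ZMod n)) (B C : Finset (Finset (ZMod n))) : Prop :=
  ∀ b : Finset (ZMod n), b ∈ B ↔ b.map σ.toEmbedding ∈ C

lemma Iso.one (B : Finset (Finset (ZMod n))) : Iso 1 B B := by
  intro b
  have : b.map (1 : Equiv.Perm (ZMod n)).toEmbedding = b := Finset.map_refl
  rw [this]

lemma Iso.mul {σ ρ : Equiv.Perm (ZMod n)} {B C D : Finset (Finset (ZMod n))}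
    (h1 : Iso σ B C) (h2 : Iso ρ C D) : Iso (ρ * σ) B D := by
  intro b
  rw [h1 b, h2, Finset.map_map]
  rfl

lemma map_inv (σ : Equiv.Perm (ZMod n)) (b : Finset (ZMod n)) :
    (b.map σ⁻¹.toEmbedding).map σ.toEmbedding = b := by
  rw [Finset.map_map]
  have : σ⁻¹.toEmbedding.trans σ.toEmbedding = Function.Embedding.refl _ := by
    ext x
    simp
  rw [this, Finset.map_refl]

lemma Iso.inv {σ : Equiv.Perm (ZMod n)} {B C : Finset (Finset (ZMod n))}
    (h : Iso σ B C) : Iso σ⁻¹ C B := by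
  intro b
  rw [h, map_inv]

lemma Iso.uniq {σ : Equiv.Perm (ZMod n)} {B C D : Finset (Finset (ZMod n))}
    (h1 : Iso σ B C) (h2 : Iso σ B D) : C = D := by
  ext b
  rw [h1.inv b, h2.inv b]

lemma class_le [NeZero n] (B : Finset (Finset (ZMod n))) (S : Finset (Finset (Finset (ZMod n))))
    (hS : ∀ C ∈ S, Iso (Equiv.addRight 1) C C) (hB : ∀ C ∈ S, ∃ σ, Iso σ B C) :
    S.card ≤ n := by
  classical
  choose! σ hσ using hB
  let G : Finset (Equiv.Perm (ZMod n)) := univ.filter fun g => Iso g B B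
  have hG : 0 < G.card := card_pos.mpr ⟨1, by simp [G, Iso.one]⟩
  have key : (S ×ˢ G).card ≤ (G ×ˢ (univ : Finset (ZMod n))).card := by
    refine card_le_card_of_injOn
      (fun p => ((σ p.1 * p.2)⁻¹ * Equiv.addRight 1 * (σ p.1 * p.2), (σ p.1 * p.2)⁻¹ 0)) ?_ ?_
    · rintro ⟨C, g⟩ hp
      simp only [coe_product, Set.mem_prod, mem_coe, G, mem_filter, mem_univ, true_and,
        and_true] at hp ⊢
      have h1 : Iso (σ C * g) B C := hp.2.mul (hσ C hp.1)
      rw [mul_assoc]
      exact (h1.mul (hS C hp.1)).mul h1.inv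
    · rintro ⟨C, g⟩ hp ⟨D, h⟩ hq he
      simp only [coe_product, Set.mem_prod, mem_coe, G, mem_filter, mem_univ, true_and,
        Prod.mk.injEq] at hp hq he
      have h1 : Iso (σ C * g) B C := hp.2.mul (hσ C hp.1)
      have h2 : Iso (σ D * h) B D := hq.2.mul (hσ D hq.1)
      have h3 : (σ C * g)⁻¹ = (σ D * h)⁻¹ := by
        generalize σ C * g = ρ at he
        generalize σ D * h = π at he
        have step : ∀ (ρ : Equiv.Perm (ZMod n)) (x : ZMod n),
            ρ⁻¹ (x + 1) = (ρ⁻¹ * Equiv.addRight 1 * ρ : Equiv.Perm (ZMod n)) (ρ⁻¹ x) := by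
          intro ρ x
          simp
        have all : ∀ m : ℕ, ρ⁻¹ (m : ZMod n) = π⁻¹ (m : ZMod n) := by
          intro m
          induction m with
          | zero => simpa using he.2
          | succ m ih => rw [Nat.cast_succ, step, step π, ih, he.1]
        ext x
        rw [← ZMod.natCast_zmod_val x]
        exact all _
      have h4 : σ C * g = σ D * h := inv_injective h3
      have h5 : C = D := h1.uniq (h4 ▸ h2)
      subst h5
      rw [mul_left_cancel h4]
  rw [card_product, card_product, card_univ, ZMod.card, mul_comm] at key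
  exact Nat.le_of_mul_le_mul_left key hG

lemma select {α : Type*} (R : α → α → Prop) (hR : ∀ x y, R x y → R y x) (n : ℕ) (hn : 0 < n)
    (M : ℕ) : ∀ S : Finset α, (∀ x, ∀ C ⊆ S, (∀ y ∈ C, R x y) → C.card ≤ n) → M * n ≤ S.card →
      ∃ f : Fin M → α, (∀ i, f i ∈ S) ∧ ∀ i j, i ≠ j → ¬ R (f i) (f j) := by
  classical
  induction M with
  | zero => exact fun S _ _ => ⟨Fin.elim0, fun i => i.elim0, fun i => i.elim0⟩
  | succ M ih =>
    intro S hS hc
    obtain ⟨x, hx⟩ : S.Nonempty := card_pos.mp (by nlinarith)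
    have h1 := hS x (S.filter fun y => R x y) (filter_subset _ _) fun y hy => (mem_filter.mp hy).2
    have h2 := card_filter_add_card_filter_not (s := S) fun y => R x y
    obtain ⟨f, hf, hf'⟩ := ih (S.filter fun y => ¬ R x y)
      (fun z C hC h => hS z C (hC.trans (filter_subset _ _)) h) (by nlinarith)
    refine ⟨Fin.cons x f, fun i => ?_, fun i j hij => ?_⟩
    · refine Fin.cases hx (fun i => ?_) i
      exact (mem_filter.mp (hf i)).1
    · induction i using Fin.cases with
      | zero =>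
        induction j using Fin.cases with
        | zero => exact absurd rfl hij
        | succ j => exact (mem_filter.mp (hf j)).2
      | succ i =>
        induction j using Fin.cases with
        | zero => exact fun h => (mem_filter.mp (hf i)).2 (hR _ _ h)
        | succ j => exact hf' i j fun h => hij (congrArg _ h)

end Count

section Build

variable {n : ℕ} [NeZero n] {ι : Type} [Fintype ι]

/-- The three-torsion. -/
def tor (n : ℕ) [NeZero n] : Finset (ZMod n) := univ.filter fun d => 3 * d = 0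

/-- A cyclic difference family. -/
def DF (w : ι → Fin 3 → ZMod n) : Prop :=
  (∀ t, w t 0 + w t 1 + w t 2 = 0) ∧ (∀ t j, 3 * w t j ≠ 0) ∧
  (∀ t j t' j', w t j = w t' j' → t = t' ∧ j = j') ∧ (∀ t j t' j', w t j ≠ -w t' j') ∧
  n ≤ 6 * Fintype.card ι + (tor n).card ∧ ((tor n).card = 1 ∨ (tor n).card = 3)

lemma DF.surj {w : ι → Fin 3 → ZMod n} (h : DF w) (d : ZMod n) (hd : 3 * d ≠ 0) :
    ∃ t j, d = w t j ∨ d = -w t j := by
  classical
  obtain ⟨-, h1, h2, h3, h4, -⟩ := h
  let f : (ι × Fin 3) × Bool → ZMod n := fun p => if p.2 then w p.1.1 p.1.2 else -w p.1.1 p.1.2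
  have hf : Function.Injective f := by
    rintro ⟨⟨t, j⟩, s⟩ ⟨⟨t', j'⟩, s'⟩ he
    cases s <;> cases s' <;> simp only [f, Bool.false_eq_true, if_false, if_true] at he
    · obtain ⟨rfl, rfl⟩ := h2 _ _ _ _ (neg_injective he)
      rfl
    · exact absurd he.symm (h3 _ _ _ _)
    · exact absurd he (h3 _ _ _ _)
    · obtain ⟨rfl, rfl⟩ := h2 _ _ _ _ he
      rfl
  have hsub : univ.image f ⊆ (tor n)ᶜ := by
    intro x hx
    obtain ⟨⟨⟨t, j⟩, s⟩, -, rfl⟩ := mem_image.mp hx
    have := h1 t j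
    cases s <;> simpa [f, tor] using this
  have hc : ((tor n)ᶜ).card ≤ (univ.image f).card := by
    rw [card_image_of_injective _ hf, card_compl, ZMod.card]
    simp only [card_univ, Fintype.card_prod, Fintype.card_fin, Fintype.card_bool]
    omega
  have := eq_of_subset_of_card_le hsub hc
  have hd' : d ∈ univ.image f := by
    rw [this]
    simpa [tor] using hd
  obtain ⟨⟨⟨t, j⟩, s⟩, -, rfl⟩ := mem_image.mp hd'
  refine ⟨t, j, ?_⟩
  cases s <;> simp [f]

/-- Points of a base block. -/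
def pt (w : ι → Fin 3 → ZMod n) (t : ι) : Fin 3 → ZMod n := ![0, w t 0, w t 0 + w t 1]

lemma pt_succ {w : ι → Fin 3 → ZMod n} (h : DF w) (t : ι) (j : Fin 3) :
    pt w t (j + 1) - pt w t j = w t j := by
  have := h.1 t
  fin_cases j
  · simp [pt]
  · simp [pt]
  · simp only [pt]
    simp
    linear_combination -this

lemma fin3 : ∀ p q : Fin 3, p ≠ q → q = p + 1 ∨ p = q + 1 := by decide

lemma pt_nz {w : ι → Fin 3 → ZMod n} (h : DF w) (t : ι) {p q : Fin 3} (hpq : p ≠ q) :
    3 * (pt w t q - pt w t p) ≠ 0 := by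
  rcases fin3 p q hpq with rfl | rfl
  · rw [pt_succ h]; exact h.2.1 _ _
  · rw [← neg_sub, pt_succ h, mul_neg, neg_ne_zero]; exact h.2.1 _ _

lemma pt_inj {w : ι → Fin 3 → ZMod n} (h : DF w) {t t' : ι} {p q p' q' : Fin 3} (hpq : p ≠ q)
    (hpq' : p' ≠ q') (he : pt w t q - pt w t p = pt w t' q' - pt w t' p') :
    t = t' ∧ p = p' := by
  rcases fin3 p q hpq with rfl | rfl <;> rcases fin3 p' q' hpq' with rfl | rfl
  · rw [pt_succ h, pt_succ h] at he
    exact h.2.2.1 _ _ _ _ he
  · rw [pt_succ h, ← neg_sub, pt_succ h] at he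
    exact absurd he (h.2.2.2.1 _ _ _ _)
  · rw [pt_succ h, ← neg_sub, pt_succ h] at he
    exact absurd he.symm (h.2.2.2.1 _ _ _ _)
  · rw [← neg_sub, pt_succ h, ← neg_sub, pt_succ h] at he
    obtain ⟨rfl, rfl⟩ := h.2.2.1 _ _ _ _ (neg_injective he)
    exact ⟨rfl, rfl⟩

/-- A translate of a base block. -/
def full (w : ι → Fin 3 → ZMod n) (t : ι) (z : ZMod n) : Finset (ZMod n) :=
  univ.image fun p => z + pt w t p

/-- A coset of the three-torsion. -/
def short (z : ZMod n) : Finset (ZMod n) := univ.filter fun x => 3 * (x - z) = 0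

open Classical in
/-- The triple system. -/
noncomputable def sys (w : ι → Fin 3 → ZMod n) : Finset (Finset (ZMod n)) :=
  univ.filter fun b => (∃ t z, b = full w t z) ∨ ((tor n).card = 3 ∧ ∃ z, b = short z)

lemma mem_sys {w : ι → Fin 3 → ZMod n} {b : Finset (ZMod n)} :
    b ∈ sys w ↔ (∃ t z, b = full w t z) ∨ ((tor n).card = 3 ∧ ∃ z, b = short z) := by
  simp [sys]

lemma mem_full {w : ι → Fin 3 → ZMod n} {t : ι} {z x : ZMod n} :
    x ∈ full w t z ↔ ∃ p, x = z + pt w t p := by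
  simp [full, eq_comm]

lemma mem_short {z x : ZMod n} : x ∈ short z ↔ 3 * (x - z) = 0 := by simp [short]

lemma sys_card {w : ι → Fin 3 → ZMod n} (h : DF w) : ∀ b ∈ sys w, b.card = 3 := by
  intro b hb
  rcases mem_sys.mp hb with ⟨t, z, rfl⟩ | ⟨h3, z, rfl⟩
  · rw [full, card_image_of_injective]
    · simp
    · intro p q he
      by_contra hpq
      apply pt_nz h t hpq
      have : pt w t p = pt w t q := add_left_cancel he
      rw [this, sub_self, mul_zero]
  · rw [← h3]
    refine card_bij (fun x _ => x - z) ?_ ?_ ?_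
    · intro x hx
      simpa [tor] using mem_short.mp hx
    · intro x _ y _ he
      exact sub_left_injective he
    · intro d hd
      refine ⟨d + z, ?_, by simp⟩
      simpa [tor, mem_short] using hd

lemma sys_shift {w : ι → Fin 3 → ZMod n} (c : ZMod n) :
    ∀ b ∈ sys w, b.image (fun x => x + c) ∈ sys w := by
  intro b hb
  rcases mem_sys.mp hb with ⟨t, z, rfl⟩ | ⟨h3, z, rfl⟩
  · refine mem_sys.mpr (Or.inl ⟨t, z + c, ?_⟩)
    simp only [full, image_image]
    congr 1
    ext p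
    simp only [Function.comp]
    ring
  · refine mem_sys.mpr (Or.inr ⟨h3, z + c, ?_⟩)
    ext x
    simp only [mem_image, mem_short]
    constructor
    · rintro ⟨y, hy, rfl⟩
      linear_combination hy
    · intro hx
      exact ⟨x - c, by linear_combination hx, by ring⟩

lemma sys_iso (w : ι → Fin 3 → ZMod n) : Iso (Equiv.addRight 1) (sys w) (sys w) := by
  intro b
  rw [map_eq_image]
  constructor
  · exact sys_shift 1 b
  · intro h
    have := sys_shift (-1) _ h
    rw [image_image] at this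
    convert this using 1
    ext x
    simp

lemma sys_unique {w : ι → Fin 3 → ZMod n} (h : DF w) {x y : ZMod n} (hxy : x ≠ y)
    {b c : Finset (ZMod n)} (hb : b ∈ sys w) (hx : x ∈ b) (hy : y ∈ b)
    (hc : c ∈ sys w) (hx' : x ∈ c) (hy' : y ∈ c) : b = c := by
  have mix : ∀ t z z', x ∈ full w t z → y ∈ full w t z → x ∈ short z' → y ∈ short z' → False := by
    intro t z z' h1 h2 h3 h4
    obtain ⟨p, hp⟩ := mem_full.mp h1
    obtain ⟨q, hq⟩ := mem_full.mp h2
    rw [mem_short] at h3 h4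
    have hpq : p ≠ q := fun e => hxy (by rw [hp, hq, e])
    apply pt_nz h t hpq
    rw [hp] at h3
    rw [hq] at h4
    linear_combination h4 - h3
  rcases mem_sys.mp hb with ⟨t, z, rfl⟩ | ⟨-, z, rfl⟩ <;>
    rcases mem_sys.mp hc with ⟨t', z', rfl⟩ | ⟨-, z', rfl⟩
  · obtain ⟨p, hp⟩ := mem_full.mp hx
    obtain ⟨q, hq⟩ := mem_full.mp hy
    obtain ⟨p', hp'⟩ := mem_full.mp hx'
    obtain ⟨q', hq'⟩ := mem_full.mp hy'
    have hpq : p ≠ q := fun e => hxy (by rw [hp, hq, e])
    have hpq' : p' ≠ q' := fun e => hxy (by rw [hp', hq', e])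
    obtain ⟨rfl, rfl⟩ := pt_inj h (t := t) (t' := t') hpq hpq'
      (by linear_combination hp - hq - hp' + hq')
    have : z = z' := by linear_combination hp' - hp
    rw [this]
  · exact (mix _ _ _ hx hy hx' hy').elim
  · exact (mix _ _ _ hx' hy' hx hy).elim
  · ext u
    simp only [mem_short] at hx hx' ⊢
    constructor
    · intro hu
      linear_combination hu - hx + hx'
    · intro hu
      linear_combination hu + hx - hx'

lemma sys_exists {w : ι → Fin 3 → ZMod n} (h : DF w) {x y : ZMod n} (hxy : x ≠ y) :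
    ∃ b ∈ sys w, x ∈ b ∧ y ∈ b := by
  by_cases hd : 3 * (y - x) = 0
  · refine ⟨short x, mem_sys.mpr (Or.inr ⟨?_, x, rfl⟩), by simp [mem_short], mem_short.mpr hd⟩
    refine h.2.2.2.2.2.resolve_left fun h1 => ?_
    have := card_le_one.mp h1.le (y - x) (by simpa [tor] using hd) 0 (by simp [tor])
    exact hxy (sub_eq_zero.mp this).symm
  · obtain ⟨t, j, e | e⟩ := h.surj _ hd
    · refine ⟨full w t (x - pt w t j), mem_sys.mpr (Or.inl ⟨_, _, rfl⟩),
        mem_full.mpr ⟨j, by ring⟩, mem_full.mpr ⟨j + 1, ?_⟩⟩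
      linear_combination e - pt_succ h t j
    · refine ⟨full w t (y - pt w t j), mem_sys.mpr (Or.inl ⟨_, _, rfl⟩),
        mem_full.mpr ⟨j + 1, ?_⟩, mem_full.mpr ⟨j, by ring⟩⟩
      linear_combination -e - pt_succ h t j

/-- Change the signs of some base blocks. -/
def sgn (w : ι → Fin 3 → ZMod n) (e : ι → Bool) : ι → Fin 3 → ZMod n :=
  fun t j => if e t then w t j else -w t j

lemma DF.sgn {w : ι → Fin 3 → ZMod n} (h : DF w) (e : ι → Bool) : DF (sgn w e) := by
  obtain ⟨h0, h1, h2, h3, h4⟩ := h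
  refine ⟨fun t => ?_, fun t j => ?_, fun t j t' j' he => ?_, fun t j t' j' he => ?_, h4⟩
  · unfold CycSTS.sgn
    split_ifs
    · exact h0 t
    · linear_combination -h0 t
  · unfold CycSTS.sgn
    split_ifs
    · exact h1 t j
    · rw [mul_neg, neg_ne_zero]; exact h1 t j
  · unfold CycSTS.sgn at he
    split_ifs at he
    · exact h2 _ _ _ _ he
    · exact absurd he (h3 _ _ _ _)
    · exact absurd he.symm (h3 _ _ _ _)
    · exact h2 _ _ _ _ (neg_injective he)
  · unfold CycSTS.sgn at he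
    split_ifs at he with a b b
    · exact h3 _ _ _ _ he
    · rw [neg_neg] at he
      obtain ⟨rfl, -⟩ := h2 _ _ _ _ he
      exact b a
    · obtain ⟨rfl, -⟩ := h2 _ _ _ _ (neg_injective he)
      exact a b
    · exact h3 _ _ _ _ (neg_injective he).symm.symm |>.elim

lemma sgn_inj {w : ι → Fin 3 → ZMod n} (h : DF w) :
    Function.Injective fun e : ι → Bool => sys (sgn w e) := by
  have key : ∀ e e' : ι → Bool, sys (sgn w e) = sys (sgn w e') → ∀ t, e t = true → e' t = false →
      False := by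
    intro e e' he t h1 h2
    have a1 : full (sgn w e) t 0 ∈ sys (sgn w e') := he ▸ mem_sys.mpr (Or.inl ⟨_, _, rfl⟩)
    have a2 : full (sgn w e') t (w t 0) ∈ sys (sgn w e') := mem_sys.mpr (Or.inl ⟨_, _, rfl⟩)
    have nz : ∀ j, w t j ≠ 0 := fun j hj => h.2.1 t j (by rw [hj, mul_zero])
    have := sys_unique (h.sgn e') (nz 0).symm a1 (mem_full.mpr ⟨0, by simp [pt]⟩)
      (mem_full.mpr ⟨1, by simp [pt, sgn, h1]⟩) a2 (mem_full.mpr ⟨1, by simp [pt, sgn, h2]⟩)
      (mem_full.mpr ⟨0, by simp [pt]⟩)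
    have a3 : w t 0 + w t 1 ∈ full (sgn w e) t 0 := mem_full.mpr ⟨2, by simp [pt, sgn, h1]⟩
    rw [this] at a3
    obtain ⟨p, hp⟩ := mem_full.mp a3
    have h0 := h.1 t
    fin_cases p
    · simp only [pt] at hp
      simp at hp
      exact nz 1 hp
    · simp only [pt, sgn, h2] at hp
      simp at hp
      exact nz 2 (by linear_combination h0 - hp)
    · simp only [pt, sgn, h2] at hp
      simp at hp
      have := h.2.2.1 t 1 t 2 (by linear_combination hp - h0)
      exact absurd this.2 (by decide)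
  intro e e' he
  ext t
  cases h1 : e t <;> cases h2 : e' t
  · rfl
  · exact (key e' e he.symm t h2 h1).elim
  · exact (key e e' he t h1 h2).elim
  · rfl

theorem many {w : ι → Fin 3 → ZMod n} (h : DF w) (M : ℕ) (hM : M * n ≤ 2 ^ Fintype.card ι) :
    ∃ B : Fin M → Finset (Finset (ZMod n)),
      (∀ i, (∀ b ∈ B i, b.card = 3) ∧
        (∀ x y : ZMod n, x ≠ y → ∃! b : Finset (ZMod n), b ∈ B i ∧ x ∈ b ∧ y ∈ b) ∧
        (∀ b ∈ B i, b.image (fun x => x + 1) ∈ B i)) ∧
      (∀ i j, i ≠ j → ¬ ∃ σ : Equiv.Perm (ZMod n), Iso σ (B i) (B j)) := by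
  classical
  obtain ⟨f, hf, hf'⟩ := select (fun B C : Finset (Finset (ZMod n)) => ∃ σ, Iso σ B C)
    (fun _ _ ⟨σ, hσ⟩ => ⟨_, hσ.inv⟩) n (Nat.pos_of_ne_zero (NeZero.ne n)) M
    (univ.image fun e : ι → Bool => sys (sgn w e))
    (fun B C hC hB => class_le B C (fun D hD => by
      obtain ⟨e, -, rfl⟩ := mem_image.mp (hC hD)
      exact sys_iso _) hB)
    (by rw [card_image_of_injective _ (sgn_inj h)]; simpa using hM)
  refine ⟨f, fun i => ?_, hf'⟩
  obtain ⟨e, -, he⟩ := mem_image.mp (hf i)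
  rw [← he]
  refine ⟨sys_card (h.sgn e), fun x y hxy => ?_, sys_shift 1⟩
  obtain ⟨b, hb, hx, hy⟩ := sys_exists (h.sgn e) hxy
  exact ⟨b, ⟨hb, hx, hy⟩, fun c hc => sys_unique (h.sgn e) hxy hc.1 hc.2.1 hc.2.2 hb hx hy⟩

end Build

end Pool.Agent.H6.CycSTS
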