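import Mathlib

set_option autoImplicit false

namespace Pool.Agent.H6.Dist1

open SimpleGraph

theorem reach_dist {V : Type*} (G : SimpleGraph V) (w : V) (D : V → ℕ)
    (h0 : D w = 0) (h1 : ∀ u v, G.Adj u v → D u ≤ D v + 1)
    (h2 : ∀ u, u = w ∨ ∃ v, G.Adj u v ∧ D v + 1 = D u) (u : V) :
    G.Reachable u w ∧ G.dist u w = D u := by
  have a : ∀ n u, D u = n → ∃ p : G.Walk u w, p.length = n := by
    intro n
    induction n with
    | zero =>
      intro u h
      rcases h2 u with rfl | ⟨v, -, e⟩
      · exact ⟨Walk.nil, rfl⟩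
      · omega
    | succ n ih =>
      intro u h
      rcases h2 u with rfl | ⟨v, hv, e⟩
      · rw [h0] at h; omega
      · obtain ⟨p, hp⟩ := ih v (by omega)
        exact ⟨Walk.cons hv p, by simp [hp]⟩
  have b : ∀ u (p : G.Walk u w), D u ≤ p.length := by
    intro u p
    clear a h2
    induction p with
    | nil => simp [h0]
    | @cons x y z h p ih =>
      have := h1 x y h
      have := ih h0
      simp only [Walk.length_cons]
      omega
  obtain ⟨p, hp⟩ := a _ u rfl
  refine ⟨⟨p⟩, le_antisymm (hp ▸ G.dist_le p) ?_⟩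
  obtain ⟨q, hq⟩ := Reachable.exists_walk_length_eq_dist ⟨p⟩
  exact hq ▸ b u q

end Pool.Agent.H6.Dist1
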