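import Mathlib

/-! A frame matroid over both `GF(5)` and `GF(7)` with more points than the Dowling geometry. -/

namespace Pool.Agent.H6.Dowl

/-- the vector `a e_i + e_j` -/
def vec (F : Type) [Field F] {k : ℕ} (t : Fin (k + 1) × Fin (k + 1) × ℤ) : Fin (k + 1) → F :=
  fun l => (if l = t.1 then (t.2.2 : F) else 0) + (if l = t.2.1 then 1 else 0)

/-- admissible data -/
def Good {k : ℕ} (t : Fin (k + 1) × Fin (k + 1) × ℤ) : Prop :=
  (t.2.2 = 0 ∧ t.1 = t.2.1) ∨ (t.2.2 = 1 ∧ t.1 < t.2.1) ∨ (t.2.2 = -1 ∧ t.2.1 < t.1) ∨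
    ((t.2.2 = 2 ∨ t.2.2 = -2) ∧ t.1 = 0 ∧ t.1 < t.2.1)

/-- transfer maps exist -/
def Transfer (F K : Type) [Field F] [Field K] : Prop :=
  ∀ c x y : F, ∃ θ : F → K, θ 0 = 0 ∧ (∀ z, θ (-z) = -θ z) ∧ θ (2 * c) = 2 * θ c ∧
    (y ≠ 0 → θ y ≠ 0) ∧ (x + y ≠ 0 → θ x + θ y ≠ 0) ∧ (-x + y ≠ 0 → -θ x + θ y ≠ 0) ∧
    (2 * c + y ≠ 0 → 2 * θ c + θ y ≠ 0) ∧ (-(2 * c) + y ≠ 0 → -(2 * θ c) + θ y ≠ 0)

theorem dual_vec {F : Type} [Field F] {k : ℕ} (φ : Module.Dual F (Fin (k + 1) → F))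
    (t : Fin (k + 1) × Fin (k + 1) × ℤ) :
    φ (vec F t) = t.2.2 * φ (Pi.single t.1 1) + φ (Pi.single t.2.1 1) := by
  have : vec F t = (t.2.2 : F) • Pi.single t.1 (1 : F) + Pi.single t.2.1 1 := by
    ext l
    simp [vec, Pi.single_apply]
  rw [this, map_add, map_smul, smul_eq_mul]

theorem span_transfer {F K : Type} [Field F] [Field K] (h : Transfer F K) {k : ℕ} {ι : Type}
    (d : ι → Fin (k + 1) × Fin (k + 1) × ℤ) (hd : ∀ i, Good (d i)) (T : Set ι) (i : ι)
    (hi : vec F (d i) ∉ Submodule.span F ((fun j => vec F (d j)) '' T)) :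
    vec K (d i) ∉ Submodule.span K ((fun j => vec K (d j)) '' T) := by
  obtain ⟨φ, h1, h2⟩ := Submodule.exists_dual_map_eq_bot_of_notMem hi inferInstance
  have h3 : ∀ j ∈ T, φ (vec F (d j)) = 0 := fun j hj =>
    (Submodule.eq_bot_iff _).1 h2 _ ⟨_, Submodule.subset_span ⟨j, hj, rfl⟩, rfl⟩
  set f : Fin (k + 1) → F := fun l => φ (Pi.single l 1) with hf
  obtain ⟨θ, t0, t1, t2, t3, t4, t5, t6, t7⟩ := h (f 0) (f (d i).1) (f (d i).2.1)
  let ψ : Module.Dual K (Fin (k + 1) → K) := Fintype.linearCombination K fun l => θ (f l)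
  have hψ : ∀ l, ψ (Pi.single l 1) = θ (f l) := by
    intro l; simp [ψ]
  intro hK
  have h4 : Submodule.span K ((fun j => vec K (d j)) '' T) ≤ LinearMap.ker ψ := by
    rw [Submodule.span_le]
    rintro _ ⟨j, hj, rfl⟩
    have e := h3 j hj
    rw [dual_vec] at e
    change ψ _ = 0
    rw [dual_vec, hψ, hψ]
    change _ * f _ + f _ = 0 at e
    rcases hd j with ⟨a, -⟩ | ⟨a, -⟩ | ⟨a, -⟩ | ⟨a | a, b, -⟩ <;> rw [a] at e ⊢ <;> push_cast at e ⊢
    · rw [show f (d j).2.1 = 0 by linear_combination e, t0]; ring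
    · rw [show f (d j).2.1 = -f (d j).1 by linear_combination e, t1]; ring
    · rw [show f (d j).2.1 = f (d j).1 by linear_combination e]; ring
    · rw [show f (d j).2.1 = -(2 * f (d j).1) by linear_combination e, t1, b, t2]; ring
    · rw [show f (d j).2.1 = 2 * f (d j).1 by linear_combination e, b, t2]; ring
  have h5 : ψ (vec K (d i)) = 0 := h4 hK
  rw [dual_vec, hψ, hψ] at h5
  rw [dual_vec] at h1
  change _ * f _ + f _ ≠ 0 at h1
  rcases hd i with ⟨a, -⟩ | ⟨a, -⟩ | ⟨a, -⟩ | ⟨a | a, b, -⟩ <;> rw [a] at h1 h5 <;>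
    push_cast at h1 h5
  · exact t3 (by simpa using h1) (by simpa using h5)
  · exact t4 (by simpa using h1) (by simpa using h5)
  · exact t5 (by simpa using h1) (by simpa using h5)
  · rw [b] at h1 h5; exact t6 h1 h5
  · rw [b] at h1 h5; exact t7 (by simpa using h1) (by simpa using h5)

theorem indep_transfer {F K : Type} [Field F] [Field K] (h : Transfer F K) {k : ℕ} {ι : Type}
    (d : ι → Fin (k + 1) × Fin (k + 1) × ℤ) (hd : ∀ i, Good (d i))
    (hi : LinearIndependent F fun j => vec F (d j)) : LinearIndependent K fun j => vec K (d j) := by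
  rw [linearIndependent_iff_notMem_span] at hi ⊢
  exact fun i => span_transfer h d hd _ i (hi i)

instance : Fact (Nat.Prime 5) := ⟨by norm_num⟩
instance : Fact (Nat.Prime 7) := ⟨by norm_num⟩

/-- odd maps with prescribed values -/
def th (m : ℕ) (a b e : ZMod m) (n : ℕ) (z : ZMod n) : ZMod m :=
  if z = 1 then a else if z = -1 then -a else if z = 2 then b else if z = -2 then -b else
    if z = 3 then e else if z = -3 then -e else 0

/-- first block of conditions -/
def P1 {F K : Type} [Ring F] [Ring K] (θ : F → K) (c : F) : Prop :=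
  θ 0 = 0 ∧ (∀ z, θ (-z) = -θ z) ∧ θ (2 * c) = 2 * θ c

/-- second block of conditions -/
def P2 {F K : Type} [Ring F] [Ring K] (θ : F → K) (x y : F) : Prop :=
  (y ≠ 0 → θ y ≠ 0) ∧ (x + y ≠ 0 → θ x + θ y ≠ 0) ∧ (-x + y ≠ 0 → -θ x + θ y ≠ 0)

/-- third block of conditions -/
def P3 {F K : Type} [Ring F] [Ring K] (θ : F → K) (c y : F) : Prop :=
  (2 * c + y ≠ 0 → 2 * θ c + θ y ≠ 0) ∧ (-(2 * c) + y ≠ 0 → -(2 * θ c) + θ y ≠ 0)

instance {F K : Type} [Ring F] [Ring K] [Fintype F] [DecidableEq K] (θ : F → K) (c : F) :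
    Decidable (P1 θ c) := by unfold P1; infer_instance

instance {F K : Type} [Ring F] [Ring K] [DecidableEq F] [DecidableEq K] (θ : F → K) (c y : F) :
    Decidable (P2 θ c y) := by unfold P2; infer_instance

instance {F K : Type} [Ring F] [Ring K] [DecidableEq F] [DecidableEq K] (θ : F → K) (c y : F) :
    Decidable (P3 θ c y) := by unfold P3; infer_instance

theorem t57 : Transfer (ZMod 5) (ZMod 7) := by
  have : ∀ c x y : ZMod 5, ∃ a b : ZMod 7,
      P1 (th 7 a b 0 5) c ∧ P2 (th 7 a b 0 5) x y ∧ P3 (th 7 a b 0 5) c y := by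
    decide +kernel
  intro c x y
  obtain ⟨a, b, h1, h2, h3⟩ := this c x y
  exact ⟨th 7 a b 0 5, h1.1, h1.2.1, h1.2.2, h2.1, h2.2.1, h2.2.2, h3⟩

theorem t75 : Transfer (ZMod 7) (ZMod 5) := by
  have : ∀ c x y : ZMod 7, ∃ a b e : ZMod 5,
      P1 (th 5 a b e 7) c ∧ P2 (th 5 a b e 7) x y ∧ P3 (th 5 a b e 7) c y := by
    decide +kernel
  intro c x y
  obtain ⟨a, b, e, h1, h2, h3⟩ := this c x y
  exact ⟨th 5 a b e 7, h1.1, h1.2.1, h1.2.2, h2.1, h2.2.1, h2.2.2, h3⟩

theorem good_ne {k : ℕ} (i j : Fin (k + 1)) (a : ℤ) (h : Good (i, j, a)) :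
    (i = j ∧ a = 0) ∨ (i ≠ j ∧ (a : ZMod 5) ≠ 0) := by
  rcases h with ⟨a, b⟩ | ⟨a, b⟩ | ⟨a, b⟩ | ⟨a | a, -, b⟩ <;> simp only at a b <;> subst a
  · exact Or.inl ⟨b, rfl⟩
  · exact Or.inr ⟨b.ne, by decide⟩
  · exact Or.inr ⟨b.ne', by decide⟩
  · exact Or.inr ⟨b.ne, by decide⟩
  · exact Or.inr ⟨b.ne, by decide⟩

theorem not_parallel {k : ℕ} (s t : Fin (k + 1) × Fin (k + 1) × ℤ) (hs : Good s) (ht : Good t)
    (r : ZMod 5) (h : vec (ZMod 5) s = r • vec (ZMod 5) t) : s = t := by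
  obtain ⟨i, j, a⟩ := s
  obtain ⟨i', j', a'⟩ := t
  have e1 := congrFun h i
  have e2 := congrFun h j
  have e3 := congrFun h i'
  have e4 := congrFun h j'
  simp only [vec, Pi.smul_apply, smul_eq_mul, if_true] at e1 e2 e3 e4
  simp only [Prod.mk.injEq]
  have c1 : ∀ a a' : ℤ, -2 ≤ a → a ≤ 2 → -2 ≤ a' → a' ≤ 2 → (a : ZMod 5) = a' → a = a' := by
    intro a a' _ _ _ _ h
    have := (ZMod.intCast_eq_intCast_iff_dvd_sub a a' 5).1 h
    omega
  have c2 : ∀ a a' : ℤ, (a : ZMod 5) * a' = 1 → (5 : ℤ) ∣ 1 - a * a' := by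
    intro a a' h
    exact (ZMod.intCast_eq_intCast_iff_dvd_sub (a * a') 1 5).1 (by push_cast; exact h)
  rcases good_ne _ _ _ hs with ⟨rfl, rfl⟩ | ⟨n1, m1⟩ <;>
    rcases good_ne _ _ _ ht with ⟨rfl, rfl⟩ | ⟨n2, m2⟩
  · by_cases q : i = i'
    · exact ⟨q, q, rfl⟩
    · simp [q] at e1
  · exfalso
    by_cases q : i = i'
    · subst q
      simp [n2, n2.symm] at e1 e4
      rw [← e4] at e1
      simp at e1
    · by_cases q' : i = j'
      · subst q'
        simp [n2, n2.symm, m2] at e1 e3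
        simp [e3] at e1
      · simp [q, q'] at e1
  · exfalso
    by_cases q : i = i'
    · subst q
      simp [n1.symm] at e2
    · simp [q, n1, m1] at e1
  · by_cases q : i = i'
    · subst q
      by_cases q' : j = j'
      · subst q'
        simp [n1, n1.symm] at e1 e2
        rw [← e2, one_mul] at e1
        refine ⟨rfl, rfl, c1 a a' ?_ ?_ ?_ ?_ e1⟩ <;> simp only [Good] at hs ht <;> omega
      · simp [n1.symm, q'] at e2
    · exfalso
      by_cases q' : i = j'
      · subst q'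
        by_cases q'' : j = i'
        · subst q''
          simp [n1, n1.symm] at e1 e2
          have := c2 a a' (by rw [e1, ← e2])
          simp only [Good] at hs ht
          rcases hs with ⟨rfl, b⟩ | ⟨rfl, b⟩ | ⟨rfl, b⟩ | ⟨rfl | rfl, b⟩ <;> omega
        · simp [n1.symm, q''] at e2
      · simp [q, q', n1, m1] at e1

/-- the data of the points -/
def data (k : ℕ) : (Fin (k + 1) × Fin (k + 1)) ⊕ (Fin k × Bool) →
    Fin (k + 1) × Fin (k + 1) × ℤ
  | Sum.inl p => (p.1, p.2, if p.1 = p.2 then 0 else if p.1 < p.2 then 1 else -1)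
  | Sum.inr p => (0, p.1.succ, if p.2 then 2 else -2)

theorem data_good (k : ℕ) : ∀ x, Good (data k x) := by
  rintro (⟨i, j⟩ | ⟨j, b⟩)
  · simp only [data, Good]
    split_ifs <;> omega
  · cases b <;> simp [data, Good]

theorem data_inj (k : ℕ) : Function.Injective (data k) := by
  rintro (⟨i, j⟩ | ⟨j, b⟩) (⟨i', j'⟩ | ⟨j', b'⟩) h <;> simp only [data, Prod.mk.injEq] at h
  · rw [h.1, h.2.1]
  · exfalso; have := h.2.2; split_ifs at this <;> omega
  · exfalso; have := h.2.2; split_ifs at this <;> omega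
  · have h1 := Fin.succ_injective _ h.2.1
    have := h.2.2
    cases b <;> cases b' <;> simp_all

theorem simple {k : ℕ} {ι : Type} [Fintype ι] (d : ι → Fin (k + 1) × Fin (k + 1) × ℤ)
    (hd : ∀ i, Good (d i)) (hinj : Function.Injective d) (hc : Fintype.card ι ≤ 2) :
    LinearIndependent (ZMod 5) fun j => vec (ZMod 5) (d j) := by
  rw [linearIndependent_iff_notMem_span]
  intro i hi
  by_cases hj : ∃ j, j ≠ i
  · obtain ⟨j, hj⟩ := hj
    have : Set.univ \ {i} = ({j} : Set ι) := by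
      ext l
      simp only [Set.mem_sdiff, Set.mem_univ, Set.mem_singleton_iff, true_and]
      refine ⟨fun hl => ?_, fun hl => hl ▸ hj⟩
      by_contra hlj
      have := Fintype.two_lt_card_iff.2 ⟨i, j, l, hj.symm, Ne.symm hl, Ne.symm hlj⟩
      omega
    rw [this, Set.image_singleton, Submodule.mem_span_singleton] at hi
    obtain ⟨r, hr⟩ := hi
    exact hj (hinj (not_parallel _ _ (hd i) (hd j) r hr.symm)).symm
  · have : Set.univ \ {i} = (∅ : Set ι) := by
      ext l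
      simp only [Set.mem_sdiff, Set.mem_univ, Set.mem_singleton_iff, true_and,
        Set.mem_empty_iff_false, iff_false]
      exact fun h => hj ⟨l, h⟩
    rw [this, Set.image_empty, Submodule.span_empty, Submodule.mem_bot] at hi
    have e := congrFun hi (d i).2.1
    have := hd i
    simp only [vec, if_true, Pi.zero_apply, Good] at e this
    split_ifs at e with h
    · have : (d i).2.2 = 0 := by omega
      rw [this] at e
      simp at e
    · simp at e

theorem span_top (k : ℕ) :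
    Submodule.span (ZMod 5) (Set.range fun x => vec (ZMod 5) (data k x)) = ⊤ := by
  rw [eq_top_iff, ← (Pi.basisFun (ZMod 5) (Fin (k + 1))).span_eq]
  refine Submodule.span_mono ?_
  rintro _ ⟨i, rfl⟩
  refine ⟨Sum.inl (i, i), ?_⟩
  ext l
  simp [vec, data, Pi.single_apply]

end Pool.Agent.H6.Dowl
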