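import Mathlib

set_option autoImplicit false

namespace Pool.Agent.H6.Dpp

open Finset

/-- An `m`-fold cover of `G`, with `L(v) = {v} × Fin m`. -/
structure IsCover {V : Type} (G : SimpleGraph V) (m : ℕ) (H : SimpleGraph (V × Fin m)) : Prop where
  complete : ∀ (v : V) (a b : Fin m), a ≠ b → H.Adj (v, a) (v, b)
  matching : ∀ (u v : V) (a b c : Fin m), u ≠ v → H.Adj (u, a) (v, b) → H.Adj (u, a) (v, c) → b = c
  edge : ∀ (u v : V) (a b : Fin m), u ≠ v → H.Adj (u, a) (v, b) → G.Adj u v

/-- The DP-chromatic number. -/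
noncomputable def chiDP {V : Type} (G : SimpleGraph V) : ℕ :=
  sInf {m | ∀ H : SimpleGraph (V × Fin m), IsCover G m H →
    ∃ s : Finset (V × Fin m), H.IsNIndepSet (Nat.card V) s}

/-- `α_t^{DP}(G)`: the least independence number of a `t`-fold cover. -/
noncomputable def alphaDP {V : Type} (G : SimpleGraph V) (t : ℕ) : ℕ :=
  sInf {a | ∃ H : SimpleGraph (V × Fin t), IsCover G t H ∧ H.indepNum = a}

variable {V : Type}

lemma fst_inj {G : SimpleGraph V} {m : ℕ} {H : SimpleGraph (V × Fin m)} (hc : IsCover G m H)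
    {s : Finset (V × Fin m)} (hs : H.IsIndepSet (s : Set (V × Fin m))) :
    Set.InjOn Prod.fst (s : Set (V × Fin m)) := by
  rintro ⟨u, a⟩ hx ⟨v, b⟩ hy (rfl : u = v)
  by_contra h
  exact hs hx hy h (hc.complete u a b fun e => h (by rw [e]))

lemma greedy [Fintype V] {G : SimpleGraph V} {m : ℕ} (r : V → ℕ) (hr : Function.Injective r)
    (hm : 0 < m) (hd : ∀ v, {u | G.Adj u v ∧ r u < r v}.ncard < m)
    (H : SimpleGraph (V × Fin m)) (hc : IsCover G m H) :
    ∃ s : Finset (V × Fin m), H.IsNIndepSet (Nat.card V) s := by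
  classical
  have key : ∀ j, ∃ f : V → Fin m, ∀ u v, r u < j → r v < j → u ≠ v →
      ¬ H.Adj (u, f u) (v, f v) := by
    intro j
    induction j with
    | zero => exact ⟨fun _ => ⟨0, hm⟩, by simp⟩
    | succ j ih =>
      obtain ⟨f, hf⟩ := ih
      by_cases hv : ∃ v, r v = j
      · obtain ⟨v, rfl⟩ := hv
        have hb : ∃ b : Fin m, ∀ u, r u < r v → ¬ H.Adj (u, f u) (v, b) := by
          by_contra hn
          push Not at hn
          choose g hg using hn
          have gi : Function.Injective g := fun a b e =>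
            hc.matching (g a) v (f (g a)) a b (fun q => by have := (hg a).1; rw [q] at this; omega)
              (hg a).2 (e ▸ (hg b).2)
          have := Set.ncard_le_ncard_of_injOn (s := (Set.univ : Set (Fin m)))
            (t := {u | G.Adj u v ∧ r u < r v}) g
            (fun a _ => ⟨hc.edge _ _ _ _ (fun q => by have := (hg a).1; rw [q] at this; omega)
              (hg a).2, (hg a).1⟩) gi.injOn (Set.toFinite _)
          have h2 := hd v
          simp only [Set.ncard_univ, Nat.card_eq_fintype_card, Fintype.card_fin] at this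
          omega
        obtain ⟨b, hb⟩ := hb
        refine ⟨Function.update f v b, fun x y hx hy ne => ?_⟩
        have lt : ∀ z, r z < r v + 1 → z ≠ v → r z < r v := fun z h1 h2 =>
          lt_of_le_of_ne (by omega) fun q => h2 (hr q)
        by_cases ex : x = v
        · subst ex
          rw [Function.update_self, Function.update_of_ne ne.symm]
          exact fun a => hb y (lt y hy ne.symm) a.symm
        · by_cases ey : y = v
          · subst ey
            rw [Function.update_self, Function.update_of_ne ex]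
            exact hb x (lt x hx ex)
          · rw [Function.update_of_ne ex, Function.update_of_ne ey]
            exact hf x y (lt x hx ex) (lt y hy ey) ne
      · push Not at hv
        exact ⟨f, fun u v hu hv' => hf u v (by have := hv u; omega) (by have := hv v; omega)⟩
  obtain ⟨f, hf⟩ := key (univ.sup r + 1)
  have le : ∀ v, r v < univ.sup r + 1 := fun v => Nat.lt_succ_of_le (le_sup (mem_univ v))
  refine ⟨univ.image fun v => (v, f v), ?_, ?_⟩
  · intro x hx y hy ne
    simp only [coe_image, coe_univ, Set.image_univ, Set.mem_range] at hx hy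
    obtain ⟨u, rfl⟩ := hx
    obtain ⟨v, rfl⟩ := hy
    exact hf u v (le u) (le v) fun e => ne (by rw [e])
  · rw [card_image_of_injective _ fun a b e => (Prod.ext_iff.1 e).1, card_univ,
      Nat.card_eq_fintype_card]

/-- The canonical cover. -/
def canon (G : SimpleGraph V) (m : ℕ) : SimpleGraph (V × Fin m) where
  Adj x y := (x.1 = y.1 ∧ x.2 ≠ y.2) ∨ (G.Adj x.1 y.1 ∧ x.2 = y.2)
  symm := ⟨fun _ _ h => h.imp (fun h => ⟨h.1.symm, h.2.symm⟩) fun h => ⟨h.1.symm, h.2.symm⟩⟩
  loopless := ⟨fun _ h => h.elim (fun h => h.2 rfl) fun h => h.1.ne rfl⟩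

lemma canon_cover (G : SimpleGraph V) (m : ℕ) : IsCover G m (canon G m) :=
  ⟨fun _ _ _ h => Or.inl ⟨rfl, h⟩,
    fun _ _ _ _ _ ne h k => ((h.resolve_left fun h => ne h.1).2).symm.trans
      (k.resolve_left fun h => ne h.1).2,
    fun _ _ _ _ ne h => (h.resolve_left fun h => ne h.1).1⟩

lemma surj [Fintype V] {G : SimpleGraph V} {m : ℕ} {H : SimpleGraph (V × Fin m)}
    (hc : IsCover G m H) {s : Finset (V × Fin m)} (hs : H.IsNIndepSet (Nat.card V) s) (v : V) :
    ∃ a, (v, a) ∈ s := by
  classical
  have : s.image Prod.fst = univ := by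
    apply eq_univ_of_card
    rw [card_image_of_injOn (fst_inj hc hs.1), hs.2, Nat.card_eq_fintype_card]
  obtain ⟨⟨u, a⟩, h, rfl⟩ := mem_image.1 (this ▸ mem_univ v)
  exact ⟨a, h⟩

lemma chiDP_eq [Fintype V] {G : SimpleGraph V} {k : ℕ} (r : V → ℕ) (hr : Function.Injective r)
    (hm : 0 < k) (hd : ∀ v, {u | G.Adj u v ∧ r u < r v}.ncard < k)
    (q : Fin k → V) (hq : ∀ i j, i ≠ j → G.Adj (q i) (q j)) : chiDP G = k := by
  refine le_antisymm (Nat.sInf_le (greedy r hr hm hd)) (le_csInf ⟨k, greedy r hr hm hd⟩ ?_)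
  intro m h
  obtain ⟨s, hs⟩ := h _ (canon_cover G m)
  choose f hf using surj (canon_cover G m) hs
  have : Function.Injective fun i => f (q i) := by
    intro i j e
    by_contra ne
    exact hs.1 (hf (q i)) (hf (q j)) (fun z => (hq i j ne).ne (Prod.ext_iff.1 z).1)
      (Or.inr ⟨hq i j ne, e⟩)
  simpa using Fintype.card_le_of_injective _ this

/-- A cover twisted by shifts. -/
def tw (G : SimpleGraph V) (m : ℕ) [NeZero m] (s : V → V → Fin m) : SimpleGraph (V × Fin m) where
  Adj x y := (x.1 = y.1 ∧ x.2 ≠ y.2) ∨ (G.Adj x.1 y.1 ∧ x.2 + s x.1 y.1 = y.2 + s y.1 x.1)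
  symm := ⟨fun _ _ h => h.imp (fun h => ⟨h.1.symm, h.2.symm⟩) fun h => ⟨h.1.symm, h.2.symm⟩⟩
  loopless := ⟨fun _ h => h.elim (fun h => h.2 rfl) fun h => h.1.ne rfl⟩

lemma tw_cover (G : SimpleGraph V) (m : ℕ) [NeZero m] (s : V → V → Fin m) :
    IsCover G m (tw G m s) :=
  ⟨fun _ _ _ h => Or.inl ⟨rfl, h⟩,
    fun _ _ _ _ _ ne h k => add_right_cancel (((h.resolve_left fun h => ne h.1).2).symm.trans
      (k.resolve_left fun h => ne h.1).2),
    fun _ _ _ _ ne h => (h.resolve_left fun h => ne h.1).1⟩

lemma alphaDP_le {G : SimpleGraph V} {t a : ℕ} {H : SimpleGraph (V × Fin t)} (hc : IsCover G t H)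
    (h : ∀ s : Finset (V × Fin t), H.IsIndepSet (s : Set (V × Fin t)) → s.card ≤ a) :
    alphaDP G t ≤ a := by
  obtain ⟨s, hs⟩ := H.exists_isNIndepSet_indepNum
  have : alphaDP G t ≤ H.indepNum := Nat.sInf_le ⟨H, hc, rfl⟩
  exact this.trans (hs.2 ▸ h s hs.1)

noncomputable def noInd {α : Type} (adj : α → α → Bool) (k : ℕ) : List α → Bool :=
  Nat.rec (motive := fun _ => List α → Bool) (fun _ => false)
    (fun _ ih L => List.rec (motive := fun _ => Bool) true
      (fun x L r => r && ih (L.filter fun y => !adj x y)) L) k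

lemma noInd_spec {α : Type} (adj : α → α → Bool) (k : ℕ) : ∀ L : List α, noInd adj k L = true →
    ∀ S : Finset α, (∀ x ∈ S, x ∈ L) → (∀ x ∈ S, ∀ y ∈ S, x ≠ y → adj x y = false) →
      S.card < k := by
  classical
  induction k with
  | zero => intro L h; exact absurd h (by simp [noInd])
  | succ k ih =>
    intro L
    induction L with
    | nil =>
      intro _ S h _
      rw [eq_empty_of_forall_notMem (s := S) fun x hx => by simpa using h x hx]
      simp
    | cons x L ihL =>
      intro h S hS hp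
      have h' : (noInd adj (k + 1) L && noInd adj k (L.filter fun y => !adj x y)) = true := h
      rw [Bool.and_eq_true] at h'
      by_cases hx : x ∈ S
      · have := ih _ h'.2 (S.erase x) (fun y hy => by
          rw [mem_erase] at hy
          rw [List.mem_filter, hp x hx y hy.2 hy.1.symm]
          exact ⟨(List.mem_cons.1 (hS y hy.2)).resolve_left hy.1, rfl⟩)
          fun a ha b hb => hp a (mem_of_mem_erase ha) b (mem_of_mem_erase hb)
        rw [card_erase_of_mem hx] at this
        omega
      · exact ihL h'.1 S (fun y hy => (List.mem_cons.1 (hS y hy)).resolve_left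
          fun e => hx (e ▸ hy)) hp

end Pool.Agent.H6.Dpp
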