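import Pool.Agent.H6.EdD0
import Pool.Agent.H6.EdD1
import Pool.Agent.H6.EdD2
import Pool.Agent.H6.EdD3

set_option autoImplicit false

namespace Pool.Agent.H6.Ed

noncomputable def allB (n : Nat) (f : Nat → Bool) : Bool :=
  Nat.rec (motive := fun _ => Bool) true
    (fun i r => Bool.rec (motive := fun _ => Bool) false r (f i)) n

noncomputable def orC (n : Nat) (c : Nat → Bool) (f : Nat → Nat) : Nat :=
  Nat.rec (motive := fun _ => Nat) 0
    (fun i r => Bool.rec (motive := fun _ => Nat) r (Nat.lor (f i) r) (c i)) n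

def tb (n i : Nat) : Bool := Nat.beq (Nat.land 1 (Nat.shiftRight n i)) 1

def adj (s x : Nat) : Bool := tb 3402802242358904955275324371262517643377240748145771871 (Nat.add (Nat.mul 13 s) x)

def fl (a s : Nat) : Nat := Nat.xor a (Nat.pow 2 s)

def Z (x : Nat) : Nat := Nat.div (Nat.sub (Nat.pow 2 8192) 1) (Nat.add (Nat.pow 2 (Nat.pow 2 x)) 1)

def sub (a b : Nat) : Bool := Nat.beq (Nat.land a b) a

noncomputable def P : T := .b (.b p0 p2) (.b p1 p3)

noncomputable def M0 (e : Nat) : Nat := Nat.land (P.get (Nat.shiftRight e 4)) (pc.get e)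

noncomputable def M1 (a : Nat) : Nat :=
  M0 (Nat.land (Nat.shiftRight (ix.get a) (Nat.mul 16 (Nat.shiftRight a 5))) 65535)

noncomputable def M (a : Nat) : Nat :=
  Nat.rec (motive := fun _ => Nat) (M1 0) (fun m _ => M1 (Nat.succ m)) a

noncomputable def R (a s : Nat) : Nat :=
  Nat.lor (Bool.rec (motive := fun _ => Nat) 0 (M (fl (fl a s) (Nat.xor s 1))) (tb a (Nat.xor s 1)))
    (orC 13 (adj s) fun x => Nat.shiftLeft (Nat.land (M (fl a s)) (Z x)) (Nat.pow 2 x))

noncomputable def O (a x : Nat) : Nat :=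
  orC 14 (fun s => Bool.rec (motive := fun _ => Bool) false (tb a s) (adj s x)) fun s => M (fl a s)

noncomputable def ok (a : Nat) : Bool :=
  or (Nat.beq (M a) 0)
    (and (allB 14 fun s => Bool.rec (motive := fun _ => Bool) (sub (M a) (R a s)) true (tb a s))
      (allB 13 fun x => sub (Nat.land (M a) (Z x)) (Nat.shiftRight (O a x) (Nat.pow 2 x))))

noncomputable def chunk (c : Nat) : Bool := allB 256 fun i => ok (Nat.add (Nat.mul 256 c) i)

end Pool.Agent.H6.Ed
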