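import Pool.Agent.H6.EdC

set_option autoImplicit false

namespace Pool.Agent.H6.Ed

theorem k0 : chunk 0 = true := by decide +kernel
theorem k1 : chunk 1 = true := by decide +kernel
theorem k2 : chunk 2 = true := by decide +kernel
theorem k3 : chunk 3 = true := by decide +kernel

end Pool.Agent.H6.Ed
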