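import Pool.Agent.H6.EdK0

set_option autoImplicit false

namespace Pool.Agent.H6.Ed

theorem k4 : chunk 4 = true := by decide +kernel
theorem k5 : chunk 5 = true := by decide +kernel
theorem k6 : chunk 6 = true := by decide +kernel
theorem k7 : chunk 7 = true := by decide +kernel

end Pool.Agent.H6.Ed
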