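import Pool.Agent.H6.EdK9

set_option autoImplicit false

namespace Pool.Agent.H6.Ed

theorem k40 : chunk 40 = true := by decide +kernel
theorem k41 : chunk 41 = true := by decide +kernel
theorem k42 : chunk 42 = true := by decide +kernel
theorem k43 : chunk 43 = true := by decide +kernel

end Pool.Agent.H6.Ed
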