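import Pool.Agent.H6.EdK10

set_option autoImplicit false

namespace Pool.Agent.H6.Ed

theorem k44 : chunk 44 = true := by decide +kernel
theorem k45 : chunk 45 = true := by decide +kernel
theorem k46 : chunk 46 = true := by decide +kernel
theorem k47 : chunk 47 = true := by decide +kernel

end Pool.Agent.H6.Ed
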