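import Pool.Agent.H6.EdK11

set_option autoImplicit false

namespace Pool.Agent.H6.Ed

theorem k48 : chunk 48 = true := by decide +kernel
theorem k49 : chunk 49 = true := by decide +kernel
theorem k50 : chunk 50 = true := by decide +kernel
theorem k51 : chunk 51 = true := by decide +kernel

end Pool.Agent.H6.Ed
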