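import Pool.Agent.H6.EdK12

set_option autoImplicit false

namespace Pool.Agent.H6.Ed

theorem k52 : chunk 52 = true := by decide +kernel
theorem k53 : chunk 53 = true := by decide +kernel
theorem k54 : chunk 54 = true := by decide +kernel
theorem k55 : chunk 55 = true := by decide +kernel

end Pool.Agent.H6.Ed
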