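import Pool.Agent.H6.EdK13

set_option autoImplicit false

namespace Pool.Agent.H6.Ed

theorem k56 : chunk 56 = true := by decide +kernel
theorem k57 : chunk 57 = true := by decide +kernel
theorem k58 : chunk 58 = true := by decide +kernel
theorem k59 : chunk 59 = true := by decide +kernel

end Pool.Agent.H6.Ed
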