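import Pool.Agent.H6.EdK14

set_option autoImplicit false

namespace Pool.Agent.H6.Ed

theorem k60 : chunk 60 = true := by decide +kernel
theorem k61 : chunk 61 = true := by decide +kernel
theorem k62 : chunk 62 = true := by decide +kernel
theorem k63 : chunk 63 = true := by decide +kernel

end Pool.Agent.H6.Ed
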