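import Pool.Agent.H6.EdK1

set_option autoImplicit false

namespace Pool.Agent.H6.Ed

theorem k8 : chunk 8 = true := by decide +kernel
theorem k9 : chunk 9 = true := by decide +kernel
theorem k10 : chunk 10 = true := by decide +kernel
theorem k11 : chunk 11 = true := by decide +kernel

end Pool.Agent.H6.Ed
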