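import Pool.Agent.H6.EdK2

set_option autoImplicit false

namespace Pool.Agent.H6.Ed

theorem k12 : chunk 12 = true := by decide +kernel
theorem k13 : chunk 13 = true := by decide +kernel
theorem k14 : chunk 14 = true := by decide +kernel
theorem k15 : chunk 15 = true := by decide +kernel

end Pool.Agent.H6.Ed
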