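import Pool.Agent.H6.EdK3

set_option autoImplicit false

namespace Pool.Agent.H6.Ed

theorem k16 : chunk 16 = true := by decide +kernel
theorem k17 : chunk 17 = true := by decide +kernel
theorem k18 : chunk 18 = true := by decide +kernel
theorem k19 : chunk 19 = true := by decide +kernel

end Pool.Agent.H6.Ed
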