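import Pool.Agent.H6.EdK4

set_option autoImplicit false

namespace Pool.Agent.H6.Ed

theorem k20 : chunk 20 = true := by decide +kernel
theorem k21 : chunk 21 = true := by decide +kernel
theorem k22 : chunk 22 = true := by decide +kernel
theorem k23 : chunk 23 = true := by decide +kernel

end Pool.Agent.H6.Ed
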