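import Pool.Agent.H6.EdK5

set_option autoImplicit false

namespace Pool.Agent.H6.Ed

theorem k24 : chunk 24 = true := by decide +kernel
theorem k25 : chunk 25 = true := by decide +kernel
theorem k26 : chunk 26 = true := by decide +kernel
theorem k27 : chunk 27 = true := by decide +kernel

end Pool.Agent.H6.Ed
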