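import Pool.Agent.H6.EdK6

set_option autoImplicit false

namespace Pool.Agent.H6.Ed

theorem k28 : chunk 28 = true := by decide +kernel
theorem k29 : chunk 29 = true := by decide +kernel
theorem k30 : chunk 30 = true := by decide +kernel
theorem k31 : chunk 31 = true := by decide +kernel

end Pool.Agent.H6.Ed
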