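import Pool.Agent.H6.EdK7

set_option autoImplicit false

namespace Pool.Agent.H6.Ed

theorem k32 : chunk 32 = true := by decide +kernel
theorem k33 : chunk 33 = true := by decide +kernel
theorem k34 : chunk 34 = true := by decide +kernel
theorem k35 : chunk 35 = true := by decide +kernel

end Pool.Agent.H6.Ed
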