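import Pool.Agent.H6.EdK8

set_option autoImplicit false

namespace Pool.Agent.H6.Ed

theorem k36 : chunk 36 = true := by decide +kernel
theorem k37 : chunk 37 = true := by decide +kernel
theorem k38 : chunk 38 = true := by decide +kernel
theorem k39 : chunk 39 = true := by decide +kernel

end Pool.Agent.H6.Ed
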