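import Mathlib
import Pool.Agent.H6.EdK15

set_option autoImplicit false

namespace Pool.Agent.H6.Ed

open SimpleGraph Finset

lemma allB_spec {n : ℕ} {f : ℕ → Bool} (h : allB n f = true) : ∀ i < n, f i = true := by
  induction n with
  | zero => simp
  | succ n ih =>
    have h' : f n = true ∧ allB n f = true := by
      have : Bool.rec (motive := fun _ => Bool) false (allB n f) (f n) = true := h
      revert this
      cases f n <;> simp
    intro i hi
    rcases Nat.lt_succ_iff_lt_or_eq.1 hi with l | rfl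
    exacts [ih h'.2 i l, h'.1]

lemma orC_spec {n w : ℕ} {c : ℕ → Bool} {f : ℕ → ℕ} (h : (orC n c f).testBit w = true) :
    ∃ i < n, c i = true ∧ (f i).testBit w = true := by
  induction n with
  | zero => exact absurd h (by simp [orC])
  | succ n ih =>
    have h' : (Bool.rec (motive := fun _ => ℕ) (orC n c f) (f n ||| orC n c f) (c n)).testBit w = true := h
    have k : (c n = true ∧ (f n).testBit w = true) ∨ (orC n c f).testBit w = true := by
      revert h'
      cases c n <;> simp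
    rcases k with h' | h'
    · exact ⟨n, by omega, h'⟩
    · obtain ⟨i, a, b⟩ := ih h'
      exact ⟨i, by omega, b⟩

lemma tb_eq (n i : ℕ) : tb n i = n.testBit i := by
  show Nat.beq (1 &&& (n >>> i)) 1 = ((1 &&& (n >>> i)) != 0)
  rw [Nat.one_and_eq_mod_two]
  rcases Nat.mod_two_eq_zero_or_one (n >>> i) with h | h <;> rw [h] <;> rfl

lemma sub_spec {a b w : ℕ} (h : sub a b = true) (k : a.testBit w = true) : b.testBit w = true := by
  have h' : a &&& b = a := Nat.eq_of_beq_eq_true h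
  rw [← h', Nat.testBit_and, Bool.and_eq_true] at k
  exact k.2

lemma cond_spec {c : Bool} {a w : ℕ} (h : (Bool.rec (motive := fun _ => ℕ) 0 a c).testBit w = true) :
    c = true ∧ a.testBit w = true := by
  cases c <;> simp_all

def zc (x w : ℕ) : Bool := and (Bool.xor (tb (Z x) w) (tb w x))
    (or (tb w x) (Nat.beq (Nat.add (Nat.pow 2 x) w) (fl w x)))

theorem zz : allB 13 (fun x => allB 64 fun i => allB 128 fun j =>
    zc x (Nat.add (Nat.mul 128 i) j)) = true := by decide +kernel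

lemma Z_spec {x w : ℕ} (hx : x < 13) (hw : w < 8192) : (Z x).testBit w = !w.testBit x ∧
    (w.testBit x = false → 2 ^ x + w = w ^^^ 2 ^ x) := by
  have := allB_spec (allB_spec (allB_spec zz x hx) (w / 128) (by omega)) (w % 128) (by omega)
  rw [show Nat.add (Nat.mul 128 (w / 128)) (w % 128) = w from Nat.div_add_mod w 128, zc] at this
  simp only [tb_eq, Bool.and_eq_true, Bool.or_eq_true] at this
  refine ⟨?_, fun h => Nat.eq_of_beq_eq_true (this.2.resolve_left (by simp [h]))⟩
  have := this.1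
  revert this
  cases (Z x).testBit w <;> cases w.testBit x <;> simp

lemma ok_all (a : ℕ) (h : a < 16384) : ok a = true := by
  have : ∀ c < 64, chunk c = true := by
    intro c hc
    interval_cases c
    exacts [k0, k1, k2, k3, k4, k5, k6, k7, k8, k9, k10, k11, k12, k13, k14, k15, k16, k17, k18, k19, k20, k21, k22, k23, k24, k25, k26, k27, k28, k29, k30, k31, k32, k33, k34, k35, k36, k37, k38, k39, k40, k41, k42, k43, k44, k45, k46, k47, k48, k49, k50, k51, k52, k53, k54, k55, k56, k57, k58, k59, k60, k61, k62, k63]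
  have := allB_spec (this (a / 256) (by omega)) (a % 256) (by omega)
  rwa [show Nat.add (Nat.mul 256 (a / 256)) (a % 256) = a from Nat.div_add_mod a 256] at this

def e (u v : ℕ) : Bool := if u < 13 then decide (13 ≤ v) && adj (v - 13) u
  else decide (13 ≤ v) && decide (v - 13 = (u - 13) ^^^ 1)

def G : SimpleGraph (Fin 27) := fromRel fun u v => e u v = true

instance : DecidableRel G.Adj := fun u v => by unfold G; infer_instance

def mem (a w : ℕ) (v : Fin 27) : Bool := if v.1 < 13 then w.testBit v else a.testBit (v - 13)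

def F : Set (Finset (Fin 27)) := {D | D.card = 13 ∧ ∃ a < 2 ^ 14, ∃ w < 2 ^ 13,
  (M a).testBit w = true ∧ ∀ v, v ∈ D ↔ mem a w v = true}

lemma xl {a s n : ℕ} (h : a < 2 ^ n) (k : s < n) : a ^^^ 2 ^ s < 2 ^ n :=
  Nat.xor_lt_two_pow h (Nat.pow_lt_pow_right (by omega) k)

lemma closed : ∀ D ∈ F, ∀ v, ∃ u ∈ D, (u = v ∨ G.Adj u v) ∧ insert v (D.erase u) ∈ F := by
  rintro D ⟨hc, a, ha, w, hw, hM, hD⟩ v
  by_cases hv : v ∈ D
  · exact ⟨v, hv, .inl rfl, by rw [insert_erase hv]; exact ⟨hc, a, ha, w, hw, hM, hD⟩⟩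
  have key : ∀ (u : Fin 27) (a' w' : ℕ), mem a w u = true → (e u v = true ∨ e v u = true) →
      a' < 2 ^ 14 → w' < 2 ^ 13 → (M a').testBit w' = true →
      (∀ t, mem a' w' t = ((mem a w t ^^ decide (t = v)) ^^ decide (t = u))) →
      ∃ u ∈ D, (u = v ∨ G.Adj u v) ∧ insert v (D.erase u) ∈ F := by
    intro u a' w' hu he h1 h2 h3 h4
    have hu' := (hD u).2 hu
    have n : u ≠ v := fun k => hv (k ▸ hu')
    refine ⟨u, hu', .inr ⟨n, he⟩, ?_, a', h1, w', h2, h3, fun t => ?_⟩
    · rw [card_insert_of_notMem (fun k => hv (mem_of_mem_erase k)), card_erase_add_one hu', hc]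
    rw [h4, mem_insert, mem_erase, hD]
    rw [hD] at hv
    by_cases k : t = v
    · subst k; simp [hv, n.symm]
    by_cases k' : t = u
    · subst k'; simp [hu, k]
    simp [k, k']
  have h0 := ok_all a ha
  simp only [ok, Bool.or_eq_true, Bool.and_eq_true] at h0
  obtain ⟨h1, h2⟩ := h0.resolve_left fun k => by
    rw [Nat.eq_of_beq_eq_true k] at hM; simp at hM
  rw [hD] at hv
  have v2 := v.2
  by_cases c : v.1 < 13
  · have hx : w.testBit v = false := by simpa [mem, c] using hv
    have z := Z_spec c hw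
    have := sub_spec (w := w) (allB_spec h2 v c) (by
      show (M a &&& Z v).testBit w = true
      rw [Nat.testBit_and, hM, z.1, hx]; rfl)
    have : (O a v).testBit (2 ^ v.1 + w) = true := by rw [← Nat.testBit_shiftRight]; exact this
    obtain ⟨s, s1, s2, s3⟩ := orC_spec this
    replace s2 : a.testBit s = true ∧ adj s v = true := by
      rw [← tb_eq]
      revert s2
      cases adj s v <;> simp
    rw [z.2 hx] at s3
    refine key ⟨13 + s, by omega⟩ (a ^^^ 2 ^ s) _ (by simp [mem, s2.1]) (.inr (by simp [e, c, s2.2]))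
      (xl ha s1) (xl hw c) s3 fun t => ?_
    simp only [mem, Nat.testBit_xor, Nat.testBit_two_pow, Fin.ext_iff]
    split_ifs with k
    · simp [show t.1 ≠ 13 + s by omega, eq_comm]
    · simp [show t.1 ≠ v.1 by omega, show s = t.1 - 13 ↔ t.1 = 13 + s by omega]
  have hs : a.testBit (v - 13) = false := by simpa [mem, c] using hv
  have l : v.1 - 13 < 14 := by omega
  have := allB_spec h1 _ l
  rw [tb_eq, hs] at this
  have : (_ ||| _ : ℕ).testBit w = true := sub_spec this hM
  rw [Nat.testBit_or, Bool.or_eq_true] at this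
  rcases this with k | k
  · obtain ⟨s2, s3⟩ := cond_spec k
    rw [tb_eq] at s2
    have l' : (v.1 - 13) ^^^ 1 < 14 := (by decide : ∀ i < 14, i ^^^ 1 < 14) _ l
    refine key ⟨13 + ((v.1 - 13) ^^^ 1), by omega⟩ ((a ^^^ 2 ^ (v.1 - 13)) ^^^ 2 ^ ((v.1 - 13) ^^^ 1)) w
      (by simpa [mem] using s2) (.inr (by simp [e, c])) (xl (xl ha l) l') hw s3 fun t => ?_
    simp only [mem, Nat.testBit_xor, Nat.testBit_two_pow, Fin.ext_iff]
    generalize (v.1 - 13) ^^^ 1 = s
    split_ifs with k
    · simp [show t.1 ≠ 13 + s by omega, show t.1 ≠ v.1 by omega]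
    · simp [show v.1 - 13 = t.1 - 13 ↔ t.1 = v.1 by omega, show s = t.1 - 13 ↔ t.1 = 13 + s by omega]
  · obtain ⟨x, x1, s2, s3⟩ := orC_spec k
    have s3 : ((M (fl a (v.1 - 13)) &&& Z x) <<< 2 ^ x).testBit w = true := s3
    simp only [Nat.testBit_shiftLeft, Nat.testBit_and, Bool.and_eq_true, decide_eq_true_eq] at s3
    obtain ⟨g1, g2, g3⟩ := s3
    have z := Z_spec (w := w - 2 ^ x) x1 ((Nat.sub_le _ _).trans_lt hw)
    rw [z.1, Bool.not_eq_true'] at g3
    have z2 := z.2 g3
    rw [Nat.add_sub_cancel' g1] at z2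
    have z3 : w - 2 ^ x = w ^^^ 2 ^ x := by
      conv_rhs => rw [z2]
      rw [Nat.xor_assoc, Nat.xor_self, Nat.xor_zero]
    rw [z3] at g2 g3
    refine key ⟨x, by omega⟩ (a ^^^ 2 ^ (v.1 - 13)) _ (by simpa [mem, x1] using g3)
      (.inl (by simp [e, x1, s2]; omega)) (xl ha l) (xl hw x1) g2 fun t => ?_
    simp only [mem, Nat.testBit_xor, Nat.testBit_two_pow, Fin.ext_iff]
    split_ifs with k
    · simp [show t.1 ≠ v.1 by omega, eq_comm]
    · simp [show t.1 ≠ x by omega, show v.1 - 13 = t.1 - 13 ↔ t.1 = v.1 by omega]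

lemma ind_le {V : Type} [Fintype V] [DecidableEq V] (H : SimpleGraph V) (k : ℕ) (S : Set (Finset V))
    (h0 : S.Nonempty) (h : ∀ D ∈ S, D.card = k ∧
      ∀ v : V, ∃ u ∈ D, (u = v ∨ H.Adj u v) ∧ insert v (D.erase u) ∈ S) : H.indepNum ≤ k := by
  obtain ⟨J, hJ, hc⟩ := H.exists_isNIndepSet_indepNum
  obtain ⟨D, hD, hm⟩ := Set.exists_max_image S (fun D => (D ∩ J).card) S.toFinite h0
  rw [← hc, ← (h D hD).1]
  refine card_le_card fun v hv => ?_
  by_contra n
  obtain ⟨u, u1, u2, u3⟩ := (h D hD).2 v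
  have a := u2.resolve_left fun k => n (k ▸ u1)
  refine (hm _ u3).not_gt (card_lt_card ⟨fun t ht => ?_, fun k => ?_⟩)
  · rw [mem_inter] at ht ⊢
    refine ⟨mem_insert_of_mem (mem_erase.2 ⟨?_, ht.1⟩), ht.2⟩
    rintro rfl
    exact hJ ht.2 hv a.ne a
  · exact n (mem_inter.1 (k (mem_inter.2 ⟨mem_insert_self _ _, hv⟩))).1

def I : Finset (Fin 27) := univ.filter fun v => v.1 < 13

lemma I_mem : I ∈ F :=
  ⟨by decide, 0, by omega, 8191, by omega, by rw [← tb_eq]; decide +kernel, by decide⟩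

lemma alpha : G.indepNum = 13 := by
  refine le_antisymm (ind_le G 13 F ⟨I, I_mem⟩ fun D h => ⟨h.1, closed D h⟩) ?_
  exact IsIndepSet.card_le_indepNum (t := I) (G := G) fun a ha b hb _ =>
    (by decide +kernel : ∀ a ∈ I, ∀ b ∈ I, ¬ G.Adj a b) a ha b hb

lemma tri : ∀ a b c, G.Adj a b → G.Adj a c → ¬ G.Adj b c := by decide +kernel

lemma theta : ¬ Gᶜ.Colorable 13 := by
  rintro ⟨f⟩
  obtain ⟨y, hy⟩ := Fintype.exists_lt_card_fiber_of_mul_lt_card (f := f) (n := 2) (by simp)
  obtain ⟨a, ha, b, hb, c, hc, n1, n2, n3⟩ := two_lt_card.1 hy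
  simp only [mem_filter, mem_univ, true_and] at ha hb hc
  have k : ∀ a b, f a = y → f b = y → a ≠ b → G.Adj a b := fun a b x z n => by
    by_contra q; exact f.valid ((compl_adj _ _ _).2 ⟨n, q⟩) (x.trans z.symm)
  exact tri a b c (k _ _ ha hb n1) (k _ _ ha hc n2) (k _ _ hb hc n3)

end Pool.Agent.H6.Ed
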