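set_option autoImplicit false

namespace Pool.Agent.H6.Ed

inductive T where
  | l (n : Nat) : T
  | b (x y : T) : T

noncomputable def T.get (t : T) : Nat → Nat :=
  T.rec (motive := fun _ => Nat → Nat) (fun n _ => n)
    (fun _ _ f g i => Bool.rec (motive := fun _ => Nat) (g (Nat.shiftRight i 1)) (f (Nat.shiftRight i 1))
      (Nat.beq (Nat.land i 1) 0)) t

end Pool.Agent.H6.Ed
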