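import Pool.Agent.H6.Expan

/-! The three shapes of graphs whose expansion has a crosscut of size three. -/

namespace Pool.Agent.H6.Expan

open Finset

section Cases

variable {V : Type*} [Fintype V] (G : SimpleGraph V) {n : ℕ} (Γ : SimpleGraph (Fin n))
  [DecidableRel Γ.Adj]

theorem caseA (hno : ¬ ∃ f : V → Fin n, Function.Injective f ∧
      ∀ u v, G.Adj u v → Γ.Adj (f u) (f v))
    (a b c : V) (hG : ∀ u v, G.Adj u v → ((u = a ∨ u = b ∨ u = c) ↔ ¬ (v = a ∨ v = b ∨ v = c))) :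
    tri Γ ≤ (2 * Fintype.card V + 3) * n ^ 2 := by
  classical
  refine tri3 Γ _ fun x y z hxy hxz hyz => ?_
  by_contra hc
  refine hno (embed G Γ (fun u => u = a ∨ u = b ∨ u = c)
    (fun u => if u = a then x else if u = b then y else z)
    (fun _ => univ.filter (fun w => Γ.Adj x w ∧ Γ.Adj y w ∧ Γ.Adj z w)) ?_
    (fun _ _ => (not_le.1 hc).le) ?_ ?_ ?_)
  · intro u v hu hv h
    split_ifs at h <;> grind
  · intro u v h
    have := hG u v h
    tauto
  · intro u v h hu hv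
    exact absurd hv ((hG u v h).1 hu)
  · intro u v _ _ _ w hw
    obtain ⟨w1, w2, w3⟩ := (mem_filter.1 hw).2
    split_ifs <;> assumption

theorem caseB (hno : ¬ ∃ f : V → Fin n, Function.Injective f ∧
      ∀ u v, G.Adj u v → Γ.Adj (f u) (f v))
    (a b x y : V) (hx : ¬ (x = a ∨ x = b)) (hy : ¬ (y = a ∨ y = b))
    (hG : ∀ u v, G.Adj u v → ((u = a ∨ u = b) ↔ ¬ (v = a ∨ v = b)) ∨ s(u, v) = s(x, y)) :
    tri Γ ≤ ((2 * Fintype.card V) ^ 2 + 1) * n ^ 2 := by
  classical
  refine tri2 Γ _ fun p q r s hpq hrs hpr hps hqr hqs => ?_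
  by_contra hc
  have n1 := hrs.ne
  have n2 := hpr.ne
  have n3 := hps.ne
  have n4 := hqr.ne
  have n5 := hqs.ne
  have s1 := hrs.symm
  have s2 := hpr.symm
  have s3 := hps.symm
  have s4 := hqr.symm
  have s5 := hqs.symm
  refine hno (embed G Γ (fun u => u = a ∨ u = b ∨ u = x ∨ u = y)
    (fun u => if u = a then p else if u = b then q else if u = x then r else s)
    (fun _ => univ.filter (fun w => Γ.Adj p w ∧ Γ.Adj q w)) ?_
    (fun _ _ => (not_le.1 hc).le) ?_ ?_ ?_)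
  · intro u v hu hv h
    split_ifs at h <;> grind
  · intro u v h
    have := hG u v h
    rw [Sym2.eq_iff] at this
    tauto
  · intro u v h hu hv
    have := hG u v h
    have := h.ne
    rw [Sym2.eq_iff] at *
    split_ifs <;> first | assumption | grind
  · intro u v h hu hv w hw
    obtain ⟨w1, w2⟩ := (mem_filter.1 hw).2
    have := hG u v h
    rw [Sym2.eq_iff] at this
    split_ifs <;> first | assumption | grind

theorem caseC' (hno : ¬ ∃ f : V → Fin n, Function.Injective f ∧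
      ∀ u v, G.Adj u v → Γ.Adj (f u) (f v))
    (h p q : V) (h1 : ∀ u v, G.Adj u v → u ≠ h → v ≠ h → u = p ∨ u = q ∨ v = p ∨ v = q)
    (h2 : p ≠ h → q ≠ h → ¬ G.Adj p q)
    (h3 : p ≠ h → q ≠ h → p ≠ q → ∀ w, w ≠ h → G.Adj w p → ¬ G.Adj w q) :
    tri Γ ≤ (2 * Fintype.card V + 1) * n ^ 2 := by
  classical
  refine tri1 Γ _ fun v x y hx hy tx ty => ?_
  by_contra hxy
  have n1 := hx.ne
  have n2 := hy.ne
  have s1 := hx.symm
  have s2 := hy.symm
  refine hno (embed G Γ (fun u => u = h ∨ u = p ∨ u = q)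
    (fun u => if u = h then v else if u = p then x else y)
    (fun w => if p ≠ h ∧ G.Adj w p then Γ.neighborFinset v ∩ Γ.neighborFinset x
      else Γ.neighborFinset v ∩ Γ.neighborFinset y) ?_ ?_ ?_ ?_ ?_)
  · intro u v hu hv h
    split_ifs at h <;> grind
  · intro w _
    split_ifs
    · exact tx.le
    · exact ty.le
  · intro u v huv
    have := h1 u v huv
    tauto
  · intro u w huw hu hw
    have := huw.ne
    have := huw.symm
    split_ifs <;> first | assumption | grind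
  · intro u w huw hu hw z hz
    have := huw.symm
    split_ifs at hz ⊢ <;>
      simp only [mem_inter, SimpleGraph.mem_neighborFinset] at hz <;>
      first | exact hz.1 | exact hz.2 | grind

theorem caseC (hno : ¬ ∃ f : V → Fin n, Function.Injective f ∧
      ∀ u v, G.Adj u v → Γ.Adj (f u) (f v))
    (h : V) (e1 e2 : Sym2 V)
    (hG : ∀ u v, G.Adj u v → u ≠ h → v ≠ h → s(u, v) = e1 ∨ s(u, v) = e2) :
    tri Γ ≤ (2 * Fintype.card V + 1) * n ^ 2 := by
  classical
  induction e1 using Sym2.ind with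
  | h a b =>
  induction e2 using Sym2.ind with
  | h c d =>
  simp only [Sym2.eq_iff] at hG
  have key : ∀ p : V, (p = a ∨ p = b) → (p = c ∨ p = d) →
      tri Γ ≤ (2 * Fintype.card V + 1) * n ^ 2 := by
    intro p p1 p2
    refine caseC' G Γ hno h p p (fun u v huv hu hv => ?_) (fun _ _ => G.irrefl)
      (fun _ _ e => absurd rfl e)
    have := hG u v huv hu hv
    grind
  by_cases e1 : a = c ∨ a = d
  · exact key a (Or.inl rfl) e1
  by_cases e2 : b = c ∨ b = d
  · exact key b (Or.inr rfl) e2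
  refine caseC' G Γ hno h a c (fun u v huv hu hv => ?_) (fun ha hc hac => ?_)
    (fun ha hc _ w hw wa wc => ?_)
  · have := hG u v huv hu hv
    grind
  · have := hG a c hac ha hc
    grind
  · have := hG w a wa hw ha
    have := hG w c wc hw hc
    have := wa.ne
    have := wc.ne
    grind

end Cases

theorem shape {V : Type*} (G : SimpleGraph V) (I : Finset V) (F : Finset G.edgeSet)
    (hc : I.card + F.card = 3)
    (hX : ∀ (u v : V) (h : G.Adj u v),
      (u ∈ I ∧ v ∉ I ∧ (⟨s(u, v), (SimpleGraph.mem_edgeSet G).mpr h⟩ : G.edgeSet) ∉ F) ∨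
      (u ∉ I ∧ v ∈ I ∧ (⟨s(u, v), (SimpleGraph.mem_edgeSet G).mpr h⟩ : G.edgeSet) ∉ F) ∨
      (u ∉ I ∧ v ∉ I ∧ (⟨s(u, v), (SimpleGraph.mem_edgeSet G).mpr h⟩ : G.edgeSet) ∈ F)) :
    (∃ a b c : V, ∀ u v, G.Adj u v → ((u = a ∨ u = b ∨ u = c) ↔ ¬ (v = a ∨ v = b ∨ v = c))) ∨
    (∃ a b x y : V, ¬ (x = a ∨ x = b) ∧ ¬ (y = a ∨ y = b) ∧
      ∀ u v, G.Adj u v → ((u = a ∨ u = b) ↔ ¬ (v = a ∨ v = b)) ∨ s(u, v) = s(x, y)) ∨
    (∃ (h : V) (e1 e2 : Sym2 V),
      ∀ u v, G.Adj u v → u ≠ h → v ≠ h → s(u, v) = e1 ∨ s(u, v) = e2) := by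
  classical
  have hI : I.card = 3 ∨ I.card = 2 ∨ I.card = 1 ∨ I.card = 0 := by omega
  rcases hI with hI | hI | hI | hI
  · obtain ⟨a, b, c, -, -, -, rfl⟩ := card_eq_three.1 hI
    have hF : F = ∅ := card_eq_zero.1 (by omega)
    subst hF
    refine Or.inl ⟨a, b, c, fun u v h => ?_⟩
    have := hX u v h
    simp only [mem_insert, mem_singleton, notMem_empty] at this
    tauto
  · obtain ⟨a, b, -, rfl⟩ := card_eq_two.1 hI
    obtain ⟨⟨e, he⟩, rfl⟩ := card_eq_one.1 (show F.card = 1 by omega)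
    induction e using Sym2.ind with
    | h x y =>
    refine Or.inr (Or.inl ⟨a, b, x, y, ?_, ?_, fun u v h => ?_⟩)
    · have := hX x y he
      simp only [mem_insert, mem_singleton] at this
      tauto
    · have := hX x y he
      simp only [mem_insert, mem_singleton] at this
      tauto
    · have := hX u v h
      simp only [mem_insert, mem_singleton, Subtype.mk.injEq] at this
      tauto
  · obtain ⟨a, rfl⟩ := card_eq_one.1 hI
    obtain ⟨⟨e1, _⟩, ⟨e2, _⟩, -, rfl⟩ := card_eq_two.1 (show F.card = 2 by omega)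
    refine Or.inr (Or.inr ⟨a, e1, e2, fun u v h hu hv => ?_⟩)
    have := hX u v h
    simp only [mem_insert, mem_singleton, Subtype.mk.injEq] at this
    tauto
  · have := card_eq_zero.1 hI
    subst this
    obtain ⟨⟨e1, _⟩, ⟨e2, _⟩, ⟨e3, _⟩, -, -, -, rfl⟩ := card_eq_three.1 (show F.card = 3 by omega)
    induction e3 using Sym2.ind with
    | h x y =>
    refine Or.inr (Or.inr ⟨x, e1, e2, fun u v h hu hv => ?_⟩)
    have := hX u v h
    simp only [mem_insert, mem_singleton, Subtype.mk.injEq, notMem_empty, Sym2.eq_iff] at this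
    tauto

theorem bound {V : Type*} [Fintype V] (G : SimpleGraph V) (I : Finset V) (F : Finset G.edgeSet)
    (hc : I.card + F.card = 3)
    (hX : ∀ (u v : V) (h : G.Adj u v),
      (u ∈ I ∧ v ∉ I ∧ (⟨s(u, v), (SimpleGraph.mem_edgeSet G).mpr h⟩ : G.edgeSet) ∉ F) ∨
      (u ∉ I ∧ v ∈ I ∧ (⟨s(u, v), (SimpleGraph.mem_edgeSet G).mpr h⟩ : G.edgeSet) ∉ F) ∨
      (u ∉ I ∧ v ∉ I ∧ (⟨s(u, v), (SimpleGraph.mem_edgeSet G).mpr h⟩ : G.edgeSet) ∈ F)) :
    ∃ C : ℕ, ∀ (n : ℕ) (H : Finset (Finset (Fin n))),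
      (∀ e ∈ H, e.card = 3) →
      (¬ ∃ f : V → Fin n, Function.Injective f ∧
          ∃ g : G.edgeSet → Fin n, Function.Injective g ∧
            (∀ (e : G.edgeSet) (x : V), g e ≠ f x) ∧
            ∀ (u v : V) (h : G.Adj u v),
              ({f u, f v, g ⟨s(u, v), (SimpleGraph.mem_edgeSet G).mpr h⟩} : Finset (Fin n)) ∈ H) →
      H.card ≤ C * n ^ 2 := by
  classical
  refine ⟨((2 * Fintype.card V) ^ 2 + 2 * Fintype.card V + 3) +
    (Fintype.card G.edgeSet + Fintype.card V), fun n H hH hno => ?_⟩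
  have hno' : ¬ ∃ f : V → Fin n, Function.Injective f ∧ ∀ u v, G.Adj u v →
      (heavy H (Fintype.card G.edgeSet + Fintype.card V)).Adj (f u) (f v) :=
    fun ⟨f, f1, f2⟩ => hno ⟨f, f1, expand G H _ le_rfl f f2⟩
  refine (card_le_tri H (Fintype.card G.edgeSet + Fintype.card V) hH).trans ?_
  rw [add_mul (_ + 3)]
  refine Nat.add_le_add_right ?_ _
  rcases shape G I F hc hX with ⟨a, b, c, h⟩ | ⟨a, b, x, y, hx, hy, h⟩ | ⟨h, e1, e2, h'⟩
  · exact (caseA G _ hno' a b c h).trans (Nat.mul_le_mul_right _ (by omega))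
  · exact (caseB G _ hno' a b x y hx hy h).trans (Nat.mul_le_mul_right _ (by omega))
  · exact (caseC G _ hno' h e1 e2 h').trans (Nat.mul_le_mul_right _ (by omega))

end Pool.Agent.H6.Expan
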