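import Mathlib

set_option autoImplicit false

namespace Pool.Agent.H6.Heap

variable {V : Type*}

/-- the graph of a parent map -/
def pG (p : V → V) : SimpleGraph V where
  Adj u v := u ≠ v ∧ (p u = v ∨ p v = u)
  symm := ⟨fun _ _ h => ⟨h.1.symm, h.2.symm⟩⟩
  loopless := ⟨fun _ h => h.1 rfl⟩

lemma pG_tree {p : V → V} (rk : V → ℕ) (r : V) (hr : p r = r) (h : ∀ v ≠ r, rk (p v) < rk v) :
    (pG p).IsTree := by
  have h' : ∀ u v, u ≠ v → p u = v → rk v < rk u := by
    rintro u _ h1 rfl
    exact h u fun e => h1 (by rw [e, hr])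
  have hc : ∀ n v, rk v = n → (pG p).Reachable v r := by
    intro n
    induction n using Nat.strong_induction_on with
    | _ n ih =>
    rintro v rfl
    by_cases e : v = r
    · rw [e]
    · have := h v e
      have ha : (pG p).Adj v (p v) := ⟨fun e => by rw [← e] at this; omega, .inl rfl⟩
      exact ha.reachable.trans (ih _ this _ rfl)
  have : Nonempty V := ⟨r⟩
  refine ⟨⟨fun u v => (hc _ u rfl).trans (hc _ v rfl).symm⟩, fun u c hc => ?_⟩
  obtain ⟨v, hv, hmax⟩ := Set.exists_max_image {v | v ∈ c.support} rk (List.finite_toSet _)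
    ⟨u, c.start_mem_support⟩
  have := hc.ncard_neighborSet_toSubgraph_eq_two hv
  have hs : c.toSubgraph.neighborSet v ⊆ {p v} := fun w hw => by
    have ha := c.toSubgraph.adj_sub hw
    rcases ha.2 with e | e
    · exact e.symm
    · have := h' _ _ ha.1.symm e
      have := hmax w (c.mem_verts_toSubgraph.1 (c.toSubgraph.neighborSet_subset_verts v hw))
      omega
  have := Set.ncard_le_ncard hs
  simp at this
  omega

/-- the heap: the parent of `i` is `i / b` -/
def par (b N : ℕ) (i : Fin N) : Fin N := ⟨i / b, lt_of_le_of_lt (Nat.div_le_self _ _) i.2⟩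

lemma heap_tree (b N : ℕ) (hb : 2 ≤ b) : (pG (par b (N + 1))).IsTree := by
  refine pG_tree (fun i => i.1) 0 (by ext; simp [par]) fun v hv => ?_
  have : 0 < v.1 := Nat.pos_of_ne_zero fun h => hv (Fin.ext h)
  exact Nat.div_lt_self this hb

/-- three children with the same interval force a strictly longer interval -/
lemma key (k b N : ℕ) (hb : 2 * k < b) (hb2 : 2 ≤ b) (w : ℕ → ℝ) (lo hi : Fin k → ℝ)
    (H : ∀ u v, u < N → v < N → u ≠ v →
      ((u / b = v ∨ v / b = u) ↔ ∃ i, w u + w v ∈ Set.Icc (lo i) (hi i))) (d : ℕ) :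
    ∀ v, 1 ≤ v → b ^ (d + 1) * (v + 1) ≤ N → ∃ r < b, ∃ j, w v + w (b * v + r) ∈ Set.Icc (lo j) (hi j) ∧
      d ≤ (Finset.univ.filter fun i => hi i - lo i < hi j - lo j).card := by
  have hdiv : ∀ v r, r < b → (b * v + r) / b = v := fun v r hr => by
    rw [Nat.mul_add_div (by omega), Nat.div_eq_of_lt hr, add_zero]
  have hch : ∀ v r, 1 ≤ v → r < b → b * (v + 1) ≤ N →
      ∃ j, w v + w (b * v + r) ∈ Set.Icc (lo j) (hi j) := fun v r hv hr hN => by
    have h1 : 2 * v ≤ b * v := Nat.mul_le_mul_right _ hb2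
    rw [mul_add] at hN
    exact (H v (b * v + r) (by omega) (by omega) (by omega)).1 (.inr (hdiv v r hr))
  induction d with
  | zero =>
    intro v hv hN
    obtain ⟨j, hj⟩ := hch v 0 hv (by omega) (by simpa using hN)
    exact ⟨0, by omega, j, hj, Nat.zero_le _⟩
  | succ d ih =>
    intro v hv hN
    have hp : 1 ≤ b ^ d := Nat.one_le_pow _ _ (by omega)
    have hN2 : b * (b * (v + 1)) ≤ N := by
      calc b * (b * (v + 1)) = 1 * (b * (b * (v + 1))) := by ring
        _ ≤ b ^ d * (b * (b * (v + 1))) := Nat.mul_le_mul_right _ hp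
        _ = b ^ (d + 1 + 1) * (v + 1) := by ring
        _ ≤ N := hN
    have hN1 : b * (v + 1) ≤ N := le_trans (Nat.le_mul_of_pos_left _ (by omega)) hN2
    choose f hf using fun r : Fin b => hch v r hv r.2 hN1
    obtain ⟨j, hj⟩ := Fintype.exists_lt_card_fiber_of_mul_lt_card (f := f) (n := 2)
      (by simpa [mul_comm] using hb)
    -- three children sorted by weight
    have h3 : ∃ x y z : Fin b, f x = j ∧ f y = j ∧ f z = j ∧ x ≠ y ∧ z ≠ y ∧
        w (b * v + x) ≤ w (b * v + y) ∧ w (b * v + y) ≤ w (b * v + z) := by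
      obtain ⟨x, y, z, hx, hy, hz, hxy, hxz, hyz⟩ := Finset.two_lt_card_iff.1 hj
      simp only [Finset.mem_filter, Finset.mem_univ, true_and] at hx hy hz
      rcases le_total (w (b * v + x)) (w (b * v + y)) with a | a <;>
      rcases le_total (w (b * v + y)) (w (b * v + z)) with c | c <;>
      rcases le_total (w (b * v + x)) (w (b * v + z)) with e | e
      · exact ⟨x, y, z, hx, hy, hz, hxy, hyz.symm, a, c⟩
      · exact ⟨x, y, z, hx, hy, hz, hxy, hyz.symm, a, c⟩
      · exact ⟨x, z, y, hx, hz, hy, hxz, hyz, e, c⟩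
      · exact ⟨z, x, y, hz, hx, hy, hxz.symm, hxy.symm, e, a⟩
      · exact ⟨y, x, z, hy, hx, hz, hxy.symm, hxz.symm, a, e⟩
      · exact ⟨y, z, x, hy, hz, hx, hyz, hxz, c, e⟩
      · exact ⟨z, y, x, hz, hy, hx, hyz.symm, hxy, c, a⟩
      · exact ⟨z, y, x, hz, hy, hx, hyz.symm, hxy, c, a⟩
    obtain ⟨x, y, z, hx, hy, hz, hxy, hzy, h1, h2⟩ := h3
    have hbv : 2 * v ≤ b * v := Nat.mul_le_mul_right _ hb2
    have hy2 := y.2
    obtain ⟨s, hs, j', hj', hr⟩ := ih (b * v + y) (by omega) (by
      calc b ^ (d + 1) * (b * v + y + 1) ≤ b ^ (d + 1) * (b * (v + 1)) :=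
            Nat.mul_le_mul_left _ (by rw [mul_add]; omega)
        _ = b ^ (d + 1 + 1) * (v + 1) := by ring
        _ ≤ N := hN)
    have hg1 : b * (b * v + y) + s < N := by
      have : b * (b * v + y + 1) ≤ b * (b * (v + 1)) := Nat.mul_le_mul_left _ (by rw [mul_add]; omega)
      rw [mul_add b _ 1] at this
      omega
    have hg2 : b * v + b ≤ b * (b * v + y) := by
      have : b * (v + 1) ≤ b * (b * v + y) := Nat.mul_le_mul_left _ (by omega)
      rw [mul_add] at this
      omega
    have non : ∀ t : Fin b, t ≠ y → w (b * v + t) + w (b * (b * v + y) + s) ∉ Set.Icc (lo j') (hi j') := by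
      intro t ht hm
      have t2 := t.2
      rw [mul_add] at hN1
      have := (H (b * v + t) (b * (b * v + y) + s) (by omega) hg1 (by omega)).2 ⟨j', hm⟩
      rw [hdiv _ _ t.2, hdiv _ _ hs] at this
      rcases this with e | e
      · omega
      · exact ht (Fin.ext (by omega))
    have n1 := non x hxy
    have n2 := non z hzy
    have fx := hf x
    have fz := hf z
    rw [hx] at fx
    rw [hz] at fz
    simp only [Set.mem_Icc, not_and_or, not_le] at n1 n2 fx fz hj'
    have hl : hi j' - lo j' < hi j - lo j := by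
      rcases n1 with n1 | n1 <;> rcases n2 with n2 | n2 <;> linarith [fx.1, fz.2, hj'.1, hj'.2]
    refine ⟨x, x.2, j, by rw [← hx]; exact hf x, ?_⟩
    refine lt_of_le_of_lt hr (Finset.card_lt_card ⟨fun i => ?_, fun h => ?_⟩)
    · simp only [Finset.mem_filter, Finset.mem_univ, true_and]
      intro h; linarith
    · have := @h j' (by simpa using hl)
      simp at this

end Pool.Agent.H6.Heap
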