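import Mathlib

namespace Pool.Agent.H6.Idio

abbrev E := EuclideanSpace ℝ (Fin 2)

def Sq (c : E) : Set E := {z | ∀ i, |z i - c i| ≤ 1 / 2}

noncomputable def T (x y : ℤ) : Set E := Sq !₂[0, 0] ∪ Sq !₂[x, y]

def IsTiling (𝒯 : Set (Set E)) : Prop :=
  𝒯.Countable ∧ (∀ t ∈ 𝒯, IsClosed t) ∧ ⋃₀ 𝒯 = Set.univ ∧
    𝒯.Pairwise fun s t => Disjoint (interior s) (interior t)

def IsSym (𝒯 : Set (Set E)) (g : E ≃ᵢ E) : Prop := (fun t => g '' t) '' 𝒯 = 𝒯

def Idiomeric (𝒯 : Set (Set E)) (P : Set E) : Prop :=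
  IsTiling 𝒯 ∧ (∀ t ∈ 𝒯, ∃ g : E ≃ᵢ E, g '' P = t) ∧
    (∀ s ∈ 𝒯, ∀ t ∈ 𝒯, ∃ g, IsSym 𝒯 g ∧ g '' s = t) ∧
    ∀ t ∈ 𝒯, ∀ a ∈ t, ∀ b ∈ t, ∃ g, IsSym 𝒯 g ∧ g '' t = t ∧
      g '' connectedComponentIn t a = connectedComponentIn t b

def OnGrid (𝒯 : Set (Set E)) : Prop :=
  ∀ t ∈ 𝒯, ∃ a b c d : ℤ, t = Sq !₂[a, b] ∪ Sq !₂[c, d]

lemma sq_closed (c : E) : IsClosed (Sq c) := by
  simp only [Sq, Set.ofPred_forall]
  exact isClosed_iInter fun i => isClosed_le (by fun_prop) continuous_const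

lemma sq_conn (c : E) : IsPreconnected (Sq c) := by
  refine Convex.isPreconnected fun u hu w hw a b ha hb h i => ?_
  have h1 := abs_le.mp (hu i)
  have h2 := abs_le.mp (hw i)
  have e : c i = a * c i + b * c i := by rw [← add_mul, h, one_mul]
  simp only [PiLp.add_apply, PiLp.smul_apply, smul_eq_mul, abs_le]
  constructor <;> nlinarith [h1.1, h1.2, h2.1, h2.2]

lemma self_mem (c : E) : c ∈ Sq c := fun i => by simp

lemma self_int (c : E) : c ∈ interior (Sq c) := by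
  rw [mem_interior_iff_mem_nhds]
  filter_upwards [Metric.closedBall_mem_nhds c (by norm_num : (0 : ℝ) < 1 / 2)] with z hz i
  exact (PiLp.dist_apply_le z c i).trans hz

lemma inter_int {a b : E} {i : Fin 2} (h : 1 ≤ |a i - b i|) : interior (Sq a ∩ Sq b) = ∅ := by
  rw [Set.eq_empty_iff_forall_notMem]
  intro z hz
  rw [mem_interior_iff_mem_nhds] at hz
  have c : Continuous fun s : ℝ => z + s • EuclideanSpace.single i (1 : ℝ) := by fun_prop
  have := c.continuousAt (x := 0).preimage_mem_nhds (t := Sq a ∩ Sq b) (by simpa using hz)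
  obtain ⟨e, e0, he⟩ := Metric.mem_nhds_iff.mp this
  have h1 := he (show e / 2 ∈ Metric.ball 0 e by simp [abs_of_pos e0]; linarith)
  have h2 := he (show -(e / 2) ∈ Metric.ball 0 e by simp [abs_of_pos e0]; linarith)
  have a1 := abs_le.mp (h1.1 i)
  have a2 := abs_le.mp (h1.2 i)
  have a3 := abs_le.mp (h2.1 i)
  have a4 := abs_le.mp (h2.2 i)
  simp only [PiLp.add_apply, PiLp.smul_apply, PiLp.single_apply, if_true, smul_eq_mul,
    mul_one] at a1 a2 a3 a4
  rcases le_abs.mp h with h | h <;> linarith [a1.2, a2.2, a3.1, a4.1]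

lemma sq_disj {a b : E} {i : Fin 2} (h : 2 ≤ |a i - b i|) : Disjoint (Sq a) (Sq b) := by
  rw [Set.disjoint_left]
  intro z h1 h2
  have a1 := abs_le.mp (h1 i)
  have a2 := abs_le.mp (h2 i)
  rcases le_abs.mp h with h | h <;> linarith [a1.1, a1.2, a2.1, a2.2]

lemma sub_or {A B C : Set E} (hA : IsClosed A) (hB : IsClosed B) (h : Disjoint A B)
    (hC : IsPreconnected C) (s : C ⊆ A ∪ B) : C ⊆ A ∨ C ⊆ B :=
  (isPreconnected_iff_subset_of_disjoint_closed.mp hC) A B hA hB s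
    (by rw [h.inter_eq, Set.inter_empty])

lemma comp {a b z : E} (h : Disjoint (Sq a) (Sq b)) (hz : z ∈ Sq a) :
    connectedComponentIn (Sq a ∪ Sq b) z = Sq a := by
  refine Set.Subset.antisymm ((sub_or (sq_closed a) (sq_closed b) h
    isPreconnected_connectedComponentIn (connectedComponentIn_subset _ _)).resolve_right
    fun e => Set.disjoint_left.mp h hz (e (mem_connectedComponentIn (Or.inl hz))))
    ((sq_conn a).subset_connectedComponentIn hz Set.subset_union_left)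

lemma img_add (v c : E) : IsometryEquiv.addRight v '' Sq c = Sq (c + v) := by
  ext z
  constructor
  · rintro ⟨w, hw, rfl⟩ i
    simpa using hw i
  · intro h
    refine ⟨z - v, fun i => ?_, by simp⟩
    simpa [sub_sub, add_comm] using h i

lemma img_sub (v c : E) : IsometryEquiv.subLeft v '' Sq c = Sq (v - c) := by
  ext z
  constructor
  · rintro ⟨w, hw, rfl⟩ i
    simpa [abs_sub_comm] using hw i
  · intro h
    refine ⟨v - z, fun i => ?_, by simp⟩
    have := h i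
    rw [abs_sub_comm] at this
    simpa [sub_right_comm] using this

lemma one_le {a b : ℤ} (h : a ≠ b) : (1 : ℝ) ≤ |(a : ℝ) - b| := by
  exact_mod_cast Int.one_le_abs (sub_ne_zero.mpr h)

lemma img_refl (t : Set E) : IsometryEquiv.refl E '' t = t := Set.image_id t

lemma lattice {α β : Fin 2} (hαβ : ∀ i, i = α ∨ i = β) (s : ℝ) (c : ℤ × ℤ → E)
    (h1 : ∀ k, c k α = k.1) (h2 : ∀ k, c k β = k.2 + k.1 * s) (k0 : ℤ × ℤ) (hk : Odd k0.2)
    {i0 : Fin 2} (hv : 2 ≤ |c k0 i0|) :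
    Idiomeric ((fun k => Sq (c k) ∪ Sq (c (k + k0))) '' {k | Even k.2}) (Sq (c 0) ∪ Sq (c k0)) := by
  have add : ∀ k l, c (k + l) = c k + c l := fun k l => by
    ext i; rcases hαβ i with rfl | rfl <;> simp [h1, h2]; ring
  have sub : ∀ k l, c (k - l) = c k - c l := fun k l => by
    rw [eq_sub_iff_add_eq, ← add, sub_add_cancel]
  have sep : ∀ k l, k ≠ l → interior (Sq (c k) ∩ Sq (c l)) = ∅ := by
    intro k l h
    by_cases e : k.1 = l.1
    · refine inter_int (i := β) ?_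
      rw [h2, h2, e, add_sub_add_right_eq_sub]
      exact one_le fun g : k.2 = l.2 => h (Prod.ext e g)
    · refine inter_int (i := α) ?_
      rw [h1, h1]
      exact one_le e
  have dis : ∀ k, Disjoint (Sq (c k)) (Sq (c (k + k0))) := fun k =>
    sq_disj (i := i0) (by simpa [add] using hv)
  have s1 : ∀ k : ℤ × ℤ, Even k.2 → IsSym ((fun k => Sq (c k) ∪ Sq (c (k + k0))) '' {k | Even k.2})
      (IsometryEquiv.addRight (c k)) := by
    intro k hk
    simp only [IsSym, Set.image_image, Set.image_union, img_add, ← add]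
    ext t
    constructor
    · rintro ⟨l, hl, rfl⟩
      exact ⟨l + k, Even.add hl hk, by simp only [add_right_comm]⟩
    · rintro ⟨l, hl, rfl⟩
      exact ⟨l - k, Even.sub hl hk, by simp only [add_right_comm _ k0, sub_add_cancel]⟩
  have s2 : ∀ k : ℤ × ℤ, IsSym ((fun k => Sq (c k) ∪ Sq (c (k + k0))) '' {k | Even k.2})
      (IsometryEquiv.subLeft (c (k + k + k0))) := by
    intro k
    simp only [IsSym, Set.image_image, Set.image_union, img_sub, ← sub]
    ext t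
    constructor
    · rintro ⟨l, hl, rfl⟩
      refine ⟨k + k - l, Even.sub ⟨k.2, rfl⟩ hl, ?_⟩
      simp only
      rw [Set.union_comm]; congr 3 <;> abel
    · rintro ⟨l, hl, rfl⟩
      refine ⟨k + k - l, Even.sub ⟨k.2, rfl⟩ hl, ?_⟩
      simp only
      rw [Set.union_comm]; congr 3 <;> abel
  have s0 : ∀ S : Set (Set E), IsSym S (IsometryEquiv.refl E) := fun S => by simp [IsSym, img_refl]
  refine ⟨⟨(Set.to_countable _).image _, ?_, ?_, ?_⟩, ?_, ?_, ?_⟩
  · rintro _ ⟨k, -, rfl⟩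
    exact (sq_closed _).union (sq_closed _)
  · refine Set.eq_univ_of_forall fun z => ?_
    obtain ⟨k, hz⟩ : ∃ k, z ∈ Sq (c k) := ⟨(round (z α), round (z β - round (z α) * s)), fun i => by
      rcases hαβ i with rfl | rfl
      · rw [h1]; exact abs_sub_round _
      · rw [h2, add_comm, ← sub_sub]; exact abs_sub_round _⟩
    rcases Int.even_or_odd k.2 with e | e
    · exact ⟨_, ⟨k, e, rfl⟩, Or.inl hz⟩
    · exact ⟨_, ⟨k - k0, e.sub_odd hk, rfl⟩, Or.inr (by simpa using hz)⟩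
  · rintro _ ⟨k, e, rfl⟩ _ ⟨l, f, rfl⟩ h
    have n : k ≠ l := fun g => h (by rw [g])
    have o : ∀ a b : ℤ × ℤ, Even a.2 → Even b.2 → a ≠ b + k0 := fun a b x y g =>
      (Int.not_even_iff_odd.mpr (y.add_odd hk)) (by rw [g] at x; exact x)
    have cl : ∀ a b, IsClosed (Sq (c a) ∩ Sq (c b)) := fun a b => (sq_closed _).inter (sq_closed _)
    rw [Set.disjoint_iff_inter_eq_empty, ← interior_inter, Set.union_inter_distrib_right,
      Set.inter_union_distrib_left, Set.inter_union_distrib_left, ← Set.union_assoc,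
      interior_union_isClosed_of_interior_empty (((cl _ _).union (cl _ _)).union (cl _ _))
        (sep _ _ (by simpa using n)),
      interior_union_isClosed_of_interior_empty ((cl _ _).union (cl _ _))
        (sep _ _ (o l k f e).symm),
      interior_union_isClosed_of_interior_empty (cl _ _) (sep _ _ (o k l e f)), sep _ _ n]
  · rintro _ ⟨k, -, rfl⟩
    exact ⟨IsometryEquiv.addRight (c k), by
      simp only [Set.image_union, img_add, ← add, zero_add, add_comm k0]⟩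
  · rintro _ ⟨k, e, rfl⟩ _ ⟨l, f, rfl⟩
    refine ⟨_, s1 (l - k) (Even.sub f e), ?_⟩
    simp only [Set.image_union, img_add, ← add]
    congr 3 <;> abel
  · rintro _ ⟨k, e, rfl⟩ a ha b hb
    have r1 : IsometryEquiv.subLeft (c (k + k + k0)) '' Sq (c k) = Sq (c (k + k0)) := by
      rw [img_sub, ← sub]; congr 2; abel
    have r2 : IsometryEquiv.subLeft (c (k + k + k0)) '' Sq (c (k + k0)) = Sq (c k) := by
      rw [img_sub, ← sub]; congr 2; abel
    have r3 : IsometryEquiv.subLeft (c (k + k + k0)) '' (Sq (c k) ∪ Sq (c (k + k0))) =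
        Sq (c k) ∪ Sq (c (k + k0)) := by rw [Set.image_union, r1, r2, Set.union_comm]
    have c2 : ∀ z ∈ Sq (c (k + k0)), connectedComponentIn (Sq (c k) ∪ Sq (c (k + k0))) z =
        Sq (c (k + k0)) := fun z hz => by rw [Set.union_comm, comp (dis k).symm hz]
    rcases ha with ha | ha <;> rcases hb with hb | hb
    · exact ⟨_, s0 _, img_refl _, by simp only [img_refl, comp (dis k) ha, comp (dis k) hb]⟩
    · exact ⟨_, s2 k, r3, by simp only [comp (dis k) ha, c2 b hb, r1]⟩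
    · exact ⟨_, s2 k, r3, by simp only [comp (dis k) hb, c2 a ha, r2]⟩
    · exact ⟨_, s0 _, img_refl _, by simp only [img_refl, c2 a ha, c2 b hb]⟩

lemma dsq (a b : E) : dist a b ^ 2 = (a 0 - b 0) ^ 2 + (a 1 - b 1) ^ 2 := by
  rw [EuclideanSpace.dist_sq_eq]; simp [Real.dist_eq]

lemma centre {g : E ≃ᵢ E} {p q : E} (h : g '' Sq p = Sq q) : g p = q := by
  have k : ∀ w ∈ Sq q, (w 0 - g p 0) ^ 2 + (w 1 - g p 1) ^ 2 ≤ 1 / 2 := by
    rw [← h]
    rintro _ ⟨u, hu, rfl⟩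
    rw [← dsq, g.dist_eq, dsq]
    have a := abs_le.mp (hu 0)
    have b := abs_le.mp (hu 1)
    nlinarith [a.1, a.2, b.1, b.2]
  have h1 := k !₂[q 0 + 1 / 2, q 1 + 1 / 2] fun i => by fin_cases i <;> simp
  have h2 := k !₂[q 0 - 1 / 2, q 1 - 1 / 2] fun i => by fin_cases i <;> simp
  simp only [Matrix.cons_val_zero, Matrix.cons_val_one] at h1 h2
  ext i
  fin_cases i
  · change g p 0 = q 0
    nlinarith [sq_nonneg (g p 0 - q 0), sq_nonneg (g p 1 - q 1)]
  · change g p 1 = q 1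
    nlinarith [sq_nonneg (g p 0 - q 0), sq_nonneg (g p 1 - q 1)]

lemma key {g : E ≃ᵢ E} {p q p' q' : E} (d : Disjoint (Sq p) (Sq q))
    (h : g '' (Sq p ∪ Sq q) = Sq p' ∪ Sq q') : (g '' Sq p = Sq p' ∧ g '' Sq q = Sq q') ∨
      (g '' Sq p = Sq q' ∧ g '' Sq q = Sq p') := by
  rw [Set.image_union] at h
  have cA := g.toHomeomorph.isClosedMap _ (sq_closed p)
  have cB := g.toHomeomorph.isClosedMap _ (sq_closed q)
  have d' : Disjoint (g '' Sq p) (g '' Sq q) := (Set.disjoint_image_iff g.injective).mpr d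
  have nA : (g '' Sq p).Nonempty := ⟨_, p, self_mem p, rfl⟩
  have nB : (g '' Sq q).Nonempty := ⟨_, q, self_mem q, rfl⟩
  have h1 := sub_or cA cB d' (sq_conn p') (h ▸ Set.subset_union_left)
  have h2 := sub_or cA cB d' (sq_conn q') (h ▸ Set.subset_union_right)
  simp only [IsometryEquiv.coe_toHomeomorph] at h1 h2
  generalize g '' Sq p = A at *
  generalize g '' Sq q = B at *
  have a : ∀ z, z ∈ A ∨ z ∈ B ↔ z ∈ Sq p' ∨ z ∈ Sq q' := fun z => Set.ext_iff.mp h z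
  rw [Set.disjoint_left] at d'
  obtain ⟨u, hu⟩ := nA
  obtain ⟨w, hw⟩ := nB
  simp only [Set.ext_iff]
  rcases h1 with h1 | h1 <;> rcases h2 with h2 | h2
  · exact absurd hw (d' (((a w).mp (Or.inr hw)).elim (@h1 _) (@h2 _)))
  · exact Or.inl ⟨fun z => ⟨fun e => ((a z).mp (Or.inl e)).resolve_right fun f => d' e (h2 f),
      @h1 _⟩, fun z => ⟨fun e => ((a z).mp (Or.inr e)).resolve_left fun f => d' (h1 f) e, @h2 _⟩⟩
  · exact Or.inr ⟨fun z => ⟨fun e => ((a z).mp (Or.inl e)).resolve_left fun f => d' e (h1 f),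
      @h2 _⟩, fun z => ⟨fun e => ((a z).mp (Or.inr e)).resolve_right fun f => d' (h2 f) e, @h1 _⟩⟩
  · exact absurd (((a u).mp (Or.inl hu)).elim (@h1 _) (@h2 _)) (d' hu)

lemma no_even {x y : ℤ} (hx : Even x) (hy : Even y) (d0 : Disjoint (Sq !₂[0, 0]) (Sq !₂[x, y]))
    {𝒯 : Set (Set E)} (h : Idiomeric 𝒯 (T x y)) (hg : OnGrid 𝒯) : False := by
  obtain ⟨⟨-, -, cov, dis⟩, con, iso, idi⟩ := h
  let R : E → E → Prop := fun p q => Sq p ∪ Sq q ∈ 𝒯 ∧ Disjoint (Sq p) (Sq q)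
  have Rs : ∀ p q, R p q → R q p := fun p q h => ⟨Set.union_comm _ _ ▸ h.1, h.2.symm⟩
  have ne : ∀ p q, R p q → p ≠ q := fun p q h e =>
    Set.disjoint_left.mp h.2 (self_mem p) (e ▸ self_mem p)
  have uniq : ∀ p q q', R p q → R p q' → q = q' := by
    intro p q q' h h'
    have e : Sq p ∪ Sq q = Sq p ∪ Sq q' := by
      by_contra n
      exact Set.disjoint_left.mp (dis h.1 h'.1 n) (interior_mono Set.subset_union_left (self_int p))
        (interior_mono Set.subset_union_left (self_int p))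
    rcases key (g := IsometryEquiv.refl E) h.2 ((img_refl _).trans e) with k | k
    · exact centre k.2
    · exact absurd (centre k.1) (ne _ _ h')
  have tile : ∀ (g : E ≃ᵢ E) p q p' q', Disjoint (Sq p) (Sq q) →
      g '' (Sq p ∪ Sq q) = Sq p' ∪ Sq q' → Disjoint (Sq p') (Sq q') ∧
        ((g p = p' ∧ g q = q') ∨ (g p = q' ∧ g q = p')) := by
    intro g p q p' q' d e
    have d' : Disjoint (g '' Sq p) (g '' Sq q) := (Set.disjoint_image_iff g.injective).mpr d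
    rcases key d e with k | k
    · exact ⟨k.1 ▸ k.2 ▸ d', Or.inl ⟨centre k.1, centre k.2⟩⟩
    · exact ⟨k.1 ▸ k.2 ▸ d'.symm, Or.inr ⟨centre k.1, centre k.2⟩⟩
  have map : ∀ g, IsSym 𝒯 g → ∀ p q, R p q → R (g p) (g q) := by
    intro g s p q h
    have m : g '' (Sq p ∪ Sq q) ∈ 𝒯 := by rw [← s]; exact ⟨_, h.1, rfl⟩
    obtain ⟨a, b, c, d, e⟩ := hg _ m
    obtain ⟨k, ⟨k1, k2⟩ | ⟨k1, k2⟩⟩ := tile g _ _ _ _ h.2 e
    · rw [k1, k2]; exact ⟨e ▸ m, k⟩
    · rw [k1, k2]; exact Rs _ _ ⟨e ▸ m, k⟩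
  have grid : ∀ t ∈ 𝒯, ∃ a b c d : ℤ, t = Sq !₂[a, b] ∪ Sq !₂[c, d] ∧
      R !₂[a, b] !₂[c, d] ∧ Even (a + c) ∧ Even (b + d) := by
    intro t ht
    obtain ⟨a, b, c, d, e⟩ := hg t ht
    obtain ⟨g, f⟩ := con t ht
    obtain ⟨k, l⟩ := tile g _ _ _ _ d0 (f.trans e)
    have m : dist (!₂[a, b] : E) !₂[c, d] = dist (!₂[0, 0] : E) !₂[x, y] := by
      rw [← g.dist_eq !₂[0, 0]]
      rcases l with l | l <;> rw [l.1, l.2]
      exact dist_comm _ _
    have m2 := congrArg (· ^ 2) m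
    simp only [dsq, Matrix.cons_val_zero, Matrix.cons_val_one] at m2
    have m3 : (a - c) ^ 2 + (b - d) ^ 2 = (0 - x) ^ 2 + (0 - y) ^ 2 := by exact_mod_cast m2
    obtain ⟨x, rfl⟩ := hx
    obtain ⟨y, rfl⟩ := hy
    refine ⟨a, b, c, d, e, ⟨e ▸ ht, k⟩, ?_⟩
    rw [Int.even_add, Int.even_add, ← Int.even_sub, ← Int.even_sub]
    generalize a - c = u at *
    generalize b - d = w at *
    rcases Int.even_or_odd' u with ⟨u, rfl | rfl⟩ <;> rcases Int.even_or_odd' w with ⟨w, rfl | rfl⟩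
    · simp
    all_goals (exfalso; ring_nf at m3; omega)
  have partner : ∀ a b : ℤ, ∃ q, R !₂[a, b] q := by
    intro a b
    obtain ⟨t, ht, m⟩ : (!₂[a, b] : E) ∈ ⋃₀ 𝒯 := cov ▸ Set.mem_univ _
    obtain ⟨c, d, e, f, rfl, r, -⟩ := grid t ht
    have k : ∀ c d : ℤ, (!₂[a, b] : E) ∈ Sq !₂[c, d] → a = c ∧ b = d := by
      intro c d h
      have k2 : ∀ u w : ℤ, |(u : ℝ) - w| ≤ 1 / 2 → u = w := fun u w h => by
        have : |u - w| < 1 := by exact_mod_cast h.trans_lt (by norm_num : (1 / 2 : ℝ) < 1)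
        exact sub_eq_zero.mp (Int.abs_lt_one_iff.mp this)
      exact ⟨k2 _ _ (h 0), k2 _ _ (h 1)⟩
    rcases m with m | m <;> obtain ⟨rfl, rfl⟩ := k _ _ m
    · exact ⟨_, r⟩
    · exact ⟨_, Rs _ _ r⟩
  have swap : ∀ p q, R p q → ∃ g, IsSym 𝒯 g ∧ g p = q ∧ g q = p := by
    intro p q h
    obtain ⟨g, s, e, f⟩ := idi _ h.1 p (Or.inl (self_mem p)) q (Or.inr (self_mem q))
    rw [comp h.2 (self_mem p), Set.union_comm, comp h.2.symm (self_mem q)] at f
    exact ⟨g, s, (tile g _ _ _ _ h.2 e).2.resolve_left fun k => ne _ _ h (k.1.symm.trans (centre f))⟩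
  have trans : ∀ p q p' q', R p q → R p' q' → ∃ g, IsSym 𝒯 g ∧ g p = p' ∧ g q = q' := by
    intro p q p' q' h h'
    obtain ⟨g, s, e⟩ := iso _ h.1 _ h'.1
    rcases (tile g _ _ _ _ h.2 e).2 with k | k
    · exact ⟨g, s, k⟩
    · obtain ⟨f, s', k'⟩ := swap _ _ h'
      refine ⟨g.trans f, ?_, by simp [k.1, k'.2], by simp [k.2, k'.1]⟩
      unfold IsSym at s s' ⊢
      nth_rewrite 2 [← s', ← s]
      simp only [Set.image_image]
      rfl
  obtain ⟨t, ht, -⟩ : (0 : E) ∈ ⋃₀ 𝒯 := cov ▸ Set.mem_univ _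
  obtain ⟨a, b, c, d, -, r, ⟨u, hu⟩, ⟨w, hw⟩⟩ := grid t ht
  obtain ⟨n, rn⟩ := partner u w
  have mid : (!₂[u, w] : E) = midpoint ℝ (!₂[a, b] : E) (!₂[c, d] : E) := by
    have hu' : (a : ℝ) + c = u + u := by exact_mod_cast hu
    have hw' : (b : ℝ) + d = w + w := by exact_mod_cast hw
    rw [midpoint_eq_smul_add]
    ext i; fin_cases i <;> simp <;> linarith
  rw [mid] at rn
  generalize (!₂[a, b] : E) = p at *
  generalize (!₂[c, d] : E) = q at *
  obtain ⟨h, s, h1, h2⟩ := swap p q r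
  have h3 : h (midpoint ℝ p q) = midpoint ℝ p q := by rw [h.map_midpoint, h1, h2, midpoint_comm]
  have h4 : h n = n := uniq _ _ _ (h3 ▸ map h s _ _ rn) rn
  obtain ⟨g, s', g1, g2⟩ := trans _ _ _ _ r rn
  have r1 := map g s' _ _ rn
  rw [g.map_midpoint, g1, g2] at r1
  have h5 : h (midpoint ℝ (midpoint ℝ p q) n) = midpoint ℝ (midpoint ℝ p q) n := by
    rw [h.map_midpoint, h3, h4]
  have h6 : h (g n) = g n := uniq _ _ _ (h5 ▸ map h s _ _ r1) r1
  have eq : ∀ z, h z = z → dist p z = dist q z := fun z e => by rw [← h.dist_eq, h1, e]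
  have e1 := congrArg (· ^ 2) (eq _ h3)
  have e2 := congrArg (· ^ 2) (eq _ h4)
  have e3 := congrArg (· ^ 2) (eq _ h6)
  have e4 : dist (midpoint ℝ p q) (g n) ^ 2 = dist n (g n) ^ 2 := by
    rw [← g1, g.dist_eq, eq _ h4, ← g.dist_eq, g2]
  have n1 := pow_pos (dist_pos.mpr (ne _ _ r)) 2
  have n2 := pow_pos (dist_pos.mpr (ne _ _ rn)) 2
  have n3 := pow_pos (dist_pos.mpr (ne _ _ r1)) 2
  generalize midpoint ℝ p q = m at *
  generalize g n = z at *
  rw [midpoint_eq_smul_add] at n3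
  simp only [dsq, PiLp.smul_apply, PiLp.add_apply, smul_eq_mul, invOf_eq_inv] at e1 e2 e3 e4 n1 n2 n3
  have f1 : (p 0 - q 0) * (m 0 - n 0) + (p 1 - q 1) * (m 1 - n 1) = 0 := by linarith
  have f2 : (p 0 - q 0) * (2⁻¹ * (m 0 + n 0) - z 0) + (p 1 - q 1) * (2⁻¹ * (m 1 + n 1) - z 1) = 0 := by
    linarith
  have f3 : (m 0 - n 0) * (2⁻¹ * (m 0 + n 0) - z 0) + (m 1 - n 1) * (2⁻¹ * (m 1 + n 1) - z 1) = 0 := by
    linarith
  have := mul_pos n1 (mul_pos n2 n3)
  generalize p 0 - q 0 = d0 at *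
  generalize p 1 - q 1 = d1 at *
  generalize m 0 - n 0 = a0 at *
  generalize m 1 - n 1 = a1 at *
  generalize 2⁻¹ * (m 0 + n 0) - z 0 = b0 at *
  generalize 2⁻¹ * (m 1 + n 1) - z 1 = b1 at *
  refine this.ne' ?_
  have j0 : d0 * (a0 * b1 - a1 * b0) = 0 := by linear_combination b1 * f1 - a1 * f2
  have j1 : d1 * (a0 * b1 - a1 * b0) = 0 := by linear_combination a0 * f2 - b0 * f1
  linear_combination (d0 ^ 2 + d1 ^ 2) * (a0 * b0 + a1 * b1) * f3 +
    d0 * (a0 * b1 - a1 * b0) * j0 + d1 * (a0 * b1 - a1 * b0) * j1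

theorem main (x y : ℤ) (h : 2 ≤ max |x| |y|) : (∃ 𝒯, Idiomeric 𝒯 (T x y)) ∧
    ((∃ 𝒯, Idiomeric 𝒯 (T x y) ∧ OnGrid 𝒯) ↔ Odd x ∨ Odd y) := by
  obtain ⟨i, hi⟩ : ∃ i, 2 ≤ |(!₂[x, y] : E) i| := by
    rcases le_max_iff.mp h with h | h
    · exact ⟨0, by simpa using (by exact_mod_cast h : (2 : ℝ) ≤ |(x : ℝ)|)⟩
    · exact ⟨1, by simpa using (by exact_mod_cast h : (2 : ℝ) ≤ |(y : ℝ)|)⟩
  have A := fun s => lattice (α := 0) (β := 1) (by decide) s
    (fun k => !₂[k.1, k.2 + k.1 * s]) (fun _ => rfl) (fun _ => rfl)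
  have B := fun s => lattice (α := 1) (β := 0) (by decide) s
    (fun k => !₂[k.2 + k.1 * s, k.1]) (fun _ => rfl) (fun _ => rfl)
  refine ⟨?_, ⟨fun ⟨𝒯, h1, h2⟩ => ?_, ?_⟩⟩
  · by_cases hx : x = 0
    · have hy : (y : ℝ) ≠ 0 := by
        have : y ≠ 0 := by rintro rfl; simp [hx] at h
        exact_mod_cast this
      have e : ((1 : ℤ) : ℝ) + y * ((x - 1) / y) = x := by field_simp; simp
      have := B ((x - 1) / y) (y, 1) odd_one (i0 := i) (by simpa only [e] using hi)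
      simp only [e] at this
      exact ⟨_, by simpa [T] using this⟩
    · have hx : (x : ℝ) ≠ 0 := by exact_mod_cast hx
      have e : ((1 : ℤ) : ℝ) + x * ((y - 1) / x) = y := by field_simp; simp
      have := A ((y - 1) / x) (x, 1) odd_one (i0 := i) (by simpa only [e] using hi)
      simp only [e] at this
      exact ⟨_, by simpa [T] using this⟩
  · by_contra n
    simp only [not_or, Int.not_odd_iff_even] at n
    refine no_even n.1 n.2 (sq_disj (i := i) ?_) h1 h2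
    fin_cases i <;> simpa using hi
  · rintro (o | o)
    · have := B 0 (y, x) o (i0 := i) (by simpa using hi)
      simp only [mul_zero, add_zero] at this
      exact ⟨_, by simpa [T] using this, by
        rintro _ ⟨k, -, rfl⟩; exact ⟨k.2, k.1, k.2 + x, k.1 + y, by simp⟩⟩
    · have := A 0 (x, y) o (i0 := i) (by simpa using hi)
      simp only [mul_zero, add_zero] at this
      exact ⟨_, by simpa [T] using this, by
        rintro _ ⟨k, -, rfl⟩; exact ⟨k.1, k.2, k.1 + x, k.2 + y, by simp⟩⟩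

end Pool.Agent.H6.Idio
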