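import Mathlib

namespace Pool.Agent.H6.Joint

open Finset

variable {α : Type} {M : Matroid α}

lemma two_pts (hs : ∀ x ∈ M.E, ∀ y ∈ M.E, M.Indep {x, y}) {l F : Set α} (hl : M.IsFlat l)
    (h2 : M.eRk l = 2) (hF : M.IsFlat F) {x y : α} (hxy : x ≠ y) (xl : x ∈ l) (yl : y ∈ l)
    (xF : x ∈ F) (yF : y ∈ F) : l ⊆ F := by
  have hI := hs x (hl.subset_ground xl) y (hl.subset_ground yl)
  have hB := hI.isBasis_of_eRk_ge (Set.toFinite _) (X := l) (Set.pair_subset xl yl)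
    (by rw [hI.eRk_eq_encard, Set.encard_pair hxy, h2]) hl.subset_ground
  exact hB.subset_closure.trans
    ((M.closure_subset_closure (Set.pair_subset xF yF)).trans hF.closure.subset)

open Classical in
lemma regular (X : Finset α) (D : α → Finset (Set α)) (k : ℕ)
    (h : k * #(X.biUnion D) < #X) :
    ∃ Y ⊆ X, Y.Nonempty ∧ ∀ x ∈ Y, ∀ l ∈ D x, k + 1 ≤ #{y ∈ Y | l ∈ D y} := by
  obtain ⟨Y, hY, hm⟩ := exists_min_image {Y ∈ X.powerset | k * #(Y.biUnion D) < #Y} card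
    ⟨X, by simpa using h⟩
  simp only [mem_filter, mem_powerset, and_imp] at hY hm
  refine ⟨Y, hY.1, card_pos.mp (by omega), fun x hx l hl => ?_⟩
  by_contra c
  have e := card_filter_add_card_filter_not (s := Y) fun y => l ∈ D y
  have e0 : 0 < #{y ∈ Y | l ∈ D y} := card_pos.mpr ⟨x, mem_filter.mpr ⟨hx, hl⟩⟩
  have e1 : #(({y ∈ Y | l ∉ D y} : Finset α).biUnion D) + 1 ≤ #(Y.biUnion D) := by
    refine card_lt_card ⟨biUnion_subset_biUnion_of_subset_left _ (filter_subset _ _), fun g => ?_⟩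
    have := g (mem_biUnion.mpr ⟨x, hx, hl⟩)
    simp only [mem_biUnion, mem_filter] at this
    obtain ⟨y, h1, h2⟩ := this
    exact h1.2 h2
  have := hm _ ((filter_subset (fun y => l ∉ D y) Y).trans hY.1) (by nlinarith [hY.2])
  omega

open Classical in
theorem bound (hs : ∀ x ∈ M.E, ∀ y ∈ M.E, M.Indep {x, y}) (𝔏 : Finset (Set α))
    (hL : ∀ l ∈ 𝔏, M.IsFlat l ∧ M.eRk l = 2) {n : ℕ} (X : Finset α) (D : α → Finset (Set α))
    (hD : ∀ x ∈ X, D x ⊆ 𝔏 ∧ #(D x) ≤ n ∧ (∀ l ∈ D x, x ∈ l) ∧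
      ∀ F, M.eRk F ≤ n → ∃ l ∈ D x, ¬ l ⊆ F) {k j : ℕ} (hj : 2 * (j + 1) ≤ n)
    (hk : k * #𝔏 < #X) : k ^ (2 * j + 1) ≤ n ^ j * #𝔏 ^ (j + 1) := by
  obtain ⟨Y, hY, ⟨x0, hx0⟩, hr⟩ := regular X D k (lt_of_le_of_lt (Nat.mul_le_mul_left _
    (card_le_card (biUnion_subset.mpr fun x hx => (hD x hx).1))) hk)
  replace hD := fun x hx => hD x (hY hx)
  have hT : ∀ F, M.IsFlat F → M.eRk F ≤ n → ∃ t : α → Set α,
      (∀ x ∈ Y, t x ∈ D x ∧ ¬ t x ⊆ F) ∧ Set.InjOn t ({x ∈ Y | x ∈ F} : Finset α) := by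
    intro F hF h
    choose! t t1 t2 using fun x hx => (hD x hx).2.2.2 F h
    refine ⟨t, fun x hx => ⟨t1 x hx, t2 x hx⟩, fun x hx y hy e => ?_⟩
    simp only [coe_filter, Set.mem_ofPred_eq] at hx hy
    by_contra c
    have := hL _ ((hD x hx.1).1 (t1 x hx.1))
    exact t2 x hx.1 (two_pts hs this.1 this.2 hF c ((hD x hx.1).2.2.1 _ (t1 x hx.1))
      (e ▸ (hD y hy.1).2.2.1 _ (t1 y hy.1)) hx.2 hy.2)
  have n2 : (2 : ℕ∞) ≤ n := by exact_mod_cast (by omega : 2 ≤ n)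
  obtain ⟨l0, hl0, -⟩ := (hD x0 hx0).2.2.2 ∅ (by simp)
  have key : ∀ i ≤ j, ∃ F, M.IsFlat F ∧ M.eRk F ≤ (2 * (i + 1) : ℕ) ∧
      k ^ (2 * i + 1) ≤ #{x ∈ Y | x ∈ F} * (n * #𝔏) ^ i := by
    intro i
    induction i with
    | zero =>
      intro _
      have := hL _ ((hD x0 hx0).1 hl0)
      refine ⟨l0, this.1, this.2.le, ?_⟩
      have h1 := hr x0 hx0 l0 hl0
      have h2 : #{y ∈ Y | l0 ∈ D y} ≤ #{x ∈ Y | x ∈ l0} := card_le_card fun y hy => by
        rw [mem_filter] at hy ⊢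
        exact ⟨hy.1, (hD y hy.1).2.2.1 _ hy.2⟩
      simp only [mul_zero, zero_add, pow_one, pow_zero, mul_one]
      omega
    | succ i ih =>
      intro hi
      obtain ⟨F, hF, h1, h2⟩ := ih (by omega)
      obtain ⟨t, t1, t2⟩ := hT F hF (h1.trans (by exact_mod_cast (by omega)))
      have tl := fun x hx => hL _ ((hD x hx).1 (t1 x hx).1)
      let r : α → Set α → Prop := fun x w => ∃ y ∈ w, y ∈ t x ∧ y ≠ x
      obtain ⟨w, hw, hm⟩ := exists_max_image 𝔏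
        (fun w => #(({x ∈ Y | x ∈ F} : Finset α).bipartiteBelow r w)) ⟨l0, (hD x0 hx0).1 hl0⟩
      have c1 := card_mul_le_card_mul r (s := {x ∈ Y | x ∈ F}) (t := 𝔏) (m := k) (fun x hx => by
        have xY := (mem_filter.mp hx).1
        choose! z z1 z2 using fun y hy => (hD y hy).2.2.2 (t x) ((tl x xY).2.le.trans n2)
        have := hr x xY _ (t1 x xY).1
        refine le_trans (b := #(({y ∈ Y | t x ∈ D y} : Finset α).erase x))
          (by have := pred_card_le_card_erase (s := {y ∈ Y | t x ∈ D y}) (a := x); omega)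
          (card_le_card_of_injOn z (fun y hy => ?_) fun y hy y' hy' e => ?_)
        · simp only [coe_erase, coe_filter, Set.mem_sdiff, Set.mem_ofPred_eq,
            Set.mem_singleton_iff] at hy
          simp only [mem_coe, mem_bipartiteAbove]
          exact ⟨(hD y hy.1.1).1 (z1 y hy.1.1), y, (hD y hy.1.1).2.2.1 _ (z1 y hy.1.1),
            (hD y hy.1.1).2.2.1 _ hy.1.2, hy.2⟩
        · simp only [coe_erase, coe_filter, Set.mem_sdiff, Set.mem_ofPred_eq,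
            Set.mem_singleton_iff] at hy hy'
          by_contra c
          have := hL _ ((hD y hy.1.1).1 (z1 y hy.1.1))
          exact z2 y hy.1.1 (two_pts hs this.1 this.2 (tl x xY).1 c
            ((hD y hy.1.1).2.2.1 _ (z1 y hy.1.1)) (e ▸ (hD y' hy'.1.1).2.2.1 _ (z1 y' hy'.1.1))
            ((hD y hy.1.1).2.2.1 _ hy.1.2) ((hD y' hy'.1.1).2.2.1 _ hy'.1.2))) hm
      have sub : F ∪ w ⊆ M.closure (F ∪ w) := M.subset_closure _
        (Set.union_subset hF.subset_ground (hL w hw).1.subset_ground)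
      have c2 := card_mul_le_card_mul (fun x y => t x ∈ D y)
        (s := ({x ∈ Y | x ∈ F} : Finset α).bipartiteBelow r w)
        (t := {x ∈ Y | x ∈ M.closure (F ∪ w)}) (m := k) (n := n) (fun x hx => by
          simp only [mem_bipartiteBelow, mem_filter] at hx
          obtain ⟨⟨xY, xF⟩, y, y1, y2, y3⟩ := hx
          have := two_pts hs (tl x xY).1 (tl x xY).2 (M.isFlat_closure (X := F ∪ w)) y3 y2
            ((hD x xY).2.2.1 _ (t1 x xY).1) (sub (.inr y1)) (sub (.inl xF))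
          refine (Nat.le_succ _).trans ((hr x xY _ (t1 x xY).1).trans (card_le_card fun u hu => ?_))
          simp only [mem_bipartiteAbove, mem_filter] at hu ⊢
          exact ⟨⟨hu.1, this ((hD u hu.1).2.2.1 _ hu.2)⟩, hu.2⟩) fun y hy => by
          refine le_trans (card_le_card_of_injOn t (fun x hx => ?_) (t2.mono fun x hx => ?_))
            (hD y (mem_filter.mp hy).1).2.1
          · exact ((mem_bipartiteBelow _).mp hx).2
          · exact ((mem_bipartiteBelow _).mp ((mem_bipartiteBelow _).mp hx).1).1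
      refine ⟨_, M.isFlat_closure (X := F ∪ w), ?_, ?_⟩
      · rw [M.eRk_closure_eq]
        refine (M.eRk_union_le_eRk_add_eRk _ _).trans ?_
        rw [(hL w hw).2]
        refine (add_le_add_left h1 _).trans_eq ?_
        push_cast; ring
      · calc k ^ (2 * (i + 1) + 1) = k ^ (2 * i + 1) * k * k := by ring
          _ ≤ #{x ∈ Y | x ∈ F} * (n * #𝔏) ^ i * k * k := by gcongr
          _ = #{x ∈ Y | x ∈ F} * k * k * (n * #𝔏) ^ i := by ring
          _ ≤ #𝔏 * #(({x ∈ Y | x ∈ F} : Finset α).bipartiteBelow r w) * k * (n * #𝔏) ^ i := by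
            gcongr
          _ = #𝔏 * (#(({x ∈ Y | x ∈ F} : Finset α).bipartiteBelow r w) * k) * (n * #𝔏) ^ i := by
            ring
          _ ≤ #𝔏 * (#{x ∈ Y | x ∈ M.closure (F ∪ w)} * n) * (n * #𝔏) ^ i := by gcongr
          _ = _ := by ring
  obtain ⟨F, hF, h1, h2⟩ := key j le_rfl
  obtain ⟨t, t1, t2⟩ := hT F hF (h1.trans (by exact_mod_cast hj))
  have := card_le_card_of_injOn t (t := 𝔏)
    (fun x hx => (hD x (mem_filter.mp hx).1).1 (t1 x (mem_filter.mp hx).1).1) t2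
  calc _ ≤ _ := h2
    _ ≤ #𝔏 * (n * #𝔏) ^ j := by gcongr
    _ = _ := by ring

theorem real_bound (hf : M.E.Finite) (hs : ∀ x ∈ M.E, ∀ y ∈ M.E, M.Indep {x, y})
    (𝔏 : Finset (Set α)) (hL : ∀ l ∈ 𝔏, M.IsFlat l ∧ M.eRk l = 2) {n j : ℕ}
    (hj : 2 * (j + 1) ≤ n) :
    ({x ∈ M.E | ∃ l : Fin n → Set α, (∀ i, l i ∈ 𝔏 ∧ x ∈ l i) ∧
      (n + 1 : ℕ∞) ≤ M.eRk (⋃ i, l i)}.ncard : ℝ) ≤
      (n + 1) * (#𝔏 : ℝ) ^ (1 + (j + 1 : ℝ) / (2 * j + 1)) := by
  classical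
  set S := {x ∈ M.E | ∃ l : Fin n → Set α, (∀ i, l i ∈ 𝔏 ∧ x ∈ l i) ∧
      (n + 1 : ℕ∞) ≤ M.eRk (⋃ i, l i)}
  have hS : S.Finite := hf.subset fun x hx => hx.1
  choose! l l1 l2 using fun x (hx : x ∈ S) => hx.2
  rw [Set.ncard_eq_toFinset_card _ hS]
  rcases Nat.eq_zero_or_pos #hS.toFinset with e | e
  · rw [e, Nat.cast_zero]; positivity
  obtain ⟨x0, hx0⟩ := card_pos.mp e
  have L0 : 0 < #𝔏 := card_pos.mpr ⟨_, (l1 x0 (hS.mem_toFinset.mp hx0) ⟨0, by omega⟩).1⟩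
  obtain ⟨k, k1, k2⟩ : ∃ k, k * #𝔏 < #hS.toFinset ∧ #hS.toFinset ≤ (k + 1) * #𝔏 :=
    ⟨(#hS.toFinset - 1) / #𝔏, by have := Nat.div_mul_le_self (#hS.toFinset - 1) #𝔏; omega, by
      have := Nat.lt_div_mul_add (a := #hS.toFinset - 1) L0; rw [add_one_mul]; omega⟩
  have := bound hs 𝔏 hL hS.toFinset (fun x => univ.image (l x)) (fun x hx => by
    have hx := hS.mem_toFinset.mp hx
    refine ⟨image_subset_iff.mpr fun i _ => (l1 x hx i).1, card_image_le.trans (by simp),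
      by simpa using fun i => (l1 x hx i).2, fun F hF => ?_⟩
    by_contra! c
    have := ((l2 x hx).trans (M.eRk_mono (Set.iUnion_subset fun i =>
      c _ (mem_image_of_mem _ (mem_univ i))))).trans hF
    norm_cast at this
    omega) hj k1
  have L1 : (1 : ℝ) ≤ #𝔏 := by exact_mod_cast L0
  have a1 : 1 ≤ (#𝔏 : ℝ) ^ ((j + 1 : ℝ) / (2 * j + 1)) := Real.one_le_rpow L1 (by positivity)
  have a2 : (k : ℝ) ≤ n * (#𝔏 : ℝ) ^ ((j + 1 : ℝ) / (2 * j + 1)) := by
    refine le_of_pow_le_pow_left₀ (n := 2 * j + 1) (by omega) (by positivity) ?_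
    rw [mul_pow, ← Real.rpow_natCast (_ ^ _ : ℝ), ← Real.rpow_mul (by positivity)]
    push_cast
    rw [div_mul_cancel₀ _ (by positivity), ← Nat.cast_succ, Real.rpow_natCast]
    exact_mod_cast this.trans (Nat.mul_le_mul_right _ (Nat.pow_le_pow_right (by omega) (by omega)))
  rw [Real.rpow_add (by positivity), Real.rpow_one]
  have : (#hS.toFinset : ℝ) ≤ (k + 1) * #𝔏 := by exact_mod_cast k2
  nlinarith

end Pool.Agent.H6.Joint
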