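import Mathlib

namespace Pool.Agent.H6.KK

open Complex Metric Filter Topology

/-- Number of zeros of `F` in `S`, counted with multiplicity. -/
noncomputable def cnt (F : ℂ → ℂ) (S : Set ℂ) : ENNReal :=
  ∑' z : S, ((analyticOrderAt F (z : ℂ) : ℕ∞) : ENNReal)

lemma factor_one (a : ℂ) (n : ℕ) : ∀ F : ℂ → ℂ, Differentiable ℂ F → analyticOrderAt F a = n →
    ∃ h : ℂ → ℂ, Differentiable ℂ h ∧ (∀ z, F z = (z - a) ^ n * h z) ∧ h a ≠ 0 := by
  induction n with
  | zero =>
    intro F hF h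
    exact ⟨F, hF, by simp, (hF.analyticAt a).analyticOrderAt_eq_zero.mp (by simpa using h)⟩
  | succ n ih =>
    intro F hF h
    have h0 : F a = 0 := apply_eq_zero_of_analyticOrderAt_ne_zero (by rw [h]; simp)
    have h1 : Differentiable ℂ (dslope F a) := by
      rw [← differentiableOn_univ] at hF ⊢
      exact (differentiableOn_dslope univ_mem).mpr hF
    have h2 : F = (fun z => z - a) * dslope F a := by
      ext z
      have := sub_smul_dslope F a z
      simp only [smul_eq_mul, h0, sub_zero] at this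
      exact this.symm
    have h3 : analyticOrderAt (dslope F a) a = n := by
      rw [h2, analyticOrderAt_mul (by fun_prop) (h1.analyticAt a),
        analyticOrderAt_id_sub_const_self, Nat.cast_succ, add_comm] at h
      exact WithTop.add_right_cancel ENat.one_ne_top h
    obtain ⟨g, g1, g2, g3⟩ := ih _ h1 h3
    refine ⟨g, g1, fun z => ?_, g3⟩
    rw [congrFun h2 z, Pi.mul_apply, g2]
    ring

lemma factor_fin (F : ℂ → ℂ) (hF : Differentiable ℂ F) (n : ℂ → ℕ)
    (hn : ∀ a, analyticOrderAt F a = n a) (Z : Finset ℂ) :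
    ∃ h : ℂ → ℂ, Differentiable ℂ h ∧ (∀ z, F z = (∏ a ∈ Z, (z - a) ^ n a) * h z) ∧
      ∀ a ∈ Z, h a ≠ 0 := by
  classical
  induction Z using Finset.induction_on with
  | empty => exact ⟨F, hF, by simp, by simp⟩
  | insert b Z hb ih =>
    obtain ⟨h, h1, h2, h3⟩ := ih
    have hP : Differentiable ℂ fun z => ∏ a ∈ Z, (z - a) ^ n a := by fun_prop
    have e : F = (fun z => ∏ a ∈ Z, (z - a) ^ n a) * h := funext h2
    have o : analyticOrderAt h b = n b := by
      rw [← hn b, e, analyticOrderAt_mul (hP.analyticAt b) (h1.analyticAt b),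
        (hP.analyticAt b).analyticOrderAt_eq_zero.mpr, zero_add]
      exact Finset.prod_ne_zero_iff.mpr fun a ha =>
        pow_ne_zero _ (sub_ne_zero.mpr fun e => hb (e ▸ ha))
    obtain ⟨g, g1, g2, g3⟩ := factor_one b (n b) h h1 o
    refine ⟨g, g1, fun z => ?_, fun a ha => ?_⟩
    · rw [h2, g2, Finset.prod_insert hb]
      ring
    · rcases Finset.mem_insert.mp ha with rfl | ha
      · exact g3
      · intro e
        apply h3 a ha
        rw [g2, e, mul_zero]

lemma factor (F : ℂ → ℂ) (hF : Differentiable ℂ F) {x : ℂ} (hx : F x ≠ 0) {K : Set ℂ}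
    (hK : IsCompact K) :
    ∃ (m : ℕ) (P h : ℂ → ℂ), Differentiable ℂ h ∧ (∀ z, F z = P z * h z) ∧ (∀ z ∈ K, h z ≠ 0) ∧
      cnt F K = m ∧
      (∀ z (B : ℝ), 0 ≤ B → (∀ a ∈ K, F a = 0 → ‖z - a‖ ≤ B) → ‖P z‖ ≤ B ^ m) ∧
      (∀ z (B : ℝ), 0 ≤ B → (∀ a ∈ K, F a = 0 → B ≤ ‖z - a‖) → B ^ m ≤ ‖P z‖) := by
  classical
  have hA : AnalyticOnNhd ℂ F Set.univ := fun z _ => hF.analyticAt z
  have hfin : (K \ F ⁻¹' {0}ᶜ).Finite := hK.finite_sdiff_of_mem_codiscreteWithin
    (Filter.codiscreteWithin_mono (Set.subset_univ K) (hA.preimage_zero_mem_codiscrete hx))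
  have hne : ∀ a, analyticOrderAt F a ≠ ⊤ := fun a h => by
    rw [AnalyticOnNhd.analyticOrderAt_eq_top_iff_eq_zero a fun z => hF.analyticAt z] at h
    exact hx (by simp [h])
  have hn : ∀ a, analyticOrderAt F a = analyticOrderNatAt F a := fun a =>
    (Nat.cast_analyticOrderNatAt (hne a)).symm
  have hZ : ∀ a, a ∈ hfin.toFinset ↔ a ∈ K ∧ F a = 0 := by simp
  obtain ⟨h, h1, h2, h3⟩ := factor_fin F hF _ hn hfin.toFinset
  refine ⟨∑ a ∈ hfin.toFinset, analyticOrderNatAt F a, _, h, h1, h2, fun z hz e => ?_, ?_,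
    fun z B hB hz => ?_, fun z B hB hz => ?_⟩
  · exact h3 z ((hZ z).mpr ⟨hz, by rw [h2, e, mul_zero]⟩) e
  · unfold cnt
    rw [tsum_subtype K fun z => ((analyticOrderAt F z : ℕ∞) : ENNReal),
      tsum_eq_sum (s := hfin.toFinset), Nat.cast_sum]
    · refine Finset.sum_congr rfl fun a ha => ?_
      rw [Set.indicator_of_mem ((hZ a).mp ha).1, hn]
      simp
    · intro a ha
      by_cases haK : a ∈ K
      · rw [Set.indicator_of_mem haK, (hF.analyticAt a).analyticOrderAt_eq_zero.mpr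
          fun e => ha ((hZ a).mpr ⟨haK, e⟩)]
        simp
      · exact Set.indicator_of_notMem haK _
  · rw [norm_prod, ← Finset.prod_pow_eq_pow_sum]
    refine Finset.prod_le_prod (fun _ _ => by positivity) fun a ha => ?_
    rw [norm_pow]
    exact pow_le_pow_left₀ (norm_nonneg _) (hz a ((hZ a).mp ha).1 ((hZ a).mp ha).2) _
  · rw [norm_prod, ← Finset.prod_pow_eq_pow_sum]
    refine Finset.prod_le_prod (fun _ _ => by positivity) fun a ha => ?_
    rw [norm_pow]
    exact pow_le_pow_left₀ hB (hz a ((hZ a).mp ha).1 ((hZ a).mp ha).2) _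

lemma cnt_lt_top (F : ℂ → ℂ) (hF : Differentiable ℂ F) {x : ℂ} (hx : F x ≠ 0) {K : Set ℂ}
    (hK : IsCompact K) : cnt F K ≠ ⊤ := by
  obtain ⟨m, -, -, -, -, -, h, -⟩ := factor F hF hx hK
  rw [h]
  simp

lemma max_mod {h P G : ℂ → ℂ} (hh : Differentiable ℂ h) (e : ∀ z, G z = P z * h z) {c : ℂ}
    {R A B : ℝ} (hR : 0 < R) (hB : 0 < B) (hG : ∀ z ∈ closedBall c R, ‖G z‖ ≤ A)
    (hP : ∀ z ∈ sphere c R, B ≤ ‖P z‖) : ∀ z ∈ closedBall c R, ‖h z‖ ≤ A / B := by
  intro z hz
  refine norm_le_of_forall_mem_frontier_norm_le (U := ball c R) isBounded_ball hh.diffContOnCl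
    (fun w hw => ?_) (by rwa [closure_ball c hR.ne'])
  rw [frontier_ball c hR.ne'] at hw
  rw [le_div_iff₀ hB]
  have h1 := hG w (sphere_subset_closedBall hw)
  rw [e, norm_mul] at h1
  nlinarith [hP w hw, norm_nonneg (h w)]

lemma cnt_upper {G : ℂ → ℂ} (hG : Differentiable ℂ G) {c : ℂ} {ρ Λ : ℝ} (hρ : 0 < ρ)
    (h1 : ∀ z ∈ closedBall c (3 * ρ), ‖G z‖ ≤ Real.exp Λ) (h2 : 1 / 2 ≤ ‖G c‖) :
    cnt G (closedBall c ρ) ≤ ENNReal.ofReal (2 * (Λ + 1)) := by
  have hc : G c ≠ 0 := fun e => by rw [e, norm_zero] at h2; linarith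
  obtain ⟨m, P, h, a1, a2, -, a4, a5, a6⟩ := factor G hG hc (isCompact_closedBall c ρ)
  have b1 := max_mod a1 a2 (B := (2 * ρ) ^ m) (by positivity) (by positivity) h1
    (fun z hz => a6 z _ (by positivity) fun a ha _ => by
      rw [mem_sphere_iff_norm] at hz
      rw [mem_closedBall_iff_norm] at ha
      have := norm_sub_norm_le (z - c) (a - c)
      rw [sub_sub_sub_cancel_right] at this
      linarith) c (mem_closedBall_self (by positivity))
  have b2 := a5 c ρ hρ.le fun a ha _ => by rwa [mem_closedBall_iff_norm'] at ha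
  rw [a2, norm_mul] at h2
  have b3 : 1 / 2 ≤ ρ ^ m * (Real.exp Λ / (2 * ρ) ^ m) :=
    h2.trans (mul_le_mul b2 b1 (norm_nonneg _) (by positivity))
  have b4 : (2 : ℝ) ^ m ≤ 2 * Real.exp Λ := by
    rw [mul_pow] at b3
    field_simp at b3
    linarith
  have b5 : Real.exp (m * (1 / 2)) ≤ Real.exp (Λ + 1) := by
    rw [Real.exp_nat_mul, Real.exp_add]
    have e1 : Real.exp (1 / 2) ≤ 2 := by
      have := Real.exp_bound_div_one_sub_of_interval' (x := 1 / 2) (by norm_num) (by norm_num)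
      linarith
    have e2 : 2 ≤ Real.exp 1 := by linarith [Real.add_one_le_exp 1]
    refine (pow_le_pow_left₀ (by positivity) e1 m).trans (b4.trans ?_)
    nlinarith [Real.exp_pos Λ]
  rw [Real.exp_le_exp] at b5
  rw [a4, ← ENNReal.ofReal_natCast]
  exact ENNReal.ofReal_le_ofReal (by linarith)

lemma two_const {c z : ℂ} {R r Q : ℝ} (hr : 0 < r) (hrR : r ≤ R) (hQ : 1 ≤ Q)
    (hz : ‖z - c‖ ≤ R / 4) (hz' : 2 * ‖z - c‖ ≤ Q * r) (K : ℕ) :
    ∀ (F : ℂ → ℂ) (A B : ℝ), DifferentiableOn ℂ F (ball c R) → (∀ w ∈ ball c r, ‖F w‖ ≤ A) →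
      (∀ w ∈ ball c R, ‖F w‖ ≤ B) → ‖F z‖ ≤ A * K * Q ^ K + B / 2 ^ K := by
  have hR : 0 < R := hr.trans_le hrR
  induction K with
  | zero =>
    intro F A B _ _ h
    simpa using h z (mem_ball_iff_norm.mpr (by linarith))
  | succ K ih =>
    intro F A B hF hA hB
    have key : ∀ s C, 0 < s → s ≤ R → (∀ w ∈ ball c s, ‖F w‖ ≤ C) →
        ∀ w ∈ ball c s, ‖dslope F c w‖ ≤ 2 * C / s := by
      intro s C hs hsR h w hw
      refine norm_dslope_le_div_of_mapsTo_ball (hF.mono (ball_subset_ball hsR)) (fun u hu => ?_) hw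
      rw [mem_closedBall_iff_norm]
      linarith [norm_sub_le (F u) (F c), h u hu, h c (mem_ball_self hs)]
    have h1 := ih (dslope F c) _ _ ((differentiableOn_dslope (ball_mem_nhds c hR)).mpr hF)
      (key r A hr hrR hA) (key R B hR le_rfl hB)
    have hA0 : 0 ≤ A := (norm_nonneg _).trans (hA c (mem_ball_self hr))
    have hB0 : 0 ≤ B := (norm_nonneg _).trans (hB c (mem_ball_self hR))
    have h2 : F z = F c + (z - c) * dslope F c z := by
      have := sub_smul_dslope F c z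
      rw [smul_eq_mul] at this
      rw [this]; ring
    have h3 : ‖F z‖ ≤ A + ‖z - c‖ * (2 * A / r * K * Q ^ K + 2 * B / R / 2 ^ K) := by
      rw [h2]
      refine (norm_add_le _ _).trans (add_le_add (hA c (mem_ball_self hr)) ?_)
      rw [norm_mul]
      exact mul_le_mul_of_nonneg_left h1 (norm_nonneg _)
    have h4 : ‖z - c‖ * (2 * A / r * K * Q ^ K) ≤ A * K * Q ^ (K + 1) := by
      have : ‖z - c‖ * (2 * A / r * K * Q ^ K) = (2 * ‖z - c‖ / r) * (A * K * Q ^ K) := by ring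
      rw [this, pow_succ]
      have h5 : 2 * ‖z - c‖ / r ≤ Q := by rwa [div_le_iff₀ hr]
      nlinarith [mul_le_mul_of_nonneg_right h5 (by positivity : 0 ≤ A * K * Q ^ K)]
    have h5 : ‖z - c‖ * (2 * B / R / 2 ^ K) ≤ B / 2 ^ (K + 1) := by
      refine (mul_le_mul_of_nonneg_right hz (by positivity)).trans (le_of_eq ?_)
      field_simp
      ring
    have h6 : A ≤ A * Q ^ (K + 1) := le_mul_of_one_le_right hA0 (one_le_pow₀ hQ)
    push_cast
    nlinarith

lemma bc {H : ℂ → ℂ} {c : ℂ} {s M : ℝ} (hs : 0 < s) (hM : 0 < M)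
    (hH : DifferentiableOn ℂ H (ball c s)) (h0 : H c = 0) (h : ∀ w ∈ ball c s, (H w).re ≤ M) :
    ∀ w ∈ ball c (s / 2), ‖H w‖ ≤ 2 * M := by
  intro w hw
  rw [mem_ball_iff_norm] at hw
  have hm : Set.MapsTo (fun u => c + u) (ball 0 s) (ball c s) := fun u hu => by
    simpa [mem_ball_iff_norm] using hu
  have := borelCaratheodory_zero (f := fun u => H (c + u)) hM (hH.comp (by fun_prop) hm)
    (fun u hu => h _ (hm hu)) hs (z := w - c) (by rw [mem_ball_zero_iff]; linarith) (by simpa)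
  simp only [add_sub_cancel] at this
  refine this.trans ?_
  rw [div_le_iff₀ (by linarith)]
  nlinarith

lemma exists_log {h : ℂ → ℂ} (hh : Differentiable ℂ h) {c : ℂ} {R : ℝ} (hR : 0 < R)
    (h0 : ∀ z ∈ ball c R, h z ≠ 0) : ∃ H : ℂ → ℂ, DifferentiableOn ℂ H (ball c R) ∧ H c = 0 ∧
      ∀ z ∈ ball c R, h z = h c * exp (H z) := by
  have hd : DifferentiableOn ℂ (fun z => deriv h z / h z) (ball c R) :=
    (hh.deriv.differentiableOn).div hh.differentiableOn h0
  obtain ⟨H, H0, H1⟩ := hd.isExactOn_ball.with_val_at c 0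
  have H2 : DifferentiableOn ℂ H (ball c R) := fun z hz =>
    (H1 z hz).differentiableAt.differentiableWithinAt
  refine ⟨H, H2, H0, fun z hz => ?_⟩
  have key : ∀ w ∈ ball c R, HasDerivAt (fun u => h u * exp (-H u)) 0 w := by
    intro w hw
    have := (hh w).hasDerivAt.mul (H1 w hw).neg.cexp
    refine this.congr_deriv ?_
    have := h0 w hw
    field_simp
    simp
  have := isOpen_ball.is_const_of_deriv_eq_zero (convex_ball c R).isPreconnected
    (fun w hw => (key w hw).differentiableAt.differentiableWithinAt)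
    (fun w hw => (key w hw).deriv) hz (mem_ball_self hR)
  simp only [H0, neg_zero, exp_zero, mul_one] at this
  rw [← this, mul_assoc, ← exp_add]
  simp

lemma cnt_lower (Q δ : ℝ) (hQ : 1 ≤ Q) (hδ : 0 < δ) : ∃ ε : ℝ, 0 < ε ∧ ∃ Λ₀ : ℝ,
    ∀ (G : ℂ → ℂ) (c z : ℂ) (R r Λ : ℝ), Differentiable ℂ G → 0 < r → r ≤ R → R ≤ Q * r →
      Λ₀ ≤ Λ → (∀ w ∈ closedBall c (2 * R), ‖G w‖ ≤ Real.exp Λ) →
      (∀ w ∈ ball c r, 1 / 2 ≤ ‖G w‖ ∧ ‖G w‖ ≤ 2) → ‖z - c‖ ≤ R / 8 →
      Real.exp (δ * Λ) ≤ ‖G z‖ → ENNReal.ofReal (ε * Λ) ≤ cnt G (closedBall c R) := by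
  obtain ⟨K, hK⟩ : ∃ K : ℕ, 4 / δ ≤ 2 ^ K := by
    obtain ⟨K, hK⟩ := exists_nat_ge (4 / δ)
    exact ⟨K, hK.trans (by exact_mod_cast Nat.lt_two_pow_self.le)⟩
  obtain ⟨C, hC⟩ : ∃ C : ℝ, C = 2 * Q + 3 + 2 * (2 * Q + 2) * K * Q ^ K := ⟨_, rfl⟩
  have hC0 : 0 < C := by rw [hC]; positivity
  refine ⟨δ / (4 * C), by positivity, 4 * C / δ, ?_⟩
  intro G c z R r Λ hG hr hrR hRQ hΛ h1 h2 hz h3
  have hR : 0 < R := hr.trans_le hrR
  have hΛ0 : 0 < Λ := lt_of_lt_of_le (by positivity) hΛ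
  have hne : ∀ w ∈ ball c r, G w ≠ 0 := fun w hw e => by
    have := (h2 w hw).1
    rw [e, norm_zero] at this
    linarith
  obtain ⟨m, P, h, a1, a2, a3, a4, a5, a6⟩ := factor G hG (hne c (mem_ball_self hr))
    (isCompact_closedBall c R)
  have e2 : ∀ x : ℝ, 0 ≤ x → x ^ m ≤ Real.exp (m * x) := fun x hx => by
    rw [Real.exp_nat_mul]
    exact pow_le_pow_left₀ hx (by linarith [Real.add_one_le_exp x]) m
  have e1 : (2 : ℝ) ≤ Real.exp 1 := by linarith [Real.add_one_le_exp 1]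
  have e3 : (2 : ℝ) ^ m ≤ Real.exp m := by
    rw [← mul_one (m : ℝ), Real.exp_nat_mul]
    exact pow_le_pow_left₀ (by norm_num) e1 m
  have b1 := max_mod a1 a2 (B := R ^ m) (by positivity) (by positivity) h1
    (fun z hz => a6 z _ (by positivity) fun a ha _ => by
      rw [mem_sphere_iff_norm] at hz
      rw [mem_closedBall_iff_norm] at ha
      have := norm_sub_norm_le (z - c) (a - c)
      rw [sub_sub_sub_cancel_right] at this
      linarith)
  have pu : ∀ w ∈ ball c R, ‖P w‖ ≤ Real.exp m * R ^ m := fun w hw => by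
    refine (a5 w (2 * R) (by positivity) fun a ha _ => ?_).trans ?_
    · rw [mem_ball_iff_norm] at hw
      rw [mem_closedBall_iff_norm] at ha
      have := norm_sub_le (w - c) (a - c)
      rw [sub_sub_sub_cancel_right] at this
      linarith
    · rw [mul_pow]
      gcongr
  have hu : ∀ w ∈ ball c (r / 2), ‖h w‖ * R ^ m ≤ Real.exp (m * (2 * Q) + 1) := fun w hw => by
    have p1 := a6 w (r / 2) (by positivity) fun a ha ha0 => by
      have : r ≤ ‖a - c‖ := by
        by_contra hc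
        exact hne a (mem_ball_iff_norm.mpr (not_le.mp hc)) ha0
      rw [mem_ball_iff_norm] at hw
      have h5 := norm_sub_norm_le (a - c) (w - c)
      rw [sub_sub_sub_cancel_right, norm_sub_rev a w] at h5
      linarith
    have p2 := (h2 w (ball_subset_ball (by linarith) hw)).2
    rw [a2, norm_mul] at p2
    have p3 : R ^ m ≤ (2 * Q) ^ m * (r / 2) ^ m := by
      rw [← mul_pow]
      exact pow_le_pow_left₀ hR.le (by linarith) m
    have p4 := e2 (2 * Q) (by positivity)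
    rw [Real.exp_add]
    calc ‖h w‖ * R ^ m ≤ ‖h w‖ * (Real.exp (m * (2 * Q)) * ‖P w‖) := by
          refine mul_le_mul_of_nonneg_left (p3.trans ?_) (norm_nonneg _)
          gcongr
      _ = Real.exp (m * (2 * Q)) * (‖P w‖ * ‖h w‖) := by ring
      _ ≤ _ := mul_le_mul_of_nonneg_left (p2.trans e1) (by positivity)
  have hl : 1 ≤ Real.exp (m + 1) * (‖h c‖ * R ^ m) := by
    have p2 := (h2 c (mem_ball_self hr)).1
    rw [a2, norm_mul] at p2
    have p3 := mul_le_mul_of_nonneg_right (pu c (mem_ball_self hR)) (norm_nonneg (h c))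
    rw [Real.exp_add]
    have : 0 ≤ Real.exp m * R ^ m * ‖h c‖ := by positivity
    nlinarith
  obtain ⟨H, H1, H2, H3⟩ := exists_log a1 hR fun z hz => a3 z (ball_subset_closedBall hz)
  have re : ∀ w ∈ ball c R, ∀ M : ℝ, ‖h w‖ * R ^ m ≤ Real.exp M → (H w).re ≤ M + (m + 1) := by
    intro w hw M hM
    rw [H3 w hw, norm_mul, norm_exp] at hM
    rw [← Real.exp_le_exp, Real.exp_add]
    have := Real.exp_pos (H w).re
    calc Real.exp (H w).re ≤ Real.exp (H w).re * (Real.exp (m + 1) * (‖h c‖ * R ^ m)) :=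
          le_mul_of_one_le_right this.le hl
      _ = (‖h c‖ * Real.exp (H w).re * R ^ m) * Real.exp (m + 1) := by ring
      _ ≤ _ := mul_le_mul_of_nonneg_right hM (by positivity)
  have B1 := bc hR (M := Λ + (m + 1)) (by positivity) H1 H2 fun w hw => re w hw Λ (by
    rw [← le_div_iff₀ (by positivity)]
    exact b1 w (ball_subset_closedBall (ball_subset_ball (by linarith) hw)))
  have B2 := bc (s := r / 2) (by positivity) (M := (m * (2 * Q) + 1) + (m + 1)) (by positivity)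
    (H1.mono (ball_subset_ball (by linarith))) H2 fun w hw =>
      re w (ball_subset_ball (by linarith) hw) _ (hu w hw)
  have T := two_const (c := c) (z := z) (R := R / 2) (r := r / 2 / 2) (Q := Q) (by positivity)
    (by linarith) hQ (by linarith) (by linarith) K H _ _
    (H1.mono (ball_subset_ball (by linarith))) B2 B1
  have hzR : z ∈ ball c R := mem_ball_iff_norm.mpr (by linarith)
  have fin : δ * Λ ≤ m + (m * (2 * Q) + 1) + ‖H z‖ := by
    rw [← Real.exp_le_exp]
    refine h3.trans ?_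
    rw [a2, H3 z hzR, norm_mul, norm_mul, norm_exp, Real.exp_add, Real.exp_add]
    calc ‖P z‖ * (‖h c‖ * Real.exp (H z).re)
        ≤ (Real.exp m * R ^ m) * (‖h c‖ * Real.exp ‖H z‖) := by
          gcongr
          · exact pu z hzR
          · exact re_le_norm _
      _ = Real.exp m * (‖h c‖ * R ^ m) * Real.exp ‖H z‖ := by ring
      _ ≤ _ := by
          gcongr
          exact hu c (mem_ball_self (by positivity))
  have t1 : 2 * (Λ + (m + 1)) / 2 ^ K ≤ δ * Λ / 2 + 2 * (m + 1) := by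
    have p : (1 : ℝ) ≤ 2 ^ K := one_le_pow₀ (by norm_num)
    rw [div_le_iff₀ hδ] at hK
    rw [div_le_iff₀ (by positivity)]
    have : (0 : ℝ) ≤ m + 1 := by positivity
    nlinarith
  have t2 : 2 * ((m * (2 * Q) + 1) + (m + 1)) * K * Q ^ K ≤
      (2 * (2 * Q + 2) * K * Q ^ K) * (m + 1) := by
    have : (m * (2 * Q) + 1) + (m + 1) ≤ (2 * Q + 2) * (m + 1) := by
      have : (0 : ℝ) ≤ m := by positivity
      nlinarith
    have p : (0 : ℝ) ≤ K * Q ^ K := by positivity
    nlinarith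
  have t3 : δ * Λ / 2 ≤ C * (m + 1) := by
    rw [hC]
    have : (0 : ℝ) ≤ m := by positivity
    nlinarith
  rw [a4, ← ENNReal.ofReal_natCast]
  refine ENNReal.ofReal_le_ofReal ?_
  rw [div_le_iff₀ hδ] at hΛ
  rw [div_mul_eq_mul_div, div_le_iff₀ (by positivity)]
  nlinarith

lemma cnt_mono (F : ℂ → ℂ) {S T : Set ℂ} (h : S ⊆ T) : cnt F S ≤ cnt F T :=
  ENNReal.tsum_mono_subtype (fun z => ((analyticOrderAt F z : ℕ∞) : ENNReal)) h

lemma cnt_union_le (F : ℂ → ℂ) (S T : Set ℂ) : cnt F (S ∪ T) ≤ cnt F S + cnt F T :=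
  ENNReal.tsum_union_le (fun z => ((analyticOrderAt F z : ℕ∞) : ENNReal)) S T

lemma cnt_union (F : ℂ → ℂ) {S T : Set ℂ} (h : Disjoint S T) :
    cnt F (S ∪ T) = cnt F S + cnt F T :=
  ENNReal.summable.tsum_union_disjoint (f := fun z => ((analyticOrderAt F z : ℕ∞) : ENNReal)) h
    ENNReal.summable

lemma cnt_biUnion (F : ℂ → ℂ) {ι : Type} (s : Finset ι) (t : ι → Set ℂ)
    (h : (s : Set ι).PairwiseDisjoint t) : ∑ i ∈ s, cnt F (t i) = cnt F (⋃ i ∈ s, t i) := by
  classical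
  induction s using Finset.induction_on with
  | empty => simp [cnt]
  | insert a s ha ih =>
    rw [Finset.sum_insert ha, ih (h.subset (by simp)), Finset.set_biUnion_insert, cnt_union]
    simp only [Set.disjoint_iUnion_right]
    exact fun i hi => h (by simp) (by simp [hi]) fun e => ha (e ▸ hi)

/-- Translation and multiplication by a zero-free function. -/
lemma cnt_shift {f E G : ℂ → ℂ} (hf : Differentiable ℂ f) (hE : Differentiable ℂ E)
    (hE0 : ∀ w, E w ≠ 0) (X : ℂ) (h : ∀ w, G w = f (X + w) * E w) (c : ℂ) (R : ℝ) :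
    cnt G (closedBall c R) = cnt f (closedBall (X + c) R) := by
  have o : ∀ w, analyticOrderAt G w = analyticOrderAt f (X + w) := by
    intro w
    have e : G = (f ∘ fun w => X + w) * E := funext h
    have d : Differentiable ℂ (f ∘ fun w => X + w) := hf.comp (by fun_prop)
    rw [e, analyticOrderAt_mul (d.analyticAt w) (hE.analyticAt w),
      (hE.analyticAt w).analyticOrderAt_eq_zero.mpr (hE0 w), add_zero,
      analyticOrderAt_comp_of_deriv_ne_zero (by fun_prop) (by simp)]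
  unfold cnt
  simp only [o]
  refine Equiv.tsum_eq ((Equiv.addLeft X).subtypeEquiv (p := (· ∈ closedBall c R))
    (q := (· ∈ closedBall (X + c) R)) fun w => by simp)
    fun z => ((analyticOrderAt f (z : ℂ) : ℕ∞) : ENNReal)

end Pool.Agent.H6.KK
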