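import Mathlib

namespace Pool.Agent.H6.KK

open Complex Metric Filter Topology Finset

lemma exp_log_one_add {v : ℂ} (hv : ‖v‖ ≤ 1 / 2) :
    ∃ E : ℂ, ‖E‖ ≤ ‖v‖ ^ 2 ∧ 1 + v = exp (v + E) := by
  refine ⟨log (1 + v) - v, (norm_log_one_add_sub_self_le (by linarith)).trans ?_, ?_⟩
  · have : (1 - ‖v‖)⁻¹ ≤ 2 := by
      rw [inv_le_comm₀ (by linarith) (by norm_num)]
      linarith
    nlinarith [sq_nonneg ‖v‖]
  · rw [add_sub_cancel, exp_log]
    intro h
    have : v = -1 := by linear_combination h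
    rw [this] at hv
    norm_num at hv

lemma tele {Y : ℝ} (hY : 0 < Y) (n : ℕ) : ∑ j ∈ range n, 1 / ((j : ℝ) + 1 + Y) ^ 2 ≤ 1 / Y := by
  have : ∑ j ∈ range n, 1 / ((j : ℝ) + 1 + Y) ^ 2 ≤ 1 / Y - 1 / (n + Y) := by
    induction n with
    | zero => simp
    | succ n ih =>
      rw [sum_range_succ]
      push_cast
      have : 1 / ((n : ℝ) + 1 + Y) ^ 2 ≤ 1 / (n + Y) - 1 / (n + 1 + Y) := by
        rw [div_sub_div _ _ (by positivity) (by positivity), div_le_div_iff₀ (by positivity)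
          (by positivity)]
        have : (0 : ℝ) ≤ n := by positivity
        nlinarith [mul_pos (by positivity : (0 : ℝ) < n + 1 + Y) (by positivity : (0 : ℝ) < n + 1 + Y)]
      linarith
  have h : 0 ≤ 1 / ((n : ℝ) + Y) := by positivity
  linarith

lemma harm {Y : ℝ} (hY : 0 < Y) (n : ℕ) :
    Real.log (n + 1 + Y) - Real.log (1 + Y) ≤ ∑ j ∈ range n, 1 / ((j : ℝ) + 1 + Y) ∧
    ∑ j ∈ range n, 1 / ((j : ℝ) + 1 + Y) ≤ Real.log (n + Y) - Real.log Y := by
  induction n with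
  | zero => simp
  | succ n ih =>
    rw [sum_range_succ]
    push_cast
    have h1 := Real.log_le_sub_one_of_pos
      (by positivity : (0 : ℝ) < (n + 1 + 1 + Y) / (n + 1 + Y))
    have h2 := Real.log_le_sub_one_of_pos (by positivity : (0 : ℝ) < (n + Y) / (n + 1 + Y))
    rw [Real.log_div (by positivity) (by positivity)] at h1 h2
    have e1 : ((n : ℝ) + 1 + 1 + Y) / (n + 1 + Y) - 1 = 1 / (n + 1 + Y) := by
      field_simp; ring
    have e2 : ((n : ℝ) + Y) / (n + 1 + Y) - 1 = -(1 / (n + 1 + Y)) := by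
      field_simp; ring
    constructor <;> linarith [ih.1, ih.2]

lemma norm_add_nat {a : ℂ} (h1 : 1 ≤ a.re) (j : ℕ) :
    ((j : ℝ) + 1 + |a.im|) ^ 2 ≤ 2 * ‖a + j‖ ^ 2 := by
  rw [Complex.sq_norm, normSq_apply]
  simp only [add_re, natCast_re, add_im, natCast_im, add_zero]
  have h2 : (0 : ℝ) ≤ j := by positivity
  have h3 := sq_abs a.im
  nlinarith [sq_nonneg ((j : ℝ) + 1 - |a.im|)]

lemma gamma_ratio {a : ℂ} (h1 : 1 ≤ a.re) (h2 : a.re ≤ 2) (hY : 1 ≤ |a.im|) :
    ∃ ψ : ℂ, ‖ψ - Real.log |a.im|‖ ≤ 7 ∧ ∀ u : ℂ, ‖u‖ ≤ |a.im| / 2 →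
      ∃ E : ℂ, ‖E‖ ≤ 2 * ‖u‖ ^ 2 / |a.im| ∧ Gamma (a + u) = Gamma a * exp (u * ψ + E) := by
  set Y := |a.im| with hYd
  have hY0 : 0 < Y := by linarith
  have nY : ∀ j : ℕ, Y ≤ ‖a + j‖ := fun j => by simpa using abs_im_le_norm (a + j)
  have nz : ∀ j : ℕ, a + j ≠ 0 := fun j h => by
    have := nY j
    rw [h, norm_zero] at this
    linarith
  let p : ℕ → ℂ := fun n => log n - ∑ j ∈ range (n + 1), 1 / (a + j)
  have hp : ∀ᶠ n : ℕ in atTop, p n ∈ closedBall (Real.log Y : ℂ) 7 := by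
    filter_upwards [tendsto_natCast_atTop_atTop.eventually_ge_atTop (1 + Y)] with n hn
    rw [mem_closedBall_iff_norm]
    have e : p n - Real.log Y = ((Real.log n - ∑ j ∈ range (n + 1), 1 / ((j : ℝ) + 1 + Y) -
        Real.log Y : ℝ) : ℂ) - ∑ j ∈ range (n + 1), (1 / (a + j) - 1 / ((j : ℂ) + 1 + Y)) := by
      simp only [p, sum_sub_distrib]
      push_cast
      ring
    rw [e]
    refine (norm_sub_le _ _).trans ?_
    have b1 : ‖((Real.log n - ∑ j ∈ range (n + 1), 1 / ((j : ℝ) + 1 + Y) -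
        Real.log Y : ℝ) : ℂ)‖ ≤ 1 := by
      rw [norm_real, Real.norm_eq_abs, abs_le]
      obtain ⟨c1, c2⟩ := harm hY0 (n + 1)
      push_cast at c1 c2
      have l2 : Real.log 2 ≤ 1 := by linarith [Real.log_two_lt_d9]
      have d1 : Real.log (n + 1 + Y) ≤ Real.log 2 + Real.log n := by
        rw [← Real.log_mul (by norm_num) (by linarith)]
        exact Real.log_le_log (by linarith) (by linarith)
      have d2 : Real.log (1 + Y) ≤ Real.log 2 + Real.log Y := by
        rw [← Real.log_mul (by norm_num) (by linarith)]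
        exact Real.log_le_log (by linarith) (by linarith)
      have d3 : Real.log n ≤ Real.log (n + 1 + 1 + Y) :=
        Real.log_le_log (by linarith) (by linarith)
      constructor <;> linarith
    have b2 : ‖∑ j ∈ range (n + 1), (1 / (a + j) - 1 / ((j : ℂ) + 1 + Y))‖ ≤ 6 := by
      refine (norm_sum_le_of_le _ (n := fun j : ℕ => 6 * Y * (1 / ((j : ℝ) + 1 + Y) ^ 2))
        fun j _ => ?_).trans ?_
      · have q : (0 : ℝ) < j + 1 + Y := by positivity
        have e2 : ((j : ℂ) + 1 + Y) = ((j + 1 + Y : ℝ) : ℂ) := by push_cast; ring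
        have q' : ((j : ℂ) + 1 + Y) ≠ 0 := by rw [e2]; exact_mod_cast q.ne'
        have e3 : 1 / (a + j) - 1 / ((j : ℂ) + 1 + Y) =
            (1 + Y - a) / ((a + j) * ((j : ℂ) + 1 + Y)) := by
          have := nz j
          field_simp
          ring
        have n1 : ‖1 + Y - a‖ ≤ 3 * Y := by
          refine (norm_le_abs_re_add_abs_im _).trans ?_
          simp only [sub_re, add_re, one_re, ofReal_re, sub_im, add_im, one_im, ofReal_im,
            add_zero, zero_sub, abs_neg]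
          have : |1 + Y - a.re| ≤ 2 * Y := abs_le.mpr ⟨by linarith, by linarith⟩
          linarith
        have n2 : (j : ℝ) + 1 + Y ≤ 2 * ‖a + j‖ := by
          have := norm_add_nat h1 j
          nlinarith [norm_nonneg (a + j), abs_le_of_sq_le_sq' (a := (j : ℝ) + 1 + Y)
            (b := 2 * ‖a + j‖) (by nlinarith [sq_nonneg ‖a + j‖]) (by positivity)]
        rw [e3, norm_div, norm_mul, e2, norm_real, Real.norm_eq_abs, abs_of_pos q,
          mul_one_div, div_le_div_iff₀ (mul_pos (hY0.trans_le (nY j)) q) (by positivity)]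
        have := mul_le_mul_of_nonneg_right n1 (sq_nonneg ((j : ℝ) + 1 + Y))
        have := mul_le_mul_of_nonneg_left n2 (by positivity : 0 ≤ 3 * Y * ((j : ℝ) + 1 + Y))
        nlinarith
      · rw [← mul_sum]
        refine (mul_le_mul_of_nonneg_left (tele hY0 _) (by positivity)).trans (le_of_eq ?_)
        field_simp
    linarith
  obtain ⟨ψ, hψ, φ, hφ, hlim⟩ := (isCompact_closedBall _ _).tendsto_subseq' hp.frequently
  refine ⟨ψ, mem_closedBall_iff_norm.mp hψ, fun u hu => ?_⟩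
  have hv : ∀ j : ℕ, ‖u / (a + j)‖ ≤ 1 / 2 := fun j => by
    rw [norm_div, div_le_iff₀ (hY0.trans_le (nY j))]
    linarith [nY j]
  choose E hE1 hE2 using fun j => exp_log_one_add (hv j)
  let K : Set ℂ := (fun E => Gamma a * exp (u * ψ + E)) '' closedBall 0 (2 * ‖u‖ ^ 2 / Y)
  have hG : Gamma a ≠ 0 := Gamma_ne_zero_of_re_pos (by linarith)
  have hK : IsClosed K := ((isCompact_closedBall _ _).image (by fun_prop)).isClosed
  have lim : Tendsto (fun n => GammaSeq (a + u) (φ n) / GammaSeq a (φ n) *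
      exp (u * (ψ - p (φ n))) * Gamma a) atTop
      (𝓝 (Gamma (a + u) / Gamma a * exp (u * (ψ - ψ)) * Gamma a)) := by
    refine Tendsto.mul_const _ (Tendsto.mul (Tendsto.div ?_ ?_ hG) ?_)
    · exact (GammaSeq_tendsto_Gamma _).comp hφ.tendsto_atTop
    · exact (GammaSeq_tendsto_Gamma _).comp hφ.tendsto_atTop
    · exact ((tendsto_const_nhds.sub hlim).const_mul u).cexp
  rw [sub_self, mul_zero, exp_zero, mul_one, div_mul_cancel₀ _ hG] at lim
  have mem : ∀ᶠ n in atTop, GammaSeq (a + u) (φ n) / GammaSeq a (φ n) *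
      exp (u * (ψ - p (φ n))) * Gamma a ∈ K := by
    filter_upwards [hφ.tendsto_atTop.eventually_ge_atTop 1] with n hn
    generalize φ n = N at hn
    refine ⟨-∑ j ∈ range (N + 1), E j, ?_, ?_⟩
    · rw [mem_closedBall_zero_iff, norm_neg]
      refine (norm_sum_le_of_le _ (n := fun j : ℕ => 2 * ‖u‖ ^ 2 * (1 / ((j : ℝ) + 1 + Y) ^ 2))
        fun j _ => (hE1 j).trans ?_).trans ?_
      · rw [norm_div, div_pow, mul_one_div, div_le_div_iff₀
          (pow_pos (hY0.trans_le (nY j)) 2) (by positivity)]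
        nlinarith [norm_add_nat h1 j, sq_nonneg ‖u‖]
      · rw [← mul_sum, div_eq_mul_one_div _ Y]
        exact mul_le_mul_of_nonneg_left (tele hY0 _) (by positivity)
    · have N0 : (N : ℂ) ≠ 0 := by exact_mod_cast (by omega : N ≠ 0)
      have pr : ∏ j ∈ range (N + 1), (a + u + j) = (∏ j ∈ range (N + 1), (a + j)) *
          exp (u * ∑ j ∈ range (N + 1), 1 / (a + j) + ∑ j ∈ range (N + 1), E j) := by
        rw [mul_sum, ← sum_add_distrib, exp_sum, ← prod_mul_distrib]
        refine prod_congr rfl fun j _ => ?_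
        rw [mul_one_div, ← hE2 j]
        have := nz j
        field_simp
        ring
      have p0 : ∏ j ∈ range (N + 1), (a + j) ≠ 0 := prod_ne_zero_iff.mpr fun j _ => nz j
      have f0 : ((N.factorial : ℕ) : ℂ) ≠ 0 := by exact_mod_cast N.factorial_ne_zero
      simp only [GammaSeq, pr, cpow_def_of_ne_zero N0, p]
      generalize ∑ j ∈ range (N + 1), 1 / (a + j) = S
      generalize ∑ j ∈ range (N + 1), E j = T
      have e : exp (u * ψ + -T) = exp (log N * (a + u)) / exp (u * S + T) / exp (log N * a) *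
          exp (u * (ψ - (log N - S))) := by
        rw [← exp_sub, ← exp_sub, ← exp_add]
        congr 1
        ring
      rw [e]
      field_simp
  obtain ⟨E, hE, he⟩ := hK.mem_of_tendsto lim mem
  exact ⟨E, mem_closedBall_zero_iff.mp hE, he.symm⟩

/-- The factor `(s - 1) π ^ (-s / 2) Γ (s / 2 + 1)` at `s = 1 / 2 + i z`. -/
noncomputable def g0 (z : ℂ) : ℂ :=
  (I * z - 1 / 2) * exp (-(Real.log Real.pi) * (1 / 4 + I * z / 2)) * Gamma (5 / 4 + I * z / 2)

lemma log_pi : 0 ≤ Real.log Real.pi ∧ Real.log Real.pi ≤ 2 := by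
  refine ⟨Real.log_nonneg (by linarith [Real.pi_gt_three]), ?_⟩
  have h1 : Real.log Real.pi ≤ Real.log (2 * 2) :=
    Real.log_le_log Real.pi_pos (by linarith [Real.pi_lt_four])
  rw [Real.log_mul (by norm_num) (by norm_num)] at h1
  linarith [Real.log_two_lt_d9]

lemma g0_ratio {X : ℝ} (hX : 8 ≤ |X|) : ∃ b : ℂ, ‖b - I * (Real.log |X| / 2 : ℝ)‖ ≤ 6 ∧
    ∀ w : ℂ, ‖w‖ ≤ |X| / 2 →
      ∃ E : ℂ, ‖E‖ ≤ 2 * ‖w‖ ^ 2 / |X| ∧ g0 (X + w) = g0 X * exp (b * w + E) := by
  have hi : |(5 / 4 + I * X / 2 : ℂ).im| = |X| / 2 := by simp [abs_div]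
  obtain ⟨ψ, h1, h2⟩ := gamma_ratio (a := 5 / 4 + I * X / 2) (by simp; norm_num)
    (by simp; norm_num) (by rw [hi]; linarith)
  rw [hi] at h1 h2
  have n1 : |X| ≤ ‖I * X - 1 / 2‖ := by simpa using abs_im_le_norm (I * X - 1 / 2)
  have n0 : I * X - 1 / 2 ≠ 0 := fun h => by
    rw [h, norm_zero] at n1
    linarith
  refine ⟨I / (I * X - 1 / 2) - I * Real.log Real.pi / 2 + I * ψ / 2, ?_, fun w hw => ?_⟩
  · have e : I / (I * X - 1 / 2) - I * Real.log Real.pi / 2 + I * ψ / 2 -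
        I * (Real.log |X| / 2 : ℝ) = I / (I * X - 1 / 2) +
        I * ((-(Real.log Real.pi + Real.log 2) / 2 : ℝ) + (ψ - Real.log (|X| / 2)) / 2) := by
      rw [Real.log_div (by linarith) (by norm_num)]
      push_cast
      ring
    rw [e]
    refine (norm_add_le _ _).trans ?_
    have b1 : ‖I / (I * X - 1 / 2)‖ ≤ 1 := by
      rw [norm_div, norm_I, div_le_one (by linarith)]
      linarith
    have b2 : ‖((-(Real.log Real.pi + Real.log 2) / 2 : ℝ) : ℂ)‖ ≤ 3 / 2 := by
      rw [norm_real, Real.norm_eq_abs, abs_le]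
      constructor <;> linarith [log_pi.1, log_pi.2, Real.log_two_lt_d9, Real.log_two_gt_d9]
    rw [norm_mul, norm_I, one_mul]
    have b3 := norm_add_le ((-(Real.log Real.pi + Real.log 2) / 2 : ℝ) : ℂ)
      ((ψ - Real.log (|X| / 2)) / 2)
    rw [norm_div, Complex.norm_ofNat] at b3
    linarith
  · obtain ⟨E, e1, e2⟩ := h2 (I * w / 2) (by
      rw [norm_div, norm_mul, norm_I, Complex.norm_ofNat]; linarith)
    have hv : ‖I * w / (I * X - 1 / 2)‖ ≤ ‖w‖ / |X| := by
      rw [norm_div, norm_mul, norm_I, one_mul]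
      exact div_le_div_of_nonneg_left (norm_nonneg _) (by linarith) n1
    have hv' : ‖w‖ / |X| ≤ 1 / 2 := by rw [div_le_iff₀ (by linarith)]; linarith
    obtain ⟨E', f1, f2⟩ := exp_log_one_add (hv.trans hv')
    refine ⟨E + E', (norm_add_le _ _).trans ?_, ?_⟩
    · rw [norm_div, norm_mul, norm_I, Complex.norm_ofNat] at e1
      have a1 : 2 * (1 * ‖w‖ / 2) ^ 2 / (|X| / 2) = ‖w‖ ^ 2 / |X| := by field_simp
      have a2 : ‖E'‖ ≤ ‖w‖ ^ 2 / |X| := by
        refine f1.trans ((pow_le_pow_left₀ (norm_nonneg _) hv 2).trans ?_)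
        rw [div_pow]
        exact div_le_div_of_nonneg_left (by positivity) (by linarith) (by nlinarith)
      rw [a1] at e1
      rw [mul_div_assoc]
      linarith
    · have l : I * (X + w) - 1 / 2 = (I * X - 1 / 2) * (1 + I * w / (I * X - 1 / 2)) := by
        rw [mul_add (I * X - 1 / 2), mul_div_cancel₀ _ n0]
        ring
      unfold g0
      rw [show 5 / 4 + I * (X + w) / 2 = 5 / 4 + I * X / 2 + I * w / 2 by ring, e2, l, f2]
      generalize Gamma (5 / 4 + I * X / 2) = Γ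
      have e : exp (I * w / (I * X - 1 / 2) + E') *
          exp (-(Real.log Real.pi) * (1 / 4 + I * (X + w) / 2)) * exp (I * w / 2 * ψ + E) =
          exp (-(Real.log Real.pi) * (1 / 4 + I * X / 2)) *
          exp ((I / (I * X - 1 / 2) - I * Real.log Real.pi / 2 + I * ψ / 2) * w + (E + E')) := by
        simp only [← exp_add]
        congr 1
        ring
      linear_combination (I * X - 1 / 2) * Γ * e

lemma norm_Gamma_le {s : ℂ} (hs : 0 < s.re) : ‖Gamma s‖ ≤ Real.Gamma s.re := by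
  rw [Gamma_eq_integral hs, Real.Gamma_eq_integral hs, GammaIntegral]
  refine (MeasureTheory.norm_integral_le_integral_norm _).trans (le_of_eq ?_)
  refine MeasureTheory.setIntegral_congr_fun measurableSet_Ioi fun x hx => ?_
  simp only [norm_mul, norm_real, Real.norm_eq_abs, Real.abs_exp,
    norm_cpow_eq_rpow_re_of_pos hx, sub_re, one_re]

lemma norm_sin_le (z : ℂ) : ‖sin z‖ ≤ Real.exp |z.im| := by
  rw [Complex.sin, norm_div, norm_mul, norm_I, mul_one, Complex.norm_ofNat]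
  have h := norm_sub_le (exp (-z * I)) (exp (z * I))
  rw [norm_exp, norm_exp] at h
  have a : Real.exp (-z * I).re ≤ Real.exp |z.im| := Real.exp_le_exp.mpr (by simpa using le_abs_self _)
  have b : Real.exp (z * I).re ≤ Real.exp |z.im| := Real.exp_le_exp.mpr (by simpa using neg_le_abs _)
  linarith

lemma g0_lower : ∃ c : ℝ, 0 < c ∧ ∀ X : ℝ, 8 ≤ |X| → c * Real.exp (-2 * |X|) ≤ ‖g0 X‖ := by
  have hΓ : 0 < Real.Gamma (3 / 4) := Real.Gamma_pos_of_pos (by norm_num)
  refine ⟨Real.exp (-1) / Real.Gamma (3 / 4), by positivity, fun X hX => ?_⟩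
  have n1 : |X| ≤ ‖I * X - 1 / 2‖ := by simpa using abs_im_le_norm (I * X - 1 / 2)
  have n2 : |X| / 2 ≤ ‖(1 / 4 + I * X / 2 : ℂ)‖ := by
    simpa [abs_div] using abs_im_le_norm (1 / 4 + I * X / 2)
  have n3 : (1 / 4 + I * X / 2 : ℂ) ≠ 0 := fun h => by
    rw [h, norm_zero] at n2
    linarith
  have n4 : Real.exp (-1) ≤ ‖exp (-(Real.log Real.pi) * (1 / 4 + I * X / 2))‖ := by
    rw [norm_exp, Real.exp_le_exp]
    have : (-(Real.log Real.pi : ℂ) * (1 / 4 + I * X / 2)).re = -(Real.log Real.pi) / 4 := by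
      simp only [neg_mul, neg_re, re_ofReal_mul]
      simp
      ring
    rw [this]
    linarith [log_pi.2]
  have r := Gamma_mul_Gamma_one_sub (1 / 4 + I * X / 2)
  have n5 := norm_Gamma_le (s := 1 - (1 / 4 + I * X / 2)) (by simp; norm_num)
  rw [show (1 - (1 / 4 + I * X / 2 : ℂ)).re = 3 / 4 by simp; norm_num] at n5
  have n6 : ‖sin (Real.pi * (1 / 4 + I * X / 2))‖ ≤ Real.exp (2 * |X|) := by
    refine (norm_sin_le _).trans (Real.exp_le_exp.mpr ?_)
    have : (Real.pi * (1 / 4 + I * X / 2 : ℂ)).im = Real.pi * (X / 2) := by simp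
    rw [this, abs_mul, abs_of_pos Real.pi_pos, abs_div, abs_two]
    nlinarith [Real.pi_lt_four, abs_nonneg X]
  have s0 : sin (Real.pi * (1 / 4 + I * X / 2)) ≠ 0 := fun h => by
    rw [h, div_zero] at r
    exact mul_ne_zero (Gamma_ne_zero_of_re_pos (by simp))
      (Gamma_ne_zero_of_re_pos (by simp; norm_num)) r
  have r2 := congrArg norm r
  rw [norm_mul, norm_div, norm_real, Real.norm_eq_abs, abs_of_pos Real.pi_pos,
    eq_div_iff (norm_ne_zero_iff.mpr s0)] at r2
  have n7 : Real.exp (-2 * |X|) / Real.Gamma (3 / 4) ≤ ‖Gamma (1 / 4 + I * X / 2)‖ := by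
    rw [div_le_iff₀ hΓ, neg_mul, Real.exp_neg, inv_le_iff_one_le_mul₀ (by positivity)]
    calc (1 : ℝ) ≤ Real.pi := by linarith [Real.pi_gt_three]
      _ = _ := r2.symm
      _ ≤ _ := by gcongr
  unfold g0
  rw [show (5 / 4 + I * X / 2 : ℂ) = 1 / 4 + I * X / 2 + 1 by ring, Gamma_add_one _ n3,
    norm_mul, norm_mul, norm_mul]
  calc _ = 1 * Real.exp (-1) * (1 * (Real.exp (-2 * |X|) / Real.Gamma (3 / 4))) := by ring
    _ ≤ _ := by gcongr <;> linarith

lemma g0_diff {z : ℂ} (hz : z.re ≠ 0) : DifferentiableAt ℂ g0 z := by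
  unfold g0
  refine DifferentiableAt.mul (by fun_prop) ?_
  refine (differentiableAt_Gamma _ fun m h => hz ?_).comp z
    (f := fun z => 5 / 4 + I * z / 2) (by fun_prop)
  have := congrArg im h
  simpa using this

end Pool.Agent.H6.KK
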