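import Mathlib
import Pool.Agent.H6.KK2

namespace Pool.Agent.H6.KK

open Complex Metric Filter Topology MeasureTheory

noncomputable def phi1 (u : ℝ) : ℝ :=
  2 * ((2 * Real.pi ^ 2 * Real.exp (9 * u / 2) - 3 * Real.pi * Real.exp (5 * u / 2)) *
    Real.exp (-Real.pi * Real.exp (2 * u)))

noncomputable def Phi (t : ℝ) : ℝ :=
  2 * ∑' n : ℕ, (2 * Real.pi ^ 2 * ((n : ℝ) + 1) ^ 4 * Real.exp (9 * t / 2) -
    3 * Real.pi * ((n : ℝ) + 1) ^ 2 * Real.exp (5 * t / 2)) *
      Real.exp (-Real.pi * ((n : ℝ) + 1) ^ 2 * Real.exp (2 * t))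

noncomputable def Xi (lam : ℝ) (z : ℂ) : ℂ :=
  ∫ t : ℝ, (Phi t : ℂ) * (Real.exp (lam * t ^ 2) : ℂ) * exp (I * z * t)

noncomputable def gl (z : ℂ) : ℂ := ∫ u : ℝ, (phi1 u : ℂ) * exp (-(u : ℂ) ^ 2 / 4 + I * z * u)

lemma phi1_cont : Continuous phi1 := by unfold phi1; fun_prop

lemma phi1_le (u : ℝ) : |phi1 u| ≤ 60 * Real.exp (-6 * max u 0 ^ 2) := by
  have p1 := Real.pi_gt_three
  have p2 := Real.pi_lt_d2
  have key : ∀ c : ℝ, 0 ≤ c → c ≤ 6 → Real.exp (c * u) * Real.exp (-Real.pi * Real.exp (2 * u)) ≤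
      Real.exp (-6 * max u 0 ^ 2) := by
    intro c c0 c1
    rw [← Real.exp_add, Real.exp_le_exp]
    rcases le_total u 0 with h | h
    · rw [max_eq_right h]
      nlinarith [Real.exp_pos (2 * u), mul_nonneg c0 (neg_nonneg.mpr h)]
    · rw [max_eq_left h]
      have := Real.quadratic_le_exp_of_nonneg (x := 2 * u) (by linarith)
      nlinarith [Real.exp_pos (2 * u), mul_nonneg (sub_nonneg.mpr c1) h]
  have k1 := key (9 / 2) (by norm_num) (by norm_num)
  have k2 := key (5 / 2) (by norm_num) (by norm_num)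
  have e : phi1 u = 4 * Real.pi ^ 2 * (Real.exp (9 / 2 * u) * Real.exp (-Real.pi * Real.exp (2 * u)))
      - 6 * Real.pi * (Real.exp (5 / 2 * u) * Real.exp (-Real.pi * Real.exp (2 * u))) := by
    unfold phi1
    ring_nf
  have a1 : 0 ≤ Real.exp (9 / 2 * u) * Real.exp (-Real.pi * Real.exp (2 * u)) := by positivity
  have a2 : 0 ≤ Real.exp (5 / 2 * u) * Real.exp (-Real.pi * Real.exp (2 * u)) := by positivity
  have q : Real.pi ^ 2 ≤ 10 := by nlinarith
  have q0 : 0 ≤ Real.pi ^ 2 := by positivity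
  rw [e, abs_le]
  constructor <;> nlinarith

lemma gauss_int {b : ℝ} (hb : 1 / 8 ≤ b) : ∫ u : ℝ, Real.exp (-b * u ^ 2) ≤ 6 := by
  rw [integral_gaussian, Real.sqrt_le_left (by norm_num), div_le_iff₀ (by linarith)]
  nlinarith [Real.pi_lt_four]

lemma gl_pt (z : ℂ) (u : ℝ) : ‖(phi1 u : ℂ) * exp (-(u : ℂ) ^ 2 / 4 + I * z * u)‖ ≤
    60 * Real.exp (z.im ^ 2 / 24 + 2 * max z.im 0 ^ 2) * Real.exp (-(1 / 8) * u ^ 2) := by
  rw [norm_mul, norm_real, Real.norm_eq_abs, norm_exp]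
  have e : (-(u : ℂ) ^ 2 / 4 + I * z * u).re = -u ^ 2 / 4 - z.im * u := by
    simp [pow_two]
    ring
  rw [e]
  refine (mul_le_mul_of_nonneg_right (phi1_le u) (by positivity)).trans ?_
  rw [mul_assoc, mul_assoc, ← Real.exp_add, ← Real.exp_add]
  refine mul_le_mul_of_nonneg_left (Real.exp_le_exp.mpr ?_) (by norm_num)
  rcases le_total u 0 with h | h
  · rw [max_eq_right h]
    nlinarith [sq_nonneg (u + 4 * max z.im 0), sq_nonneg z.im,
      mul_nonneg (sub_nonneg.mpr (le_max_left z.im 0)) (neg_nonneg.mpr h)]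
  · rw [max_eq_left h]
    nlinarith [sq_nonneg (12 * u + z.im), sq_nonneg (max z.im 0), sq_nonneg u]

lemma gl_integrable (z : ℂ) :
    Integrable fun u : ℝ => (phi1 u : ℂ) * exp (-(u : ℂ) ^ 2 / 4 + I * z * u) := by
  have := phi1_cont
  exact ((integrable_exp_neg_mul_sq (b := 1 / 8) (by norm_num)).const_mul _).mono'
    (by fun_prop : Continuous _).aestronglyMeasurable (ae_of_all _ (gl_pt z))

lemma gl_abs (z : ℂ) : ∫ u : ℝ, ‖(phi1 u : ℂ) * exp (-(u : ℂ) ^ 2 / 4 + I * z * u)‖ ≤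
    360 * Real.exp (z.im ^ 2 / 24 + 2 * max z.im 0 ^ 2) := by
  refine (integral_mono (gl_integrable z).norm
    ((integrable_exp_neg_mul_sq (b := 1 / 8) (by norm_num)).const_mul _) (gl_pt z)).trans ?_
  rw [integral_const_mul]
  nlinarith [gauss_int (b := 1 / 8) le_rfl, Real.exp_pos (z.im ^ 2 / 24 + 2 * max z.im 0 ^ 2)]

lemma gl_diff : Differentiable ℂ gl := by
  intro z
  have := phi1_cont
  refine (hasDerivAt_integral_of_dominated_loc_of_deriv_le (s := ball z 1)
    (F := fun (w : ℂ) (u : ℝ) => (phi1 u : ℂ) * exp (-(u : ℂ) ^ 2 / 4 + I * w * u))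
    (F' := fun (w : ℂ) (u : ℝ) => (phi1 u : ℂ) * (exp (-(u : ℂ) ^ 2 / 4 + I * w * u) * (I * u)))
    (bound := fun u => 60 * Real.exp (2 * (‖z‖ + 2) ^ 2) * Real.exp (-(1 / 8) * u ^ 2))
    (ball_mem_nhds z one_pos) (Eventually.of_forall fun w => (gl_integrable w).1)
    (gl_integrable z) (by fun_prop : Continuous _).aestronglyMeasurable
    (ae_of_all _ fun u w hw => ?_)
    ((integrable_exp_neg_mul_sq (b := 1 / 8) (by norm_num)).const_mul _)
    (ae_of_all _ fun u w _ => ?_)).2.differentiableAt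
  · have e : (-(u : ℂ) ^ 2 / 4 + I * w * u).re = -u ^ 2 / 4 - w.im * u := by
      simp [pow_two]
      ring
    rw [norm_mul, norm_mul, norm_mul, norm_real, norm_real, norm_I, one_mul, norm_exp, e,
      Real.norm_eq_abs, Real.norm_eq_abs]
    have h1 : |phi1 u| ≤ 60 := (phi1_le u).trans (by
      have : Real.exp (-6 * max u 0 ^ 2) ≤ 1 := Real.exp_le_one_iff.mpr (by nlinarith [sq_nonneg (max u 0)])
      linarith)
    have h2 : |u| ≤ Real.exp |u| := by linarith [Real.add_one_le_exp |u|]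
    have h3 : |w.im| ≤ ‖z‖ + 1 := by
      have := norm_sub_norm_le w z
      rw [mem_ball_iff_norm] at hw
      linarith [abs_im_le_norm w]
    have h4 : -(w.im * u) ≤ (‖z‖ + 1) * |u| := (neg_le_abs _).trans (by
      rw [abs_mul]
      exact mul_le_mul_of_nonneg_right h3 (abs_nonneg _))
    rw [mul_assoc 60, ← Real.exp_add]
    refine mul_le_mul h1 ((mul_le_mul_of_nonneg_left h2 (by positivity)).trans ?_) (by positivity)
      (by norm_num)
    rw [← Real.exp_add, Real.exp_le_exp]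
    nlinarith [sq_nonneg (|u| - 4 * (‖z‖ + 2)), sq_abs u]
  · refine HasDerivAt.const_mul _ (HasDerivAt.cexp ?_)
    simpa using (((hasDerivAt_id w).const_mul I).mul_const (u : ℂ)).const_add (-(u : ℂ) ^ 2 / 4)

lemma piece {a : ℂ} (ha : 0 < a.re) :
    ∫ u : ℝ, 2 * exp (2 * a * u - Real.pi * Real.exp (2 * u)) =
      exp (-(Real.log Real.pi) * a) * Gamma a := by
  have h1 := integral_cpow_mul_exp_neg_mul_Ioi ha Real.pi_pos
  have h2 := integral_image_eq_integral_abs_deriv_smul (s := Set.univ)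
    (f := fun u : ℝ => Real.exp (2 * u)) (f' := fun u => Real.exp (2 * u) * 2) MeasurableSet.univ
    (fun u _ => by simpa using ((hasDerivAt_id u).const_mul 2).exp)
    (fun x _ y _ h => by simpa using h)
    (fun t : ℝ => (t : ℂ) ^ (a - 1) * exp (-(Real.pi * t)))
  have h3 : (fun u : ℝ => Real.exp (2 * u)) '' Set.univ = Set.Ioi 0 := by
    ext t
    constructor
    · rintro ⟨u, -, rfl⟩
      exact Real.exp_pos _
    · intro ht
      exact ⟨Real.log t / 2, trivial, by simp only; rw [mul_div_cancel₀ _ two_ne_zero, Real.exp_log ht]⟩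
  rw [h3, h1, Measure.restrict_univ] at h2
  have h4 : (1 / (Real.pi : ℂ)) ^ a = exp (-(Real.log Real.pi) * a) := by
    have : (1 / (Real.pi : ℂ)) = ((Real.pi⁻¹ : ℝ) : ℂ) := by simp
    rw [this, cpow_def_of_ne_zero (by simp), ← ofReal_log (by positivity), Real.log_inv]
    simp
  rw [← h4, h2]
  refine integral_congr_ae (ae_of_all _ fun u => ?_)
  simp only
  rw [abs_of_pos (by positivity), real_smul, cpow_def_of_ne_zero (by simp),
    ← ofReal_log (by positivity), Real.log_exp, ofReal_mul, ofReal_exp, mul_comm _ ((2 : ℝ) : ℂ),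
    ← exp_add, mul_assoc ((2 : ℝ) : ℂ), ← exp_add]
  congr 2
  push_cast
  ring

lemma piece_int {a : ℂ} (ha : 0 < a.re) :
    Integrable fun u : ℝ => 2 * exp (2 * a * u - Real.pi * Real.exp (2 * u)) :=
  .of_integral_ne_zero (by
    rw [piece ha]
    exact mul_ne_zero (exp_ne_zero _) (Gamma_ne_zero_of_re_pos ha))

lemma phi1_split (r u : ℝ) : (phi1 u : ℂ) * exp (I * r * u) =
    2 * Real.pi ^ 2 * (2 * exp (2 * (5 / 4 + I * r / 2 + 1) * u - Real.pi * Real.exp (2 * u))) -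
    3 * Real.pi * (2 * exp (2 * (5 / 4 + I * r / 2) * u - Real.pi * Real.exp (2 * u))) := by
  have e1 : exp (2 * (5 / 4 + I * r / 2 + 1) * u - Real.pi * Real.exp (2 * u)) =
      exp (9 * u / 2) * exp (-Real.pi * exp (2 * u)) * exp (I * r * u) := by
    rw [← exp_add, ← exp_add]
    congr 1
    push_cast
    ring
  have e2 : exp (2 * (5 / 4 + I * r / 2) * u - Real.pi * Real.exp (2 * u)) =
      exp (5 * u / 2) * exp (-Real.pi * exp (2 * u)) * exp (I * r * u) := by
    rw [← exp_add, ← exp_add]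
    congr 1
    push_cast
    ring
  rw [e1, e2]
  unfold phi1
  push_cast
  ring

lemma phi1_int : Integrable fun u : ℝ => (phi1 u : ℂ) := by
  have := ((piece_int (a := 5 / 4 + I * (0 : ℝ) / 2 + 1) (by simp; norm_num)).const_mul
    (2 * (Real.pi : ℂ) ^ 2)).sub
    ((piece_int (a := 5 / 4 + I * (0 : ℝ) / 2) (by simp)).const_mul (3 * (Real.pi : ℂ)))
  refine this.congr (ae_of_all _ fun u => ?_)
  have := phi1_split 0 u
  simp only [Pi.sub_apply]
  rw [← this]
  simp

lemma g0_eq (r : ℝ) : ∫ u : ℝ, (phi1 u : ℂ) * exp (I * r * u) = g0 r := by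
  have h1 : 0 < (5 / 4 + I * r / 2 : ℂ).re := by simp
  have h2 : 0 < (5 / 4 + I * r / 2 + 1 : ℂ).re := by simp; norm_num
  simp only [phi1_split]
  rw [integral_sub ((piece_int h2).const_mul _) ((piece_int h1).const_mul _),
    integral_const_mul (2 * _), integral_const_mul (3 * _), piece h1, piece h2, Gamma_add_one _ (fun h => by simp [h] at h1)]
  unfold g0
  have p : exp (Real.log Real.pi : ℂ) = Real.pi := by
    rw [← ofReal_exp, Real.exp_log Real.pi_pos]
  have e1 : exp (-(Real.log Real.pi : ℂ) * (1 / 4 + I * r / 2)) =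
      Real.pi * exp (-(Real.log Real.pi : ℂ) * (5 / 4 + I * r / 2)) := by
    rw [← p, ← exp_add]
    congr 1
    ring
  have e2 : exp (-(Real.log Real.pi : ℂ) * (5 / 4 + I * r / 2)) =
      Real.pi * exp (-(Real.log Real.pi : ℂ) * (5 / 4 + I * r / 2 + 1)) := by
    rw [← p, ← exp_add]
    congr 1
    ring
  rw [e1, e2]
  ring

lemma g0_bdd : ∃ C : ℝ, 0 < C ∧ ∀ r : ℝ, ‖g0 r‖ ≤ C := by
  refine ⟨(∫ u : ℝ, ‖(phi1 u : ℂ)‖) + 1, by positivity, fun r => ?_⟩
  rw [← g0_eq]
  refine (norm_integral_le_integral_norm _).trans ?_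
  have : ∀ u : ℝ, ‖(phi1 u : ℂ) * exp (I * r * u)‖ = ‖(phi1 u : ℂ)‖ := fun u => by
    rw [norm_mul, norm_exp]
    simp
  simp only [this]
  linarith

lemma g0_cont : Continuous fun r : ℝ => g0 r := by
  unfold g0
  refine Continuous.mul (by fun_prop) (continuous_iff_continuousAt.mpr fun r => ?_)
  refine (differentiableAt_Gamma _ fun m h => ?_).continuousAt.comp
    (f := fun r : ℝ => (5 / 4 + I * r / 2 : ℂ)) (by fun_prop)
  have := congrArg re h
  simp at this
  linarith [Nat.cast_nonneg (α := ℝ) m]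

lemma gl_conv (z : ℂ) :
    ∫ r : ℝ, g0 r * exp (-(r - z) ^ 2) = (Real.sqrt Real.pi : ℂ) * gl z := by
  have hG : Integrable fun r : ℝ => exp (-((r : ℂ) - z) ^ 2) := by
    refine (integrable_cexp_quadratic' (b := -1) (by simp) (2 * z) (-z ^ 2)).congr
      (ae_of_all _ fun r => ?_)
    simp only
    congr 1
    ring
  have hI : Integrable (Function.uncurry fun (r u : ℝ) =>
      (phi1 u : ℂ) * exp (I * r * u) * exp (-((r : ℂ) - z) ^ 2)) (volume.prod volume) := by
    have := phi1_cont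
    refine (hG.mul_prod phi1_int).mono ?_ (ae_of_all _ fun p => le_of_eq ?_)
    · exact (by fun_prop : Continuous fun p : ℝ × ℝ =>
        (phi1 p.2 : ℂ) * exp (I * p.1 * p.2) * exp (-((p.1 : ℂ) - z) ^ 2)).aestronglyMeasurable
    · simp only [Function.uncurry, norm_mul]
      rw [norm_exp (I * _ * _)]
      simp [mul_comm]
  simp only [← g0_eq, ← integral_mul_const]
  rw [integral_integral_swap hI, gl, ← integral_const_mul]
  refine integral_congr_ae (ae_of_all _ fun u => ?_)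
  have e : ∀ r : ℝ, (phi1 u : ℂ) * exp (I * r * u) * exp (-((r : ℂ) - z) ^ 2) =
      (phi1 u : ℂ) * exp (-1 * (r : ℂ) ^ 2 + (2 * z + I * u) * r + -z ^ 2) := fun r => by
    rw [mul_assoc, ← exp_add]
    congr 2
    ring
  simp only [e]
  rw [integral_const_mul, integral_cexp_quadratic (by simp)]
  have s : ((Real.pi : ℂ) / - -1) ^ (1 / 2 : ℂ) = (Real.sqrt Real.pi : ℂ) := by
    rw [Real.sqrt_eq_rpow, ofReal_cpow Real.pi_pos.le]
    simp
  rw [s, mul_left_comm]
  congr 3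
  ring_nf
  simp
  ring

/-- The `n`-th term of the series. -/
noncomputable def tm (z : ℂ) (l : ℝ) : ℂ :=
  exp (-(1 / 2 + I * z) * l - (l : ℂ) ^ 2 / 4) * gl (z - I * l / 2)

lemma tm_abs (z : ℂ) {l : ℝ} (hl : 0 ≤ l) :
    ‖exp (-(1 / 2 + I * z) * l - (l : ℂ) ^ 2 / 4)‖ *
      ∫ u : ℝ, ‖(phi1 u : ℂ) * exp (-(u : ℂ) ^ 2 / 4 + I * (z - I * l / 2) * u)‖ ≤
    360 * Real.exp (-2 * l - 5 * l ^ 2 / 48 + 2 * (z.im + 2) ^ 2 + 3 * z.im ^ 2) := by
  refine (mul_le_mul_of_nonneg_left (gl_abs _) (norm_nonneg _)).trans ?_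
  have e : (-(1 / 2 + I * z) * l - (l : ℂ) ^ 2 / 4).re = (z.im - 1 / 2) * l - l ^ 2 / 4 := by
    simp [pow_two]
    left
    ring
  have e2 : (z - I * l / 2).im = z.im - l / 2 := by simp
  rw [norm_exp, e, e2, mul_left_comm, ← Real.exp_add]
  refine mul_le_mul_of_nonneg_left (Real.exp_le_exp.mpr ?_) (by norm_num)
  have h : max (z.im - l / 2) 0 ^ 2 ≤ z.im ^ 2 := by
    rcases le_total (z.im - l / 2) 0 with h | h
    · rw [max_eq_right h]
      nlinarith [sq_nonneg z.im]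
    · rw [max_eq_left h]
      nlinarith
  nlinarith [sq_nonneg (l - 4 * (z.im + 2)), sq_nonneg (z.im + l / 2), sq_nonneg z.im]

lemma tm_le (z : ℂ) {l : ℝ} (hl : 0 ≤ l) : ‖tm z l‖ ≤
    360 * Real.exp (-2 * l - 5 * l ^ 2 / 48 + 2 * (z.im + 2) ^ 2 + 3 * z.im ^ 2) := by
  refine le_trans ?_ (tm_abs z hl)
  rw [tm, norm_mul]
  exact mul_le_mul_of_nonneg_left (norm_integral_le_integral_norm _) (norm_nonneg _)

/-- `log (n + 1)`. -/
noncomputable def lg (n : ℕ) : ℝ := Real.log (n + 1)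

lemma lg_nonneg (n : ℕ) : 0 ≤ lg n := Real.log_nonneg (by linarith [Nat.cast_nonneg (α := ℝ) n])

lemma exp_lg (n : ℕ) : Real.exp (lg n) = n + 1 := Real.exp_log (by positivity)

lemma exp_mul_lg (k n : ℕ) : Real.exp (k * lg n) = (n + 1) ^ k := by
  rw [Real.exp_nat_mul, exp_lg]

lemma hasSum_lg : HasSum (fun n => Real.exp (-2 * lg n)) (Real.pi ^ 2 / 6) := by
  have := (hasSum_nat_add_iff' 1).mpr hasSum_zeta_two
  simp only [Finset.range_one, Finset.sum_singleton, Nat.cast_zero, ne_eq, OfNat.ofNat_ne_zero,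
    not_false_eq_true, zero_pow, div_zero, sub_zero] at this
  refine this.congr_fun fun n => ?_
  rw [neg_mul, Real.exp_neg, one_div]
  congr 1
  exact_mod_cast exp_mul_lg 2 n

lemma summable_bd (A : ℝ) : Summable fun n => 360 * Real.exp (-2 * lg n + A) := by
  simp only [Real.exp_add]
  exact (hasSum_lg.summable.mul_right _).mul_left _

lemma hasSum_tm (z : ℂ) : HasSum (fun n => tm z (lg n)) (Xi (-1 / 4) z) := by
  let F : ℕ → ℝ → ℂ := fun n t => exp (-(1 / 2 + I * z) * lg n - (lg n : ℂ) ^ 2 / 4) *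
    ((phi1 (t + lg n) : ℂ) * exp (-((t + lg n : ℝ) : ℂ) ^ 2 / 4 +
      I * (z - I * lg n / 2) * (t + lg n : ℝ)))
  have h1 : ∀ n, Integrable (F n) := fun n =>
    ((gl_integrable (z - I * lg n / 2)).comp_add_right (lg n)).const_mul _
  have h2 : Summable fun n => ∫ t, ‖F n t‖ := by
    refine (summable_bd (2 * (z.im + 2) ^ 2 + 3 * z.im ^ 2)).of_nonneg_of_le
      (fun n => by positivity) fun n => ?_
    simp only [F, norm_mul (exp _)]
    rw [integral_const_mul, integral_add_right_eq_self (fun u : ℝ => ‖(phi1 u : ℂ) *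
      exp (-(u : ℂ) ^ 2 / 4 + I * (z - I * lg n / 2) * u)‖)]
    refine (tm_abs z (lg_nonneg n)).trans (mul_le_mul_of_nonneg_left (Real.exp_le_exp.mpr ?_)
      (by norm_num))
    nlinarith [sq_nonneg (lg n)]
  have h3 := hasSum_integral_of_summable_integral_norm h1 h2
  have h4 : ∀ n, tm z (lg n) = ∫ t, F n t := by
    intro n
    simp only [F]
    rw [integral_const_mul, integral_add_right_eq_self (fun u : ℝ => (phi1 u : ℂ) *
      exp (-(u : ℂ) ^ 2 / 4 + I * (z - I * lg n / 2) * u))]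
    rfl
  have h5 : Xi (-1 / 4) z = ∫ t, ∑' n, F n t := by
    unfold Xi Phi
    refine integral_congr_ae (ae_of_all _ fun t => ?_)
    simp only
    rw [← tsum_mul_left, ofReal_tsum, ← tsum_mul_right, ← tsum_mul_right]
    refine tsum_congr fun n => ?_
    have e : 2 * ((2 * Real.pi ^ 2 * ((n : ℝ) + 1) ^ 4 * Real.exp (9 * t / 2) -
        3 * Real.pi * ((n : ℝ) + 1) ^ 2 * Real.exp (5 * t / 2)) *
        Real.exp (-Real.pi * ((n : ℝ) + 1) ^ 2 * Real.exp (2 * t))) =
        Real.exp (-lg n / 2) * phi1 (t + lg n) := by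
      have a1 : Real.exp (2 * (t + lg n)) = (n + 1) ^ 2 * Real.exp (2 * t) := by
        rw [← exp_mul_lg, ← Real.exp_add]; congr 1; push_cast; ring
      have a2 : Real.exp (-lg n / 2) * Real.exp (9 * (t + lg n) / 2) =
          (n + 1) ^ 4 * Real.exp (9 * t / 2) := by
        rw [← exp_mul_lg, ← Real.exp_add, ← Real.exp_add]; congr 1; push_cast; ring
      have a3 : Real.exp (-lg n / 2) * Real.exp (5 * (t + lg n) / 2) =
          (n + 1) ^ 2 * Real.exp (5 * t / 2) := by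
        rw [← exp_mul_lg, ← Real.exp_add, ← Real.exp_add]; congr 1; push_cast; ring
      unfold phi1
      rw [a1, ← mul_assoc (-Real.pi)]
      linear_combination (-4 * Real.pi ^ 2 * a2 + 6 * Real.pi * a3) *
        Real.exp (-Real.pi * ((n : ℝ) + 1) ^ 2 * Real.exp (2 * t))
    rw [e]
    simp only [F]
    rw [ofReal_mul, ofReal_exp, ofReal_exp, mul_left_comm, ← exp_add, mul_comm (exp _), mul_assoc,
      mul_assoc, ← exp_add, ← exp_add]
    congr 2
    push_cast
    linear_combination (lg n * (t + lg n) / 2 : ℂ) * I_sq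
  simp only [h4, h5]
  exact h3

lemma Xi_diff : Differentiable ℂ (Xi (-1 / 4)) := by
  have e : Xi (-1 / 4) = fun z => ∑' n, tm z (lg n) := funext fun z => (hasSum_tm z).tsum_eq.symm
  rw [e]
  intro z
  have hd := gl_diff
  refine (differentiableOn_tsum_of_summable_norm (U := ball z 1)
    (summable_bd (5 * (‖z‖ + 3) ^ 2)) (fun n => ?_) isOpen_ball fun n w hw => ?_).differentiableAt
    (ball_mem_nhds z one_pos)
  · unfold tm
    fun_prop
  · refine (tm_le w (lg_nonneg n)).trans ?_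
    have h3 : |w.im| ≤ ‖z‖ + 1 := by
      have := norm_sub_norm_le w z
      rw [mem_ball_iff_norm] at hw
      linarith [abs_im_le_norm w]
    obtain ⟨h4, h5⟩ := abs_le.mp h3
    refine mul_le_mul_of_nonneg_left (Real.exp_le_exp.mpr ?_) (by norm_num)
    nlinarith [sq_nonneg (lg n), norm_nonneg z]

end Pool.Agent.H6.KK
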