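import Mathlib
import Pool.Agent.H6.KK3

namespace Pool.Agent.H6.KK

open Complex Metric Filter Topology MeasureTheory

lemma gauss_re (v p : ℂ) : ‖exp (-(v - p) ^ 2)‖ =
    Real.exp (-(v.re - p.re) ^ 2 + (v.im - p.im) ^ 2) := by
  rw [norm_exp]
  congr 1
  simp [pow_two]
  ring

lemma gauss_integrable (p : ℂ) : Integrable fun r : ℝ => exp (-((r : ℂ) - p) ^ 2) := by
  refine (integrable_cexp_quadratic' (b := -1) (by simp) (2 * p) (-p ^ 2)).congr
    (ae_of_all _ fun r => ?_)
  simp only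
  congr 1
  ring

lemma gauss_integral (p : ℂ) : ∫ r : ℝ, exp (-((r : ℂ) - p) ^ 2) = (Real.sqrt Real.pi : ℂ) := by
  have e : ∀ r : ℝ, exp (-((r : ℂ) - p) ^ 2) = exp (-1 * (r : ℂ) ^ 2 + (2 * p) * r + -p ^ 2) :=
    fun r => by congr 1; ring
  simp only [e]
  rw [integral_cexp_quadratic (by simp)]
  have s : ((Real.pi : ℂ) / - -1) ^ (1 / 2 : ℂ) = (Real.sqrt Real.pi : ℂ) := by
    rw [Real.sqrt_eq_rpow, ofReal_cpow Real.pi_pos.le]
    simp
  rw [s, show -p ^ 2 - (2 * p) ^ 2 / (4 * -1) = 0 by ring, exp_zero, mul_one]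

lemma exp_sub_one_le (t : ℝ) : Real.exp t - 1 ≤ t * Real.exp t := by
  have := Real.add_one_le_exp (-t)
  have h := mul_le_mul_of_nonneg_right this (Real.exp_pos t).le
  rw [← Real.exp_add, neg_add_cancel, Real.exp_zero] at h
  linarith

lemma saddle {h : ℂ → ℂ} {x C : ℝ} {p : ℂ} (hx : 10000 ≤ x) (hC : 0 ≤ C)
    (hp : ‖p‖ ^ 2 ≤ 100 * x) (H1 : DifferentiableOn ℂ h (ball 0 x))
    (H2 : ∀ v : ℂ, ‖v‖ ≤ x / 2 → ‖h v - 1‖ ≤ Real.exp (2 * ‖v‖ ^ 2 / x) - 1)
    (H3 : ∀ v : ℝ, x / 4 ≤ |v| → ‖h v‖ ≤ C * Real.exp (2 * v ^ 2 / 25))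
    (H4 : Integrable fun v : ℝ => h v * exp (-((v : ℂ) - p) ^ 2)) :
    ‖(∫ v : ℝ, h v * exp (-((v : ℂ) - p) ^ 2)) - Real.sqrt Real.pi‖ ≤
      (96 * Real.exp 400 + 6 * C + 8) * (1 + ‖p‖ ^ 2) / x := by
  have x0 : 0 < x := by linarith
  have np : ‖p‖ ^ 2 = p.re ^ 2 + p.im ^ 2 := by rw [Complex.sq_norm, normSq_apply]; ring
  let D : ℂ → ℂ := fun v => (h v - 1) * exp (-(v - p) ^ 2)
  have hD : Integrable fun v : ℝ => D v :=
    (H4.sub (gauss_integrable p)).congr (ae_of_all _ fun v => by simp only [D, Pi.sub_apply]; ring)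
  have e0 : (∫ v : ℝ, h v * exp (-((v : ℂ) - p) ^ 2)) - Real.sqrt Real.pi = ∫ v : ℝ, D v := by
    rw [← gauss_integral p, ← integral_sub H4 (gauss_integrable p)]
    exact integral_congr_ae (ae_of_all _ fun v => by simp only [D]; ring)
  have small : ∀ v : ℂ, |v.re| ≤ x / 4 → v.im ^ 2 ≤ p.im ^ 2 → ‖v‖ ≤ x / 2 := by
    intro v h1 h2
    refine abs_le_of_sq_le_sq' ?_ (by positivity) |>.2
    rw [Complex.sq_norm, normSq_apply]
    have := sq_le_sq' (abs_le.mp h1).1 (abs_le.mp h1).2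
    nlinarith [sq_nonneg p.re]
  have uI : ∀ y ∈ Set.uIcc 0 p.im, y ^ 2 ≤ p.im ^ 2 ∧ (y - p.im) ^ 2 ≤ p.im ^ 2 := by
    intro y hy
    rcases Set.mem_uIcc.mp hy with h | h <;> constructor <;> nlinarith [h.1, h.2]
  have ex : Real.exp (-x) ≤ 1 / x := by
    rw [Real.exp_neg, one_div]
    exact inv_anti₀ x0 (by linarith [Real.add_one_le_exp x])
  have rect := integral_boundary_rect_eq_zero_of_differentiableOn D ((-(x / 4) : ℝ) : ℂ)
    ((x / 4 : ℝ) + p.im * I) (by
      refine DifferentiableOn.mul (DifferentiableOn.sub_const (H1.mono fun v hv => ?_) 1)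
        (by fun_prop)
      rw [mem_reProdIm] at hv
      simp only [ofReal_re, add_re, mul_re, I_re, mul_zero, ofReal_im, I_im, mul_one, sub_self,
        add_zero, add_im, mul_im, zero_add] at hv
      rw [Set.uIcc_of_le (by linarith)] at hv
      rw [mem_ball_zero_iff]
      linarith [small v (abs_le.mpr hv.1) (uI _ hv.2).1])
  simp only [ofReal_re, add_re, mul_re, I_re, mul_zero, ofReal_im, I_im, mul_one, sub_self,
    add_zero, add_im, mul_im, zero_add, ofReal_zero, zero_mul] at rect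
  have side : ∀ s : ℝ, |s| = x / 4 → ‖I • ∫ y : ℝ in (0 : ℝ)..p.im, D (s + y * I)‖ ≤ 1 / x := by
    intro s hs
    rw [norm_smul, norm_I, one_mul]
    refine (intervalIntegral.norm_integral_le_of_norm_le_const (C := Real.exp (-x) * Real.exp (-x))
      fun y hy => ?_).trans ?_
    · obtain ⟨y1, y2⟩ := uI y (Set.uIoc_subset_uIcc hy)
      have n1 := small (s + y * I) (by simpa using hs.le) (by simpa using y1)
      have n2 := H2 _ n1
      simp only [D]
      rw [norm_mul, gauss_re]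
      have n3 : ‖h (s + y * I) - 1‖ ≤ Real.exp (x / 2) := by
        refine n2.trans ((sub_le_self _ zero_le_one).trans (Real.exp_le_exp.mpr ?_))
        rw [div_le_iff₀ x0]
        nlinarith [norm_nonneg (s + y * I : ℂ)]
      refine (mul_le_mul_of_nonneg_right n3 (by positivity)).trans ?_
      rw [← Real.exp_add, ← Real.exp_add, Real.exp_le_exp]
      simp only [add_re, ofReal_re, mul_re, I_re, mul_zero, ofReal_im, I_im, mul_one, sub_self,
        add_zero, add_im, mul_im, zero_add]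
      have s2 : s ^ 2 = (x / 4) ^ 2 := by rw [← hs, sq_abs]
      nlinarith [sq_nonneg (s - 2 * p.re), sq_nonneg p.re, sq_nonneg p.im]
    · have a : |p.im - 0| ≤ x := by
        rw [sub_zero]
        exact abs_le_of_sq_le_sq (by nlinarith [sq_nonneg p.re]) x0.le
      calc _ ≤ (1 / x) * (1 / x) * x := by gcongr
        _ = 1 / x := by field_simp
  have top : ‖∫ r : ℝ in (-(x / 4))..(x / 4), D (r + p.im * I)‖ ≤
      96 * Real.exp 400 * (1 + ‖p‖ ^ 2) / x := by
    have gi : Integrable fun r : ℝ => 16 * Real.exp 400 * (1 + ‖p‖ ^ 2) / x *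
        Real.exp (-(1 / 2) * (r - p.re) ^ 2) :=
      ((integrable_exp_neg_mul_sq (b := 1 / 2) (by norm_num)).comp_sub_right p.re).const_mul _
    rw [intervalIntegral.integral_of_le (by linarith)]
    refine (norm_integral_le_of_norm_le gi.integrableOn ?_).trans
      ((setIntegral_le_integral gi (ae_of_all _ fun r => by positivity)).trans ?_)
    · refine (ae_restrict_iff' measurableSet_Ioc).mpr (ae_of_all _ fun r hr => ?_)
      have n1 := small (r + p.im * I) (by simpa using abs_le.mpr ⟨hr.1.le, hr.2⟩) (by simp)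
      have n2 := (H2 _ n1).trans (exp_sub_one_le _)
      have n3 : ‖(r + p.im * I : ℂ)‖ ^ 2 ≤ 2 * (r - p.re) ^ 2 + 2 * ‖p‖ ^ 2 := by
        rw [Complex.sq_norm, normSq_apply, np]
        simp only [add_re, ofReal_re, mul_re, I_re, mul_zero, ofReal_im, I_im, mul_one, sub_self,
          add_zero, add_im, mul_im, zero_add]
        nlinarith [sq_nonneg (r - 2 * p.re), sq_nonneg p.im]
      simp only [D]
      rw [norm_mul, gauss_re]
      simp only [add_re, ofReal_re, mul_re, I_re, mul_zero, ofReal_im, I_im, mul_one, sub_self,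
        add_zero, add_im, mul_im, zero_add]
      generalize r - p.re = q at n3
      have n4 : 2 * ‖(r + p.im * I : ℂ)‖ ^ 2 / x ≤ 4 * (q ^ 2 + ‖p‖ ^ 2) / x :=
        div_le_div_of_nonneg_right (by linarith) x0.le
      have n5 : 4 * (q ^ 2 + ‖p‖ ^ 2) / x ≤ 400 + q ^ 2 / 4 := by
        rw [div_le_iff₀ x0]
        nlinarith [sq_nonneg q]
      have n6 : q ^ 2 + ‖p‖ ^ 2 ≤ 4 * (1 + ‖p‖ ^ 2) * Real.exp (q ^ 2 / 4) := by
        have := Real.add_one_le_exp (q ^ 2 / 4)
        have h1 : 1 ≤ Real.exp (q ^ 2 / 4) := Real.one_le_exp (by positivity)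
        nlinarith [sq_nonneg ‖p‖]
      calc _ ≤ (4 * (4 * (1 + ‖p‖ ^ 2) * Real.exp (q ^ 2 / 4)) / x *
            Real.exp (400 + q ^ 2 / 4)) * Real.exp (-q ^ 2 + 0 ^ 2) := by
            refine mul_le_mul_of_nonneg_right (n2.trans (mul_le_mul (n4.trans ?_)
              (Real.exp_le_exp.mpr (n4.trans n5)) (by positivity) (by positivity))) (by positivity)
            gcongr
        _ = 16 * Real.exp 400 * (1 + ‖p‖ ^ 2) / x *
            (Real.exp (q ^ 2 / 4) * Real.exp (q ^ 2 / 4) * Real.exp (-q ^ 2 + 0 ^ 2)) := by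
            rw [Real.exp_add 400]; ring
        _ = _ := by
            rw [← Real.exp_add, ← Real.exp_add]
            congr 2
            ring
    · rw [integral_const_mul, integral_sub_right_eq_self
        (fun r : ℝ => Real.exp (-(1 / 2) * r ^ 2)) p.re]
      refine (mul_le_mul_of_nonneg_left (gauss_int (by norm_num)) (by positivity)).trans
        (le_of_eq ?_)
      ring
  have out : ‖∫ r in (Set.Ioc (-(x / 4)) (x / 4))ᶜ, D r‖ ≤ 6 * (C + 1) / x := by
    have gi : Integrable fun r : ℝ => (C + 1) / x * Real.exp (-(1 / 8) * r ^ 2) :=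
      (integrable_exp_neg_mul_sq (b := 1 / 8) (by norm_num)).const_mul _
    refine (norm_integral_le_of_norm_le gi.integrableOn ?_).trans
      ((setIntegral_le_integral gi (ae_of_all _ fun r => by positivity)).trans ?_)
    · refine (ae_restrict_iff' measurableSet_Ioc.compl).mpr (ae_of_all _ fun r hr => ?_)
      have r1 : x / 4 ≤ |r| := by
        by_contra hc
        obtain ⟨a, b⟩ := abs_lt.mp (not_le.mp hc)
        exact hr ⟨a, b.le⟩
      have r2 : (x / 4) ^ 2 ≤ r ^ 2 := by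
        rw [← sq_abs r]
        exact pow_le_pow_left₀ (by positivity) r1 2
      have n1 : ‖h r - 1‖ ≤ (C + 1) * Real.exp (2 * r ^ 2 / 25) := by
        have a := norm_sub_le (h r) 1
        have b : 1 ≤ Real.exp (2 * r ^ 2 / 25) := Real.one_le_exp (by positivity)
        rw [norm_one] at a
        linarith [H3 r r1]
      simp only [D]
      rw [norm_mul, gauss_re]
      refine (mul_le_mul_of_nonneg_right n1 (by positivity)).trans ?_
      rw [mul_assoc, ← Real.exp_add, div_eq_mul_one_div _ x, mul_assoc]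
      refine mul_le_mul_of_nonneg_left (le_trans ?_
        (mul_le_mul_of_nonneg_right ex (by positivity))) (by positivity)
      rw [← Real.exp_add, Real.exp_le_exp]
      simp only [ofReal_re, ofReal_im]
      nlinarith [sq_nonneg (r - 2 * p.re)]
    · rw [integral_const_mul]
      refine (mul_le_mul_of_nonneg_left (gauss_int le_rfl) (by positivity)).trans (le_of_eq ?_)
      ring
  rw [e0, ← integral_add_compl (s := Set.Ioc (-(x / 4)) (x / 4)) measurableSet_Ioc hD,
    ← intervalIntegral.integral_of_le (by linarith)]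
  have s1 := side (x / 4) (abs_of_pos (by positivity))
  have s2 := side (-(x / 4)) (by rw [abs_neg]; exact abs_of_pos (by positivity))
  have e1 : ∫ r : ℝ in (-(x / 4))..(x / 4), D r =
      (∫ r : ℝ in (-(x / 4))..(x / 4), D (r + p.im * I)) -
      I • (∫ y : ℝ in (0 : ℝ)..p.im, D ((x / 4 : ℝ) + y * I)) +
      I • (∫ y : ℝ in (0 : ℝ)..p.im, D ((-(x / 4) : ℝ) + y * I)) := by
    linear_combination rect
  rw [e1]
  refine (norm_add_le _ _).trans ((add_le_add ((norm_add_le _ _).trans (add_le_add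
    ((norm_sub_le _ _).trans (add_le_add top s1)) s2)) out).trans ?_)
  rw [← add_div, ← add_div, ← add_div]
  refine div_le_div_of_nonneg_right ?_ x0.le
  nlinarith [sq_nonneg ‖p‖, mul_nonneg hC (sq_nonneg ‖p‖)]

lemma norm_exp_sub_one (E : ℂ) : ‖exp E - 1‖ ≤ Real.exp ‖E‖ - 1 := by
  have := Complex.norm_exp_sub_sum_le_exp_norm_sub_sum E 1
  simpa using this

lemma log_small {x : ℝ} (hx : 10000 ≤ x) : Real.log x / 2 + 6 ≤ x / 90 := by
  have h := Real.log_le_sub_one_of_pos (x := x / 10000) (by positivity)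
  rw [Real.log_div (by linarith) (by norm_num)] at h
  have h2 : Real.log 10000 ≤ 14 * Real.log 2 := by
    rw [show (14 : ℝ) = ((14 : ℕ) : ℝ) by norm_num, ← Real.log_pow]
    exact Real.log_le_log (by norm_num) (by norm_num)
  linarith [Real.log_two_lt_d9]

lemma gl_approx : ∃ C : ℝ, 0 < C ∧ ∀ X : ℝ, 10000 ≤ |X| →
    ∃ b : ℂ, ‖b - I * (Real.log |X| / 2 : ℝ)‖ ≤ 6 ∧ ∀ ζ : ℂ, ‖ζ + b / 2‖ ^ 2 ≤ 100 * |X| →
      ‖gl (X + ζ) - g0 X * exp (b * ζ + b ^ 2 / 4)‖ ≤
        C * (1 + ‖ζ + b / 2‖ ^ 2) / |X| * ‖g0 X * exp (b * ζ + b ^ 2 / 4)‖ := by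
  obtain ⟨c, c0, hc⟩ := g0_lower
  obtain ⟨B, B0, hB⟩ := g0_bdd
  refine ⟨96 * Real.exp 400 + 6 * (B / c) + 8, by positivity, fun X hX => ?_⟩
  obtain ⟨b, b1, b2⟩ := g0_ratio (X := X) (by linarith)
  refine ⟨b, b1, fun ζ hζ => ?_⟩
  have l := hc X (by linarith)
  have g00 : g0 X ≠ 0 := norm_pos_iff.mp (lt_of_lt_of_le (by positivity) l)
  have nb : ‖b‖ ≤ |X| / 90 := by
    have := norm_sub_norm_le b (I * (Real.log |X| / 2 : ℝ))
    rw [norm_mul, norm_I, one_mul, norm_real, Real.norm_eq_abs,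
      abs_of_nonneg (div_nonneg (Real.log_nonneg (by linarith)) (by norm_num))] at this
    linarith [log_small hX]
  let h : ℂ → ℂ := fun v => g0 (X + v) * exp (-(b * v)) / g0 X
  have key : ∀ v : ℝ, g0 ((v + X : ℝ) : ℂ) * exp (-(((v + X : ℝ) : ℂ) - (X + ζ)) ^ 2) =
      g0 X * exp (b * ζ + b ^ 2 / 4) * (h v * exp (-((v : ℂ) - (ζ + b / 2)) ^ 2)) := by
    intro v
    have e : exp (-(((v + X : ℝ) : ℂ) - (X + ζ)) ^ 2) =
        exp (b * ζ + b ^ 2 / 4) * exp (-(b * v)) * exp (-((v : ℂ) - (ζ + b / 2)) ^ 2) := by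
      rw [← exp_add, ← exp_add]
      congr 1
      push_cast
      ring
    rw [e]
    simp only [h]
    push_cast
    rw [add_comm (v : ℂ)]
    field_simp
  have A0 : g0 X * exp (b * ζ + b ^ 2 / 4) ≠ 0 := mul_ne_zero g00 (exp_ne_zero _)
  have i1 : Integrable fun r : ℝ => g0 r * exp (-((r : ℂ) - (X + ζ)) ^ 2) :=
    (gauss_integrable _).bdd_mul g0_cont.aestronglyMeasurable (ae_of_all _ hB)
  have i2 : Integrable fun v : ℝ => h v * exp (-((v : ℂ) - (ζ + b / 2)) ^ 2) := by
    have := (i1.comp_add_right X).const_mul (g0 X * exp (b * ζ + b ^ 2 / 4))⁻¹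
    refine this.congr (ae_of_all _ fun v => ?_)
    simp only
    rw [key, inv_mul_cancel_left₀ A0]
  have S := saddle (h := h) (C := B / c) hX (by positivity) hζ (fun v hv => ?_) (fun v hv => ?_)
    (fun v hv => ?_) i2
  · have e := gl_conv (X + ζ)
    rw [← integral_add_right_eq_self (fun r : ℝ => g0 r * exp (-((r : ℂ) - (X + ζ)) ^ 2)) X] at e
    simp only [key] at e
    rw [integral_const_mul] at e
    have s1 : 1 ≤ Real.sqrt Real.pi := Real.one_le_sqrt.mpr (by linarith [Real.pi_gt_three])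
    have e2 : (Real.sqrt Real.pi : ℂ) * (gl (X + ζ) - g0 X * exp (b * ζ + b ^ 2 / 4)) =
        g0 X * exp (b * ζ + b ^ 2 / 4) *
        ((∫ v : ℝ, h v * exp (-((v : ℂ) - (ζ + b / 2)) ^ 2)) - Real.sqrt Real.pi) := by
      linear_combination -e
    have e3 := congrArg norm e2
    rw [norm_mul, norm_mul (_ * _), norm_real, Real.norm_eq_abs, abs_of_pos (by linarith)] at e3
    calc _ ≤ _ := le_mul_of_one_le_left (norm_nonneg _) s1
      _ = _ := e3
      _ ≤ _ := by
        rw [mul_comm]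
        exact mul_le_mul_of_nonneg_right S (norm_nonneg _)
  · refine DifferentiableAt.differentiableWithinAt (DifferentiableAt.div_const
      (DifferentiableAt.mul ((g0_diff ?_).comp v (f := fun v : ℂ => (X : ℂ) + v) (by fun_prop))
        (by fun_prop)) _)
    rw [mem_ball_zero_iff] at hv
    intro e
    simp only [add_re, ofReal_re] at e
    have := abs_re_le_norm v
    rw [show v.re = -X by linarith, abs_neg] at this
    linarith
  · obtain ⟨E, E1, E2⟩ := b2 v hv
    have : h v = exp E := by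
      simp only [h]
      rw [E2, div_eq_iff g00, mul_assoc, ← exp_add, mul_comm]
      congr 2
      ring
    rw [this]
    exact (norm_exp_sub_one E).trans (sub_le_sub_right (Real.exp_le_exp.mpr E1) 1)
  · simp only [h]
    rw [norm_div, norm_mul, div_le_iff₀ (norm_pos_iff.mpr g00)]
    have a1 : ‖g0 (X + v)‖ ≤ B := by simpa using hB (X + v)
    have a2 : ‖exp (-(b * v))‖ ≤ Real.exp (2 * v ^ 2 / 25 + -2 * |X|) := by
      refine (norm_exp_le_exp_norm _).trans (Real.exp_le_exp.mpr ?_)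
      rw [norm_neg, norm_mul, norm_real, Real.norm_eq_abs]
      have := mul_le_mul_of_nonneg_right nb (abs_nonneg v)
      rw [← sq_abs v]
      nlinarith
    calc _ ≤ B * Real.exp (2 * v ^ 2 / 25 + -2 * |X|) := by gcongr
      _ = B / c * Real.exp (2 * v ^ 2 / 25) * (c * Real.exp (-2 * |X|)) := by
          rw [Real.exp_add]
          field_simp
      _ ≤ _ := by gcongr

end Pool.Agent.H6.KK
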