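import Mathlib
import Pool.Agent.H6.KK4

namespace Pool.Agent.H6.KK

open Complex Metric Filter Topology MeasureTheory

/-- A term of the approximating Dirichlet series. -/
noncomputable def dt (s : ℂ) (l : ℝ) : ℂ := exp (-(1 / 2 + I * s) * l - (l : ℂ) ^ 2 / 4)

lemma norm_dt (s : ℂ) (l : ℝ) : ‖dt s l‖ = Real.exp ((s.im - 1 / 2) * l - l ^ 2 / 4) := by
  rw [dt, norm_exp]
  congr 1
  simp [pow_two]
  left
  ring

lemma qb (a : ℝ) {l : ℝ} (hl : 0 ≤ l) : a * l - l ^ 2 / 4 ≤ max a 0 ^ 2 := by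
  nlinarith [sq_nonneg (max a 0 - l / 2), mul_le_mul_of_nonneg_right (le_max_left a 0) hl]

/-- The majorant. -/
noncomputable def Qb (s : ℂ) : ℝ := Real.exp (max (s.im + 5 / 2) 0 ^ 2)

lemma one_le_Qb (s : ℂ) : 1 ≤ Qb s := Real.one_le_exp (by positivity)

lemma dt_le (s : ℂ) {l : ℝ} (hl : 0 ≤ l) : (1 + l ^ 2) * ‖dt s l‖ ≤ 2 * Qb s * Real.exp (-2 * l) := by
  have h1 : 1 + l ^ 2 ≤ 2 * Real.exp l := by
    nlinarith [Real.quadratic_le_exp_of_nonneg hl]
  rw [norm_dt, Qb]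
  refine (mul_le_mul_of_nonneg_right h1 (by positivity)).trans ?_
  rw [mul_assoc, mul_assoc, ← Real.exp_add, ← Real.exp_add]
  refine mul_le_mul_of_nonneg_left (Real.exp_le_exp.mpr ?_) (by norm_num)
  linarith [qb (s.im + 5 / 2) hl]

lemma dt_le' (s : ℂ) {l : ℝ} (hl : 0 ≤ l) : ‖dt s l‖ ≤ 2 * Qb s * Real.exp (-2 * l) :=
  le_trans (le_mul_of_one_le_left (norm_nonneg _) (by nlinarith [sq_nonneg l])) (dt_le s hl)

lemma pi_sq : Real.pi ^ 2 / 6 ≤ 5 / 3 := by nlinarith [Real.pi_lt_d2, Real.pi_pos]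

lemma tsum_le_of_lg {f : ℕ → ℂ} {A : ℝ} (hA : 0 ≤ A) (h : ∀ n, ‖f n‖ ≤ A * Real.exp (-2 * lg n)) :
    ‖∑' n, f n‖ ≤ 2 * A := by
  refine (tsum_of_norm_bounded (hasSum_lg.mul_left A) h).trans ?_
  nlinarith [pi_sq]

lemma dt_summable (s : ℂ) : Summable fun n => dt s (lg n) :=
  .of_norm_bounded (hasSum_lg.summable.mul_left _) fun n => dt_le' s (lg_nonneg n)

noncomputable def Dser (s : ℂ) : ℂ := ∑' n, dt s (lg n)

lemma Dser_le (s : ℂ) : ‖Dser s‖ ≤ 4 * Qb s := by
  have := tsum_le_of_lg (by linarith [one_le_Qb s]) fun n => dt_le' s (lg_nonneg n)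
  unfold Dser
  linarith

lemma Dser_top {s : ℂ} (hs : s.im + 5 / 2 ≤ 0) : ‖Dser s - 1‖ ≤ 1 / 3 := by
  have h0 : dt s (lg 0) = 1 := by simp [dt, lg]
  rw [Dser, (dt_summable s).tsum_eq_zero_add, h0, add_sub_cancel_left]
  have h1 := ((hasSum_nat_add_iff' 1).mpr hasSum_lg).mul_left (1 / 2)
  refine (tsum_of_norm_bounded h1 fun n => ?_).trans ?_
  · rw [norm_dt]
    have l0 := lg_nonneg (n + 1)
    have a : Real.exp (-lg (n + 1)) ≤ 1 / 2 := by
      rw [Real.exp_neg, exp_lg, one_div]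
      refine inv_anti₀ (by norm_num) ?_
      push_cast
      linarith [Nat.cast_nonneg (α := ℝ) n]
    refine le_trans ?_ (mul_le_mul_of_nonneg_right a (by positivity))
    rw [← Real.exp_add, Real.exp_le_exp]
    nlinarith [sq_nonneg (lg (n + 1))]
  · simp only [Finset.range_one, Finset.sum_singleton, lg, Nat.cast_zero, zero_add, Real.log_one,
      mul_zero, Real.exp_zero]
    linarith [pi_sq]

/-- The normalising factor. -/
noncomputable def En (X : ℝ) (b w : ℂ) : ℂ := exp (-(b * w + b ^ 2 / 4)) / g0 X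

lemma approx : ∃ C : ℝ, 0 < C ∧ ∀ X : ℝ, 10000 ≤ |X| → g0 X ≠ 0 ∧
    ∃ b : ℂ, ‖b - I * (Real.log |X| / 2 : ℝ)‖ ≤ 6 ∧ ∀ (w : ℂ) (S : ℝ), ‖w + b / 2‖ ^ 2 ≤ S →
      1 ≤ S → S ≤ |X| → 5 * (|w.im| + ‖b‖ + 3) ^ 2 ≤ |X| → ‖b‖ * (‖w‖ + ‖b‖) ≤ |X| →
      ‖Xi (-1 / 4) (X + w) * En X b w - Dser (X + w + b / 2)‖ ≤
        C * S / |X| * Qb (X + w + b / 2) := by
  obtain ⟨c, c0, hc⟩ := g0_lower
  obtain ⟨C, C0, hC⟩ := gl_approx
  refine ⟨2 * (6 * C + 360 / c + 1), by positivity, fun X hX => ?_⟩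
  have l := hc X (by linarith)
  have g00 : g0 X ≠ 0 := norm_pos_iff.mp (lt_of_lt_of_le (by positivity) l)
  obtain ⟨b, b1, b2⟩ := hC X hX
  refine ⟨g00, b, b1, fun w S h1 h2 h3 h4 h5 => ?_⟩
  have x0 : 0 < |X| := by linarith
  have q1 := one_le_Qb (X + w + b / 2)
  rw [← (hasSum_tm _).tsum_eq, ← tsum_mul_right, Dser,
    ← ((hasSum_tm _).summable.mul_right _).tsum_sub (dt_summable _)]
  refine (tsum_le_of_lg (A := (6 * C + 360 / c + 1) * S / |X| * Qb (X + w + b / 2))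
    (by positivity) fun n => ?_).trans (le_of_eq (by ring))
  have l0 := lg_nonneg n
  generalize lg n = l at l0
  have ex : Real.exp (-|X|) ≤ S / |X| * Qb (X + w + b / 2) := by
    have : Real.exp (-|X|) ≤ 1 / |X| := by
      rw [Real.exp_neg, one_div]
      exact inv_anti₀ x0 (by linarith [Real.add_one_le_exp |X|])
    refine this.trans ((div_le_div_of_nonneg_right h2 x0.le).trans
      (le_mul_of_one_le_right (by positivity) q1))
  by_cases hl : l ^ 2 ≤ 100 * |X|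
  · have p1 : ‖w - I * l / 2 + b / 2‖ ^ 2 ≤ 2 * S + l ^ 2 / 2 := by
      have a := norm_sub_le (w + b / 2) (I * l / 2)
      rw [norm_div, norm_mul, norm_I, norm_real, Complex.norm_ofNat, Real.norm_eq_abs,
        abs_of_nonneg l0, show w + b / 2 - I * l / 2 = w - I * l / 2 + b / 2 by ring] at a
      have := pow_le_pow_left₀ (norm_nonneg _) a 2
      nlinarith [sq_nonneg (‖w + b / 2‖ - l / 2)]
    have p2 := b2 (w - I * l / 2) (by linarith)
    have e1 : exp (-(1 / 2 + I * (X + w)) * l - (l : ℂ) ^ 2 / 4) * En X b w *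
        (g0 X * exp (b * (w - I * l / 2) + b ^ 2 / 4)) = dt (X + w + b / 2) l := by
      unfold En dt
      field_simp
      rw [← exp_add, ← exp_add]
      congr 1
      ring
    have e2 : tm (X + w) l * En X b w - dt (X + w + b / 2) l =
        exp (-(1 / 2 + I * (X + w)) * l - (l : ℂ) ^ 2 / 4) * En X b w *
        (gl (X + (w - I * l / 2)) - g0 X * exp (b * (w - I * l / 2) + b ^ 2 / 4)) := by
      rw [mul_sub, e1, tm, add_sub_assoc]
      ring
    rw [e2, norm_mul]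
    refine (mul_le_mul_of_nonneg_left p2 (norm_nonneg _)).trans ?_
    rw [mul_left_comm, ← norm_mul, e1]
    have p3 : 1 + ‖w - I * l / 2 + b / 2‖ ^ 2 ≤ 3 * S * (1 + l ^ 2) := by
      nlinarith [sq_nonneg l]
    calc _ ≤ C * (3 * S * (1 + l ^ 2)) / |X| * ‖dt (X + w + b / 2) l‖ := by gcongr
      _ = 3 * C * S / |X| * ((1 + l ^ 2) * ‖dt (X + w + b / 2) l‖) := by ring
      _ ≤ 3 * C * S / |X| * (2 * Qb (X + w + b / 2) * Real.exp (-2 * l)) :=
          mul_le_mul_of_nonneg_left (dt_le _ l0) (by positivity)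
      _ = (6 * C) * S / |X| * Qb (X + w + b / 2) * Real.exp (-2 * l) := by ring
      _ ≤ _ := by
          gcongr
          have : 0 < 360 / c := by positivity
          linarith
  · push Not at hl
    have y1 := abs_le.mp (le_refl |w.im|)
    have y2 := abs_le.mp (abs_im_le_norm b)
    have n0 := norm_nonneg b
    have t1 : ‖tm (X + w) l * En X b w‖ ≤ 360 / c * Real.exp (-|X|) * Real.exp (-2 * l) := by
      have a1 := tm_le (X + w) l0
      have a2 : ‖En X b w‖ ≤ Real.exp |X| / (c * Real.exp (-2 * |X|)) := by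
        rw [En, norm_div]
        refine div_le_div₀ (by positivity) ((norm_exp_le_exp_norm _).trans
          (Real.exp_le_exp.mpr ?_)) (by positivity) (hc X (by linarith))
        rw [norm_neg]
        refine (norm_add_le _ _).trans ?_
        rw [norm_mul, norm_div, norm_pow, Complex.norm_ofNat]
        nlinarith [sq_nonneg ‖b‖]
      rw [norm_mul]
      refine (mul_le_mul a1 a2 (norm_nonneg _) (by positivity)).trans ?_
      rw [mul_comm c, ← div_div, ← Real.exp_sub, mul_assoc (360 / c), ← Real.exp_add,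
        mul_div_assoc', mul_assoc, ← Real.exp_add, mul_div_right_comm]
      refine mul_le_mul_of_nonneg_left (Real.exp_le_exp.mpr ?_) (by positivity)
      simp only [add_im, ofReal_im, zero_add]
      nlinarith [sq_abs w.im, abs_nonneg w.im]
    have t2 : ‖dt (X + w + b / 2) l‖ ≤ Real.exp (-|X|) * Real.exp (-2 * l) := by
      rw [norm_dt, ← Real.exp_add, Real.exp_le_exp]
      have e : (X + w + b / 2 : ℂ).im = w.im + b.im / 2 := by simp
      rw [e]
      have a : (w.im + b.im / 2 + 3 / 2) ^ 2 ≤ (|w.im| + ‖b‖ + 3) ^ 2 :=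
        sq_le_sq' (by linarith [y1.1, y2.1]) (by linarith [y1.2, y2.2])
      nlinarith [sq_nonneg (l - 4 * (w.im + b.im / 2 + 3 / 2))]
    refine (norm_sub_le _ _).trans ((add_le_add t1 t2).trans ?_)
    calc _ = (360 / c + 1) * Real.exp (-|X|) * Real.exp (-2 * l) := by ring
      _ ≤ (360 / c + 1) * (S / |X| * Qb (X + w + b / 2)) * Real.exp (-2 * l) := by gcongr
      _ = (360 / c + 1) * S / |X| * Qb (X + w + b / 2) * Real.exp (-2 * l) := by ring
      _ ≤ _ := by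
          gcongr
          linarith

end Pool.Agent.H6.KK
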