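import Mathlib
import Pool.Agent.H6.KK5

namespace Pool.Agent.H6.KK

open Complex Metric Filter Topology MeasureTheory Finset

/-- `n ^ (-i t)`. -/
noncomputable def fr (n : ℕ) (t : ℝ) : ℂ := exp (-(I * t * (Real.log n : ℝ)))

lemma fr_cont (n : ℕ) : Continuous (fr n) := by unfold fr; fun_prop

lemma norm_fr (n : ℕ) (t : ℝ) : ‖fr n t‖ = 1 := by
  rw [fr, norm_exp]
  generalize Real.log n = l
  simp

lemma fr_mul {m n : ℕ} (hm : 1 ≤ m) (hn : 1 ≤ n) (t : ℝ) : fr (m * n) t = fr m t * fr n t := by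
  unfold fr
  rw [← exp_add, Nat.cast_mul, Real.log_mul (by positivity) (by positivity)]
  congr 1; push_cast; ring

lemma osc (d a b : ℝ) (hd : d ≠ 0) : ‖∫ t in a..b, exp (I * d * t)‖ ≤ 2 / |d| := by
  have h : (I * d : ℂ) ≠ 0 := mul_ne_zero I_ne_zero (by exact_mod_cast hd)
  rw [integral_exp_mul_complex h, norm_div]
  have e : ‖(I * d : ℂ)‖ = |d| := by simp
  rw [e]
  refine div_le_div_of_nonneg_right ((norm_sub_le _ _).trans ?_) (abs_nonneg _)
  rw [norm_exp, norm_exp]; simp; norm_num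

lemma log_gap {p q : ℕ} {Q : ℝ} (hp : 1 ≤ p) (hq : (q : ℝ) ≤ Q) (h : p < q) :
    1 / Q ≤ Real.log q - Real.log p := by
  have p0 : (0 : ℝ) < p := by positivity
  have h1 : (p : ℝ) + 1 ≤ q := by exact_mod_cast h
  have q0 : (0 : ℝ) < q := by linarith
  have := Real.log_le_sub_one_of_pos (div_pos p0 q0)
  rw [Real.log_div p0.ne' q0.ne'] at this
  have h2 : 1 / Q ≤ 1 / q := one_div_le_one_div_of_le q0 hq
  have h3 : 1 / (q : ℝ) ≤ 1 - p / q := by
    rw [div_le_iff₀ q0, sub_mul, div_mul_cancel₀ _ q0.ne']; linarith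
  linarith

lemma pair (p q : ℕ) {Q : ℝ} (hp : 1 ≤ p) (hq : 1 ≤ q) (hpQ : (p : ℝ) ≤ Q) (hqQ : (q : ℝ) ≤ Q)
    (a U : ℝ) : ‖(∫ t in a..a + U, fr p t * (starRingEnd ℂ) (fr q t)) -
      U * (if p = q then 1 else 0)‖ ≤ 2 * Q := by
  have Q0 : 0 < Q := lt_of_lt_of_le (by positivity) hpQ
  have e : ∀ t : ℝ, fr p t * (starRingEnd ℂ) (fr q t) =
      exp (I * (Real.log q - Real.log p : ℝ) * t) := by
    intro t
    unfold fr
    rw [← exp_conj, ← exp_add]
    congr 1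
    simp only [map_neg, map_mul, conj_I, conj_ofReal]
    push_cast; ring
  simp only [e]
  split_ifs with h
  · subst h; simp; positivity
  · have g : 1 / Q ≤ |Real.log q - Real.log p| := by
      rcases lt_or_gt_of_ne h with h | h
      · exact (log_gap hp hqQ h).trans (le_abs_self _)
      · rw [abs_sub_comm]; exact (log_gap hq hpQ h).trans (le_abs_self _)
    have g0 : 0 < |Real.log q - Real.log p| := lt_of_lt_of_le (by positivity) g
    rw [mul_zero, sub_zero]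
    refine (osc _ _ _ (abs_pos.mp g0)).trans ?_
    rw [div_le_iff₀ g0]
    rw [div_le_iff₀ Q0] at g
    nlinarith

/-- A Dirichlet polynomial. -/
noncomputable def dp {ι : Type} (s : Finset ι) (α : ι → ℂ) (p : ι → ℕ) (t : ℝ) : ℂ :=
  ∑ i ∈ s, α i * fr (p i) t

lemma dp_cont {ι : Type} (s : Finset ι) (α : ι → ℂ) (p : ι → ℕ) : Continuous (dp s α p) :=
  continuous_finsetSum _ fun _ _ => continuous_const.mul (fr_cont _)

lemma mv {ι κ : Type} (s : Finset ι) (s' : Finset κ) (α : ι → ℂ) (β : κ → ℂ) (p : ι → ℕ)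
    (q : κ → ℕ) {Q : ℝ} (hp : ∀ i ∈ s, 1 ≤ p i ∧ (p i : ℝ) ≤ Q)
    (hq : ∀ j ∈ s', 1 ≤ q j ∧ (q j : ℝ) ≤ Q) (a U : ℝ) :
    ‖(∫ t in a..a + U, dp s α p t * (starRingEnd ℂ) (dp s' β q t)) -
      U * ∑ i ∈ s, ∑ j ∈ s', if p i = q j then α i * (starRingEnd ℂ) (β j) else 0‖ ≤
      2 * Q * ((∑ i ∈ s, ‖α i‖) * ∑ j ∈ s', ‖β j‖) := by
  have ci : ∀ i j, Continuous fun t => α i * (starRingEnd ℂ) (β j) *
      (fr (p i) t * (starRingEnd ℂ) (fr (q j) t)) :=
    fun i j => continuous_const.mul ((fr_cont _).mul (continuous_conj.comp (fr_cont _)))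
  have cj : ∀ i, Continuous fun t => ∑ j ∈ s', α i * (starRingEnd ℂ) (β j) *
      (fr (p i) t * (starRingEnd ℂ) (fr (q j) t)) :=
    fun i => continuous_finsetSum _ fun j _ => ci i j
  have e : ∀ t, dp s α p t * (starRingEnd ℂ) (dp s' β q t) = ∑ i ∈ s, ∑ j ∈ s',
      α i * (starRingEnd ℂ) (β j) * (fr (p i) t * (starRingEnd ℂ) (fr (q j) t)) := by
    intro t
    simp only [dp, map_sum, map_mul, sum_mul_sum]
    exact sum_congr rfl fun i _ => sum_congr rfl fun j _ => by ring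
  simp only [e]
  rw [intervalIntegral.integral_finsetSum fun i _ => (cj i).intervalIntegrable _ _,
    mul_sum, ← sum_sub_distrib, sum_mul_sum, mul_sum]
  refine norm_sum_le_of_le _ fun i hi => ?_
  rw [intervalIntegral.integral_finsetSum fun j _ => (ci i j).intervalIntegrable _ _, mul_sum, ← sum_sub_distrib, mul_sum]
  refine norm_sum_le_of_le _ fun j hj => ?_
  have := pair (p i) (q j) (hp i hi).1 (hq j hj).1 (hp i hi).2 (hq j hj).2 a U
  rw [intervalIntegral.integral_const_mul]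
  have e2 : α i * (starRingEnd ℂ) (β j) *
      (∫ t in a..a + U, fr (p i) t * (starRingEnd ℂ) (fr (q j) t)) -
      U * (if p i = q j then α i * (starRingEnd ℂ) (β j) else 0) = α i * (starRingEnd ℂ) (β j) *
      ((∫ t in a..a + U, fr (p i) t * (starRingEnd ℂ) (fr (q j) t)) -
        U * (if p i = q j then 1 else 0)) := by
    split_ifs <;> ring
  rw [e2, norm_mul, norm_mul, RCLike.norm_conj, mul_comm]
  exact mul_le_mul_of_nonneg_right this (by positivity)

lemma mv2 {ι : Type} (s : Finset ι) (α : ι → ℂ) (p : ι → ℕ) {Q : ℝ}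
    (hp : ∀ i ∈ s, 1 ≤ p i ∧ (p i : ℝ) ≤ Q) (a U : ℝ) (hU : 0 ≤ U) :
    ∫ t in a..a + U, ‖dp s α p t‖ ^ 2 ≤
      U * ‖∑ i ∈ s, ∑ j ∈ s, if p i = p j then α i * (starRingEnd ℂ) (α j) else 0‖ +
      2 * Q * (∑ i ∈ s, ‖α i‖) ^ 2 := by
  have h := mv s s α α p p hp hp a U
  have e : ∀ t, dp s α p t * (starRingEnd ℂ) (dp s α p t) = ((‖dp s α p t‖ ^ 2 : ℝ) : ℂ) := by
    intro t; rw [mul_conj, normSq_eq_norm_sq]
  simp only [e] at h
  rw [intervalIntegral.integral_ofReal] at h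
  have h2 := norm_sub_norm_le ((∫ t in a..a + U, ‖dp s α p t‖ ^ 2 : ℝ) : ℂ)
    (U * ∑ i ∈ s, ∑ j ∈ s, if p i = p j then α i * (starRingEnd ℂ) (α j) else 0)
  rw [norm_mul, norm_real, norm_real, Real.norm_of_nonneg hU] at h2
  have h3 := Real.le_norm_self (∫ t in a..a + U, ‖dp s α p t‖ ^ 2)
  rw [pow_two (∑ i ∈ s, ‖α i‖)]
  linarith

lemma cnt_dvd (n0 M d : ℕ) :
    (#{n ∈ Ioc n0 (n0 + M) | d ∣ n} : ℝ) ≤ M / d + 1 := by
  have h1 := Nat.Ioc_filter_dvd_card_eq_div (n0 + M) d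
  have h2 := Nat.Ioc_filter_dvd_card_eq_div n0 d
  have h3 : #{n ∈ Ioc 0 (n0 + M) | d ∣ n} =
      #{n ∈ Ioc 0 n0 | d ∣ n} + #{n ∈ Ioc n0 (n0 + M) | d ∣ n} := by
    rw [← card_union_of_disjoint (disjoint_filter_filter (by
      rw [disjoint_left]; intro x; simp only [mem_Ioc]; omega)), ← filter_union,
      Ioc_union_Ioc_eq_Ioc (by omega) (by omega)]
  have h4 : (n0 + M) / d ≤ n0 / d + M / d + 1 := Nat.add_div_le_div_add_div_add_one _ _ _
  have h5 : #{n ∈ Ioc n0 (n0 + M) | d ∣ n} ≤ M / d + 1 := by omega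
  have h6 : ((M / d : ℕ) : ℝ) ≤ M / d := Nat.cast_div_le
  have h7 : (#{n ∈ Ioc n0 (n0 + M) | d ∣ n} : ℝ) ≤ (M / d : ℕ) + 1 := by exact_mod_cast h5
  linarith

lemma en_fix (n0 M : ℕ) (hn : 1 ≤ n0) {a c : ℕ} (hc : c ∈ Ioc n0 (n0 + M)) :
    ∑ b ∈ Ioc n0 (n0 + M), ∑ d ∈ Ioc n0 (n0 + M), (if a * b = c * d then 1 else 0 : ℝ) ≤
      M / n0 * (Nat.gcd a c : ℝ) + 1 := by
  have c1 := (mem_Ioc.mp hc).1
  have g0 : 0 < Nat.gcd a c := Nat.gcd_pos_of_pos_right _ (by omega)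
  obtain ⟨r, hr⟩ := Nat.gcd_dvd_left a c
  obtain ⟨s, hs⟩ := Nat.gcd_dvd_right a c
  have co : Nat.Coprime s r := by
    have := Nat.coprime_div_gcd_div_gcd g0
    rw [Nat.div_eq_of_eq_mul_right g0 hr, Nat.div_eq_of_eq_mul_right g0 hs] at this
    exact this.symm
  generalize Nat.gcd a c = g at *
  have s0 : 0 < s := Nat.pos_of_ne_zero fun h => by simp [h] at hs; omega
  calc _ ≤ ∑ b ∈ Ioc n0 (n0 + M), (if s ∣ b then 1 else 0 : ℝ) := by
        refine sum_le_sum fun b _ => ?_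
        rw [sum_boole]
        split_ifs with h
        · have : #{d ∈ Ioc n0 (n0 + M) | a * b = c * d} ≤ 1 := card_le_one.mpr fun x hx y hy =>
            Nat.eq_of_mul_eq_mul_left (by omega : 0 < c)
              ((mem_filter.mp hx).2.symm.trans (mem_filter.mp hy).2)
          exact_mod_cast this
        · rw [filter_eq_empty_iff.mpr fun d _ e => h ?_]
          · simp
          · refine co.dvd_of_dvd_mul_left ⟨d, Nat.eq_of_mul_eq_mul_left g0 ?_⟩
            rw [← mul_assoc, ← mul_assoc, ← hr, ← hs, e]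
    _ ≤ M / s + 1 := by rw [sum_boole]; exact cnt_dvd _ _ _
    _ ≤ _ := by
        have h1 : (n0 : ℝ) ≤ g * s := by exact_mod_cast (hs ▸ c1.le)
        have h2 : (0 : ℝ) < s := by positivity
        have h3 : (0 : ℝ) < n0 := by positivity
        rw [add_le_add_iff_right, div_mul_eq_mul_div, div_le_div_iff₀ h2 h3, mul_assoc]
        exact mul_le_mul_of_nonneg_left h1 (by positivity)

lemma gcd_sum (n0 M : ℕ) (hM : M ≤ n0) :
    ∑ a ∈ Ioc n0 (n0 + M), ∑ c ∈ Ioc n0 (n0 + M), (Nat.gcd a c : ℝ) ≤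
      M * (2 * n0) + 4 * M ^ 2 * (1 + Real.log M) := by
  have h1 : ∀ a ∈ Ioc n0 (n0 + M), ∀ c ∈ Ioc n0 (n0 + M), (Nat.gcd a c : ℝ) ≤
      (if a = c then 2 * n0 else 0 : ℝ) + ∑ g ∈ Icc 1 M,
        (g : ℝ) * ((if g ∣ a then 1 else 0) * (if g ∣ c then 1 else 0)) := by
    intro a ha c hc
    rw [mem_Ioc] at ha hc
    have nn : ∀ g ∈ Icc 1 M, (0 : ℝ) ≤
        (g : ℝ) * ((if g ∣ a then 1 else 0) * (if g ∣ c then 1 else 0)) :=
      fun g _ => by positivity
    split_ifs with h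
    · subst h
      have : (a : ℝ) ≤ 2 * n0 := by exact_mod_cast (by omega : a ≤ 2 * n0)
      rw [Nat.gcd_self]
      linarith [sum_nonneg nn]
    · have g0 : 0 < Nat.gcd a c := Nat.gcd_pos_of_pos_right _ (by omega)
      have g1 : Nat.gcd a c ≤ M := by
        rcases lt_or_gt_of_ne h with h | h
        · have := Nat.le_of_dvd (by omega)
            (Nat.dvd_sub (Nat.gcd_dvd_right a c) (Nat.gcd_dvd_left a c))
          omega
        · have := Nat.le_of_dvd (by omega)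
            (Nat.dvd_sub (Nat.gcd_dvd_left a c) (Nat.gcd_dvd_right a c))
          omega
      have := single_le_sum nn (mem_Icc.mpr ⟨g0, g1⟩)
      simpa [Nat.gcd_dvd_left, Nat.gcd_dvd_right] using this
  refine (sum_le_sum fun a ha => sum_le_sum (h1 a ha)).trans ?_
  simp only [sum_add_distrib]
  refine add_le_add (le_of_eq ?_) ?_
  · rw [sum_congr rfl fun a ha => (sum_ite_eq _ a _).trans (if_pos ha)]
    simp
  · rw [sum_congr rfl fun a _ => sum_comm, sum_comm]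
    have hh : ∑ g ∈ Icc 1 M, (g : ℝ)⁻¹ ≤ 1 + Real.log M := by
      have := harmonic_le_one_add_log M
      rw [harmonic_eq_sum_Icc] at this
      simpa using this
    refine le_trans (sum_le_sum fun g hg => ?_) ((mul_sum _ _ _).symm.trans_le
      (mul_le_mul_of_nonneg_left hh (by positivity)))
    rw [mem_Icc] at hg
    simp only [← mul_sum]
    rw [← sum_mul, sum_boole]
    have g0 : (0 : ℝ) < g := by exact_mod_cast hg.1
    have h2 : (1 : ℝ) ≤ M / g := by rw [le_div_iff₀ g0, one_mul]; exact_mod_cast hg.2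
    have h3 : (#{n ∈ Ioc n0 (n0 + M) | g ∣ n} : ℝ) ≤ 2 * (M / g) := by
      linarith [cnt_dvd n0 M g]
    refine (mul_le_mul_of_nonneg_left (mul_self_le_mul_self (by positivity) h3) g0.le).trans
      (le_of_eq ?_)
    field_simp
    ring

lemma energy (n0 M : ℕ) (hn : 1 ≤ n0) (hM : M ≤ n0) (hl : M * (1 + Real.log M) ≤ 2 * n0) :
    ∑ x ∈ Ioc n0 (n0 + M) ×ˢ Ioc n0 (n0 + M), ∑ y ∈ Ioc n0 (n0 + M) ×ˢ Ioc n0 (n0 + M),
      (if x.1 * x.2 = y.1 * y.2 then 1 else 0 : ℝ) ≤ 11 * M ^ 2 := by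
  have n0' : (0 : ℝ) < n0 := by positivity
  simp only [sum_product]
  rw [sum_congr rfl fun a _ => sum_comm]
  refine (sum_le_sum fun a _ => sum_le_sum fun c hc => en_fix n0 M hn hc).trans ?_
  simp only [sum_add_distrib, ← mul_sum]
  have h := mul_le_mul_of_nonneg_left (gcd_sum n0 M hM) (by positivity : (0 : ℝ) ≤ M / n0)
  have e : (M : ℝ) / n0 * (M * (2 * n0) + 4 * M ^ 2 * (1 + Real.log M)) =
      2 * M ^ 2 + 4 * M ^ 2 * (M * (1 + Real.log M) / n0) := by field_simp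
  have h2 : M * (1 + Real.log M) / n0 ≤ 2 := by rwa [div_le_iff₀ n0']
  simp only [sum_const, Nat.card_Ioc, add_tsub_cancel_left, nsmul_eq_mul]
  nlinarith [sq_nonneg (M : ℝ)]

/-- The window kernel. -/
noncomputable def kk (H d : ℝ) : ℂ := (1 / (2 * H) : ℝ) * ∫ u in -H..H, exp (I * d * u)

lemma avg_le {H : ℝ} (hH : 0 < H) {f : ℝ → ℂ} (h : ∀ u ∈ Set.Icc (-H) H, ‖f u‖ ≤ 1) :
    ‖((1 / (2 * H) : ℝ) : ℂ) * ∫ u in -H..H, f u‖ ≤ 1 := by
  have := intervalIntegral.norm_integral_le_of_norm_le_const (a := -H) (b := H) (C := 1) (f := f)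
    fun u hu => h u (by rw [Set.uIoc_of_le (by linarith)] at hu; exact Set.Ioc_subset_Icc_self hu)
  rw [abs_of_nonneg (by linarith)] at this
  rw [norm_mul, norm_real, Real.norm_of_nonneg (by positivity), div_mul_eq_mul_div,
    div_le_one (by positivity)]
  linarith

lemma kk_le {H : ℝ} (hH : 0 < H) (d : ℝ) : ‖kk H d‖ ≤ 1 :=
  avg_le hH fun u _ => by rw [norm_exp]; simp

lemma kk_le' {H : ℝ} (hH : 0 < H) {d : ℝ} (hd : d ≠ 0) : ‖kk H d‖ ≤ 1 / (H * |d|) := by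
  rw [kk, norm_mul, norm_real, Real.norm_of_nonneg (by positivity)]
  refine (mul_le_mul_of_nonneg_left (osc d _ _ hd) (by positivity)).trans (le_of_eq ?_)
  field_simp

lemma kk_re {H : ℝ} (hH : 0 < H) {d : ℝ} (hd : |d| * H ≤ 1) : 1 / 2 ≤ (kk H d).re := by
  have c : Continuous fun u : ℝ => exp (I * d * u) := by fun_prop
  have h1 := intervalIntegral.intervalIntegral_re (𝕜 := ℂ) (μ := volume)
    (c.intervalIntegrable (-H) H)
  have h2 : ∫ _ in -H..H, (1 / 2 : ℝ) ≤ ∫ u in -H..H, RCLike.re (exp (I * d * u)) := by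
    refine intervalIntegral.integral_mono_on (by linarith) (by simp)
      ((RCLike.continuous_re.comp c).intervalIntegrable _ _) fun u hu => ?_
    have e : RCLike.re (exp (I * d * u)) = Real.cos (d * u) := by
      rw [← exp_ofReal_mul_I_re]; simp only [RCLike.re_to_complex]; congr 2; push_cast; ring
    have h3 : |d * u| ≤ 1 := by
      rw [abs_mul]
      exact (mul_le_mul_of_nonneg_left (abs_le.mpr hu) (abs_nonneg _)).trans hd
    have h4 : (d * u) ^ 2 ≤ 1 := by rwa [sq_le_one_iff_abs_le_one]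
    rw [e]
    linarith [Real.one_sub_sq_div_two_le_cos (x := d * u)]
  rw [h1] at h2
  rw [kk, re_ofReal_mul, div_mul_eq_mul_div, le_div_iff₀ (by positivity)]
  simp only [intervalIntegral.integral_const, smul_eq_mul, RCLike.re_to_complex] at h2
  linarith

/-- Normalised coefficients. -/
noncomputable def ee (n0 n : ℕ) : ℝ := Real.exp (-(Real.log n - Real.log n0) ^ 2 / 4)

noncomputable def Pn (n0 : ℕ) : ℝ → ℂ := dp (Ioc 0 (n0 ^ 2)) (fun n => ee n0 n) id

noncomputable def cc (n0 n : ℕ) : ℂ := ee n0 n * kk (Real.log n0) (Real.log n0 - Real.log n)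

noncomputable def An (n0 : ℕ) : ℝ → ℂ := dp (Ioc 0 (n0 ^ 2)) (cc n0) id

lemma An_le {n0 : ℕ} (h0 : 0 < Real.log n0) {t : ℝ}
    (h : ∀ u ∈ Set.Icc (t - Real.log n0) (t + Real.log n0), ‖Pn n0 u‖ ≤ 1) : ‖An n0 t‖ ≤ 1 := by
  have e : An n0 t = ((1 / (2 * Real.log n0) : ℝ) : ℂ) * ∫ u in -Real.log n0..Real.log n0,
      Pn n0 (t + u) * exp (I * Real.log n0 * u) := by
    have c : ∀ n : ℕ, Continuous fun u : ℝ => (ee n0 n : ℂ) * fr n t *
      exp (I * (Real.log n0 - Real.log n : ℝ) * u) := fun n => by fun_prop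
    have e2 : ∀ u : ℝ, Pn n0 (t + u) * exp (I * Real.log n0 * u) = ∑ n ∈ Ioc 0 (n0 ^ 2),
        (ee n0 n : ℂ) * fr n t * exp (I * (Real.log n0 - Real.log n : ℝ) * u) := by
      intro u
      simp only [Pn, dp, sum_mul, id]
      refine sum_congr rfl fun n _ => ?_
      rw [mul_assoc, mul_assoc (ee n0 n : ℂ), fr, fr, ← exp_add, ← exp_add]
      congr 2
      generalize Real.log n = l
      generalize Real.log n0 = l0
      push_cast; ring
    simp only [e2]
    rw [intervalIntegral.integral_finsetSum fun n _ => (c n).intervalIntegrable _ _, mul_sum,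
      An, dp]
    refine sum_congr rfl fun n _ => ?_
    rw [intervalIntegral.integral_const_mul, cc, kk, id]
    ring
  rw [e]
  refine avg_le h0 fun u hu => ?_
  have e3 : ‖exp (I * Real.log n0 * u)‖ = 1 := by
    rw [norm_exp]; generalize Real.log n0 = l; simp
  rw [norm_mul, e3, mul_one]
  exact h _ ⟨by linarith [hu.1], by linarith [hu.2]⟩

lemma ee_le (n0 n : ℕ) : ee n0 n ≤ 1 :=
  Real.exp_le_one_iff.mpr (by nlinarith [sq_nonneg (Real.log n - Real.log n0)])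

lemma ee_pos (n0 n : ℕ) : 0 < ee n0 n := Real.exp_pos _

lemma cc_le {n0 : ℕ} (h0 : 0 < Real.log n0) (n : ℕ) : ‖cc n0 n‖ ≤ 1 := by
  rw [cc, norm_mul, norm_real, Real.norm_of_nonneg (ee_pos _ _).le]
  exact mul_le_one₀ (ee_le _ _) (norm_nonneg _) (kk_le h0 _)

lemma exp_sub_one (d : ℝ) : |Real.exp d - 1| ≤ |d| * Real.exp |d| := by
  have h1 := Real.add_one_le_exp d
  have h2 := Real.add_one_le_exp (-d)
  have h3 : Real.exp d * Real.exp (-d) = 1 := by rw [← Real.exp_add]; simp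
  have h4 := Real.exp_pos d
  rcases le_total 0 d with h | h
  · rw [abs_of_nonneg h, abs_of_nonneg (by linarith)]
    nlinarith
  · have := Real.exp_le_one_iff.mpr h
    rw [abs_of_nonpos h, abs_of_nonpos (by linarith)]
    nlinarith

lemma cc_le' {n0 n M : ℕ} (h0 : 0 < Real.log n0) (hn : 1 ≤ n) (hne : n ≠ n0)
    (hM : n0 ≤ 2 * M * Real.log n0) : ‖cc n0 n‖ ^ 2 ≤ 36 * M ^ 2 / ((n : ℝ) - n0) ^ 2 := by
  have p0 : (0 : ℝ) < n0 := by
    rcases Nat.eq_zero_or_pos n0 with h | h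
    · simp [h] at h0
    · positivity
  have p1 : (0 : ℝ) < n := by positivity
  set d := Real.log n - Real.log n0 with hd
  have e : (n : ℝ) - n0 = n0 * (Real.exp d - 1) := by
    rw [hd, Real.exp_sub, Real.exp_log p0, Real.exp_log p1]; field_simp
  have ne : (n : ℝ) - n0 ≠ 0 := sub_ne_zero.mpr (by exact_mod_cast hne)
  have d0 : d ≠ 0 := fun h => ne (by rw [e, h]; simp)
  have a0 := abs_pos.mpr d0
  have h1 : ‖cc n0 n‖ ≤ Real.exp (-d ^ 2 / 4) * (1 / (Real.log n0 * |d|)) := by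
    rw [cc, norm_mul, norm_real, Real.norm_of_nonneg (ee_pos _ _).le, abs_sub_comm]
    exact mul_le_mul_of_nonneg_left (kk_le' h0 (by rwa [← neg_sub, neg_ne_zero])) (ee_pos _ _).le
  have h2 : |(n : ℝ) - n0| ≤ n0 * (|d| * Real.exp |d|) := by
    rw [e, abs_mul, abs_of_pos p0]
    exact mul_le_mul_of_nonneg_left (exp_sub_one d) p0.le
  have h3 : Real.exp (-d ^ 2 / 4) * Real.exp |d| ≤ 3 := by
    rw [← Real.exp_add]
    refine (Real.exp_le_exp.mpr ?_).trans (Real.exp_one_lt_three.le)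
    nlinarith [sq_abs d, sq_nonneg (|d| / 2 - 1)]
  have h4 : ‖cc n0 n‖ * |(n : ℝ) - n0| ≤ 6 * M := by
    refine (mul_le_mul h1 h2 (abs_nonneg _) (by positivity)).trans ?_
    have e2 : Real.exp (-d ^ 2 / 4) * (1 / (Real.log n0 * |d|)) * (n0 * (|d| * Real.exp |d|)) =
        Real.exp (-d ^ 2 / 4) * Real.exp |d| * (n0 / Real.log n0) := by field_simp
    have h5 : n0 / Real.log n0 ≤ 2 * M := by rwa [div_le_iff₀ h0]
    rw [e2]
    refine (mul_le_mul h3 h5 (by positivity) (by norm_num)).trans (le_of_eq (by ring))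
  rw [le_div_iff₀ (by positivity), ← sq_abs ((n : ℝ) - n0), ← mul_pow]
  refine (pow_le_pow_left₀ (by positivity) h4 2).trans (le_of_eq (by ring))

lemma inv_sq_sum (s : Finset ℕ) (φ : ℕ → ℕ) (hφ : Set.InjOn φ s) {M : ℕ} (hM : 1 ≤ M)
    (h : ∀ n ∈ s, M < φ n) : ∑ n ∈ s, ((φ n : ℝ) ^ 2)⁻¹ ≤ (M : ℝ)⁻¹ := by
  rw [← sum_image (f := fun k : ℕ => ((k : ℝ) ^ 2)⁻¹) hφ]
  have h1 := sum_Ioc_inv_sq_le_sub (α := ℝ) (k := M) (n := M + s.sup φ) (by omega) (by omega)
  have h2 : s.image φ ⊆ Ioc M (M + s.sup φ) := by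
    intro k hk
    obtain ⟨n, hn, rfl⟩ := mem_image.mp hk
    have := le_sup (f := φ) hn
    exact mem_Ioc.mpr ⟨h n hn, by omega⟩
  refine (sum_le_sum_of_subset_of_nonneg h2 fun _ _ _ => by positivity).trans (h1.trans ?_)
  exact sub_le_self _ (by positivity)

lemma cc_sum {n0 M : ℕ} (h0 : 0 < Real.log n0) (hM1 : 1 ≤ M) (hM : n0 ≤ 2 * M * Real.log n0)
    (N : ℕ) : ∑ n ∈ Ioc 0 N, ‖cc n0 n‖ ^ 2 ≤ 75 * M := by
  have M0 : (1 : ℝ) ≤ M := by exact_mod_cast hM1
  rw [← sum_filter_add_sum_filter_not _ (fun n => n0 + M < n),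
    ← sum_filter_add_sum_filter_not (filter (fun n => ¬ n0 + M < n) _) (fun n => n + M < n0)]
  have k : ∀ (s : Finset ℕ) (φ : ℕ → ℕ), Set.InjOn φ s → (∀ n ∈ s, M < φ n ∧ 1 ≤ n ∧ n ≠ n0 ∧
      ((n : ℝ) - n0) ^ 2 = (φ n : ℝ) ^ 2) → ∑ n ∈ s, ‖cc n0 n‖ ^ 2 ≤ 36 * M := by
    intro s φ hφ h
    have := mul_le_mul_of_nonneg_left (inv_sq_sum s φ hφ hM1 fun n hn => (h n hn).1)
      (by positivity : (0 : ℝ) ≤ 36 * M ^ 2)
    rw [mul_sum] at this
    refine (sum_le_sum fun n hn => ?_).trans (this.trans (le_of_eq (by field_simp)))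
    obtain ⟨-, a, b, c⟩ := h n hn
    rw [← c, ← div_eq_mul_inv]
    exact cc_le' h0 a b hM
  have h1 := k (filter (fun n => n0 + M < n) (Ioc 0 N)) (fun n => n - n0)
    (fun x hx y hy e => by
      simp only [coe_filter, Set.mem_ofPred_eq] at hx hy e; omega)
    fun n hn => by
      have := (mem_filter.mp hn).2
      refine ⟨by omega, by omega, by omega, ?_⟩
      rw [Nat.cast_sub (by omega)]
  have h2 := k (filter (fun n => n + M < n0) (filter (fun n => ¬ n0 + M < n) (Ioc 0 N)))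
    (fun n => n0 - n)
    (fun x hx y hy e => by
      simp only [coe_filter, Set.mem_ofPred_eq] at hx hy e; omega)
    fun n hn => by
      have := (mem_filter.mp hn).2
      have := (mem_Ioc.mp (mem_filter.mp (mem_filter.mp hn).1).1).1
      refine ⟨by omega, by omega, by omega, ?_⟩
      rw [Nat.cast_sub (by omega)]; ring
  have h3 : ∑ n ∈ filter (fun n => ¬ n + M < n0) (filter (fun n => ¬ n0 + M < n) (Ioc 0 N)),
      ‖cc n0 n‖ ^ 2 ≤ 3 * M := by
    refine (sum_le_card_nsmul _ _ 1 fun n _ =>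
      pow_le_one₀ (norm_nonneg _) (cc_le h0 n)).trans ?_
    have : #(filter (fun n => ¬ n + M < n0) (filter (fun n => ¬ n0 + M < n) (Ioc 0 N))) ≤
        3 * M := by
      refine (card_le_card (t := Icc (n0 - M) (n0 + M)) fun n hn => ?_).trans ?_
      · simp only [mem_filter] at hn
        rw [mem_Icc]; omega
      · rw [Nat.card_Icc]; omega
    rw [nsmul_eq_mul, mul_one]
    exact_mod_cast this
  linarith

/-- The test polynomial. -/
noncomputable def Sn (n0 M : ℕ) : ℝ → ℂ := dp (Ioc n0 (n0 + M)) (fun _ => 1) id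

section
variable {n0 M : ℕ} {U : ℝ} (hH : 1 ≤ Real.log n0) (hM : 40000 ≤ M)
  (hM1 : M * Real.log n0 ≤ n0) (hM2 : n0 ≤ 2 * M * Real.log n0) (hU : (n0 : ℝ) ^ 7 ≤ U) (a : ℝ)
include hH hM hM1

lemma M_le : M ≤ n0 := by
  have : (M : ℝ) ≤ n0 := by nlinarith [Nat.cast_nonneg (α := ℝ) M]
  exact_mod_cast this

lemma cc_abs : ∑ n ∈ Ioc 0 (n0 ^ 2), ‖cc n0 n‖ ≤ (n0 : ℝ) ^ 2 := by
  refine (sum_le_card_nsmul _ _ 1 fun n _ => cc_le (by linarith) n).trans ?_
  simp

lemma cc_re {n : ℕ} (hn : n ∈ Ioc n0 (n0 + M)) : 3 / 8 ≤ (cc n0 n).re := by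
  have h1 := M_le hH hM hM1
  rw [mem_Ioc] at hn
  have p0 : (0 : ℝ) < n0 := by exact_mod_cast (by omega : 0 < n0)
  have p1 : (n0 : ℝ) ≤ n := by exact_mod_cast hn.1.le
  have p2 : (n : ℝ) ≤ n0 + M := by exact_mod_cast hn.2
  have d0 : 0 ≤ Real.log n - Real.log n0 := sub_nonneg.mpr (Real.log_le_log p0 p1)
  have d1 : (Real.log n - Real.log n0) * n0 ≤ M := by
    have := Real.log_le_sub_one_of_pos (div_pos (p0.trans_le p1) p0)
    rw [Real.log_div (by linarith) p0.ne', le_sub_iff_add_le, le_div_iff₀ p0] at this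
    linarith
  have d2 : (Real.log n - Real.log n0) * Real.log n0 ≤ 1 := by
    refine le_of_mul_le_mul_right ?_ p0
    nlinarith
  have d3 : Real.log n - Real.log n0 ≤ 1 := by nlinarith
  have k := kk_re (H := Real.log n0) (d := Real.log n0 - Real.log n) (by linarith)
    (by rwa [abs_sub_comm, abs_of_nonneg d0])
  have e : 3 / 4 ≤ ee n0 n := by
    have := Real.add_one_le_exp (-(Real.log n - Real.log n0) ^ 2 / 4)
    unfold ee
    nlinarith
  rw [cc, re_ofReal_mul]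
  nlinarith

include hU

lemma U_ge (k : ℕ) (hk : k ≤ 6) : 40000 * (n0 : ℝ) ^ k ≤ U := by
  have h1 := M_le hH hM hM1
  have p0 : (40000 : ℝ) ≤ n0 := by exact_mod_cast (by omega : 40000 ≤ n0)
  have := pow_le_pow_right₀ (by linarith : (1 : ℝ) ≤ n0) hk
  calc _ ≤ n0 * (n0 : ℝ) ^ 6 := mul_le_mul p0 this (by positivity) (by positivity)
    _ ≤ U := by rw [← pow_succ']; exact hU

lemma mom1 : U * M / 3 ≤ ∫ t in a..a + U, ‖An n0 t‖ * ‖Sn n0 M t‖ := by
  have h1 := M_le hH hM hM1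
  have u := U_ge hH hM hM1 hU 4 (by norm_num)
  have sq : n0 + M ≤ n0 ^ 2 := by nlinarith
  have U0 : 0 ≤ U := le_trans (by positivity) hU
  have h := mv (Ioc 0 (n0 ^ 2)) (Ioc n0 (n0 + M)) (cc n0) (fun _ => 1) id id (Q := (n0 : ℝ) ^ 2)
    (fun i hi => ⟨(mem_Ioc.mp hi).1, by exact_mod_cast (mem_Ioc.mp hi).2⟩)
    (fun i hi => ⟨by have := (mem_Ioc.mp hi).1; simp only [id]; omega,
      by exact_mod_cast (mem_Ioc.mp hi).2.trans sq⟩) a U
  rw [sum_comm] at h
  simp only [id, map_one, mul_one, norm_one, sum_const, Nat.card_Ioc, add_tsub_cancel_left,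
    nsmul_eq_mul] at h
  rw [sum_congr rfl fun j hj => (sum_ite_eq' _ j _).trans (if_pos (mem_Ioc.mpr
    ⟨by have := (mem_Ioc.mp hj).1; omega, (mem_Ioc.mp hj).2.trans sq⟩))] at h
  have h2 : 3 / 8 * M ≤ (∑ j ∈ Ioc n0 (n0 + M), cc n0 j).re := by
    rw [re_sum]
    refine le_trans ?_ (card_nsmul_le_sum _ _ _ fun j hj => cc_re hH hM hM1 hj)
    simp [mul_comm]
  have h3 := (neg_le_of_abs_le ((abs_re_le_norm _).trans h))
  rw [sub_re, re_ofReal_mul] at h3
  have h4 := (re_le_norm _).trans (intervalIntegral.norm_integral_le_integral_norm (μ := volume)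
    (f := fun t => An n0 t * (starRingEnd ℂ) (Sn n0 M t)) (by linarith : a ≤ a + U))
  simp only [norm_mul, RCLike.norm_conj] at h4
  have h5 := mul_le_mul_of_nonneg_left (mul_le_mul_of_nonneg_right (cc_abs hH hM hM1)
    (Nat.cast_nonneg (α := ℝ) M)) (by positivity : 0 ≤ 2 * (n0 : ℝ) ^ 2)
  have h6 := mul_le_mul_of_nonneg_right u (Nat.cast_nonneg (α := ℝ) M)
  have h7 := mul_le_mul_of_nonneg_left h2 U0
  have h8 : 0 ≤ U * M := by positivity
  unfold An Sn at h4 ⊢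
  nlinarith

lemma mom4 : ∫ t in a..a + U, ‖Sn n0 M t‖ ^ 4 ≤ 12 * U * M ^ 2 := by
  have h1 := M_le hH hM hM1
  have h1' : (M : ℝ) ≤ n0 := by exact_mod_cast h1
  have u := U_ge hH hM hM1 hU 4 (by norm_num)
  have U0 : 0 ≤ U := le_trans (by positivity) hU
  have e : ∀ t, ‖Sn n0 M t‖ ^ 4 = ‖dp (Ioc n0 (n0 + M) ×ˢ Ioc n0 (n0 + M)) (fun _ => 1)
      (fun x => x.1 * x.2) t‖ ^ 2 := by
    intro t
    have : dp (Ioc n0 (n0 + M) ×ˢ Ioc n0 (n0 + M)) (fun _ => 1) (fun x => x.1 * x.2) t =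
        Sn n0 M t * Sn n0 M t := by
      simp only [Sn, dp, one_mul, id, sum_mul_sum, sum_product]
      refine sum_congr rfl fun i hi => sum_congr rfl fun j hj => fr_mul ?_ ?_ t
      · have := (mem_Ioc.mp hi).1; omega
      · have := (mem_Ioc.mp hj).1; omega
    rw [this, norm_mul]; ring
  simp only [e]
  refine (mv2 _ _ _ (Q := 4 * (n0 : ℝ) ^ 2) (fun x hx => ?_) a U U0).trans ?_
  · simp only [mem_product, mem_Ioc] at hx
    refine ⟨Nat.mul_pos (by omega) (by omega), ?_⟩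
    have : x.1 * x.2 ≤ (2 * n0) * (2 * n0) := Nat.mul_le_mul (by omega) (by omega)
    exact_mod_cast this.trans (le_of_eq (by ring))
  have M0 : (0 : ℝ) < M := by exact_mod_cast (by omega : 0 < M)
  have en := energy n0 M (by omega) h1 (by nlinarith [Real.log_le_log M0 h1'])
  have h2 : ‖∑ i ∈ Ioc n0 (n0 + M) ×ˢ Ioc n0 (n0 + M), ∑ j ∈ Ioc n0 (n0 + M) ×ˢ Ioc n0 (n0 + M),
      if i.1 * i.2 = j.1 * j.2 then (1 : ℂ) * (starRingEnd ℂ) 1 else 0‖ ≤ 11 * M ^ 2 := by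
    refine (norm_sum_le_of_le _ fun i _ => norm_sum_le_of_le _ fun j _ => ?_).trans en
    split_ifs <;> simp
  have h3 := mul_le_mul_of_nonneg_left h2 U0
  simp only [norm_one, sum_const, card_product, Nat.card_Ioc, add_tsub_cancel_left, nsmul_eq_mul,
    mul_one, Nat.cast_mul] at h3 ⊢
  have h4 : (M : ℝ) ^ 2 ≤ n0 ^ 2 := pow_le_pow_left₀ M0.le h1' 2
  have h5 : 8 * (n0 : ℝ) ^ 2 * M ^ 2 ≤ U := by nlinarith [sq_nonneg (n0 : ℝ), sq_nonneg ((n0 : ℝ) ^ 2)]
  nlinarith [mul_le_mul_of_nonneg_right h5 (sq_nonneg (M : ℝ))]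

include hM2

lemma mom2 : ∫ t in a..a + U, ‖An n0 t‖ ^ 2 ≤ 76 * U * M := by
  have u := U_ge hH hM hM1 hU 6 (by norm_num)
  have U0 : 0 ≤ U := le_trans (by positivity) hU
  have M0 : (1 : ℝ) ≤ M := by exact_mod_cast (by omega : 1 ≤ M)
  refine (mv2 _ _ _ (Q := (n0 : ℝ) ^ 2)
    (fun i hi => ⟨(mem_Ioc.mp hi).1, by exact_mod_cast (mem_Ioc.mp hi).2⟩) a U U0).trans ?_
  simp only [id]
  rw [sum_congr rfl fun j hj => (sum_ite_eq _ j _).trans (if_pos hj)]
  have h2 : ‖∑ i ∈ Ioc 0 (n0 ^ 2), cc n0 i * (starRingEnd ℂ) (cc n0 i)‖ ≤ 75 * M := by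
    refine (norm_sum_le_of_le _ fun i _ => ?_).trans
      (cc_sum (by linarith) (by omega) hM2 (n0 ^ 2))
    rw [norm_mul, RCLike.norm_conj, pow_two]
  have h3 := mul_le_mul_of_nonneg_left h2 U0
  have h4 := mul_le_mul_of_nonneg_left (pow_le_pow_left₀ (sum_nonneg fun _ _ => norm_nonneg _)
    (cc_abs hH hM hM1) 2) (by positivity : 0 ≤ 2 * (n0 : ℝ) ^ 2)
  have h5 : U ≤ U * M := le_mul_of_one_le_right U0 M0
  have h6 : 0 ≤ (n0 : ℝ) ^ 6 := by positivity
  nlinarith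

end

open Classical in
lemma goodcount {n0 K : ℕ} {h : ℝ} (hH : 1 ≤ Real.log n0) (hn : 40001 * Real.log n0 ≤ n0)
    (h0 : 0 < h) (hU : (n0 : ℝ) ^ 7 ≤ K * h) (a : ℝ) :
    (K : ℝ) / 10 ^ 7 ≤ #(filter (fun j : ℕ => ∃ t ∈ Set.Icc (a + j * h - Real.log n0)
      (a + (j + 1) * h + Real.log n0), 1 ≤ ‖Pn n0 t‖) (range K)) := by
  have l0 : 0 < Real.log n0 := by linarith
  set M := ⌊n0 / Real.log n0⌋₊
  have f1 : (M : ℝ) ≤ n0 / Real.log n0 := Nat.floor_le (by positivity)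
  have f2 : n0 / Real.log n0 < M + 1 := Nat.lt_floor_add_one _
  have f3 : 40001 ≤ n0 / Real.log n0 := by rwa [le_div_iff₀ l0]
  have M0 : (40000 : ℝ) ≤ M := by linarith
  have hM : 40000 ≤ M := by exact_mod_cast M0
  have hM1 : M * Real.log n0 ≤ n0 := by rwa [← le_div_iff₀ l0]
  have hM2 : n0 ≤ 2 * M * Real.log n0 := by rw [← div_le_iff₀ l0]; linarith
  have m1 := mom1 hH hM hM1 hU a
  have m2 := mom2 hH hM hM1 hM2 hU a
  have m4 := mom4 hH hM hM1 hU a
  have cA : Continuous fun t => ‖An n0 t‖ := (dp_cont _ _ _).norm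
  have cS : Continuous fun t => ‖Sn n0 M t‖ := (dp_cont _ _ _).norm
  set g : ℝ → ℝ := fun t => ‖An n0 t‖ * ‖Sn n0 M t‖ - M / 100 - ‖An n0 t‖ ^ 2 / 760 -
    ‖Sn n0 M t‖ ^ 4 / (120 * M) with hg
  have cg : Continuous g := by rw [hg]; fun_prop
  have e1 := intervalIntegral.sum_integral_adjacent_intervals (f := g) (μ := volume)
    (a := fun j : ℕ => a + j * h) (n := K) fun _ _ => cg.intervalIntegrable _ _
  simp only [Nat.cast_zero, zero_mul, add_zero, Nat.cast_add, Nat.cast_one] at e1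
  have e2 : ∫ t in a..a + K * h, g t = (∫ t in a..a + K * h, ‖An n0 t‖ * ‖Sn n0 M t‖) -
      K * h * (M / 100) - (∫ t in a..a + K * h, ‖An n0 t‖ ^ 2) / 760 -
      (∫ t in a..a + K * h, ‖Sn n0 M t‖ ^ 4) / (120 * M) := by
    simp only [hg]
    rw [intervalIntegral.integral_sub, intervalIntegral.integral_sub,
      intervalIntegral.integral_sub, intervalIntegral.integral_div, intervalIntegral.integral_div]
    · simp; ring
    all_goals exact Continuous.intervalIntegrable (by fun_prop) _ _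
  have e3 : (∫ t in a..a + K * h, ‖Sn n0 M t‖ ^ 4) / (120 * M) ≤ K * h * M / 10 := by
    rw [div_le_iff₀ (by positivity)]; linarith
  have e4 : ∀ j ∈ range K, ∫ t in a + j * h..a + (j + 1) * h, g t ≤
      1083000 * M * h * if ∃ t ∈ Set.Icc (a + j * h - Real.log n0)
        (a + (j + 1) * h + Real.log n0), 1 ≤ ‖Pn n0 t‖ then 1 else 0 := by
    intro j _
    refine (intervalIntegral.integral_mono_on (g := fun _ => 1083000 * M * if ∃ t ∈
      Set.Icc (a + j * h - Real.log n0) (a + (j + 1) * h + Real.log n0), 1 ≤ ‖Pn n0 t‖ then 1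
      else 0) (by linarith) (cg.intervalIntegrable _ _) (by simp) fun t ht => ?_).trans
      (le_of_eq (by simp only [intervalIntegral.integral_const, smul_eq_mul]; ring))
    simp only [hg]
    have x0 := norm_nonneg (Sn n0 M t)
    generalize ‖Sn n0 M t‖ = x at *
    split_ifs with hb
    · have : 190 * x ^ 2 - 1083000 * M ≤ x ^ 4 / (120 * M) := by
        rw [le_div_iff₀ (by positivity)]; nlinarith [sq_nonneg (x ^ 2 - 11400 * M)]
      nlinarith [sq_nonneg (‖An n0 t‖ - 380 * x)]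
    · push Not at hb
      have hA := An_le l0 (t := t) fun u hu =>
        (hb u ⟨by linarith [hu.1, ht.1], by linarith [hu.2, ht.2]⟩).le
      have : x - M / 100 ≤ x ^ 4 / (120 * M) := by
        rcases le_total x (M / 100) with h1 | h1
        · exact (sub_nonpos.mpr h1).trans (by positivity)
        · rw [le_div_iff₀ (by positivity)]
          have h2 := pow_le_pow_left₀ (by positivity) h1 3
          have h3 : 120 * (M : ℝ) ≤ (M / 100) ^ 3 := by nlinarith [mul_le_mul M0 M0 (by norm_num) (by positivity)]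
          nlinarith [mul_le_mul_of_nonneg_left (h3.trans h2) x0]
      nlinarith [mul_le_mul_of_nonneg_right hA x0, sq_nonneg ‖An n0 t‖]
  have e5 := sum_le_sum e4
  rw [e1, ← mul_sum, sum_boole, e2] at e5
  refine le_of_mul_le_mul_left ?_ (by positivity : 0 < 1083000 * M * h)
  have : 0 ≤ K * h * M := by positivity
  linarith

lemma D_big {n0 : ℕ} (hH : 24 ≤ Real.log n0) {s : ℂ} (hs : s.im = 1 / 2 + Real.log n0 / 2)
    (hP : 1 ≤ ‖Pn n0 s.re‖) : Real.exp (Real.log n0 ^ 2 / 4) / 2 ≤ ‖Dser s‖ := by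
  have e : ∀ n : ℕ, dt s (lg n) =
      (Real.exp (Real.log n0 ^ 2 / 4) : ℝ) * (ee n0 (n + 1) * fr (n + 1) s.re) := by
    intro n
    rw [dt, ee, fr, ofReal_exp, ofReal_exp, ← exp_add, ← exp_add, Nat.cast_succ, ← lg]
    congr 1
    nth_rewrite 1 [← re_add_im s]
    rw [hs]
    generalize Real.log n0 = l
    push_cast
    linear_combination (-(lg n : ℂ) * (1 / 2 + l / 2)) * I_mul_I
  have e1 : ∑ n ∈ range (n0 ^ 2), dt s (lg n) =
      (Real.exp (Real.log n0 ^ 2 / 4) : ℝ) * Pn n0 s.re := by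
    simp only [e, ← mul_sum, Pn, dp, id]
    rw [range_eq_Ico, sum_Ico_add' (fun n => (ee n0 n : ℂ) * fr n s.re), Ico_add_one_add_one_eq_Ioc]
  have e2 := (dt_summable s).sum_add_tsum_nat_add (n0 ^ 2)
  have e3 : ‖∑' n, dt s (lg (n + n0 ^ 2))‖ ≤ 2 * (Real.exp (Real.log n0 ^ 2 / 4) / 4) := by
    refine tsum_le_of_lg (by positivity) fun n => ?_
    have p0 : (0 : ℝ) < n0 := by
      rcases Nat.eq_zero_or_pos n0 with h | h
      · simp [h] at hH; linarith
      · positivity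
    have h1 : 2 * Real.log n0 ≤ lg (n + n0 ^ 2) := by
      have := Real.log_pow (n0 : ℝ) 2
      rw [Nat.cast_ofNat] at this
      rw [← this]
      exact Real.log_le_log (by positivity) (by push_cast; linarith [Nat.cast_nonneg (α := ℝ) n])
    have h2 : lg n ≤ lg (n + n0 ^ 2) :=
      Real.log_le_log (by positivity) (by push_cast; linarith [sq_nonneg (n0 : ℝ)])
    have h3 := Real.add_one_le_exp 3
    have h4 : Real.exp (Real.log n0 ^ 2 / 4 + -2 * lg n + -3) * 4 ≤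
        Real.exp (Real.log n0 ^ 2 / 4 + -2 * lg n + -3) * Real.exp 3 :=
      mul_le_mul_of_nonneg_left (by linarith) (by positivity)
    rw [← Real.exp_add, neg_add_cancel_right, Real.exp_add _ (-2 * lg n)] at h4
    have h5 : ‖dt s (lg (n + n0 ^ 2))‖ ≤ Real.exp (Real.log n0 ^ 2 / 4 + -2 * lg n + -3) := by
      rw [norm_dt, hs, Real.exp_le_exp]
      generalize lg (n + n0 ^ 2) = l at *
      have h6 : l / 2 ≤ l - Real.log n0 := by linarith
      nlinarith [mul_le_mul h6 h6 (by linarith) (by linarith)]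
    linarith
  have e4 := norm_sub_le (Dser s) (∑' n, dt s (lg (n + n0 ^ 2)))
  rw [Dser, ← e2, add_sub_cancel_right, e2, e1, norm_mul, norm_real,
    Real.norm_of_nonneg (by positivity)] at e4
  have := le_mul_of_one_le_right (Real.exp_pos (Real.log n0 ^ 2 / 4)).le hP
  unfold Dser
  linarith

end Pool.Agent.H6.KK
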