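import Mathlib
import Pool.Agent.H6.KK1
import Pool.Agent.H6.KK6

namespace Pool.Agent.H6.KK

open Complex Metric Filter Topology MeasureTheory Finset

lemma big (C : ℝ) : ∀ᶠ L : ℝ in atTop, C * L ^ 2 ≤ Real.exp (L / 20) := by
  filter_upwards [eventually_ge_atTop (48000 * C), eventually_ge_atTop 0] with L h1 h2
  have := Real.pow_div_factorial_le_exp (L / 20) (by positivity) 3
  norm_num [Nat.factorial] at this
  nlinarith [mul_le_mul_of_nonneg_right h1 (sq_nonneg L)]

lemma loc : ∀ᶠ L : ℝ in atTop, ∀ X : ℝ, L - 1 ≤ Real.log |X| → Real.log |X| ≤ L →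
    ∃ (G : ℂ → ℂ) (β : ℂ), Differentiable ℂ G ∧ |β.re| ≤ 4 ∧ |β.im - L / 4| ≤ 4 ∧
      (∀ c R, cnt G (closedBall c R) = cnt (Xi (-1 / 4)) (closedBall (-β + c) R)) ∧
      (∀ s, G s ≠ 0 → Xi (-1 / 4) (-β + s) ≠ 0) ∧
      ∀ s : ℂ, ‖s - X‖ ≤ Real.exp (2 * L / 5) → |s.im| ≤ 7 * L →
        ‖G s - Dser s‖ ≤ Real.exp (-L / 10) * Qb s := by
  obtain ⟨C, C0, hC⟩ := approx
  filter_upwards [big (C + 10000), eventually_ge_atTop 100] with L hb L0 X h1 h2
  have X0 : 0 < |X| := by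
    refine (abs_nonneg X).lt_of_ne fun h => ?_
    rw [← h, Real.log_zero] at h1; linarith
  have hX : Real.exp (L - 1) ≤ |X| := by rwa [← Real.le_log_iff_exp_le X0]
  have m : ∀ {x y : ℝ}, x ≤ y → Real.exp x ≤ Real.exp y := Real.exp_le_exp.mpr
  have L2 : 10000 ≤ L ^ 2 := by nlinarith
  have b0 : 10000 * L ^ 2 ≤ Real.exp (L / 20) := by nlinarith
  have b1 : Real.exp (L / 20) ≤ |X| := (m (by linarith)).trans hX
  obtain ⟨g00, b, hb1, hb2⟩ := hC X (by linarith)
  have r1 := (abs_re_le_norm _).trans hb1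
  have r2 := (abs_im_le_norm _).trans hb1
  have nb : ‖b‖ ≤ L := by
    have := norm_le_norm_add_norm_sub' b (I * (Real.log |X| / 2 : ℝ))
    rw [norm_mul, norm_I, one_mul, norm_real, Real.norm_of_nonneg (by linarith)] at this
    linarith
  generalize Real.log |X| = l at *
  simp only [sub_re, mul_re, I_re, ofReal_re, zero_mul, I_im, ofReal_im, mul_zero, sub_self,
    sub_zero, sub_im, mul_im, one_mul, zero_add] at r1 r2
  have dE : Differentiable ℂ fun s => En X b (-(b / 2) + s - X) := by unfold En; fun_prop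
  have E0 : ∀ s, En X b (-(b / 2) + s - X) ≠ 0 := fun s => div_ne_zero (exp_ne_zero _) g00
  refine ⟨fun s => Xi (-1 / 4) (-(b / 2) + s) * En X b (-(b / 2) + s - X), b / 2,
    (Xi_diff.comp (by fun_prop)).mul dE, ?_, ?_, cnt_shift Xi_diff dE E0 _ fun _ => rfl,
    fun s h => left_ne_zero_of_mul h, fun s s1 s2 => ?_⟩
  · rw [div_ofNat_re, abs_le]; rw [abs_le] at r1; constructor <;> linarith [r1.1, r1.2]
  · rw [div_ofNat_im, abs_le]; rw [abs_le] at r2; constructor <;> linarith [r2.1, r2.2]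
  have e1 : -(b / 2) + s - X + b / 2 = s - X := by ring
  have e2 : X + (-(b / 2) + s - X) = -(b / 2) + s := by ring
  have e3 : -(b / 2) + s + b / 2 = s := by ring
  have nw : ‖-(b / 2) + s - X‖ ≤ L + Real.exp (2 * L / 5) := by
    rw [add_sub_assoc]
    refine (norm_add_le _ _).trans (add_le_add ?_ s1)
    rw [norm_neg, norm_div]; simp only [norm_ofNat]; linarith
  have iw : |(-(b / 2) + s - X).im| ≤ 8 * L := by
    have := abs_le.mp ((abs_im_le_norm b).trans nb)
    rw [abs_le] at s2 ⊢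
    simp only [sub_im, add_im, neg_im, div_ofNat_im, ofReal_im]
    constructor <;> linarith [s2.1, s2.2, this.1, this.2]
  have p1 : 1 ≤ Real.exp (2 * L / 5) := Real.one_le_exp (by linarith)
  have h := hb2 (-(b / 2) + s - X) (Real.exp (4 * L / 5))
    (by
      rw [e1]
      refine (pow_le_pow_left₀ (norm_nonneg _) s1 2).trans (le_of_eq ?_)
      rw [pow_two, ← Real.exp_add]; congr 1; ring)
    (Real.one_le_exp (by linarith)) ((m (by linarith)).trans hX)
    (by
      have : (|(-(b / 2) + s - X).im| + ‖b‖ + 3) ^ 2 ≤ (10 * L) ^ 2 :=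
        pow_le_pow_left₀ (by positivity) (by linarith) 2
      nlinarith)
    (by
      refine (mul_le_mul nb (add_le_add nw nb) (by positivity) (by linarith)).trans ?_
      have h3 : Real.exp (L / 20) * Real.exp (2 * L / 5) ≤ |X| := by
        rw [← Real.exp_add]; exact (m (by linarith)).trans hX
      have h4 := mul_le_mul_of_nonneg_right b0 (by linarith : 0 ≤ Real.exp (2 * L / 5))
      have h5 := mul_le_mul_of_nonneg_left p1 (sq_nonneg L)
      have h6 : L ≤ L ^ 2 := by nlinarith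
      have h7 := mul_le_mul_of_nonneg_right h6 (by linarith : 0 ≤ Real.exp (2 * L / 5))
      nlinarith)
  rw [e2, e3] at h
  refine h.trans (mul_le_mul_of_nonneg_right ?_ (by linarith [one_le_Qb s]))
  rw [div_le_iff₀ X0]
  have h3 : C ≤ Real.exp (L / 20) := by nlinarith
  refine (mul_le_mul_of_nonneg_right h3 (by positivity)).trans
    (le_trans ?_ (mul_le_mul_of_nonneg_left hX (by positivity)))
  rw [← Real.exp_add, ← Real.exp_add]
  exact m (by linarith)

lemma Qb_top {s : ℂ} (hs : s.im + 5 / 2 ≤ 0) : Qb s = 1 := by simp [Qb, max_eq_right hs]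

lemma small {L : ℝ} (hL : 100 ≤ L) : Real.exp (-L / 10) ≤ 1 / 6 := by
  have := Real.add_one_le_exp (L / 10)
  rw [neg_div, Real.exp_neg, inv_le_comm₀ (by positivity) (by norm_num)]
  linarith

lemma G_top {G : ℂ} {s : ℂ} {L : ℝ} (hL : 100 ≤ L) (hs : s.im + 5 / 2 ≤ 0)
    (h : ‖G - Dser s‖ ≤ Real.exp (-L / 10) * Qb s) : 1 / 2 ≤ ‖G‖ ∧ ‖G‖ ≤ 2 := by
  rw [Qb_top hs, mul_one] at h
  have h1 := norm_sub_le_norm_sub_add_norm_sub G (Dser s) 1
  have h2 := abs_le.mp (abs_norm_sub_norm_le G 1)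
  rw [norm_one] at h2
  constructor <;> linarith [h2.1, h2.2, Dser_top hs, small hL]

lemma G_up {G : ℂ} {s : ℂ} {L y : ℝ} (hL : 100 ≤ L) (hy : 0 ≤ y) (hs : s.im + 5 / 2 ≤ y)
    (h : ‖G - Dser s‖ ≤ Real.exp (-L / 10) * Qb s) : ‖G‖ ≤ Real.exp (y ^ 2 + L ^ 2) := by
  have h1 := norm_le_norm_add_norm_sub' G (Dser s)
  have h2 : Qb s ≤ Real.exp (y ^ 2) :=
    Real.exp_le_exp.mpr (pow_le_pow_left₀ (le_max_right _ _) (max_le hs hy) 2)
  have h3 := mul_le_mul_of_nonneg_right (small hL) (by linarith [one_le_Qb s] : 0 ≤ Qb s)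
  have h4 := Real.add_one_le_exp (L ^ 2)
  have h5 : 5 ≤ Real.exp (L ^ 2) := by nlinarith
  rw [Real.exp_add]
  nlinarith [Dser_le s, one_le_Qb s]

lemma realloc : ∀ᶠ L : ℝ in atTop, ∀ X : ℝ, Real.log |X| = L → (∃ x, Xi (-1 / 4) x ≠ 0) ∧
    cnt (Xi (-1 / 4)) {z | z.im = 0 ∧ |z.re - X| ≤ L} ≤ ENNReal.ofReal (76 * L ^ 2) := by
  filter_upwards [loc, big 1, eventually_ge_atTop 100] with L hl hb L0 X hX
  obtain ⟨G, β, hG, b1, b2, hc, h0, ha⟩ := hl X (by linarith) hX.le
  have e1 : 7 * L ≤ Real.exp (2 * L / 5) := by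
    have : Real.exp (L / 20) ≤ Real.exp (2 * L / 5) := Real.exp_le_exp.mpr (by linarith)
    nlinarith
  have k : ∀ s ∈ closedBall ((X : ℂ) - 3 * I) (3 * (2 * L)), s.im + 5 / 2 ≤ 6 * L ∧
      ‖G s - Dser s‖ ≤ Real.exp (-L / 10) * Qb s := by
    intro s hs
    rw [mem_closedBall, dist_eq_norm] at hs
    have h1 := abs_le.mp ((abs_im_le_norm _).trans hs)
    have h2 := norm_sub_le_norm_sub_add_norm_sub s (X - 3 * I) X
    have h3 : ‖(X : ℂ) - 3 * I - X‖ = 3 := by simp
    simp only [sub_im, ofReal_im, mul_im, re_ofNat, I_im, im_ofNat, I_re] at h1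
    refine ⟨by linarith [h1.2], ha s (by linarith) ?_⟩
    rw [abs_le]; constructor <;> linarith [h1.1, h1.2]
  have t := (G_top L0 (by simp; norm_num) (k _ (mem_closedBall_self (by linarith))).2).1
  refine ⟨⟨_, h0 _ (norm_pos_iff.mp (by linarith))⟩, ?_⟩
  have u := cnt_upper hG (by linarith : 0 < 2 * L)
    (fun s hs => G_up L0 (by linarith) (k s hs).1 (k s hs).2) t
  rw [hc] at u
  refine (cnt_mono _ fun z hz => ?_).trans (u.trans (ENNReal.ofReal_le_ofReal (by nlinarith)))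
  rw [mem_closedBall, dist_eq_norm]
  refine (norm_le_abs_re_add_abs_im _).trans ?_
  have h1 := hz.1
  have h2 := abs_le.mp hz.2
  rw [abs_le] at b1 b2
  have h3 : |(z - (-β + (X - 3 * I))).re| ≤ L + 4 := by
    rw [abs_le]; simp; constructor <;> linarith [b1.1, b1.2, h2.1, h2.2]
  have h4 : |(z - (-β + (X - 3 * I))).im| ≤ L / 4 + 7 := by
    rw [abs_le]; simp; constructor <;> linarith [b2.1, b2.2]
  linarith

lemma disc : ∃ ε : ℝ, 0 < ε ∧ ∀ᶠ L : ℝ in atTop, ∀ X : ℝ, L - 1 ≤ Real.log |X| →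
    Real.log |X| ≤ L → ∃ β : ℂ, |β.re| ≤ 4 ∧ |β.im - L / 4| ≤ 4 ∧ ∀ (n0 : ℕ) (t : ℝ),
      L / 200 ≤ Real.log n0 → Real.log n0 ≤ L / 100 → 1 ≤ ‖Pn n0 t‖ →
      |t - X| + L ≤ Real.exp (2 * L / 5) → ENNReal.ofReal (ε * L ^ 2) ≤
        cnt (Xi (-1 / 4)) (closedBall (-β + (t - (L / 100 + 3 : ℝ) * I)) (L / 5)) := by
  obtain ⟨ε, ε0, Λ₀, h⟩ := cnt_lower 20 (1 / 400000) (by norm_num) (by norm_num)
  refine ⟨2 * ε, by positivity, ?_⟩
  filter_upwards [loc, eventually_ge_atTop 5000, eventually_ge_atTop Λ₀] with L hl L0 L1 X h1 h2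
  obtain ⟨G, β, hG, b1, b2, hc, -, ha⟩ := hl X h1 h2
  refine ⟨β, b1, b2, fun n0 t n1 n2 hP ht => ?_⟩
  have k : ∀ s ∈ closedBall ((t : ℂ) - (L / 100 + 3 : ℝ) * I) (2 * (L / 5)),
      ‖G s - Dser s‖ ≤ Real.exp (-L / 10) * Qb s := by
    intro s hs
    rw [mem_closedBall, dist_eq_norm] at hs
    have h1 := abs_le.mp ((abs_im_le_norm _).trans hs)
    have h2 := norm_sub_le_norm_sub_add_norm_sub s (t - (L / 100 + 3 : ℝ) * I) t
    have h3 : ‖(t : ℂ) - (L / 100 + 3 : ℝ) * I - t‖ = L / 100 + 3 := by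
      rw [sub_sub_cancel_left, norm_neg, norm_mul, norm_I, mul_one, norm_real,
        Real.norm_of_nonneg (by linarith)]
    have h4 := norm_sub_le_norm_sub_add_norm_sub s t X
    rw [← ofReal_sub, norm_real, Real.norm_eq_abs] at h4
    simp only [sub_im, ofReal_im, mul_im, ofReal_re, I_im, I_re] at h1
    refine ha s (by linarith) ?_
    rw [abs_le]; constructor <;> linarith [h1.1, h1.2]
  have i : ∀ s (r : ℝ), ‖s - ((t : ℂ) - (L / 100 + 3 : ℝ) * I)‖ ≤ r →
      s.im + (L / 100 + 3) ≤ r := by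
    intro s r hs
    have := (im_le_norm _).trans hs
    simp only [sub_im, ofReal_im, mul_im, ofReal_re, I_im, I_re] at this
    linarith
  have d : ‖(t : ℂ) + (1 / 2 + Real.log n0 / 2 : ℝ) * I - (t - (L / 100 + 3 : ℝ) * I)‖ ≤
      L / 5 / 8 := by
    rw [add_sub_sub_cancel, ← add_mul, ← ofReal_add, norm_mul, norm_I, mul_one, norm_real,
      Real.norm_of_nonneg (by linarith)]
    linarith
  rw [← hc, show 2 * ε * L ^ 2 = ε * (L ^ 2 + L ^ 2) by ring]
  refine h G _ _ _ (L / 100) _ hG (by linarith) (by linarith) (by linarith) (by nlinarith)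
    (fun s hs => G_up (by linarith) (by linarith) ?_ (k s hs))
    (fun s hs => G_top (L := L) (by linarith) ?_ (k s (ball_subset_closedBall.trans
      (closedBall_subset_closedBall (by linarith)) hs))) d ?_
  · linarith [i s _ (mem_closedBall_iff_norm.mp hs)]
  · linarith [i s _ (mem_ball_iff_norm.mp hs).le]
  have e1 : ((t : ℂ) + (1 / 2 + Real.log n0 / 2 : ℝ) * I).im = 1 / 2 + Real.log n0 / 2 := by
    simp only [add_im, ofReal_im, mul_im, ofReal_re, I_im, I_re]; ring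
  have e2 : ((t : ℂ) + (1 / 2 + Real.log n0 / 2 : ℝ) * I).re = t := by
    simp only [add_re, ofReal_im, mul_re, ofReal_re, I_im, I_re]; ring
  have h3 := D_big (by linarith) e1 (by rwa [e2])
  have h4 := k _ (mem_closedBall_iff_norm.mpr (d.trans (by linarith)))
  rw [Qb, e1, ← Real.exp_add, max_eq_left (by linarith)] at h4
  generalize (t : ℂ) + (1 / 2 + Real.log n0 / 2 : ℝ) * I = z at *
  generalize Real.log n0 = l at *
  have h5 := norm_le_norm_add_norm_sub (G z) (Dser z)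
  have h6 : Real.exp (l ^ 2 / 4 - 3) * 4 ≤ Real.exp (l ^ 2 / 4) := by
    rw [Real.exp_sub, div_mul_eq_mul_div, div_le_iff₀ (by positivity)]
    exact mul_le_mul_of_nonneg_left (by linarith [Real.add_one_le_exp 3]) (by positivity)
  have h7 : Real.exp (-L / 10 + (1 / 2 + l / 2 + 5 / 2) ^ 2) ≤ Real.exp (l ^ 2 / 4 - 3) :=
    Real.exp_le_exp.mpr (by nlinarith)
  have h8 : Real.exp (1 / 400000 * (L ^ 2 + L ^ 2)) ≤ Real.exp (l ^ 2 / 4 - 3) :=
    Real.exp_le_exp.mpr (by nlinarith [mul_le_mul n1 n1 (by linarith) (by linarith)])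
  linarith

lemma block : ∃ c : ℝ, 0 < c ∧ ∀ᶠ L : ℝ in atTop, ∃ W : ℝ, 0 < W ∧ W ≤ Real.exp (L / 2) ∧
    ∀ X : ℝ, L - 1 ≤ Real.log |X| → Real.log |X| ≤ L → ENNReal.ofReal (c * W * L) ≤
      cnt (Xi (-1 / 4)) {z | X ≤ z.re ∧ z.re < X + W ∧ z.im < 0 ∧ -L ≤ z.im} := by
  classical
  obtain ⟨ε, ε0, h⟩ := disc
  refine ⟨ε / (6 * 10 ^ 7), by positivity, ?_⟩
  filter_upwards [h, big 1, eventually_ge_atTop 5000,
    (tendsto_id.atTop_div_const (by norm_num : (0 : ℝ) < 5)).eventually (big 1000)]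
    with L hl hb L0 hb2
  have m : ∀ {x y : ℝ}, x ≤ y → Real.exp x ≤ Real.exp y := Real.exp_le_exp.mpr
  set K := ⌈Real.exp (L / 3)⌉₊
  have K1 : Real.exp (L / 3) ≤ K := Nat.le_ceil _
  have K2 : K < Real.exp (L / 3) + 1 := Nat.ceil_lt_add_one (by positivity)
  have K0 : 1 ≤ Real.exp (L / 3) := Real.one_le_exp (by linarith)
  have W1 : (K + 4) * L ≤ Real.exp (2 * L / 5) := by
    have h1 : Real.exp (L / 3) * Real.exp (L / 20) ≤ Real.exp (2 * L / 5) := by
      rw [← Real.exp_add]; exact m (by linarith)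
    have h2 : 6 * L ≤ Real.exp (L / 20) := by nlinarith
    nlinarith [mul_le_mul_of_nonneg_left h2 (by linarith : 0 ≤ Real.exp (L / 3))]
  refine ⟨(K + 2) * L, by positivity, ?_, fun X h1 h2 => ?_⟩
  · linarith [m (by linarith : 2 * L / 5 ≤ L / 2)]
  obtain ⟨β, b1, b2, hd⟩ := hl X h1 h2
  rw [abs_le] at b1 b2
  set n0 := ⌊Real.exp (L / 100)⌋₊
  have n1 : (n0 : ℝ) ≤ Real.exp (L / 100) := Nat.floor_le (by positivity)
  have n2 : Real.exp (L / 100) < n0 + 1 := Nat.lt_floor_add_one _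
  rw [id, show L / 5 / 20 = L / 100 by ring] at hb2
  have n3 : 40001 * (L / 100) + 1 ≤ n0 := by nlinarith
  have n4 : Real.log n0 ≤ L / 100 := by rwa [Real.log_le_iff_le_exp (by linarith)]
  have n5 : L / 200 ≤ Real.log n0 := by
    rw [Real.le_log_iff_exp_le (by linarith)]
    have e : Real.exp (L / 100) = Real.exp (L / 200) * Real.exp (L / 200) := by
      rw [← Real.exp_add]; congr 1; ring
    have := Real.add_one_le_exp (L / 200)
    nlinarith
  have gc := goodcount (n0 := n0) (K := K) (h := L) (by linarith) (by linarith) (by linarith)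
    (by
      refine (pow_le_pow_left₀ (by positivity) n1 7).trans ?_
      rw [← Real.exp_nat_mul]
      refine (m (by push_cast; linarith)).trans (K1.trans ?_)
      exact le_mul_of_one_le_right (by positivity) (by linarith)) (X + β.re + L)
  obtain ⟨S, hS⟩ : ∃ S, filter (fun j : ℕ => ∃ t ∈ Set.Icc (X + β.re + L + j * L - Real.log n0)
      (X + β.re + L + (j + 1) * L + Real.log n0), 1 ≤ ‖Pn n0 t‖) (range K) = S := ⟨_, rfl⟩
  rw [hS] at gc
  have hS' : ∀ j : ℕ, ∃ t : ℝ, j ∈ S → j < K ∧ t ∈ Set.Icc (X + β.re + L + j * L - Real.log n0)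
      (X + β.re + L + (j + 1) * L + Real.log n0) ∧ 1 ≤ ‖Pn n0 t‖ := by
    intro j
    by_cases hj : j ∈ S
    · have hj' := hj
      rw [← hS, mem_filter, mem_range] at hj'
      obtain ⟨a, t, b⟩ := hj'
      exact ⟨t, fun _ => ⟨a, b⟩⟩
    · exact ⟨0, fun e => absurd e hj⟩
  choose t ht using hS'
  set D : ℕ → Set ℂ := fun j => closedBall (-β + (t j - (L / 100 + 3 : ℝ) * I)) (L / 5) with hD
  have jK : ∀ j ∈ S, 0 ≤ j * L ∧ (j + 1) * L ≤ K * L := fun j hj => ⟨by positivity,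
    mul_le_mul_of_nonneg_right (by exact_mod_cast (ht j hj).1) (by linarith)⟩
  have mD : ∀ j, ∀ z ∈ D j, |z.re - (t j - β.re)| ≤ L / 5 ∧ z.im < 0 ∧ -L ≤ z.im := by
    intro j z hz
    have a := mem_closedBall_iff_norm.mp hz
    have a1 := (abs_re_le_norm _).trans a
    have a2 := (abs_im_le_norm _).trans a
    simp only [sub_re, add_re, neg_re, mul_re, sub_im, add_im, neg_im, ofReal_im, mul_im,
      ofReal_re, I_im, I_re] at a1 a2
    rw [abs_le] at a1 a2 ⊢
    exact ⟨⟨by linarith [a1.1], by linarith [a1.2]⟩, by linarith [b2.1, a2.2],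
      by linarith [b2.2, a2.1]⟩
  have lo : ∀ j ∈ S, ENNReal.ofReal (ε * L ^ 2) ≤ cnt (Xi (-1 / 4)) (D j) := by
    intro j hj
    obtain ⟨-, ⟨a1, a2⟩, a3⟩ := ht j hj
    refine hd n0 _ n5 n4 a3 (le_trans ?_ W1)
    have : |t j - X| ≤ (K + 3) * L := by
      rw [abs_le]; constructor <;> linarith [jK j hj, b1.1, b1.2]
    linarith
  have par : ∀ p : ℕ, ∑ j ∈ filter (fun j => j % 2 = p) S, cnt (Xi (-1 / 4)) (D j) ≤
      cnt (Xi (-1 / 4)) {z | X ≤ z.re ∧ z.re < X + (K + 2) * L ∧ z.im < 0 ∧ -L ≤ z.im} := by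
    intro p
    rw [cnt_biUnion]
    · refine cnt_mono _ (Set.iUnion₂_subset fun j hj z hz => ?_)
      have hj := (mem_filter.mp hj).1
      obtain ⟨-, ⟨a1, a2⟩, -⟩ := ht j hj
      have a := mD j z hz
      rw [abs_le] at a
      exact ⟨by linarith [a.1.1, jK j hj], by linarith [a.1.2, jK j hj], a.2⟩
    · have key : ∀ i j, i ∈ S → j ∈ S → i + 2 ≤ j → Disjoint (D i) (D j) := by
        intro i j hi hj hij
        rw [Set.disjoint_left]
        intro z z1 z2
        have a := abs_le.mp (mD i z z1).1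
        have b := abs_le.mp (mD j z z2).1
        have c : ((i : ℝ) + 2) * L ≤ j * L :=
          mul_le_mul_of_nonneg_right (by exact_mod_cast hij) (by linarith)
        linarith [a.2, b.1, (ht i hi).2.1.2, (ht j hj).2.1.1]
      intro i hi j hj hij
      simp only [coe_filter, Set.mem_ofPred_eq] at hi hj
      rcases lt_or_gt_of_ne hij with e | e
      · exact key i j hi.1 hj.1 (by omega)
      · exact (key j i hj.1 hi.1 (by omega)).symm
  have tot := card_nsmul_le_sum S _ _ lo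
  rw [← sum_filter_add_sum_filter_not S (fun j => j % 2 = 0),
    filter_congr (p := fun j => ¬ j % 2 = 0) (q := fun j => j % 2 = 1) fun j _ => by omega] at tot
  have tot2 := tot.trans (add_le_add (par 0) (par 1))
  rw [← two_mul, nsmul_eq_mul, ← ENNReal.ofReal_natCast, ← ENNReal.ofReal_mul (by positivity)]
    at tot2
  rw [← ENNReal.mul_le_mul_iff_right (a := 2) (by norm_num) (by norm_num)]
  refine le_trans ?_ tot2
  rw [← ENNReal.ofReal_ofNat, ← ENNReal.ofReal_mul (by norm_num)]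
  refine ENNReal.ofReal_le_ofReal (le_trans ?_ (mul_le_mul_of_nonneg_right gc (by positivity)))
  have : (K + 2 : ℝ) * (ε * L ^ 2) ≤ 3 * K * (ε * L ^ 2) :=
    mul_le_mul_of_nonneg_right (by linarith) (by positivity)
  nlinarith

lemma lower : ∃ c : ℝ, 0 < c ∧ ∀ᶠ T : ℝ in atTop, ENNReal.ofReal (c * (T * Real.log T)) ≤
    cnt (Xi (-1 / 4)) {z | |z.re| ≤ T ∧ z.im < 0 ∧ -Real.log T ≤ z.im} := by
  obtain ⟨c, c0, h⟩ := block
  refine ⟨c / 4, by positivity, ?_⟩
  filter_upwards [Real.tendsto_log_atTop.eventually h, eventually_gt_atTop 0,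
    Real.tendsto_log_atTop.eventually_ge_atTop 6] with T ⟨W, W0, W1, hW⟩ T0 L0
  have W2 : 4 * W ≤ T := by
    have e : Real.exp (Real.log T / 2) * Real.exp (Real.log T / 2) = T := by
      rw [← Real.exp_add, add_halves, Real.exp_log T0]
    nlinarith [Real.add_one_le_exp (Real.log T / 2)]
  set m := ⌊T / (2 * W)⌋₊
  have m1 : m * W ≤ T / 2 := by
    have : (m : ℝ) ≤ T / (2 * W) := Nat.floor_le (by positivity)
    rw [le_div_iff₀ (by positivity)] at this; linarith
  have m2 : T / 4 ≤ m * W := by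
    have : T / (2 * W) < m + 1 := Nat.lt_floor_add_one _
    rw [div_lt_iff₀ (by positivity)] at this; linarith
  have k : ∀ j ∈ range m, 0 ≤ j * W ∧ j * W + W ≤ T / 2 := fun j hj => ⟨by positivity, by
    have : (j : ℝ) + 1 ≤ m := by exact_mod_cast mem_range.mp hj
    nlinarith⟩
  have tot := card_nsmul_le_sum (range m) _ _ fun j hj => hW (T / 2 + j * W)
    (by
      have h1 : Real.log (T / 2) ≤ Real.log |T / 2 + j * W| :=
        Real.log_le_log (by positivity) (le_trans (by linarith [k j hj]) (le_abs_self _))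
      rw [Real.log_div T0.ne' (by norm_num)] at h1
      linarith [Real.log_two_lt_d9])
    (by
      rw [abs_of_pos (by positivity)]
      exact Real.log_le_log (by positivity) (by linarith [k j hj]))
  rw [cnt_biUnion, card_range, nsmul_eq_mul, ← ENNReal.ofReal_natCast,
    ← ENNReal.ofReal_mul (by positivity)] at tot
  · refine le_trans (ENNReal.ofReal_le_ofReal ?_) (tot.trans (cnt_mono _
      (Set.iUnion₂_subset fun j hj z hz => ⟨?_, hz.2.2⟩)))
    · nlinarith [mul_le_mul_of_nonneg_right m2 (by positivity : 0 ≤ c * Real.log T)]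
    · rw [abs_le]; constructor <;> linarith [hz.1, hz.2.1, k j hj]
  · have key : ∀ i j : ℕ, i < j → Disjoint
        {z : ℂ | T / 2 + i * W ≤ z.re ∧ z.re < T / 2 + i * W + W ∧ z.im < 0 ∧ -Real.log T ≤ z.im}
        {z : ℂ | T / 2 + j * W ≤ z.re ∧ z.re < T / 2 + j * W + W ∧ z.im < 0 ∧
          -Real.log T ≤ z.im} := by
      intro i j hij
      rw [Set.disjoint_left]
      intro z z1 z2
      have : ((i : ℝ) + 1) * W ≤ j * W :=
        mul_le_mul_of_nonneg_right (by exact_mod_cast hij) W0.le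
      linarith [z1.2.1, z2.1]
    intro i _ j _ hij
    rcases lt_or_gt_of_ne hij with e | e
    · exact key i j e
    · exact (key j i e).symm

/-- Real points with modulus in `[A, B]`. -/
def Rs (A B : ℝ) : Set ℂ := {z | z.im = 0 ∧ A ≤ |z.re| ∧ |z.re| ≤ B}

lemma cover (F : ℂ → ℂ) {A B d E : ℝ} (hd : 0 < d) (hE : 0 ≤ E) (hAB : A ≤ B)
    (h : ∀ x, A ≤ x → x ≤ B → cnt F (Rs x (x + d)) ≤ ENNReal.ofReal E) :
    cnt F (Rs A B) ≤ ENNReal.ofReal (((B - A) / d + 1) * E) := by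
  have k : ∀ n : ℕ, A + n * d ≤ B → cnt F (Rs A (A + n * d + d)) ≤ ENNReal.ofReal ((n + 1) * E) := by
    intro n
    induction n with
    | zero => simpa using fun _ => h A le_rfl hAB
    | succ n ih =>
      intro hn
      push_cast at hn ⊢
      have n0 : 0 ≤ n * d := by positivity
      rw [add_mul _ 1 E, one_mul, ENNReal.ofReal_add (by positivity) hE]
      refine le_trans ((cnt_mono _ fun z hz => ?_).trans (cnt_union_le _ _ _))
        (add_le_add (ih (by linarith)) (h _ (by linarith) hn))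
      rcases le_total |z.re| (A + n * d + d) with e | e
      · exact Or.inl ⟨hz.1, hz.2.1, e⟩
      · exact Or.inr ⟨hz.1, by linarith, hz.2.2⟩
  have h1 : (⌊(B - A) / d⌋₊ : ℝ) ≤ (B - A) / d := Nat.floor_le (div_nonneg (by linarith) hd.le)
  have h2 := Nat.lt_floor_add_one ((B - A) / d)
  rw [div_lt_iff₀ hd] at h2
  refine le_trans (cnt_mono _ fun z hz => ?_)
    ((k ⌊(B - A) / d⌋₊ (by rw [le_div_iff₀ hd] at h1; linarith)).trans (ENNReal.ofReal_le_ofReal
      (mul_le_mul_of_nonneg_right (by linarith) hE)))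
  exact ⟨hz.1, hz.2.1, by linarith [hz.2.2]⟩

lemma upper : ∀ᶠ T : ℝ in atTop, cnt (Xi (-1 / 4)) {z | z.im = 0 ∧ ‖z‖ ≤ T} ≤
    ENNReal.ofReal (761 * (T * Real.log T)) := by
  obtain ⟨A, hA⟩ := eventually_atTop.mp ((Real.tendsto_log_atTop.eventually
    (realloc.and (eventually_ge_atTop 1))).and (eventually_gt_atTop 0))
  have A0 := (hA A le_rfl).2
  obtain ⟨x0, hx0⟩ := ((hA A le_rfl).1.1 A (by rw [abs_of_pos A0])).1
  have fin := cnt_lt_top _ Xi_diff hx0 (isCompact_closedBall 0 A)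
  filter_upwards [eventually_ge_atTop (cnt (Xi (-1 / 4)) (closedBall 0 A)).toReal,
    eventually_gt_atTop 0, Real.tendsto_log_atTop.eventually_ge_atTop (2 * Real.log A),
    Real.tendsto_log_atTop.eventually_ge_atTop 1] with T T1 T0 L1 L0
  have k : ∀ x d, A ≤ x → x ≤ T → d ≤ Real.log x →
      cnt (Xi (-1 / 4)) (Rs x (x + d)) ≤ ENNReal.ofReal (152 * Real.log T ^ 2) := by
    intro x d h1 h2 h3
    obtain ⟨⟨a, b⟩, x0⟩ := hA x h1
    have a1 := (a x (by rw [abs_of_pos x0])).2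
    have a2 := (a (-x) (by rw [abs_neg, abs_of_pos x0])).2
    refine ((cnt_mono _ fun z hz => ?_).trans (cnt_union_le _ _ _)).trans
      ((add_le_add a1 a2).trans ?_)
    · obtain ⟨z1, z2, z3⟩ := hz
      rcases le_total 0 z.re with e | e
      · rw [abs_of_nonneg e] at z2 z3
        exact Or.inl ⟨z1, by rw [abs_le]; constructor <;> linarith⟩
      · rw [abs_of_nonpos e] at z2 z3
        exact Or.inr ⟨z1, by rw [abs_le]; constructor <;> linarith⟩
    · rw [← ENNReal.ofReal_add (by positivity) (by positivity)]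
      have := pow_le_pow_left₀ (by linarith) (Real.log_le_log x0 h2) 2
      exact ENNReal.ofReal_le_ofReal (by linarith)
  set L := Real.log T
  have e : Real.exp (L / 2) * Real.exp (L / 2) = T := by
    rw [← Real.exp_add, add_halves, Real.exp_log T0]
  have y1 : A ≤ Real.exp (L / 2) := by rw [← Real.log_le_iff_le_exp A0]; linarith
  have y2 : L ≤ Real.exp (L / 2) := by
    nlinarith [Real.quadratic_le_exp_of_nonneg (by linarith : 0 ≤ L / 2), sq_nonneg (L - 2)]
  have y3 : Real.exp (L / 2) ≤ T := by nlinarith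
  have c1 := cover _ one_pos (by positivity) y1 fun x a b => k x 1 a (b.trans y3) (hA x a).1.2
  have c2 := cover _ (by linarith : 0 < L / 2) (by positivity) y3 fun x a b =>
    k x (L / 2) (y1.trans a) b (by rwa [Real.le_log_iff_exp_le ((Real.exp_pos _).trans_le a)])
  have c0 : cnt (Xi (-1 / 4)) (closedBall 0 A) ≤ ENNReal.ofReal T := by
    rw [← ENNReal.ofReal_toReal fin]; exact ENNReal.ofReal_le_ofReal T1
  generalize Real.exp (L / 2) = y at *
  have d1 : ((y - A) / 1 + 1) * (152 * L ^ 2) ≤ 304 * (T * L) := by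
    have h1 : y * L ≤ T := by nlinarith
    have h2 : ((y - A) / 1 + 1) * (152 * L ^ 2) ≤ 2 * y * (152 * L ^ 2) :=
      mul_le_mul_of_nonneg_right (by linarith) (by positivity)
    nlinarith [mul_le_mul_of_nonneg_right h1 (by linarith : 0 ≤ L)]
  have d2 : ((T - y) / (L / 2) + 1) * (152 * L ^ 2) ≤ 456 * (T * L) := by
    have h1 : ((T - y) / (L / 2) + 1) * (152 * L ^ 2) = 304 * ((T - y) * L) + 152 * (L * L) := by
      field_simp; ring
    nlinarith
  have u := add_le_add c0 (add_le_add (c1.trans (ENNReal.ofReal_le_ofReal d1))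
    (c2.trans (ENNReal.ofReal_le_ofReal d2)))
  rw [← ENNReal.ofReal_add (by positivity) (by positivity),
    ← ENNReal.ofReal_add (by positivity) (by positivity)] at u
  refine le_trans ((cnt_mono _ fun z hz => ?_).trans ((cnt_union_le _ _ _).trans
    (add_le_add le_rfl (cnt_union_le _ _ _))))
    (u.trans (ENNReal.ofReal_le_ofReal (by nlinarith)))
  have z1 : ‖z‖ = |z.re| := (abs_re_eq_norm.mpr hz.1).symm
  rcases le_total ‖z‖ A with a | a
  · exact Or.inl (mem_closedBall_zero_iff.mpr a)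
  · rcases le_total ‖z‖ y with b | b
    · exact Or.inr (Or.inl ⟨hz.1, z1 ▸ a, z1 ▸ b⟩)
    · exact Or.inr (Or.inr ⟨hz.1, z1 ▸ b, z1 ▸ hz.2⟩)

end Pool.Agent.H6.KK
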