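import Mathlib
import Pool.Agent.H6.KK7

namespace Pool.Agent.H6.KK

open Metric Filter Topology MeasureTheory

noncomputable def aa (n : ℕ) (t : ℝ) : ℝ := Real.pi * ((n : ℝ) + 1) ^ 2 * Real.exp (2 * t)

noncomputable def f0 (n : ℕ) (t : ℝ) : ℝ := Real.exp (t / 2 - aa n t)

noncomputable def f1 (n : ℕ) (t : ℝ) : ℝ := (1 / 2 - 2 * aa n t) * f0 n t

noncomputable def f2 (n : ℕ) (t : ℝ) : ℝ := (1 / 4 - 6 * aa n t + 4 * aa n t ^ 2) * f0 n t

lemma aa_pos (n : ℕ) (t : ℝ) : 0 < aa n t := by unfold aa; positivity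

lemma aa_deriv (n : ℕ) (t : ℝ) : HasDerivAt (aa n) (2 * aa n t) t := by
  have := (((hasDerivAt_id t).const_mul 2).exp).const_mul (Real.pi * ((n : ℝ) + 1) ^ 2)
  refine this.congr_deriv ?_
  simp only [aa, id]; ring

lemma f0_deriv (n : ℕ) (t : ℝ) : HasDerivAt (f0 n) (f1 n t) t := by
  have := (((hasDerivAt_id t).div_const 2).sub (aa_deriv n t)).exp
  refine this.congr_deriv ?_
  simp only [f1, f0, id, Pi.sub_apply]; ring

lemma f1_deriv (n : ℕ) (t : ℝ) : HasDerivAt (f1 n) (f2 n t) t := by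
  have := (((aa_deriv n t).const_mul 2).const_sub (1 / 2)).mul (f0_deriv n t)
  refine this.congr_deriv ?_
  simp only [f2, f1]; ring

lemma exp_neg_lg (n : ℕ) : Real.exp (-2 * lg n) = (((n : ℝ) + 1) ^ 2)⁻¹ := by
  rw [neg_mul, Real.exp_neg]
  congr 1
  exact_mod_cast exp_mul_lg 2 n

lemma f_bd (n : ℕ) {t A p : ℝ} (ht : t ∈ Set.Ioo (-A) A)
    (hp : |p| ≤ 1 + 6 * aa n t + 4 * aa n t ^ 2) :
    ‖p * f0 n t‖ ≤ 37 * Real.exp (3 * A) * Real.exp (-2 * lg n) := by
  have a0 := aa_pos n t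
  have h1 := Real.pow_div_factorial_le_exp _ a0.le 1
  have h2 := Real.pow_div_factorial_le_exp _ a0.le 2
  have h3 := Real.pow_div_factorial_le_exp _ a0.le 3
  norm_num [Nat.factorial] at h1 h2 h3
  have h4 : |p| * aa n t ≤ 37 * Real.exp (aa n t) := by
    nlinarith [mul_le_mul_of_nonneg_right hp a0.le]
  have h5 : Real.exp (t / 2) * ((n : ℝ) + 1) ^ 2 ≤ Real.exp (3 * A) * aa n t := by
    have e : Real.exp (t / 2) ≤ Real.exp (3 * A) * Real.exp (2 * t) := by
      rw [← Real.exp_add, Real.exp_le_exp]; linarith [ht.1, ht.2]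
    have e2 := mul_le_mul_of_nonneg_right e (sq_nonneg ((n : ℝ) + 1))
    have e3 : 0 ≤ Real.exp (3 * A) * Real.exp (2 * t) * ((n : ℝ) + 1) ^ 2 := by positivity
    unfold aa
    nlinarith [Real.pi_gt_three]
  rw [exp_neg_lg, ← div_eq_mul_inv, le_div_iff₀ (by positivity), norm_mul, f0, Real.exp_sub,
    Real.norm_eq_abs, Real.norm_of_nonneg (by positivity), ← mul_div_assoc, div_mul_eq_mul_div,
    div_le_iff₀ (by positivity)]
  calc _ = |p| * (Real.exp (t / 2) * ((n : ℝ) + 1) ^ 2) := by ring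
    _ ≤ |p| * (Real.exp (3 * A) * aa n t) := mul_le_mul_of_nonneg_left h5 (abs_nonneg _)
    _ = |p| * aa n t * Real.exp (3 * A) := by ring
    _ ≤ 37 * Real.exp (aa n t) * Real.exp (3 * A) := mul_le_mul_of_nonneg_right h4 (by positivity)
    _ = _ := by ring

lemma mem_I (t : ℝ) : t ∈ Set.Ioo (-(|t| + 1)) (|t| + 1) :=
  ⟨by linarith [neg_abs_le t], by linarith [le_abs_self t]⟩

lemma b0 (n : ℕ) {t A : ℝ} (ht : t ∈ Set.Ioo (-A) A) :
    ‖f0 n t‖ ≤ 37 * Real.exp (3 * A) * Real.exp (-2 * lg n) := by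
  have := aa_pos n t
  simpa using f_bd n (p := 1) ht (by rw [abs_one]; nlinarith)

lemma b1 (n : ℕ) {t A : ℝ} (ht : t ∈ Set.Ioo (-A) A) :
    ‖f1 n t‖ ≤ 37 * Real.exp (3 * A) * Real.exp (-2 * lg n) := by
  have := aa_pos n t
  exact f_bd n ht (by rw [abs_le]; constructor <;> nlinarith)

lemma b2 (n : ℕ) {t A : ℝ} (ht : t ∈ Set.Ioo (-A) A) :
    ‖f2 n t‖ ≤ 37 * Real.exp (3 * A) * Real.exp (-2 * lg n) := by
  have := aa_pos n t
  exact f_bd n ht (by rw [abs_le]; constructor <;> nlinarith)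

lemma s0 (t : ℝ) : Summable fun n => f0 n t :=
  .of_norm_bounded (hasSum_lg.summable.mul_left _) fun n => b0 n (mem_I t)

lemma s1 (t : ℝ) : Summable fun n => f1 n t :=
  .of_norm_bounded (hasSum_lg.summable.mul_left _) fun n => b1 n (mem_I t)

lemma s2 (t : ℝ) : Summable fun n => f2 n t :=
  .of_norm_bounded (hasSum_lg.summable.mul_left _) fun n => b2 n (mem_I t)

lemma D0 (t : ℝ) : HasDerivAt (fun t => ∑' n, f0 n t) (∑' n, f1 n t) t :=
  hasDerivAt_tsum_of_isPreconnected (hasSum_lg.summable.mul_left _) isOpen_Ioo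
    isPreconnected_Ioo (fun n y _ => f0_deriv n y) (fun n _ hy => b1 n hy) (mem_I t) (s0 t) (mem_I t)

lemma D1 (t : ℝ) : HasDerivAt (fun t => ∑' n, f1 n t) (∑' n, f2 n t) t :=
  hasDerivAt_tsum_of_isPreconnected (hasSum_lg.summable.mul_left _) isOpen_Ioo
    isPreconnected_Ioo (fun n y _ => f1_deriv n y) (fun n _ hy => b2 n hy) (mem_I t) (s1 t) (mem_I t)

lemma th_eq (t : ℝ) : Real.exp (t / 2) * ∑' n : ℤ, Real.exp (-Real.pi * Real.exp (2 * t) *
    (n : ℝ) ^ 2) = Real.exp (t / 2) + 2 * ∑' n, f0 n t := by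
  have e : ∀ n : ℕ, f0 n t = Real.exp (t / 2) * Real.exp (-Real.pi * Real.exp (2 * t) *
      ((n : ℝ) + 1) ^ 2) := by
    intro n; rw [f0, ← Real.exp_add, aa]; congr 1; ring
  have h := (s0 t).hasSum
  have h2 : HasSum (fun n : ℤ => Real.exp (t / 2) * Real.exp (-Real.pi * Real.exp (2 * t) *
      (n : ℝ) ^ 2)) ((∑' n, f0 n t) + Real.exp (t / 2) * Real.exp (-Real.pi * Real.exp (2 * t) *
      ((0 : ℤ) : ℝ) ^ 2) + ∑' n, f0 n t) := by
    refine HasSum.of_add_one_of_neg_add_one (f := fun n : ℤ => Real.exp (t / 2) *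
      Real.exp (-Real.pi * Real.exp (2 * t) * (n : ℝ) ^ 2)) ?_ ?_
    · simpa [e] using h
    · simpa [e, -neg_add_rev] using h
  rw [← tsum_mul_left, h2.tsum_eq]
  simp; ring

lemma ev0 (t : ℝ) : Real.exp (t / 2) + 2 * ∑' n, f0 n t =
    Real.exp (-t / 2) + 2 * ∑' n, f0 n (-t) := by
  rw [← th_eq, ← th_eq, Real.tsum_exp_neg_mul_int_sq (Real.exp_pos _), ← Real.exp_mul,
    ← mul_assoc, mul_one_div, ← Real.exp_sub]
  congr 1
  · congr 1; ring
  · refine tsum_congr fun n => ?_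
    rw [mul_neg, Real.exp_neg, div_eq_mul_inv]

lemma ev1 (t : ℝ) : Real.exp (t / 2) * (1 / 2) + 2 * ∑' n, f1 n t =
    Real.exp (-t / 2) * (-1 / 2) + 2 * ((∑' n, f1 n (-t)) * -1) := by
  have h1 := (((hasDerivAt_id' t).div_const 2).exp).add ((D0 t).const_mul 2)
  have h2 := (((hasDerivAt_neg t).div_const 2).exp).add
    (((D0 (-t)).comp t (hasDerivAt_neg t)).const_mul 2)
  exact h1.unique (h2.congr_of_eventuallyEq (Eventually.of_forall ev0))

lemma ev2 (t : ℝ) : Real.exp (t / 2) * (1 / 2) * (1 / 2) + 2 * ∑' n, f2 n t =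
    Real.exp (-t / 2) * (-1 / 2) * (-1 / 2) + 2 * ((∑' n, f2 n (-t)) * -1 * -1) := by
  have h1 := ((((hasDerivAt_id' t).div_const 2).exp).mul_const (1 / 2)).add ((D1 t).const_mul 2)
  have h2 := ((((hasDerivAt_neg t).div_const 2).exp).mul_const (-1 / 2)).add
    ((((D1 (-t)).comp t (hasDerivAt_neg t)).mul_const (-1)).const_mul 2)
  exact h1.unique (h2.congr_of_eventuallyEq (Eventually.of_forall ev1))

lemma Phi_sum (t : ℝ) : HasSum (fun n => (4 * aa n t ^ 2 - 6 * aa n t) * f0 n t) (Phi t) ∧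
    Phi t = ∑' n, f2 n t - (∑' n, f0 n t) / 4 := by
  have h : HasSum (fun n => (4 * aa n t ^ 2 - 6 * aa n t) * f0 n t)
      (∑' n, f2 n t - (∑' n, f0 n t) / 4) :=
    ((s2 t).hasSum.sub ((s0 t).hasSum.div_const 4)).congr_fun fun n => by rw [f2]; ring
  have e : Phi t = ∑' n, f2 n t - (∑' n, f0 n t) / 4 := by
    rw [← h.tsum_eq, Phi, ← tsum_mul_left]
    refine tsum_congr fun n => ?_
    have a1 : Real.exp (9 * t / 2) = Real.exp (t / 2) * Real.exp (2 * t) ^ 2 := by
      rw [pow_two, ← Real.exp_add, ← Real.exp_add]; congr 1; ring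
    have a2 : Real.exp (5 * t / 2) = Real.exp (t / 2) * Real.exp (2 * t) := by
      rw [← Real.exp_add]; congr 1; ring
    rw [f0, sub_eq_add_neg (t / 2), Real.exp_add, a1, a2, aa, neg_mul, neg_mul]
    ring
  exact ⟨e ▸ h, e⟩

lemma Phi_even (t : ℝ) : Phi (-t) = Phi t := by
  rw [(Phi_sum t).2, (Phi_sum (-t)).2]
  linarith [ev0 t, ev2 t]

lemma Phi_meas : Measurable Phi := by
  have e : Phi = fun t => deriv (fun t => ∑' n, f1 n t) t - (∑' n, f0 n t) / 4 :=
    funext fun t => by rw [(Phi_sum t).2, (D1 t).deriv]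
  have c : Continuous fun t => ∑' n, f0 n t :=
    continuous_iff_continuousAt.mpr fun t => (D0 t).continuousAt
  rw [e]
  exact (measurable_deriv _).sub (c.measurable.div_const 4)

lemma Phi_bd {t : ℝ} (ht : 0 ≤ t) : Real.exp (9 * t / 2 - Real.pi * Real.exp (2 * t)) ≤ Phi t ∧
    Phi t ≤ 1440 * Real.exp (9 * t / 2 - Real.pi * Real.exp (2 * t)) := by
  have p3 := Real.pi_gt_three
  have x1 : 1 ≤ Real.exp (2 * t) := Real.one_le_exp (by linarith)
  have x3 : 3 ≤ Real.pi * Real.exp (2 * t) := by nlinarith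
  have m1 : ∀ n : ℕ, 1 ≤ ((n : ℝ) + 1) ^ 2 := fun n => by nlinarith [Nat.cast_nonneg (α := ℝ) n]
  have a3 : ∀ n, 3 ≤ aa n t := fun n => by unfold aa; nlinarith [m1 n]
  have f : ∀ n, 0 < f0 n t := fun n => Real.exp_pos _
  have e : Real.exp (9 * t / 2 - Real.pi * Real.exp (2 * t)) =
      Real.exp (2 * t) ^ 2 * Real.exp (t / 2 - Real.pi * Real.exp (2 * t)) := by
    rw [pow_two, ← Real.exp_add, ← Real.exp_add]; congr 1; ring
  constructor
  · refine le_trans ?_ (le_hasSum (Phi_sum t).1 0 fun n _ =>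
      mul_nonneg (by nlinarith [a3 n]) (f n).le)
    rw [e, f0]
    simp only [aa, Nat.cast_zero, zero_add, one_pow, mul_one]
    refine mul_le_mul_of_nonneg_right ?_ (by positivity)
    nlinarith [mul_le_mul_of_nonneg_right p3.le (by linarith : 0 ≤ Real.exp (2 * t))]
  · have h := hasSum_le (fun n => ?_) (Phi_sum t).1
      (hasSum_lg.mul_left (720 * Real.exp (9 * t / 2 - Real.pi * Real.exp (2 * t))))
    · nlinarith [pi_sq, Real.exp_pos (9 * t / 2 - Real.pi * Real.exp (2 * t))]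
    rw [exp_neg_lg, ← div_eq_mul_inv, le_div_iff₀ (by positivity), e]
    have a0 := a3 n
    have f' := f n
    have h0 := m1 n
    have ea : aa n t = Real.pi * ((n : ℝ) + 1) ^ 2 * Real.exp (2 * t) := rfl
    generalize ((n : ℝ) + 1) ^ 2 = m at *
    have h1 := Real.pow_div_factorial_le_exp m (by linarith) 3
    norm_num [Nat.factorial] at h1
    have h2 : Real.exp m * f0 n t ≤ 3 * Real.exp (t / 2 - Real.pi * Real.exp (2 * t)) := by
      refine le_trans ?_ (mul_le_mul_of_nonneg_right Real.exp_one_lt_three.le (by positivity))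
      rw [f0, ← Real.exp_add, ← Real.exp_add, Real.exp_le_exp, ea]
      nlinarith
    have h3 : m ^ 3 * f0 n t ≤ 18 * Real.exp (t / 2 - Real.pi * Real.exp (2 * t)) := by
      nlinarith
    have h4 : Real.pi ^ 2 ≤ 10 := by nlinarith [pi_sq]
    calc _ ≤ 4 * aa n t ^ 2 * f0 n t * m :=
          mul_le_mul_of_nonneg_right (mul_le_mul_of_nonneg_right (by linarith) f'.le) (by linarith)
      _ = 4 * Real.exp (2 * t) ^ 2 * (Real.pi ^ 2 * (m ^ 3 * f0 n t)) := by rw [ea]; ring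
      _ ≤ 4 * Real.exp (2 * t) ^ 2 * (10 * (18 * Real.exp (t / 2 - Real.pi * Real.exp (2 * t)))) :=
          mul_le_mul_of_nonneg_left (mul_le_mul h4 h3 (by positivity) (by norm_num)) (by positivity)
      _ = _ := by ring

lemma Phi_bd' (t : ℝ) : 0 ≤ Phi t ∧ Phi t ≤ 1440 := by
  wlog ht : 0 ≤ t generalizing t
  · rw [← Phi_even]; exact this _ (by linarith)
  obtain ⟨a, b⟩ := Phi_bd ht
  have : Real.exp (9 * t / 2 - Real.pi * Real.exp (2 * t)) ≤ 1 := by
    rw [Real.exp_le_one_iff]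
    nlinarith [Real.add_one_le_exp (2 * t), Real.pi_gt_three]
  exact ⟨(Real.exp_pos _).le.trans a, by linarith⟩

lemma Xi_even (lam : ℝ) (z : ℂ) : Xi lam (-z) = Xi lam z := by
  unfold Xi
  rw [← integral_neg_eq_self]
  simp [Phi_even]

lemma exp_low {v δ : ℝ} (h0 : 0 < δ) (h1 : δ ≤ 1 / 2) (hv : 2 * δ ≤ |v|) :
    δ / 2 * |v| ≤ Real.exp v - 1 - v := by
  rcases le_total 0 v with h | h
  · rw [abs_of_nonneg h] at hv ⊢
    nlinarith [Real.quadratic_le_exp_of_nonneg h]
  · rw [abs_of_nonpos h] at hv ⊢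
    rcases le_total v (-2) with g | g
    · nlinarith [Real.exp_pos v]
    · have e : Real.exp v = Real.exp (v / 2) * Real.exp (v / 2) := by
        rw [← Real.exp_add, add_halves]
      have := Real.add_one_le_exp (v / 2)
      nlinarith [mul_le_mul this this (by linarith) (by positivity)]

lemma gauss_i (c : ℝ) : Integrable (fun t : ℝ => Real.exp (-(1 / 4) * (t - c) ^ 2)) ∧
    ∫ t : ℝ, Real.exp (-(1 / 4) * (t - c) ^ 2) ≤ 6 :=
  ⟨(integrable_exp_neg_mul_sq (by norm_num)).comp_sub_right c, by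
    rw [integral_sub_right_eq_self (fun t : ℝ => Real.exp (-(1 / 4) * t ^ 2))]
    exact gauss_int (by norm_num)⟩

lemma conc {x δ t0 : ℝ} (h0 : 0 < δ) (h1 : δ ≤ 1 / 2) (hx : |x| * δ ≤ 1) (t3 : 3 ≤ t0)
    (ht : 10 ^ 6 ≤ t0 * δ ^ 3) : 0 < ∫ t : ℝ, Phi t * Real.exp (-t ^ 2 / 4 +
      2 * Real.pi * Real.exp (2 * t0) * t) * Real.cos (x * (t - t0)) := by
  have q := Real.quadratic_le_exp_of_nonneg (by linarith : 0 ≤ 2 * t0)
  have ee : ∀ t, Real.pi * Real.exp (2 * t) =
      2 * Real.pi * Real.exp (2 * t0) / 2 * Real.exp (2 * (t - t0)) := by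
    intro t
    rw [mul_sub, Real.exp_sub]; field_simp
  have y1 : 6 * (1 + 2 * t0 + 2 * t0 ^ 2) ≤ 2 * Real.pi * Real.exp (2 * t0) := by
    nlinarith [Real.pi_gt_three]
  generalize 2 * Real.pi * Real.exp (2 * t0) = y at *
  have y0 : 0 ≤ y := by nlinarith
  have y2 : 12 * 10 ^ 6 ≤ y * δ ^ 3 := by
    have : 12 * t0 ≤ y := by nlinarith
    nlinarith [mul_le_mul_of_nonneg_right this (by positivity : 0 ≤ δ ^ 3)]
  have y3 : 5 + t0 ≤ y * δ / 4 := by
    refine le_of_mul_le_mul_right ?_ (by positivity : 0 < δ ^ 2)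
    have a1 : 12 * t0 ^ 2 * δ ^ 3 ≤ y * δ ^ 3 :=
      mul_le_mul_of_nonneg_right (by nlinarith) (by positivity)
    have a2 := mul_nonneg h0.le (sq_nonneg (δ * t0 - 1 / 2))
    nlinarith
  set E := y * t0 - y / 2 + 9 * t0 / 2 - t0 ^ 2 / 4 with hE
  have key : ∀ t, Real.exp (9 * t / 2 - Real.pi * Real.exp (2 * t)) * Real.exp (-t ^ 2 / 4 + y * t)
      = Real.exp (E - y / 2 * (Real.exp (2 * (t - t0)) - 1 - 2 * (t - t0)) +
        (t - t0) * (9 / 2 - t0 / 2) - (t - t0) ^ 2 / 4) := by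
    intro t
    rw [← Real.exp_add, ee, hE]; congr 1; ring
  have ab : ∀ u : ℝ, |u * (9 / 2 - t0 / 2)| ≤ |u| * (y * δ / 4) := fun u => by
    rw [abs_mul]
    exact mul_le_mul_of_nonneg_left (by rw [abs_le]; constructor <;> linarith) (abs_nonneg _)
  set m := Real.exp (E - 3 * (y * δ ^ 2) / 16 - 1) with hm
  set B := 1440 * Real.exp (E - y * δ ^ 2 / 4) with hB
  have B1 : 1440 ≤ B := by
    have : y * δ ^ 2 ≤ y * 1 := mul_le_mul_of_nonneg_left (by nlinarith) y0
    have : 1 ≤ Real.exp (E - y * δ ^ 2 / 4) := Real.one_le_exp (by nlinarith)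
    linarith
  have mB : 12 * B < m * (δ / 4) := by
    have e : m = Real.exp (E - y * δ ^ 2 / 4) * Real.exp (y * δ ^ 2 / 16 - 1) := by
      rw [← Real.exp_add, hm]; congr 1; ring
    have := mul_le_mul_of_nonneg_right (Real.add_one_le_exp (y * δ ^ 2 / 16 - 1)) h0.le
    have a : 12 * 1440 < Real.exp (y * δ ^ 2 / 16 - 1) * (δ / 4) := by nlinarith
    rw [e, hB, mul_assoc, ← mul_assoc 12, mul_comm]
    exact mul_lt_mul_of_pos_left a (by positivity)
  have g1 := gauss_i t0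
  have g2 := gauss_i 0
  have g0 : Integrable ((Set.Icc (t0 - δ / 4) (t0 + δ / 4)).indicator fun _ : ℝ => m / 2) :=
    (integrable_indicator_iff measurableSet_Icc).mpr (integrableOn_const (by simp))
  refine lt_of_lt_of_le ?_ (integral_mono ((g0.sub (g1.1.const_mul B)).sub (g2.1.const_mul B))
    ?_ fun t => ?_)
  · simp only [Pi.sub_apply]
    have g3 : Integrable fun t : ℝ => (Set.Icc (t0 - δ / 4) (t0 + δ / 4)).indicator
      (fun _ : ℝ => m / 2) t - B * Real.exp (-(1 / 4) * (t - t0) ^ 2) := g0.sub (g1.1.const_mul B)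
    rw [integral_sub g3 (g2.1.const_mul B),
      integral_sub g0 (g1.1.const_mul B), integral_const_mul, integral_const_mul,
      integral_indicator_const _ measurableSet_Icc, Real.volume_real_Icc_of_le (by linarith),
      smul_eq_mul]
    nlinarith [g1.2, g2.2]
  · refine ((gauss_i (2 * y)).1.const_mul (1440 * Real.exp (y ^ 2))).mono'
      ((Phi_meas.mul (by fun_prop)).mul (by fun_prop)).aestronglyMeasurable
      (ae_of_all _ fun t => ?_)
    rw [norm_mul, norm_mul, Real.norm_of_nonneg (Phi_bd' t).1, Real.norm_of_nonneg (by positivity),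
      mul_assoc 1440, ← Real.exp_add]
    refine (mul_le_of_le_one_right (mul_nonneg (Phi_bd' t).1 (by positivity))
      (Real.abs_cos_le_one _)).trans (mul_le_mul (Phi_bd' t).2 (le_of_eq ?_) (by positivity)
      (by norm_num))
    congr 1; ring
  simp only [Pi.sub_apply]
  have w0 : 0 ≤ Phi t * Real.exp (-t ^ 2 / 4 + y * t) := mul_nonneg (Phi_bd' t).1 (by positivity)
  have p1 : 0 ≤ B * Real.exp (-(1 / 4) * (t - t0) ^ 2) := by positivity
  have p2 : 0 ≤ B * Real.exp (-(1 / 4) * (t - 0) ^ 2) := by positivity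
  rcases le_total |t - t0| δ with hu | hu
  · have c : 1 / 2 ≤ Real.cos (x * (t - t0)) := by
      have h3 : |x * (t - t0)| ≤ 1 := by
        rw [abs_mul]; exact (mul_le_mul_of_nonneg_left hu (abs_nonneg _)).trans hx
      have h4 : (x * (t - t0)) ^ 2 ≤ 1 := by rwa [sq_le_one_iff_abs_le_one]
      linarith [Real.one_sub_sq_div_two_le_cos (x := x * (t - t0))]
    have c2 := mul_le_mul_of_nonneg_left c w0
    by_cases hi : t ∈ Set.Icc (t0 - δ / 4) (t0 + δ / 4)
    · rw [Set.indicator_of_mem hi]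
      have u1 : |t - t0| ≤ δ / 4 := by rw [abs_le]; constructor <;> linarith [hi.1, hi.2]
      have u2 : (t - t0) ^ 2 ≤ (δ / 4) ^ 2 := by
        rw [← sq_abs]; exact pow_le_pow_left₀ (abs_nonneg _) u1 2
      have u3 := (le_abs_self _).trans (Real.abs_exp_sub_one_sub_id_le (x := 2 * (t - t0))
        (by rw [abs_mul, abs_two]; linarith))
      have u4 := neg_le_of_abs_le ((ab (t - t0)).trans
        (mul_le_mul_of_nonneg_right u1 (by positivity)))
      have u5 := mul_le_mul_of_nonneg_left (u3.trans (by nlinarith : _ ≤ δ ^ 2 / 4)) y0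
      have : m ≤ Phi t * Real.exp (-t ^ 2 / 4 + y * t) := by
        refine le_trans ?_ (mul_le_mul_of_nonneg_right (Phi_bd (by linarith [hi.1])).1
          (by positivity))
        rw [key, hm, Real.exp_le_exp]
        nlinarith
      linarith
    · rw [Set.indicator_of_notMem hi]; linarith
  · rw [Set.indicator_of_notMem fun hi => by
      have : |t - t0| ≤ δ / 4 := by rw [abs_le]; constructor <;> linarith [hi.1, hi.2]
      linarith]
    have c := mul_le_mul_of_nonneg_left (Real.neg_one_le_cos (x * (t - t0))) w0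
    rcases le_total 0 t with h | h
    · have : Phi t * Real.exp (-t ^ 2 / 4 + y * t) ≤ B * Real.exp (-(1 / 4) * (t - t0) ^ 2) := by
        refine (mul_le_mul_of_nonneg_right (Phi_bd h).2 (by positivity)).trans ?_
        rw [mul_assoc, key, hB, mul_assoc, ← Real.exp_add]
        refine mul_le_mul_of_nonneg_left (Real.exp_le_exp.mpr ?_) (by norm_num)
        have u1 := exp_low h0 h1 (v := 2 * (t - t0)) (by rw [abs_mul, abs_two]; linarith)
        rw [abs_mul, abs_two] at u1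
        have u2 := mul_le_mul_of_nonneg_left u1 y0
        have u3 := (le_abs_self _).trans (ab (t - t0))
        have u4 := mul_le_mul_of_nonneg_left hu (by positivity : 0 ≤ y * δ)
        nlinarith
      linarith
    · have : Phi t * Real.exp (-t ^ 2 / 4 + y * t) ≤ B * Real.exp (-(1 / 4) * (t - 0) ^ 2) :=
        mul_le_mul ((Phi_bd' t).2.trans B1) (Real.exp_le_exp.mpr
          (by nlinarith [mul_nonneg y0 (neg_nonneg.mpr h)])) (by positivity) (by linarith)
      linarith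

open Complex in
lemma zero_free (T : ℝ) : ∃ Y : ℝ, ∀ z : ℂ, |z.re| ≤ T → Y ≤ |z.im| → Xi (-1 / 4) z ≠ 0 := by
  obtain ⟨δ, h0, h1, h2⟩ : ∃ δ : ℝ, 0 < δ ∧ δ ≤ 1 / 2 ∧ |T| * δ ≤ 1 := by
    have := abs_nonneg T
    refine ⟨1 / (|T| + 2), by positivity, one_div_le_one_div_of_le (by norm_num) (by linarith), ?_⟩
    rw [mul_one_div, div_le_one (by positivity)]; linarith
  refine ⟨2 * Real.pi * Real.exp (2 * (3 + 10 ^ 6 / δ ^ 3)), fun z z1 z2 => ?_⟩
  wlog hz : z.im ≤ 0 generalizing z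
  · rw [← Xi_even]
    exact this (-z) (by simpa using z1) (by simpa using z2) (by rw [neg_im]; linarith)
  rw [abs_of_nonpos hz, ← le_div_iff₀' (by positivity)] at z2
  have p0 := (Real.exp_pos _).trans_le z2
  rw [← Real.le_log_iff_exp_le p0] at z2
  set t0 := Real.log (-z.im / (2 * Real.pi)) / 2 with ht0
  have e : 2 * Real.pi * Real.exp (2 * t0) = -z.im := by
    rw [ht0, mul_div_cancel₀ _ two_ne_zero, Real.exp_log p0]; field_simp
  have a1 : 0 ≤ 10 ^ 6 / δ ^ 3 := by positivity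
  have h := conc (x := z.re) (t0 := t0) h0 h1
    ((mul_le_mul_of_nonneg_right (z1.trans (le_abs_self _)) h0.le).trans h2) (by linarith)
    (by rw [← div_le_iff₀ (by positivity)]; linarith)
  rw [e] at h
  intro h0
  have e2 : ∀ t : ℝ, (Phi t : ℂ) * (Real.exp (-1 / 4 * t ^ 2) : ℂ) * exp (I * z * t) *
      exp (-(I * z.re * t0)) = (Phi t * Real.exp (-t ^ 2 / 4 + -z.im * t) : ℝ) *
        exp ((z.re * (t - t0) : ℝ) * I) := by
    intro t
    rw [ofReal_mul, ofReal_exp, ofReal_exp, mul_assoc, mul_assoc, mul_assoc (Phi t : ℂ), ← exp_add,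
      ← exp_add, ← exp_add]
    congr 2
    nth_rewrite 1 [← re_add_im z]
    push_cast
    linear_combination (z.im * t : ℂ) * I_mul_I
  have e3 : ∫ t : ℝ, ((Phi t * Real.exp (-t ^ 2 / 4 + -z.im * t) : ℝ) : ℂ) *
      exp ((z.re * (t - t0) : ℝ) * I) = 0 := by
    simp only [← e2]
    rw [integral_mul_const]
    exact mul_eq_zero_of_left h0 _
  have i : Integrable fun t : ℝ => ((Phi t * Real.exp (-t ^ 2 / 4 + -z.im * t) : ℝ) : ℂ) *
      exp ((z.re * (t - t0) : ℝ) * I) := by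
    refine ((gauss_i (2 * -z.im)).1.const_mul (1440 * Real.exp (z.im ^ 2))).mono'
      ((measurable_ofReal.comp (Phi_meas.mul (by fun_prop))).mul
        (by fun_prop)).aestronglyMeasurable (ae_of_all _ fun t => ?_)
    rw [norm_mul, norm_exp_ofReal_mul_I, mul_one, norm_real, norm_mul,
      Real.norm_of_nonneg (Phi_bd' t).1, Real.norm_of_nonneg (by positivity),
      mul_assoc 1440, ← Real.exp_add]
    refine mul_le_mul (Phi_bd' t).2 (le_of_eq ?_) (by positivity) (by norm_num)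
    congr 1; ring
  have e4 := integral_re i
  rw [e3] at e4
  simp only [RCLike.re_to_complex, re_ofReal_mul, exp_ofReal_mul_I_re, zero_re] at e4
  exact h.ne' e4

lemma strip_fin (T : ℝ) : cnt (Xi (-1 / 4)) {z | |z.re| ≤ T} ≠ ⊤ := by
  obtain ⟨Y, hY⟩ := zero_free T
  obtain ⟨L, hL⟩ := realloc.exists
  obtain ⟨x, hx⟩ := (hL (Real.exp L) (by rw [abs_of_pos (Real.exp_pos _), Real.log_exp])).1
  have h0 : cnt (Xi (-1 / 4)) {z | |z.re| ≤ T ∧ Y ≤ |z.im|} = 0 := by
    refine ENNReal.tsum_eq_zero.mpr fun z => ?_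
    rw [(Xi_diff.analyticAt _).analyticOrderAt_eq_zero.mpr (hY z z.2.1 z.2.2)]
    simp
  refine ne_top_of_le_ne_top (cnt_lt_top _ Xi_diff hx (isCompact_closedBall 0 (T + Y))) ?_
  rw [← add_zero (cnt _ (closedBall _ _)), ← h0]
  refine (cnt_mono _ fun z hz => ?_).trans (cnt_union_le _ _ _)
  rcases le_total Y |z.im| with h | h
  · exact Or.inr ⟨hz, h⟩
  · exact Or.inl (mem_closedBall_zero_iff.mpr
      ((Complex.norm_le_abs_re_add_abs_im z).trans (add_le_add hz h)))

end Pool.Agent.H6.KK
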