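import Mathlib
import Pool.Agent.H6.Flow

/-! Supersaturation for the dominance order on `k`-subsets of `[2k]`. -/

namespace Pool.Agent.H6.Lkk

open Finset Pool.Agent.H6.Flow

theorem local_lip (J : Finset ℕ) (F : ℕ → Finset ℕ → ℝ) (M : ℝ) (hM0 : 0 ≤ M)
    (hM : ∀ a ∈ J, ∀ S, |F a S| ≤ M)
    (hloc : ∀ a ∈ J, ∀ S S' : Finset ℕ, (∀ c, a ≤ c → c ≤ a + 3 → (c ∈ S ↔ c ∈ S')) →
      F a S = F a S')
    (S : Finset ℕ) (i j : ℕ) :
    |∑ a ∈ J, F a S - ∑ a ∈ J, F a (insert j (S.erase i))| ≤ 16 * M := by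
  rw [← sum_sub_distrib]
  set K := Icc (i - 3) i ∪ Icc (j - 3) j with hK
  have hKc : K.card ≤ 8 := by
    refine (card_union_le _ _).trans ?_
    simp only [Nat.card_Icc]; omega
  have h1 : ∑ a ∈ J, (F a S - F a (insert j (S.erase i))) =
      ∑ a ∈ J.filter (fun a => a ∈ K), (F a S - F a (insert j (S.erase i))) := by
    rw [sum_filter]
    refine sum_congr rfl fun a ha => ?_
    split_ifs with h
    · rfl
    · rw [hloc a ha S (insert j (S.erase i)), sub_self]
      intro c h1 h2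
      simp only [hK, mem_union, mem_Icc, not_or] at h
      have : c ≠ i := by omega
      have : c ≠ j := by omega
      simp [*]
  rw [h1]
  calc _ ≤ ∑ a ∈ J.filter (fun a => a ∈ K), |F a S - F a (insert j (S.erase i))| :=
        abs_sum_le_sum_abs _ _
    _ ≤ ∑ _a ∈ J.filter (fun a => a ∈ K), 2 * M := by
        refine sum_le_sum fun a ha => ?_
        have a1 := hM a (mem_filter.1 ha).1 S
        have a2 := hM a (mem_filter.1 ha).1 (insert j (S.erase i))
        have := abs_sub (F a S) (F a (insert j (S.erase i)))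
        linarith
    _ = ((J.filter (fun a => a ∈ K)).card : ℝ) * (2 * M) := by rw [sum_const, nsmul_eq_mul]
    _ ≤ 8 * (2 * M) := by
        gcongr
        have : (J.filter (fun a => a ∈ K)).card ≤ K.card :=
          card_le_card fun a ha => (mem_filter.1 ha).2
        exact_mod_cast this.trans hKc
    _ = _ := by ring

/-- indicator -/
def ind (S : Finset ℕ) (a : ℕ) : ℝ := if a ∈ S then 1 else 0

/-- weight of the move `a+1 → a+2` -/
def W (m a : ℕ) : ℝ := ((a : ℝ) + 1) * ((m : ℝ) - a)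

def up (S : Finset ℕ) (b : ℕ) : Finset ℕ := insert (b + 1) (S.erase b)

def dn (T : Finset ℕ) (b : ℕ) : Finset ℕ := insert b (T.erase (b + 1))

def Mv (S T : Finset ℕ) (b : ℕ) : Prop := b ∈ S ∧ b + 1 ∉ S ∧ T = up S b

instance (S T : Finset ℕ) (b : ℕ) : Decidable (Mv S T b) := by unfold Mv; infer_instance

def om (m : ℕ) (S T : Finset ℕ) : ℝ := ∑ a ∈ range m, if Mv S T (a + 1) then W m a else 0

def OO (m : ℕ) (S : Finset ℕ) : ℝ :=
  ∑ a ∈ range m, W m a * (ind S (a + 1) * (1 - ind S (a + 2)))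

def II (m : ℕ) (S : Finset ℕ) : ℝ :=
  ∑ a ∈ range m, W m a * ((1 - ind S (a + 1)) * ind S (a + 2))

def AA (m : ℕ) (T : Finset ℕ) : ℝ :=
  ∑ a ∈ range m, if a + 1 ∉ T ∧ a + 2 ∈ T then W m a * (OO m (dn T (a + 1)) - OO m T) else 0

def HH (m : ℕ) (S : Finset ℕ) : ℝ := ∑ a ∈ range (m + 1), ((m : ℝ) - 2 * a) * ind S (a + 1)

def Om (m k : ℕ) : Finset (Finset ℕ) := powersetCard k (Icc 1 (m + 1))

theorem W_nonneg {m a : ℕ} (ha : a ∈ range m) : 0 ≤ W m a := by
  have : (a : ℝ) ≤ m := by exact_mod_cast (mem_range.1 ha).le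
  unfold W
  have : 0 ≤ (m : ℝ) - a := by linarith
  positivity

theorem W_le {m k : ℕ} (hk : m + 1 = 2 * k) (a : ℕ) : W m a ≤ (k : ℝ) ^ 2 := by
  have : (m : ℝ) = 2 * k - 1 := by
    have : ((m + 1 : ℕ) : ℝ) = ((2 * k : ℕ) : ℝ) := by rw [hk]
    push_cast at this; linarith
  unfold W
  rw [this]
  nlinarith [sq_nonneg ((k : ℝ) - (a + 1))]

theorem om_nonneg (m : ℕ) (S T : Finset ℕ) : 0 ≤ om m S T :=
  sum_nonneg fun a ha => by
    split_ifs
    · exact W_nonneg ha
    · exact le_rfl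

theorem up_mem {m k : ℕ} {S : Finset ℕ} (hS : S ∈ Om m k) {a : ℕ} (ha : a ∈ range m)
    (h1 : a + 1 ∈ S) (h2 : a + 1 + 1 ∉ S) : up S (a + 1) ∈ Om m k := by
  obtain ⟨hS1, hS2⟩ := mem_powersetCard.1 hS
  have := mem_range.1 ha
  refine mem_powersetCard.2 ⟨insert_subset (mem_Icc.2 ⟨by omega, by omega⟩)
    ((erase_subset _ _).trans hS1), ?_⟩
  unfold up
  rw [card_insert_of_notMem (fun h => h2 (mem_of_mem_erase h)), card_erase_add_one h1, hS2]

theorem dn_mem {m k : ℕ} {T : Finset ℕ} (hT : T ∈ Om m k) {a : ℕ} (ha : a ∈ range m)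
    (h1 : a + 1 ∉ T) (h2 : a + 1 + 1 ∈ T) : dn T (a + 1) ∈ Om m k := by
  obtain ⟨hS1, hS2⟩ := mem_powersetCard.1 hT
  have := mem_range.1 ha
  refine mem_powersetCard.2 ⟨insert_subset (mem_Icc.2 ⟨by omega, by omega⟩)
    ((erase_subset _ _).trans hS1), ?_⟩
  unfold dn
  rw [card_insert_of_notMem (fun h => h1 (mem_of_mem_erase h)), card_erase_add_one h2, hS2]

theorem mv_iff (S T : Finset ℕ) (b : ℕ) :
    Mv S T b ↔ (b ∉ T ∧ b + 1 ∈ T) ∧ S = dn T b := by
  constructor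
  · rintro ⟨h1, h2, rfl⟩
    refine ⟨⟨by simp [up], by simp [up]⟩, ?_⟩
    ext c
    simp only [up, dn, mem_insert, mem_erase]
    constructor
    · intro hc
      by_cases hcb : c = b
      · exact Or.inl hcb
      · exact Or.inr ⟨fun h => h2 (h ▸ hc), Or.inr ⟨hcb, hc⟩⟩
    · rintro (rfl | ⟨h3, h4 | h4⟩)
      · exact h1
      · exact absurd h4 h3
      · exact h4.2
  · rintro ⟨⟨h1, h2⟩, rfl⟩
    refine ⟨by simp [dn], by simp [dn], ?_⟩
    ext c
    simp only [up, dn, mem_insert, mem_erase]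
    constructor
    · intro hc
      by_cases hcb : c = b + 1
      · exact Or.inl hcb
      · exact Or.inr ⟨fun h => h1 (h ▸ hc), Or.inr ⟨hcb, hc⟩⟩
    · rintro (rfl | ⟨h3, h4 | h4⟩)
      · exact h2
      · exact absurd h4 h3
      · exact h4.2

theorem row_sum {m k : ℕ} {S : Finset ℕ} (hS : S ∈ Om m k) :
    OO m S = ∑ T ∈ Om m k, om m S T := by
  unfold om OO
  rw [sum_comm]
  refine sum_congr rfl fun a ha => ?_
  by_cases h : a + 1 ∈ S ∧ a + 1 + 1 ∉ S
  · have : ∀ T, Mv S T (a + 1) ↔ T = up S (a + 1) := fun T => by simp [Mv, h.1, h.2]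
    simp only [this, sum_ite_eq', up_mem hS ha h.1 h.2, if_true]
    simp [ind, h.1, h.2]
  · have : ∀ T, ¬ Mv S T (a + 1) := fun T hT => h ⟨hT.1, hT.2.1⟩
    simp only [this, if_false, sum_const_zero]
    unfold ind
    by_cases h1 : a + 1 ∈ S
    · have h2 : a + 2 ∈ S := by
        by_contra hc; exact h ⟨h1, hc⟩
      simp [h2]
    · simp [h1]

theorem col_sum {m k : ℕ} {T : Finset ℕ} (hT : T ∈ Om m k) (g : Finset ℕ → ℝ) :
    ∑ S ∈ Om m k, om m S T * g S =
      ∑ a ∈ range m, if a + 1 ∉ T ∧ a + 2 ∈ T then W m a * g (dn T (a + 1)) else 0 := by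
  unfold om
  simp only [sum_mul]
  rw [sum_comm]
  refine sum_congr rfl fun a ha => ?_
  by_cases h : a + 1 ∉ T ∧ a + 1 + 1 ∈ T
  · have : ∀ S, Mv S T (a + 1) ↔ S = dn T (a + 1) := fun S => by
      rw [mv_iff]; simp [h.1, h.2]
    simp only [this, ite_mul, zero_mul, sum_ite_eq', dn_mem hT ha h.1 h.2, if_true]
    rw [if_pos h]
  · have : ∀ S, ¬ Mv S T (a + 1) := fun S hS => h ((mv_iff _ _ _).1 hS).1
    simp only [this, if_false, zero_mul, sum_const_zero]
    rw [if_neg h]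

theorem col_I {m k : ℕ} {T : Finset ℕ} (hT : T ∈ Om m k) :
    II m T = ∑ S ∈ Om m k, om m S T := by
  have := col_sum hT (fun _ => 1)
  simp only [mul_one] at this
  rw [this]
  refine sum_congr rfl fun a _ => ?_
  unfold ind
  by_cases h1 : a + 1 ∈ T <;> by_cases h2 : a + 2 ∈ T <;> simp [h1, h2]

theorem col_A {m k : ℕ} {T : Finset ℕ} (hT : T ∈ Om m k) :
    AA m T = ∑ S ∈ Om m k, om m S T * (OO m S - OO m T) :=
  (col_sum hT (fun S => OO m S - OO m T)).symm

theorem O_sub_I (m : ℕ) (S : Finset ℕ) : OO m S - II m S = HH m S := by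
  have h1 : OO m S - II m S =
      ∑ a ∈ range (m + 1), W m a * (ind S (a + 1) - ind S (a + 2)) := by
    rw [sum_range_succ]
    unfold OO II
    rw [← sum_sub_distrib]
    have : W m m = 0 := by simp [W]
    rw [this, zero_mul, add_zero]
    exact sum_congr rfl fun a _ => by ring
  have h2 := sum_range_sub' (fun a : ℕ => (a : ℝ) * ((m : ℝ) - a + 1) * ind S (a + 1)) (m + 1)
  have h3 : ∑ a ∈ range (m + 1), W m a * (ind S (a + 1) - ind S (a + 2)) - HH m S =
      ∑ a ∈ range (m + 1), ((a : ℝ) * ((m : ℝ) - a + 1) * ind S (a + 1) -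
        ((a + 1 : ℕ) : ℝ) * ((m : ℝ) - (a + 1 : ℕ) + 1) * ind S (a + 1 + 1)) := by
    unfold HH
    rw [← sum_sub_distrib]
    refine sum_congr rfl fun a _ => ?_
    unfold W
    push_cast
    ring
  rw [h2] at h3
  push_cast at h3
  rw [h1]
  linear_combination h3

theorem ind_prod1 (S : Finset ℕ) (a b : ℕ) :
    0 ≤ ind S a * (1 - ind S b) ∧ ind S a * (1 - ind S b) ≤ 1 := by
  unfold ind; split_ifs <;> norm_num

theorem ind_prod2 (S : Finset ℕ) (a b : ℕ) :
    0 ≤ (1 - ind S a) * ind S b ∧ (1 - ind S a) * ind S b ≤ 1 := by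
  unfold ind; split_ifs <;> norm_num

theorem ind_congr {S S' : Finset ℕ} {c : ℕ} (h : c ∈ S ↔ c ∈ S') : ind S c = ind S' c := by
  unfold ind; simp [h]

theorem O_lip {m k : ℕ} (hk : m + 1 = 2 * k) (S : Finset ℕ) (i j : ℕ) :
    |OO m S - OO m (insert j (S.erase i))| ≤ 16 * (k : ℝ) ^ 2 := by
  refine local_lip (range m) (fun a S => W m a * (ind S (a + 1) * (1 - ind S (a + 2)))) _
    (by positivity) (fun a ha S => ?_) (fun a _ S S' h => ?_) S i j
  · have a1 := W_nonneg ha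
    have a2 := W_le hk a
    have a3 := ind_prod1 S (a + 1) (a + 2)
    rw [abs_of_nonneg (mul_nonneg a1 a3.1)]
    exact (mul_le_of_le_one_right a1 a3.2).trans a2
  · simp only [ind_congr (h (a + 1) (by omega) (by omega)),
      ind_congr (h (a + 2) (by omega) (by omega))]

theorem H_lip {m k : ℕ} (hk : m + 1 = 2 * k) (S : Finset ℕ) (i j : ℕ) :
    |HH m S - HH m (insert j (S.erase i))| ≤ 16 * (2 * (k : ℝ)) := by
  refine local_lip (range (m + 1)) (fun a S => ((m : ℝ) - 2 * a) * ind S (a + 1)) _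
    (by positivity) (fun a ha S => ?_) (fun a _ S S' h => ?_) S i j
  · have a1 : (a : ℝ) ≤ m := by exact_mod_cast Nat.lt_succ_iff.1 (mem_range.1 ha)
    have a2 : (m : ℝ) ≤ 2 * k := by exact_mod_cast (by omega : m ≤ 2 * k)
    have a3 : (0 : ℝ) ≤ a := by positivity
    unfold ind
    split_ifs
    · rw [mul_one, abs_le]; constructor <;> linarith
    · simp
  · simp only [ind_congr (h (a + 1) (by omega) (by omega))]

theorem A_lip {m k : ℕ} (hk : m + 1 = 2 * k) (S : Finset ℕ) (i j : ℕ) :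
    |AA m S - AA m (insert j (S.erase i))| ≤ 16 * (16 * (k : ℝ) ^ 4) := by
  refine local_lip (range m) (fun a T => if a + 1 ∉ T ∧ a + 2 ∈ T then
    W m a * (OO m (dn T (a + 1)) - OO m T) else 0) _
    (by positivity) (fun a ha S => ?_) (fun a _ S S' h => ?_) S i j
  · split_ifs
    · have a1 := W_nonneg ha
      have a2 := W_le hk a
      have a3 := O_lip hk S (a + 1 + 1) (a + 1)
      rw [abs_mul, abs_of_nonneg a1, abs_sub_comm]
      calc _ ≤ (k : ℝ) ^ 2 * (16 * (k : ℝ) ^ 2) := mul_le_mul a2 a3 (abs_nonneg _) (by positivity)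
        _ = _ := by ring
    · rw [abs_zero]; positivity
  · have e1 := h (a + 1) (by omega) (by omega)
    have e2 := h (a + 2) (by omega) (by omega)
    have e3 : OO m (dn S (a + 1)) - OO m S = OO m (dn S' (a + 1)) - OO m S' := by
      unfold OO
      rw [← sum_sub_distrib, ← sum_sub_distrib]
      refine sum_congr rfl fun b _ => ?_
      by_cases hb : a ≤ b + 1 ∧ b ≤ a + 1
      · have f1 := h (b + 1) (by omega) (by omega)
        have f2 := h (b + 2) (by omega) (by omega)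
        have f3 : b + 1 ∈ dn S (a + 1) ↔ b + 1 ∈ dn S' (a + 1) := by
          simp only [dn, mem_insert, mem_erase, f1]
        have f4 : b + 2 ∈ dn S (a + 1) ↔ b + 2 ∈ dn S' (a + 1) := by
          simp only [dn, mem_insert, mem_erase, f2]
        rw [ind_congr f1, ind_congr f2, ind_congr f3, ind_congr f4]
      · have g : ∀ (T : Finset ℕ) (c : ℕ), c ≠ a + 1 → c ≠ a + 1 + 1 →
            (c ∈ dn T (a + 1) ↔ c ∈ T) := by
          intro T c h1 h2
          simp [dn, h1, h2]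
        rw [ind_congr (g S (b + 1) (by omega) (by omega)),
          ind_congr (g S (b + 2) (by omega) (by omega)),
          ind_congr (g S' (b + 1) (by omega) (by omega)),
          ind_congr (g S' (b + 2) (by omega) (by omega)), sub_self, sub_self]
    simp only [e1, e2, e3]

theorem O_bound {m k : ℕ} (hk : m + 1 = 2 * k) (S : Finset ℕ) :
    0 ≤ OO m S ∧ OO m S ≤ 2 * (k : ℝ) ^ 3 := by
  refine ⟨sum_nonneg fun a ha => mul_nonneg (W_nonneg ha) (ind_prod1 _ _ _).1, ?_⟩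
  have a2 : (m : ℝ) ≤ 2 * k := by exact_mod_cast (by omega : m ≤ 2 * k)
  calc _ ≤ ∑ _a ∈ range m, (k : ℝ) ^ 2 := sum_le_sum fun a ha =>
        (mul_le_of_le_one_right (W_nonneg ha) (ind_prod1 _ _ _).2).trans (W_le hk a)
    _ = m * (k : ℝ) ^ 2 := by rw [sum_const, nsmul_eq_mul, card_range]
    _ ≤ 2 * k * (k : ℝ) ^ 2 := by gcongr
    _ = _ := by ring

theorem I_bound {m k : ℕ} (hk : m + 1 = 2 * k) (S : Finset ℕ) :
    II m S ≤ 2 * (k : ℝ) ^ 3 := by
  have a2 : (m : ℝ) ≤ 2 * k := by exact_mod_cast (by omega : m ≤ 2 * k)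
  calc _ ≤ ∑ _a ∈ range m, (k : ℝ) ^ 2 := sum_le_sum fun a ha =>
        (mul_le_of_le_one_right (W_nonneg ha) (ind_prod2 _ _ _).2).trans (W_le hk a)
    _ = m * (k : ℝ) ^ 2 := by rw [sum_const, nsmul_eq_mul, card_range]
    _ ≤ 2 * k * (k : ℝ) ^ 2 := by gcongr
    _ = _ := by ring

theorem sum_W (m : ℕ) : ∑ a ∈ range m, W m a = (m : ℝ) * (m + 1) * (m + 2) / 6 := by
  have : ∀ (c : ℝ) (j : ℕ), ∑ a ∈ range j, ((a : ℝ) + 1) * (c - a) =
      c * j * (j + 1) / 2 - (j - 1) * j * (j + 1) / 3 := by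
    intro c j
    induction j with
    | zero => simp
    | succ j ih => rw [sum_range_succ, ih]; push_cast; ring
  unfold W
  rw [this]; ring

theorem mean_O {m k : ℕ} (hk : m + 1 = 2 * k) :
    (((2 * k).choose k : ℕ) : ℝ) * ((k : ℝ) ^ 3 / 4) ≤ ∑ S ∈ Om m k, OO m S := by
  obtain ⟨l, rfl⟩ : ∃ l, k = l + 1 := ⟨k - 1, by omega⟩
  have hc : ∀ a ∈ range m, (((2 * l).choose l : ℕ) : ℝ) ≤
      ∑ S ∈ Om m (l + 1), ind S (a + 1) * (1 - ind S (a + 2)) := by
    intro a ha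
    have ha' := mem_range.1 ha
    set Y := ((Icc 1 (m + 1)).erase (a + 1)).erase (a + 2) with hY
    have hYc : Y.card = 2 * l := by
      rw [hY, card_erase_of_mem (by simp; omega), card_erase_of_mem (by simp; omega)]
      simp; omega
    have hinj : Set.InjOn (fun R : Finset ℕ => insert (a + 1) R) (powersetCard l Y : Set _) := by
      intro R hR R' hR' h
      have h1 : a + 1 ∉ R := fun h => by
        have := (mem_powersetCard.1 hR).1 h; simp [hY] at this
      have h2 : a + 1 ∉ R' := fun h => by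
        have := (mem_powersetCard.1 hR').1 h; simp [hY] at this
      rw [← erase_insert h1, ← erase_insert h2]
      exact congrArg (fun s => Finset.erase s (a + 1)) h
    have hsub : (powersetCard l Y).image (fun R => insert (a + 1) R) ⊆ Om m (l + 1) := by
      intro S hS
      obtain ⟨R, hR, rfl⟩ := mem_image.1 hS
      obtain ⟨hR1, hR2⟩ := mem_powersetCard.1 hR
      have h1 : a + 1 ∉ R := fun h => by
        have := hR1 h; simp [hY] at this
      refine mem_powersetCard.2 ⟨insert_subset (mem_Icc.2 ⟨by omega, by omega⟩)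
        (hR1.trans ((erase_subset _ _).trans (erase_subset _ _))), ?_⟩
      rw [card_insert_of_notMem h1, hR2]
    calc _ = ∑ _S ∈ (powersetCard l Y).image (fun R => insert (a + 1) R), (1 : ℝ) := by
          rw [sum_const, card_image_of_injOn hinj, card_powersetCard, hYc, nsmul_eq_mul, mul_one]
      _ = ∑ S ∈ (powersetCard l Y).image (fun R => insert (a + 1) R),
            ind S (a + 1) * (1 - ind S (a + 2)) := by
          refine sum_congr rfl fun S hS => ?_
          obtain ⟨R, hR, rfl⟩ := mem_image.1 hS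
          have h1 : a + 2 ∉ R := fun h => by
            have := (mem_powersetCard.1 hR).1 h; simp [hY] at this
          simp [ind, h1]
      _ ≤ _ := sum_le_sum_of_subset_of_nonneg hsub fun S _ _ => (ind_prod1 _ _ _).1
  have h1 : ∑ S ∈ Om m (l + 1), OO m S =
      ∑ a ∈ range m, W m a * ∑ S ∈ Om m (l + 1), ind S (a + 1) * (1 - ind S (a + 2)) := by
    unfold OO
    rw [sum_comm]
    exact sum_congr rfl fun a _ => by rw [mul_sum]
  have h2 : (∑ a ∈ range m, W m a) * (((2 * l).choose l : ℕ) : ℝ) ≤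
      ∑ S ∈ Om m (l + 1), OO m S := by
    rw [h1, sum_mul]
    exact sum_le_sum fun a ha => mul_le_mul_of_nonneg_left (hc a ha) (W_nonneg ha)
  have h3 : (2 * (l + 1)).choose (l + 1) ≤ 4 * (2 * l).choose l := by
    have := Nat.succ_mul_centralBinom_succ l
    rw [Nat.centralBinom_eq_two_mul_choose, Nat.centralBinom_eq_two_mul_choose] at this
    refine Nat.le_of_mul_le_mul_left ?_ (Nat.succ_pos l)
    rw [Nat.succ_eq_add_one, this]
    nlinarith [Nat.zero_le ((2 * l).choose l)]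
  have h4 : (((2 * (l + 1)).choose (l + 1) : ℕ) : ℝ) ≤ 4 * (((2 * l).choose l : ℕ) : ℝ) := by
    exact_mod_cast h3
  have h5 : (((l + 1 : ℕ) : ℝ)) ^ 3 ≤ ∑ a ∈ range m, W m a := by
    rw [sum_W]
    have : (m : ℝ) = 2 * l + 1 := by exact_mod_cast (by omega : m = 2 * l + 1)
    rw [this]
    push_cast
    have : (0 : ℝ) ≤ l := by positivity
    nlinarith [pow_nonneg this 3, sq_nonneg (l : ℝ)]
  calc _ ≤ 4 * (((2 * l).choose l : ℕ) : ℝ) * ((∑ a ∈ range m, W m a) / 4) := by gcongr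
    _ = (∑ a ∈ range m, W m a) * (((2 * l).choose l : ℕ) : ℝ) := by ring
    _ ≤ _ := h2

theorem om_ne_zero {m : ℕ} {S T : Finset ℕ} (h : om m S T ≠ 0) : ∃ b, Mv S T b := by
  obtain ⟨a, _, ha⟩ := exists_ne_zero_of_sum_ne_zero h
  refine ⟨a + 1, ?_⟩
  by_contra hc
  simp [hc] at ha

theorem om_le {m k : ℕ} (hk : m + 1 = 2 * k) (S T : Finset ℕ) : om m S T ≤ (k : ℝ) ^ 2 := by
  unfold om
  by_cases hex : ∃ a ∈ range m, Mv S T (a + 1)
  · obtain ⟨a, ha, ha'⟩ := hex
    rw [sum_eq_single_of_mem a ha, if_pos ha']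
    · exact W_le hk a
    · intro b _ hb
      rw [if_neg]
      intro hb'
      have h1 : b + 1 ∈ T := by
        rw [ha'.2.2]
        exact mem_insert_of_mem (mem_erase.2 ⟨by omega, hb'.1⟩)
      exact ((mv_iff _ _ _).1 hb').1.1 h1
  · push Not at hex
    rw [sum_eq_zero fun a ha => if_neg (hex a ha)]
    positivity

theorem deficit {m k : ℕ} (hk : m + 1 = 2 * k) (hk2 : 256 ≤ k) :
    ∃ Q : Finset ℕ → Finset ℕ → ℝ, (∀ x y, 0 ≤ Q x y) ∧
      (∀ x y, Q x y ≤ om m x y / ((k : ℝ) ^ 3 / 16)) ∧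
      (∀ x ∈ Om m k, ∑ y ∈ Om m k, Q x y ≤ 1) ∧ (∀ y ∈ Om m k, ∑ x ∈ Om m k, Q x y ≤ 1) ∧
      ∑ x ∈ Om m k, (1 - ∑ y ∈ Om m k, Q x y) ≤
        10 ^ 13 * (√(k : ℝ) / (k : ℝ) ^ 2) * (((2 * k).choose k : ℕ) : ℝ) := by
  have hkR : (256 : ℝ) ≤ k := by exact_mod_cast hk2
  have hk0 : (0 : ℝ) < k := by linarith
  have hX : (Icc 1 (m + 1)).card = 2 * k := by simp; omega
  obtain ⟨Q, q1, q2, q3, q4, q5⟩ := flow (Om m k) (om m) (OO m) (II m) (AA m) ((k : ℝ) ^ 3 / 16)
    (2 * (k : ℝ) ^ 3) (16 * (k : ℝ) ^ 2) (by positivity) (by nlinarith [sq_nonneg (k : ℝ)])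
    (by positivity) (om_nonneg m) (fun x hx => row_sum hx) (fun x hx => col_I hx)
    (fun x hx => col_A hx) (fun y _ => I_bound hk y) (by
      intro x _ y _ h
      obtain ⟨b, hb⟩ := om_ne_zero h
      rw [hb.2.2]
      exact O_lip hk x b (b + 1))
  refine ⟨Q, q1, q2, q3, q4, q5.trans ?_⟩
  set N : ℝ := (((2 * k).choose k : ℕ) : ℝ) with hN
  have hN0 : 0 < N := by rw [hN]; exact_mod_cast Nat.choose_pos (by omega)
  have hcard : ((Om m k).card : ℝ) = N := by rw [Om, card_powersetCard, hX]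
  set s := √(k : ℝ) with hs
  have hs2 : s ^ 2 = k := Real.sq_sqrt hk0.le
  have hs1 : 1 ≤ s := by rw [hs]; exact Real.one_le_sqrt.2 (by linarith)
  have hr1 : 1 ≤ 2 * s := by linarith
  have hr2 : ((Icc 1 (m + 1)).card : ℝ) ≤ (2 * s) ^ 2 := by
    rw [hX, mul_pow, hs2]; push_cast; linarith
  have hOI : ∑ x ∈ Om m k, OO m x = ∑ x ∈ Om m k, II m x := by
    rw [sum_congr rfl fun x hx => row_sum hx, sum_congr rfl fun x hx => col_I hx, sum_comm]
  have hH : ∑ x ∈ Om m k, |OO m x - II m x| ≤ 6 * (16 * (2 * (k : ℝ))) * (2 * s) * N := by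
    have := abs_dev (16 * (2 * (k : ℝ))) (2 * s) (by positivity) (Icc 1 (m + 1)) hr1 hr2 k
      (HH m) 0 (fun S _ i _ j _ _ => H_lip hk S i j) (by
        rw [mul_zero]
        change ∑ x ∈ Om m k, HH m x = 0
        simp only [← O_sub_I, sum_sub_distrib, hOI, sub_self])
    simp only [sub_zero, hX] at this
    simp only [O_sub_I]
    exact this
  have hA : ∑ x ∈ Om m k, |AA m x| ≤ 4000 * (k : ℝ) ^ 4 * s * N := by
    set μ := (∑ x ∈ Om m k, AA m x) / N with hμ
    have e0 : ∑ x ∈ Om m k, AA m x = N * μ := by rw [hμ]; field_simp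
    have e1 := abs_dev (16 * (16 * (k : ℝ) ^ 4)) (2 * s) (by positivity) (Icc 1 (m + 1)) hr1 hr2 k
      (AA m) μ (fun S _ i _ j _ _ => A_lip hk S i j) (by rw [hX]; exact e0)
    rw [hX] at e1
    have e2 : ∑ x ∈ Om m k, AA m x = ∑ x ∈ Om m k, OO m x * (OO m x - II m x) := by
      rw [sum_congr rfl fun x hx => col_A hx]
      simp only [mul_sub, sum_sub_distrib]
      congr 1
      · rw [sum_comm]
        refine sum_congr rfl fun x hx => ?_
        rw [← sum_mul, ← row_sum hx]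
      · refine sum_congr rfl fun x hx => ?_
        rw [← sum_mul, ← col_I hx, mul_comm]
    have e3 : N * |μ| ≤ 2 * (k : ℝ) ^ 3 * (6 * (16 * (2 * (k : ℝ))) * (2 * s) * N) := by
      calc N * |μ| = |∑ x ∈ Om m k, OO m x * (OO m x - II m x)| := by
            rw [← e2, e0, abs_mul, abs_of_pos hN0]
        _ ≤ ∑ x ∈ Om m k, |OO m x * (OO m x - II m x)| := abs_sum_le_sum_abs _ _
        _ ≤ ∑ x ∈ Om m k, 2 * (k : ℝ) ^ 3 * |OO m x - II m x| := by
            refine sum_le_sum fun x _ => ?_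
            rw [abs_mul, abs_of_nonneg (O_bound hk x).1]
            exact mul_le_mul_of_nonneg_right (O_bound hk x).2 (abs_nonneg _)
        _ ≤ _ := by rw [← mul_sum]; gcongr
    have e4 : ∑ x ∈ Om m k, |AA m x| ≤ ∑ x ∈ Om m k, (|AA m x - μ| + |μ|) := by
      refine sum_le_sum fun x _ => ?_
      have := abs_add_le (AA m x - μ) μ
      rwa [sub_add_cancel] at this
    rw [sum_add_distrib, sum_const, nsmul_eq_mul, hcard] at e4
    have e5 : 0 ≤ (k : ℝ) ^ 4 * s * N := by positivity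
    change ∑ x ∈ Om m k, |AA m x - μ| ≤ _ at e1
    nlinarith
  have hbad : (((Om m k).filter (fun x => OO m x < 2 * ((k : ℝ) ^ 3 / 16))).card : ℝ) ≤
      N * (2 * 131072 ^ 2 / (k : ℝ) ^ 2) := by
    set μ := (∑ x ∈ Om m k, OO m x) / N with hμ
    have e0 : ∑ x ∈ Om m k, OO m x = N * μ := by rw [hμ]; field_simp
    have e1 : (k : ℝ) ^ 3 / 4 ≤ μ := by
      have := mean_O hk
      rw [e0] at this
      exact le_of_mul_le_mul_left this hN0
    have e2 := low_tail (16 * (k : ℝ) ^ 2) (1 / (8192 * (k : ℝ) ^ 2)) ((k : ℝ) ^ 3 / 8)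
      (by positivity) (by positivity) (by field_simp; norm_num) (Icc 1 (m + 1)) k (OO m) μ
      (fun S _ i _ j _ _ => O_lip hk S i j) (by rw [hX]; exact e0) (2 * ((k : ℝ) ^ 3 / 16))
      (by linarith)
    rw [hX] at e2
    refine e2.trans (mul_le_mul_of_nonneg_left ?_ hN0.le)
    have e3 : ((2 * k : ℕ) : ℝ) * (1 / (8192 * (k : ℝ) ^ 2) * (16 * (k : ℝ) ^ 2)) ^ 2 -
        1 / (8192 * (k : ℝ) ^ 2) * ((k : ℝ) ^ 3 / 8) = -((k : ℝ) / 131072) := by
      push_cast; field_simp; ring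
    rw [e3, Real.exp_neg, inv_eq_one_div, div_le_div_iff₀ (Real.exp_pos _) (by positivity)]
    have e4 := Real.quadratic_le_exp_of_nonneg (x := (k : ℝ) / 131072) (by positivity)
    have e5 : (0 : ℝ) ≤ (k : ℝ) / 131072 := by positivity
    nlinarith
  rw [hcard]
  have f1 : (1 + 2 * (k : ℝ) ^ 3 / ((k : ℝ) ^ 3 / 16)) = 33 := by field_simp; norm_num
  have f2 : 2 * (k : ℝ) ^ 3 * (16 * (k : ℝ) ^ 2) ^ 2 / ((k : ℝ) ^ 3 / 16) ^ 3 =
      2097152 / (k : ℝ) ^ 2 := by field_simp; norm_num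
  rw [f1, f2]
  have g1 : (∑ x ∈ Om m k, |OO m x - II m x|) / ((k : ℝ) ^ 3 / 16) ≤
      6144 * (s / (k : ℝ) ^ 2 * N) := by
    rw [div_le_iff₀ (by positivity)]
    refine hH.trans (le_of_eq ?_)
    field_simp; norm_num
  have g2 : (∑ x ∈ Om m k, |AA m x|) / ((k : ℝ) ^ 3 / 16) ^ 2 ≤
      1024000 * (s / (k : ℝ) ^ 2 * N) := by
    rw [div_le_iff₀ (by positivity)]
    refine hA.trans (le_of_eq ?_)
    field_simp; norm_num
  have g3 : N / (k : ℝ) ^ 2 ≤ s / (k : ℝ) ^ 2 * N := by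
    rw [div_mul_eq_mul_div]; gcongr; nlinarith
  have g4 : N * (2 * 131072 ^ 2 / (k : ℝ) ^ 2) = 2 * 131072 ^ 2 * (N / (k : ℝ) ^ 2) := by ring
  have g5 : N * (2097152 / (k : ℝ) ^ 2) = 2097152 * (N / (k : ℝ) ^ 2) := by ring
  have g6 : 0 ≤ s / (k : ℝ) ^ 2 * N := by positivity
  rw [g4] at hbad
  rw [g5, mul_assoc]
  linarith

/-- strict dominance order on finite sets of naturals -/
def Dom (S T : Finset ℕ) : Prop :=
  (∀ t, (T.filter (· < t)).card ≤ (S.filter (· < t)).card) ∧ ∑ a ∈ S, a < ∑ a ∈ T, a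

theorem Dom.trans {S T V : Finset ℕ} (h1 : Dom S T) (h2 : Dom T V) : Dom S V :=
  ⟨fun t => (h2.1 t).trans (h1.1 t), h1.2.trans h2.2⟩

theorem mv_dom {S T : Finset ℕ} {b : ℕ} (h : Mv S T b) :
    Dom S T ∧ ∑ a ∈ T, a = ∑ a ∈ S, a + 1 := by
  obtain ⟨h1, h2, rfl⟩ := h
  have h3 : b + 1 ∉ S.erase b := fun h => h2 (mem_of_mem_erase h)
  have e : ∑ a ∈ up S b, a = ∑ a ∈ S, a + 1 := by
    rw [up, sum_insert h3, ← add_sum_erase S (fun a => a) h1]; ring
  refine ⟨⟨fun t => ?_, by omega⟩, e⟩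
  have e1 : S = insert b (S.erase b) := (insert_erase h1).symm
  conv_rhs => rw [e1]
  rw [up, filter_insert, filter_insert]
  split_ifs with a1 a2 a2
  · rw [card_insert_of_notMem (by simp [h2]), card_insert_of_notMem (by simp)]
  · omega
  · exact card_le_card (subset_insert _ _)
  · exact le_rfl

theorem middle (m : ℕ) (Ω : Finset (Finset ℕ)) (S T : Finset ℕ) :
    (Ω.filter (fun M => om m S M ≠ 0 ∧ om m M T ≠ 0)).card ≤ 4 := by
  by_cases hne : (Ω.filter (fun M => om m S M ≠ 0 ∧ om m M T ≠ 0)) = ∅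
  · rw [hne]; simp
  obtain ⟨M, hM⟩ := nonempty_iff_ne_empty.2 hne
  obtain ⟨b, hb⟩ := om_ne_zero (mem_filter.1 hM).2.1
  obtain ⟨c, hc⟩ := om_ne_zero (mem_filter.1 hM).2.2
  have h1 : (S \ T).card ≤ 2 := by
    have : S \ T ⊆ {b, c} := by
      intro x hx
      obtain ⟨hx1, hx2⟩ := mem_sdiff.1 hx
      by_contra hx3
      simp only [mem_insert, mem_singleton, not_or] at hx3
      apply hx2
      rw [hc.2.2]
      refine mem_insert_of_mem (mem_erase.2 ⟨hx3.2, ?_⟩)
      rw [hb.2.2]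
      exact mem_insert_of_mem (mem_erase.2 ⟨hx3.1, hx1⟩)
    exact (card_le_card this).trans card_le_two
  have h2 : Ω.filter (fun M => om m S M ≠ 0 ∧ om m M T ≠ 0) ⊆
      ((S \ T) ∪ (S \ T).image (· + 1)).image (up S) := by
    intro M hM
    obtain ⟨b, hb⟩ := om_ne_zero (mem_filter.1 hM).2.1
    obtain ⟨c, hc⟩ := om_ne_zero (mem_filter.1 hM).2.2
    refine mem_image.2 ⟨b, ?_, hb.2.2.symm⟩
    by_cases hbT : b ∈ T
    · have b1 : b ∉ M := ((mv_iff _ _ _).1 hb).1.1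
      have c1 : c ∉ T := ((mv_iff _ _ _).1 hc).1.1
      have b2 : b = c + 1 := by
        rw [hc.2.2] at hbT
        rcases mem_insert.1 hbT with h | h
        · exact h
        · exact absurd (mem_of_mem_erase h) b1
      have c2 : c ∈ S := by
        have := hc.1
        rw [hb.2.2] at this
        rcases mem_insert.1 this with h | h
        · omega
        · exact mem_of_mem_erase h
      exact mem_union_right _ (mem_image.2 ⟨c, mem_sdiff.2 ⟨c2, c1⟩, b2.symm⟩)
    · exact mem_union_left _ (mem_sdiff.2 ⟨hb.1, hbT⟩)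
  have h3 := card_le_card h2
  have h4 := card_image_le (s := (S \ T) ∪ (S \ T).image (· + 1)) (f := up S)
  have h5 := card_union_le (S \ T) ((S \ T).image (· + 1))
  have h6 := card_image_le (s := S \ T) (f := (· + 1))
  omega

open Classical in
theorem supersat {m k : ℕ} (hk : m + 1 = 2 * k) (hk2 : 256 ≤ k) (U : Finset (Finset ℕ))
    (hU : U ⊆ Om m k) :
    (U.card : ℝ) ≤ 2 * 10 ^ 13 * (√(k : ℝ) / (k : ℝ) ^ 2) * (((2 * k).choose k : ℕ) : ℝ) +
      1024 / (k : ℝ) ^ 2 * (((U ×ˢ U).filter (fun p => Dom p.1 p.2)).card : ℝ) := by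
  have hkR : (256 : ℝ) ≤ k := by exact_mod_cast hk2
  have hk0 : (0 : ℝ) < k := by linarith
  obtain ⟨Q, q1, q2, q3, q4, q5⟩ := deficit hk hk2
  have qz : ∀ x y, Q x y ≠ 0 → om m x y ≠ 0 := by
    intro x y h h'
    have := q2 x y
    rw [h', zero_div] at this
    exact h (le_antisymm this (q1 x y))
  have qle : ∀ x y, Q x y ≤ 16 / (k : ℝ) := by
    intro x y
    refine (q2 x y).trans ?_
    calc _ ≤ (k : ℝ) ^ 2 / ((k : ℝ) ^ 3 / 16) := by gcongr; exact om_le hk x y
      _ = _ := by field_simp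
  have c := chain (Om m k) U hU (fun x y => ∑ z ∈ Om m k, Q x z * Q z y) Dom
    (fun S => ∑ a ∈ S, a) 2 (by norm_num) (1024 / (k : ℝ) ^ 2) (fun _ _ _ => Dom.trans)
    (fun x y => sum_nonneg fun z _ => mul_nonneg (q1 _ _) (q1 _ _)) ?_ ?_ ?_ ?_
  · have := square (Om m k) Q q3 q4
    linarith
  · intro x _ y _
    have e : ∑ z ∈ Om m k, Q x z * Q z y =
        ∑ z ∈ (Om m k).filter (fun M => om m x M ≠ 0 ∧ om m M y ≠ 0), Q x z * Q z y := by
      rw [sum_filter]
      refine sum_congr rfl fun z _ => ?_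
      split_ifs with h
      · rfl
      · by_contra hc
        exact h ⟨qz _ _ (left_ne_zero_of_mul hc), qz _ _ (right_ne_zero_of_mul hc)⟩
    change ∑ z ∈ Om m k, Q x z * Q z y ≤ _
    rw [e]
    calc _ ≤ ∑ _z ∈ (Om m k).filter (fun M => om m x M ≠ 0 ∧ om m M y ≠ 0),
          16 / (k : ℝ) * (16 / (k : ℝ)) :=
          sum_le_sum fun z _ => mul_le_mul (qle _ _) (qle _ _) (q1 _ _) (by positivity)
      _ ≤ 4 * (16 / (k : ℝ) * (16 / (k : ℝ))) := by
          rw [sum_const, nsmul_eq_mul]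
          gcongr
          exact_mod_cast middle m (Om m k) x y
      _ = _ := by field_simp; norm_num
  · intro x _ y _ h
    obtain ⟨z, _, hz⟩ := exists_ne_zero_of_sum_ne_zero h
    obtain ⟨b, hb⟩ := om_ne_zero (qz _ _ (left_ne_zero_of_mul hz))
    obtain ⟨c, hc⟩ := om_ne_zero (qz _ _ (right_ne_zero_of_mul hz))
    have a1 := mv_dom hb
    have a2 := mv_dom hc
    refine ⟨a1.1.trans a2.1, ?_⟩
    omega
  · intro x hx
    rw [sum_comm]
    refine le_trans (sum_le_sum fun z hz => ?_) (q3 x hx)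
    rw [← mul_sum]
    exact mul_le_of_le_one_right (q1 _ _) (q3 z hz)
  · intro y hy
    rw [sum_comm]
    refine le_trans (sum_le_sum fun z hz => ?_) (q4 y hy)
    rw [← sum_mul]
    exact mul_le_of_le_one_left (q1 _ _) (q4 z hz)

end Pool.Agent.H6.Lkk
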