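import Mathlib
import Pool.Agent.H6.Lkk

/-! Counting antichains of the dominance order on `k`-subsets of `[2k]`. -/

namespace Pool.Agent.H6.Lkk2

open Finset Pool.Agent.H6.Flow Pool.Agent.H6.Lkk

/-- sets without a related pair -/
def Indep {β : Type*} (r : β → β → Prop) (I : Finset β) : Prop := ∀ a ∈ I, ∀ b ∈ I, ¬ r a b

open Classical in
/-- Kleitman-Winston type bound by a potential argument. -/
theorem container {β : Type*} [DecidableEq β] (r : β → β → Prop) (hirr : ∀ v, ¬ r v v)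
    (Ω : Finset β) (R x : ℝ) (d : ℕ) (hx : 0 ≤ x) (hd : 1 ≤ (1 + x) ^ d * x)
    (hdeg : ∀ U ⊆ Ω, R < (U.card : ℝ) → ∃ v ∈ U, d ≤ (U.filter (r v)).card) :
    ∀ (n : ℕ) (U : Finset β), U.card = n → U ⊆ Ω →
      ((U.powerset.filter (Indep r)).card : ℝ) ≤
        (2 : ℝ) ^ R * (1 + x) ^ U.card := by
  intro n
  induction n using Nat.strong_induction_on with
  | _ n ih =>
    intro U hn hU
    have h1x : 1 ≤ 1 + x := by linarith
    have h2R : (0 : ℝ) < (2 : ℝ) ^ R := by positivity
    by_cases hR : R < (U.card : ℝ)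
    · obtain ⟨v, hv, hdv⟩ := hdeg U hU hR
      set U1 := U.erase v with hU1
      set U2 := U1 \ U.filter (r v) with hU2
      have c1 : U1.card + 1 = U.card := card_erase_add_one hv
      have s2 : U.filter (r v) ⊆ U1 := by
        intro a ha
        obtain ⟨a1, a2⟩ := mem_filter.1 ha
        exact mem_erase.2 ⟨fun h => hirr v (h ▸ a2), a1⟩
      have c2 : U2.card + d ≤ U1.card := by
        have : U2.card + (U.filter (r v)).card = U1.card := card_sdiff_add_card_eq_card s2
        omega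
      have i1 := ih U1.card (by omega) U1 rfl ((erase_subset _ _).trans hU)
      have i2 := ih U2.card (by omega) U2 rfl (sdiff_subset.trans ((erase_subset _ _).trans hU))
      have hsub : U.powerset.filter (Indep r) ⊆
          U1.powerset.filter (Indep r) ∪
            (U2.powerset.filter (Indep r)).image (insert v) := by
        intro I hI
        obtain ⟨hI1, hI2⟩ := mem_filter.1 hI
        have hI3 := mem_powerset.1 hI1
        by_cases hvI : v ∈ I
        · refine mem_union_right _ (mem_image.2 ⟨I.erase v, mem_filter.2 ⟨mem_powerset.2 ?_, ?_⟩,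
            insert_erase hvI⟩)
          · intro a ha
            obtain ⟨a1, a2⟩ := mem_erase.1 ha
            exact mem_sdiff.2 ⟨mem_erase.2 ⟨a1, hI3 a2⟩,
              fun h => hI2 v hvI a a2 (mem_filter.1 h).2⟩
          · intro a ha b hb
            exact hI2 a (mem_of_mem_erase ha) b (mem_of_mem_erase hb)
        · refine mem_union_left _ (mem_filter.2 ⟨mem_powerset.2 ?_, hI2⟩)
          intro a ha
          exact mem_erase.2 ⟨fun h => hvI (h ▸ ha), hI3 ha⟩
      have hc := (card_le_card hsub).trans ((card_union_le _ _).trans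
        (Nat.add_le_add_left card_image_le _))
      have hc' : ((U.powerset.filter (Indep r)).card : ℝ) ≤
          ((U1.powerset.filter (Indep r)).card : ℝ) +
          ((U2.powerset.filter (Indep r)).card : ℝ) := by
        exact_mod_cast hc
      have p1 : (1 + x) ^ U2.card ≤ (1 + x) ^ U1.card * x := by
        calc (1 + x) ^ U2.card ≤ (1 + x) ^ U2.card * ((1 + x) ^ d * x) :=
              le_mul_of_one_le_right (by positivity) hd
          _ = (1 + x) ^ (U2.card + d) * x := by ring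
          _ ≤ _ := by gcongr
      calc _ ≤ (2 : ℝ) ^ R * (1 + x) ^ U1.card + (2 : ℝ) ^ R * (1 + x) ^ U2.card := by linarith
        _ ≤ (2 : ℝ) ^ R * (1 + x) ^ U1.card + (2 : ℝ) ^ R * ((1 + x) ^ U1.card * x) := by gcongr
        _ = _ := by rw [← c1]; ring
    · push Not at hR
      calc _ ≤ ((U.powerset).card : ℝ) := by exact_mod_cast card_filter_le _ _
        _ = (2 : ℝ) ^ (U.card : ℝ) := by rw [card_powerset, Real.rpow_natCast]; push_cast; rfl
        _ ≤ (2 : ℝ) ^ R := Real.rpow_le_rpow_of_exponent_le (by norm_num) hR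
        _ ≤ _ := le_mul_of_one_le_right h2R.le (one_le_pow₀ h1x)

open Classical in
theorem upper {m k : ℕ} (hk : m + 1 = 2 * k) (hk2 : 10000 ≤ k) :
    (((Om m k).powerset.filter (Indep Dom)).card : ℝ) ≤
      (2 : ℝ) ^ (5 * 10 ^ 13 * (√(k : ℝ) / (k : ℝ) ^ 2) * (((2 * k).choose k : ℕ) : ℝ)) := by
  have hkR : (10000 : ℝ) ≤ k := by exact_mod_cast hk2
  have hk0 : (0 : ℝ) < k := by linarith
  set N : ℝ := (((2 * k).choose k : ℕ) : ℝ) with hN
  have hN0 : 0 < N := by rw [hN]; exact_mod_cast Nat.choose_pos (by omega)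
  have hX : (Icc 1 (m + 1)).card = 2 * k := by simp; omega
  have hcard : (Om m k).card = (2 * k).choose k := by rw [Om, card_powersetCard, hX]
  set s := √(k : ℝ) with hs
  have hs2 : s ^ 2 = k := Real.sq_sqrt hk0.le
  have hs0 : 0 < s := Real.sqrt_pos.2 hk0
  set y : ℝ := s / (k : ℝ) ^ 2 with hy
  have hy0 : 0 < y := by positivity
  set j : ℕ := k ^ 2 / 8192 with hj
  have hj1 : (3 * j : ℝ) ≤ (k : ℝ) ^ 2 / 2048 := by
    have : (j : ℝ) ≤ (k : ℝ) ^ 2 / 8192 := by
      rw [hj]; exact_mod_cast Nat.cast_div_le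
    have : (0 : ℝ) ≤ j := by positivity
    linarith
  have hj2 : (k : ℝ) ^ 2 / 10000 ≤ j := by
    have h1 : k ^ 2 < 8192 * (j + 1) := by
      rw [hj]; omega
    have h2 : ((k : ℝ)) ^ 2 < 8192 * (j + 1) := by exact_mod_cast h1
    nlinarith
  have hd : 1 ≤ (1 + 1000 * y) ^ (3 * j) * (1000 * y) := by
    have b1 : 1 + (j : ℝ) * (1000 * y) ≤ (1 + 1000 * y) ^ j :=
      one_add_mul_le_pow (by linarith) j
    have b2 : s / 10 ≤ (1 + 1000 * y) ^ j := by
      have : (k : ℝ) ^ 2 / 10000 * (1000 * y) = s / 10 := by rw [hy]; field_simp; norm_num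
      have : (k : ℝ) ^ 2 / 10000 * (1000 * y) ≤ (j : ℝ) * (1000 * y) := by gcongr
      linarith
    have b3 : (s / 10) ^ 3 * (1000 * y) = 1 := by
      rw [hy, ← hs2]; field_simp; norm_num
    rw [mul_comm 3 j, pow_mul]
    refine b3.symm.le.trans ?_
    gcongr
  have c := container Dom (fun v h => lt_irrefl _ h.2) (Om m k) (4 * 10 ^ 13 * y * N) (1000 * y)
    (3 * j) (by positivity) hd ?_ _ (Om m k) rfl subset_rfl
  · refine c.trans ?_
    rw [hcard]
    have e1 : (1 + 1000 * y) ^ ((2 * k).choose k) ≤ (2 : ℝ) ^ (2000 * y * N) := by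
      have a1 : 1 + 1000 * y ≤ (2 : ℝ) ^ (2000 * y) := by
        rw [Real.rpow_def_of_pos (by norm_num)]
        refine le_trans ?_ (Real.add_one_le_exp _)
        have := Real.log_two_gt_d9
        nlinarith
      rw [Real.rpow_mul (by norm_num), hN, Real.rpow_natCast]
      gcongr
    calc _ ≤ (2 : ℝ) ^ (4 * 10 ^ 13 * y * N) * (2 : ℝ) ^ (2000 * y * N) := by gcongr
      _ = (2 : ℝ) ^ (4 * 10 ^ 13 * y * N + 2000 * y * N) := by
          rw [Real.rpow_add (by norm_num)]
      _ ≤ _ := Real.rpow_le_rpow_of_exponent_le (by norm_num) (by nlinarith [mul_pos hy0 hN0])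
  · intro U hU hR
    have h1 := supersat hk (by omega) U hU
    by_contra hc
    push Not at hc
    have h2 : (((U ×ˢ U).filter (fun p => Dom p.1 p.2)).card : ℝ) ≤ U.card * (3 * j : ℝ) := by
      have : ((U ×ˢ U).filter (fun p => Dom p.1 p.2)).card = ∑ v ∈ U, (U.filter (Dom v)).card := by
        simp only [card_filter]
        rw [sum_product]
      rw [this]
      have : ∑ v ∈ U, (U.filter (Dom v)).card ≤ U.card * (3 * j) := by
        have := sum_le_card_nsmul U (fun v => (U.filter (Dom v)).card) (3 * j)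
          fun v hv => (hc v hv).le
        simpa using this
      exact_mod_cast this
    have h3 : 1024 / (k : ℝ) ^ 2 * (((U ×ˢ U).filter (fun p => Dom p.1 p.2)).card : ℝ) ≤
        U.card / 2 := by
      calc _ ≤ 1024 / (k : ℝ) ^ 2 * (U.card * ((k : ℝ) ^ 2 / 2048)) := by
            gcongr
            exact h2.trans (by gcongr)
        _ = _ := by field_simp; ring
    linarith

theorem big_level {m k : ℕ} (hk : m + 1 = 2 * k) :
    ∃ r : ℕ, 1 / 200 * (√(k : ℝ) / (k : ℝ) ^ 2) * (((2 * k).choose k : ℕ) : ℝ) ≤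
      (((Om m k).filter (fun S => ∑ a ∈ S, a = r)).card : ℝ) := by
  have hkR : (1 : ℝ) ≤ k := by exact_mod_cast (by omega : 1 ≤ k)
  have hk0 : (0 : ℝ) < k := by linarith
  set N : ℝ := (((2 * k).choose k : ℕ) : ℝ) with hN
  have hN0 : 0 < N := by rw [hN]; exact_mod_cast Nat.choose_pos (by omega)
  have hX : (Icc 1 (m + 1)).card = 2 * k := by simp; omega
  have hcard : ((Om m k).card : ℝ) = N := by rw [Om, card_powersetCard, hX]
  set s := √(k : ℝ) with hs
  have hs2 : s ^ 2 = k := Real.sq_sqrt hk0.le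
  have hs1 : 1 ≤ s := by rw [hs]; exact Real.one_le_sqrt.2 (by linarith)
  have hr1 : 1 ≤ 2 * s := by linarith
  have hr2 : ((Icc 1 (m + 1)).card : ℝ) ≤ (2 * s) ^ 2 := by
    rw [hX, mul_pow, hs2]; push_cast; linarith
  set f : Finset ℕ → ℝ := fun S => ((∑ a ∈ S, a : ℕ) : ℝ) with hf
  set μ := (∑ x ∈ Om m k, f x) / N with hμ
  have e0 : ∑ x ∈ Om m k, f x = N * μ := by rw [hμ]; field_simp
  have μ0 : 0 ≤ μ := div_nonneg (sum_nonneg fun _ _ => Nat.cast_nonneg _) hN0.le
  have e1 := abs_dev (2 * (k : ℝ)) (2 * s) (by positivity) (Icc 1 (m + 1)) hr1 hr2 k f μ (by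
    intro S hS i hi j hj hjS
    have a1 := mem_Icc.1 ((mem_powersetCard.1 hS).1 hi)
    have a2 := mem_Icc.1 hj
    have b1 : (i : ℝ) ≤ 2 * k := by exact_mod_cast (by omega : i ≤ 2 * k)
    have b2 : (j : ℝ) ≤ 2 * k := by exact_mod_cast (by omega : j ≤ 2 * k)
    have b3 : (0 : ℝ) ≤ i := by positivity
    have b4 : (0 : ℝ) ≤ j := by positivity
    simp only [hf]
    rw [sum_insert (fun h => hjS (mem_of_mem_erase h)), ← add_sum_erase S (fun a => a) hi]
    push_cast
    rw [abs_le]; constructor <;> linarith) (by rw [hX]; exact e0)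
  rw [hX] at e1
  change ∑ x ∈ Om m k, |f x - μ| ≤ _ at e1
  set t : ℝ := 48 * k * s with ht
  have ht0 : 48 ≤ t := by nlinarith
  set G := (Om m k).filter (fun S => |f S - μ| < t) with hG
  have e2 : N / 2 ≤ G.card := by
    have a1 : (((Om m k).filter (fun S => ¬ |f S - μ| < t)).card : ℝ) * t ≤
        ∑ x ∈ Om m k, |f x - μ| := by
      calc _ = ∑ _x ∈ (Om m k).filter (fun S => ¬ |f S - μ| < t), t := by
            rw [sum_const, nsmul_eq_mul]
        _ ≤ ∑ x ∈ (Om m k).filter (fun S => ¬ |f S - μ| < t), |f x - μ| :=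
            sum_le_sum fun x hx => not_lt.1 (mem_filter.1 hx).2
        _ ≤ _ := sum_le_sum_of_subset_of_nonneg (filter_subset _ _) fun _ _ _ => abs_nonneg _
    have a2 : (((Om m k).filter (fun S => ¬ |f S - μ| < t)).card : ℝ) ≤ N / 2 := by
      have : (((Om m k).filter (fun S => ¬ |f S - μ| < t)).card : ℝ) * t ≤ N / 2 * t := by
        refine a1.trans (e1.trans (le_of_eq ?_))
        rw [ht]; ring
      exact le_of_mul_le_mul_right this (by linarith)
    have a3 := card_filter_add_card_filter_not (s := Om m k) (fun S => |f S - μ| < t)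
    have a4 : (G.card : ℝ) + (((Om m k).filter (fun S => ¬ |f S - μ| < t)).card : ℝ) = N := by
      rw [← hcard]; exact_mod_cast a3
    linarith
  set J := Icc ⌊μ - t⌋₊ ⌊μ + t⌋₊ with hJ
  have hJc : (J.card : ℝ) ≤ 100 * k * s := by
    have a1 : (⌊μ + t⌋₊ : ℝ) ≤ μ + t := Nat.floor_le (by linarith)
    have a2 : μ - t < ⌊μ - t⌋₊ + 1 := Nat.lt_floor_add_one _
    have a3 : ⌊μ - t⌋₊ ≤ ⌊μ + t⌋₊ + 1 := by
      have := Nat.floor_le_floor (show μ - t ≤ μ + t by linarith)
      omega
    rw [hJ, Nat.card_Icc, Nat.cast_sub a3]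
    push_cast
    nlinarith
  have hne : J.Nonempty := ⟨⌊μ - t⌋₊, mem_Icc.2 ⟨le_rfl,
    Nat.floor_le_floor (show μ - t ≤ μ + t by linarith)⟩⟩
  obtain ⟨r, _, hr⟩ := exists_max_image J
    (fun r => ((Om m k).filter (fun S => ∑ a ∈ S, a = r)).card) hne
  refine ⟨r, ?_⟩
  have e3 : G.card ≤ J.card * ((Om m k).filter (fun S => ∑ a ∈ S, a = r)).card := by
    have a1 : G ⊆ J.biUnion (fun r => (Om m k).filter (fun S => ∑ a ∈ S, a = r)) := by
      intro S hS
      obtain ⟨h1, h2⟩ := mem_filter.1 hS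
      obtain ⟨h3, h4⟩ := abs_lt.1 h2
      refine mem_biUnion.2 ⟨∑ a ∈ S, a, mem_Icc.2 ⟨?_, ?_⟩, mem_filter.2 ⟨h1, rfl⟩⟩
      · exact Nat.floor_le_of_le (by simp only [hf] at h3; linarith)
      · exact Nat.le_floor (by simp only [hf] at h4; linarith)
    exact (card_le_card a1).trans (card_biUnion_le_card_mul _ _ _ hr)
  have e4 : (G.card : ℝ) ≤ J.card * (((Om m k).filter (fun S => ∑ a ∈ S, a = r)).card : ℝ) := by
    exact_mod_cast e3
  have e5 : N / 2 ≤ 100 * k * s * (((Om m k).filter (fun S => ∑ a ∈ S, a = r)).card : ℝ) :=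
    e2.trans (e4.trans (mul_le_mul_of_nonneg_right hJc (Nat.cast_nonneg _)))
  have e6 : 1 / 200 * (s / (k : ℝ) ^ 2) * N = N / 2 / (100 * k * s) := by
    have : (k : ℝ) ^ 2 = k * s ^ 2 := by rw [hs2]; ring
    rw [this]; field_simp; ring
  rw [e6, div_le_iff₀ (by positivity)]
  linarith

/-- The subset attached to a monotone sequence. -/
def phi {k : ℕ} (x : Fin k → ℕ) : Finset ℕ := univ.image (fun i : Fin k => x i + i + 1)

theorem smono {k : ℕ} {x : Fin k → ℕ} (hx : Monotone x) :
    StrictMono (fun i : Fin k => x i + i + 1) := by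
  intro i j h
  have h1 := hx h.le
  have h2 : (i : ℕ) < j := h
  change x i + i + 1 < x j + j + 1
  omega

theorem le_of_dom {k : ℕ} {x y : Fin k → ℕ} (hx : Monotone x) (hy : Monotone y)
    (h : ∀ t, ((phi y).filter (· < t)).card ≤ ((phi x).filter (· < t)).card) (i : Fin k) :
    x i ≤ y i := by
  by_contra hc
  push Not at hc
  have h1 := h (y i + i + 2)
  have h2 : (Iic i).image (fun j : Fin k => y j + j + 1) ⊆
      (phi y).filter (· < y i + i + 2) := by
    intro a ha
    obtain ⟨j, hj, rfl⟩ := mem_image.1 ha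
    have := (smono hy).monotone (mem_Iic.1 hj)
    exact mem_filter.2 ⟨mem_image_of_mem _ (mem_univ _), by omega⟩
  have h3 : (phi x).filter (· < y i + i + 2) ⊆
      (Iio i).image (fun j : Fin k => x j + j + 1) := by
    intro a ha
    obtain ⟨ha1, ha2⟩ := mem_filter.1 ha
    obtain ⟨j, _, rfl⟩ := mem_image.1 ha1
    refine mem_image_of_mem _ (mem_Iio.2 ?_)
    by_contra hj
    have := (smono hx).monotone (not_lt.1 hj)
    omega
  have h4 := card_le_card h2
  have h5 := (card_le_card h3).trans card_image_le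
  rw [card_image_of_injective _ (smono hy).injective, Fin.card_Iic] at h4
  rw [Fin.card_Iio] at h5
  omega

theorem phi_mem {m k : ℕ} (hk : m + 1 = 2 * k) {x : Fin k → ℕ} (hx : Monotone x)
    (hx2 : ∀ i, x i ≤ k) : phi x ∈ Om m k := by
  refine mem_powersetCard.2 ⟨fun a ha => ?_, ?_⟩
  · obtain ⟨j, _, rfl⟩ := mem_image.1 ha
    have h1 := hx2 j
    have h2 := j.2
    exact mem_Icc.2 ⟨by omega, by omega⟩
  · rw [phi, card_image_of_injective _ (smono hx).injective, card_univ, Fintype.card_fin]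

theorem sum_phi {k : ℕ} {x : Fin k → ℕ} (hx : Monotone x) :
    ∑ a ∈ phi x, a = ∑ i, x i + ∑ i : Fin k, ((i : ℕ) + 1) := by
  rw [phi, sum_image fun a _ b _ h => (smono hx).injective h, ← sum_add_distrib]
  exact sum_congr rfl fun i _ => by ring

theorem gap {k : ℕ} {f : Fin k → ℕ} (hf : StrictMono f) :
    ∀ (d : ℕ) (i j : Fin k), (j : ℕ) = i + d → f i + d ≤ f j := by
  intro d
  induction d with
  | zero => intro i j h; rw [show j = i from Fin.ext (by omega)]; omega
  | succ d ih =>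
    intro i j h
    have h1 := ih i ⟨i + d, by have := j.2; omega⟩ rfl
    have h2 : f ⟨i + d, by have := j.2; omega⟩ < f j := hf (by
      change i + d < (j : ℕ); omega)
    omega

theorem phi_surj {m k : ℕ} (hk : m + 1 = 2 * k) {S : Finset ℕ} (hS : S ∈ Om m k) :
    ∃ x : Fin k → ℕ, Monotone x ∧ (∀ i, x i ≤ k) ∧ phi x = S := by
  obtain ⟨hS1, hS2⟩ := mem_powersetCard.1 hS
  set f : Fin k → ℕ := fun i => S.orderEmbOfFin hS2 i with hf
  have hm : StrictMono f := (S.orderEmbOfFin hS2).strictMono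
  have hmem : ∀ i, 1 ≤ f i ∧ f i ≤ m + 1 := fun i =>
    mem_Icc.1 (hS1 (orderEmbOfFin_mem S hS2 i))
  have h1 : ∀ i : Fin k, (i : ℕ) + 1 ≤ f i := by
    intro i
    have := gap hm i ⟨0, by omega⟩ i (by simp)
    have := (hmem ⟨0, by omega⟩).1
    omega
  refine ⟨fun i => f i - i - 1, fun i j hij => ?_, fun i => ?_, ?_⟩
  · have h2 : (i : ℕ) ≤ j := hij
    have := gap hm (j - i) i j (by omega)
    have := h1 i
    simp only
    omega
  · have := i.2
    have := gap hm (k - 1 - i) i ⟨k - 1, by omega⟩ (by simp only; omega)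
    have := (hmem ⟨k - 1, by omega⟩).2
    simp only
    omega
  · have : (fun i : Fin k => f i - i - 1 + i + 1) = f := by
      funext i
      have := h1 i
      omega
    rw [phi, this, hf]
    exact image_orderEmbOfFin_univ S hS2

end Pool.Agent.H6.Lkk2
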