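import Mathlib

namespace Pool.Agent.H6.MFam

open Finset Filter
open scoped Classical

variable {V E V' E' : Type} (g : E → Sym2 V) (g' : E' → Sym2 V')

/-- The vertices met by a finite edge set. -/
noncomputable def vs (F : Finset E) : Finset V := F.biUnion fun e => (g e).toFinset

/-- Edges minus vertices. -/
noncomputable def h (F : Finset E) : ℤ := #F - #(vs g F)

def Min (F : Finset E) (k : ℤ) : Prop := h g F = k ∧ ∀ B ⊂ F, h g B < k

structure Rep (C : Set E) (N : ℕ) (A : Finset E) (T : ℕ → Finset E) : Prop where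
  a : Min g A N
  t : ∀ i ≥ N, Min g (T i) 1 ∧ #(T i) = i + 2 ∧ Disjoint (vs g (T i)) (vs g A)
  d : ∀ i ≥ N, ∀ j ≥ N, i ≠ j → Disjoint (vs g (T i)) (vs g (T j))
  m : ∀ e, e ∈ C ↔ e ∈ A ∨ ∃ i ≥ N, e ∈ T i

def Good (C : Set E) : Prop := ∃ N A T, Rep g C N A T

variable {g g'}

lemma mem_vs {F : Finset E} {v : V} : v ∈ vs g F ↔ ∃ e ∈ F, v ∈ g e := by simp [vs]

lemma vs_mono {X Y : Finset E} (s : X ⊆ Y) : vs g X ⊆ vs g Y :=
  biUnion_subset_biUnion_of_subset_left _ s

lemma vs_union (X Y : Finset E) : vs g (X ∪ Y) = vs g X ∪ vs g Y := union_biUnion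

lemma notMem {X Y : Finset E} (d : Disjoint (vs g X) (vs g Y)) {e : E} (h1 : e ∈ X) : e ∉ Y :=
  fun h2 => disjoint_left.mp d (mem_vs.mpr ⟨e, h1, Sym2.out_fst_mem _⟩)
    (mem_vs.mpr ⟨e, h2, Sym2.out_fst_mem _⟩)

lemma h_super (X Y : Finset E) : h g X + h g Y ≤ h g (X ∪ Y) + h g (X ∩ Y) := by
  have h1 := card_union_add_card_inter X Y
  have h2 := card_union_add_card_inter (vs g X) (vs g Y)
  have h3 := card_le_card (subset_inter (vs_mono (g := g) (inter_subset_left (s₁ := X) (s₂ := Y)))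
    (vs_mono inter_subset_right))
  simp only [h, vs_union]
  omega

lemma h_add {X Y : Finset E} (d : Disjoint (vs g X) (vs g Y)) : h g (X ∪ Y) = h g X + h g Y := by
  simp only [h, vs_union, card_union_of_disjoint d,
    card_union_of_disjoint (disjoint_left.mpr fun _ => notMem d)]
  omega

lemma h_erase (X : Finset E) (e : E) : h g X - 1 ≤ h g (X.erase e) := by
  have h1 := pred_card_le_card_erase (s := X) (a := e)
  have h2 := card_le_card (vs_mono (g := g) (erase_subset e X))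
  simp only [h]
  omega

lemma Min.eq {A B : Finset E} {k : ℤ} (m : Min g A k) (s : B ⊆ A) (l : k ≤ h g B) : B = A := by
  by_contra c
  exact absurd (m.2 B (Finset.ssubset_iff_subset_ne.mpr ⟨s, c⟩)) l.not_gt

lemma Min.le {A B : Finset E} {k : ℤ} (m : Min g A k) (s : B ⊆ A) : h g B ≤ k := by
  by_contra! c
  rw [m.eq s c.le, m.1] at c
  exact c.false

lemma exists_min {X : Finset E} {k : ℕ} (l : k ≤ h g X) : ∃ A ⊆ X, Min g A k := by
  obtain ⟨A, h1, h2⟩ := exists_min_image {A ∈ X.powerset | k ≤ h g A} card ⟨X, by simpa using l⟩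
  simp only [mem_filter, mem_powerset, and_imp] at h1 h2
  have h3 : ∀ B ⊂ A, h g B < k := fun B s => by
    by_contra! c
    exact absurd (h2 B (s.subset.trans h1.1) c) (card_lt_card s).not_ge
  refine ⟨A, h1.1, le_antisymm ?_ h1.2, h3⟩
  rcases A.eq_empty_or_nonempty with rfl | ⟨e, he⟩
  · simp [h, vs]
  · have := h3 _ (erase_ssubset he)
    have := h_erase (g := g) A e
    omega

variable {C D : Set E} {N : ℕ} {A : Finset E} {T : ℕ → Finset E}

lemma Rep.bump (r : Rep g C N A T) : Rep g C (N + 1) (A ∪ T N) T := by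
  obtain ⟨t1, -, t3⟩ := r.t N le_rfl
  refine ⟨⟨by rw [h_add t3.symm, r.a.1, t1.1]; simp, fun B s => ?_⟩, fun i hi => ?_,
    fun i hi j hj => r.d i (by omega) j (by omega), fun e => ?_⟩
  · have e : B = B ∩ A ∪ B ∩ T N := by rw [← inter_union_distrib_left, inter_eq_left.mpr s.subset]
    by_contra! c
    rw [e, h_add (t3.symm.mono (vs_mono inter_subset_right) (vs_mono inter_subset_right))] at c
    have h1 := r.a.le (inter_subset_right (s₁ := B))
    have h2 := t1.le (inter_subset_right (s₁ := B))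
    rw [r.a.eq inter_subset_right (by omega), t1.eq inter_subset_right (by omega)] at e
    exact s.ne e
  · obtain ⟨u1, u2, u3⟩ := r.t i (by omega)
    exact ⟨u1, u2, by
      rw [vs_union, disjoint_union_right]; exact ⟨u3, r.d i (by omega) N le_rfl (by omega)⟩⟩
  · rw [r.m, mem_union, or_assoc]
    refine or_congr_right ⟨fun ⟨i, hi, he⟩ => ?_, ?_⟩
    · rcases hi.eq_or_lt with rfl | l
      · exact .inl he
      · exact .inr ⟨i, l, he⟩
    · rintro (he | ⟨i, hi, he⟩)
      · exact ⟨N, le_rfl, he⟩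
      · exact ⟨i, by omega, he⟩

lemma Rep.ev (r : Rep g C N A T) : ∀ᶠ M in atTop, ∃ B, Rep g C M B T :=
  (eventually_ge_atTop N).mono fun M hM => by
    induction hM with
    | refl => exact ⟨A, r⟩
    | step _ ih => exact ⟨_, ih.choose_spec.bump⟩

lemma Rep.far (r : Rep g C N A T) (W : Finset V) : ∀ᶠ i in atTop, Disjoint (vs g (T i)) W := by
  simp only [disjoint_right]
  refine (eventually_all_finset W).mpr fun w _ => ?_
  by_cases c : ∃ j ≥ N, w ∈ vs g (T j)
  · obtain ⟨j, hj, hw⟩ := c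
    exact (eventually_gt_atTop j).mono fun i hi =>
      disjoint_right.mp (r.d i (by omega) j hj (by omega)) hw
  · exact (eventually_ge_atTop N).mono fun i hi hw => c ⟨i, hi, hw⟩

lemma Good.norm (r : Good g C) (W : Finset V) :
    ∃ N A T, Rep g C N A T ∧ ∀ i ≥ N, Disjoint (vs g (T i)) W := by
  obtain ⟨N, A, T, r⟩ := r
  obtain ⟨M, ⟨B, h1⟩, h2⟩ := (r.ev.and (eventually_forall_ge_atTop.mpr (r.far W))).exists
  exact ⟨M, B, T, h1, h2⟩

theorem Good.eq (r : Good g C) (r' : Good g D) (s : C ⊆ D) : C = D := by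
  obtain ⟨N, A, T, r⟩ := r
  obtain ⟨N', A', T', r'⟩ := r'
  have k : ∀ᶠ i in atTop, T i = T' i := by
    filter_upwards [r.far (vs g A'), eventually_ge_atTop N] with i d hi
    obtain ⟨t1, t2, -⟩ := r.t i hi
    have m : ∀ e ∈ T i, ∃ j ≥ N', e ∈ T' j := fun e he =>
      ((r'.m e).mp (s ((r.m e).mpr (.inr ⟨i, hi, he⟩)))).resolve_left (notMem d he)
    obtain ⟨e, he⟩ := card_pos.mp (by omega : 0 < #(T i))
    obtain ⟨j, hj, ej⟩ := m e he
    obtain ⟨u1, u2, -⟩ := r'.t j hj
    have h1 := h_add (g := g) (X := T i \ T' j) (Y := T i ∩ T' j) (disjoint_left.mpr fun v a b => by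
      obtain ⟨x, x1, x2⟩ := mem_vs.mp a
      obtain ⟨l, hl, xl⟩ := m x (mem_sdiff.mp x1).1
      exact disjoint_left.mp (r'.d l hl j hj fun e => (mem_sdiff.mp x1).2 (e ▸ xl))
        (mem_vs.mpr ⟨x, xl, x2⟩) (vs_mono inter_subset_right b))
    have h2 := t1.2 (T i \ T' j) ⟨sdiff_subset, fun c => (mem_sdiff.mp (c he)).2 ej⟩
    rw [sdiff_union_inter, t1.1] at h1
    have e := (t1.eq inter_subset_left (by omega)).symm.trans (u1.eq inter_subset_right (by omega))
    rw [e] at t2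
    rwa [show i = j by omega] at e ⊢
  obtain ⟨M, ⟨B, h1⟩, ⟨B', h2⟩, h3⟩ :=
    (r.ev.and (r'.ev.and (eventually_forall_ge_atTop.mpr k))).exists
  have e := h2.a.eq (B := B) (fun e he => ((h2.m e).mp (s ((h1.m e).mpr (.inl he)))).resolve_right
    fun ⟨i, hi, c⟩ => notMem (h1.t i hi).2.2 (h3 i hi ▸ c) he) h1.a.1.ge
  ext x
  rw [h1.m, h2.m, e]
  exact or_congr_right (exists_congr fun i => and_congr_right fun hi => by rw [h3 i hi])

theorem Good.elim (r : Good g C) (r' : Good g D) {e f : E} (fD : f ∈ D) (fC : f ∉ C) (eD : e ∈ D) :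
    ∃ B, Good g B ∧ B ⊆ (C ∪ D) \ {e} := by
  obtain ⟨N', A', T', r', d'⟩ := r'.norm (vs g {e, f})
  have m : ∀ x ∈ ({e, f} : Finset E), x ∈ D → x ∈ A' := fun x h1 h2 =>
    ((r'.m x).mp h2).resolve_right fun ⟨i, hi, c⟩ => notMem (d' i hi) c h1
  obtain ⟨N, A, T, r, d⟩ := r.norm (vs g A')
  have h1 := h_super (g := g) A A'
  have h2 := r'.a.2 (A ∩ A') ⟨inter_subset_right, fun c =>
    fC ((r.m f).mpr (.inl (mem_inter.mp (c (m f (by simp) fD))).1))⟩
  have h3 := h_erase (g := g) (A ∪ A') e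
  rw [r.a.1, r'.a.1] at h1
  obtain ⟨B, s, mB⟩ := exists_min (g := g) (X := (A ∪ A').erase e) (k := N) (by omega)
  refine ⟨{x | x ∈ B ∨ ∃ i ≥ N, x ∈ T i}, ⟨N, B, T, mB, fun i hi => ⟨(r.t i hi).1, (r.t i hi).2.1,
    Disjoint.mono_right (vs_mono (s.trans (erase_subset _ _))) ?_⟩, r.d, fun _ => Iff.rfl⟩, ?_⟩
  · rw [vs_union, disjoint_union_right]
    exact ⟨(r.t i hi).2.2, d i hi⟩
  · rintro x (hx | ⟨i, hi, hx⟩)
    · have := mem_erase.mp (s hx)
      exact ⟨(mem_union.mp this.2).imp (fun c => (r.m x).mpr (.inl c)) fun c => (r'.m x).mpr (.inl c),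
        this.1⟩
    · exact ⟨.inl ((r.m x).mpr (.inr ⟨i, hi, hx⟩)), fun c =>
        notMem (d i hi) hx (c ▸ m e (by simp) eD)⟩

lemma Rep.congr (r : Rep g C N A T) {U : ℕ → Finset E} (e : ∀ i ≥ N, T i = U i) :
    Rep g C N A U :=
  ⟨r.a, fun i hi => e i hi ▸ r.t i hi, fun i hi j hj => e i hi ▸ e j hj ▸ r.d i hi j hj, fun x =>
    (r.m x).trans (or_congr_right (exists_congr fun i => and_congr_right fun hi => by rw [e i hi]))⟩

lemma rep_iff [DecidableEq E'] (p : E → Finset E') (p1 : ∀ x, ∃ y, y ∈ p x)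
    (p2 : ∀ x z y, y ∈ p x → y ∈ p z → x = z)
    (ha : ∀ F : Finset E, h g' (F.biUnion p) = h g F)
    (hc : ∀ F : Finset E, ∀ B' ⊂ F.biUnion p, ∃ B ⊂ F, h g' B' ≤ h g B)
    (hd : ∀ X Y : Finset E, Disjoint (vs g' (X.biUnion p)) (vs g' (Y.biUnion p)) ↔
      Disjoint (vs g X) (vs g Y)) (he : ∀ i ≥ N, #((T i).biUnion p) = #(T i)) :
    Rep g' {y | ∃ x ∈ C, y ∈ p x} N (A.biUnion p) (fun i => (T i).biUnion p) ↔ Rep g C N A T := by
  have k : ∀ (F : Finset E) x y, y ∈ p x → (y ∈ F.biUnion p ↔ x ∈ F) := fun F x y hy => by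
    rw [mem_biUnion]
    exact ⟨fun ⟨z, h1, h2⟩ => p2 _ _ _ h2 hy ▸ h1, fun h => ⟨x, h, hy⟩⟩
  have m : ∀ (F : Finset E) n, Min g' (F.biUnion p) n ↔ Min g F n := fun F n =>
    and_congr (by rw [ha]) ⟨fun H B s => ha B ▸ H _ ⟨biUnion_subset_biUnion_of_subset_left _ s.1,
      fun c => s.2 fun x hx => by
        obtain ⟨y, hy⟩ := p1 x
        exact (k _ x y hy).mp (c ((k _ x y hy).mpr hx))⟩, fun H B' s => by
      obtain ⟨B, h1, h2⟩ := hc F B' s
      exact h2.trans_lt (H B h1)⟩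
  refine ⟨fun r => ⟨(m _ _).mp r.a, fun i hi => ?_, fun i hi j hj n => (hd _ _).mp (r.d i hi j hj n),
    fun x => ?_⟩, fun r => ⟨(m _ _).mpr r.a, fun i hi => ?_,
      fun i hi j hj n => (hd _ _).mpr (r.d i hi j hj n), fun y => ?_⟩⟩
  · simpa only [m, hd, he i hi] using r.t i hi
  · obtain ⟨y, hy⟩ := p1 x
    simp only [← k _ x y hy, ← r.m y]
    exact ⟨fun h => ⟨x, h, hy⟩, fun ⟨z, h1, h2⟩ => p2 _ _ _ h2 hy ▸ h1⟩
  · simpa only [m, hd, he i hi] using r.t i hi
  · simp only [Set.mem_ofPred_eq, r.m, mem_biUnion]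
    grind

theorem good_emb {φ : V → V'} {ψ : E → E'} (hφ : φ.Injective) (hψ : ψ.Injective)
    (e : ∀ x, g' (ψ x) = (g x).map φ) : Good g' (ψ '' C) ↔ Good g C := by
  have b : ∀ F : Finset E, (F.biUnion fun x => {ψ x}) = F.image ψ := fun F => biUnion_singleton
  have v : ∀ F : Finset E, vs g' (F.image ψ) = (vs g F).image φ := fun F => by
    ext; simp only [mem_vs, mem_image, exists_exists_and_eq_and, e, Sym2.mem_map]; grind
  have a : ∀ F : Finset E, h g' (F.image ψ) = h g F := fun F => by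
    simp only [h, v, card_image_of_injective _ hφ, card_image_of_injective _ hψ]
  have k := fun N A T => rep_iff (g := g) (g' := g') (C := C) (N := N) (A := A) (T := T)
    (fun x => {ψ x}) (by simp) (by simp only [mem_singleton]; rintro x z _ rfl c; exact hψ c)
    (by simpa only [b] using a) (fun F B' s => by
      rw [b] at s
      obtain ⟨B, s1, rfl⟩ := subset_image_iff.mp s.1
      exact ⟨B, ⟨s1, fun c => s.2 (image_subset_image c)⟩, (a B).le⟩)
    (fun X Y => by simp only [b, v, disjoint_image hφ])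
    fun i _ => by rw [b, card_image_of_injective _ hψ]
  simp only [b, mem_singleton, eq_comm (b := ψ _)] at k
  refine ⟨fun ⟨N, A, T, r⟩ => ?_, fun ⟨N, A, T, r⟩ => ⟨N, _, _, (k N A T).mpr r⟩⟩
  have l : ∀ F : Finset E', (∀ y ∈ F, y ∈ ψ '' C) → ∃ B : Finset E, B.image ψ = F := fun F H => by
    obtain ⟨B, -, c⟩ := subset_set_image_iff.mp (show (F : Set E') ⊆ ψ '' C from H)
    exact ⟨B, c⟩
  obtain ⟨B, rfl⟩ := l A fun y hy => (r.m y).mpr (.inl hy)
  choose! U hU using fun i (hi : i ≥ N) => l (T i) fun y hy => (r.m y).mpr (.inr ⟨i, hi, hy⟩)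
  exact ⟨N, B, U, (k _ _ _).mp (r.congr fun i hi => (hU i hi).symm)⟩

theorem good_sub {e : E} {u v : V} (he : g e = s(u, v)) {g' : Option E → Sym2 (Option V)}
    (h0 : g' none = s(some u, none)) (h1 : g' (some e) = s(none, some v))
    (h2 : ∀ f ≠ e, g' (some f) = (g f).map some) : Good g' Set.univ ↔ Good g Set.univ := by
  let p : E → Finset (Option E) := fun x => if x = e then {none, some e} else {some x}
  have mp : ∀ F : Finset E, (none ∈ F.biUnion p ↔ e ∈ F) ∧ ∀ x, some x ∈ F.biUnion p ↔ x ∈ F :=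
    fun F => by simp only [mem_biUnion, p]; grind
  have mv : ∀ F : Finset E, (none ∈ vs g' (F.biUnion p) ↔ e ∈ F) ∧
      ∀ x, some x ∈ vs g' (F.biUnion p) ↔ x ∈ vs g F := fun F => by
    simp only [mem_vs, Option.exists, mp, h0]
    refine ⟨⟨?_, fun c => .inl ⟨c, by simp⟩⟩, fun x => ⟨?_, fun ⟨f, f1, f2⟩ => ?_⟩⟩
    · rintro (c | ⟨f, f1, f2⟩)
      · exact c.1
      · by_cases c : f = e
        · exact c ▸ f1
        · simp [h2 f c] at f2
    · rintro (c | ⟨f, f1, f2⟩)
      · exact ⟨e, c.1, by simpa [he] using .inl (by simpa using c.2)⟩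
      · refine ⟨f, f1, ?_⟩
        by_cases c : f = e
        · simpa [c, he] using .inr (by simpa [c, h1] using f2)
        · simpa [h2 f c] using f2
    · by_cases c : f = e
      · subst c
        rw [he, Sym2.mem_iff] at f2
        exact f2.imp (fun c => ⟨f1, by simp [c]⟩) fun c => ⟨f, f1, by simp [c, h1]⟩
      · exact .inr ⟨f, f1, by simpa [h2 f c] using f2⟩
  have cd : ∀ {α : Type} (X : Finset (Option α)) (Y : Finset α) (q : Prop), (none ∈ X ↔ q) →
      (∀ x, some x ∈ X ↔ x ∈ Y) → #X = #Y + if q then 1 else 0 := fun X Y q a b => by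
    rw [show Y = X.eraseNone by ext; simp [b]]
    split_ifs with c
    · have := card_eraseNone_of_mem (a.mpr c)
      have := card_pos.mpr ⟨_, a.mpr c⟩
      omega
    · exact (card_eraseNone_of_not_mem (mt a.mp c)).symm
  have a : ∀ F : Finset E, h g' (F.biUnion p) = h g F := fun F => by
    simp only [h, cd _ _ _ (mp F).1 (mp F).2, cd _ _ _ (mv F).1 (mv F).2]
    push_cast; ring
  have k := fun N A T => rep_iff (g := g) (g' := g') (C := Set.univ) (N := N) (A := A) (T := T) p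
    (fun x => ⟨some x, by simp only [p]; grind⟩) (by simp only [p]; grind) a (fun F B' s => by
      by_cases c : none ∈ B' ↔ some e ∈ B'
      · have : B' = B'.eraseNone.biUnion p := by
          ext (_ | x) <;> simp [mp, c]
        exact ⟨B'.eraseNone, ⟨fun x hx => ((mp F).2 x).mp (s.1 (mem_eraseNone.mp hx)), fun c =>
          s.2 (this ▸ biUnion_subset_biUnion_of_subset_left _ c)⟩, by rw [← a, ← this]⟩
      · have e1 : e ∈ F := by
          have := @s.1
          grind
        refine ⟨B'.eraseNone.erase e, ⟨fun x hx => ((mp F).2 x).mp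
          (s.1 (mem_eraseNone.mp (mem_of_mem_erase hx))), fun c => by simpa using c e1⟩, ?_⟩
        obtain ⟨y, y1, y2, y3⟩ : ∃ y ∈ B', none ∈ g' y ∧
            B' = insert y ((B'.eraseNone.erase e).biUnion p) := by
          by_cases d : none ∈ B'
          · exact ⟨none, d, by simp [h0], by ext (_ | x) <;> simp [mp, d] <;> grind⟩
          · exact ⟨some e, by grind, by simp [h1], by ext (_ | x) <;> simp [mp, d] <;> grind⟩
        rw [← a]
        generalize hX : (B'.eraseNone.erase e).biUnion p = X at *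
        have n : none ∉ vs g' X := by rw [← hX, (mv _).1]; simp
        have := card_lt_card (s := vs g' X) (t := vs g' B')
          ⟨vs_mono (y3 ▸ subset_insert _ _), fun c => n (c (mem_vs.mpr ⟨y, y1, y2⟩))⟩
        have := card_insert_le y X
        rw [← y3] at this
        simp only [h]
        omega)
    fun X Y => by
      simp only [disjoint_left, Option.forall, mv]
      exact and_iff_right_of_imp fun c => notMem (disjoint_left.mpr c)
  have un : {y | ∃ x ∈ Set.univ, y ∈ p x} = Set.univ := Set.eq_univ_of_forall fun y =>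
    ⟨y.getD e, trivial, by simp only [p]; cases y <;> grind⟩
  rw [un] at k
  refine ⟨fun r => ?_, fun r => ?_⟩
  · obtain ⟨N, A, T, r, d⟩ := r.norm {none}
    have n : ∀ i ≥ N, none ∉ T i ∧ some e ∉ T i := fun i hi =>
      ⟨fun c => disjoint_singleton_right.mp (d i hi) (mem_vs.mpr ⟨_, c, by simp [h0]⟩),
        fun c => disjoint_singleton_right.mp (d i hi) (mem_vs.mpr ⟨_, c, by simp [h1]⟩)⟩
    have eA : A = A.eraseNone.biUnion p := by
      have := (r.m none).mp trivial
      have := (r.m (some e)).mp trivial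
      ext (_ | x) <;> simp [mp] <;> grind
    rw [eA] at r
    refine ⟨N, A.eraseNone, fun i => (T i).eraseNone, (k _ _ _ fun i hi => ?_).mp
      (r.congr fun i hi => ?_)⟩
    · rw [cd _ _ _ (mp _).1 (mp _).2, if_neg (by simpa using (n i hi).2), add_zero]
    · ext (_ | x) <;> simp [mp, n i hi]
  · obtain ⟨N, A, T, r, d⟩ := r.norm (vs g {e})
    refine ⟨N, _, _, (k N A T fun i hi => ?_).mpr r⟩
    rw [cd _ _ _ (mp _).1 (mp _).2, if_neg fun c => notMem (d i hi) c (by simp), add_zero]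

end Pool.Agent.H6.MFam
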