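import Mathlib

namespace Pool.Agent.H6.NCMatch

open Finset

variable {N : ℕ}

/-- Height at `k` of the line through the points with indices `e.1` and `e.2`. -/
noncomputable def ln (y : Fin N → ℝ) (e : Fin N × Fin N) (k : Fin N) : ℝ :=
  y e.1 + (y e.2 - y e.1) * (((k : ℕ) : ℝ) - (e.1 : ℕ)) / (((e.2 : ℕ) : ℝ) - (e.1 : ℕ))

lemma ln_left (y : Fin N → ℝ) (e : Fin N × Fin N) : ln y e e.1 = y e.1 := by simp [ln]

lemma cast_lt' {a b : Fin N} (h : a < b) : ((a : ℕ) : ℝ) < (b : ℕ) := by exact_mod_cast h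

lemma cast_le' {a b : Fin N} (h : a ≤ b) : ((a : ℕ) : ℝ) ≤ (b : ℕ) := by exact_mod_cast h

lemma ln_right (y : Fin N → ℝ) {e : Fin N × Fin N} (h : e.1 < e.2) : ln y e e.2 = y e.2 := by
  have := cast_lt' h
  unfold ln
  field_simp [(sub_pos.mpr this).ne']
  ring

/-- General position on `S`. -/
def GP (y : Fin N → ℝ) (S : Finset (Fin N)) : Prop :=
  ∀ i ∈ S, ∀ j ∈ S, ∀ k ∈ S, i < k → k < j → ln y (i, j) k ≠ y k

def Below (y : Fin N → ℝ) (e f : Fin N × Fin N) : Prop :=
  ∀ u, e.1 ≤ u → u ≤ e.2 → f.1 ≤ u → u ≤ f.2 → ln y e u < ln y f u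

def NC (y : Fin N → ℝ) (e f : Fin N × Fin N) : Prop := Below y e f ∨ Below y f e

/-- Non-crossing matchings on `S`. -/
def Mat (y : Fin N → ℝ) (S : Finset (Fin N)) (M : Finset (Fin N × Fin N)) : Prop :=
  (∀ e ∈ M, e.1 ∈ S ∧ e.2 ∈ S ∧ e.1 < e.2) ∧ ∀ e ∈ M, ∀ f ∈ M, e ≠ f → NC y e f

def Sees (y : Fin N → ℝ) (S : Finset (Fin N)) (M : Finset (Fin N × Fin N)) (e : Fin N × Fin N)
    (k : Fin N) : Prop :=
  k ∈ S ∧ e.1 < k ∧ k < e.2 ∧ ¬ ∃ f ∈ M, f.1 < k ∧ k < f.2 ∧
    ((y k < ln y f k ∧ ln y f k < ln y e k) ∨ (ln y e k < ln y f k ∧ ln y f k < y k))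

lemma wedge {y : Fin N → ℝ} {S : Finset (Fin N)} (hg : GP y S) {M : Finset (Fin N × Fin N)}
    (hM : ∀ f ∈ M, f.1 ∈ S) {i a b : Fin N} (hi : i ∈ S) (ha : a ∈ S) (hb : b ∈ S)
    (hia : i < a) (hib : i < b) (hab : a ≠ b)
    (h1 : ∀ f ∈ M, NC y f (i, a)) (h2 : ∀ f ∈ M, NC y f (i, b))
    (hlt : ∀ k, i < k → ln y (i, a) k < ln y (i, b) k) :
    ∃ c, (∀ k < c, Sees y S M (i, a) k ↔ Sees y S M (i, b) k) ∧
      ((Sees y S M (i, a) c ∧ Sees y S M (i, b) c ∧ ln y (i, a) c < y c ∧ y c < ln y (i, b) c) ∨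
        (c = a ∧ Sees y S M (i, b) c) ∨ (c = b ∧ Sees y S M (i, a) c)) := by
  classical
  let W : Finset (Fin N) := S.filter fun k => k = min a b ∨
    (i < k ∧ k < min a b ∧ ln y (i, a) k < y k ∧ y k < ln y (i, b) k)
  have hmin : min a b ∈ S := by
    rcases min_choice a b with h | h <;> rw [h] <;> assumption
  have hW : W.Nonempty := ⟨min a b, mem_filter.mpr ⟨hmin, Or.inl rfl⟩⟩
  have hc := mem_filter.mp (W.min'_mem hW)
  have hc' : ∀ k ∈ W, W.min' hW ≤ k := fun k hk => W.min'_le k hk
  generalize W.min' hW = c at hc hc'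
  have hcm : c ≤ min a b := hc' _ (mem_filter.mpr ⟨hmin, Or.inl rfl⟩)
  have hca : c ≤ a := hcm.trans (min_le_left _ _)
  have hcb : c ≤ b := hcm.trans (min_le_right _ _)
  have hic : i < c := by
    rcases hc.2 with h | h
    · rw [h]; exact lt_min hia hib
    · exact h.1
  have KF : ∀ k, i < k → k ≤ c → ∀ f ∈ M, f.1 < k → k < f.2 → ln y (i, a) k ≤ ln y f k →
      ln y f k ≤ ln y (i, b) k → False := by
    intro k hik hkc f hf hf1 hf2 l1 l2
    have b1 : Below y (i, a) f := by
      refine (h1 f hf).resolve_left fun h => ?_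
      have := h k hf1.le hf2.le hik.le (hkc.trans hca)
      linarith
    have b2 : Below y f (i, b) := by
      refine (h2 f hf).resolve_right fun h => ?_
      have := h k hik.le (hkc.trans hcb) hf1.le hf2.le
      linarith
    rcases le_or_gt f.1 i with h | h
    · have c1 := b1 i le_rfl hia.le h (hik.trans hf2).le
      have c2 := b2 i h (hik.trans hf2).le le_rfl hib.le
      have e1 := ln_left y (i, a)
      have e2 := ln_left y (i, b)
      simp only at e1 e2
      linarith
    · have c1 := b1 f.1 h.le (hf1.le.trans (hkc.trans hca)) le_rfl (hf1.trans hf2).le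
      have c2 := b2 f.1 le_rfl (hf1.trans hf2).le h.le (hf1.le.trans (hkc.trans hcb))
      rw [ln_left] at c1 c2
      have := hc' f.1 (mem_filter.mpr ⟨hM f hf, Or.inr ⟨h, hf1.trans_le (hkc.trans hcm), c1, c2⟩⟩)
      exact absurd (hf1.trans_le hkc) (not_lt.mpr this)
  refine ⟨c, fun k hk => ?_, ?_⟩
  · unfold Sees
    refine and_congr_right fun hkS => and_congr_right fun hik => ?_
    simp only at hik ⊢
    have hka := hk.trans_le hca
    have hkb := hk.trans_le hcb
    simp only [hka, hkb, true_and]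
    have g1 := hg i hi a ha k hkS hik hka
    have g2 := hg i hi b hb k hkS hik hkb
    have l := hlt k hik
    have nw : ¬ (ln y (i, a) k < y k ∧ y k < ln y (i, b) k) := fun h =>
      absurd (hc' k (mem_filter.mpr ⟨hkS, Or.inr ⟨hik, hk.trans_le hcm, h⟩⟩)) (not_le.mpr hk)
    refine not_congr (exists_congr fun f => and_congr_right fun hf => and_congr_right fun f1 =>
      and_congr_right fun f2 => ?_)
    have K := KF k hik hk.le f hf f1 f2
    rcases lt_or_gt_of_ne g1 with p | p <;> rcases lt_or_gt_of_ne g2 with q | q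
    · constructor
      · rintro (h | h)
        · linarith [h.1, h.2]
        · refine Or.inr ⟨?_, h.2⟩
          by_contra hc
          exact K h.1.le (not_lt.mp hc)
      · rintro (h | h)
        · linarith [h.1, h.2]
        · exact Or.inr ⟨by linarith [h.1], h.2⟩
    · exact absurd ⟨p, q⟩ nw
    · linarith
    · constructor
      · rintro (h | h)
        · exact Or.inl ⟨h.1, by linarith [h.2]⟩
        · linarith [h.1, h.2]
      · rintro (h | h)
        · refine Or.inl ⟨h.1, ?_⟩
          by_contra hc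
          exact K (not_lt.mp hc) h.2.le
        · linarith [h.1, h.2]
  · have l := hlt c hic
    rcases hc.2 with h | h
    · right
      rcases lt_or_gt_of_ne hab with h' | h'
      · rw [min_eq_left h'.le] at h
        subst h
        refine Or.inl ⟨rfl, ha, hia, h', ?_⟩
        rintro ⟨f, hf, f1, f2, h⟩
        have e := ln_right y (e := (i, c)) hia
        simp only at e
        rcases h with h | h
        · exact KF c hic le_rfl f hf f1 f2 (by linarith [h.1]) h.2.le
        · linarith [h.1, h.2]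
      · rw [min_eq_right h'.le] at h
        subst h
        refine Or.inr ⟨rfl, hb, hib, h', ?_⟩
        rintro ⟨f, hf, f1, f2, h⟩
        have e := ln_right y (e := (i, c)) hib
        simp only at e
        rcases h with h | h
        · linarith [h.1, h.2]
        · exact KF c hic le_rfl f hf f1 f2 h.1.le (by linarith [h.2])
    · obtain ⟨-, h3, h4, h5⟩ := h
      refine Or.inl ⟨⟨hc.1, hic, h3.trans_le (min_le_left _ _), ?_⟩,
        ⟨hc.1, hic, h3.trans_le (min_le_right _ _), ?_⟩, h4, h5⟩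
      · rintro ⟨f, hf, f1, f2, h | h⟩
        · linarith [h.1, h.2]
        · exact KF c hic le_rfl f hf f1 f2 h.1.le (by linarith [h.2])
      · rintro ⟨f, hf, f1, f2, h | h⟩
        · exact KF c hic le_rfl f hf f1 f2 (by linarith [h.1]) h.2.le
        · linarith [h.1, h.2]

open Classical in
/-- The points that see the edge `e`. -/
noncomputable def seen (y : Fin N → ℝ) (S : Finset (Fin N)) (M : Finset (Fin N × Fin N))
    (e : Fin N × Fin N) : Finset (Fin N) := univ.filter (Sees y S M e)

lemma mem_seen {y : Fin N → ℝ} {S : Finset (Fin N)} {M : Finset (Fin N × Fin N)}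
    {e : Fin N × Fin N} {k : Fin N} : k ∈ seen y S M e ↔ Sees y S M e k := by simp [seen]

def rank (V : Finset (Fin N)) (k : Fin N) : ℕ := (V.filter (· < k)).card

lemma rank_lt {V : Finset (Fin N)} {k l : Fin N} (hk : k ∈ V) (h : k < l) : rank V k < rank V l := by
  refine card_lt_card ⟨fun x hx => ?_, fun hs => ?_⟩
  · exact mem_filter.mpr ⟨(mem_filter.mp hx).1, (mem_filter.mp hx).2.trans h⟩
  · exact lt_irrefl _ (mem_filter.mp (hs (mem_filter.mpr ⟨hk, h⟩))).2

lemma rank_inj {V : Finset (Fin N)} {k l : Fin N} (hk : k ∈ V) (hl : l ∈ V)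
    (h : rank V k = rank V l) : k = l := by
  rcases lt_trichotomy k l with h' | h' | h'
  · exact absurd h (rank_lt hk h').ne
  · exact h'
  · exact absurd h (rank_lt hl h').ne'

lemma rank_lt_card {V : Finset (Fin N)} {k : Fin N} (hk : k ∈ V) : rank V k < V.card :=
  card_lt_card ⟨filter_subset _ _, fun hs => lt_irrefl _ (mem_filter.mp (hs hk)).2⟩

open Classical in
noncomputable def code (y : Fin N → ℝ) (S : Finset (Fin N)) (M : Finset (Fin N × Fin N))
    (e : Fin N × Fin N) : ℕ × Finset ℕ :=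
  ((seen y S M e).card, ((seen y S M e).filter fun k => ln y e k < y k).image (rank (seen y S M e)))

lemma code_ne {y : Fin N → ℝ} {S : Finset (Fin N)} (hg : GP y S) {M : Finset (Fin N × Fin N)}
    (hM : ∀ f ∈ M, f.1 ∈ S) {i a b : Fin N} (hi : i ∈ S) (ha : a ∈ S) (hb : b ∈ S)
    (hia : i < a) (hib : i < b) (hab : a ≠ b)
    (h1 : ∀ f ∈ M, NC y f (i, a)) (h2 : ∀ f ∈ M, NC y f (i, b))
    (hlt : ∀ k, i < k → ln y (i, a) k < ln y (i, b) k) :
    code y S M (i, a) ≠ code y S M (i, b) := by
  classical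
  intro he
  obtain ⟨c, h3, h4⟩ := wedge hg hM hi ha hb hia hib hab h1 h2 hlt
  have e1 : (seen y S M (i, a)).card = (seen y S M (i, b)).card := congrArg Prod.fst he
  have e2 := congrArg Prod.snd he
  simp only [code] at e2
  have hr : rank (seen y S M (i, a)) c = rank (seen y S M (i, b)) c := by
    unfold rank
    congr 1
    ext k
    simp only [mem_filter, mem_seen]
    exact and_congr_left fun hk => h3 k hk
  have full : ∀ d, rank (seen y S M (i, d)) d = (seen y S M (i, d)).card := by
    intro d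
    unfold rank
    exact congrArg card (filter_true_of_mem fun k hk => (mem_seen.mp hk).2.2.1)
  rcases h4 with ⟨s1, s2, l1, l2⟩ | ⟨rfl, s⟩ | ⟨rfl, s⟩
  · have : rank (seen y S M (i, a)) c ∈ ((seen y S M (i, b)).filter
        fun k => ln y (i, b) k < y k).image (rank (seen y S M (i, b))) := by
      rw [← e2]
      exact mem_image.mpr ⟨c, mem_filter.mpr ⟨mem_seen.mpr s1, l1⟩, rfl⟩
    obtain ⟨k, hk, hk'⟩ := mem_image.mp this
    rw [hr] at hk'
    have := rank_inj (mem_filter.mp hk).1 (mem_seen.mpr s2) hk'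
    subst this
    linarith [(mem_filter.mp hk).2]
  · have := rank_lt_card (mem_seen.mpr s)
    rw [← hr, full, e1] at this
    exact lt_irrefl _ this
  · have := rank_lt_card (mem_seen.mpr s)
    rw [hr, full, e1] at this
    exact lt_irrefl _ this

lemma code_inj {y : Fin N → ℝ} {S : Finset (Fin N)} (hg : GP y S) {M : Finset (Fin N × Fin N)}
    (hM : ∀ f ∈ M, f.1 ∈ S) {i a b : Fin N} (hi : i ∈ S) (ha : a ∈ S) (hb : b ∈ S)
    (hia : i < a) (hib : i < b)
    (h1 : ∀ f ∈ M, NC y f (i, a)) (h2 : ∀ f ∈ M, NC y f (i, b))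
    (he : code y S M (i, a) = code y S M (i, b)) : a = b := by
  by_contra hab
  have pa := sub_pos.mpr (cast_lt' hia)
  have pb := sub_pos.mpr (cast_lt' hib)
  have form : ∀ d k, ln y (i, d) k = y i + (y d - y i) / (((d : ℕ) : ℝ) - (i : ℕ)) *
      (((k : ℕ) : ℝ) - (i : ℕ)) := by
    intro d k
    simp only [ln]
    ring
  rcases lt_trichotomy ((y a - y i) / (((a : ℕ) : ℝ) - (i : ℕ)))
    ((y b - y i) / (((b : ℕ) : ℝ) - (i : ℕ))) with h | h | h
  · refine code_ne hg hM hi ha hb hia hib hab h1 h2 (fun k hk => ?_) he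
    rw [form, form]
    nlinarith [sub_pos.mpr (cast_lt' hk)]
  · rcases lt_or_gt_of_ne hab with h' | h'
    · apply hg i hi b hb a ha hia h'
      rw [form, ← h, ← form]
      exact ln_right y (e := (i, a)) hia
    · apply hg i hi a ha b hb hib h'
      rw [form, h, ← form]
      exact ln_right y (e := (i, b)) hib
  · refine code_ne hg hM hi hb ha hib hia (Ne.symm hab) h2 h1 (fun k hk => ?_) he.symm
    rw [form, form]
    nlinarith [sub_pos.mpr (cast_lt' hk)]

lemma sum_deg {y : Fin N → ℝ} {S : Finset (Fin N)} (hg : GP y S) {M : Finset (Fin N × Fin N)}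
    (hM : Mat y S M) : ∑ e ∈ M, (seen y S (M.erase e) e).card ≤ 2 * S.card := by
  classical
  rw [← card_sigma]
  have : 2 * S.card = (S ×ˢ (univ : Finset Bool)).card := by simp [mul_comm]
  rw [this]
  refine card_le_card_of_injOn (fun p => (p.2, decide (ln y p.1 p.2 < y p.2))) ?_ ?_
  · rintro ⟨e, k⟩ hp
    simp only [coe_sigma, Set.mem_sigma_iff, mem_coe, mem_seen] at hp
    exact mem_coe.mpr (mem_product.mpr ⟨hp.2.1, mem_univ _⟩)
  · rintro ⟨e, k⟩ hp ⟨f, l⟩ hq he
    simp only [coe_sigma, Set.mem_sigma_iff, mem_coe, mem_seen, Prod.mk.injEq,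
      decide_eq_decide] at hp hq he
    obtain ⟨rfl, he⟩ := he
    suffices e = f by rw [this]
    by_contra hne
    obtain ⟨he1, hk, e1, e2, e3⟩ := hp
    obtain ⟨hf1, -, f1, f2, f3⟩ := hq
    have g1 := hg _ (hM.1 e he1).1 _ (hM.1 e he1).2.1 k hk e1 e2
    have g2 := hg _ (hM.1 f hf1).1 _ (hM.1 f hf1).2.1 k hk f1 f2
    simp only [Prod.mk.eta] at g1 g2
    have m1 : f ∈ M.erase e := mem_erase.mpr ⟨Ne.symm hne, hf1⟩
    have m2 : e ∈ M.erase f := mem_erase.mpr ⟨hne, he1⟩
    rcases hM.2 e he1 f hf1 hne with h | h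
    · have l := h k e1.le e2.le f1.le f2.le
      by_cases c : ln y e k < y k
      · exact e3 ⟨f, m1, f1, f2, Or.inr ⟨l, he.mp c⟩⟩
      · exact f3 ⟨e, m2, e1, e2, Or.inl ⟨lt_of_le_of_ne (not_lt.mp c) g1.symm, l⟩⟩
    · have l := h k f1.le f2.le e1.le e2.le
      by_cases c : ln y f k < y k
      · exact f3 ⟨e, m2, e1, e2, Or.inr ⟨l, he.mpr c⟩⟩
      · exact e3 ⟨f, m1, f1, f2, Or.inl ⟨lt_of_le_of_ne (not_lt.mp c) g2.symm, l⟩⟩

open Classical in
/-- All non-crossing matchings on `S` with `m` edges. -/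
noncomputable def mats (y : Fin N → ℝ) (S : Finset (Fin N)) (m : ℕ) :
    Finset (Finset (Fin N × Fin N)) := univ.filter fun M => Mat y S M ∧ M.card = m

lemma mem_mats {y : Fin N → ℝ} {S : Finset (Fin N)} {m : ℕ} {M : Finset (Fin N × Fin N)} :
    M ∈ mats y S m ↔ Mat y S M ∧ M.card = m := by simp [mats]

lemma step {y : Fin N → ℝ} {S : Finset (Fin N)} (hg : GP y S) (hS : 0 < S.card) {m : ℕ}
    (hm : S.card < 4 * (m + 1)) : (mats y S (m + 1)).card ≤ 2 ^ 22 * (mats y S m).card := by
  classical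
  let G : Finset (Fin N × Fin N) → Finset (Fin N × Fin N) := fun M =>
    M.filter fun e => (seen y S (M.erase e) e).card ≤ 15
  have h1 : ∀ M ∈ mats y S (m + 1), S.card ≤ 8 * (G M).card := by
    intro M hM
    obtain ⟨hM, hc⟩ := mem_mats.mp hM
    have a := sum_deg hg hM
    have b := card_filter_add_card_filter_not (s := M)
      fun e => (seen y S (M.erase e) e).card ≤ 15
    have c : (M.filter fun e => ¬ (seen y S (M.erase e) e).card ≤ 15).card * 16 ≤
        ∑ e ∈ M, (seen y S (M.erase e) e).card := by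
      refine le_trans ?_ (sum_le_sum_of_subset (filter_subset
        (fun e => ¬ (seen y S (M.erase e) e).card ≤ 15) M))
      rw [← smul_eq_mul]
      exact card_nsmul_le_sum _ _ _ fun e he => by
        have := (mem_filter.mp he).2
        omega
    simp only [G]
    omega
  have h2 : ((mats y S (m + 1)).sigma G).card ≤
      (mats y S m ×ˢ S ×ˢ (range 16 ×ˢ (range 15).powerset)).card := by
    refine card_le_card_of_injOn
      (fun p => (p.1.erase p.2, p.2.1, code y S (p.1.erase p.2) p.2)) ?_ ?_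
    · rintro ⟨M, e⟩ hp
      simp only [coe_sigma, Set.mem_sigma_iff, mem_coe, mem_mats, G, mem_filter] at hp
      obtain ⟨⟨hM, hc⟩, he, hd⟩ := hp
      simp only [coe_product, Set.mem_prod, mem_coe, mem_mats, mem_range, mem_powerset]
      refine ⟨⟨⟨fun f hf => hM.1 f (mem_of_mem_erase hf), fun f hf g hg =>
        hM.2 f (mem_of_mem_erase hf) g (mem_of_mem_erase hg)⟩, ?_⟩, (hM.1 e he).1, ?_, ?_⟩
      · rw [card_erase_of_mem he, hc]; rfl
      · simp only [code]; omega
      · intro r hr
        obtain ⟨k, hk, rfl⟩ := mem_image.mp hr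
        have := rank_lt_card (mem_filter.mp hk).1
        exact mem_range.mpr (by omega)
    · rintro ⟨M, i, a⟩ hp ⟨M', j, b⟩ hq he
      simp only [coe_sigma, Set.mem_sigma_iff, mem_coe, mem_mats, G, mem_filter,
        Prod.mk.injEq] at hp hq he
      obtain ⟨⟨hM, -⟩, h3, -⟩ := hp
      obtain ⟨⟨hM', -⟩, h4, -⟩ := hq
      obtain ⟨e1, rfl, e3⟩ := he
      have : a = b := by
        rw [← e1] at e3
        refine code_inj hg (M := M.erase (i, a)) (fun f hf => (hM.1 f (mem_of_mem_erase hf)).1)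
          (hM.1 _ h3).1 (hM.1 _ h3).2.1 (hM'.1 _ h4).2.1 (hM.1 _ h3).2.2 (hM'.1 _ h4).2.2
          (fun f hf => hM.2 f (mem_of_mem_erase hf) _ h3 (mem_erase.mp hf).1)
          (fun f hf => ?_) e3
        rw [e1] at hf
        exact hM'.2 f (mem_of_mem_erase hf) _ h4 (mem_erase.mp hf).1
      subst this
      have : M = M' := by rw [← insert_erase h3, e1, insert_erase h4]
      subst this
      rfl
  rw [card_sigma] at h2
  simp only [card_product, card_range, card_powerset] at h2
  have h3 : (mats y S (m + 1)).card * S.card ≤ 8 * ∑ M ∈ mats y S (m + 1), (G M).card := by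
    rw [mul_sum, ← smul_eq_mul]
    exact card_nsmul_le_sum _ _ _ h1
  have h4 : (mats y S (m + 1)).card * S.card ≤ 2 ^ 22 * (mats y S m).card * S.card := by
    nlinarith
  exact Nat.le_of_mul_le_mul_right h4 hS

lemma card_le {y : Fin N → ℝ} {S : Finset (Fin N)} {M : Finset (Fin N × Fin N)}
    (hM : Mat y S M) : M.card ≤ S.card := by
  refine card_le_card_of_injOn Prod.fst (fun e he => (hM.1 e he).1) fun e he f hf h => ?_
  by_contra hne
  have a := (hM.1 e he).2.2
  have b := (hM.1 f hf).2.2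
  have c := ln_left y e
  have d := ln_left y f
  rcases hM.2 e he f hf hne with h' | h'
  · have := h' e.1 le_rfl a.le h.ge (h ▸ b.le)
    rw [h] at this c
    linarith
  · have := h' e.1 h.ge (h ▸ b.le) le_rfl a.le
    rw [h] at this c
    linarith

theorem count (y : Fin N → ℝ) (n : ℕ) : ∀ S : Finset (Fin N), S.card = n → GP y S →
    ∀ m, (mats y S m).card ≤ (2 ^ 46) ^ n := by
  classical
  induction n using Nat.strong_induction_on with
  | _ n ih =>
  intro S hS hg
  rcases Nat.eq_zero_or_pos n with rfl | hn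
  · intro m
    rw [pow_zero, card_le_one]
    intro M hM M' hM'
    have a := card_le (mem_mats.mp hM).1
    have b := card_le (mem_mats.mp hM').1
    rw [card_eq_zero.mp (by omega : M.card = 0), card_eq_zero.mp (by omega : M'.card = 0)]
  have small : ∀ m, 4 * m ≤ n → (mats y S m).card ≤ 2 ^ n * (2 ^ 46) ^ (n / 2) := by
    intro m hm
    have sub : mats y S m ⊆ (S.powerset.filter fun T => T.card ≤ n / 2).biUnion
        fun T => mats y T m := by
      intro M hM
      obtain ⟨hM, hc⟩ := mem_mats.mp hM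
      refine mem_biUnion.mpr ⟨M.image Prod.fst ∪ M.image Prod.snd, mem_filter.mpr ⟨?_, ?_⟩,
        mem_mats.mpr ⟨⟨fun e he => ⟨?_, ?_, (hM.1 e he).2.2⟩, hM.2⟩, hc⟩⟩
      · rw [mem_powerset]
        intro k hk
        rcases mem_union.mp hk with h | h <;> obtain ⟨e, he, rfl⟩ := mem_image.mp h
        · exact (hM.1 e he).1
        · exact (hM.1 e he).2.1
      · have a := card_union_le (M.image Prod.fst) (M.image Prod.snd)
        have b := card_image_le (s := M) (f := Prod.fst)
        have c := card_image_le (s := M) (f := Prod.snd)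
        omega
      · exact mem_union_left _ (mem_image_of_mem _ he)
      · exact mem_union_right _ (mem_image_of_mem _ he)
    refine (card_le_card sub).trans ((card_biUnion_le_card_mul _ _ ((2 ^ 46) ^ (n / 2)) ?_).trans
      (Nat.mul_le_mul_right _ ?_))
    · intro T hT
      obtain ⟨h1, h2⟩ := mem_filter.mp hT
      rw [mem_powerset] at h1
      refine (ih T.card (by omega) T rfl
        (fun i hi j hj k hk => hg i (h1 hi) j (h1 hj) k (h1 hk)) m).trans ?_
      exact Nat.pow_le_pow_right (by norm_num) h2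
    · refine (card_filter_le _ _).trans ?_
      rw [card_powerset, hS]
  have all : ∀ m, (mats y S m).card ≤ (2 ^ 22) ^ m * (2 ^ n * (2 ^ 46) ^ (n / 2)) := by
    intro m
    induction m with
    | zero => simpa using small 0 (by omega)
    | succ m ihm =>
      by_cases h : 4 * (m + 1) ≤ n
      · exact (small _ h).trans (Nat.le_mul_of_pos_left _ (by positivity))
      · refine (step hg (by omega) (by omega)).trans ?_
        rw [pow_succ' (2 ^ 22), mul_assoc]
        exact Nat.mul_le_mul_left _ ihm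
  intro m
  by_cases h : m ≤ n
  · refine (all m).trans ?_
    simp only [← pow_mul, ← pow_add]
    exact Nat.pow_le_pow_right (by norm_num) (by omega)
  · rw [card_eq_zero.mpr]
    · positivity
    · refine eq_empty_of_forall_notMem fun M hM => ?_
      have a := card_le (mem_mats.mp hM).1
      have b := (mem_mats.mp hM).2
      omega

end Pool.Agent.H6.NCMatch
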