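import Mathlib

namespace Pool.Agent.H6.NearInt

open Finset
open scoped InnerProductSpace

section general
variable {E : Type} [NormedAddCommGroup E] [InnerProductSpace ℝ E]

noncomputable def nn (r : ℝ) : ℝ := (⌈r - 1 / 2⌉ : ℝ) + 1 / 2

lemma le_nn (r : ℝ) : r ≤ nn r := by
  have := Int.le_ceil (r - 1 / 2); unfold nn; linarith

lemma nn_le (r : ℝ) : nn r ≤ r + 1 := by
  have := Int.ceil_lt_add_one (r - 1 / 2); unfold nn; linarith

noncomputable def F (D : Set E) : Option D → E → ℝ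
  | none, x => ‖x‖
  | some v, x => |⟪(v : E), x⟫_ℝ| * (nn ‖(v : E)‖ / ‖(v : E)‖ ^ 2)

lemma exists_norm (D : Set E) (h1 : ∀ v ∈ D, 1 ≤ ‖v‖)
    (h2 : ∀ v ∈ D, ∀ w ∈ D, v = w ∨ v = -w ∨ |⟪v, w⟫_ℝ| * (‖v‖ + 1) ≤ ‖v‖ ^ 2 * ‖w‖) :
    ∃ N : Seminorm ℝ E, (∀ x, ‖x‖ ≤ N x) ∧ (∀ x, N x ≤ 2 * ‖x‖) ∧ ∀ w ∈ D, N w = nn ‖w‖ := by
  have c0 : ∀ v : D, 0 ≤ nn ‖(v : E)‖ / ‖(v : E)‖ ^ 2 := fun v =>
    div_nonneg ((norm_nonneg _).trans (le_nn _)) (sq_nonneg _)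
  have hb : ∀ o x, F D o x ≤ 2 * ‖x‖ := by
    rintro (_ | v) x
    · simp only [F]; linarith [norm_nonneg x]
    · simp only [F]
      have a1 := h1 v v.2
      have a2 : |⟪(v : E), x⟫_ℝ| ≤ ‖(v : E)‖ * ‖x‖ := abs_real_inner_le_norm _ _
      have a3 : nn ‖(v : E)‖ / ‖(v : E)‖ ^ 2 ≤ 2 / ‖(v : E)‖ := by
        rw [div_le_div_iff₀ (by positivity) (by positivity)]
        have := nn_le ‖(v : E)‖
        nlinarith
      calc _ ≤ (‖(v : E)‖ * ‖x‖) * (2 / ‖(v : E)‖) :=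
            mul_le_mul a2 a3 (c0 v) (by positivity)
        _ = 2 * ‖x‖ := by field_simp
  have hB : ∀ x, BddAbove (Set.range fun o => F D o x) := fun x =>
    ⟨2 * ‖x‖, by rintro _ ⟨o, rfl⟩; exact hb o x⟩
  have hle : ∀ o x, F D o x ≤ ⨆ o, F D o x := fun o x => le_ciSup (hB x) o
  refine ⟨Seminorm.ofSMulLE (fun x => ⨆ o, F D o x) ?_ ?_ ?_, fun x => hle none x,
    fun x => ciSup_le fun o => hb o x, fun w hw => ?_⟩
  · have : ∀ o, F D o 0 = 0 := by rintro (_ | v) <;> simp [F]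
    simp [this]
  · intro x y
    refine ciSup_le fun o => le_trans ?_ (add_le_add (hle o x) (hle o y))
    rcases o with _ | v
    · exact norm_add_le x y
    · simp only [F, inner_add_right, ← add_mul]
      exact mul_le_mul_of_nonneg_right (abs_add_le _ _) (c0 v)
  · intro r x
    refine ciSup_le fun o => le_trans ?_ (mul_le_mul_of_nonneg_left (hle o x) (norm_nonneg r))
    rcases o with _ | v
    · exact (norm_smul r x).le
    · simp only [F, inner_smul_right, abs_mul, Real.norm_eq_abs, mul_assoc, le_refl]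
  · have w1 := h1 w hw
    have e : |⟪w, w⟫_ℝ| * (nn ‖w‖ / ‖w‖ ^ 2) = nn ‖w‖ := by
      rw [real_inner_self_eq_norm_sq, abs_of_nonneg (sq_nonneg _)]
      field_simp
    show (⨆ o, F D o w) = _
    refine le_antisymm (ciSup_le ?_) (e ▸ hle (some ⟨w, hw⟩) w)
    rintro (_ | ⟨v, hv⟩)
    · exact le_nn _
    · simp only [F]
      rcases h2 v hv w hw with rfl | rfl | h
      · exact e.le
      · rw [inner_neg_left, abs_neg, norm_neg]; exact e.le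
      · have v1 := h1 v hv
        refine le_trans ?_ (le_nn _)
        rw [← mul_div_assoc, div_le_iff₀ (by positivity)]
        have := mul_le_mul_of_nonneg_left (nn_le ‖v‖) (abs_nonneg ⟪v, w⟫_ℝ)
        linarith

lemma sep_of {r s t K : ℝ} (hK : 1 ≤ K) (hr : 2 * K ≤ r) (hs : 0 ≤ s)
    (h : t ^ 2 * K ≤ (K - 1) * (r ^ 2 * s ^ 2)) : |t| * (r + 1) ≤ r ^ 2 * s := by
  have hr0 : 0 ≤ r := by linarith
  apply abs_le_of_sq_le_sq' _ (by positivity) |>.2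
  have a1 : (K - 1) * (r + 1) ^ 2 ≤ K * r ^ 2 := by nlinarith
  have a2 : (|t| * (r + 1)) ^ 2 * K ≤ (r ^ 2 * s) ^ 2 * K := by
    calc (|t| * (r + 1)) ^ 2 * K = (t ^ 2 * K) * (r + 1) ^ 2 := by rw [mul_pow, sq_abs]; ring
      _ ≤ (K - 1) * (r ^ 2 * s ^ 2) * (r + 1) ^ 2 :=
          mul_le_mul_of_nonneg_right h (sq_nonneg _)
      _ = ((K - 1) * (r + 1) ^ 2) * (r ^ 2 * s ^ 2) := by ring
      _ ≤ (K * r ^ 2) * (r ^ 2 * s ^ 2) := mul_le_mul_of_nonneg_right a1 (by positivity)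
      _ = (r ^ 2 * s) ^ 2 * K := by ring
  exact le_of_mul_le_mul_right a2 (by linarith)

lemma bdd [FiniteDimensional ℝ E] (X δ : ℝ) (hδ : 0 < δ) : ∃ B : ℕ, ∀ (n : ℕ) (p : Fin n → E),
    (∀ i, ‖p i‖ ≤ X) → (∀ i j, i ≠ j → δ ≤ ‖p i - p j‖) → n ≤ B := by
  classical
  obtain ⟨t, ht, hc⟩ := Metric.totallyBounded_iff.1
    (isCompact_closedBall (0 : E) X).totallyBounded (δ / 2) (by linarith)
  refine ⟨ht.toFinset.card, fun n p h1 h2 => ?_⟩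
  have : ∀ i, ∃ y ∈ ht.toFinset, p i ∈ Metric.ball y (δ / 2) := by
    intro i
    have := hc (show p i ∈ Metric.closedBall (0 : E) X by simpa using h1 i)
    simpa using this
  choose f hf1 hf2 using this
  have := card_le_card_of_injOn (s := (univ : Finset (Fin n))) f (fun i _ => hf1 i) (by
    intro i _ j _ hij
    by_contra hne
    have a := h2 i j hne
    have b := hf2 i
    have c := hf2 j
    rw [hij] at b
    rw [Metric.mem_ball] at b c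
    have := dist_triangle_right (p i) (p j) (f j)
    rw [dist_eq_norm] at this
    linarith)
  simpa using this

end general

abbrev I := Fin 3 × Fin 18

def g (q a : ℕ) (i : I) : ℤ := ((a ^ (i.1.val + 1) / q ^ i.2.val % q : ℕ) : ℤ)

lemma digit_sum (q n k : ℕ) : ∑ j ∈ range k, n / q ^ j % q * q ^ j = n % q ^ k := by
  induction k with
  | zero => simp [Nat.mod_one]
  | succ k ih => rw [sum_range_succ, ih, Nat.mod_pow_succ]; ring

lemma g_sum {q a : ℕ} (ha : a < q ^ 6) (e : Fin 3) :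
    ∑ j : Fin 18, g q a (e, j) * (q : ℤ) ^ j.val = (a : ℤ) ^ (e.val + 1) := by
  have hq : 0 < q := by
    rcases Nat.eq_zero_or_pos q with rfl | h
    · simp at ha
    · exact h
  have h1 : a ^ (e.val + 1) < q ^ 18 := by
    calc a ^ (e.val + 1) < (q ^ 6) ^ (e.val + 1) := Nat.pow_lt_pow_left ha (by omega)
      _ = q ^ (6 * (e.val + 1)) := by rw [← pow_mul]
      _ ≤ q ^ 18 := Nat.pow_le_pow_right hq (by omega)
  have h2 := digit_sum q (a ^ (e.val + 1)) 18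
  rw [Nat.mod_eq_of_lt h1, ← Fin.sum_univ_eq_sum_range
    (fun j => a ^ (e.val + 1) / q ^ j % q * q ^ j)] at h2
  simp only [g]
  exact_mod_cast h2

lemma g_abs {q : ℕ} (hq : 1 ≤ q) (a b : ℕ) (i : I) : (g q a i - g q b i) ^ 2 ≤ (q : ℤ) ^ 2 := by
  have h : ∀ c, 0 ≤ g q c i ∧ g q c i < q := fun c =>
    ⟨by unfold g; positivity, by unfold g; exact_mod_cast Nat.mod_lt _ hq⟩
  apply sq_le_sq' <;> linarith [h a, h b]

lemma rel {q a b c d : ℕ} (ha : a < q ^ 6) (hb : b < q ^ 6) (hc : c < q ^ 6) (hd : d < q ^ 6)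
    {A B : ℤ} (h : ∀ i, A * (g q c i - g q d i) = B * (g q a i - g q b i)) (e : Fin 3) :
    A * ((c : ℤ) ^ (e.val + 1) - (d : ℤ) ^ (e.val + 1)) =
      B * ((a : ℤ) ^ (e.val + 1) - (b : ℤ) ^ (e.val + 1)) := by
  rw [← g_sum ha, ← g_sum hb, ← g_sum hc, ← g_sum hd, ← sum_sub_distrib, ← sum_sub_distrib,
    mul_sum, mul_sum]
  refine sum_congr rfl fun j _ => ?_
  linear_combination (q : ℤ) ^ j.val * h (e, j)

lemma A_pos {q a b : ℕ} (ha : a < q ^ 6) (hb : b < q ^ 6) (hab : a ≠ b) :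
    1 ≤ ∑ i, (g q a i - g q b i) ^ 2 := by
  by_contra hlt
  have h0 : ∑ i, (g q a i - g q b i) ^ 2 = 0 :=
    le_antisymm (by omega) (sum_nonneg fun i _ => sq_nonneg _)
  rw [sum_eq_zero_iff_of_nonneg fun i _ => sq_nonneg _] at h0
  have := rel ha hb ha hb (A := 1) (B := 0) (fun i => by
    have := h0 i (mem_univ _)
    rw [pow_eq_zero_iff (by norm_num)] at this
    rw [this]; simp) 0
  simp only [Fin.val_zero, zero_add, pow_one, one_mul, zero_mul] at this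
  exact hab (by exact_mod_cast sub_eq_zero.1 this)

lemma cs_strict {q a b c d : ℕ} (ha : a < q ^ 6) (hb : b < q ^ 6) (hc : c < q ^ 6)
    (hd : d < q ^ 6) (hab : a ≠ b) (hcd : c ≠ d) :
    (a = c ∧ b = d) ∨ (a = d ∧ b = c) ∨
      (∑ i, (g q a i - g q b i) * (g q c i - g q d i)) ^ 2 + 1 ≤
        (∑ i, (g q a i - g q b i) ^ 2) * ∑ i, (g q c i - g q d i) ^ 2 := by
  obtain ⟨A, hA⟩ : ∃ A, A = ∑ i, (g q a i - g q b i) ^ 2 := ⟨_, rfl⟩
  obtain ⟨B, hB⟩ : ∃ B, B = ∑ i, (g q a i - g q b i) * (g q c i - g q d i) := ⟨_, rfl⟩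
  obtain ⟨C, hC⟩ : ∃ C, C = ∑ i, (g q c i - g q d i) ^ 2 := ⟨_, rfl⟩
  have A1 : 1 ≤ A := hA ▸ A_pos ha hb hab
  rw [← hA, ← hB, ← hC]
  by_cases hlt : B ^ 2 + 1 ≤ A * C
  · exact Or.inr (Or.inr hlt)
  have e : ∑ i, (A * (g q c i - g q d i) - B * (g q a i - g q b i)) ^ 2 = A * (A * C - B ^ 2) := by
    have : ∀ i, (A * (g q c i - g q d i) - B * (g q a i - g q b i)) ^ 2 =
        A ^ 2 * (g q c i - g q d i) ^ 2 - 2 * A * B * ((g q a i - g q b i) * (g q c i - g q d i))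
          + B ^ 2 * (g q a i - g q b i) ^ 2 := fun i => by ring
    simp only [this]
    rw [sum_add_distrib, sum_sub_distrib, ← mul_sum, ← mul_sum, ← mul_sum, ← hA, ← hB, ← hC]
    ring
  have h0 : ∑ i, (A * (g q c i - g q d i) - B * (g q a i - g q b i)) ^ 2 = 0 :=
    le_antisymm (by rw [e]; nlinarith) (sum_nonneg fun i _ => sq_nonneg _)
  rw [sum_eq_zero_iff_of_nonneg fun i _ => sq_nonneg _] at h0
  have hr := rel ha hb hc hd (A := A) (B := B) (fun i => by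
    have := h0 i (mem_univ _)
    rw [pow_eq_zero_iff (by norm_num)] at this
    exact sub_eq_zero.1 this)
  have r1 := hr 0
  have r2 := hr 1
  have r3 := hr 2
  norm_num at r1 r2 r3
  have hw : A * ((c : ℤ) - d) ≠ 0 :=
    mul_ne_zero (by omega) (sub_ne_zero.2 (by exact_mod_cast hcd))
  have s1 : (c : ℤ) + d = a + b := by
    apply mul_left_cancel₀ hw
    linear_combination r2 - ((a : ℤ) + b) * r1
  have s2 : (c : ℤ) ^ 2 + c * d + d ^ 2 = a ^ 2 + a * b + b ^ 2 := by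
    apply mul_left_cancel₀ hw
    linear_combination r3 - ((a : ℤ) ^ 2 + a * b + b ^ 2) * r1
  have s3 : ((c : ℤ) - a) * (c - b) = 0 := by
    have : (d : ℤ) = a + b - c := by linarith
    rw [this] at s2
    linear_combination s2
  rcases mul_eq_zero.1 s3 with h | h
  · left; omega
  · right; left; omega

abbrev E := EuclideanSpace ℝ (Bool × I)

noncomputable def vec (q : ℕ) (x : I → ℤ) : E :=
  WithLp.toLp 2 fun k => (5832 * (q : ℝ) ^ 3) * (if k.1 then (q : ℝ) else 1) * (x k.2 : ℝ)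

lemma inner_vec (q r : ℕ) (x y : I → ℤ) : ⟪vec q x, vec r y⟫_ℝ =
    (5832 * (q : ℝ) ^ 3) * (5832 * (r : ℝ) ^ 3) * ((q : ℝ) * r + 1) *
      ((∑ i, x i * y i : ℤ) : ℝ) := by
  simp only [vec, PiLp.inner_apply, RCLike.inner_apply, conj_trivial]
  rw [Fintype.sum_prod_type, Fintype.sum_bool]
  simp only [if_true, Bool.false_eq_true, if_false]
  rw [← sum_add_distrib]
  push_cast
  rw [mul_sum]
  exact sum_congr rfl fun i _ => by ring

lemma norm_vec (q : ℕ) (x : I → ℤ) : ‖vec q x‖ ^ 2 =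
    (5832 * (q : ℝ) ^ 3) ^ 2 * ((q : ℝ) ^ 2 + 1) * ((∑ i, x i ^ 2 : ℤ) : ℝ) := by
  rw [← real_inner_self_eq_norm_sq, inner_vec]
  simp only [sq]

lemma vec_sub (q : ℕ) (x y : I → ℤ) : vec q x - vec q y = vec q (fun i => x i - y i) := by
  ext k
  simp only [vec, PiLp.sub_apply]
  push_cast
  ring

lemma vec_neg (q : ℕ) (x y : I → ℤ) :
    vec q (fun i => x i - y i) = -vec q (fun i => y i - x i) := by
  rw [← vec_sub, ← vec_sub, neg_sub]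

def D : Set E := {v | ∃ q a b : ℕ, 1 ≤ q ∧ a < q ^ 6 ∧ b < q ^ 6 ∧ a ≠ b ∧
  v = vec q (fun i => g q a i - g q b i)}

lemma A_le {q : ℕ} (hq : 1 ≤ q) (a b : ℕ) :
    ∑ i, (g q a i - g q b i) ^ 2 ≤ 54 * (q : ℤ) ^ 2 := by
  have := sum_le_card_nsmul univ (fun i => (g q a i - g q b i) ^ 2) _ fun i _ => g_abs hq a b i
  simpa using this

lemma norm_ge {q a b : ℕ} (hq : 1 ≤ q) (ha : a < q ^ 6) (hb : b < q ^ 6) (hab : a ≠ b) :
    2 * (2916 * (q : ℝ) ^ 4) ≤ ‖vec q (fun i => g q a i - g q b i)‖ := by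
  apply abs_le_of_sq_le_sq' _ (norm_nonneg _) |>.2
  rw [norm_vec]
  have h1 : (1 : ℝ) ≤ ((∑ i, (g q a i - g q b i) ^ 2 : ℤ) : ℝ) := by
    exact_mod_cast A_pos ha hb hab
  have h2 : (0 : ℝ) ≤ (5832 * (q : ℝ) ^ 3) ^ 2 * ((q : ℝ) ^ 2 + 1) := by positivity
  calc (2 * (2916 * (q : ℝ) ^ 4)) ^ 2 = (5832 * (q : ℝ) ^ 3) ^ 2 * (q : ℝ) ^ 2 := by ring
    _ ≤ (5832 * (q : ℝ) ^ 3) ^ 2 * ((q : ℝ) ^ 2 + 1) * 1 := by
        rw [mul_one]; gcongr; linarith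
    _ ≤ _ := mul_le_mul_of_nonneg_left h1 h2

lemma D_sep : ∀ v ∈ D, ∀ w ∈ D,
    v = w ∨ v = -w ∨ |⟪v, w⟫_ℝ| * (‖v‖ + 1) ≤ ‖v‖ ^ 2 * ‖w‖ := by
  rintro _ ⟨q, a, b, hq, ha, hb, hab, rfl⟩ _ ⟨r, c, d, hr, hc, hd, hcd, rfl⟩
  have q1 : (1 : ℝ) ≤ q := by exact_mod_cast hq
  have r1 : (1 : ℝ) ≤ r := by exact_mod_cast hr
  have K1 : (1 : ℝ) ≤ 2916 * (q : ℝ) ^ 4 := by
    have := one_le_pow₀ (n := 4) q1
    linarith
  have fin : ∀ {A B C : ℝ}, A = ((∑ i, (g q a i - g q b i) ^ 2 : ℤ) : ℝ) →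
      B = ((∑ i, (g q a i - g q b i) * (g r c i - g r d i) : ℤ) : ℝ) →
      C = ((∑ i, (g r c i - g r d i) ^ 2 : ℤ) : ℝ) →
      (((q : ℝ) * r + 1) * B) ^ 2 * (2916 * (q : ℝ) ^ 4) ≤
        (2916 * (q : ℝ) ^ 4 - 1) * ((((q : ℝ) ^ 2 + 1) * A) * (((r : ℝ) ^ 2 + 1) * C)) →
      |⟪vec q (fun i => g q a i - g q b i), vec r (fun i => g r c i - g r d i)⟫_ℝ| *
        (‖vec q (fun i => g q a i - g q b i)‖ + 1) ≤
        ‖vec q (fun i => g q a i - g q b i)‖ ^ 2 * ‖vec r (fun i => g r c i - g r d i)‖ := by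
    intro A B C hA hB hC h
    refine sep_of K1 (norm_ge hq ha hb hab) (norm_nonneg _) ?_
    rw [norm_vec, norm_vec, inner_vec, ← hA, ← hB, ← hC]
    have := mul_le_mul_of_nonneg_left h
      (show (0 : ℝ) ≤ (5832 * (q : ℝ) ^ 3) ^ 2 * (5832 * (r : ℝ) ^ 3) ^ 2 by positivity)
    linarith [this]
  obtain ⟨A, hA⟩ : ∃ A : ℝ, A = ((∑ i, (g q a i - g q b i) ^ 2 : ℤ) : ℝ) := ⟨_, rfl⟩
  obtain ⟨B, hB⟩ : ∃ B : ℝ, B = ((∑ i, (g q a i - g q b i) * (g r c i - g r d i) : ℤ) : ℝ) :=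
    ⟨_, rfl⟩
  obtain ⟨C, hC⟩ : ∃ C : ℝ, C = ((∑ i, (g r c i - g r d i) ^ 2 : ℤ) : ℝ) := ⟨_, rfl⟩
  have A1 : 1 ≤ A := by rw [hA]; exact_mod_cast A_pos ha hb hab
  have C1 : 1 ≤ C := by rw [hC]; exact_mod_cast A_pos hc hd hcd
  by_cases hqr : q = r
  · subst hqr
    rcases cs_strict ha hb hc hd hab hcd with ⟨rfl, rfl⟩ | ⟨rfl, rfl⟩ | h
    · exact Or.inl rfl
    · exact Or.inr (Or.inl (vec_neg _ _ _))
    · refine Or.inr (Or.inr (fin hA hB hC ?_))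
      have h' : B ^ 2 + 1 ≤ A * C := by rw [hA, hB, hC]; exact_mod_cast h
      have A2 : A ≤ 54 * (q : ℝ) ^ 2 := by rw [hA]; exact_mod_cast A_le hq a b
      have C2 : C ≤ 54 * (q : ℝ) ^ 2 := by rw [hC]; exact_mod_cast A_le hq c d
      have AC : A * C ≤ 2916 * (q : ℝ) ^ 4 := by
        calc A * C ≤ (54 * (q : ℝ) ^ 2) * (54 * (q : ℝ) ^ 2) :=
            mul_le_mul A2 C2 (by linarith) (by positivity)
          _ = _ := by ring
      have k : B ^ 2 * (2916 * (q : ℝ) ^ 4) ≤ (2916 * (q : ℝ) ^ 4 - 1) * (A * C) := by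
        nlinarith
      have := mul_le_mul_of_nonneg_left k (sq_nonneg ((q : ℝ) ^ 2 + 1))
      linarith [this]
  · refine Or.inr (Or.inr (fin hA hB hC ?_))
    have cs : B ^ 2 ≤ A * C := by
      rw [hA, hB, hC]
      exact_mod_cast sum_mul_sq_le_sq_mul_sq univ (fun i => g q a i - g q b i)
        (fun i => g r c i - g r d i)
    have k0 : (r : ℝ) ^ 2 + 1 ≤ (((q : ℝ) + 1) ^ 2 + 1) * ((q : ℝ) - r) ^ 2 := by
      rcases Nat.lt_or_gt_of_ne hqr with h | h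
      · have t1 : (1 : ℝ) ≤ r - q := by
          have : (q : ℝ) + 1 ≤ r := by exact_mod_cast h
          linarith
        obtain ⟨t, ht⟩ : ∃ t : ℝ, t = r - q := ⟨_, rfl⟩
        have er : (r : ℝ) = q + t := by linarith
        rw [← ht] at t1
        rw [er]
        have b1 : (q : ℝ) + t ≤ (q + 1) * t := by nlinarith
        have b2 : ((q : ℝ) + t) ^ 2 ≤ ((q + 1) * t) ^ 2 := by gcongr
        nlinarith
      · have t1 : (1 : ℝ) ≤ q - r := by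
          have : (r : ℝ) + 1 ≤ q := by exact_mod_cast h
          linarith
        have b1 : (1 : ℝ) ≤ ((q : ℝ) - r) ^ 2 := one_le_pow₀ t1
        have b2 : (r : ℝ) ^ 2 ≤ ((q : ℝ) + 1) ^ 2 := by gcongr; linarith
        nlinarith
    have k1 : ((q : ℝ) ^ 2 + 1) * (((q : ℝ) + 1) ^ 2 + 1) ≤ 2916 * (q : ℝ) ^ 4 := by
      have b1 : (q : ℝ) ^ 2 + 1 ≤ 2 * q ^ 2 := by nlinarith
      have b2 : ((q : ℝ) + 1) ^ 2 + 1 ≤ 5 * q ^ 2 := by nlinarith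
      calc _ ≤ (2 * (q : ℝ) ^ 2) * (5 * q ^ 2) := mul_le_mul b1 b2 (by positivity) (by positivity)
        _ ≤ _ := by nlinarith [pow_nonneg (show (0 : ℝ) ≤ q by linarith) 4]
    have k2 : ((q : ℝ) ^ 2 + 1) * ((r : ℝ) ^ 2 + 1) ≤ 2916 * (q : ℝ) ^ 4 * ((q : ℝ) - r) ^ 2 := by
      calc _ ≤ ((q : ℝ) ^ 2 + 1) * ((((q : ℝ) + 1) ^ 2 + 1) * ((q : ℝ) - r) ^ 2) := by gcongr
        _ = (((q : ℝ) ^ 2 + 1) * (((q : ℝ) + 1) ^ 2 + 1)) * ((q : ℝ) - r) ^ 2 := by ring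
        _ ≤ _ := by gcongr
    have k3 : ((q : ℝ) * r + 1) ^ 2 * (2916 * (q : ℝ) ^ 4) ≤
        (2916 * (q : ℝ) ^ 4 - 1) * (((q : ℝ) ^ 2 + 1) * ((r : ℝ) ^ 2 + 1)) := by
      have e : ((q : ℝ) * r + 1) ^ 2 = ((q : ℝ) ^ 2 + 1) * ((r : ℝ) ^ 2 + 1) - ((q : ℝ) - r) ^ 2 := by
        ring
      rw [e]; linarith
    calc (((q : ℝ) * r + 1) * B) ^ 2 * (2916 * (q : ℝ) ^ 4)
        = (((q : ℝ) * r + 1) ^ 2 * (2916 * (q : ℝ) ^ 4)) * B ^ 2 := by ring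
      _ ≤ ((2916 * (q : ℝ) ^ 4 - 1) * (((q : ℝ) ^ 2 + 1) * ((r : ℝ) ^ 2 + 1))) * (A * C) :=
          mul_le_mul k3 cs (sq_nonneg _) (mul_nonneg (by linarith) (by positivity))
      _ = _ := by ring

theorem main : ∃ N : Seminorm ℝ E, (∀ x, ‖x‖ ≤ N x) ∧ (∀ x, N x ≤ 2 * ‖x‖) ∧
    ∀ q : ℕ, 1 ≤ q → ∃ p : Fin (q ^ 6) → E, (∀ i, N (p i) ≤ 128304 * (q : ℝ) ^ 5) ∧
      ∀ i j, i ≠ j → ∃ k : ℤ, N (p i - p j) = k + 1 / 2 := by
  obtain ⟨N, h1, h2, h3⟩ := exists_norm D (by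
    rintro _ ⟨q, a, b, hq, ha, hb, hab, rfl⟩
    have q1 : (1 : ℝ) ≤ q := by exact_mod_cast hq
    have := one_le_pow₀ (n := 4) q1
    linarith [norm_ge hq ha hb hab]) D_sep
  refine ⟨N, h1, h2, fun q hq => ⟨fun i => vec q (g q i), fun i => ?_, fun i j hij => ?_⟩⟩
  · have q1 : (1 : ℝ) ≤ q := by exact_mod_cast hq
    have : ‖vec q (g q i)‖ ≤ 64152 * (q : ℝ) ^ 5 := by
      apply abs_le_of_sq_le_sq' _ (by positivity) |>.2
      rw [norm_vec]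
      have a0 : ∀ k, g q 0 k = 0 := fun k => by simp [g]
      have a1 := A_le hq i 0
      simp only [a0, sub_zero] at a1
      have a2 : ((∑ k, g q i k ^ 2 : ℤ) : ℝ) ≤ 54 * (q : ℝ) ^ 2 := by exact_mod_cast a1
      have b1 : (q : ℝ) ^ 2 + 1 ≤ 2 * q ^ 2 := by nlinarith
      calc _ ≤ (5832 * (q : ℝ) ^ 3) ^ 2 * ((q : ℝ) ^ 2 + 1) * (54 * (q : ℝ) ^ 2) := by gcongr
        _ ≤ (5832 * (q : ℝ) ^ 3) ^ 2 * (2 * q ^ 2) * (54 * (q : ℝ) ^ 2) := by gcongr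
        _ ≤ _ := by nlinarith [pow_nonneg (show (0 : ℝ) ≤ q by linarith) 10]
    linarith [h2 (vec q (g q i))]
  · rw [vec_sub, h3 _ ⟨q, i, j, hq, i.2, j.2, fun h => hij (Fin.ext h), rfl⟩]
    exact ⟨_, rfl⟩

end Pool.Agent.H6.NearInt
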