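import Mathlib

set_option autoImplicit false

namespace Pool.Agent.H6.Norms

open Set Topology Filter

abbrev V := Fin 2 → ℝ

def IsN (f : C(V, ℝ)) : Prop :=
  (∀ x, f x = 0 → x = 0) ∧ (∀ x y, f (x + y) ≤ f x + f y) ∧ (∀ (c : ℝ) x, f (c • x) = |c| * f x)

def IsS (f : C(V, ℝ)) : Prop :=
  (∀ x y, f (x + y) ≤ f x + f y) ∧ (∀ (c : ℝ) x, f (c • x) = |c| * f x)

abbrev X := {f : C(V, ℝ) // IsN f}

lemma IsS.neg {f : C(V, ℝ)} (h : IsS f) (x : V) : f (-x) = f x := by
  have := h.2 (-1) x
  simpa using this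

lemma IsS.zero {f : C(V, ℝ)} (h : IsS f) : f 0 = 0 := by
  have := h.2 0 0
  simpa using this

lemma IsS.nonneg {f : C(V, ℝ)} (h : IsS f) (x : V) : 0 ≤ f x := by
  have := h.1 x (-x)
  rw [add_neg_cancel, h.zero, h.neg] at this
  linarith

lemma isClosed_S : IsClosed {f : C(V, ℝ) | IsS f} := by
  have e : {f : C(V, ℝ) | IsS f} = (⋂ x, ⋂ y, {f : C(V, ℝ) | f (x + y) ≤ f x + f y}) ∩
      (⋂ c : ℝ, ⋂ x, {f : C(V, ℝ) | f (c • x) = |c| * f x}) := by
    ext f; simp [IsS]
  rw [e]
  refine IsClosed.inter (isClosed_iInter fun x => isClosed_iInter fun y => ?_)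
    (isClosed_iInter fun c => isClosed_iInter fun x => ?_)
  · exact isClosed_le (continuous_eval_const _)
      ((continuous_eval_const _).add (continuous_eval_const _))
  · exact isClosed_eq (continuous_eval_const _) (continuous_const.mul (continuous_eval_const _))

lemma exists_sphere (x : V) (hx : x ≠ 0) : ∃ z : V, ‖z‖ = 1 ∧ x = ‖x‖ • z := by
  have h : ‖x‖ ≠ 0 := norm_ne_zero_iff.2 hx
  refine ⟨‖x‖⁻¹ • x, ?_, ?_⟩
  · rw [norm_smul, norm_inv, norm_norm, inv_mul_cancel₀ h]
  · rw [smul_smul, mul_inv_cancel₀ h, one_smul]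

lemma baire : BaireSpace X := by
  have : CompleteSpace {f : C(V, ℝ) | IsS f} := isClosed_S.completeSpace_coe
  have hB : BaireSpace {f : C(V, ℝ) | IsS f} := inferInstance
  let ι : X → {f : C(V, ℝ) | IsS f} := fun f => ⟨f.1, f.2.2⟩
  have hemb : IsEmbedding ι :=
    IsEmbedding.of_comp (continuous_subtype_val.subtype_mk _) continuous_subtype_val
      IsEmbedding.subtypeVal
  have hr : range ι = Subtype.val ⁻¹' {f : C(V, ℝ) | MapsTo f (Metric.sphere 0 1) (Ioi 0)} := by
    ext g
    constructor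
    · rintro ⟨f, rfl⟩ x hx
      have hx0 : x ≠ 0 := by
        rintro rfl
        simp at hx
      have h1 : 0 ≤ f.1 x := IsS.nonneg f.2.2 x
      have h2 : f.1 x ≠ 0 := fun h => hx0 (f.2.1 x h)
      exact lt_of_le_of_ne h1 h2.symm
    · intro hg
      refine ⟨⟨g.1, ?_, g.2⟩, rfl⟩
      intro x hx
      by_contra hx0
      obtain ⟨z, hz, e⟩ := exists_sphere x hx0
      have h1 : 0 < g.1 z := hg (by simpa using hz)
      rw [e, g.2.2, abs_norm] at hx
      have : 0 < ‖x‖ := norm_pos_iff.2 hx0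
      have := mul_pos this h1
      linarith
  have hopen : IsOpenEmbedding ι := ⟨hemb, by
    rw [hr]
    exact (ContinuousMap.isOpen_setOfPred_mapsTo (isCompact_sphere 0 1) isOpen_Ioi).preimage
      continuous_subtype_val⟩
  exact hopen.baireSpace

/-- the set of norms uniformly close to g -/
def Near (g : C(V, ℝ)) : Set X := {f | MapsTo (f.1 - g) (Metric.sphere 0 1) (Ioo (-(1/100)) (1/100))}

lemma isOpen_Near (g : C(V, ℝ)) : IsOpen (Near g) :=
  (ContinuousMap.isOpen_setOfPred_mapsTo (isCompact_sphere 0 1) isOpen_Ioo).preimage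
    (continuous_subtype_val.sub continuous_const)

lemma self_Near (g : X) : g ∈ Near g.1 := by
  intro x _
  simp

lemma Near_bound (g : X) (f : X) (h : f ∈ Near g.1) (x : V) :
    g.1 x - ‖x‖ / 100 ≤ f.1 x ∧ f.1 x ≤ g.1 x + ‖x‖ / 100 := by
  by_cases hx : x = 0
  · subst hx
    simp [IsS.zero f.2.2, IsS.zero g.2.2]
  obtain ⟨z, hz, e⟩ := exists_sphere x hx
  have h1 := h (show z ∈ Metric.sphere (0 : V) 1 by simpa using hz)
  simp only [ContinuousMap.sub_apply, mem_Ioo] at h1
  have e1 : f.1 x = ‖x‖ * f.1 z := by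
    conv_lhs => rw [e]
    rw [f.2.2.2, abs_norm]
  have e2 : g.1 x = ‖x‖ * g.1 z := by
    conv_lhs => rw [e]
    rw [g.2.2.2, abs_norm]
  have := norm_nonneg x
  rw [e1, e2]
  constructor <;> nlinarith [h1.1, h1.2]

noncomputable def toC (x : V) : ℂ := ⟨x 0, x 1⟩

lemma toC_add (x y : V) : toC (x + y) = toC x + toC y := by
  apply Complex.ext <;> simp [toC]

lemma toC_smul (c : ℝ) (x : V) : toC (c • x) = (c : ℂ) * toC x := by
  apply Complex.ext <;> simp [toC]

noncomputable def EE : C(V, ℝ) := ⟨fun x => ‖toC x‖, by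
  have : Continuous toC := by
    have e : toC = fun x => ((x 0 : ℝ) : ℂ) + ((x 1 : ℝ) : ℂ) * Complex.I := by
      funext x; apply Complex.ext <;> simp [toC]
    rw [e]; fun_prop
  exact this.norm⟩

lemma EE_apply (x : V) : EE x = ‖toC x‖ := rfl

lemma EE_sq (x : V) : EE x ^ 2 = x 0 ^ 2 + x 1 ^ 2 := by
  rw [EE_apply, Complex.sq_norm, Complex.normSq_apply]
  simp [toC]; ring

lemma EE_nonneg (x : V) : 0 ≤ EE x := by rw [EE_apply]; exact norm_nonneg _

lemma EE_isN : IsN EE := by
  refine ⟨fun x hx => ?_, fun x y => ?_, fun c x => ?_⟩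
  · have := EE_sq x
    rw [hx] at this
    funext i
    fin_cases i
    · show x 0 = 0
      nlinarith [sq_nonneg (x 0), sq_nonneg (x 1)]
    · show x 1 = 0
      nlinarith [sq_nonneg (x 0), sq_nonneg (x 1)]
  · rw [EE_apply, toC_add]; exact norm_add_le _ _
  · rw [EE_apply, toC_smul, norm_mul, Complex.norm_real, Real.norm_eq_abs, EE_apply]

lemma norm_le_EE (x : V) : ‖x‖ ≤ EE x := by
  rw [pi_norm_le_iff_of_nonneg (EE_nonneg x)]
  intro i
  rw [Real.norm_eq_abs]
  apply abs_le_of_sq_le_sq' _ (EE_nonneg x) |>.elim (fun a b => abs_le.2 ⟨a, b⟩)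
  rw [EE_sq]
  fin_cases i
  · show x 0 ^ 2 ≤ _
    nlinarith [sq_nonneg (x 1)]
  · show x 1 ^ 2 ≤ _
    nlinarith [sq_nonneg (x 0)]

def det (x y : V) : ℝ := x 0 * y 1 - x 1 * y 0

lemma EE_strict (x y : V) (h : det x y ≠ 0) : EE (x + y) < EE x + EE y := by
  have h1 := EE_isN.2.1 x y
  refine lt_of_le_of_ne h1 fun he => h ?_
  have a := EE_sq x
  have b := EE_sq y
  have c := EE_sq (x + y)
  rw [he] at c
  simp only [Pi.add_apply] at c
  have d : EE x * EE y = x 0 * y 0 + x 1 * y 1 := by nlinarith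
  have e : (EE x * EE y) ^ 2 = (x 0 ^ 2 + x 1 ^ 2) * (y 0 ^ 2 + y 1 ^ 2) := by rw [mul_pow, a, b]
  rw [d] at e
  have : det x y ^ 2 = 0 := by unfold det; nlinarith
  exact pow_eq_zero_iff (two_ne_zero) |>.1 this

def SC (f : C(V, ℝ)) : Prop := ∀ x y, det x y ≠ 0 → f (x + y) < f x + f y

def KK (n : ℕ) : Set (V × V) :=
  (Metric.closedBall 0 n ×ˢ Metric.closedBall 0 n) ∩ {p | 1 / ((n : ℝ) + 1) ≤ |det p.1 p.2|}

lemma KK_compact (n : ℕ) : IsCompact (KK n) := by
  refine ((isCompact_closedBall _ _).prod (isCompact_closedBall _ _)).inter_right ?_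
  refine isClosed_le continuous_const ?_
  unfold det
  fun_prop

noncomputable def Psi (f : C(V, ℝ)) : C(V × V, ℝ) :=
  f.comp ContinuousMap.fst + f.comp ContinuousMap.snd - f.comp ⟨fun p => p.1 + p.2, by fun_prop⟩

lemma Psi_cont : Continuous Psi :=
  ((ContinuousMap.continuous_precomp _).add (ContinuousMap.continuous_precomp _)).sub
    (ContinuousMap.continuous_precomp _)

lemma Psi_apply (f : C(V, ℝ)) (p : V × V) : Psi f p = f p.1 + f p.2 - f (p.1 + p.2) := rfl

lemma SC_residual : {f : X | SC f.1} ∈ residual X := by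
  have hG : (⋂ n : ℕ, {f : X | MapsTo (Psi f.1) (KK n) (Ioi 0)}) ∈ residual X := by
    rw [countable_iInter_mem]
    intro n
    apply residual_of_dense_open
    · exact (ContinuousMap.isOpen_setOfPred_mapsTo (KK_compact n) isOpen_Ioi).preimage
        (Psi_cont.comp continuous_subtype_val)
    · intro f
      have hN : ∀ k : ℕ, IsN (f.1 + (1 / ((k : ℝ) + 1)) • EE) := by
        intro k
        have hk : (0 : ℝ) < 1 / ((k : ℝ) + 1) := by positivity
        refine ⟨fun x hx => ?_, fun x y => ?_, fun c x => ?_⟩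
        · simp only [ContinuousMap.add_apply, ContinuousMap.smul_apply, smul_eq_mul] at hx
          have a := IsS.nonneg f.2.2 x
          have b := mul_nonneg hk.le (EE_nonneg x)
          exact f.2.1 x (by linarith)
        · simp only [ContinuousMap.add_apply, ContinuousMap.smul_apply, smul_eq_mul]
          have a := f.2.2.1 x y
          have b := mul_le_mul_of_nonneg_left (EE_isN.2.1 x y) hk.le
          linarith
        · simp only [ContinuousMap.add_apply, ContinuousMap.smul_apply, smul_eq_mul]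
          rw [f.2.2.2, EE_isN.2.2]; ring
      refine mem_closure_of_tendsto (b := atTop) (f := fun k : ℕ => (⟨_, hN k⟩ : X)) ?_ ?_
      · rw [tendsto_subtype_rng]
        have h0 : Tendsto (fun k : ℕ => (1 / ((k : ℝ) + 1)) • EE) atTop (𝓝 ((0 : ℝ) • EE)) :=
          tendsto_one_div_add_atTop_nhds_zero_nat.smul tendsto_const_nhds
        have := (tendsto_const_nhds (x := f.1)).add h0
        simpa using this
      · refine Eventually.of_forall fun k => ?_
        intro p hp
        have hk : (0 : ℝ) < 1 / ((k : ℝ) + 1) := by positivity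
        have hd : det p.1 p.2 ≠ 0 := by
          intro h0
          have h1 := hp.2
          simp only [mem_ofPred_eq, h0, abs_zero] at h1
          have : (0 : ℝ) < 1 / ((n : ℝ) + 1) := by positivity
          linarith
        simp only [Psi_apply, ContinuousMap.add_apply, ContinuousMap.smul_apply, smul_eq_mul,
          mem_Ioi]
        have a := f.2.2.1 p.1 p.2
        have b := mul_lt_mul_of_pos_left (EE_strict p.1 p.2 hd) hk
        linarith
  refine mem_of_superset hG ?_
  intro f hf x y hd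
  have hpos : 0 < |det x y| := abs_pos.2 hd
  obtain ⟨n, hn⟩ := exists_nat_ge (‖x‖ + ‖y‖ + 1 / |det x y|)
  have h1 : 0 < 1 / |det x y| := by positivity
  have hx := norm_nonneg x
  have hy := norm_nonneg y
  have hmem : (x, y) ∈ KK n := by
    refine ⟨⟨?_, ?_⟩, ?_⟩
    · simp; linarith
    · simp; linarith
    · simp only [mem_ofPred_eq]
      rw [div_le_iff₀ (by positivity)]
      have : 1 / |det x y| ≤ (n : ℝ) + 1 := by linarith
      rw [div_le_iff₀ hpos] at this
      linarith
  have := (mem_iInter.1 hf n) hmem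
  simp only [Psi_apply, mem_Ioi] at this
  linarith

end Pool.Agent.H6.Norms
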