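import Pool.Agent.H6.Norms

set_option autoImplicit false

namespace Pool.Agent.H6.Norms

open Set Topology Filter

lemma line_strict (f : C(V, ℝ)) (hf : IsN f) (hs : SC f) (a w : V) (hd : det a w ≠ 0)
    (α s t u : ℝ) (hα : 0 < α) (hst : s < t) (htu : t < u)
    (h1 : f (α • a + s • w) ≤ 1) (h2 : f (α • a + u • w) ≤ 1) : f (α • a + t • w) < 1 := by
  have hus : 0 < u - s := by linarith
  set l : ℝ := (u - t) / (u - s) with hl
  have hl0 : 0 < l := div_pos (by linarith) hus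
  have hl1 : 0 < 1 - l := by
    rw [hl, sub_pos, div_lt_one hus]; linarith
  have e : α • a + t • w = l • (α • a + s • w) + (1 - l) • (α • a + u • w) := by
    have : t = l * s + (1 - l) * u := by rw [hl]; field_simp; ring
    rw [this]
    funext i
    simp only [Pi.add_apply, Pi.smul_apply, smul_eq_mul]; ring
  have hdet : det (l • (α • a + s • w)) ((1 - l) • (α • a + u • w)) ≠ 0 := by
    have : det (l • (α • a + s • w)) ((1 - l) • (α • a + u • w)) =
        l * (1 - l) * α * (u - s) * det a w := by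
      simp only [det, Pi.add_apply, Pi.smul_apply, smul_eq_mul]; ring
    rw [this]
    exact mul_ne_zero (by positivity) hd
  have h3 := hs _ _ hdet
  rw [← e, hf.2.2, hf.2.2, abs_of_pos hl0, abs_of_pos hl1] at h3
  nlinarith

lemma two_aux (f : C(V, ℝ)) (hf : IsN f) (hs : SC f) (a w : V) (hd : det a w ≠ 0)
    (ha : f a = 1) (haw : f (a - w) = 1) (hw : f w = 1) (α β : ℝ) (h0 : 0 < α) (h1 : α ≤ 1)
    (hy : f (α • a + β • w) = 1) (hyw : f (α • a + (β - 1) • w) = 1) : α = 1 ∧ β = 0 := by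
  have hL : f (α • a + (-1 : ℝ) • w) ≤ 1 := by
    have e : α • a + (-1 : ℝ) • w = α • (a - w) + (-(1 - α)) • w := by
      funext i
      simp only [Pi.add_apply, Pi.smul_apply, smul_eq_mul, Pi.sub_apply]; ring
    have := hf.2.1 (α • (a - w)) ((-(1 - α)) • w)
    rw [hf.2.2, hf.2.2, haw, hw, abs_of_pos h0, abs_neg, abs_of_nonneg (by linarith)] at this
    rw [e]; linarith
  have hR : f (α • a + (1 - α) • w) ≤ 1 := by
    have := hf.2.1 (α • a) ((1 - α) • w)
    rw [hf.2.2, hf.2.2, ha, hw, abs_of_pos h0, abs_of_nonneg (by linarith)] at this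
    linarith
  have c1 : β ≤ 0 := by
    by_contra h
    push Not at h
    have := line_strict f hf hs a w hd α (-1) (β - 1) β h0 (by linarith) (by linarith) hL hy.le
    linarith
  have c2 : 1 - α ≤ β := by
    by_contra h
    push Not at h
    have := line_strict f hf hs a w hd α (β - 1) β (1 - α) h0 (by linarith) h hyw.le hR
    linarith
  constructor <;> linarith

lemma decomp (a w y : V) (hd : det a w ≠ 0) :
    y = (det y w / det a w) • a + (det a y / det a w) • w := by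
  funext i
  simp only [Pi.add_apply, Pi.smul_apply, smul_eq_mul]
  field_simp
  fin_cases i <;> simp [det] <;> ring

lemma det_ne (f : C(V, ℝ)) (hf : IsN f) (a w : V)
    (ha : f a = 1) (haw : f (a - w) = 1) (hw : f w = 1) : det a w ≠ 0 := by
  intro hd
  have hw0 : w ≠ 0 := by
    rintro rfl
    rw [IsS.zero hf.2] at hw; norm_num at hw
  obtain ⟨t, rfl⟩ : ∃ t : ℝ, a = t • w := by
    by_cases h0 : w 0 = 0
    · have h1 : w 1 ≠ 0 := by
        intro h1
        apply hw0
        funext i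
        fin_cases i
        · exact h0
        · exact h1
      refine ⟨a 1 / w 1, ?_⟩
      funext i
      fin_cases i
      · show a 0 = a 1 / w 1 * w 0
        unfold det at hd
        field_simp; linarith
      · show a 1 = a 1 / w 1 * w 1
        field_simp
    · refine ⟨a 0 / w 0, ?_⟩
      funext i
      fin_cases i
      · show a 0 = a 0 / w 0 * w 0
        field_simp
      · show a 1 = a 0 / w 0 * w 1
        unfold det at hd
        field_simp; linarith
  have e : t • w - w = (t - 1) • w := by rw [sub_smul, one_smul]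
  rw [e, hf.2.2, hw, mul_one] at haw
  rw [hf.2.2, hw, mul_one] at ha
  rcases abs_eq (by norm_num : (0 : ℝ) ≤ 1) |>.1 ha with h | h <;>
    rcases abs_eq (by norm_num : (0 : ℝ) ≤ 1) |>.1 haw with h' | h' <;> linarith

lemma two_pos (f : C(V, ℝ)) (hf : IsN f) (hs : SC f) (a w y : V)
    (ha : f a = 1) (haw : f (a - w) = 1) (hw : f w = 1) (hy : f y = 1) (hyw : f (y - w) = 1)
    (hpos : 0 < det y w / det a w) : y = a := by
  have hd := det_ne f hf a w ha haw hw
  have hd' := det_ne f hf y w hy hyw hw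
  have key : ∀ a y : V, f a = 1 → f (a - w) = 1 → f y = 1 → f (y - w) = 1 → det a w ≠ 0 →
      0 < det y w / det a w → det y w / det a w ≤ 1 → y = a := by
    intro a y ha haw hy hyw hd h0 h1
    have e := decomp a w y hd
    have e2 : y - w = (det y w / det a w) • a + (det a y / det a w - 1) • w := by
      conv_lhs => rw [e]
      rw [sub_smul, one_smul, add_sub_assoc]
    obtain ⟨h2, h3⟩ := two_aux f hf hs a w hd ha haw hw _ _ h0 h1 (e ▸ hy) (e2 ▸ hyw)
    rw [e, h2, h3]; simp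
  by_cases h : det y w / det a w ≤ 1
  · exact key a y ha haw hy hyw hd hpos h
  · push Not at h
    have e : det a w / det y w = (det y w / det a w)⁻¹ := by rw [inv_div]
    refine (key y a hy hyw ha haw hd' ?_ ?_).symm
    · rw [e]; exact inv_pos.2 hpos
    · rw [e]; exact inv_le_one_of_one_le₀ h.le

lemma rhombus (f : C(V, ℝ)) (hf : IsN f) (hs : SC f) (p q r s : V)
    (h1 : f (p - q) = 1) (h2 : f (p - r) = 1) (h3 : f (q - r) = 1)
    (h4 : f (q - s) = 1) (h5 : f (r - s) = 1) (hne : s ≠ p) : s = q + r - p := by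
  have sym : ∀ x y : V, f (x - y) = f (y - x) := fun x y => by
    rw [← IsS.neg hf.2, neg_sub]
  have ha : f (p - q) = 1 := h1
  have hw : f (r - q) = 1 := by rw [sym]; exact h3
  have haw : f (p - q - (r - q)) = 1 := by rw [sub_sub_sub_cancel_right]; exact h2
  have hy : f (s - q) = 1 := by rw [sym]; exact h4
  have hyw : f (s - q - (r - q)) = 1 := by rw [sub_sub_sub_cancel_right, sym]; exact h5
  have hd := det_ne f hf _ _ ha haw hw
  have hd' := det_ne f hf _ _ hy hyw hw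
  rcases lt_or_gt_of_ne (div_ne_zero hd' hd) with h | h
  · have := two_pos f hf hs (p - q) (r - q) ((r - q) - (s - q)) ha haw hw
      (by rw [sym]; exact hyw) (by
        have : r - q - (s - q) - (r - q) = -(s - q) := by abel
        rw [this, IsS.neg hf.2]; exact hy) (by
        have : det (r - q - (s - q)) (r - q) = -det (s - q) (r - q) := by
          simp only [det, Pi.sub_apply]; ring
        rw [this, neg_div]; linarith)
    have e : s = (r - q) - (r - q - (s - q)) + q := by abel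
    rw [e, this]; abel
  · have := two_pos f hf hs (p - q) (r - q) (s - q) ha haw hw hy hyw h
    exact absurd (sub_left_injective this) hne

def LL : List (Fin 10 × Fin 10) :=
  [(0,1),(0,2),(1,2),(1,3),(2,3),(1,4),(3,4),(4,5),(3,5),(5,6),(3,6),(5,7),(6,7),(0,8),(8,9),(9,7)]

def HH : SimpleGraph (Fin 10) := SimpleGraph.fromRel (fun i j => (i, j) ∈ LL)

lemma not_contain (f : X) (hs : SC f.1) (hn : f ∈ Near EE) :
    ¬ ∃ φ : Fin 10 → V, Function.Injective φ ∧ ∀ u v, HH.Adj u v → f.1 (φ u - φ v) = 1 := by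
  rintro ⟨φ, hinj, hφ⟩
  have ed : ∀ i j : Fin 10, (i, j) ∈ LL → f.1 (φ i - φ j) = 1 := by
    intro i j h
    apply hφ
    refine ⟨?_, Or.inl h⟩
    revert i j; decide
  have sym : ∀ x y : V, f.1 (x - y) = f.1 (y - x) := fun x y => by
    rw [← IsS.neg f.2.2, neg_sub]
  have e3 := rhombus f.1 f.2 hs (φ 0) (φ 1) (φ 2) (φ 3) (ed _ _ (by decide)) (ed _ _ (by decide))
    (ed _ _ (by decide)) (ed _ _ (by decide)) (ed _ _ (by decide)) (hinj.ne (by decide))
  have e4 := rhombus f.1 f.2 hs (φ 2) (φ 1) (φ 3) (φ 4) (by rw [sym]; exact ed _ _ (by decide))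
    (ed _ _ (by decide))
    (ed _ _ (by decide)) (ed _ _ (by decide)) (ed _ _ (by decide)) (hinj.ne (by decide))
  have e5 := rhombus f.1 f.2 hs (φ 1) (φ 3) (φ 4) (φ 5) (ed _ _ (by decide)) (ed _ _ (by decide))
    (ed _ _ (by decide)) (ed _ _ (by decide)) (ed _ _ (by decide)) (hinj.ne (by decide))
  have e6 := rhombus f.1 f.2 hs (φ 4) (φ 3) (φ 5) (φ 6) (by rw [sym]; exact ed _ _ (by decide))
    (ed _ _ (by decide))
    (ed _ _ (by decide)) (ed _ _ (by decide)) (ed _ _ (by decide)) (hinj.ne (by decide))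
  have e7 := rhombus f.1 f.2 hs (φ 3) (φ 5) (φ 6) (φ 7) (ed _ _ (by decide)) (ed _ _ (by decide))
    (ed _ _ (by decide)) (ed _ _ (by decide)) (ed _ _ (by decide)) (hinj.ne (by decide))
  set u := φ 0 - φ 1 with hu
  set v := φ 0 - φ 2 with hv
  have hfu : f.1 u = 1 := ed _ _ (by decide)
  have hfv : f.1 v = 1 := ed _ _ (by decide)
  have hfuv : f.1 (v - u) = 1 := by
    have : v - u = φ 1 - φ 2 := by rw [hu, hv]; abel
    rw [this]; exact ed _ _ (by decide)
  have e : φ 0 - φ 7 = (2 : ℝ) • (u + v) := by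
    rw [e7, e6, e5, e4, e3, hu, hv, two_smul]; abel
  have h3 : f.1 (φ 0 - φ 7) ≤ 3 := by
    have a := f.2.2.1 (φ 0 - φ 8) (φ 8 - φ 9)
    have b := f.2.2.1 (φ 0 - φ 8 + (φ 8 - φ 9)) (φ 9 - φ 7)
    have c : φ 0 - φ 8 + (φ 8 - φ 9) + (φ 9 - φ 7) = φ 0 - φ 7 := by abel
    rw [c] at b
    rw [ed 0 8 (by decide), ed 8 9 (by decide)] at a
    rw [ed 9 7 (by decide)] at b
    linarith
  rw [e, f.2.2.2] at h3
  have bd : ∀ x : V, 99 / 100 * EE x ≤ f.1 x ∧ f.1 x ≤ 101 / 100 * EE x := by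
    intro x
    have a := Near_bound ⟨EE, EE_isN⟩ f hn x
    have b := norm_le_EE x
    constructor <;> linarith [a.1, a.2]
  have b1 := (bd u).2
  have b2 := (bd v).2
  have b3 := (bd (v - u)).1
  have b4 := (bd (u + v)).1
  have par : EE (u + v) ^ 2 + EE (v - u) ^ 2 = 2 * EE u ^ 2 + 2 * EE v ^ 2 := by
    simp only [EE_sq, Pi.add_apply, Pi.sub_apply]; ring
  have n1 := EE_nonneg (u + v)
  have n2 := EE_nonneg (v - u)
  rw [abs_of_pos (by norm_num : (0 : ℝ) < 2)] at h3
  have c1 : 99 / 100 ≤ EE u := by linarith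
  have c2 : 99 / 100 ≤ EE v := by linarith
  have c3 : EE (v - u) ≤ 102 / 100 := by linarith
  have c4 : EE (u + v) ≤ 152 / 100 := by linarith
  nlinarith

noncomputable def SUP : C(V, ℝ) := ⟨fun x => ‖x‖, continuous_norm⟩

lemma SUP_isN : IsN SUP :=
  ⟨fun _ hx => norm_eq_zero.1 hx, fun x y => norm_add_le x y, fun c x => by
    show ‖c • x‖ = |c| * ‖x‖
    rw [norm_smul, Real.norm_eq_abs]⟩

lemma sup_lo (f : X) (hn : f ∈ Near SUP) (x : V) (i : Fin 2) : 99 / 100 * |x i| ≤ f.1 x := by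
  have a := (Near_bound ⟨SUP, SUP_isN⟩ f hn x).1
  have b : |x i| ≤ ‖x‖ := norm_le_pi_norm x i
  have c : SUP x = ‖x‖ := rfl
  simp only [c] at a
  linarith

lemma sup_hi (f : X) (hn : f ∈ Near SUP) (x : V) (c : ℝ) (h0 : |x 0| ≤ c) (h1 : |x 1| ≤ c) :
    f.1 x ≤ 101 / 100 * c := by
  have a := (Near_bound ⟨SUP, SUP_isN⟩ f hn x).2
  have b : ‖x‖ ≤ c := by
    rw [pi_norm_le_iff_of_nonneg ((abs_nonneg _).trans h0)]
    intro i
    fin_cases i
    · exact h0
    · exact h1
  have c : SUP x = ‖x‖ := rfl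
  simp only [c] at a
  linarith

lemma normalize (f : X) (z : V) (h1 : 99 / 100 ≤ f.1 z) (h2 : f.1 z ≤ 101 / 100) :
    99 / 100 ≤ (f.1 z)⁻¹ ∧ (f.1 z)⁻¹ ≤ 102 / 100 ∧ f.1 ((f.1 z)⁻¹ • z) = 1 := by
  have hp : 0 < f.1 z := by linarith
  refine ⟨?_, ?_, ?_⟩
  · rw [le_inv_comm₀ (by norm_num) hp]; norm_num; linarith
  · rw [inv_le_comm₀ hp (by norm_num)]; norm_num; linarith
  · rw [f.2.2.2, abs_of_pos (inv_pos.2 hp), inv_mul_cancel₀ hp.ne']

lemma ivt (f : X) (hn : f ∈ Near SUP) (q : V) (δ : ℝ) (hδ : 0 < δ) (hδ1 : δ ≤ 1)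
    (h1 : 102 / 100 ≤ q 0 + 99 / 100 * δ) (h2 : q 0 - 99 / 100 * δ ≤ 98 / 100)
    (h3 : -(98 / 100) ≤ q 0 - 102 / 100 * δ) (h4 : q 1 - 99 / 100 ≤ 98 / 100)
    (h5 : -(98 / 100) ≤ q 1 - 102 / 100) :
    ∃ x μ : ℝ, |x| ≤ δ ∧ 99 / 100 ≤ μ ∧ μ ≤ 102 / 100 ∧ f.1 (μ • ![x, 1]) = 1 ∧
      f.1 (q - μ • ![x, 1]) = 1 := by
  have hz : ∀ x : ℝ, 99 / 100 ≤ f.1 ![x, 1] := by
    intro x
    have := sup_lo f hn ![x, 1] 1
    simpa using this
  have hz' : ∀ x : ℝ, |x| ≤ 1 → f.1 ![x, 1] ≤ 101 / 100 := by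
    intro x hx
    have := sup_hi f hn ![x, 1] 1 (by simpa using hx) (by simp)
    linarith
  have c0 : Continuous fun x : ℝ => (![x, 1] : V) := by
    refine continuous_pi fun i => ?_
    fin_cases i
    · simpa using continuous_id'
    · simpa using continuous_const
  have c1 : Continuous fun x : ℝ => f.1 ![x, 1] := f.1.continuous.comp c0
  have c2 : Continuous fun x : ℝ => f.1 (q - (f.1 ![x, 1])⁻¹ • (![x, 1] : V)) :=
    f.1.continuous.comp (continuous_const.sub
      ((c1.inv₀ fun x => by linarith [hz x]).smul c0))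
  have ea : 1 ≤ f.1 (q - (f.1 ![-δ, 1])⁻¹ • (![-δ, 1] : V)) := by
    obtain ⟨a, b, -⟩ := normalize f _ (hz (-δ)) (hz' (-δ) (by rw [abs_neg, abs_of_pos hδ]; exact hδ1))
    have := sup_lo f hn (q - (f.1 ![-δ, 1])⁻¹ • (![-δ, 1] : V)) 0
    have e : (q - (f.1 ![-δ, 1])⁻¹ • (![-δ, 1] : V)) 0 = q 0 + (f.1 ![-δ, 1])⁻¹ * δ := by simp
    rw [e] at this
    have h6 := le_abs_self (q 0 + (f.1 ![-δ, 1])⁻¹ * δ)
    nlinarith
  have eb : f.1 (q - (f.1 ![δ, 1])⁻¹ • (![δ, 1] : V)) ≤ 1 := by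
    obtain ⟨a, b, -⟩ := normalize f _ (hz δ) (hz' δ (by rw [abs_of_pos hδ]; exact hδ1))
    have := sup_hi f hn (q - (f.1 ![δ, 1])⁻¹ • (![δ, 1] : V)) (98 / 100) (by
      have e : (q - (f.1 ![δ, 1])⁻¹ • (![δ, 1] : V)) 0 = q 0 - (f.1 ![δ, 1])⁻¹ * δ := by simp
      rw [e, abs_le]; constructor <;> nlinarith) (by
      have e : (q - (f.1 ![δ, 1])⁻¹ • (![δ, 1] : V)) 1 = q 1 - (f.1 ![δ, 1])⁻¹ := by simp
      rw [e, abs_le]; constructor <;> linarith)
    linarith
  obtain ⟨x, hx, hx1⟩ := intermediate_value_Icc' (by linarith : -δ ≤ δ) c2.continuousOn ⟨eb, ea⟩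
  have hxa : |x| ≤ δ := abs_le.2 hx
  obtain ⟨a, b, c⟩ := normalize f _ (hz x) (hz' x (hxa.trans hδ1))
  exact ⟨x, _, hxa, a, b, c, hx1⟩

lemma contain (f : X) (hn : f ∈ Near SUP) :
    ∃ φ : Fin 10 → V, Function.Injective φ ∧ ∀ u v, HH.Adj u v → f.1 (φ u - φ v) = 1 := by
  have unit : ∀ t : ℝ, |t| ≤ 1 → ∃ l : ℝ, 99 / 100 ≤ l ∧ l ≤ 102 / 100 ∧ f.1 (l • ![1, t]) = 1 := by
    intro t ht
    have a := sup_lo f hn ![1, t] 0
    have b := sup_hi f hn ![1, t] 1 (by simp) (by simpa using ht)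
    simp only [Matrix.cons_val_zero, abs_one, mul_one] at a b
    exact ⟨_, normalize f _ a b⟩
  obtain ⟨l, l1, l2, hu⟩ := unit (1 / 4) (by norm_num [abs_of_pos])
  obtain ⟨n, n1, n2, hy⟩ := unit (3 / 4) (by norm_num [abs_of_pos])
  set u : V := l • ![1, 1 / 4] with hudef
  set y : V := n • ![1, 3 / 4] with hydef
  have u0 : u 0 = l := by simp [hudef]
  have u1 : u 1 = l / 4 := by simp [hudef]; ring
  have y0 : y 0 = n := by simp [hydef]
  have y1 : y 1 = 3 * n / 4 := by simp [hydef]; ring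
  obtain ⟨x, m, hx, m1, m2, hv, huv⟩ := ivt f hn u (1 / 10) (by norm_num) (by norm_num)
    (by linarith) (by linarith) (by linarith) (by linarith) (by linarith)
  set v : V := m • ![x, 1] with hvdef
  have v0 : v 0 = m * x := by simp [hvdef]
  have v1 : v 1 = m := by simp [hvdef]
  obtain ⟨hx1, hx2⟩ := abs_le.1 hx
  have mx1 : -(102 / 1000) ≤ m * x := by nlinarith
  have mx2 : m * x ≤ 102 / 1000 := by nlinarith
  have q0 : (u + u + v + v - y) 0 = 2 * l + 2 * (m * x) - n := by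
    simp only [Pi.add_apply, Pi.sub_apply, u0, v0, y0]; ring
  have q1 : (u + u + v + v - y) 1 = l / 2 + 2 * m - 3 * n / 4 := by
    simp only [Pi.add_apply, Pi.sub_apply, u1, v1, y1]; ring
  obtain ⟨x', k, -, k1, k2, hz, hqz⟩ := ivt f hn (u + u + v + v - y) (1 / 2) (by norm_num)
    (by norm_num) (by linarith) (by linarith) (by linarith) (by linarith) (by linarith)
  set z : V := k • ![x', 1] with hzdef
  have z1 : z 1 = k := by simp [hzdef]
  let φ : Fin 10 → V := ![0, u, v, u + v, u + u, u + u + v, u + v + v, u + u + v + v, y, y + z]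
  let r : Fin 10 → ℕ := ![0, 1, 4, 5, 2, 6, 9, 10, 3, 7]
  have hr : ∀ i, (r i : ℝ) / 4 - 1 / 10 ≤ φ i 1 ∧ φ i 1 ≤ (r i : ℝ) / 4 + 1 / 10 := by
    intro i
    fin_cases i <;> simp [φ, r, u1, v1, y1, z1] <;> (try constructor) <;> linarith
  refine ⟨φ, ?_, ?_⟩
  · intro i j hij
    have a := hr i
    have b := hr j
    rw [hij] at a
    have c1 : (r i : ℝ) < r j + 1 := by linarith [a.1, b.2]
    have c2 : (r j : ℝ) < r i + 1 := by linarith [a.2, b.1]
    have d1 : r i < r j + 1 := by exact_mod_cast c1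
    have d2 : r j < r i + 1 := by exact_mod_cast c2
    have : r i = r j := by omega
    revert this
    have : ∀ i j : Fin 10, r i = r j → i = j := by decide
    exact this i j
  · have ng : ∀ w : V, f.1 (-w) = f.1 w := IsS.neg f.2.2
    have ed : ∀ i j : Fin 10, (i, j) ∈ LL → f.1 (φ j - φ i) = 1 := by
      intro i j h
      simp only [LL, List.mem_cons, Prod.mk.injEq, List.not_mem_nil, or_false] at h
      have hvu : f.1 (v - u) = 1 := by rw [← ng, neg_sub]; exact huv
      rcases h with ⟨rfl, rfl⟩ | ⟨rfl, rfl⟩ | ⟨rfl, rfl⟩ | ⟨rfl, rfl⟩ | ⟨rfl, rfl⟩ | ⟨rfl, rfl⟩ |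
        ⟨rfl, rfl⟩ | ⟨rfl, rfl⟩ | ⟨rfl, rfl⟩ | ⟨rfl, rfl⟩ | ⟨rfl, rfl⟩ | ⟨rfl, rfl⟩ | ⟨rfl, rfl⟩ |
        ⟨rfl, rfl⟩ | ⟨rfl, rfl⟩ | ⟨rfl, rfl⟩
      · convert hu using 2; show u - 0 = u; abel
      · convert hv using 2; show v - 0 = v; abel
      · exact hvu
      · convert hv using 2; show u + v - u = v; abel
      · convert hu using 2; show u + v - v = u; abel
      · convert hu using 2; show u + u - u = u; abel
      · convert huv using 2; show u + u - (u + v) = u - v; abel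
      · convert hv using 2; show u + u + v - (u + u) = v; abel
      · convert hu using 2; show u + u + v - (u + v) = u; abel
      · convert hvu using 2; show u + v + v - (u + u + v) = v - u; abel
      · convert hv using 2; show u + v + v - (u + v) = v; abel
      · convert hv using 2; show u + u + v + v - (u + u + v) = v; abel
      · convert hu using 2; show u + u + v + v - (u + v + v) = u; abel
      · convert hy using 2; show y - 0 = y; abel
      · convert hz using 2; show y + z - y = z; abel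
      · convert hqz using 2; show u + u + v + v - (y + z) = u + u + v + v - y - z; abel
    rintro i j ⟨-, h | h⟩
    · rw [← ng, neg_sub]; exact ed i j h
    · exact ed j i h

end Pool.Agent.H6.Norms
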