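import Mathlib
import Pool.Agent.H6.Heap
import Pool.Agent.H6.Dist

set_option autoImplicit false

namespace Pool.Agent.H6.PackD

open Pool.Agent.H6.Heap

def pn (v : ℕ) : ℕ := if v < 7 then 0 else if v < 13 then v - 6 else
  if (v - 13) % 5 = 0 then 7 + (v - 13) / 15 else v - 1
def dep (v : ℕ) : ℕ := if v = 0 then 0 else if v < 7 then 1 else if v < 13 then 2 else 3 + (v - 13) % 5
def br (v : ℕ) : ℕ := if v < 7 then v - 1 else if v < 13 then v - 7 else (v - 13) / 15
def lca (u v : ℕ) : ℕ := if u = 0 ∨ v = 0 ∨ br u ≠ br v then 0 else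
  if 13 ≤ u ∧ 13 ≤ v ∧ (u - 13) / 5 = (v - 13) / 5 then min (dep u) (dep v)
  else min 2 (min (dep u) (dep v))
def D (u v : ℕ) : ℕ := dep u + dep v - 2 * lca u v
def nx (u w : ℕ) : ℕ := if lca u w < dep u then pn u else if dep u = 0 then 1 + br w
  else if dep u = 1 then 7 + br w else 13 + (w - 13) / 5 * 5 + (dep u - 2)

def p (v : Fin 103) : Fin 103 := Fin.ofNat 103 (pn v)
def G : SimpleGraph (Fin 103) := pG p

lemma tree : G.IsTree := pG_tree (fun v => v.1) 0 (by decide) (by decide +kernel)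

lemma c1 : ∀ u w : Fin 103, D u w ≤ D (p u) w + 1 ∧ D (p u) w ≤ D u w + 1 := by decide +kernel
lemma c2 : ∀ u w : Fin 103, u = w ∨ (u ≠ Fin.ofNat 103 (nx u w) ∧
    (p u = Fin.ofNat 103 (nx u w) ∨ p (Fin.ofNat 103 (nx u w)) = u)) ∧
    D (Fin.ofNat 103 (nx u w)) w + 1 = D u w := by decide +kernel

lemma dist (u w : Fin 103) : G.dist u w = D u w :=
  (Dist.reach_dist G (fun u w => D u w) (by decide +kernel)
    (fun u v w h => by
      rcases h.2 with rfl | rfl
      · exact (c1 _ w).1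
      · exact (c1 _ w).2)
    (fun u w => (c2 u w).imp id fun h => ⟨_, h.1, h.2⟩) u w).2

def z (q : Fin 18) : Fin 103 := Fin.ofNat 103 (17 + 5 * q)
def good (x : Fin 103) : Prop := x ≠ 0 ∧ dep x ≤ 3
instance (x : Fin 103) : Decidable (good x) := inferInstanceAs (Decidable (x ≠ 0 ∧ dep x ≤ 3))

lemma c3 : ∀ (q : Fin 18) (x : Fin 103), D (z q) x ≤ 6 →
    (good x ∧ br x = q / 3) ∨ (¬ good x ∧ (x.1 - 13) / 5 = q) := by decide +kernel
lemma c4 : ∀ x y : Fin 103, good x → good y → D x y ≤ 6 := by decide +kernel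

theorem main (X : Finset (Fin 103)) (h1 : ∀ u ∉ X, ∃ x ∈ X, G.dist u x ≤ 6)
    (h2 : ∀ u ∈ X, ∀ v ∈ X, u ≠ v → 6 + 1 ≤ G.dist u v) : 15 ≤ X.card := by
  have e : ∀ q, ∃ x ∈ X, D (z q) x ≤ 6 := fun q => by
    by_cases h : z q ∈ X
    · exact ⟨_, h, by rw [← dist]; simp⟩
    · simpa only [dist] using h1 _ h
  choose f f1 f2 using e
  have i0 : ∃ i < 6, ∀ x ∈ X, good x → br x = i := by
    by_cases h : ∃ x ∈ X, good x
    · obtain ⟨x, hx, gx⟩ := h
      refine ⟨br x, (by decide +kernel : ∀ x : Fin 103, br x < 6) x, fun y hy gy => ?_⟩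
      by_contra c
      have := h2 x hx y hy (fun e => c (by rw [e]))
      have := c4 x y gx gy
      rw [dist] at *
      omega
    · exact ⟨0, by omega, fun x hx g => absurd ⟨x, hx, g⟩ h⟩
  obtain ⟨i, hi, h⟩ := i0
  have k : ∀ q : Fin 18, q.1 / 3 ≠ i → ((f q).1 - 13) / 5 = q := fun q hq => by
    rcases c3 q _ (f2 q) with c | c
    · exact absurd (c.2.symm.trans (h _ (f1 q) c.1)) hq
    · exact c.2
  have := Finset.card_le_card_of_injOn (s := Finset.univ.filter fun q : Fin 18 => q.1 / 3 ≠ i) (t := X) f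
    (fun q _ => f1 q) (fun a ha b hb e => Fin.ext (by
      rw [← k a (by simpa using ha), ← k b (by simpa using hb), e]))
  refine le_trans ?_ this
  clear this k h
  interval_cases i <;> decide

end Pool.Agent.H6.PackD
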