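import Mathlib

namespace Pool.Agent.H6.Pelt

/-- The three values of a difference triple with sum `n`. -/
def val (n : ℕ) (p : ℕ × ℕ) (j : Fin 3) : ℕ :=
  if j = 0 then p.1 else if j = 1 then p.2 else n - p.1 - p.2

/-- A solution of Heffter's difference problem. -/
def Good (n k : ℕ) (T : ℕ → ℕ × ℕ) : Prop :=
  (∀ t < k, (T t).1 + (T t).2 < n) ∧
  (∀ t < k, ∀ j, 0 < val n (T t) j ∧ 3 * val n (T t) j ≠ n ∧ 3 * val n (T t) j ≠ 2 * n) ∧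
  (∀ t < k, ∀ t' < k, ∀ j j', (val n (T t) j = val n (T t') j' → t = t' ∧ j = j') ∧
    val n (T t) j + val n (T t') j' ≠ n)

def T1 (s t : ℕ) : ℕ × ℕ :=
  if t < s then (3 * t + 1, 4 * s - t + 1)
  else if t < 2 * s then (3 * (t - s) + 2, 8 * s - (t - s))
  else if t < 3 * s - 1 then (3 * (t - 2 * s) + 3, 6 * s - 2 * (t - 2 * s) - 1)
  else (3 * s, 3 * s + 1)

def T7 (s t : ℕ) : ℕ × ℕ :=
  if t < s then (3 * t + 1, 8 * s - t + 3)
  else if t < 2 * s then (3 * (t - s) + 2, 6 * s - 2 * (t - s) + 1)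
  else if t < 3 * s then (3 * (t - 2 * s) + 3, 4 * s - (t - 2 * s) + 1)
  else (3 * s + 1, 4 * s + 2)

def T13 (s t : ℕ) : ℕ × ℕ :=
  if t < s then (3 * t + 2, 6 * s - 2 * t + 3)
  else if t < 2 * s then (3 * (t - s) + 3, 8 * s - (t - s) + 5)
  else if t < 3 * s + 1 then (3 * (t - 2 * s) + 1, 4 * s - (t - 2 * s) + 3)
  else (3 * s + 2, 7 * s + 5)

def T3 (s t : ℕ) : ℕ × ℕ :=
  if t < s then (3 * t + 1, 8 * s - t + 1)
  else if t < 2 * s then (3 * (t - s) + 2, 4 * s - (t - s))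
  else (3 * (t - 2 * s) + 3, 6 * s - 2 * (t - 2 * s) - 1)

def T9 (s t : ℕ) : ℕ × ℕ :=
  if t < s + 1 then (3 * t + 1, 4 * s - t + 3)
  else if t < 2 * s - 2 then (3 * (t - s + 1) + 2, 8 * s - (t - s + 1) + 2)
  else if t < 3 * s - 4 then (3 * (t + 3 - 2 * s) + 3, 6 * s - 2 * (t + 3 - 2 * s) + 1)
  else if t = 3 * s - 4 then (2, 8 * s + 3)
  else if t = 3 * s - 3 then (3, 8 * s + 1)
  else if t = 3 * s - 2 then (5, 8 * s + 2)
  else if t = 3 * s - 1 then (3 * s - 1, 3 * s + 2)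
  else (3 * s, 7 * s + 3)

def T15 (s t : ℕ) : ℕ × ℕ :=
  if t < s + 1 then (3 * t + 1, 4 * s - t + 3)
  else if t < 2 * s + 2 then (3 * (t - s - 1) + 2, 8 * s - (t - s - 1) + 6)
  else (3 * (t - 2 * s - 2) + 3, 6 * s - 2 * (t - 2 * s - 2) + 3)

def One (n a b : ℕ) : Prop :=
  0 < a ∧ 0 < b ∧ a + b < n ∧ 3 * a ≠ n ∧ 3 * b ≠ n ∧ 3 * (a + b) ≠ n ∧
  3 * a ≠ 2 * n ∧ 3 * b ≠ 2 * n ∧ 3 * (a + b) ≠ 2 * n ∧ a ≠ b ∧ 2 * a + b ≠ n ∧ a + 2 * b ≠ n ∧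
  2 * a ≠ n ∧ 2 * b ≠ n ∧ 2 * (a + b) ≠ n

def Two (n a b c d : ℕ) : Prop :=
  a ≠ c ∧ a ≠ d ∧ a ≠ c + d ∧ b ≠ c ∧ b ≠ d ∧ b ≠ c + d ∧ a + b ≠ c ∧ a + b ≠ d ∧ a + b ≠ c + d ∧
  a + c ≠ n ∧ a + d ≠ n ∧ a + c + d ≠ n ∧ b + c ≠ n ∧ b + d ≠ n ∧ b + c + d ≠ n ∧
  a + b + c ≠ n ∧ a + b + d ≠ n ∧ a + b + c + d ≠ n

lemma good_of {n k : ℕ} {T : ℕ → ℕ × ℕ} (h1 : ∀ t < k, One n (T t).1 (T t).2)
    (h2 : ∀ t' < k, ∀ t < t', Two n (T t).1 (T t).2 (T t').1 (T t').2) : Good n k T := by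
  refine ⟨fun t ht => (h1 t ht).2.2.1, fun t ht j => ?_, fun t ht t' ht' j j' => ?_⟩
  · have := h1 t ht
    unfold One at this
    fin_cases j <;> simp only [val] <;> norm_num <;> omega
  · have a := h1 t ht
    have b := h1 t' ht'
    unfold One at a b
    rcases lt_trichotomy t t' with h | rfl | h
    · have := h2 t' ht' t h
      unfold Two at this
      fin_cases j <;> fin_cases j' <;> simp only [val, Fin.ext_iff] <;> norm_num <;> omega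
    · fin_cases j <;> fin_cases j' <;> simp only [val, Fin.ext_iff] <;> norm_num <;> omega
    · have := h2 t ht t' h
      unfold Two at this
      fin_cases j <;> fin_cases j' <;> simp only [val, Fin.ext_iff] <;> norm_num <;> omega

lemma good1 (s : ℕ) (hs : 4 ≤ s) : Good (18 * s + 1) (3 * s) (T1 s) := by
  refine good_of (fun t ht => ?_) (fun t' ht' t ht => ?_)
  · unfold T1 One
    split_ifs <;> dsimp only <;> omega
  · unfold T1 Two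
    split_ifs <;> dsimp only <;> refine ⟨?_, ?_, ?_, ?_, ?_, ?_, ?_, ?_, ?_, ?_, ?_, ?_, ?_, ?_, ?_,
      ?_, ?_, ?_⟩ <;> omega

lemma good7 (s : ℕ) (hs : 4 ≤ s) : Good (18 * s + 7) (3 * s + 1) (T7 s) := by
  refine good_of (fun t ht => ?_) (fun t' ht' t ht => ?_)
  · unfold T7 One
    split_ifs <;> dsimp only <;> omega
  · unfold T7 Two
    split_ifs <;> dsimp only <;> refine ⟨?_, ?_, ?_, ?_, ?_, ?_, ?_, ?_, ?_, ?_, ?_, ?_, ?_, ?_, ?_,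
      ?_, ?_, ?_⟩ <;> omega

lemma good13 (s : ℕ) (hs : 4 ≤ s) : Good (18 * s + 13) (3 * s + 2) (T13 s) := by
  refine good_of (fun t ht => ?_) (fun t' ht' t ht => ?_)
  · unfold T13 One
    split_ifs <;> dsimp only <;> omega
  · unfold T13 Two
    split_ifs <;> dsimp only <;> refine ⟨?_, ?_, ?_, ?_, ?_, ?_, ?_, ?_, ?_, ?_, ?_, ?_, ?_, ?_, ?_,
      ?_, ?_, ?_⟩ <;> omega

lemma good3 (s : ℕ) (hs : 4 ≤ s) : Good (18 * s + 3) (3 * s) (T3 s) := by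
  refine good_of (fun t ht => ?_) (fun t' ht' t ht => ?_)
  · unfold T3 One
    split_ifs <;> dsimp only <;> omega
  · unfold T3 Two
    split_ifs <;> dsimp only <;> refine ⟨?_, ?_, ?_, ?_, ?_, ?_, ?_, ?_, ?_, ?_, ?_, ?_, ?_, ?_, ?_,
      ?_, ?_, ?_⟩ <;> omega

lemma good9 (s : ℕ) (hs : 4 ≤ s) : Good (18 * s + 9) (3 * s + 1) (T9 s) := by
  refine good_of (fun t ht => ?_) (fun t' ht' t ht => ?_)
  · unfold T9 One
    split_ifs <;> dsimp only <;> omega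
  · unfold T9 Two
    split_ifs <;> dsimp only <;> refine ⟨?_, ?_, ?_, ?_, ?_, ?_, ?_, ?_, ?_, ?_, ?_, ?_, ?_, ?_, ?_,
      ?_, ?_, ?_⟩ <;> omega

lemma good15 (s : ℕ) (hs : 4 ≤ s) : Good (18 * s + 15) (3 * s + 2) (T15 s) := by
  refine good_of (fun t ht => ?_) (fun t' ht' t ht => ?_)
  · unfold T15 One
    split_ifs <;> dsimp only <;> omega
  · unfold T15 Two
    split_ifs <;> dsimp only <;> refine ⟨?_, ?_, ?_, ?_, ?_, ?_, ?_, ?_, ?_, ?_, ?_, ?_, ?_, ?_, ?_,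
      ?_, ?_, ?_⟩ <;> omega

lemma exists_good (n : ℕ) (hn : 72 ≤ n) (h : n % 6 = 1 ∨ n % 6 = 3) : ∃ T, Good n (n / 6) T := by
  obtain ⟨s, hs⟩ : ∃ s, n = 18 * s + 1 ∨ n = 18 * s + 7 ∨ n = 18 * s + 13 ∨ n = 18 * s + 3 ∨
      n = 18 * s + 9 ∨ n = 18 * s + 15 := ⟨n / 18, by omega⟩
  rcases hs with rfl | rfl | rfl | rfl | rfl | rfl
  · exact ⟨_, by convert good1 s (by omega) using 1; omega⟩
  · exact ⟨_, by convert good7 s (by omega) using 1; omega⟩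
  · exact ⟨_, by convert good13 s (by omega) using 1; omega⟩
  · exact ⟨_, by convert good3 s (by omega) using 1; omega⟩
  · exact ⟨_, by convert good9 s (by omega) using 1; omega⟩
  · exact ⟨_, by convert good15 s (by omega) using 1; omega⟩

end Pool.Agent.H6.Pelt
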