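import Mathlib

namespace Pool.Agent.H6.Planar

open Complex

/-- `d` is the increment of a continuous logarithm of `f` between `0` and `1`. -/
def Inc (f : ℝ → ℂ) (d : ℂ) : Prop :=
  ∃ L : ℝ → ℂ, Continuous L ∧ (∀ t, exp (L t) = f t) ∧ d = L 1 - L 0

lemma lift {A : Type} [TopologicalSpace A] [SimplyConnectedSpace A] [LocallyPathConnectedSpace A]
    (a : A) {f : A → ℂ} (hc : Continuous f) (h0 : ∀ a, f a ≠ 0) :
    ∃ L : A → ℂ, Continuous L ∧ ∀ a, exp (L a) = f a := by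
  obtain ⟨F, ⟨-, h⟩, -⟩ := isCoveringMapOn_exp.existsUnique_continuousMap_lifts ⟨f, hc⟩ (a₀ := a)
    (exp_log (h0 a)) h0
  exact ⟨F, F.continuous, fun a => congrFun h a⟩

lemma Inc.unique {f : ℝ → ℂ} {d d' : ℂ} (h : Inc f d) (h' : Inc f d') : d = d' := by
  obtain ⟨L, c, e, rfl⟩ := h
  obtain ⟨L', c', e', rfl⟩ := h'
  have k : ∀ t, exp (L t - L' t) = 1 := fun t => by
    rw [exp_sub, e, ← e' t, div_self (exp_ne_zero _)]
  have := isCoveringMap_exp.const_of_comp (g := fun t => L t - L' t) (c.sub c')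
    (fun a b => Subtype.ext ((k a).trans (k b).symm)) 1 0
  linear_combination this

lemma Inc.neg {f : ℝ → ℂ} {d : ℂ} (h : Inc f d) : Inc (fun t => -f t) d := by
  obtain ⟨L, c, e, rfl⟩ := h
  exact ⟨fun t => L t + Real.pi * I, c.add continuous_const,
    fun t => by rw [exp_add_pi_mul_I, e], by ring⟩

lemma square {γ δ : ℝ → ℂ} (hγ : Continuous γ) (hδ : Continuous δ) (h : ∀ s t, γ s ≠ δ t)
    {a b c d : ℂ} (ha : Inc (fun s => γ s - δ 0) a) (hb : Inc (fun t => δ t - γ 1) b)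
    (hc : Inc (fun t => δ t - γ 0) c) (hd : Inc (fun s => γ s - δ 1) d) : a + b = c + d := by
  obtain ⟨L, l, e⟩ := lift ((0, 0) : ℝ × ℝ) (f := fun x => γ x.1 - δ x.2) (by fun_prop)
    fun x => sub_ne_zero.mpr (h _ _)
  have h1 := ha.unique ⟨fun s => L (s, 0), by fun_prop, fun s => e _, rfl⟩
  have h2 := hb.neg.unique ⟨fun t => L (1, t), by fun_prop, fun s => by simp [e], rfl⟩
  have h3 := hc.neg.unique ⟨fun t => L (0, t), by fun_prop, fun s => by simp [e], rfl⟩
  have h4 := hd.unique ⟨fun s => L (s, 1), by fun_prop, fun s => e _, rfl⟩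
  rw [h1, h2, h3, h4]; ring

/-- Sign of an ordered pair. -/
def sg {n : ℕ} (u v : Fin n) : ℤ := if v < u then 1 else -1

/-- The van Kampen parity relations. -/
lemma vk {n : ℕ} (E : Fin n → Fin n → Prop) (p : Fin n → ℂ) (hp : Function.Injective p)
    (S : Fin n → Fin n → Set ℂ) (hj : ∀ x y, E x y → JoinedIn (S x y) (p x) (p y))
    (hv : ∀ x y q, E x y → q ≠ x → q ≠ y → p q ∉ S x y)
    (hd : ∀ x y z w, E x y → E z w → x ≠ z → x ≠ w → y ≠ z → y ≠ w → Disjoint (S x y) (S z w)) :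
    ∃ k : Fin n → Fin n → Fin n → ℤ, ∀ x y z w, E x y → E z w → x ≠ z → x ≠ w → y ≠ z → y ≠ w →
      2 * (k x y z + k z w y - k z w x - k x y w) + (sg y z + sg z x + sg w y + sg x w) = 0 := by
  have h1 : ∀ x y, ∃ γ : ℝ → ℂ, E x y → Continuous γ ∧ γ 0 = p x ∧ γ 1 = p y ∧
      ∀ t, γ t ∈ S x y := by
    intro x y
    by_cases h : E x y
    · obtain ⟨γ, g⟩ := hj x y h
      exact ⟨γ.extend, fun _ => ⟨γ.continuous_extend, by simp, by simp, fun t => g _⟩⟩
    · exact ⟨0, fun e => absurd e h⟩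
  choose γ hγ using h1
  let l : Fin n → Fin n → ℂ := fun u v =>
    if v < u then log (p v - p u) + Real.pi * I else log (p u - p v)
  have l1 : ∀ u v, u ≠ v → exp (l u v) = p u - p v := by
    intro u v h
    simp only [l]
    split_ifs
    · rw [exp_add_pi_mul_I, exp_log (sub_ne_zero.mpr (hp.ne h.symm)), neg_sub]
    · exact exp_log (sub_ne_zero.mpr (hp.ne h))
  have l2 : ∀ u v, u ≠ v → l u v - l v u = sg u v * (Real.pi * I) := by
    intro u v h
    rcases lt_or_gt_of_ne h with g | g <;> simp [l, sg, g, g.not_gt]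
  have h2 : ∀ x y q, ∃ k : ℤ, E x y → q ≠ x → q ≠ y →
      Inc (fun t => γ x y t - p q) (l y q - l x q + k * (2 * Real.pi * I)) := by
    intro x y q
    by_cases h : E x y ∧ q ≠ x ∧ q ≠ y
    · obtain ⟨c, g0, g1, g⟩ := hγ x y h.1
      obtain ⟨L, a, e⟩ := lift (0 : ℝ) (f := fun t => γ x y t - p q) (by fun_prop)
        fun t => sub_ne_zero.mpr fun e => hv x y q h.1 h.2.1 h.2.2 (e ▸ g t)
      obtain ⟨k, hk⟩ := exp_eq_exp_iff_exists_int.mp (show exp (L 1 - L 0) = exp (l y q - l x q) by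
        rw [exp_sub, exp_sub, e, e, g0, g1, l1 _ _ h.2.1.symm, l1 _ _ h.2.2.symm])
      exact ⟨k, fun _ _ _ => ⟨L, a, e, hk.symm⟩⟩
    · exact ⟨0, fun a b c => absurd ⟨a, b, c⟩ h⟩
  choose k hk using h2
  refine ⟨k, fun x y z w e e' a b c d => ?_⟩
  obtain ⟨c1, g0, g1, g⟩ := hγ x y e
  obtain ⟨c2, f0, f1, f⟩ := hγ z w e'
  have := square c1 c2 (fun s t h => Set.disjoint_left.mp (hd x y z w e e' a b c d) (g s) (h ▸ f t))
    (f0 ▸ hk x y z e a.symm c.symm) (g1 ▸ hk z w y e' c d) (g0 ▸ hk z w x e' a b)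
    (f1 ▸ hk x y w e b.symm d.symm)
  have h3 : ((2 * (k x y z + k z w y - k z w x - k x y w) + (sg y z + sg z x + sg w y + sg x w) : ℤ)
      : ℂ) * (Real.pi * I) = 0 := by
    push_cast
    linear_combination this - l2 y z c - l2 z x a.symm - l2 w y d.symm - l2 x w b
  exact_mod_cast (mul_eq_zero.mp h3).resolve_right
    (mul_ne_zero (by exact_mod_cast Real.pi_ne_zero) I_ne_zero)

lemma noK5 (k : Fin 5 → Fin 5 → Fin 5 → ℤ) (h : ∀ x y z w : Fin 5, x < y → z < w → x ≠ z → x ≠ w →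
    y ≠ z → y ≠ w → 2 * (k x y z + k z w y - k z w x - k x y w) +
      (sg y z + sg z x + sg w y + sg x w) = 0) : False := by
  have e1 := h 0 1 2 3 (by decide) (by decide) (by decide) (by decide) (by decide) (by decide)
  rw [show sg (1 : Fin 5) 2 + sg (2 : Fin 5) 0 + sg (3 : Fin 5) 1 + sg (0 : Fin 5) 3 = 0 by decide] at e1
  have e2 := h 0 1 2 4 (by decide) (by decide) (by decide) (by decide) (by decide) (by decide)
  rw [show sg (1 : Fin 5) 2 + sg (2 : Fin 5) 0 + sg (4 : Fin 5) 1 + sg (0 : Fin 5) 4 = 0 by decide] at e2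
  have e3 := h 0 1 3 4 (by decide) (by decide) (by decide) (by decide) (by decide) (by decide)
  rw [show sg (1 : Fin 5) 3 + sg (3 : Fin 5) 0 + sg (4 : Fin 5) 1 + sg (0 : Fin 5) 4 = 0 by decide] at e3
  have e4 := h 0 2 1 3 (by decide) (by decide) (by decide) (by decide) (by decide) (by decide)
  rw [show sg (2 : Fin 5) 1 + sg (1 : Fin 5) 0 + sg (3 : Fin 5) 2 + sg (0 : Fin 5) 3 = 2 by decide] at e4
  have e5 := h 0 2 1 4 (by decide) (by decide) (by decide) (by decide) (by decide) (by decide)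
  rw [show sg (2 : Fin 5) 1 + sg (1 : Fin 5) 0 + sg (4 : Fin 5) 2 + sg (0 : Fin 5) 4 = 2 by decide] at e5
  have e6 := h 0 2 3 4 (by decide) (by decide) (by decide) (by decide) (by decide) (by decide)
  rw [show sg (2 : Fin 5) 3 + sg (3 : Fin 5) 0 + sg (4 : Fin 5) 2 + sg (0 : Fin 5) 4 = 0 by decide] at e6
  have e7 := h 0 3 1 2 (by decide) (by decide) (by decide) (by decide) (by decide) (by decide)
  rw [show sg (3 : Fin 5) 1 + sg (1 : Fin 5) 0 + sg (2 : Fin 5) 3 + sg (0 : Fin 5) 2 = 0 by decide] at e7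
  have e8 := h 0 3 1 4 (by decide) (by decide) (by decide) (by decide) (by decide) (by decide)
  rw [show sg (3 : Fin 5) 1 + sg (1 : Fin 5) 0 + sg (4 : Fin 5) 3 + sg (0 : Fin 5) 4 = 2 by decide] at e8
  have e9 := h 0 3 2 4 (by decide) (by decide) (by decide) (by decide) (by decide) (by decide)
  rw [show sg (3 : Fin 5) 2 + sg (2 : Fin 5) 0 + sg (4 : Fin 5) 3 + sg (0 : Fin 5) 4 = 2 by decide] at e9
  have e10 := h 0 4 1 2 (by decide) (by decide) (by decide) (by decide) (by decide) (by decide)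
  rw [show sg (4 : Fin 5) 1 + sg (1 : Fin 5) 0 + sg (2 : Fin 5) 4 + sg (0 : Fin 5) 2 = 0 by decide] at e10
  have e11 := h 0 4 1 3 (by decide) (by decide) (by decide) (by decide) (by decide) (by decide)
  rw [show sg (4 : Fin 5) 1 + sg (1 : Fin 5) 0 + sg (3 : Fin 5) 4 + sg (0 : Fin 5) 3 = 0 by decide] at e11
  have e12 := h 0 4 2 3 (by decide) (by decide) (by decide) (by decide) (by decide) (by decide)
  rw [show sg (4 : Fin 5) 2 + sg (2 : Fin 5) 0 + sg (3 : Fin 5) 4 + sg (0 : Fin 5) 3 = 0 by decide] at e12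
  have e13 := h 1 2 3 4 (by decide) (by decide) (by decide) (by decide) (by decide) (by decide)
  rw [show sg (2 : Fin 5) 3 + sg (3 : Fin 5) 1 + sg (4 : Fin 5) 2 + sg (1 : Fin 5) 4 = 0 by decide] at e13
  have e14 := h 1 3 2 4 (by decide) (by decide) (by decide) (by decide) (by decide) (by decide)
  rw [show sg (3 : Fin 5) 2 + sg (2 : Fin 5) 1 + sg (4 : Fin 5) 3 + sg (1 : Fin 5) 4 = 2 by decide] at e14
  have e15 := h 1 4 2 3 (by decide) (by decide) (by decide) (by decide) (by decide) (by decide)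
  rw [show sg (4 : Fin 5) 2 + sg (2 : Fin 5) 1 + sg (3 : Fin 5) 4 + sg (1 : Fin 5) 3 = 0 by decide] at e15
  omega

lemma noK33 (k : Fin 6 → Fin 6 → Fin 6 → ℤ) (h : ∀ x y z w : Fin 6, x < 3 ∧ 3 ≤ y → z < 3 ∧ 3 ≤ w →
    x ≠ z → x ≠ w → y ≠ z → y ≠ w → 2 * (k x y z + k z w y - k z w x - k x y w) +
      (sg y z + sg z x + sg w y + sg x w) = 0) : False := by
  have e1 := h 0 3 1 4 (by decide) (by decide) (by decide) (by decide) (by decide) (by decide)
  rw [show sg (3 : Fin 6) 1 + sg (1 : Fin 6) 0 + sg (4 : Fin 6) 3 + sg (0 : Fin 6) 4 = 2 by decide] at e1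
  have e2 := h 0 3 1 5 (by decide) (by decide) (by decide) (by decide) (by decide) (by decide)
  rw [show sg (3 : Fin 6) 1 + sg (1 : Fin 6) 0 + sg (5 : Fin 6) 3 + sg (0 : Fin 6) 5 = 2 by decide] at e2
  have e3 := h 0 3 2 4 (by decide) (by decide) (by decide) (by decide) (by decide) (by decide)
  rw [show sg (3 : Fin 6) 2 + sg (2 : Fin 6) 0 + sg (4 : Fin 6) 3 + sg (0 : Fin 6) 4 = 2 by decide] at e3
  have e4 := h 0 3 2 5 (by decide) (by decide) (by decide) (by decide) (by decide) (by decide)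
  rw [show sg (3 : Fin 6) 2 + sg (2 : Fin 6) 0 + sg (5 : Fin 6) 3 + sg (0 : Fin 6) 5 = 2 by decide] at e4
  have e5 := h 0 4 1 3 (by decide) (by decide) (by decide) (by decide) (by decide) (by decide)
  rw [show sg (4 : Fin 6) 1 + sg (1 : Fin 6) 0 + sg (3 : Fin 6) 4 + sg (0 : Fin 6) 3 = 0 by decide] at e5
  have e6 := h 0 4 1 5 (by decide) (by decide) (by decide) (by decide) (by decide) (by decide)
  rw [show sg (4 : Fin 6) 1 + sg (1 : Fin 6) 0 + sg (5 : Fin 6) 4 + sg (0 : Fin 6) 5 = 2 by decide] at e6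
  have e7 := h 0 4 2 3 (by decide) (by decide) (by decide) (by decide) (by decide) (by decide)
  rw [show sg (4 : Fin 6) 2 + sg (2 : Fin 6) 0 + sg (3 : Fin 6) 4 + sg (0 : Fin 6) 3 = 0 by decide] at e7
  have e8 := h 0 4 2 5 (by decide) (by decide) (by decide) (by decide) (by decide) (by decide)
  rw [show sg (4 : Fin 6) 2 + sg (2 : Fin 6) 0 + sg (5 : Fin 6) 4 + sg (0 : Fin 6) 5 = 2 by decide] at e8
  have e9 := h 0 5 1 3 (by decide) (by decide) (by decide) (by decide) (by decide) (by decide)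
  rw [show sg (5 : Fin 6) 1 + sg (1 : Fin 6) 0 + sg (3 : Fin 6) 5 + sg (0 : Fin 6) 3 = 0 by decide] at e9
  have e10 := h 0 5 1 4 (by decide) (by decide) (by decide) (by decide) (by decide) (by decide)
  rw [show sg (5 : Fin 6) 1 + sg (1 : Fin 6) 0 + sg (4 : Fin 6) 5 + sg (0 : Fin 6) 4 = 0 by decide] at e10
  have e11 := h 0 5 2 3 (by decide) (by decide) (by decide) (by decide) (by decide) (by decide)
  rw [show sg (5 : Fin 6) 2 + sg (2 : Fin 6) 0 + sg (3 : Fin 6) 5 + sg (0 : Fin 6) 3 = 0 by decide] at e11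
  have e12 := h 0 5 2 4 (by decide) (by decide) (by decide) (by decide) (by decide) (by decide)
  rw [show sg (5 : Fin 6) 2 + sg (2 : Fin 6) 0 + sg (4 : Fin 6) 5 + sg (0 : Fin 6) 4 = 0 by decide] at e12
  have e13 := h 1 3 2 4 (by decide) (by decide) (by decide) (by decide) (by decide) (by decide)
  rw [show sg (3 : Fin 6) 2 + sg (2 : Fin 6) 1 + sg (4 : Fin 6) 3 + sg (1 : Fin 6) 4 = 2 by decide] at e13
  have e14 := h 1 3 2 5 (by decide) (by decide) (by decide) (by decide) (by decide) (by decide)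
  rw [show sg (3 : Fin 6) 2 + sg (2 : Fin 6) 1 + sg (5 : Fin 6) 3 + sg (1 : Fin 6) 5 = 2 by decide] at e14
  have e15 := h 1 4 2 3 (by decide) (by decide) (by decide) (by decide) (by decide) (by decide)
  rw [show sg (4 : Fin 6) 2 + sg (2 : Fin 6) 1 + sg (3 : Fin 6) 4 + sg (1 : Fin 6) 3 = 0 by decide] at e15
  have e16 := h 1 4 2 5 (by decide) (by decide) (by decide) (by decide) (by decide) (by decide)
  rw [show sg (4 : Fin 6) 2 + sg (2 : Fin 6) 1 + sg (5 : Fin 6) 4 + sg (1 : Fin 6) 5 = 2 by decide] at e16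
  have e17 := h 1 5 2 3 (by decide) (by decide) (by decide) (by decide) (by decide) (by decide)
  rw [show sg (5 : Fin 6) 2 + sg (2 : Fin 6) 1 + sg (3 : Fin 6) 5 + sg (1 : Fin 6) 3 = 0 by decide] at e17
  have e18 := h 1 5 2 4 (by decide) (by decide) (by decide) (by decide) (by decide) (by decide)
  rw [show sg (5 : Fin 6) 2 + sg (2 : Fin 6) 1 + sg (4 : Fin 6) 5 + sg (1 : Fin 6) 4 = 0 by decide] at e18
  omega

/-- A graph is planar if it can be drawn in the plane `ℂ` with Jordan arcs that meet only in common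
end points. -/
def IsPlanar {V : Type} (G : SimpleGraph V) : Prop :=
  ∃ (p : V → ℂ) (arc : ∀ u v, G.Adj u v → Path (p u) (p v)), Function.Injective p ∧
    (∀ u v h, Function.Injective (arc u v h)) ∧
    (∀ u v h, Set.range (arc v u (G.adj_symm h)) = Set.range (arc u v h)) ∧
    (∀ u v h w, p w ∈ Set.range (arc u v h) → w = u ∨ w = v) ∧
    ∀ u v h u' v' h', s(u, v) ≠ s(u', v') →
      Set.range (arc u v h) ∩ Set.range (arc u' v' h') ⊆ Set.range p

lemma routes {V : Type} {G : SimpleGraph V} (hG : IsPlanar G) {n : ℕ} (E : Fin n → Fin n → Prop)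
    (β : Fin n → V) (hβ : Function.Injective β) (r : Fin n → Fin n → List V)
    (hc : ∀ x y, E x y → List.IsChain G.Adj (β x :: (r x y ++ [β y])))
    (hv : ∀ x y q, E x y → β q ∉ r x y)
    (hd : ∀ x y z w, E x y → E z w → x ≠ z → x ≠ w → y ≠ z → y ≠ w → ∀ a ∈ r x y, a ∉ r z w) :
    ∃ k : Fin n → Fin n → Fin n → ℤ, ∀ x y z w, E x y → E z w → x ≠ z → x ≠ w → y ≠ z → y ≠ w →
      2 * (k x y z + k z w y - k z w x - k x y w) + (sg y z + sg z x + sg w y + sg x w) = 0 := by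
  obtain ⟨p, arc, h1, -, -, h3, h4⟩ := hG
  let Im : Set V → Set ℂ := fun S => p '' S ∪
    {c | ∃ u ∈ S, ∃ v ∈ S, ∃ h : G.Adj u v, c ∈ Set.range (arc u v h)}
  have j : ∀ (S : Set V) (l : List V) (a b : V), a ∈ S → b ∈ S → (∀ c ∈ l, c ∈ S) →
      List.IsChain G.Adj (a :: (l ++ [b])) → JoinedIn (Im S) (p a) (p b) := by
    intro S l
    induction l with
    | nil =>
      intro a b ha hb _ h
      have h' : G.Adj a b := by simpa using h
      exact ⟨arc a b h', fun t => Or.inr ⟨a, ha, b, hb, h', t, rfl⟩⟩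
    | cons c l ih =>
      intro a b ha hb hl h
      rw [List.cons_append, List.isChain_cons_cons] at h
      have hc := hl c (by simp)
      exact JoinedIn.trans ⟨arc a c h.1, fun t => Or.inr ⟨a, ha, c, hc, h.1, t, rfl⟩⟩
        (ih c b hc hb (fun d hd => hl d (by simp [hd])) h.2)
  have v : ∀ (S : Set V) q, p q ∈ Im S → q ∈ S := by
    rintro S q (⟨u, hu, e⟩ | ⟨u, hu, v, hv, h, e⟩)
    · exact h1 e ▸ hu
    · rcases h3 u v h q e with rfl | rfl <;> assumption
  have d : ∀ S T : Set V, Disjoint S T → Disjoint (Im S) (Im T) := by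
    intro S T h
    rw [Set.disjoint_left] at h ⊢
    intro c hS hT
    have : c ∈ Set.range p := by
      rcases hS with ⟨u, -, e⟩ | ⟨u, hu, v, hv, g, e⟩
      · exact ⟨u, e⟩
      rcases hT with ⟨u, -, e⟩ | ⟨u', hu', v', hv', g', e'⟩
      · exact ⟨u, e⟩
      refine h4 u v g u' v' g' (fun s => ?_) ⟨e, e'⟩
      rcases Sym2.eq_iff.mp s with ⟨rfl, -⟩ | ⟨rfl, -⟩
      · exact h hu hu'
      · exact h hu hv'
    obtain ⟨q, rfl⟩ := this
    exact h (v S q hS) (v T q hT)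
  refine vk E (p ∘ β) (h1.comp hβ) (fun x y => Im {c | c = β x ∨ c = β y ∨ c ∈ r x y})
    (fun x y e => j _ (r x y) _ _ (by simp) (by simp) (fun c hc => by simp [hc]) (hc x y e))
    (fun x y q e a b h => ?_) fun x y z w e e' a b c f => d _ _ ?_
  · rcases v _ _ h with h | h | h
    · exact a (hβ h)
    · exact b (hβ h)
    · exact hv x y q e h
  · rw [Set.disjoint_left]
    rintro u (rfl | rfl | h) (g | g | g)
    · exact a (hβ g)
    · exact b (hβ g)
    · exact hv z w x e' g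
    · exact c (hβ g)
    · exact f (hβ g)
    · exact hv z w y e' g
    · exact hv x y z e (g ▸ h)
    · exact hv x y w e (g ▸ h)
    · exact hd x y z w e e' a b c f u h g

/-- A subdivision of `K_5` is not planar. -/
lemma not_planar_K5 {V : Type} {G : SimpleGraph V} (β : Fin 5 → V) (hβ : Function.Injective β)
    (r : Fin 5 → Fin 5 → List V)
    (hc : ∀ x y, x < y → List.IsChain G.Adj (β x :: (r x y ++ [β y])))
    (hv : ∀ x y q, x < y → β q ∉ r x y)
    (hd : ∀ x y z w, x < y → z < w → x ≠ z → x ≠ w → y ≠ z → y ≠ w → ∀ a ∈ r x y, a ∉ r z w) :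
    ¬ IsPlanar G := fun hG =>
  (routes hG (· < ·) β hβ r hc hv hd).elim noK5

/-- A subdivision of `K_{3,3}` is not planar. -/
lemma not_planar_K33 {V : Type} {G : SimpleGraph V} (β : Fin 6 → V) (hβ : Function.Injective β)
    (r : Fin 6 → Fin 6 → List V)
    (hc : ∀ x y, x < 3 ∧ 3 ≤ y → List.IsChain G.Adj (β x :: (r x y ++ [β y])))
    (hv : ∀ x y q, x < 3 ∧ 3 ≤ y → β q ∉ r x y)
    (hd : ∀ x y z w, x < 3 ∧ 3 ≤ y → z < 3 ∧ 3 ≤ w → x ≠ z → x ≠ w → y ≠ z → y ≠ w →
      ∀ a ∈ r x y, a ∉ r z w) : ¬ IsPlanar G := fun hG =>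
  (routes hG (fun x y => x < 3 ∧ 3 ≤ y) β hβ r hc hv hd).elim noK33

end Pool.Agent.H6.Planar
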