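import Mathlib

set_option autoImplicit false
set_option linter.unusedSectionVars false

namespace Pool.Agent.H6.Skel

open Finset

variable {ι : Type} [Fintype ι] [DecidableEq ι]
variable {E : Type} [NormedAddCommGroup E] [InnerProductSpace ℝ E]

noncomputable def VV (v : ι → E) : (ι → ℝ) →ₗ[ℝ] E := Fintype.linearCombination ℝ v

lemma VV_apply (v : ι → E) (w : ι → ℝ) : VV v w = ∑ i, w i • v i := by
  simp [VV, Fintype.linearCombination_apply]

def KK (s : Finset ι) : Submodule ℝ (ι → ℝ) where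
  carrier := {δ | (∀ j, j ∉ s → δ j = 0) ∧ ∑ j, δ j = 0}
  add_mem' := by
    rintro a b ⟨ha, ha'⟩ ⟨hb, hb'⟩
    refine ⟨fun j hj => by simp [ha j hj, hb j hj], by simp [sum_add_distrib, ha', hb']⟩
  zero_mem' := ⟨fun _ _ => rfl, by simp⟩
  smul_mem' := by
    rintro c a ⟨ha, ha'⟩
    refine ⟨fun j hj => by simp [ha j hj], by simp [← mul_sum, ha']⟩

lemma eq_zero_of_VV (v : ι → E) (hv : AffineIndependent ℝ v) (δ : ι → ℝ) (h1 : ∑ j, δ j = 0)
    (h2 : VV v δ = 0) : δ = 0 := by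
  funext j
  rw [VV_apply] at h2
  exact affineIndependent_iff.1 hv univ δ h1 h2 j (mem_univ j)

lemma exists_dual (v : ι → E) (hv : AffineIndependent ℝ v) (s : Finset ι) :
    ∃ γ : ι → (ι → ℝ), ∀ i, γ i ∈ KK s ∧
      ∀ δ ∈ KK s, inner ℝ (VV v (γ i)) (VV v δ) = δ i := by
  let L : KK s →ₗ[ℝ] E := (VV v).comp (KK s).subtype
  let B : LinearMap.BilinForm ℝ (KK s) := (innerₗ E).compl₁₂ L L
  have hBapp : ∀ a b : KK s, B a b = inner ℝ (VV v a) (VV v b) := fun a b => rfl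
  have hz : ∀ a : KK s, B a a = 0 → a = 0 := by
    intro a ha
    rw [hBapp, inner_self_eq_zero] at ha
    exact Subtype.ext (eq_zero_of_VV v hv _ a.2.2 ha)
  have hB : B.Nondegenerate := ⟨fun a ha => hz a (ha a), fun a ha => hz a (ha a)⟩
  refine ⟨fun i => ((B.toDual hB).symm ((LinearMap.proj i).comp (KK s).subtype) : KK s), ?_⟩
  intro i
  refine ⟨Subtype.property _, fun δ hδ => ?_⟩
  have := LinearMap.BilinForm.apply_toDual_symm_apply (hB := hB)
    ((LinearMap.proj i).comp (KK s).subtype) ⟨δ, hδ⟩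
  rw [hBapp] at this
  exact this

/-- weights: nonnegative, supported in s, total mass one -/
def WW (s : Finset ι) (w : ι → ℝ) : Prop :=
  (∀ j, 0 ≤ w j) ∧ (∀ j, j ∉ s → w j = 0) ∧ ∑ j, w j = 1

noncomputable def Phi (v : ι → E) (w : ι → ℝ) : ℝ := ∑ j, w j * ‖v j‖ ^ 2 - ‖VV v w‖ ^ 2

lemma Phi_eq (v : ι → E) (w : ι → ℝ) (hw : ∑ j, w j = 1) :
    Phi v w = ∑ j, w j * ‖v j - VV v w‖ ^ 2 := by
  have h1 : ∀ j, w j * ‖v j - VV v w‖ ^ 2 =
      w j * ‖v j‖ ^ 2 - 2 * inner ℝ (w j • v j) (VV v w) + w j * ‖VV v w‖ ^ 2 := by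
    intro j
    rw [norm_sub_sq_real, real_inner_smul_left]; ring
  simp only [h1, sum_add_distrib, sum_sub_distrib, ← mul_sum, ← sum_mul, hw, ← sum_inner]
  rw [← VV_apply, real_inner_self_eq_norm_sq, Phi]; ring

lemma Phi_nonneg (v : ι → E) (s : Finset ι) (w : ι → ℝ) (hw : WW s w) : 0 ≤ Phi v w := by
  rw [Phi_eq v w hw.2.2]
  exact sum_nonneg fun j _ => mul_nonneg (hw.1 j) (sq_nonneg _)

lemma one_step (v : ι → E) (hv : AffineIndependent ℝ v) (s : Finset ι) (n : ℕ)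
    (hs : s.card = n + 2) (w : ι → ℝ) (hw : WW s w) (β : ℝ) (hβ : 0 ≤ β) (b : ι → ℝ) :
    ∃ j ∈ s, ∃ w' : ι → ℝ, WW (s.erase j) w' ∧
      β * ‖VV v w'‖ ^ 2 + ∑ i, b i * w' i ≤
        β * ‖VV v w‖ ^ 2 + ∑ i, b i * w i + β * (Phi v w / ((n : ℝ) + 1) ^ 2) := by
  have hPhi := Phi_nonneg v s w hw
  by_cases hz : ∃ j ∈ s, w j = 0
  · obtain ⟨j, hj, h0⟩ := hz
    refine ⟨j, hj, w, ⟨hw.1, ?_, hw.2.2⟩, ?_⟩
    · intro i hi
      by_cases hij : i = j
      · rw [hij, h0]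
      · exact hw.2.1 i (fun h => hi (mem_erase.2 ⟨hij, h⟩))
    · have : 0 ≤ β * (Phi v w / ((n : ℝ) + 1) ^ 2) := by positivity
      linarith
  push Not at hz
  have hpos : ∀ j ∈ s, 0 < w j := fun j hj => lt_of_le_of_ne (hw.1 j) (hz j hj).symm
  have hsum : ∑ j ∈ s, w j = 1 := by
    rw [← hw.2.2]
    exact sum_subset (subset_univ s) (fun j _ hj => hw.2.1 j hj)
  obtain ⟨γ, hγ⟩ := exists_dual v hv s
  set x := VV v w with hx
  set g : ι → E := fun i => VV v (γ i) with hg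
  have hgg : ∀ i, ‖g i‖ ^ 2 = γ i i := by
    intro i
    rw [← real_inner_self_eq_norm_sq]
    exact (hγ i).2 _ (hγ i).1
  have hdiff : ∀ i ∈ s, (Pi.single i (1 : ℝ) - w : ι → ℝ) ∈ KK s := by
    intro i hi
    refine ⟨fun j hj => ?_, ?_⟩
    · have : j ≠ i := fun h => hj (h ▸ hi)
      simp [hw.2.1 j hj, this]
    · simp [sum_sub_distrib, hw.2.2]
  have hVdiff : ∀ i, VV v (Pi.single i (1 : ℝ) - w) = v i - x := by
    intro i
    rw [map_sub, VV_apply v (Pi.single i (1 : ℝ))]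
    simp [Pi.single_apply, hx]
  have hgv : ∀ i ∈ s, inner ℝ (g i) (v i - x) = 1 - w i := by
    intro i hi
    rw [← hVdiff, (hγ i).2 _ (hdiff i hi)]
    simp
  have hwlt : ∀ i ∈ s, w i < 1 := by
    intro i hi
    have hne : (s.erase i).Nonempty := by
      rw [← card_pos, card_erase_of_mem hi]; omega
    obtain ⟨j, hj⟩ := hne
    have h1 := add_sum_erase s w hi
    have h2 : w j ≤ ∑ k ∈ s.erase i, w k :=
      single_le_sum (f := w) (fun k _ => hw.1 k) hj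
    have := hpos j (mem_of_mem_erase hj)
    linarith
  have hN : ∀ i ∈ s, 0 < ‖g i‖ ^ 2 := by
    intro i hi
    have hne : g i ≠ 0 := by
      intro h0
      have := hgv i hi
      rw [h0, inner_zero_left] at this
      linarith [hwlt i hi]
    positivity
  have hsumγ : ∑ i ∈ s, γ i = 0 := by
    have hK : ∑ i ∈ s, γ i ∈ KK s := Submodule.sum_mem _ fun i _ => (hγ i).1
    apply eq_zero_of_VV v hv _ hK.2
    rw [← inner_self_eq_zero (𝕜 := ℝ)]
    conv_lhs => rw [map_sum, sum_inner]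
    rw [← map_sum, sum_congr rfl (fun i _ => (hγ i).2 _ hK)]
    rw [← hK.2]
    exact sum_subset (subset_univ s) (fun j _ hj => hK.1 j hj)
  set S : ℝ := ∑ i ∈ s, ‖g i‖ ^ 2 / w i with hS
  have hsne : s.Nonempty := by rw [← card_pos]; omega
  have hSpos : 0 < S := sum_pos (fun i hi => div_pos (hN i hi) (hpos i hi)) hsne
  have hCS : ((n : ℝ) + 1) ^ 2 / S ≤ Phi v w := by
    set τ : ℝ := ((n : ℝ) + 1) / S with hτ
    have h1 : ∀ i ∈ s, 0 ≤ w i * ‖v i - x‖ ^ 2 - 2 * τ * (1 - w i) + τ ^ 2 * (‖g i‖ ^ 2 / w i) := by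
      intro i hi
      have hwi := hpos i hi
      have h2 : ‖(τ / w i) • g i - (v i - x)‖ ^ 2 =
          (τ / w i) ^ 2 * ‖g i‖ ^ 2 - 2 * ((τ / w i) * (1 - w i)) + ‖v i - x‖ ^ 2 := by
        rw [norm_sub_sq_real, real_inner_smul_left, hgv i hi, norm_smul, mul_pow, Real.norm_eq_abs,
          sq_abs]
      have h3 : w i * ‖v i - x‖ ^ 2 - 2 * τ * (1 - w i) + τ ^ 2 * (‖g i‖ ^ 2 / w i) =
          w i * ‖(τ / w i) • g i - (v i - x)‖ ^ 2 := by
        rw [h2]; field_simp; ring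
      rw [h3]; positivity
    have h4 := sum_nonneg h1
    simp only [sum_add_distrib, sum_sub_distrib, ← mul_sum, hsum, sum_const, hs, nsmul_eq_mul,
      mul_one] at h4
    have h5 : ∑ i ∈ s, w i * ‖v i - x‖ ^ 2 = Phi v w := by
      rw [Phi_eq v w hw.2.2]
      exact sum_subset (subset_univ s) (fun j _ hj => by simp [hw.2.1 j hj])
    rw [h5, ← hS] at h4
    push_cast at h4
    have h6 : 2 * τ * ((n : ℝ) + 2 - 1) - τ ^ 2 * S = ((n : ℝ) + 1) ^ 2 / S := by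
      rw [hτ]; field_simp; ring
    linarith
  have hS1 : 1 / S ≤ Phi v w / ((n : ℝ) + 1) ^ 2 := by
    rw [le_div_iff₀ (by positivity)]
    calc 1 / S * ((n : ℝ) + 1) ^ 2 = ((n : ℝ) + 1) ^ 2 / S := by ring
      _ ≤ _ := hCS
  -- the linear part
  set ℓ : ι → ℝ := fun i => 2 * β * inner ℝ x (g i) + ∑ j, b j * γ i j with hℓ
  have hℓsum : ∑ i ∈ s, ℓ i = 0 := by
    simp only [hℓ, sum_add_distrib, ← mul_sum, ← inner_sum]
    have e1 : ∑ i ∈ s, g i = 0 := by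
      simp only [hg]; rw [← map_sum, hsumγ, map_zero]
    have e2 : ∑ i ∈ s, ∑ j, b j * γ i j = 0 := by
      rw [sum_comm]
      apply sum_eq_zero
      intro j _
      rw [← mul_sum]
      have := congrFun hsumγ j
      rw [Finset.sum_apply] at this
      rw [this]; simp
    rw [e1, e2]; simp
  have hex : ∃ i ∈ s, β * w i - ℓ i ≤ (β / S) * (‖g i‖ ^ 2 / w i) := by
    apply exists_le_of_sum_le hsne
    rw [sum_sub_distrib, hℓsum, ← mul_sum, ← mul_sum, hsum, ← hS]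
    have : β / S * S = β := by field_simp
    linarith
  obtain ⟨i, hi, hile⟩ := hex
  have hNi := hN i hi
  have hwi := hpos i hi
  set t : ℝ := w i / ‖g i‖ ^ 2 with ht
  have htpos : 0 < t := div_pos hwi hNi
  have hγii : 0 < γ i i := by rw [← hgg]; exact hNi
  obtain ⟨j, hj, hmin⟩ := exists_min_image (s.filter fun j => 0 < γ i j) (fun j => w j / γ i j)
    ⟨i, mem_filter.2 ⟨hi, hγii⟩⟩
  obtain ⟨hjs, hjpos⟩ := mem_filter.1 hj
  set θ : ℝ := w j / γ i j with hθ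
  have hθpos : 0 < θ := div_pos (hpos j hjs) hjpos
  have hθt : θ ≤ t := by
    have := hmin i (mem_filter.2 ⟨hi, hγii⟩)
    rw [ht, hgg]; exact this
  refine ⟨j, hjs, w - θ • γ i, ⟨?_, ?_, ?_⟩, ?_⟩
  · intro k
    simp only [Pi.sub_apply, Pi.smul_apply, smul_eq_mul]
    by_cases hk : 0 < γ i k
    · have hks : k ∈ s := by
        by_contra hks
        have := (hγ i).1.1 k hks
        linarith
      have := hmin k (mem_filter.2 ⟨hks, hk⟩)
      rw [le_div_iff₀ hk] at this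
      linarith
    · have := hw.1 k
      nlinarith
  · intro k hk
    simp only [Pi.sub_apply, Pi.smul_apply, smul_eq_mul]
    by_cases hkj : k = j
    · rw [hkj, hθ]; field_simp; ring
    · have hks : k ∉ s := fun h => hk (mem_erase.2 ⟨hkj, h⟩)
      rw [hw.2.1 k hks, (hγ i).1.1 k hks]; simp
  · simp only [Pi.sub_apply, Pi.smul_apply, smul_eq_mul, sum_sub_distrib, ← mul_sum, hw.2.2,
      (hγ i).1.2]
    simp
  · have e1 : VV v (w - θ • γ i) = x - θ • g i := by rw [map_sub, map_smul]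
    have e2 : ∑ k, b k * (w - θ • γ i) k = ∑ k, b k * w k - θ * ∑ k, b k * γ i k := by
      rw [mul_sum, ← sum_sub_distrib]
      apply sum_congr rfl
      intro k _
      simp only [Pi.sub_apply, Pi.smul_apply, smul_eq_mul]; ring
    rw [e1, e2, norm_sub_sq_real, real_inner_smul_right, norm_smul, mul_pow, Real.norm_eq_abs,
      sq_abs]
    have hgne : ‖g i‖ ≠ 0 := fun h => by rw [h] at hNi; simp at hNi
    have e3 : θ * ‖g i‖ ^ 2 ≤ w i := by
      have : t * ‖g i‖ ^ 2 = w i := by rw [ht]; field_simp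
      nlinarith
    have e4 : (β / S) * (‖g i‖ ^ 2 / w i) * t = β / S := by rw [ht]; field_simp
    have e5 : 0 ≤ (β / S) * (‖g i‖ ^ 2 / w i) := by positivity
    have e6 : θ * (β * (θ * ‖g i‖ ^ 2) - ℓ i) ≤ β / S := by
      have a1 : β * (θ * ‖g i‖ ^ 2) ≤ β * w i := mul_le_mul_of_nonneg_left e3 hβ
      have a2 : θ * (β * (θ * ‖g i‖ ^ 2) - ℓ i) ≤ θ * ((β / S) * (‖g i‖ ^ 2 / w i)) :=
        mul_le_mul_of_nonneg_left (by linarith) hθpos.le
      have a3 : θ * ((β / S) * (‖g i‖ ^ 2 / w i)) ≤ t * ((β / S) * (‖g i‖ ^ 2 / w i)) :=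
        mul_le_mul_of_nonneg_right hθt e5
      linarith
    have e7 : β / S ≤ β * (Phi v w / ((n : ℝ) + 1) ^ 2) := by
      have := mul_le_mul_of_nonneg_left hS1 hβ
      rwa [mul_one_div] at this
    simp only [hℓ] at e6
    nlinarith

lemma main (v : ι → E) (hv : AffineIndependent ℝ v) (k r : ℕ) :
    ∀ s : Finset ι, s.card = k + 1 + r → ∀ w : ι → ℝ, WW s w → ∀ a : ι → ℝ,
      ∃ t : Finset ι, t.card = k + 1 ∧ ∃ w' : ι → ℝ, WW t w' ∧
        ‖VV v w'‖ ^ 2 + ∑ i, a i * w' i ≤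
          ‖VV v w‖ ^ 2 + ∑ i, a i * w i + ((r : ℝ) / (((k : ℝ) + r) * ((k : ℝ) + 1))) * Phi v w := by
  induction r with
  | zero =>
    intro s hs w hw a
    exact ⟨s, hs, w, hw, by simp⟩
  | succ r ih =>
    intro s hs w hw a
    set c : ℝ := (r : ℝ) / (((k : ℝ) + r) * ((k : ℝ) + 1)) with hc
    have hc1 : c ≤ 1 := by
      rw [hc]
      apply div_le_one_of_le₀
      · have : (0 : ℝ) ≤ k := Nat.cast_nonneg k
        have : (0 : ℝ) ≤ r := Nat.cast_nonneg r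
        nlinarith
      · positivity
    obtain ⟨j, hj, w₁, hw₁, h₁⟩ := one_step v hv s (k + r) (by omega) w hw (1 - c) (by linarith)
      (fun i => a i + c * ‖v i‖ ^ 2)
    obtain ⟨t, ht, w₂, hw₂, h₂⟩ := ih (s.erase j) (by rw [card_erase_of_mem hj]; omega) w₁ hw₁ a
    refine ⟨t, ht, w₂, hw₂, ?_⟩
    have e : ∀ u : ι → ℝ, ∑ i, (a i + c * ‖v i‖ ^ 2) * u i =
        ∑ i, a i * u i + c * ∑ i, u i * ‖v i‖ ^ 2 := by
      intro u
      rw [mul_sum, ← sum_add_distrib]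
      apply sum_congr rfl
      intro i _; ring
    rw [e, e] at h₁
    have hrec : c + (1 - c) / (((k + r : ℕ) : ℝ) + 1) ^ 2 =
        ((r + 1 : ℕ) : ℝ) / (((k : ℝ) + (r + 1 : ℕ)) * ((k : ℝ) + 1)) := by
      push_cast
      rcases Nat.eq_zero_or_pos (k + r) with h0 | hp
      · have hk : k = 0 := by omega
        have hr : r = 0 := by omega
        rw [hc, hk, hr]; simp
      · have : (0 : ℝ) < (k : ℝ) + r := by exact_mod_cast hp
        rw [hc]; field_simp; ring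
    rw [← hrec]
    have p1 : Phi v w₁ = ∑ j, w₁ j * ‖v j‖ ^ 2 - ‖VV v w₁‖ ^ 2 := rfl
    have p2 : Phi v w = ∑ j, w j * ‖v j‖ ^ 2 - ‖VV v w‖ ^ 2 := rfl
    have p3 : (c + (1 - c) / (((k + r : ℕ) : ℝ) + 1) ^ 2) * Phi v w =
        c * Phi v w + (1 - c) * (Phi v w / (((k + r : ℕ) : ℝ) + 1) ^ 2) := by ring
    rw [p3]
    rw [p1] at h₂
    nlinarith

end Pool.Agent.H6.Skel
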