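import Mathlib
import Pool.Agent.H6.Crit

/-! Dense critical graphs of large odd girth. -/

namespace Pool.Agent.H6.Toft

open Pool.Agent.H6.Crit

variable {W : Type} {K M : ℕ}

def own (t : Bool) : ℕ := if t then 1 else 0
def oth (t : Bool) : ℕ := if t then 0 else 1

def side (v : Bool × Fin 3 × Fin M) : Bool := if v.2.1 = 1 then !v.1 else v.1

def term (x y : W) (s : Bool) : W := if s then y else x

def Lst (v : Bool × Fin 3 × Fin M) (j : ℕ) : Prop :=
  (v.2.1 = 0 ∧ (j = own v.1 ∨ j = 2)) ∨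
  (v.2.1 = 1 ∧ (j = own v.1 ∨ (j = 2 ∧ (v.2.2 : ℕ) + 1 < M) ∨ (j = oth v.1 ∧ 0 < (v.2.2 : ℕ)))) ∨
  (v.2.1 = 2 ∧ (j = 2 ∨ j = oth v.1))

def Core (u v : Bool × Fin 3 × Fin M) : Prop :=
  (u.1 = false ∧ v.1 = true ∧ u.2.1 = 0 ∧ v.2.1 = 0) ∨
  (u.1 = v.1 ∧ u.2.1 = 1 ∧ v.2.1 = 0 ∧ u.2.2 = v.2.2) ∨
  (u.1 = v.1 ∧ u.2.1 = 1 ∧ v.2.1 = 2 ∧ ((u.2.2 : ℕ) = v.2.2 ∨ (u.2.2 : ℕ) = v.2.2 + 1))

def R (F : SimpleGraph W) (x y : W) :
    (Fin K × W) ⊕ (Bool × Fin 3 × Fin M) → (Fin K × W) ⊕ (Bool × Fin 3 × Fin M) → Prop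
  | .inl u, .inl v => (u.1 = v.1 ∧ (F.deleteEdges {s(x, y)}).Adj u.2 v.2) ∨
      (u.1 ≠ v.1 ∧ u.2 = x ∧ v.2 = y)
  | .inr u, .inl v => ¬ Lst u v.1 ∧ v.2 = term x y (!side u)
  | .inr u, .inr v => Core u v
  | .inl _, .inr _ => False

def phi (x y : W) : (Fin K × W) ⊕ (Bool × Fin 3 × Fin M) → W
  | .inl u => u.2
  | .inr v => term x y (side v)

theorem term_adj {F : SimpleGraph W} {x y : W} (h : F.Adj x y) {s s' : Bool} (hs : s' = !s) :
    F.Adj (term x y s) (term x y s') := by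
  subst hs
  cases s
  · exact h
  · exact h.symm

theorem R_adj {F : SimpleGraph W} {x y : W} (h : F.Adj x y)
    {u v : (Fin K × W) ⊕ (Bool × Fin 3 × Fin M)} (huv : R F x y u v) :
    F.Adj (phi x y u) (phi x y v) := by
  rcases u with u | u <;> rcases v with v | v
  · rcases huv with ⟨_, h1⟩ | ⟨_, h1, h2⟩
    · exact (SimpleGraph.deleteEdges_adj.1 h1).1
    · simp only [phi, h1, h2]; exact h
  · exact huv.elim
  · simp only [phi, huv.2]; exact term_adj h rfl
  · refine term_adj h ?_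
    rcases huv with ⟨h1, h2, h3, h4⟩ | ⟨h1, h2, h3, _⟩ | ⟨h1, h2, h3, _⟩ <;>
      simp [side, *]

theorem eq_of_col {F : SimpleGraph W} {x y : W} (hF : ¬ F.Colorable K) (g : W → Fin K)
    (hg : ∀ u v, (F.deleteEdges {s(x, y)}).Adj u v → g u ≠ g v) : g x = g y := by
  by_contra hc
  refine hF ⟨SimpleGraph.Coloring.mk g fun {u v} huv => ?_⟩
  by_cases he : s(u, v) = s(x, y)
  · rcases Sym2.eq_iff.1 he with ⟨rfl, rfl⟩ | ⟨rfl, rfl⟩
    · exact hc
    · exact Ne.symm hc
  · exact hg u v (SimpleGraph.deleteEdges_adj.2 ⟨huv, he⟩)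

theorem not_col {F : SimpleGraph W} {x y : W} (h : F.Adj x y) (hF : ¬ F.Colorable K)
    (hM : 0 < M) :
    ¬ (SimpleGraph.fromRel (R (K := K) (M := M) F x y)).Colorable K := by
  rintro ⟨c⟩
  have hc : ∀ u v, R F x y u v → c u ≠ c v := fun u v huv =>
    c.valid ((SimpleGraph.fromRel_adj _ _ _).2
      ⟨fun e => (R_adj h huv).ne (congrArg _ e), Or.inl huv⟩)
  have h1 : ∀ j, c (.inl (j, x)) = c (.inl (j, y)) := fun j =>
    eq_of_col hF (fun w => c (.inl (j, w))) fun u v huv => hc _ _ (Or.inl ⟨rfl, huv⟩)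
  have h2 : Function.Injective (fun j => c (.inl (j, x))) := by
    intro i j hij
    by_contra hne
    exact hc (.inl (i, x)) (.inl (j, y)) (Or.inr ⟨hne, rfl, rfl⟩) (hij.trans (h1 j))
  have h3 := Finite.injective_iff_surjective.1 h2
  choose d hd using fun v => h3 (c (.inr v))
  have h4 : ∀ v, Lst v (d v) := by
    intro v
    by_contra hL
    refine hc (.inr v) (.inl (d v, term x y (!side v))) ⟨hL, rfl⟩ ?_
    rw [← hd v]
    cases (!side v)
    · rfl
    · exact h1 _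
  have h5 : ∀ u v, Core u v → (d u : ℕ) ≠ d v := by
    intro u v huv e
    refine hc (.inr u) (.inr v) huv ?_
    rw [← hd u, ← hd v, Fin.ext e]
  have h6 : ∀ t, ∃ i, (d (t, 0, i) : ℕ) = 2 := by
    intro t
    by_contra hcon
    push Not at hcon
    have a0 : ∀ i, (d (t, 1, i) : ℕ) ≠ own t := by
      intro i
      have b1 := h4 (t, 0, i)
      have b2 := h5 (t, 1, i) (t, 0, i) (Or.inr (Or.inl ⟨rfl, rfl, rfl, rfl⟩))
      have b3 := hcon i
      simp only [Lst] at b1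
      rcases b1 with ⟨_, b1 | b1⟩ | ⟨b1, _⟩ | ⟨b1, _⟩
      · rwa [b1] at b2
      · exact absurd b1 b3
      · exact absurd b1 (by decide)
      · exact absurd b1 (by decide)
    have a1 : ∀ i (hi : i < M), (d (t, 1, ⟨i, hi⟩) : ℕ) = 2 ∧ i + 1 < M := by
      intro i
      induction i with
      | zero =>
        intro hi
        have b1 := h4 (t, 1, ⟨0, hi⟩)
        simp only [Lst] at b1
        rcases b1 with ⟨b1, _⟩ | ⟨_, b1 | b1 | b1⟩ | ⟨b1, _⟩
        · exact absurd b1 (by decide)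
        · exact absurd b1 (a0 _)
        · exact b1
        · exact absurd b1.2 (lt_irrefl _)
        · exact absurd b1 (by decide)
      | succ i ih =>
        intro hi
        have b0 := (ih (by omega)).1
        have b2 := h5 (t, 1, ⟨i, by omega⟩) (t, 2, ⟨i, by omega⟩)
          (Or.inr (Or.inr ⟨rfl, rfl, rfl, Or.inl rfl⟩))
        have b3 := h5 (t, 1, ⟨i + 1, hi⟩) (t, 2, ⟨i, by omega⟩)
          (Or.inr (Or.inr ⟨rfl, rfl, rfl, Or.inr rfl⟩))
        have b4 : (d (t, 2, ⟨i, by omega⟩) : ℕ) = oth t := by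
          have b1 := h4 (t, 2, ⟨i, by omega⟩)
          simp only [Lst] at b1
          rcases b1 with ⟨b1, _⟩ | ⟨b1, _⟩ | ⟨_, b1 | b1⟩
          · exact absurd b1 (by decide)
          · exact absurd b1 (by decide)
          · exact absurd (b0.trans b1.symm) b2
          · exact b1
        have b1 := h4 (t, 1, ⟨i + 1, hi⟩)
        simp only [Lst] at b1
        rcases b1 with ⟨b1, _⟩ | ⟨_, b1 | b1 | b1⟩ | ⟨b1, _⟩
        · exact absurd b1 (by decide)
        · exact absurd b1 (a0 _)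
        · exact b1
        · exact absurd (b1.1.trans b4.symm) b3
        · exact absurd b1 (by decide)
    have := (a1 (M - 1) (by omega)).2
    omega
  obtain ⟨i, hi⟩ := h6 false
  obtain ⟨j, hj⟩ := h6 true
  exact h5 (false, 0, i) (true, 0, j) (Or.inl ⟨rfl, rfl, rfl, rfl⟩) (hi.trans hj.symm)

def ccol (z : Bool → Fin M) (v : Bool × Fin 3 × Fin M) : ℕ :=
  if v.2.1 = 0 then (if v.2.2 = z v.1 then 2 else own v.1)
  else if v.2.1 = 1 then
    (if (v.2.2 : ℕ) < z v.1 then 2 else if v.2.2 = z v.1 then own v.1 else oth v.1)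
  else (if (v.2.2 : ℕ) < z v.1 then oth v.1 else 2)

theorem ccol_lt (z : Bool → Fin M) (v : Bool × Fin 3 × Fin M) : ccol z v < 3 := by
  unfold ccol own oth
  split_ifs <;> norm_num

theorem ccol_lst (z : Bool → Fin M) (v : Bool × Fin 3 × Fin M) : Lst v (ccol z v) := by
  obtain ⟨t, κ, i⟩ := v
  have := (z t).2
  fin_cases κ
  · refine Or.inl ⟨rfl, ?_⟩
    simp only [ccol]
    split_ifs <;> simp_all
  · refine Or.inr (Or.inl ⟨rfl, ?_⟩)
    by_cases h1 : (i : ℕ) < z t
    · right; left; simp [ccol, h1]; omega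
    · by_cases h2 : i = z t
      · left; simp [ccol, h2]
      · right; right
        have : (i : ℕ) ≠ z t := fun h => h2 (Fin.ext h)
        simp [ccol, h1, h2]; omega
  · refine Or.inr (Or.inr ⟨rfl, ?_⟩)
    by_cases h1 : (i : ℕ) < z t <;> simp [ccol, h1]

theorem ccol_core (z : Bool → Fin M) (u v : Bool × Fin 3 × Fin M) (h : Core u v)
    (hne : ¬ (u = (false, 0, z false) ∧ v = (true, 0, z true))) : ccol z u ≠ ccol z v := by
  obtain ⟨t, κ, i⟩ := u
  obtain ⟨t', κ', i'⟩ := v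
  rcases h with ⟨h1, h2, h3, h4⟩ | ⟨h1, h2, h3, h4⟩ | ⟨h1, h2, h3, h4⟩
  · simp only at h1 h2 h3 h4
    subst h1 h2 h3 h4
    by_cases a1 : i = z false <;> by_cases a2 : i' = z true <;> simp_all [ccol, own]
  · simp only at h1 h2 h3 h4
    subst h1 h2 h3 h4
    by_cases a1 : (i : ℕ) < z t
    · have : i ≠ z t := fun h => by rw [h] at a1; omega
      cases t <;> simp_all [ccol, own]
    · by_cases a2 : i = z t <;> cases t <;> simp_all [ccol, own, oth] <;> split_ifs <;> simp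
  · simp only at h1 h2 h3 h4
    subst h1 h2 h3
    simp only [ccol, Fin.ext_iff]
    cases t <;> simp only [own, oth] <;> split_ifs <;> simp_all <;> omega

theorem crit [DecidableEq W] {F : SimpleGraph W} {x y : W} (hF : ¬ F.Colorable K)
    (hF' : (F.deleteEdges {s(x, y)}).Colorable K) (hK : 3 ≤ K) (i j : Fin M) :
    ((SimpleGraph.fromRel (R (K := K) (M := M) F x y)).deleteEdges
      {s(.inr (false, 0, i), .inr (true, 0, j))}).Colorable K := by
  obtain ⟨g⟩ := hF'
  have hxy : g x = g y := eq_of_col hF g fun u v huv => g.valid huv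
  set z : Bool → Fin M := fun t => if t then j else i with hz
  set c : (Fin K × W) ⊕ (Bool × Fin 3 × Fin M) → Fin K := fun v =>
    match v with
    | .inl u => Equiv.swap (g x) u.1 (g u.2)
    | .inr v => ⟨ccol z v, lt_of_lt_of_le (ccol_lt z v) hK⟩ with hc
  have key : ∀ u v, R F x y u v → s(u, v) ≠ s(.inr (false, 0, i), .inr (true, 0, j)) →
      c u ≠ c v := by
    intro u v huv hne
    rcases u with u | u <;> rcases v with v | v
    · rcases huv with ⟨h1, h2⟩ | ⟨h1, h2, h3⟩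
      · simp only [hc, h1]
        exact fun e => g.valid h2 ((Equiv.swap _ _).injective e)
      · simp only [hc, h2, h3, ← hxy, Equiv.swap_apply_left]
        exact h1
    · exact huv.elim
    · obtain ⟨h1, h2⟩ := huv
      have : g v.2 = g x := by
        rw [h2]; cases (!side u)
        · rfl
        · exact hxy.symm
      simp only [hc, this, Equiv.swap_apply_left]
      intro e
      apply h1
      rw [← e]
      exact ccol_lst z u
    · intro e
      refine ccol_core z u v huv ?_ (congrArg Fin.val e)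
      rintro ⟨rfl, rfl⟩
      exact hne rfl
  refine ⟨SimpleGraph.Coloring.mk c fun {u v} huv => ?_⟩
  obtain ⟨h1, h2⟩ := SimpleGraph.deleteEdges_adj.1 huv
  rcases ((SimpleGraph.fromRel_adj _ _ _).1 h1).2 with h | h
  · exact key u v h h2
  · exact (key v u h (by rwa [Sym2.eq_swap])).symm

theorem main (ℓ : ℕ) (hℓ : 0 < ℓ) (K : ℕ) (hK : 3 ≤ K) (N : ℕ) :
    ∃ n : ℕ, N ≤ n ∧ ∃ H : SimpleGraph (Fin n),
      H.chromaticNumber = ((K + 1 : ℕ) : ℕ∞) ∧
      (∀ e ∈ H.edgeSet, (H.deleteEdges {e}).Colorable K) ∧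
      (∀ v : Fin n, ∃ w : Fin n, H.Adj v w) ∧ NoOdd H ℓ ∧
      n ^ 2 ≤ 49 * Nat.card H.edgeSet := by
  classical
  obtain ⟨W, _, F, x, y, hxy, ho, h1, h2⟩ := gadget K ℓ (by omega) hℓ
  set M := N + K * Fintype.card W + 1 with hM
  have ho' : NoOdd (SimpleGraph.fromRel (R (K := K) (M := M) F x y)) ℓ := by
    refine NoOdd.of_hom ⟨phi x y, fun {u v} huv => ?_⟩ ho
    rcases ((SimpleGraph.fromRel_adj _ _ _).1 huv).2 with h | h
    · exact R_adj hxy h
    · exact (R_adj hxy h).symm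
  obtain ⟨n, n1, n2, H, a1, a2, a3, a4, a5⟩ := extract _ K ℓ (by omega)
    (not_col (M := M) hxy h1 (by omega)) ho' (ι := Fin M) (fun i => .inr (false, 0, i))
    (fun i => .inr (true, 0, i)) (fun i j h => by simpa using h) (fun i j h => by simpa using h)
    (fun i j => by simp) (crit h1 h2 hK)
  simp only [Fintype.card_fin, Fintype.card_sum, Fintype.card_prod, Fintype.card_bool] at n1 n2 a5
  refine ⟨n, by omega, H, a1, a2, a3, a4, ?_⟩
  calc n ^ 2 ≤ (7 * M) ^ 2 := Nat.pow_le_pow_left (by omega) 2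
    _ = 49 * M ^ 2 := by ring
    _ ≤ _ := by omega

end Pool.Agent.H6.Toft
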