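import Mathlib
import Pool.Agent.H6.Toft

/-! Small critical graphs containing a given subgraph. -/

namespace Pool.Agent.H6.Stieb

open Pool.Agent.H6.Crit Pool.Agent.H6.Toft

theorem extract2 {V : Type*} [Fintype V] (G : SimpleGraph V) (K : ℕ) (hK : 0 < K)
    (h : ¬ G.Colorable K) :
    ∃ m : ℕ, m ≤ Fintype.card V ∧ ∃ (H : SimpleGraph (Fin m)) (ψ : Fin m → V),
      Function.Injective ψ ∧ H.chromaticNumber = ((K + 1 : ℕ) : ℕ∞) ∧
      (∀ v w, H.Adj v w → (H.deleteEdges {s(v, w)}).Colorable K) ∧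
      (∀ v : Fin m, ∃ w : Fin m, H.Adj v w) ∧ (∀ i j, H.Adj i j → G.Adj (ψ i) (ψ j)) ∧
      ∀ u v, (G.deleteEdges {s(u, v)}).Colorable K → ∃ i j, ψ i = u ∧ ψ j = v ∧ H.Adj i j := by
  classical
  obtain ⟨H, h1, h2, h3⟩ := minimal G K h
  have hadj : ∀ a b, (G.deleteEdges {s(a, b)}).Colorable K → H.Adj a b := by
    intro a b hcrit
    by_contra hc
    refine h2 (hcrit.mono_left fun u v huv => ?_)
    rw [SimpleGraph.deleteEdges_adj]
    refine ⟨h1 huv, fun he => hc ?_⟩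
    have he' : s(u, v) = s(a, b) := he
    rwa [← SimpleGraph.mem_edgeSet, he', SimpleGraph.mem_edgeSet] at huv
  set S := {v : V // ∃ w, H.Adj v w} with hS
  set e := Fintype.equivFin S with he
  set ψ : Fin (Fintype.card S) → V := fun i => (e.symm i).1 with hψ
  have ψinj : Function.Injective ψ := Subtype.val_injective.comp e.symm.injective
  have ψsur : ∀ v w, H.Adj v w → ∃ i, ψ i = v := fun v w hvw =>
    ⟨e ⟨v, w, hvw⟩, by simp [hψ]⟩
  have hdel : ∀ u v, (H.comap ψ).Adj u v → ((H.comap ψ).deleteEdges {s(u, v)}).Colorable K := by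
    intro u v hs
    refine SimpleGraph.Colorable.of_hom (G' := H.deleteEdges {s(ψ u, ψ v)}) ⟨ψ, ?_⟩ (h3 _ hs)
    intro p q hpq
    rw [SimpleGraph.deleteEdges_adj] at hpq ⊢
    refine ⟨hpq.1, fun h => hpq.2 ?_⟩
    have h' : s(ψ p, ψ q) = s(ψ u, ψ v) := h
    change s(p, q) = s(u, v)
    exact Sym2.map.injective ψinj h'
  have hnc : ¬ (H.comap ψ).Colorable K := by
    rintro ⟨c⟩
    refine h2 ⟨SimpleGraph.Coloring.mk
      (fun v => if hv : ∃ i, ψ i = v then c hv.choose else ⟨0, hK⟩) ?_⟩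
    intro u v huv
    have hu := ψsur u v huv
    have hv := ψsur v u huv.symm
    simp only [dif_pos hu, dif_pos hv]
    refine c.valid ?_
    change H.Adj (ψ _) (ψ _)
    rwa [hu.choose_spec, hv.choose_spec]
  refine ⟨Fintype.card S, Fintype.card_subtype_le _, H.comap ψ, ψ, ψinj, ?_, hdel, ?_,
    fun i j hij => h1 hij, ?_⟩
  · push_cast
    rw [SimpleGraph.chromaticNumber_eq_iff_colorable_not_colorable]
    refine ⟨?_, hnc⟩
    have : ∃ x y, (H.comap ψ).Adj x y := by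
      by_contra hc
      push Not at hc
      exact hnc ⟨SimpleGraph.Coloring.mk (fun _ => ⟨0, hK⟩) fun h => absurd h (hc _ _)⟩
    obtain ⟨x, y, hxy⟩ := this
    obtain ⟨c⟩ := hdel x y hxy
    refine ⟨SimpleGraph.Coloring.mk
      (fun v => if v = x then Fin.last K else (c v).castSucc) ?_⟩
    intro u v huv
    by_cases hu : u = x <;> by_cases hv : v = x
    · exact absurd (hu.trans hv.symm) huv.ne
    · simp only [if_pos hu, if_neg hv]; exact (Fin.castSucc_ne_last _).symm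
    · simp only [if_neg hu, if_pos hv]; exact Fin.castSucc_ne_last _
    · simp only [if_neg hu, if_neg hv]
      refine fun hh => c.valid ?_ (Fin.castSucc_injective _ hh)
      rw [SimpleGraph.deleteEdges_adj]
      refine ⟨huv, fun h => ?_⟩
      have h' : s(u, v) = s(x, y) := h
      rcases Sym2.eq_iff.1 h' with ⟨e1, _⟩ | ⟨_, e1⟩
      · exact hu e1
      · exact hv e1
  · intro v
    obtain ⟨w, hw⟩ := (e.symm v).2
    obtain ⟨j, hj⟩ := ψsur w _ hw.symm
    exact ⟨j, by change H.Adj (ψ v) (ψ j); rw [hj]; exact hw⟩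
  · intro u v huv
    have a := hadj u v huv
    obtain ⟨i, hi⟩ := ψsur u v a
    obtain ⟨j, hj⟩ := ψsur v u a.symm
    exact ⟨i, j, hi, hj, by change H.Adj (ψ i) (ψ j); rwa [hi, hj]⟩

/-- The chain forces a selected vertex. -/
theorem chain_or {M : ℕ} (hM : 0 < M) (d : Bool × Fin 3 × Fin M → ℕ) (h4 : ∀ v, Lst v (d v))
    (t : Bool) (h5 : ∀ i, d (t, 1, i) ≠ d (t, 0, i))
    (h6 : ∀ i j : Fin M, (i : ℕ) = j ∨ (i : ℕ) = j + 1 → d (t, 1, i) ≠ d (t, 2, j)) :
    ∃ i, d (t, 0, i) = 2 := by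
  by_contra hcon
  push Not at hcon
  have a0 : ∀ i, d (t, 1, i) ≠ own t := by
    intro i
    have b1 := h4 (t, 0, i)
    have b2 := h5 i
    have b3 := hcon i
    simp only [Lst] at b1
    rcases b1 with ⟨_, b1 | b1⟩ | ⟨b1, _⟩ | ⟨b1, _⟩
    · rwa [b1] at b2
    · exact absurd b1 b3
    · exact absurd b1 (by decide)
    · exact absurd b1 (by decide)
  have a1 : ∀ i (hi : i < M), d (t, 1, ⟨i, hi⟩) = 2 ∧ i + 1 < M := by
    intro i
    induction i with
    | zero =>
      intro hi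
      have b1 := h4 (t, 1, ⟨0, hi⟩)
      simp only [Lst] at b1
      rcases b1 with ⟨b1, _⟩ | ⟨_, b1 | b1 | b1⟩ | ⟨b1, _⟩
      · exact absurd b1 (by decide)
      · exact absurd b1 (a0 _)
      · exact b1
      · exact absurd b1.2 (lt_irrefl _)
      · exact absurd b1 (by decide)
    | succ i ih =>
      intro hi
      have b0 := (ih (by omega)).1
      have b2 := h6 ⟨i, by omega⟩ ⟨i, by omega⟩ (Or.inl rfl)
      have b3 := h6 ⟨i + 1, hi⟩ ⟨i, by omega⟩ (Or.inr rfl)
      have b4 : d (t, 2, ⟨i, by omega⟩) = oth t := by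
        have b1 := h4 (t, 2, ⟨i, by omega⟩)
        simp only [Lst] at b1
        rcases b1 with ⟨b1, _⟩ | ⟨b1, _⟩ | ⟨_, b1 | b1⟩
        · exact absurd b1 (by decide)
        · exact absurd b1 (by decide)
        · exact absurd (b0.trans b1.symm) b2
        · exact b1
      have b1 := h4 (t, 1, ⟨i + 1, hi⟩)
      simp only [Lst] at b1
      rcases b1 with ⟨b1, _⟩ | ⟨_, b1 | b1 | b1⟩ | ⟨b1, _⟩
      · exact absurd b1 (by decide)
      · exact absurd b1 (a0 _)
      · exact b1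
      · exact absurd (b1.1.trans b4.symm) b3
      · exact absurd b1 (by decide)
  have := (a1 (M - 1) (by omega)).2
  omega

variable {n K : ℕ}

abbrev Vx (n K : ℕ) : Type :=
  (Fin n ⊕ Fin K) ⊕ ((Bool × Fin 3 × Fin n) ⊕ (Bool × Bool × Fin K × Fin n))

def thd (δ : ℕ) : ℕ := if δ = 0 then 1 else 0

def R (H : SimpleGraph (Fin n)) : Vx n K → Vx n K → Prop
  | .inl (.inl v), .inl (.inl w) => H.Adj v w
  | .inl (.inr i), .inl (.inr j) => i ≠ j
  | .inr (.inl x), .inl (.inr j) => ¬ Lst x j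
  | .inr (.inl x), .inr (.inl y) => Core x y ∧ (x.2.1 = 0 → ¬ H.Adj x.2.2 y.2.2)
  | .inr (.inr x), .inl (.inr j) => (j : ℕ) ≠ thd x.2.2.1 ∧
      (j : ℕ) ≠ if x.2.1 then (x.2.2.1 : ℕ) else 2
  | .inr (.inr x), .inr (.inl y) => x.2.1 = false ∧ (x.2.2.1 : ℕ) ≠ 2 ∧ y = (x.1, 0, x.2.2.2)
  | .inr (.inr x), .inr (.inr y) => x.2.1 = false ∧ y = (x.1, true, x.2.2)
  | .inr (.inr x), .inl (.inl v) => x.2.1 = true ∧ (x.2.2.1 : ℕ) ≠ 2 ∧ v = x.2.2.2
  | _, _ => False

theorem R_ne (H : SimpleGraph (Fin n)) {u v : Vx n K} (h : R H u v) : u ≠ v := by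
  rintro rfl
  rcases u with (u | u) | (u | u)
  · exact H.irrefl h
  · exact h rfl
  · rcases h.1 with ⟨h1, h2, _⟩ | ⟨_, h1, h2, _⟩ | ⟨_, h1, h2, _⟩ <;> simp_all
  · obtain ⟨h1, h2⟩ := h
    rw [h2] at h1
    simp at h1

theorem not_col (H : SimpleGraph (Fin n)) (hn : 0 < n) :
    ¬ (SimpleGraph.fromRel (R (K := K) H)).Colorable K := by
  rintro ⟨c⟩
  have hc : ∀ u v, R H u v → c u ≠ c v := fun u v huv =>
    c.valid ((SimpleGraph.fromRel_adj _ _ _).2 ⟨R_ne H huv, Or.inl huv⟩)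
  have h2 : Function.Injective (fun j => c (.inl (.inr j))) := by
    intro i j hij
    by_contra hne
    exact hc (.inl (.inr i)) (.inl (.inr j)) hne hij
  have h3 := Finite.injective_iff_surjective.1 h2
  choose d hd using fun v => h3 (c v)
  have h0 : ∀ v j, R H v (.inl (.inr j)) → d v ≠ j := by
    intro v j hv e
    exact hc _ _ hv (by rw [← hd v, e])
  have h5 : ∀ u v, R H u v → (d u : ℕ) ≠ d v := by
    intro u v huv e
    refine hc u v huv ?_
    rw [← hd u, ← hd v, Fin.ext e]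
  have h4 : ∀ v, Lst v (d (.inr (.inl v))) := by
    intro v
    by_contra hL
    exact h0 (.inr (.inl v)) _ hL rfl
  have h6 : ∀ t, ∃ i, (d (.inr (.inl (t, 0, i))) : ℕ) = 2 := fun t =>
    chain_or hn (fun v => d (.inr (.inl v))) h4 t
      (fun i => h5 _ _ ⟨Or.inr (Or.inl ⟨rfl, rfl, rfl, rfl⟩), fun h => absurd h (by simp)⟩)
      (fun i j hij => h5 _ _ ⟨Or.inr (Or.inr ⟨rfl, rfl, rfl, hij⟩), fun h => absurd h (by simp)⟩)
  have h7 : ∀ t i, (d (.inr (.inl (t, 0, i))) : ℕ) = 2 → (d (.inl (.inl i)) : ℕ) = 2 := by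
    intro t i hi
    by_contra hne
    set δ := d (.inl (.inl i)) with hδ
    have a1 := h5 (.inr (.inr (t, false, δ, i))) (.inr (.inl (t, 0, i))) ⟨rfl, hne, rfl⟩
    have a2 := h5 (.inr (.inr (t, false, δ, i))) (.inr (.inr (t, true, δ, i))) ⟨rfl, rfl⟩
    have a3 := h5 (.inr (.inr (t, true, δ, i))) (.inl (.inl i)) ⟨rfl, hne, rfl⟩
    have a4 : (d (.inr (.inr (t, false, δ, i))) : ℕ) = thd δ := by
      by_contra hh
      exact h0 (.inr (.inr (t, false, δ, i))) _ ⟨hh, by rw [← hi]; exact a1⟩ rfl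
    exact h0 (.inr (.inr (t, true, δ, i))) _ ⟨by rw [← a4]; exact a2.symm, a3⟩ rfl
  obtain ⟨i, hi⟩ := h6 false
  obtain ⟨j, hj⟩ := h6 true
  by_cases hij : H.Adj i j
  · exact h5 (.inl (.inl i)) (.inl (.inl j)) hij ((h7 _ _ hi).trans (h7 _ _ hj).symm)
  · exact h5 (.inr (.inl (false, 0, i))) (.inr (.inl (true, 0, j)))
      ⟨Or.inl ⟨rfl, rfl, rfl, rfl⟩, fun _ => hij⟩ (hi.trans hj.symm)

/-- The colouring attached to a selection. -/
def col (z : Bool → Fin n) (sel : Bool) (g : Fin n → ℕ) : Vx n K → ℕ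
  | .inl (.inl v) => g v
  | .inl (.inr j) => j
  | .inr (.inl x) => if sel = false ∧ x = (false, 0, z false) then 0 else ccol z x
  | .inr (.inr x) =>
      if x.2.2.2 = z x.1 ∧ (sel = true ∨ x.1 = true) then
        (if x.2.1 then (x.2.2.1 : ℕ) else thd x.2.2.1)
      else (if x.2.1 then
        (if g x.2.2.2 = x.2.2.1 ∨ (x.2.2.1 : ℕ) = 2 then thd x.2.2.1 else x.2.2.1) else 2)

theorem col_lt (hK : 3 ≤ K) (z : Bool → Fin n) (sel : Bool) (g : Fin n → ℕ) (hg : ∀ v, g v < K)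
    (v : Vx n K) : col z sel g v < K := by
  rcases v with (u | u) | (u | u)
  · exact hg u
  · exact u.2
  · have := ccol_lt z u
    simp only [col]; split_ifs <;> omega
  · have := u.2.2.1.2
    simp only [col, thd]; split_ifs <;> omega

theorem col_ne (H : SimpleGraph (Fin n)) (z : Bool → Fin n) (sel : Bool) (g : Fin n → ℕ)
    (h1 : g (z true) = 2) (h2 : sel = true → g (z false) = 2 ∧ H.Adj (z false) (z true))
    (u v : Vx n K) (huv : R H u v)
    (e1 : ∀ a b, u = .inl (.inl a) → v = .inl (.inl b) → g a ≠ g b)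
    (e2 : sel = false → ¬ (u = .inr (.inl (false, 1, z false)) ∧
      v = .inr (.inl (false, 0, z false)))) : col z sel g u ≠ col z sel g v := by
  rcases u with (u | u) | (u | u) <;> rcases v with (v | v) | (v | v) <;>
    try exact huv.elim
  · exact e1 _ _ rfl rfl
  · exact fun e => huv (Fin.ext e)
  · intro e
    apply huv
    simp only [col] at e
    rw [← e]
    split_ifs with hh
    · rw [hh.2]; exact Or.inl ⟨rfl, Or.inl rfl⟩
    · exact ccol_lst z u
  · obtain ⟨a1, a2⟩ := huv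
    simp only [col]
    cases sel
    · have e3 := e2 rfl
      split_ifs with b1 b2 b2
      · rw [b1.2, b2.2] at a1
        rcases a1 with ⟨_, h, _⟩ | ⟨_, h, _⟩ | ⟨_, h, _⟩ <;> simp at h
      · obtain ⟨t, κ, i⟩ := v
        rw [b1.2] at a1
        rcases a1 with ⟨_, c1, _, c2⟩ | ⟨_, h, _⟩ | ⟨_, h, _⟩
        · simp only at c1 c2
          subst c1 c2
          simp only [ccol, own]; split_ifs <;> simp_all
        · simp at h
        · simp at h
      · obtain ⟨t, κ, i⟩ := u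
        rw [b2.2] at a1
        rcases a1 with ⟨_, h, _⟩ | ⟨c1, c2, _, c3⟩ | ⟨_, _, h, _⟩
        · simp at h
        · simp only at c1 c2 c3
          subst c1 c2 c3
          exact absurd ⟨rfl, by rw [b2.2]⟩ e3
        · simp at h
      · refine ccol_core z u v a1 fun h => b1 ⟨rfl, h.1⟩
    · simp only [Bool.true_eq_false, false_and, if_false]
      refine ccol_core z u v a1 ?_
      rintro ⟨rfl, rfl⟩
      exact a2 rfl (h2 rfl).2
  · obtain ⟨t, b, δ, i⟩ := u
    obtain ⟨a1, a2, a3⟩ := huv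
    simp only at a1 a2 a3
    subst a1 a3
    simp only [col, if_true]
    split_ifs with b1 b2
    · obtain ⟨c1, c2⟩ := b1
      have : g v = 2 := by
        rw [c1]
        cases t
        · exact (h2 (by simpa using c2)).1
        · exact h1
      omega
    · rcases b2 with b2 | b2
      · rw [b2]; unfold thd; split_ifs <;> omega
      · exact absurd b2 a2
    · exact fun e => b2 (Or.inl e.symm)
  · obtain ⟨t, b, δ, i⟩ := u
    obtain ⟨a1, a2⟩ := huv
    cases b <;> simp only [col] at a1 a2 ⊢ <;> split_ifs <;> simp_all [eq_comm]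
  · obtain ⟨t, b, δ, i⟩ := u
    obtain ⟨a1, a2, a3⟩ := huv
    simp only at a1 a2 a3
    subst a1 a3
    simp only [col, ccol, thd, own]
    cases t <;> cases sel <;> split_ifs <;> simp_all
  · obtain ⟨t, b, δ, i⟩ := u
    obtain ⟨a1, a3⟩ := huv
    simp only at a1 a3
    subst a1 a3
    simp only [col, thd]
    split_ifs <;> simp_all <;> omega

theorem crit (H : SimpleGraph (Fin n)) (hK : 3 ≤ K) (z : Bool → Fin n) (sel : Bool)
    (g : Fin n → Fin K) (h1 : (g (z true) : ℕ) = 2)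
    (h2 : sel = true → (g (z false) : ℕ) = 2 ∧ H.Adj (z false) (z true)) (p q : Vx n K)
    (e1 : ∀ a b, H.Adj a b → s((.inl (.inl a) : Vx n K), .inl (.inl b)) ≠ s(p, q) → g a ≠ g b)
    (e2 : sel = false → p = .inr (.inl (false, 1, z false)) ∧
      q = .inr (.inl (false, 0, z false))) :
    ((SimpleGraph.fromRel (R (K := K) H)).deleteEdges {s(p, q)}).Colorable K := by
  have key : ∀ u v, R H u v → s(u, v) ≠ s(p, q) →
      col z sel (fun v => g v) u ≠ col z sel (fun v => g v) v := by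
    intro u v huv hne
    refine col_ne H z sel _ h1 h2 u v huv ?_ ?_
    · rintro a b rfl rfl e
      exact e1 a b huv hne (Fin.ext e)
    · rintro hs ⟨rfl, rfl⟩
      exact hne (by rw [(e2 hs).1, (e2 hs).2])
  refine ⟨SimpleGraph.Coloring.mk
    (fun v => ⟨col z sel (fun v => g v) v, col_lt hK z sel _ (fun v => (g v).2) v⟩)
    fun {u v} huv e => ?_⟩
  obtain ⟨h1, h2⟩ := SimpleGraph.deleteEdges_adj.1 huv
  rcases ((SimpleGraph.fromRel_adj _ _ _).1 h1).2 with h | h
  · exact key u v h h2 (congrArg Fin.val e)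
  · exact key v u h (by rwa [Sym2.eq_swap]) (congrArg Fin.val e).symm

theorem main (H : SimpleGraph (Fin n)) (hn : 0 < n) (hK : 3 ≤ K) (h1 : H.Colorable K)
    (h2 : ∀ x y, H.Adj x y → ∃ g : Fin n → Fin K, g x = g y ∧
      ∀ a b, H.Adj a b → s(a, b) ≠ s(x, y) → g a ≠ g b) :
    ∃ m : ℕ, m ≤ (7 + 5 * K) * n ∧ ∃ G : SimpleGraph (Fin m),
      G.chromaticNumber = ((K + 1 : ℕ) : ℕ∞) ∧
      (∀ v w, G.Adj v w → (G.deleteEdges {s(v, w)}).Colorable K) ∧
      (∀ v : Fin m, ∃ w : Fin m, G.Adj v w) ∧ ∃ f : H →g G, Function.Injective f := by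
  classical
  obtain ⟨m, hm, G, ψ, a1, a2, a3, a4, _, a6⟩ := extract2 _ K (by omega) (not_col (K := K) H hn)
  have b1 : ∀ x y, H.Adj x y → ∃ i j, ψ i = .inl (.inl x) ∧ ψ j = .inl (.inl y) ∧ G.Adj i j := by
    intro x y hxy
    obtain ⟨g, g1, g2⟩ := h2 x y hxy
    refine a6 _ _ (crit H hK (fun t => if t then y else x) true
      (fun v => Equiv.swap (g x) ⟨2, by omega⟩ (g v)) (by simp [← g1]) (fun _ => ⟨by simp, hxy⟩)
      _ _ ?_ (by simp))
    intro a b hab hne e
    refine g2 a b hab (fun h => hne ?_) ((Equiv.swap _ _).injective e)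
    exact congrArg (Sym2.map (fun v => (.inl (.inl v) : Vx n K))) h
  have b2 : ∀ x, ∃ j, ψ j = .inr (.inl (false, 0, x)) := by
    intro x
    obtain ⟨g⟩ := h1
    obtain ⟨_, j, _, hj, _⟩ := a6 _ _ (crit H hK (fun _ => x) false
      (fun v => Equiv.swap (g x) ⟨2, by omega⟩ (g v)) (by simp) (by simp)
      (.inr (.inl (false, 1, x))) (.inr (.inl (false, 0, x)))
      (fun a b hab _ e => g.valid hab ((Equiv.swap _ _).injective e)) (fun _ => ⟨rfl, rfl⟩))
    exact ⟨j, hj⟩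
  have b3 : ∀ x, ∃ j, ψ j =
      if ∃ y, H.Adj x y then .inl (.inl x) else .inr (.inl (false, 0, x)) := by
    intro x
    split_ifs with hx
    · obtain ⟨y, hy⟩ := hx
      obtain ⟨i, _, hi, _⟩ := b1 x y hy
      exact ⟨i, hi⟩
    · exact b2 x
  choose f hf using b3
  refine ⟨m, hm.trans ?_, G, a2, a3, a4, ⟨f, fun {x y} hxy => ?_⟩, fun x y hxy => ?_⟩
  · simp only [Fintype.card_sum, Fintype.card_prod, Fintype.card_fin, Fintype.card_bool]
    nlinarith
  · obtain ⟨i, j, hi, hj, hij⟩ := b1 x y hxy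
    have c1 := hf x
    have c2 := hf y
    rw [if_pos ⟨y, hxy⟩] at c1
    rw [if_pos ⟨x, hxy.symm⟩] at c2
    rwa [a1 (c1.trans hi.symm), a1 (c2.trans hj.symm)]
  · have c1 := hf x
    have c2 := hf y
    have c3 : f x = f y := hxy
    rw [c3, c2] at c1
    split_ifs at c1 <;> simp_all

end Pool.Agent.H6.Stieb
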