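import Mathlib

/-! The sum graph of the set 2,3,4,5,6,8,9,10 has no sum labeling that uses the label 1. -/

namespace Pool.Agent.H6.SumLab

/-- hidden disequality -/
def NE (a b : ℕ) : Prop := a = b → False

/-- hidden disjunction -/
def O6 (s a b c d e f : ℕ) : Prop := s = a ∨ s = b ∨ s = c ∨ s = d ∨ s = e ∨ s = f

theorem c0 (x0 x1 x2 x3 x4 x5 x6 x7 : ℕ) (h1 : x0 = 1)
    (p1 : 2 ≤ x1) (p2 : 2 ≤ x2) (p3 : 2 ≤ x3) (p4 : 2 ≤ x4) (p5 : 2 ≤ x5) (p6 : 2 ≤ x6) (p7 : 2 ≤ x7)
    (d0_1 : NE x0 x1)
    (d0_2 : NE x0 x2)
    (d0_3 : NE x0 x3)
    (d0_4 : NE x0 x4)
    (d1_2 : NE x1 x2)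
    (d1_4 : NE x1 x4)
    (d1_5 : NE x1 x5)
    (d1_6 : NE x1 x6)
    (d1_7 : NE x1 x7)
    (d2_5 : NE x2 x5)
    (d3_4 : NE x3 x4)
    (e0_1 : O6 (x0 + x1) x2 x3 x4 x5 x6 x7)
    (e0_2 : O6 (x0 + x2) x1 x3 x4 x5 x6 x7)
    (n0_3_1 : NE (x0 + x3) x1)
    (n0_3_2 : NE (x0 + x3) x2)
    (n0_3_4 : NE (x0 + x3) x4)
    (n0_3_5 : NE (x0 + x3) x5)
    (n0_3_6 : NE (x0 + x3) x6)
    (n0_3_7 : NE (x0 + x3) x7)
    (e0_4 : O6 (x0 + x4) x1 x2 x3 x5 x6 x7)
    (e0_5 : O6 (x0 + x5) x1 x2 x3 x4 x6 x7)
    (n0_6_1 : NE (x0 + x6) x1)
    (n0_6_2 : NE (x0 + x6) x2)
    (n0_6_3 : NE (x0 + x6) x3)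
    (n0_6_4 : NE (x0 + x6) x4)
    (n0_6_5 : NE (x0 + x6) x5)
    (n0_6_7 : NE (x0 + x6) x7)
    (n0_7_1 : NE (x0 + x7) x1)
    (n0_7_2 : NE (x0 + x7) x2)
    (n0_7_3 : NE (x0 + x7) x3)
    (n0_7_4 : NE (x0 + x7) x4)
    (n0_7_5 : NE (x0 + x7) x5)
    (n0_7_6 : NE (x0 + x7) x6)
    (n1_2_3 : NE (x1 + x2) x3)
    (n1_2_4 : NE (x1 + x2) x4)
    (n1_2_5 : NE (x1 + x2) x5)
    (n1_2_6 : NE (x1 + x2) x6)
    (n1_2_7 : NE (x1 + x2) x7)
    (e1_3 : O6 (x1 + x3) x0 x2 x4 x5 x6 x7)
    (e1_4 : O6 (x1 + x4) x0 x2 x3 x5 x6 x7)
    (n1_5_0 : NE (x1 + x5) x0)
    (n1_5_2 : NE (x1 + x5) x2)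
    (n1_5_3 : NE (x1 + x5) x3)
    (n1_5_4 : NE (x1 + x5) x4)
    (n1_5_6 : NE (x1 + x5) x6)
    (n1_5_7 : NE (x1 + x5) x7)
    (n1_6_0 : NE (x1 + x6) x0)
    (n1_6_2 : NE (x1 + x6) x2)
    (n1_6_3 : NE (x1 + x6) x3)
    (n1_6_4 : NE (x1 + x6) x4)
    (n1_6_5 : NE (x1 + x6) x5)
    (n1_6_7 : NE (x1 + x6) x7)
    (n1_7_0 : NE (x1 + x7) x0)
    (n1_7_2 : NE (x1 + x7) x2)
    (n1_7_3 : NE (x1 + x7) x3)
    (n1_7_4 : NE (x1 + x7) x4)
    (n1_7_5 : NE (x1 + x7) x5)
    (n1_7_6 : NE (x1 + x7) x6)
    (e2_3 : O6 (x2 + x3) x0 x1 x4 x5 x6 x7)
    (e2_4 : O6 (x2 + x4) x0 x1 x3 x5 x6 x7)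
    (n2_5_0 : NE (x2 + x5) x0)
    (n2_5_3 : NE (x2 + x5) x3)
    (n2_5_6 : NE (x2 + x5) x6)
    (n2_5_7 : NE (x2 + x5) x7)
    (n2_6_3 : NE (x2 + x6) x3)
    (n2_6_5 : NE (x2 + x6) x5)
    (n2_6_7 : NE (x2 + x6) x7)
    (n2_7_3 : NE (x2 + x7) x3)
    (n2_7_5 : NE (x2 + x7) x5)
    (n2_7_6 : NE (x2 + x7) x6)
    (n3_4_1 : NE (x3 + x4) x1)
    (n3_4_2 : NE (x3 + x4) x2)
    (n3_4_6 : NE (x3 + x4) x6)
    (n3_4_7 : NE (x3 + x4) x7)
    (n3_5_0 : NE (x3 + x5) x0)
    (n3_5_2 : NE (x3 + x5) x2)
    (n3_5_6 : NE (x3 + x5) x6)
    (n3_5_7 : NE (x3 + x5) x7)
    (n3_6_0 : NE (x3 + x6) x0)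
    (n3_6_2 : NE (x3 + x6) x2)
    (n3_6_4 : NE (x3 + x6) x4)
    (n3_6_5 : NE (x3 + x6) x5)
    (n3_6_7 : NE (x3 + x6) x7)
    (n3_7_0 : NE (x3 + x7) x0)
    (n3_7_2 : NE (x3 + x7) x2)
    (n3_7_4 : NE (x3 + x7) x4)
    (n3_7_5 : NE (x3 + x7) x5)
    (n3_7_6 : NE (x3 + x7) x6)
    (n4_5_3 : NE (x4 + x5) x3)
    (n4_5_6 : NE (x4 + x5) x6)
    (n4_5_7 : NE (x4 + x5) x7)
    (n4_6_0 : NE (x4 + x6) x0)
    (n4_6_1 : NE (x4 + x6) x1)
    (n4_6_5 : NE (x4 + x6) x5)
    (n4_6_7 : NE (x4 + x6) x7)
    (n4_7_0 : NE (x4 + x7) x0)
    (n4_7_1 : NE (x4 + x7) x1)
    (n4_7_5 : NE (x4 + x7) x5)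
    (n4_7_6 : NE (x4 + x7) x6)
    : False := by
  rcases e1_3 with h | h | h | h | h | h
  · omega
  · rcases e2_4 with h | h | h | h | h | h
    · omega
    · omega
    · omega
    · rcases e1_4 with h | h | h | h | h | h
      · exact n0_3_5 (by omega)
      · exact d3_4 (by omega)
      · rcases e2_3 with h | h | h | h | h | h
        · exact n1_5_0 (by omega)
        · exact d1_2 (by omega)
        · exact n1_5_4 (by omega)
        · exact n1_2_3 (by omega)
        · exact n1_5_6 (by omega)
        · exact n1_5_7 (by omega)
      · exact d1_2 (by omega)
      · exact n3_6_5 (by omega)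
      · exact n3_7_5 (by omega)
    · rcases e1_4 with h | h | h | h | h | h
      · exact n0_3_6 (by omega)
      · exact d3_4 (by omega)
      · rcases e2_3 with h | h | h | h | h | h
        · exact n1_6_0 (by omega)
        · exact d1_2 (by omega)
        · exact n1_6_4 (by omega)
        · exact n1_6_5 (by omega)
        · exact n1_2_3 (by omega)
        · exact n1_6_7 (by omega)
      · exact n3_5_6 (by omega)
      · exact d1_2 (by omega)
      · exact n3_7_6 (by omega)
    · rcases e1_4 with h | h | h | h | h | h
      · exact n0_3_7 (by omega)
      · exact d3_4 (by omega)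
      · rcases e2_3 with h | h | h | h | h | h
        · exact n1_7_0 (by omega)
        · exact d1_2 (by omega)
        · exact n1_7_4 (by omega)
        · exact n1_7_5 (by omega)
        · exact n1_7_6 (by omega)
        · exact n1_2_3 (by omega)
      · exact n3_5_7 (by omega)
      · exact n3_6_7 (by omega)
      · exact d1_2 (by omega)
  · rcases e2_4 with h | h | h | h | h | h
    · omega
    · omega
    · omega
    · rcases e2_3 with h | h | h | h | h | h
      · omega
      · rcases e1_4 with h | h | h | h | h | h
        · exact n3_5_0 (by omega)
        · exact n3_5_2 (by omega)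
        · exact d1_5 (by omega)
        · exact d1_2 (by omega)
        · exact n3_5_6 (by omega)
        · exact n3_5_7 (by omega)
      · exact d1_2 (by omega)
      · exact d3_4 (by omega)
      · exact n1_6_5 (by omega)
      · exact n1_7_5 (by omega)
    · rcases e2_3 with h | h | h | h | h | h
      · omega
      · rcases e1_4 with h | h | h | h | h | h
        · exact n3_6_0 (by omega)
        · exact n3_6_2 (by omega)
        · exact d1_6 (by omega)
        · exact n3_6_5 (by omega)
        · exact d1_2 (by omega)
        · exact n3_6_7 (by omega)
      · exact d1_2 (by omega)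
      · exact n1_5_6 (by omega)
      · exact d3_4 (by omega)
      · exact n1_7_6 (by omega)
    · rcases e2_3 with h | h | h | h | h | h
      · omega
      · rcases e1_4 with h | h | h | h | h | h
        · exact n3_7_0 (by omega)
        · exact n3_7_2 (by omega)
        · exact d1_7 (by omega)
        · exact n3_7_5 (by omega)
        · exact n3_7_6 (by omega)
        · exact d1_2 (by omega)
      · exact d1_2 (by omega)
      · exact n1_5_7 (by omega)
      · exact n1_6_7 (by omega)
      · exact d3_4 (by omega)
  · rcases e0_5 with h | h | h | h | h | h
    · omega
    · rcases e0_1 with h | h | h | h | h | h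
      · exact d1_5 (by omega)
      · rcases e1_4 with h | h | h | h | h | h
        · omega
        · exact n0_3_4 (by omega)
        · exact d0_4 (by omega)
        · exact d3_4 (by omega)
        · rcases e2_4 with h | h | h | h | h | h
          · exact n2_6_3 (by omega)
          · omega
          · exact n2_6_5 (by omega)
          · exact n0_6_1 (by omega)
          · exact d1_2 (by omega)
          · rcases e0_4 with h | h | h | h | h | h
            · exact n1_5_7 (by omega)
            · exact n1_5_6 (by omega)
            · exact n0_6_5 (by omega)
            · rcases e2_3 with h | h | h | h | h | h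
              · omega
              · omega
              · exact n0_7_6 (by omega)
              · exact d1_2 (by omega)
              · omega
              · exact d0_1 (by omega)
            · exact d0_1 (by omega)
            · omega
        · rcases e2_4 with h | h | h | h | h | h
          · exact n2_7_3 (by omega)
          · omega
          · exact n2_7_5 (by omega)
          · exact n0_7_1 (by omega)
          · rcases e0_4 with h | h | h | h | h | h
            · exact n1_5_6 (by omega)
            · exact n1_5_7 (by omega)
            · exact n0_7_5 (by omega)
            · rcases e2_3 with h | h | h | h | h | h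
              · omega
              · omega
              · exact n0_6_7 (by omega)
              · exact d1_2 (by omega)
              · exact d0_1 (by omega)
              · omega
            · omega
            · exact d0_1 (by omega)
          · exact d1_2 (by omega)
      · exact n3_4_2 (by omega)
      · exact d0_3 (by omega)
      · exact n3_6_2 (by omega)
      · exact n3_7_2 (by omega)
    · omega
    · rcases e0_1 with h | h | h | h | h | h
      · rcases e1_4 with h | h | h | h | h | h
        · exact n2_5_0 (by omega)
        · exact d0_4 (by omega)
        · omega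
        · exact d3_4 (by omega)
        · exact n2_5_6 (by omega)
        · exact n2_5_7 (by omega)
      · rcases e1_4 with h | h | h | h | h | h
        · omega
        · exact n3_5_2 (by omega)
        · omega
        · exact d1_5 (by omega)
        · exact n3_5_6 (by omega)
        · exact n3_5_7 (by omega)
      · exact d1_5 (by omega)
      · exact d0_3 (by omega)
      · exact n3_6_4 (by omega)
      · exact n3_7_4 (by omega)
    · rcases e0_1 with h | h | h | h | h | h
      · rcases e1_4 with h | h | h | h | h | h
        · omega
        · exact d0_4 (by omega)
        · rcases e2_4 with h | h | h | h | h | h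
          · exact d1_5 (by omega)
          · exact n0_3_1 (by omega)
          · omega
          · exact d0_1 (by omega)
          · exact d0_2 (by omega)
          · exact n0_3_7 (by omega)
        · exact d3_4 (by omega)
        · exact n0_3_4 (by omega)
        · rcases e2_4 with h | h | h | h | h | h
          · exact n4_5_3 (by omega)
          · exact n0_7_1 (by omega)
          · exact n0_7_3 (by omega)
          · exact n0_7_5 (by omega)
          · exact n0_7_6 (by omega)
          · omega
      · rcases e1_4 with h | h | h | h | h | h
        · omega
        · rcases e0_2 with h | h | h | h | h | h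
          · exact n3_4_1 (by omega)
          · exact d1_2 (by omega)
          · exact d1_5 (by omega)
          · exact d1_4 (by omega)
          · exact d2_5 (by omega)
          · exact n3_4_7 (by omega)
        · exact d0_4 (by omega)
        · exact d3_4 (by omega)
        · exact n0_3_4 (by omega)
        · rcases e2_3 with h | h | h | h | h | h
          · exact n2_5_3 (by omega)
          · exact n2_6_5 (by omega)
          · exact n2_5_7 (by omega)
          · exact d1_2 (by omega)
          · exact n1_2_5 (by omega)
          · rcases e2_4 with h | h | h | h | h | h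
            · exact d0_4 (by omega)
            · exact n4_7_5 (by omega)
            · exact n2_7_5 (by omega)
            · exact n0_7_6 (by omega)
            · omega
            · exact n0_7_6 (by omega)
      · exact n3_4_6 (by omega)
      · exact d0_3 (by omega)
      · exact d1_5 (by omega)
      · exact n3_7_6 (by omega)
    · rcases e0_1 with h | h | h | h | h | h
      · rcases e1_4 with h | h | h | h | h | h
        · omega
        · exact d0_4 (by omega)
        · rcases e2_4 with h | h | h | h | h | h
          · exact d1_5 (by omega)
          · exact n0_3_1 (by omega)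
          · omega
          · exact d0_1 (by omega)
          · exact n0_3_6 (by omega)
          · exact d0_2 (by omega)
        · exact d3_4 (by omega)
        · rcases e2_4 with h | h | h | h | h | h
          · exact n4_5_3 (by omega)
          · exact n0_6_1 (by omega)
          · exact n0_6_3 (by omega)
          · exact n0_6_5 (by omega)
          · omega
          · exact n0_6_7 (by omega)
        · exact n0_3_4 (by omega)
      · rcases e1_4 with h | h | h | h | h | h
        · omega
        · rcases e0_2 with h | h | h | h | h | h
          · exact n3_4_1 (by omega)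
          · exact d1_2 (by omega)
          · exact d1_5 (by omega)
          · exact d1_4 (by omega)
          · exact n3_4_6 (by omega)
          · exact d2_5 (by omega)
        · exact d0_4 (by omega)
        · exact d3_4 (by omega)
        · rcases e2_3 with h | h | h | h | h | h
          · exact n2_5_3 (by omega)
          · exact n2_7_5 (by omega)
          · exact n2_5_6 (by omega)
          · exact d1_2 (by omega)
          · rcases e2_4 with h | h | h | h | h | h
            · exact d0_4 (by omega)
            · exact n4_6_5 (by omega)
            · exact n2_6_5 (by omega)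
            · exact n0_6_7 (by omega)
            · exact n0_6_7 (by omega)
            · omega
          · exact n1_2_5 (by omega)
        · exact n0_3_4 (by omega)
      · exact n3_4_7 (by omega)
      · exact d0_3 (by omega)
      · exact n3_6_7 (by omega)
      · exact d1_5 (by omega)
  · rcases e1_4 with h | h | h | h | h | h
    · omega
    · rcases e2_3 with h | h | h | h | h | h
      · exact n4_6_0 (by omega)
      · exact n4_6_1 (by omega)
      · omega
      · exact n4_6_5 (by omega)
      · exact d1_2 (by omega)
      · exact n4_6_7 (by omega)
    · rcases e2_3 with h | h | h | h | h | h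
      · omega
      · omega
      · exact n2_6_3 (by omega)
      · rcases e2_4 with h | h | h | h | h | h
        · omega
        · exact n4_5_6 (by omega)
        · exact d1_2 (by omega)
        · exact n1_6_3 (by omega)
        · exact n1_6_5 (by omega)
        · exact n1_7_5 (by omega)
      · exact d1_2 (by omega)
      · rcases e2_4 with h | h | h | h | h | h
        · omega
        · exact n4_7_6 (by omega)
        · exact d1_2 (by omega)
        · exact n1_5_7 (by omega)
        · exact n1_6_7 (by omega)
        · exact n1_6_3 (by omega)
    · rcases e2_3 with h | h | h | h | h | h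
      · omega
      · rcases e2_4 with h | h | h | h | h | h
        · exact n0_3_5 (by omega)
        · exact d3_4 (by omega)
        · exact n2_5_6 (by omega)
        · exact d1_2 (by omega)
        · exact n3_6_5 (by omega)
        · exact n3_7_5 (by omega)
      · exact n2_6_5 (by omega)
      · rcases e2_4 with h | h | h | h | h | h
        · omega
        · exact n4_5_6 (by omega)
        · exact n2_5_6 (by omega)
        · exact d1_2 (by omega)
        · exact d1_2 (by omega)
        · rcases e0_5 with h | h | h | h | h | h
          · exact n0_7_2 (by omega)
          · exact n0_6_1 (by omega)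
          · exact n0_7_4 (by omega)
          · exact n0_6_3 (by omega)
          · exact n0_7_5 (by omega)
          · exact n0_3_4 (by omega)
      · exact d1_2 (by omega)
      · rcases e2_4 with h | h | h | h | h | h
        · omega
        · exact n4_7_6 (by omega)
        · exact n2_5_6 (by omega)
        · exact d1_2 (by omega)
        · rcases e0_4 with h | h | h | h | h | h
          · exact n0_3_2 (by omega)
          · rcases e0_5 with h | h | h | h | h | h
            · exact n0_6_2 (by omega)
            · exact n1_5_4 (by omega)
            · exact n1_2_3 (by omega)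
            · exact n0_6_3 (by omega)
            · exact n0_6_7 (by omega)
            · omega
          · exact n0_6_7 (by omega)
          · exact d0_1 (by omega)
          · exact d0_2 (by omega)
          · rcases e0_5 with h | h | h | h | h | h
            · exact n0_6_2 (by omega)
            · exact n1_7_2 (by omega)
            · omega
            · exact n0_6_3 (by omega)
            · exact n0_6_3 (by omega)
            · omega
        · exact d3_4 (by omega)
    · exact d3_4 (by omega)
    · rcases e2_3 with h | h | h | h | h | h
      · omega
      · rcases e2_4 with h | h | h | h | h | h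
        · exact n0_3_7 (by omega)
        · exact d3_4 (by omega)
        · exact n2_7_6 (by omega)
        · exact n3_5_7 (by omega)
        · exact n3_6_7 (by omega)
        · exact d1_2 (by omega)
      · exact n2_6_7 (by omega)
      · rcases e2_4 with h | h | h | h | h | h
        · omega
        · exact n4_5_6 (by omega)
        · exact n2_7_6 (by omega)
        · exact d3_4 (by omega)
        · rcases e0_4 with h | h | h | h | h | h
          · exact n0_3_2 (by omega)
          · rcases e0_5 with h | h | h | h | h | h
            · exact n2_5_7 (by omega)
            · exact n0_6_1 (by omega)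
            · exact n0_6_4 (by omega)
            · omega
            · exact n0_3_4 (by omega)
            · omega
          · exact n0_6_5 (by omega)
          · rcases e0_1 with h | h | h | h | h | h
            · exact n0_6_3 (by omega)
            · exact n1_2_4 (by omega)
            · rcases e0_5 with h | h | h | h | h | h
              · omega
              · exact n0_6_1 (by omega)
              · exact n0_6_4 (by omega)
              · omega
              · exact n0_3_4 (by omega)
              · omega
            · exact n1_2_6 (by omega)
            · exact d0_3 (by omega)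
            · exact d0_4 (by omega)
          · exact d0_2 (by omega)
          · exact d0_1 (by omega)
        · exact d1_2 (by omega)
      · exact d1_2 (by omega)
      · rcases e2_4 with h | h | h | h | h | h
        · omega
        · exact n4_7_6 (by omega)
        · exact n2_7_6 (by omega)
        · rcases e0_4 with h | h | h | h | h | h
          · rcases e0_5 with h | h | h | h | h | h
            · exact n1_5_3 (by omega)
            · exact n0_7_1 (by omega)
            · exact n1_2_3 (by omega)
            · exact n0_7_3 (by omega)
            · omega
            · exact n0_7_6 (by omega)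
          · exact n0_3_1 (by omega)
          · exact n0_7_6 (by omega)
          · exact d0_2 (by omega)
          · rcases e0_5 with h | h | h | h | h | h
            · exact n1_5_2 (by omega)
            · exact n0_7_1 (by omega)
            · omega
            · exact n0_7_3 (by omega)
            · omega
            · exact n0_7_3 (by omega)
          · exact d0_1 (by omega)
        · exact d1_2 (by omega)
        · exact d1_2 (by omega)
  · rcases e1_4 with h | h | h | h | h | h
    · omega
    · rcases e2_3 with h | h | h | h | h | h
      · exact n4_7_0 (by omega)
      · exact n4_7_1 (by omega)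
      · omega
      · exact n4_7_5 (by omega)
      · exact n4_7_6 (by omega)
      · exact d1_2 (by omega)
    · rcases e2_3 with h | h | h | h | h | h
      · omega
      · omega
      · exact n2_7_3 (by omega)
      · rcases e2_4 with h | h | h | h | h | h
        · omega
        · exact n4_5_7 (by omega)
        · exact d1_2 (by omega)
        · exact n1_7_3 (by omega)
        · exact n1_6_5 (by omega)
        · exact n1_7_5 (by omega)
      · rcases e2_4 with h | h | h | h | h | h
        · omega
        · exact n4_6_7 (by omega)
        · exact d1_2 (by omega)
        · exact n1_5_6 (by omega)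
        · exact n1_7_3 (by omega)
        · exact n1_7_6 (by omega)
      · exact d1_2 (by omega)
    · rcases e2_3 with h | h | h | h | h | h
      · omega
      · rcases e2_4 with h | h | h | h | h | h
        · exact n0_3_5 (by omega)
        · exact d3_4 (by omega)
        · exact n2_5_7 (by omega)
        · exact d1_2 (by omega)
        · exact n3_6_5 (by omega)
        · exact n3_7_5 (by omega)
      · exact n2_7_5 (by omega)
      · rcases e2_4 with h | h | h | h | h | h
        · omega
        · exact n4_5_7 (by omega)
        · exact n2_5_7 (by omega)
        · exact d1_2 (by omega)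
        · rcases e0_5 with h | h | h | h | h | h
          · exact n0_6_2 (by omega)
          · exact n0_7_1 (by omega)
          · exact n0_6_4 (by omega)
          · exact n0_7_3 (by omega)
          · exact n0_3_4 (by omega)
          · exact n0_6_5 (by omega)
        · exact d1_2 (by omega)
      · rcases e2_4 with h | h | h | h | h | h
        · omega
        · exact n4_6_7 (by omega)
        · exact n2_5_7 (by omega)
        · exact d1_2 (by omega)
        · exact d3_4 (by omega)
        · rcases e0_4 with h | h | h | h | h | h
          · exact n0_3_2 (by omega)
          · rcases e0_5 with h | h | h | h | h | h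
            · exact n0_7_2 (by omega)
            · exact n1_5_4 (by omega)
            · exact n1_2_3 (by omega)
            · exact n0_7_3 (by omega)
            · omega
            · exact n0_7_6 (by omega)
          · exact n0_7_6 (by omega)
          · exact d0_1 (by omega)
          · rcases e0_5 with h | h | h | h | h | h
            · exact n0_7_2 (by omega)
            · exact n1_6_2 (by omega)
            · omega
            · exact n0_7_3 (by omega)
            · omega
            · exact n0_7_3 (by omega)
          · exact d0_2 (by omega)
      · exact d1_2 (by omega)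
    · rcases e2_3 with h | h | h | h | h | h
      · omega
      · rcases e2_4 with h | h | h | h | h | h
        · exact n0_3_6 (by omega)
        · exact d3_4 (by omega)
        · exact n2_6_7 (by omega)
        · exact n3_5_6 (by omega)
        · exact d1_2 (by omega)
        · exact n3_7_6 (by omega)
      · exact n2_7_6 (by omega)
      · rcases e2_4 with h | h | h | h | h | h
        · omega
        · exact n4_5_7 (by omega)
        · exact n2_6_7 (by omega)
        · exact d3_4 (by omega)
        · exact d1_2 (by omega)
        · rcases e0_4 with h | h | h | h | h | h
          · exact n0_3_2 (by omega)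
          · rcases e0_5 with h | h | h | h | h | h
            · exact n2_5_6 (by omega)
            · exact n0_7_1 (by omega)
            · exact n0_7_4 (by omega)
            · omega
            · omega
            · exact n0_3_4 (by omega)
          · exact n0_6_7 (by omega)
          · rcases e0_1 with h | h | h | h | h | h
            · exact n0_6_4 (by omega)
            · exact n1_2_4 (by omega)
            · rcases e0_5 with h | h | h | h | h | h
              · omega
              · exact n0_7_1 (by omega)
              · exact n0_7_4 (by omega)
              · omega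
              · omega
              · exact n0_3_4 (by omega)
            · exact n1_2_7 (by omega)
            · exact d0_4 (by omega)
            · exact d0_3 (by omega)
          · exact d0_1 (by omega)
          · exact d0_2 (by omega)
      · rcases e2_4 with h | h | h | h | h | h
        · omega
        · exact n4_6_7 (by omega)
        · exact n2_6_7 (by omega)
        · rcases e0_4 with h | h | h | h | h | h
          · rcases e0_5 with h | h | h | h | h | h
            · exact n1_5_3 (by omega)
            · exact n0_6_1 (by omega)
            · exact n1_2_3 (by omega)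
            · exact n0_6_3 (by omega)
            · exact n0_6_7 (by omega)
            · omega
          · exact n0_3_1 (by omega)
          · exact n0_6_7 (by omega)
          · exact d0_2 (by omega)
          · exact d0_1 (by omega)
          · rcases e0_5 with h | h | h | h | h | h
            · exact n1_5_2 (by omega)
            · exact n0_6_1 (by omega)
            · omega
            · exact n0_6_3 (by omega)
            · exact n0_6_3 (by omega)
            · omega
        · exact d1_2 (by omega)
        · exact d1_2 (by omega)
      · exact d1_2 (by omega)
    · exact d3_4 (by omega)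

theorem c1 (x0 x1 x2 x3 x4 x5 x6 x7 : ℕ) (h1 : x1 = 1)
    (p0 : 2 ≤ x0) (p2 : 2 ≤ x2) (p3 : 2 ≤ x3) (p4 : 2 ≤ x4) (p5 : 2 ≤ x5) (p6 : 2 ≤ x6) (p7 : 2 ≤ x7)
    (d0_1 : NE x0 x1)
    (d0_2 : NE x0 x2)
    (d0_3 : NE x0 x3)
    (d0_4 : NE x0 x4)
    (d0_5 : NE x0 x5)
    (d0_6 : NE x0 x6)
    (d0_7 : NE x0 x7)
    (d1_2 : NE x1 x2)
    (d1_4 : NE x1 x4)
    (d1_5 : NE x1 x5)
    (d2_4 : NE x2 x4)
    (d2_5 : NE x2 x5)
    (d4_5 : NE x4 x5)
    (e0_1 : O6 (x0 + x1) x2 x3 x4 x5 x6 x7)
    (e0_2 : O6 (x0 + x2) x1 x3 x4 x5 x6 x7)
    (n0_3_1 : NE (x0 + x3) x1)
    (n0_3_2 : NE (x0 + x3) x2)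
    (n0_3_4 : NE (x0 + x3) x4)
    (n0_3_5 : NE (x0 + x3) x5)
    (n0_3_6 : NE (x0 + x3) x6)
    (n0_3_7 : NE (x0 + x3) x7)
    (e0_4 : O6 (x0 + x4) x1 x2 x3 x5 x6 x7)
    (e0_5 : O6 (x0 + x5) x1 x2 x3 x4 x6 x7)
    (n0_6_1 : NE (x0 + x6) x1)
    (n0_6_2 : NE (x0 + x6) x2)
    (n0_6_3 : NE (x0 + x6) x3)
    (n0_6_4 : NE (x0 + x6) x4)
    (n0_6_5 : NE (x0 + x6) x5)
    (n0_6_7 : NE (x0 + x6) x7)
    (n0_7_1 : NE (x0 + x7) x1)
    (n0_7_2 : NE (x0 + x7) x2)
    (n0_7_3 : NE (x0 + x7) x3)
    (n0_7_4 : NE (x0 + x7) x4)
    (n0_7_5 : NE (x0 + x7) x5)
    (n0_7_6 : NE (x0 + x7) x6)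
    (n1_2_0 : NE (x1 + x2) x0)
    (n1_2_4 : NE (x1 + x2) x4)
    (n1_2_5 : NE (x1 + x2) x5)
    (e1_3 : O6 (x1 + x3) x0 x2 x4 x5 x6 x7)
    (e1_4 : O6 (x1 + x4) x0 x2 x3 x5 x6 x7)
    (n1_5_0 : NE (x1 + x5) x0)
    (n1_5_2 : NE (x1 + x5) x2)
    (n1_5_3 : NE (x1 + x5) x3)
    (n1_5_4 : NE (x1 + x5) x4)
    (n1_5_6 : NE (x1 + x5) x6)
    (n1_5_7 : NE (x1 + x5) x7)
    (n1_6_0 : NE (x1 + x6) x0)
    (n1_6_3 : NE (x1 + x6) x3)
    (n1_6_4 : NE (x1 + x6) x4)
    (n1_6_5 : NE (x1 + x6) x5)
    (n1_6_7 : NE (x1 + x6) x7)
    (n1_7_0 : NE (x1 + x7) x0)
    (n1_7_3 : NE (x1 + x7) x3)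
    (n1_7_5 : NE (x1 + x7) x5)
    (n1_7_6 : NE (x1 + x7) x6)
    (e2_3 : O6 (x2 + x3) x0 x1 x4 x5 x6 x7)
    (e2_4 : O6 (x2 + x4) x0 x1 x3 x5 x6 x7)
    (n2_5_0 : NE (x2 + x5) x0)
    (n2_5_1 : NE (x2 + x5) x1)
    (n2_5_3 : NE (x2 + x5) x3)
    (n2_5_4 : NE (x2 + x5) x4)
    (n2_5_6 : NE (x2 + x5) x6)
    (n2_5_7 : NE (x2 + x5) x7)
    (n2_6_3 : NE (x2 + x6) x3)
    (n2_6_4 : NE (x2 + x6) x4)
    (n2_6_5 : NE (x2 + x6) x5)
    (n2_6_7 : NE (x2 + x6) x7)
    (n2_7_3 : NE (x2 + x7) x3)
    (n2_7_4 : NE (x2 + x7) x4)
    (n2_7_5 : NE (x2 + x7) x5)
    (n2_7_6 : NE (x2 + x7) x6)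
    (n3_4_1 : NE (x3 + x4) x1)
    (n3_4_2 : NE (x3 + x4) x2)
    (n3_4_5 : NE (x3 + x4) x5)
    (n3_4_6 : NE (x3 + x4) x6)
    (n3_4_7 : NE (x3 + x4) x7)
    (n3_5_0 : NE (x3 + x5) x0)
    (n3_5_1 : NE (x3 + x5) x1)
    (n3_5_2 : NE (x3 + x5) x2)
    (n3_5_4 : NE (x3 + x5) x4)
    (n3_5_6 : NE (x3 + x5) x6)
    (n3_5_7 : NE (x3 + x5) x7)
    (n3_6_1 : NE (x3 + x6) x1)
    (n3_6_2 : NE (x3 + x6) x2)
    (n3_6_4 : NE (x3 + x6) x4)
    (n3_6_5 : NE (x3 + x6) x5)
    (n3_6_7 : NE (x3 + x6) x7)
    (n3_7_1 : NE (x3 + x7) x1)
    (n3_7_2 : NE (x3 + x7) x2)
    (n3_7_4 : NE (x3 + x7) x4)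
    (n3_7_5 : NE (x3 + x7) x5)
    (n3_7_6 : NE (x3 + x7) x6)
    (n4_5_0 : NE (x4 + x5) x0)
    (n4_5_1 : NE (x4 + x5) x1)
    (n4_5_2 : NE (x4 + x5) x2)
    (n4_5_3 : NE (x4 + x5) x3)
    (n4_5_6 : NE (x4 + x5) x6)
    (n4_5_7 : NE (x4 + x5) x7)
    (n4_6_0 : NE (x4 + x6) x0)
    (n4_6_1 : NE (x4 + x6) x1)
    (n4_6_5 : NE (x4 + x6) x5)
    (n4_6_7 : NE (x4 + x6) x7)
    (n4_7_0 : NE (x4 + x7) x0)
    (n4_7_1 : NE (x4 + x7) x1)
    (n4_7_5 : NE (x4 + x7) x5)
    (n4_7_6 : NE (x4 + x7) x6)
    (n5_6_0 : NE (x5 + x6) x0)
    (n5_6_1 : NE (x5 + x6) x1)
    (n5_6_3 : NE (x5 + x6) x3)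
    (n5_6_7 : NE (x5 + x6) x7)
    (n5_7_0 : NE (x5 + x7) x0)
    (n5_7_1 : NE (x5 + x7) x1)
    (n5_7_3 : NE (x5 + x7) x3)
    (n5_7_6 : NE (x5 + x7) x6)
    : False := by
  rcases e0_2 with h | h | h | h | h | h
  · omega
  · rcases e0_4 with h | h | h | h | h | h
    · omega
    · rcases e0_5 with h | h | h | h | h | h
      · omega
      · exact d4_5 (by omega)
      · exact d2_5 (by omega)
      · rcases e2_4 with h | h | h | h | h | h
        · exact d0_2 (by omega)
        · exact n3_5_1 (by omega)
        · exact d0_4 (by omega)
        · omega
        · exact n3_5_6 (by omega)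
        · exact n3_5_7 (by omega)
      · rcases e1_3 with h | h | h | h | h | h
        · omega
        · exact n1_2_4 (by omega)
        · omega
        · rcases e0_1 with h | h | h | h | h | h
          · exact d1_4 (by omega)
          · exact d1_2 (by omega)
          · exact n3_4_6 (by omega)
          · exact d0_3 (by omega)
          · exact d1_5 (by omega)
          · exact n2_7_5 (by omega)
        · exact n1_2_5 (by omega)
        · rcases e0_1 with h | h | h | h | h | h
          · exact d1_4 (by omega)
          · exact d1_2 (by omega)
          · rcases e1_4 with h | h | h | h | h | h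
            · omega
            · exact d0_1 (by omega)
            · omega
            · exact n0_6_7 (by omega)
            · rcases e2_3 with h | h | h | h | h | h
              · omega
              · omega
              · omega
              · exact n0_3_1 (by omega)
              · exact n0_3_1 (by omega)
              · exact n0_3_1 (by omega)
            · exact n0_3_1 (by omega)
          · exact n2_5_7 (by omega)
          · exact d1_5 (by omega)
          · exact d0_3 (by omega)
      · rcases e1_3 with h | h | h | h | h | h
        · omega
        · exact n1_2_4 (by omega)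
        · omega
        · rcases e0_1 with h | h | h | h | h | h
          · exact d1_4 (by omega)
          · exact d1_2 (by omega)
          · exact n3_4_7 (by omega)
          · exact d0_3 (by omega)
          · exact n2_6_5 (by omega)
          · exact d1_5 (by omega)
        · rcases e0_1 with h | h | h | h | h | h
          · exact d1_4 (by omega)
          · exact d1_2 (by omega)
          · rcases e1_4 with h | h | h | h | h | h
            · omega
            · exact d0_1 (by omega)
            · omega
            · exact n0_7_6 (by omega)
            · exact n0_3_1 (by omega)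
            · rcases e2_3 with h | h | h | h | h | h
              · omega
              · omega
              · omega
              · exact n0_3_1 (by omega)
              · exact n0_3_1 (by omega)
              · exact n0_3_1 (by omega)
          · exact n2_5_6 (by omega)
          · exact d0_3 (by omega)
          · exact d1_5 (by omega)
        · exact n1_2_5 (by omega)
    · exact d2_4 (by omega)
    · rcases e0_5 with h | h | h | h | h | h
      · omega
      · rcases e1_3 with h | h | h | h | h | h
        · omega
        · exact n1_2_5 (by omega)
        · omega
        · omega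
        · rcases e0_1 with h | h | h | h | h | h
          · exact d1_5 (by omega)
          · exact d1_2 (by omega)
          · rcases e1_4 with h | h | h | h | h | h
            · omega
            · omega
            · omega
            · exact d0_1 (by omega)
            · exact n0_3_1 (by omega)
            · rcases e2_3 with h | h | h | h | h | h
              · omega
              · omega
              · omega
              · omega
              · exact n0_3_1 (by omega)
              · exact n0_3_1 (by omega)
          · exact d1_4 (by omega)
          · exact d0_3 (by omega)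
          · exact n2_7_6 (by omega)
        · rcases e0_1 with h | h | h | h | h | h
          · exact d1_5 (by omega)
          · exact d1_2 (by omega)
          · rcases e1_4 with h | h | h | h | h | h
            · omega
            · omega
            · omega
            · exact d0_1 (by omega)
            · rcases e2_3 with h | h | h | h | h | h
              · omega
              · omega
              · omega
              · omega
              · exact n0_3_1 (by omega)
              · exact n0_3_1 (by omega)
            · exact n0_3_1 (by omega)
          · exact d1_4 (by omega)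
          · exact n2_6_7 (by omega)
          · exact d0_3 (by omega)
      · exact d2_5 (by omega)
      · exact n0_3_2 (by omega)
      · rcases e1_3 with h | h | h | h | h | h
        · omega
        · exact n1_5_4 (by omega)
        · rcases e0_1 with h | h | h | h | h | h
          · rcases e2_4 with h | h | h | h | h | h
            · omega
            · omega
            · exact d0_4 (by omega)
            · omega
            · exact d0_1 (by omega)
            · exact n1_5_7 (by omega)
          · exact d1_2 (by omega)
          · exact d0_3 (by omega)
          · exact d1_4 (by omega)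
          · exact d1_5 (by omega)
          · exact n2_7_4 (by omega)
        · exact n1_2_4 (by omega)
        · exact n1_2_5 (by omega)
        · rcases e0_1 with h | h | h | h | h | h
          · rcases e2_3 with h | h | h | h | h | h
            · exact d0_3 (by omega)
            · omega
            · exact n0_7_4 (by omega)
            · exact n0_7_5 (by omega)
            · exact n0_7_6 (by omega)
            · exact n0_3_1 (by omega)
          · exact d1_2 (by omega)
          · rcases e1_4 with h | h | h | h | h | h
            · omega
            · exact n1_5_3 (by omega)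
            · rcases e2_3 with h | h | h | h | h | h
              · omega
              · exact n2_5_0 (by omega)
              · omega
              · exact n1_2_0 (by omega)
              · omega
              · omega
            · exact d0_1 (by omega)
            · omega
            · exact n0_3_5 (by omega)
          · exact d1_4 (by omega)
          · exact d1_5 (by omega)
          · exact d0_3 (by omega)
      · rcases e1_3 with h | h | h | h | h | h
        · omega
        · exact n1_5_4 (by omega)
        · rcases e0_1 with h | h | h | h | h | h
          · rcases e2_4 with h | h | h | h | h | h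
            · omega
            · omega
            · exact d0_4 (by omega)
            · omega
            · exact n1_5_6 (by omega)
            · exact d0_1 (by omega)
          · exact d1_2 (by omega)
          · exact d0_3 (by omega)
          · exact d1_4 (by omega)
          · exact n2_6_4 (by omega)
          · exact d1_5 (by omega)
        · exact n1_2_4 (by omega)
        · rcases e0_1 with h | h | h | h | h | h
          · rcases e2_3 with h | h | h | h | h | h
            · exact d0_3 (by omega)
            · omega
            · exact n0_6_4 (by omega)
            · exact n0_6_5 (by omega)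
            · exact n0_3_1 (by omega)
            · exact n0_6_7 (by omega)
          · exact d1_2 (by omega)
          · rcases e1_4 with h | h | h | h | h | h
            · omega
            · exact n1_5_3 (by omega)
            · rcases e2_3 with h | h | h | h | h | h
              · omega
              · exact n2_5_0 (by omega)
              · omega
              · exact n1_2_0 (by omega)
              · omega
              · omega
            · exact d0_1 (by omega)
            · exact n0_3_5 (by omega)
            · omega
          · exact d1_4 (by omega)
          · exact d0_3 (by omega)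
          · exact d1_5 (by omega)
        · exact n1_2_5 (by omega)
    · rcases e0_5 with h | h | h | h | h | h
      · omega
      · rcases e2_4 with h | h | h | h | h | h
        · exact n5_6_0 (by omega)
        · exact n5_6_1 (by omega)
        · exact d0_4 (by omega)
        · exact n3_4_2 (by omega)
        · exact d0_2 (by omega)
        · exact n5_6_7 (by omega)
      · exact d2_5 (by omega)
      · rcases e2_4 with h | h | h | h | h | h
        · exact n3_5_0 (by omega)
        · exact n3_5_1 (by omega)
        · exact d0_4 (by omega)
        · exact n2_6_4 (by omega)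
        · exact d0_2 (by omega)
        · exact n3_5_7 (by omega)
      · exact d4_5 (by omega)
      · rcases e1_3 with h | h | h | h | h | h
        · omega
        · exact n1_6_4 (by omega)
        · rcases e0_1 with h | h | h | h | h | h
          · rcases e2_4 with h | h | h | h | h | h
            · omega
            · omega
            · exact d0_4 (by omega)
            · exact n1_6_5 (by omega)
            · omega
            · exact n1_6_7 (by omega)
          · exact d1_2 (by omega)
          · exact d0_3 (by omega)
          · exact n2_5_4 (by omega)
          · exact d1_4 (by omega)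
          · exact d1_5 (by omega)
        · rcases e0_1 with h | h | h | h | h | h
          · rcases e2_4 with h | h | h | h | h | h
            · exact n1_6_0 (by omega)
            · exact n3_4_2 (by omega)
            · exact d0_4 (by omega)
            · exact n1_6_5 (by omega)
            · omega
            · exact n0_3_6 (by omega)
          · exact d1_2 (by omega)
          · exact n2_6_7 (by omega)
          · exact d0_3 (by omega)
          · exact d1_4 (by omega)
          · exact d1_5 (by omega)
        · exact n1_2_4 (by omega)
        · exact n1_2_5 (by omega)
    · rcases e0_5 with h | h | h | h | h | h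
      · omega
      · rcases e2_4 with h | h | h | h | h | h
        · exact n5_7_0 (by omega)
        · exact n5_7_1 (by omega)
        · exact d0_4 (by omega)
        · exact n3_4_2 (by omega)
        · exact n5_7_6 (by omega)
        · exact d0_2 (by omega)
      · exact d2_5 (by omega)
      · rcases e2_4 with h | h | h | h | h | h
        · exact n3_5_0 (by omega)
        · exact n3_5_1 (by omega)
        · exact d0_4 (by omega)
        · exact n2_7_4 (by omega)
        · exact n3_5_6 (by omega)
        · exact d0_2 (by omega)
      · rcases e1_3 with h | h | h | h | h | h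
        · omega
        · exact n1_6_5 (by omega)
        · rcases e0_1 with h | h | h | h | h | h
          · rcases e2_4 with h | h | h | h | h | h
            · omega
            · omega
            · exact d0_4 (by omega)
            · exact n1_7_5 (by omega)
            · exact n1_7_6 (by omega)
            · omega
          · exact d1_2 (by omega)
          · exact d0_3 (by omega)
          · exact n2_5_4 (by omega)
          · exact d1_5 (by omega)
          · exact d1_4 (by omega)
        · rcases e0_1 with h | h | h | h | h | h
          · rcases e2_4 with h | h | h | h | h | h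
            · exact n1_7_0 (by omega)
            · exact n3_4_2 (by omega)
            · exact d0_4 (by omega)
            · exact n1_7_5 (by omega)
            · exact n0_3_7 (by omega)
            · omega
          · exact d1_2 (by omega)
          · exact n2_7_6 (by omega)
          · exact d0_3 (by omega)
          · exact d1_5 (by omega)
          · exact d1_4 (by omega)
        · exact n1_2_5 (by omega)
        · exact n1_2_4 (by omega)
      · exact d4_5 (by omega)
  · rcases e0_4 with h | h | h | h | h | h
    · omega
    · exact d2_4 (by omega)
    · rcases e0_5 with h | h | h | h | h | h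
      · omega
      · rcases e2_4 with h | h | h | h | h | h
        · exact d0_4 (by omega)
        · exact n3_5_1 (by omega)
        · exact d0_2 (by omega)
        · omega
        · exact n3_5_6 (by omega)
        · exact n3_5_7 (by omega)
      · exact d4_5 (by omega)
      · exact d2_5 (by omega)
      · rcases e1_4 with h | h | h | h | h | h
        · omega
        · exact n1_6_5 (by omega)
        · exact d0_1 (by omega)
        · rcases e0_1 with h | h | h | h | h | h
          · rcases e2_3 with h | h | h | h | h | h
            · omega
            · omega
            · omega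
            · exact n0_3_1 (by omega)
            · exact n0_3_1 (by omega)
            · exact n0_6_7 (by omega)
          · exact d1_4 (by omega)
          · exact d1_2 (by omega)
          · exact d0_4 (by omega)
          · exact d0_3 (by omega)
          · exact n2_7_5 (by omega)
        · exact n1_2_5 (by omega)
        · rcases e1_3 with h | h | h | h | h | h
          · omega
          · omega
          · exact n0_7_4 (by omega)
          · exact n0_7_5 (by omega)
          · exact n0_7_6 (by omega)
          · exact n0_3_2 (by omega)
      · rcases e1_4 with h | h | h | h | h | h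
        · omega
        · exact n1_7_5 (by omega)
        · exact d0_1 (by omega)
        · rcases e0_1 with h | h | h | h | h | h
          · rcases e2_3 with h | h | h | h | h | h
            · omega
            · omega
            · omega
            · exact n0_3_1 (by omega)
            · exact n0_7_6 (by omega)
            · exact n0_3_1 (by omega)
          · exact d1_4 (by omega)
          · exact d1_2 (by omega)
          · exact d0_4 (by omega)
          · exact n2_6_5 (by omega)
          · exact d0_3 (by omega)
        · rcases e1_3 with h | h | h | h | h | h
          · omega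
          · omega
          · exact n0_6_4 (by omega)
          · exact n0_6_5 (by omega)
          · exact n0_3_2 (by omega)
          · exact n0_6_7 (by omega)
        · exact n1_2_5 (by omega)
    · rcases e0_5 with h | h | h | h | h | h
      · omega
      · exact d2_4 (by omega)
      · rcases e2_3 with h | h | h | h | h | h
        · exact d0_5 (by omega)
        · exact n4_5_1 (by omega)
        · exact d0_3 (by omega)
        · exact d0_5 (by omega)
        · exact n4_5_6 (by omega)
        · exact n4_5_7 (by omega)
      · exact d2_4 (by omega)
      · rcases e1_4 with h | h | h | h | h | h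
        · omega
        · exact n1_5_4 (by omega)
        · rcases e0_1 with h | h | h | h | h | h
          · rcases e2_4 with h | h | h | h | h | h
            · exact n0_3_4 (by omega)
            · omega
            · exact n0_6_1 (by omega)
            · omega
            · exact d0_1 (by omega)
            · exact n0_3_7 (by omega)
          · exact d0_4 (by omega)
          · exact d1_2 (by omega)
          · exact d1_4 (by omega)
          · exact d1_5 (by omega)
          · exact n2_7_3 (by omega)
        · exact d0_1 (by omega)
        · omega
        · rcases e0_1 with h | h | h | h | h | h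
          · rcases e2_4 with h | h | h | h | h | h
            · exact d0_4 (by omega)
            · omega
            · exact n0_7_3 (by omega)
            · omega
            · exact d0_1 (by omega)
            · exact n0_6_1 (by omega)
          · rcases e2_4 with h | h | h | h | h | h
            · exact d0_4 (by omega)
            · exact n2_5_3 (by omega)
            · omega
            · exact d0_2 (by omega)
            · rcases e1_3 with h | h | h | h | h | h
              · omega
              · exact n1_7_5 (by omega)
              · exact d0_1 (by omega)
              · omega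
              · omega
              · omega
            · exact n0_3_5 (by omega)
          · exact d1_2 (by omega)
          · exact d1_4 (by omega)
          · exact d1_5 (by omega)
          · exact d0_4 (by omega)
      · rcases e1_4 with h | h | h | h | h | h
        · omega
        · exact n1_5_4 (by omega)
        · rcases e0_1 with h | h | h | h | h | h
          · rcases e2_4 with h | h | h | h | h | h
            · exact n0_3_4 (by omega)
            · omega
            · exact n0_7_1 (by omega)
            · omega
            · exact n0_3_6 (by omega)
            · exact d0_1 (by omega)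
          · exact d0_4 (by omega)
          · exact d1_2 (by omega)
          · exact d1_4 (by omega)
          · exact n2_6_3 (by omega)
          · exact d1_5 (by omega)
        · exact d0_1 (by omega)
        · rcases e0_1 with h | h | h | h | h | h
          · rcases e2_4 with h | h | h | h | h | h
            · exact d0_4 (by omega)
            · omega
            · exact n0_6_3 (by omega)
            · omega
            · exact n0_7_1 (by omega)
            · exact d0_1 (by omega)
          · rcases e2_4 with h | h | h | h | h | h
            · exact d0_4 (by omega)
            · exact n2_5_3 (by omega)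
            · omega
            · exact d0_2 (by omega)
            · exact n0_3_5 (by omega)
            · rcases e1_3 with h | h | h | h | h | h
              · omega
              · exact n1_6_5 (by omega)
              · exact d0_1 (by omega)
              · omega
              · omega
              · omega
          · exact d1_2 (by omega)
          · exact d1_4 (by omega)
          · exact d0_4 (by omega)
          · exact d1_5 (by omega)
        · omega
    · rcases e0_5 with h | h | h | h | h | h
      · omega
      · rcases e2_4 with h | h | h | h | h | h
        · exact d0_4 (by omega)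
        · exact n5_6_1 (by omega)
        · exact n5_6_3 (by omega)
        · omega
        · exact d0_2 (by omega)
        · exact n5_6_7 (by omega)
      · rcases e2_3 with h | h | h | h | h | h
        · exact n4_5_0 (by omega)
        · exact n4_5_1 (by omega)
        · exact d0_3 (by omega)
        · exact d0_6 (by omega)
        · exact d0_5 (by omega)
        · exact n4_5_7 (by omega)
      · exact d2_5 (by omega)
      · exact d4_5 (by omega)
      · rcases e1_4 with h | h | h | h | h | h
        · omega
        · exact n1_6_4 (by omega)
        · rcases e0_1 with h | h | h | h | h | h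
          · rcases e2_4 with h | h | h | h | h | h
            · exact n0_3_4 (by omega)
            · omega
            · exact n0_6_1 (by omega)
            · exact n0_3_5 (by omega)
            · omega
            · exact n0_3_7 (by omega)
          · exact d0_4 (by omega)
          · exact d1_2 (by omega)
          · exact n2_5_3 (by omega)
          · exact d1_4 (by omega)
          · exact d1_5 (by omega)
        · exact n1_6_7 (by omega)
        · exact d0_1 (by omega)
        · exact n1_2_5 (by omega)
    · rcases e0_5 with h | h | h | h | h | h
      · omega
      · rcases e2_4 with h | h | h | h | h | h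
        · exact d0_4 (by omega)
        · exact n5_7_1 (by omega)
        · exact n5_7_3 (by omega)
        · omega
        · exact n5_7_6 (by omega)
        · exact d0_2 (by omega)
      · rcases e2_3 with h | h | h | h | h | h
        · exact n4_5_0 (by omega)
        · exact n4_5_1 (by omega)
        · exact d0_3 (by omega)
        · exact d0_7 (by omega)
        · exact n4_5_6 (by omega)
        · exact d0_5 (by omega)
      · exact d2_5 (by omega)
      · rcases e1_4 with h | h | h | h | h | h
        · omega
        · exact n1_6_5 (by omega)
        · rcases e0_1 with h | h | h | h | h | h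
          · rcases e2_4 with h | h | h | h | h | h
            · exact n0_3_4 (by omega)
            · omega
            · exact n0_6_5 (by omega)
            · exact n0_3_5 (by omega)
            · exact n0_3_6 (by omega)
            · omega
          · exact d0_4 (by omega)
          · exact d1_2 (by omega)
          · exact n2_5_3 (by omega)
          · exact d1_5 (by omega)
          · exact d1_4 (by omega)
        · exact n1_7_6 (by omega)
        · exact n1_2_5 (by omega)
        · exact d0_1 (by omega)
      · exact d4_5 (by omega)
  · rcases e0_4 with h | h | h | h | h | h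
    · omega
    · rcases e2_3 with h | h | h | h | h | h
      · omega
      · omega
      · exact n3_5_2 (by omega)
      · exact d0_3 (by omega)
      · rcases e0_1 with h | h | h | h | h | h
        · exact d1_4 (by omega)
        · exact n1_5_6 (by omega)
        · rcases e2_4 with h | h | h | h | h | h
          · exact d0_2 (by omega)
          · omega
          · exact n1_5_3 (by omega)
          · omega
          · exact n0_3_2 (by omega)
          · exact n1_5_7 (by omega)
        · exact d1_2 (by omega)
        · exact n3_4_1 (by omega)
        · rcases e0_5 with h | h | h | h | h | h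
          · omega
          · exact n0_7_1 (by omega)
          · rcases e1_3 with h | h | h | h | h | h
            · exact n1_6_5 (by omega)
            · omega
            · omega
            · exact n1_2_4 (by omega)
            · exact n0_7_3 (by omega)
            · exact d0_3 (by omega)
          · exact n0_7_1 (by omega)
          · exact n3_4_5 (by omega)
          · exact d1_5 (by omega)
      · rcases e0_1 with h | h | h | h | h | h
        · exact d1_4 (by omega)
        · exact n1_5_7 (by omega)
        · rcases e2_4 with h | h | h | h | h | h
          · exact d0_2 (by omega)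
          · omega
          · exact n1_5_3 (by omega)
          · omega
          · exact n1_5_6 (by omega)
          · exact n0_3_2 (by omega)
        · exact d1_2 (by omega)
        · rcases e0_5 with h | h | h | h | h | h
          · omega
          · exact n0_6_1 (by omega)
          · rcases e1_3 with h | h | h | h | h | h
            · exact n1_7_5 (by omega)
            · omega
            · omega
            · exact n1_2_4 (by omega)
            · exact d0_3 (by omega)
            · exact n0_6_3 (by omega)
          · exact n0_6_1 (by omega)
          · exact d1_5 (by omega)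
          · exact n3_4_5 (by omega)
        · exact n3_4_1 (by omega)
    · rcases e2_3 with h | h | h | h | h | h
      · exact n4_5_0 (by omega)
      · exact n4_5_1 (by omega)
      · omega
      · exact d0_3 (by omega)
      · exact n4_5_6 (by omega)
      · exact n4_5_7 (by omega)
    · exact d2_4 (by omega)
    · rcases e0_5 with h | h | h | h | h | h
      · omega
      · exact n0_6_4 (by omega)
      · rcases e2_3 with h | h | h | h | h | h
        · omega
        · omega
        · exact n3_5_6 (by omega)
        · exact d0_3 (by omega)
        · exact n2_5_4 (by omega)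
        · rcases e1_3 with h | h | h | h | h | h
          · exact n1_7_5 (by omega)
          · omega
          · rcases e0_1 with h | h | h | h | h | h
            · exact n2_5_4 (by omega)
            · exact n0_7_4 (by omega)
            · exact d0_3 (by omega)
            · exact n0_7_6 (by omega)
            · exact n0_7_5 (by omega)
            · exact n2_5_1 (by omega)
          · exact n1_5_2 (by omega)
          · exact n1_5_4 (by omega)
          · exact d1_2 (by omega)
      · rcases e1_4 with h | h | h | h | h | h
        · omega
        · omega
        · rcases e0_1 with h | h | h | h | h | h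
          · exact n2_5_3 (by omega)
          · exact d0_4 (by omega)
          · exact d1_5 (by omega)
          · exact d1_2 (by omega)
          · exact d1_4 (by omega)
          · exact n5_7_3 (by omega)
        · exact n1_5_2 (by omega)
        · exact d0_1 (by omega)
        · rcases e0_1 with h | h | h | h | h | h
          · exact n2_5_7 (by omega)
          · exact n3_5_7 (by omega)
          · exact d1_5 (by omega)
          · exact d1_2 (by omega)
          · exact d1_4 (by omega)
          · exact d0_4 (by omega)
      · exact d4_5 (by omega)
      · rcases e0_1 with h | h | h | h | h | h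
        · rcases e2_4 with h | h | h | h | h | h
          · exact n1_6_0 (by omega)
          · exact n4_5_2 (by omega)
          · exact n1_6_3 (by omega)
          · exact d0_4 (by omega)
          · omega
          · exact n1_6_7 (by omega)
        · rcases e2_3 with h | h | h | h | h | h
          · exact n1_5_0 (by omega)
          · exact d0_7 (by omega)
          · exact n1_5_4 (by omega)
          · omega
          · exact n1_2_4 (by omega)
          · exact d0_1 (by omega)
        · rcases e2_4 with h | h | h | h | h | h
          · exact n1_5_0 (by omega)
          · exact d0_7 (by omega)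
          · exact n1_5_3 (by omega)
          · omega
          · exact d0_2 (by omega)
          · exact d0_1 (by omega)
        · exact d1_2 (by omega)
        · exact d1_4 (by omega)
        · exact d1_5 (by omega)
    · rcases e0_5 with h | h | h | h | h | h
      · omega
      · exact n0_7_4 (by omega)
      · rcases e2_3 with h | h | h | h | h | h
        · omega
        · omega
        · exact n3_5_7 (by omega)
        · exact d0_3 (by omega)
        · rcases e1_3 with h | h | h | h | h | h
          · exact n1_6_5 (by omega)
          · omega
          · rcases e0_1 with h | h | h | h | h | h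
            · exact n2_5_4 (by omega)
            · exact n0_6_4 (by omega)
            · exact d0_3 (by omega)
            · exact n0_6_7 (by omega)
            · exact n2_5_1 (by omega)
            · exact n0_6_5 (by omega)
          · exact n1_5_2 (by omega)
          · exact d1_2 (by omega)
          · exact n1_5_4 (by omega)
        · exact n2_5_4 (by omega)
      · rcases e1_4 with h | h | h | h | h | h
        · omega
        · omega
        · rcases e0_1 with h | h | h | h | h | h
          · exact n2_5_3 (by omega)
          · exact d0_4 (by omega)
          · exact d1_5 (by omega)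
          · exact d1_2 (by omega)
          · exact n5_6_3 (by omega)
          · exact d1_4 (by omega)
        · exact n1_5_2 (by omega)
        · rcases e0_1 with h | h | h | h | h | h
          · exact n2_5_6 (by omega)
          · exact n3_5_6 (by omega)
          · exact d1_5 (by omega)
          · exact d1_2 (by omega)
          · exact d0_4 (by omega)
          · exact d1_4 (by omega)
        · exact d0_1 (by omega)
      · rcases e0_1 with h | h | h | h | h | h
        · rcases e2_4 with h | h | h | h | h | h
          · exact n1_7_0 (by omega)
          · exact n4_5_2 (by omega)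
          · exact n1_7_3 (by omega)
          · exact d0_4 (by omega)
          · exact n1_7_6 (by omega)
          · omega
        · rcases e2_3 with h | h | h | h | h | h
          · exact n1_5_0 (by omega)
          · exact d0_6 (by omega)
          · exact n1_5_4 (by omega)
          · omega
          · exact d0_1 (by omega)
          · exact n1_2_4 (by omega)
        · rcases e2_4 with h | h | h | h | h | h
          · exact n1_5_0 (by omega)
          · exact d0_6 (by omega)
          · exact n1_5_3 (by omega)
          · omega
          · exact d0_1 (by omega)
          · exact d0_2 (by omega)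
        · exact d1_2 (by omega)
        · exact d1_5 (by omega)
        · exact d1_4 (by omega)
      · exact d4_5 (by omega)
  · rcases e0_4 with h | h | h | h | h | h
    · omega
    · rcases e2_3 with h | h | h | h | h | h
      · omega
      · omega
      · exact n3_6_2 (by omega)
      · rcases e0_5 with h | h | h | h | h | h
        · exact n3_6_1 (by omega)
        · exact n3_6_2 (by omega)
        · omega
        · exact n3_6_4 (by omega)
        · exact d2_5 (by omega)
        · exact n3_6_7 (by omega)
      · exact d0_3 (by omega)
      · rcases e0_5 with h | h | h | h | h | h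
        · omega
        · exact d4_5 (by omega)
        · exact n5_6_7 (by omega)
        · rcases e2_4 with h | h | h | h | h | h
          · exact d0_2 (by omega)
          · exact n5_6_1 (by omega)
          · exact n5_6_3 (by omega)
          · exact n0_7_3 (by omega)
          · exact d0_4 (by omega)
          · exact n0_3_2 (by omega)
        · exact d2_5 (by omega)
        · exact n3_4_5 (by omega)
    · rcases e2_3 with h | h | h | h | h | h
      · exact n4_6_0 (by omega)
      · exact n4_6_1 (by omega)
      · omega
      · exact n4_6_5 (by omega)
      · exact d0_3 (by omega)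
      · exact n4_6_7 (by omega)
    · rcases e0_5 with h | h | h | h | h | h
      · omega
      · rcases e2_3 with h | h | h | h | h | h
        · omega
        · omega
        · exact n3_6_5 (by omega)
        · exact n3_5_4 (by omega)
        · exact d0_3 (by omega)
        · rcases e0_1 with h | h | h | h | h | h
          · exact d1_5 (by omega)
          · exact n1_6_7 (by omega)
          · rcases e2_4 with h | h | h | h | h | h
            · omega
            · omega
            · exact n1_6_3 (by omega)
            · omega
            · omega
            · exact n0_3_5 (by omega)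
          · exact d1_4 (by omega)
          · exact d1_2 (by omega)
          · exact n3_5_1 (by omega)
      · rcases e2_3 with h | h | h | h | h | h
        · exact n5_6_0 (by omega)
        · exact n5_6_1 (by omega)
        · exact n3_6_5 (by omega)
        · exact n2_5_4 (by omega)
        · exact d0_3 (by omega)
        · exact n5_6_7 (by omega)
      · exact n0_6_2 (by omega)
      · exact d2_5 (by omega)
      · rcases e2_3 with h | h | h | h | h | h
        · rcases e0_1 with h | h | h | h | h | h
          · omega
          · exact n1_6_0 (by omega)
          · rcases e1_3 with h | h | h | h | h | h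
            · exact n0_6_5 (by omega)
            · exact n2_6_5 (by omega)
            · exact d0_3 (by omega)
            · exact n2_5_4 (by omega)
            · omega
            · exact n2_5_1 (by omega)
          · exact d1_4 (by omega)
          · exact d1_2 (by omega)
          · exact d1_5 (by omega)
        · omega
        · exact n3_6_5 (by omega)
        · exact n3_6_7 (by omega)
        · exact d0_3 (by omega)
        · rcases e2_4 with h | h | h | h | h | h
          · exact n4_5_3 (by omega)
          · omega
          · exact d0_2 (by omega)
          · exact d0_2 (by omega)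
          · exact d0_4 (by omega)
          · exact n0_3_5 (by omega)
    · exact d2_4 (by omega)
    · rcases e0_5 with h | h | h | h | h | h
      · omega
      · rcases e2_3 with h | h | h | h | h | h
        · omega
        · omega
        · exact n3_6_7 (by omega)
        · exact n3_6_2 (by omega)
        · exact d0_3 (by omega)
        · exact n3_5_4 (by omega)
      · rcases e2_3 with h | h | h | h | h | h
        · exact n5_6_0 (by omega)
        · exact n5_6_1 (by omega)
        · exact n3_6_7 (by omega)
        · exact n2_7_4 (by omega)
        · exact d0_3 (by omega)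
        · exact n2_5_4 (by omega)
      · rcases e2_4 with h | h | h | h | h | h
        · exact n5_6_0 (by omega)
        · exact n5_6_1 (by omega)
        · exact n5_6_3 (by omega)
        · exact n2_7_4 (by omega)
        · exact d0_4 (by omega)
        · exact d0_2 (by omega)
      · exact d2_5 (by omega)
      · exact d4_5 (by omega)
  · rcases e0_4 with h | h | h | h | h | h
    · omega
    · rcases e2_3 with h | h | h | h | h | h
      · omega
      · omega
      · exact n3_7_2 (by omega)
      · rcases e0_5 with h | h | h | h | h | h
        · exact n3_7_1 (by omega)
        · exact n3_7_2 (by omega)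
        · omega
        · exact n3_7_4 (by omega)
        · exact n3_7_6 (by omega)
        · exact d2_5 (by omega)
      · rcases e0_5 with h | h | h | h | h | h
        · omega
        · exact d4_5 (by omega)
        · exact n5_7_6 (by omega)
        · rcases e2_4 with h | h | h | h | h | h
          · exact d0_2 (by omega)
          · exact n5_7_1 (by omega)
          · exact n5_7_3 (by omega)
          · exact n0_6_3 (by omega)
          · exact n0_3_2 (by omega)
          · exact d0_4 (by omega)
        · exact n3_4_5 (by omega)
        · exact d2_5 (by omega)
      · exact d0_3 (by omega)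
    · rcases e2_3 with h | h | h | h | h | h
      · exact n4_7_0 (by omega)
      · exact n4_7_1 (by omega)
      · omega
      · exact n4_7_5 (by omega)
      · exact n4_7_6 (by omega)
      · exact d0_3 (by omega)
    · rcases e0_5 with h | h | h | h | h | h
      · omega
      · rcases e2_3 with h | h | h | h | h | h
        · omega
        · omega
        · exact n3_7_5 (by omega)
        · exact n3_5_4 (by omega)
        · rcases e0_1 with h | h | h | h | h | h
          · exact d1_5 (by omega)
          · exact n1_7_6 (by omega)
          · rcases e2_4 with h | h | h | h | h | h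
            · omega
            · omega
            · exact n1_7_3 (by omega)
            · omega
            · exact n0_3_5 (by omega)
            · omega
          · exact d1_4 (by omega)
          · exact n3_5_1 (by omega)
          · exact d1_2 (by omega)
        · exact d0_3 (by omega)
      · rcases e2_3 with h | h | h | h | h | h
        · exact n5_7_0 (by omega)
        · exact n5_7_1 (by omega)
        · exact n3_7_5 (by omega)
        · exact n2_5_4 (by omega)
        · exact n5_7_6 (by omega)
        · exact d0_3 (by omega)
      · exact n0_7_2 (by omega)
      · rcases e2_3 with h | h | h | h | h | h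
        · rcases e0_1 with h | h | h | h | h | h
          · omega
          · exact n1_7_0 (by omega)
          · rcases e1_3 with h | h | h | h | h | h
            · exact n0_7_5 (by omega)
            · exact n2_7_5 (by omega)
            · exact d0_3 (by omega)
            · exact n2_5_4 (by omega)
            · exact n2_5_1 (by omega)
            · omega
          · exact d1_4 (by omega)
          · exact d1_5 (by omega)
          · exact d1_2 (by omega)
        · omega
        · exact n3_7_5 (by omega)
        · exact n3_7_6 (by omega)
        · rcases e2_4 with h | h | h | h | h | h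
          · exact n4_5_3 (by omega)
          · omega
          · exact d0_2 (by omega)
          · exact d0_2 (by omega)
          · exact n0_3_5 (by omega)
          · exact d0_4 (by omega)
        · exact d0_3 (by omega)
      · exact d2_5 (by omega)
    · rcases e0_5 with h | h | h | h | h | h
      · omega
      · rcases e2_3 with h | h | h | h | h | h
        · omega
        · omega
        · exact n3_7_6 (by omega)
        · exact n3_6_4 (by omega)
        · exact n3_5_4 (by omega)
        · exact d0_3 (by omega)
      · rcases e2_3 with h | h | h | h | h | h
        · exact n5_7_0 (by omega)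
        · exact n5_7_1 (by omega)
        · exact n3_7_6 (by omega)
        · exact n2_6_4 (by omega)
        · exact n2_5_4 (by omega)
        · exact d0_3 (by omega)
      · rcases e2_4 with h | h | h | h | h | h
        · exact n5_7_0 (by omega)
        · exact n5_7_1 (by omega)
        · exact n5_7_3 (by omega)
        · exact n2_6_4 (by omega)
        · exact d0_2 (by omega)
        · exact d0_4 (by omega)
      · exact d4_5 (by omega)
      · exact d2_5 (by omega)
    · exact d2_4 (by omega)

theorem c2 (x0 x1 x2 x3 x4 x5 x6 x7 : ℕ) (h1 : x2 = 1)
    (p0 : 2 ≤ x0) (p1 : 2 ≤ x1) (p3 : 2 ≤ x3) (p4 : 2 ≤ x4) (p5 : 2 ≤ x5) (p6 : 2 ≤ x6) (p7 : 2 ≤ x7)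
    (d0_1 : NE x0 x1)
    (d0_2 : NE x0 x2)
    (d0_3 : NE x0 x3)
    (d0_4 : NE x0 x4)
    (d0_5 : NE x0 x5)
    (d0_6 : NE x0 x6)
    (d0_7 : NE x0 x7)
    (d1_2 : NE x1 x2)
    (d1_4 : NE x1 x4)
    (d1_5 : NE x1 x5)
    (d2_4 : NE x2 x4)
    (d2_5 : NE x2 x5)
    (d4_5 : NE x4 x5)
    (d6_7 : NE x6 x7)
    (e0_1 : O6 (x0 + x1) x2 x3 x4 x5 x6 x7)
    (e0_2 : O6 (x0 + x2) x1 x3 x4 x5 x6 x7)
    (n0_3_1 : NE (x0 + x3) x1)
    (n0_3_2 : NE (x0 + x3) x2)
    (n0_3_4 : NE (x0 + x3) x4)
    (n0_3_5 : NE (x0 + x3) x5)
    (n0_3_6 : NE (x0 + x3) x6)
    (n0_3_7 : NE (x0 + x3) x7)
    (e0_4 : O6 (x0 + x4) x1 x2 x3 x5 x6 x7)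
    (e0_5 : O6 (x0 + x5) x1 x2 x3 x4 x6 x7)
    (n0_6_1 : NE (x0 + x6) x1)
    (n0_6_2 : NE (x0 + x6) x2)
    (n0_6_3 : NE (x0 + x6) x3)
    (n0_6_4 : NE (x0 + x6) x4)
    (n0_6_5 : NE (x0 + x6) x5)
    (n0_6_7 : NE (x0 + x6) x7)
    (n0_7_1 : NE (x0 + x7) x1)
    (n0_7_2 : NE (x0 + x7) x2)
    (n0_7_3 : NE (x0 + x7) x3)
    (n0_7_4 : NE (x0 + x7) x4)
    (n0_7_5 : NE (x0 + x7) x5)
    (n0_7_6 : NE (x0 + x7) x6)
    (n1_2_0 : NE (x1 + x2) x0)
    (n1_2_3 : NE (x1 + x2) x3)
    (n1_2_4 : NE (x1 + x2) x4)
    (n1_2_5 : NE (x1 + x2) x5)
    (n1_2_6 : NE (x1 + x2) x6)
    (n1_2_7 : NE (x1 + x2) x7)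
    (e1_3 : O6 (x1 + x3) x0 x2 x4 x5 x6 x7)
    (e1_4 : O6 (x1 + x4) x0 x2 x3 x5 x6 x7)
    (n1_5_0 : NE (x1 + x5) x0)
    (n1_5_2 : NE (x1 + x5) x2)
    (n1_5_3 : NE (x1 + x5) x3)
    (n1_5_4 : NE (x1 + x5) x4)
    (n1_5_6 : NE (x1 + x5) x6)
    (n1_5_7 : NE (x1 + x5) x7)
    (n1_6_0 : NE (x1 + x6) x0)
    (n1_6_3 : NE (x1 + x6) x3)
    (n1_6_4 : NE (x1 + x6) x4)
    (n1_6_7 : NE (x1 + x6) x7)
    (n1_7_0 : NE (x1 + x7) x0)
    (n1_7_3 : NE (x1 + x7) x3)
    (n1_7_4 : NE (x1 + x7) x4)
    (n1_7_6 : NE (x1 + x7) x6)
    (e2_3 : O6 (x2 + x3) x0 x1 x4 x5 x6 x7)
    (e2_4 : O6 (x2 + x4) x0 x1 x3 x5 x6 x7)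
    (n2_5_0 : NE (x2 + x5) x0)
    (n2_5_1 : NE (x2 + x5) x1)
    (n2_5_3 : NE (x2 + x5) x3)
    (n2_5_4 : NE (x2 + x5) x4)
    (n2_5_6 : NE (x2 + x5) x6)
    (n2_5_7 : NE (x2 + x5) x7)
    (n2_6_0 : NE (x2 + x6) x0)
    (n2_6_3 : NE (x2 + x6) x3)
    (n2_6_4 : NE (x2 + x6) x4)
    (n2_6_5 : NE (x2 + x6) x5)
    (n2_6_7 : NE (x2 + x6) x7)
    (n2_7_0 : NE (x2 + x7) x0)
    (n2_7_3 : NE (x2 + x7) x3)
    (n2_7_5 : NE (x2 + x7) x5)
    (n2_7_6 : NE (x2 + x7) x6)
    (n3_4_1 : NE (x3 + x4) x1)
    (n3_4_2 : NE (x3 + x4) x2)
    (n3_4_5 : NE (x3 + x4) x5)
    (n3_4_6 : NE (x3 + x4) x6)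
    (n3_4_7 : NE (x3 + x4) x7)
    (n3_5_0 : NE (x3 + x5) x0)
    (n3_5_1 : NE (x3 + x5) x1)
    (n3_5_2 : NE (x3 + x5) x2)
    (n3_5_4 : NE (x3 + x5) x4)
    (n3_5_6 : NE (x3 + x5) x6)
    (n3_5_7 : NE (x3 + x5) x7)
    (n3_6_1 : NE (x3 + x6) x1)
    (n3_6_2 : NE (x3 + x6) x2)
    (n3_6_4 : NE (x3 + x6) x4)
    (n3_6_5 : NE (x3 + x6) x5)
    (n3_6_7 : NE (x3 + x6) x7)
    (n3_7_1 : NE (x3 + x7) x1)
    (n3_7_2 : NE (x3 + x7) x2)
    (n3_7_4 : NE (x3 + x7) x4)
    (n3_7_5 : NE (x3 + x7) x5)
    (n3_7_6 : NE (x3 + x7) x6)
    (n4_5_0 : NE (x4 + x5) x0)
    (n4_5_1 : NE (x4 + x5) x1)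
    (n4_5_2 : NE (x4 + x5) x2)
    (n4_5_3 : NE (x4 + x5) x3)
    (n4_5_6 : NE (x4 + x5) x6)
    (n4_5_7 : NE (x4 + x5) x7)
    (n4_6_0 : NE (x4 + x6) x0)
    (n4_6_2 : NE (x4 + x6) x2)
    (n4_6_5 : NE (x4 + x6) x5)
    (n4_6_7 : NE (x4 + x6) x7)
    (n4_7_0 : NE (x4 + x7) x0)
    (n4_7_2 : NE (x4 + x7) x2)
    (n4_7_5 : NE (x4 + x7) x5)
    (n4_7_6 : NE (x4 + x7) x6)
    (n5_6_0 : NE (x5 + x6) x0)
    (n5_6_2 : NE (x5 + x6) x2)
    (n5_6_3 : NE (x5 + x6) x3)
    (n5_6_7 : NE (x5 + x6) x7)
    (n5_7_0 : NE (x5 + x7) x0)
    (n5_7_2 : NE (x5 + x7) x2)
    (n5_7_3 : NE (x5 + x7) x3)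
    (n5_7_6 : NE (x5 + x7) x6)
    : False := by
  rcases e0_1 with h | h | h | h | h | h
  · omega
  · rcases e0_4 with h | h | h | h | h | h
    · rcases e0_5 with h | h | h | h | h | h
      · exact d4_5 (by omega)
      · omega
      · exact d1_5 (by omega)
      · rcases e1_4 with h | h | h | h | h | h
        · exact d0_1 (by omega)
        · exact n3_5_2 (by omega)
        · exact d0_4 (by omega)
        · omega
        · exact n3_5_6 (by omega)
        · exact n3_5_7 (by omega)
      · rcases e1_3 with h | h | h | h | h | h
        · exact d0_3 (by omega)
        · omega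
        · exact n3_6_5 (by omega)
        · rcases e1_4 with h | h | h | h | h | h
          · exact d0_1 (by omega)
          · omega
          · exact d0_4 (by omega)
          · exact n0_3_1 (by omega)
          · exact n0_3_1 (by omega)
          · rcases e2_4 with h | h | h | h | h | h
            · exact n2_7_3 (by omega)
            · exact d0_2 (by omega)
            · omega
            · exact n0_3_2 (by omega)
            · omega
            · exact d1_2 (by omega)
        · exact n3_4_5 (by omega)
        · rcases e1_4 with h | h | h | h | h | h
          · exact d0_1 (by omega)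
          · omega
          · exact d0_4 (by omega)
          · exact n0_6_7 (by omega)
          · rcases e2_4 with h | h | h | h | h | h
            · exact n2_5_1 (by omega)
            · exact d0_2 (by omega)
            · omega
            · exact n1_2_6 (by omega)
            · exact d1_2 (by omega)
            · exact n0_3_2 (by omega)
          · exact n0_3_1 (by omega)
      · rcases e1_3 with h | h | h | h | h | h
        · exact d0_3 (by omega)
        · omega
        · exact n3_7_5 (by omega)
        · rcases e1_4 with h | h | h | h | h | h
          · exact d0_1 (by omega)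
          · omega
          · exact d0_4 (by omega)
          · exact n0_3_1 (by omega)
          · rcases e2_4 with h | h | h | h | h | h
            · exact n2_6_3 (by omega)
            · exact d0_2 (by omega)
            · omega
            · exact n0_3_2 (by omega)
            · exact d1_2 (by omega)
            · omega
          · exact n0_3_1 (by omega)
        · rcases e1_4 with h | h | h | h | h | h
          · exact d0_1 (by omega)
          · omega
          · exact d0_4 (by omega)
          · exact n0_7_6 (by omega)
          · exact n0_3_1 (by omega)
          · rcases e2_4 with h | h | h | h | h | h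
            · exact n2_5_1 (by omega)
            · exact d0_2 (by omega)
            · omega
            · exact n1_2_7 (by omega)
            · exact n0_3_2 (by omega)
            · exact d1_2 (by omega)
        · exact n3_4_5 (by omega)
    · omega
    · exact d1_4 (by omega)
    · rcases e0_5 with h | h | h | h | h | h
      · rcases e1_3 with h | h | h | h | h | h
        · exact d0_3 (by omega)
        · omega
        · omega
        · exact n3_5_4 (by omega)
        · rcases e1_4 with h | h | h | h | h | h
          · omega
          · omega
          · exact d0_4 (by omega)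
          · exact d0_1 (by omega)
          · exact n0_3_1 (by omega)
          · rcases e2_4 with h | h | h | h | h | h
            · exact n2_7_3 (by omega)
            · omega
            · omega
            · exact d0_2 (by omega)
            · omega
            · exact d1_2 (by omega)
        · rcases e1_4 with h | h | h | h | h | h
          · omega
          · omega
          · exact d0_4 (by omega)
          · exact d0_1 (by omega)
          · rcases e2_4 with h | h | h | h | h | h
            · exact n2_6_3 (by omega)
            · omega
            · omega
            · exact d0_2 (by omega)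
            · exact d1_2 (by omega)
            · omega
          · exact n0_3_1 (by omega)
      · omega
      · exact d1_5 (by omega)
      · exact n0_3_1 (by omega)
      · rcases e2_3 with h | h | h | h | h | h
        · omega
        · exact n2_5_4 (by omega)
        · rcases e0_2 with h | h | h | h | h | h
          · rcases e1_4 with h | h | h | h | h | h
            · omega
            · omega
            · exact d0_4 (by omega)
            · omega
            · exact d0_2 (by omega)
            · exact n2_5_7 (by omega)
          · exact d1_2 (by omega)
          · exact d0_3 (by omega)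
          · exact n1_5_2 (by omega)
          · exact n1_6_4 (by omega)
          · exact n1_7_4 (by omega)
        · exact n1_2_4 (by omega)
        · exact n1_2_5 (by omega)
        · rcases e0_2 with h | h | h | h | h | h
          · rcases e1_3 with h | h | h | h | h | h
            · exact d0_3 (by omega)
            · omega
            · exact n0_7_4 (by omega)
            · exact n0_7_5 (by omega)
            · exact n0_7_6 (by omega)
            · exact n0_3_1 (by omega)
          · exact d1_2 (by omega)
          · rcases e1_3 with h | h | h | h | h | h
            · exact d0_3 (by omega)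
            · omega
            · omega
            · rcases e2_4 with h | h | h | h | h | h
              · omega
              · exact d0_7 (by omega)
              · exact n1_2_0 (by omega)
              · exact d0_1 (by omega)
              · omega
              · exact d0_1 (by omega)
            · omega
            · exact n0_3_5 (by omega)
          · exact n1_5_7 (by omega)
          · exact n1_6_7 (by omega)
          · exact d0_3 (by omega)
      · rcases e2_3 with h | h | h | h | h | h
        · omega
        · exact n2_5_4 (by omega)
        · rcases e0_2 with h | h | h | h | h | h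
          · rcases e1_4 with h | h | h | h | h | h
            · omega
            · omega
            · exact d0_4 (by omega)
            · omega
            · exact n2_5_6 (by omega)
            · exact d0_2 (by omega)
          · exact d1_2 (by omega)
          · exact d0_3 (by omega)
          · exact n1_5_2 (by omega)
          · exact n1_6_4 (by omega)
          · exact n1_7_4 (by omega)
        · exact n1_2_4 (by omega)
        · rcases e0_2 with h | h | h | h | h | h
          · rcases e1_3 with h | h | h | h | h | h
            · exact d0_3 (by omega)
            · omega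
            · exact n0_6_4 (by omega)
            · exact n0_6_5 (by omega)
            · exact n0_3_1 (by omega)
            · exact n0_6_7 (by omega)
          · exact d1_2 (by omega)
          · rcases e1_3 with h | h | h | h | h | h
            · exact d0_3 (by omega)
            · omega
            · omega
            · rcases e2_4 with h | h | h | h | h | h
              · omega
              · exact d0_6 (by omega)
              · exact n1_2_0 (by omega)
              · exact d0_1 (by omega)
              · exact d0_1 (by omega)
              · omega
            · exact n0_3_5 (by omega)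
            · omega
          · exact n1_5_6 (by omega)
          · exact d0_3 (by omega)
          · exact n1_7_6 (by omega)
        · exact n1_2_5 (by omega)
    · rcases e0_5 with h | h | h | h | h | h
      · rcases e1_4 with h | h | h | h | h | h
        · exact n5_6_0 (by omega)
        · exact n5_6_2 (by omega)
        · exact d0_4 (by omega)
        · exact n3_4_1 (by omega)
        · exact d0_1 (by omega)
        · exact n5_6_7 (by omega)
      · omega
      · exact d1_5 (by omega)
      · rcases e1_4 with h | h | h | h | h | h
        · exact n3_5_0 (by omega)
        · exact n3_5_2 (by omega)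
        · exact d0_4 (by omega)
        · exact n1_6_4 (by omega)
        · exact d0_1 (by omega)
        · exact n3_5_7 (by omega)
      · exact d4_5 (by omega)
      · rcases e1_4 with h | h | h | h | h | h
        · rcases e2_4 with h | h | h | h | h | h
          · exact d1_2 (by omega)
          · exact n2_6_3 (by omega)
          · omega
          · exact n2_6_7 (by omega)
          · exact d0_2 (by omega)
          · exact n1_5_2 (by omega)
        · omega
        · exact d0_4 (by omega)
        · exact n1_6_7 (by omega)
        · exact d0_1 (by omega)
        · rcases e0_2 with h | h | h | h | h | h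
          · exact n2_6_7 (by omega)
          · exact d1_2 (by omega)
          · exact n1_2_5 (by omega)
          · rcases e2_3 with h | h | h | h | h | h
            · exact n1_5_0 (by omega)
            · exact d0_7 (by omega)
            · exact n1_5_4 (by omega)
            · exact d0_3 (by omega)
            · exact d0_1 (by omega)
            · exact d0_1 (by omega)
          · exact n1_2_7 (by omega)
          · exact d2_5 (by omega)
    · rcases e0_5 with h | h | h | h | h | h
      · rcases e1_4 with h | h | h | h | h | h
        · exact n5_7_0 (by omega)
        · exact n5_7_2 (by omega)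
        · exact d0_4 (by omega)
        · exact n3_4_1 (by omega)
        · exact n5_7_6 (by omega)
        · exact d0_1 (by omega)
      · omega
      · exact d1_5 (by omega)
      · rcases e1_4 with h | h | h | h | h | h
        · exact n3_5_0 (by omega)
        · exact n3_5_2 (by omega)
        · exact d0_4 (by omega)
        · exact n1_7_4 (by omega)
        · exact n3_5_6 (by omega)
        · exact d0_1 (by omega)
      · rcases e1_4 with h | h | h | h | h | h
        · rcases e2_4 with h | h | h | h | h | h
          · exact d1_2 (by omega)
          · exact n2_7_3 (by omega)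
          · omega
          · exact n2_7_6 (by omega)
          · exact n1_5_2 (by omega)
          · exact d0_2 (by omega)
        · omega
        · exact d0_4 (by omega)
        · exact n1_7_6 (by omega)
        · rcases e0_2 with h | h | h | h | h | h
          · exact n2_7_6 (by omega)
          · exact d1_2 (by omega)
          · exact n1_2_5 (by omega)
          · rcases e2_3 with h | h | h | h | h | h
            · exact n1_5_0 (by omega)
            · exact d0_6 (by omega)
            · exact n1_5_4 (by omega)
            · exact d0_3 (by omega)
            · exact d0_1 (by omega)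
            · exact d0_1 (by omega)
          · exact d2_5 (by omega)
          · exact n1_2_6 (by omega)
        · exact d0_1 (by omega)
      · exact d4_5 (by omega)
  · rcases e0_4 with h | h | h | h | h | h
    · exact d1_4 (by omega)
    · omega
    · rcases e0_5 with h | h | h | h | h | h
      · rcases e1_4 with h | h | h | h | h | h
        · exact d0_4 (by omega)
        · exact n3_5_2 (by omega)
        · exact d0_1 (by omega)
        · omega
        · exact n3_5_6 (by omega)
        · exact n3_5_7 (by omega)
      · omega
      · exact d4_5 (by omega)
      · exact d1_5 (by omega)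
      · rcases e1_3 with h | h | h | h | h | h
        · omega
        · omega
        · exact d0_3 (by omega)
        · exact n3_4_6 (by omega)
        · rcases e2_4 with h | h | h | h | h | h
          · exact n2_5_4 (by omega)
          · exact n2_6_5 (by omega)
          · exact d0_2 (by omega)
          · exact d1_2 (by omega)
          · exact n1_2_5 (by omega)
          · rcases e0_2 with h | h | h | h | h | h
            · exact n0_7_5 (by omega)
            · exact n1_2_5 (by omega)
            · exact n0_7_6 (by omega)
            · omega
            · exact n1_6_7 (by omega)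
            · exact d0_4 (by omega)
        · rcases e1_4 with h | h | h | h | h | h
          · exact d0_4 (by omega)
          · omega
          · exact d0_1 (by omega)
          · exact d6_7 (by omega)
          · exact n0_6_7 (by omega)
          · exact n0_3_1 (by omega)
      · rcases e1_3 with h | h | h | h | h | h
        · omega
        · omega
        · exact d0_3 (by omega)
        · exact n3_4_7 (by omega)
        · rcases e1_4 with h | h | h | h | h | h
          · exact d0_4 (by omega)
          · omega
          · exact d0_1 (by omega)
          · exact d6_7 (by omega)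
          · exact n0_3_1 (by omega)
          · exact n0_7_6 (by omega)
        · rcases e2_4 with h | h | h | h | h | h
          · exact n2_5_4 (by omega)
          · exact n2_7_5 (by omega)
          · exact d0_2 (by omega)
          · exact d1_2 (by omega)
          · rcases e0_2 with h | h | h | h | h | h
            · exact n0_6_5 (by omega)
            · exact n1_2_5 (by omega)
            · exact n0_6_7 (by omega)
            · omega
            · exact d0_4 (by omega)
            · exact n1_7_6 (by omega)
          · exact n1_2_5 (by omega)
    · rcases e0_5 with h | h | h | h | h | h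
      · exact d1_4 (by omega)
      · omega
      · rcases e1_3 with h | h | h | h | h | h
        · exact d0_5 (by omega)
        · exact n4_5_2 (by omega)
        · exact d0_3 (by omega)
        · exact d0_5 (by omega)
        · exact n4_5_6 (by omega)
        · exact n4_5_7 (by omega)
      · exact d1_4 (by omega)
      · rcases e2_4 with h | h | h | h | h | h
        · omega
        · exact n2_5_4 (by omega)
        · rcases e0_2 with h | h | h | h | h | h
          · rcases e1_4 with h | h | h | h | h | h
            · exact n0_3_4 (by omega)
            · omega
            · exact n0_6_1 (by omega)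
            · omega
            · exact d0_2 (by omega)
            · exact n0_3_7 (by omega)
          · exact d0_4 (by omega)
          · exact d1_2 (by omega)
          · exact n1_5_3 (by omega)
          · exact n1_6_3 (by omega)
          · exact n1_7_3 (by omega)
        · exact d0_2 (by omega)
        · omega
        · rcases e0_2 with h | h | h | h | h | h
          · rcases e1_4 with h | h | h | h | h | h
            · exact d0_4 (by omega)
            · omega
            · exact n0_7_3 (by omega)
            · omega
            · exact d0_2 (by omega)
            · exact n0_6_1 (by omega)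
          · rcases e1_4 with h | h | h | h | h | h
            · exact d0_4 (by omega)
            · exact n1_5_3 (by omega)
            · omega
            · exact d0_1 (by omega)
            · rcases e2_3 with h | h | h | h | h | h
              · omega
              · exact n2_7_5 (by omega)
              · exact d0_2 (by omega)
              · omega
              · omega
              · omega
            · exact n0_3_5 (by omega)
          · exact d1_2 (by omega)
          · exact n1_5_7 (by omega)
          · exact n1_6_7 (by omega)
          · exact d0_4 (by omega)
      · rcases e2_4 with h | h | h | h | h | h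
        · omega
        · exact n2_5_4 (by omega)
        · rcases e0_2 with h | h | h | h | h | h
          · rcases e1_4 with h | h | h | h | h | h
            · exact n0_3_4 (by omega)
            · omega
            · exact n0_7_1 (by omega)
            · omega
            · exact n0_3_6 (by omega)
            · exact d0_2 (by omega)
          · exact d0_4 (by omega)
          · exact d1_2 (by omega)
          · exact n1_5_3 (by omega)
          · exact n1_6_3 (by omega)
          · exact n1_7_3 (by omega)
        · exact d0_2 (by omega)
        · rcases e0_2 with h | h | h | h | h | h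
          · rcases e1_4 with h | h | h | h | h | h
            · exact d0_4 (by omega)
            · omega
            · exact n0_6_3 (by omega)
            · omega
            · exact n0_7_1 (by omega)
            · exact d0_2 (by omega)
          · rcases e1_4 with h | h | h | h | h | h
            · exact d0_4 (by omega)
            · exact n1_5_3 (by omega)
            · omega
            · exact d0_1 (by omega)
            · exact n0_3_5 (by omega)
            · rcases e2_3 with h | h | h | h | h | h
              · omega
              · exact n2_6_5 (by omega)
              · exact d0_2 (by omega)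
              · omega
              · omega
              · omega
          · exact d1_2 (by omega)
          · exact n1_5_6 (by omega)
          · exact d0_4 (by omega)
          · exact n1_7_6 (by omega)
        · omega
    · rcases e0_5 with h | h | h | h | h | h
      · rcases e1_4 with h | h | h | h | h | h
        · exact d0_4 (by omega)
        · exact n5_6_2 (by omega)
        · exact n5_6_3 (by omega)
        · omega
        · exact d0_1 (by omega)
        · exact n5_6_7 (by omega)
      · omega
      · rcases e1_3 with h | h | h | h | h | h
        · exact n4_5_0 (by omega)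
        · exact n4_5_2 (by omega)
        · exact d0_3 (by omega)
        · exact d0_6 (by omega)
        · exact d0_5 (by omega)
        · exact n4_5_7 (by omega)
      · exact d1_5 (by omega)
      · exact d4_5 (by omega)
      · rcases e2_4 with h | h | h | h | h | h
        · omega
        · exact n2_6_4 (by omega)
        · rcases e0_2 with h | h | h | h | h | h
          · rcases e1_4 with h | h | h | h | h | h
            · exact n0_3_4 (by omega)
            · omega
            · exact n0_6_1 (by omega)
            · exact n0_3_5 (by omega)
            · omega
            · exact n0_3_7 (by omega)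
          · exact d0_4 (by omega)
          · exact d1_2 (by omega)
          · exact n1_5_3 (by omega)
          · exact n1_6_3 (by omega)
          · exact n1_7_3 (by omega)
        · exact n2_6_7 (by omega)
        · exact d0_2 (by omega)
        · exact n1_2_5 (by omega)
    · rcases e0_5 with h | h | h | h | h | h
      · rcases e1_4 with h | h | h | h | h | h
        · exact d0_4 (by omega)
        · exact n5_7_2 (by omega)
        · exact n5_7_3 (by omega)
        · omega
        · exact n5_7_6 (by omega)
        · exact d0_1 (by omega)
      · omega
      · rcases e1_3 with h | h | h | h | h | h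
        · exact n4_5_0 (by omega)
        · exact n4_5_2 (by omega)
        · exact d0_3 (by omega)
        · exact d0_7 (by omega)
        · exact n4_5_6 (by omega)
        · exact d0_5 (by omega)
      · exact d1_5 (by omega)
      · rcases e2_4 with h | h | h | h | h | h
        · omega
        · exact n2_6_5 (by omega)
        · rcases e0_2 with h | h | h | h | h | h
          · rcases e1_4 with h | h | h | h | h | h
            · exact n0_3_4 (by omega)
            · omega
            · exact n0_6_5 (by omega)
            · exact n0_3_5 (by omega)
            · exact n0_3_6 (by omega)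
            · omega
          · exact d0_4 (by omega)
          · exact d1_2 (by omega)
          · exact n1_5_3 (by omega)
          · exact n1_6_3 (by omega)
          · exact n1_7_3 (by omega)
        · exact n2_7_6 (by omega)
        · exact n1_2_5 (by omega)
        · exact d0_2 (by omega)
      · exact d4_5 (by omega)
  · rcases e0_4 with h | h | h | h | h | h
    · rcases e1_3 with h | h | h | h | h | h
      · omega
      · omega
      · exact n3_5_1 (by omega)
      · exact d0_3 (by omega)
      · rcases e0_2 with h | h | h | h | h | h
        · exact d2_4 (by omega)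
        · exact n2_5_6 (by omega)
        · rcases e1_4 with h | h | h | h | h | h
          · exact d0_1 (by omega)
          · omega
          · exact n2_5_3 (by omega)
          · omega
          · exact n0_3_1 (by omega)
          · exact n2_5_7 (by omega)
        · exact d1_2 (by omega)
        · exact n3_4_2 (by omega)
        · rcases e0_5 with h | h | h | h | h | h
          · exact n0_7_2 (by omega)
          · omega
          · rcases e2_3 with h | h | h | h | h | h
            · exact n2_6_5 (by omega)
            · omega
            · omega
            · exact n1_2_4 (by omega)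
            · exact n0_7_3 (by omega)
            · exact d0_3 (by omega)
          · exact n0_7_2 (by omega)
          · exact n3_4_5 (by omega)
          · exact d2_5 (by omega)
      · rcases e0_2 with h | h | h | h | h | h
        · exact d2_4 (by omega)
        · exact n2_5_7 (by omega)
        · rcases e1_4 with h | h | h | h | h | h
          · exact d0_1 (by omega)
          · omega
          · exact n2_5_3 (by omega)
          · omega
          · exact n2_5_6 (by omega)
          · exact n0_3_1 (by omega)
        · exact d1_2 (by omega)
        · rcases e0_5 with h | h | h | h | h | h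
          · exact n0_6_2 (by omega)
          · omega
          · rcases e2_3 with h | h | h | h | h | h
            · exact n2_7_5 (by omega)
            · omega
            · omega
            · exact n1_2_4 (by omega)
            · exact d0_3 (by omega)
            · exact n0_6_3 (by omega)
          · exact n0_6_2 (by omega)
          · exact d2_5 (by omega)
          · exact n3_4_5 (by omega)
        · exact n3_4_2 (by omega)
    · omega
    · rcases e1_3 with h | h | h | h | h | h
      · exact n4_5_0 (by omega)
      · exact n4_5_2 (by omega)
      · omega
      · exact d0_3 (by omega)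
      · exact n4_5_6 (by omega)
      · exact n4_5_7 (by omega)
    · exact d1_4 (by omega)
    · rcases e0_5 with h | h | h | h | h | h
      · exact n0_6_4 (by omega)
      · omega
      · rcases e1_3 with h | h | h | h | h | h
        · omega
        · omega
        · exact n3_5_6 (by omega)
        · exact d0_3 (by omega)
        · exact n1_5_4 (by omega)
        · rcases e2_3 with h | h | h | h | h | h
          · exact n2_7_5 (by omega)
          · omega
          · rcases e0_2 with h | h | h | h | h | h
            · exact n1_5_4 (by omega)
            · exact n0_7_4 (by omega)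
            · exact d0_3 (by omega)
            · exact n0_7_6 (by omega)
            · exact n0_7_5 (by omega)
            · exact n1_5_2 (by omega)
          · exact n2_5_1 (by omega)
          · exact n2_5_4 (by omega)
          · exact d1_2 (by omega)
      · rcases e1_4 with h | h | h | h | h | h
        · omega
        · omega
        · rcases e0_2 with h | h | h | h | h | h
          · exact n2_6_3 (by omega)
          · exact n1_5_2 (by omega)
          · exact d2_5 (by omega)
          · exact d1_2 (by omega)
          · exact n1_2_3 (by omega)
          · rcases e2_3 with h | h | h | h | h | h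
            · omega
            · exact n2_6_0 (by omega)
            · exact n1_7_0 (by omega)
            · exact n3_7_4 (by omega)
            · exact n1_2_0 (by omega)
            · exact d0_3 (by omega)
        · exact d0_4 (by omega)
        · exact d0_1 (by omega)
        · rcases e0_2 with h | h | h | h | h | h
          · exact n2_6_7 (by omega)
          · rcases e1_3 with h | h | h | h | h | h
            · exact n2_5_0 (by omega)
            · exact d0_4 (by omega)
            · exact d0_2 (by omega)
            · omega
            · omega
            · exact n0_3_6 (by omega)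
          · exact d2_5 (by omega)
          · exact d1_2 (by omega)
          · exact n1_2_7 (by omega)
          · exact n1_5_2 (by omega)
      · exact d4_5 (by omega)
      · rcases e0_2 with h | h | h | h | h | h
        · rcases e1_4 with h | h | h | h | h | h
          · exact n2_6_0 (by omega)
          · exact n4_5_1 (by omega)
          · exact n2_6_3 (by omega)
          · exact d0_4 (by omega)
          · omega
          · exact n2_6_7 (by omega)
        · rcases e1_3 with h | h | h | h | h | h
          · exact n2_5_0 (by omega)
          · exact d0_7 (by omega)
          · exact n2_5_4 (by omega)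
          · omega
          · exact n1_2_4 (by omega)
          · exact d0_2 (by omega)
        · rcases e1_4 with h | h | h | h | h | h
          · exact n2_5_0 (by omega)
          · exact d0_7 (by omega)
          · exact n2_5_3 (by omega)
          · omega
          · exact d0_1 (by omega)
          · exact d0_2 (by omega)
        · exact d1_2 (by omega)
        · exact d2_4 (by omega)
        · exact d2_5 (by omega)
    · rcases e0_5 with h | h | h | h | h | h
      · exact n0_7_4 (by omega)
      · omega
      · rcases e1_3 with h | h | h | h | h | h
        · omega
        · omega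
        · exact n3_5_7 (by omega)
        · exact d0_3 (by omega)
        · rcases e2_3 with h | h | h | h | h | h
          · exact n2_6_5 (by omega)
          · omega
          · rcases e0_2 with h | h | h | h | h | h
            · exact n1_5_4 (by omega)
            · exact n0_6_4 (by omega)
            · exact d0_3 (by omega)
            · exact n0_6_7 (by omega)
            · exact n1_5_2 (by omega)
            · exact n0_6_5 (by omega)
          · exact n2_5_1 (by omega)
          · exact d1_2 (by omega)
          · exact n2_5_4 (by omega)
        · exact n1_5_4 (by omega)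
      · rcases e1_4 with h | h | h | h | h | h
        · omega
        · omega
        · rcases e0_2 with h | h | h | h | h | h
          · exact n2_7_3 (by omega)
          · exact n1_5_2 (by omega)
          · exact d2_5 (by omega)
          · exact d1_2 (by omega)
          · rcases e2_3 with h | h | h | h | h | h
            · omega
            · exact n2_7_0 (by omega)
            · exact n1_6_0 (by omega)
            · exact n3_6_4 (by omega)
            · exact d0_3 (by omega)
            · exact n1_2_0 (by omega)
          · exact n1_2_3 (by omega)
        · exact d0_4 (by omega)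
        · rcases e0_2 with h | h | h | h | h | h
          · exact n2_7_6 (by omega)
          · rcases e1_3 with h | h | h | h | h | h
            · exact n2_5_0 (by omega)
            · exact d0_4 (by omega)
            · exact d0_2 (by omega)
            · omega
            · exact n0_3_7 (by omega)
            · omega
          · exact d2_5 (by omega)
          · exact d1_2 (by omega)
          · exact n1_5_2 (by omega)
          · exact n1_2_6 (by omega)
        · exact d0_1 (by omega)
      · rcases e0_2 with h | h | h | h | h | h
        · rcases e1_4 with h | h | h | h | h | h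
          · exact n2_7_0 (by omega)
          · exact n4_5_1 (by omega)
          · exact n2_7_3 (by omega)
          · exact d0_4 (by omega)
          · exact n2_7_6 (by omega)
          · omega
        · rcases e1_3 with h | h | h | h | h | h
          · exact n2_5_0 (by omega)
          · exact d0_6 (by omega)
          · exact n2_5_4 (by omega)
          · omega
          · exact d0_2 (by omega)
          · exact n1_2_4 (by omega)
        · rcases e1_4 with h | h | h | h | h | h
          · exact n2_5_0 (by omega)
          · exact d0_6 (by omega)
          · exact n2_5_3 (by omega)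
          · omega
          · exact d0_2 (by omega)
          · exact d0_1 (by omega)
        · exact d1_2 (by omega)
        · exact d2_5 (by omega)
        · exact d2_4 (by omega)
      · exact d4_5 (by omega)
  · rcases e0_4 with h | h | h | h | h | h
    · rcases e1_3 with h | h | h | h | h | h
      · omega
      · omega
      · exact n3_6_1 (by omega)
      · rcases e0_5 with h | h | h | h | h | h
        · exact n3_6_1 (by omega)
        · exact n3_6_2 (by omega)
        · omega
        · exact n3_6_4 (by omega)
        · exact d1_5 (by omega)
        · exact n3_6_7 (by omega)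
      · exact d0_3 (by omega)
      · rcases e0_5 with h | h | h | h | h | h
        · exact d4_5 (by omega)
        · omega
        · exact n5_6_7 (by omega)
        · rcases e1_4 with h | h | h | h | h | h
          · exact d0_1 (by omega)
          · exact n5_6_2 (by omega)
          · exact n5_6_3 (by omega)
          · exact n0_7_3 (by omega)
          · exact d0_4 (by omega)
          · exact n0_3_1 (by omega)
        · exact d1_5 (by omega)
        · exact n3_4_5 (by omega)
    · omega
    · rcases e1_3 with h | h | h | h | h | h
      · exact n4_6_0 (by omega)
      · exact n4_6_2 (by omega)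
      · omega
      · exact n4_6_5 (by omega)
      · exact d0_3 (by omega)
      · exact n4_6_7 (by omega)
    · rcases e0_5 with h | h | h | h | h | h
      · rcases e1_3 with h | h | h | h | h | h
        · omega
        · omega
        · exact n3_6_5 (by omega)
        · exact n3_5_4 (by omega)
        · exact d0_3 (by omega)
        · rcases e0_2 with h | h | h | h | h | h
          · exact d2_5 (by omega)
          · exact n2_6_7 (by omega)
          · rcases e1_4 with h | h | h | h | h | h
            · omega
            · omega
            · exact n2_6_3 (by omega)
            · omega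
            · omega
            · exact n0_3_5 (by omega)
          · exact d2_4 (by omega)
          · exact d1_2 (by omega)
          · exact n3_5_2 (by omega)
      · omega
      · rcases e1_3 with h | h | h | h | h | h
        · exact n5_6_0 (by omega)
        · exact n5_6_2 (by omega)
        · exact n3_6_5 (by omega)
        · exact n1_5_4 (by omega)
        · exact d0_3 (by omega)
        · exact n5_6_7 (by omega)
      · exact n0_6_1 (by omega)
      · exact d1_5 (by omega)
      · rcases e1_3 with h | h | h | h | h | h
        · rcases e0_2 with h | h | h | h | h | h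
          · omega
          · exact n2_6_0 (by omega)
          · rcases e1_4 with h | h | h | h | h | h
            · exact n0_3_5 (by omega)
            · exact n1_5_4 (by omega)
            · omega
            · exact d0_1 (by omega)
            · omega
            · exact n1_2_5 (by omega)
          · exact d2_4 (by omega)
          · exact d1_2 (by omega)
          · exact d2_5 (by omega)
        · omega
        · exact n3_6_5 (by omega)
        · exact n3_6_7 (by omega)
        · exact d0_3 (by omega)
        · rcases e1_4 with h | h | h | h | h | h
          · exact n4_5_3 (by omega)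
          · omega
          · exact d0_1 (by omega)
          · exact d0_1 (by omega)
          · exact d0_4 (by omega)
          · exact n0_3_5 (by omega)
    · exact d1_4 (by omega)
    · rcases e0_5 with h | h | h | h | h | h
      · rcases e1_3 with h | h | h | h | h | h
        · omega
        · omega
        · exact n3_6_7 (by omega)
        · exact n3_6_1 (by omega)
        · exact d0_3 (by omega)
        · exact n3_5_4 (by omega)
      · omega
      · rcases e1_3 with h | h | h | h | h | h
        · exact n5_6_0 (by omega)
        · exact n5_6_2 (by omega)
        · exact n3_6_7 (by omega)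
        · exact n1_7_4 (by omega)
        · exact d0_3 (by omega)
        · exact n1_5_4 (by omega)
      · rcases e1_4 with h | h | h | h | h | h
        · exact n5_6_0 (by omega)
        · exact n5_6_2 (by omega)
        · exact n5_6_3 (by omega)
        · exact n1_7_4 (by omega)
        · exact d0_4 (by omega)
        · exact d0_1 (by omega)
      · exact d1_5 (by omega)
      · exact d4_5 (by omega)
  · rcases e0_4 with h | h | h | h | h | h
    · rcases e1_3 with h | h | h | h | h | h
      · omega
      · omega
      · exact n3_7_1 (by omega)
      · rcases e0_5 with h | h | h | h | h | h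
        · exact n3_7_1 (by omega)
        · exact n3_7_2 (by omega)
        · omega
        · exact n3_7_4 (by omega)
        · exact n3_7_6 (by omega)
        · exact d1_5 (by omega)
      · rcases e0_5 with h | h | h | h | h | h
        · exact d4_5 (by omega)
        · omega
        · exact n5_7_6 (by omega)
        · rcases e1_4 with h | h | h | h | h | h
          · exact d0_1 (by omega)
          · exact n5_7_2 (by omega)
          · exact n5_7_3 (by omega)
          · exact n0_6_3 (by omega)
          · exact n0_3_1 (by omega)
          · exact d0_4 (by omega)
        · exact n3_4_5 (by omega)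
        · exact d1_5 (by omega)
      · exact d0_3 (by omega)
    · omega
    · rcases e1_3 with h | h | h | h | h | h
      · exact n4_7_0 (by omega)
      · exact n4_7_2 (by omega)
      · omega
      · exact n4_7_5 (by omega)
      · exact n4_7_6 (by omega)
      · exact d0_3 (by omega)
    · rcases e0_5 with h | h | h | h | h | h
      · rcases e1_3 with h | h | h | h | h | h
        · omega
        · omega
        · exact n3_7_5 (by omega)
        · exact n3_5_4 (by omega)
        · rcases e0_2 with h | h | h | h | h | h
          · exact d2_5 (by omega)
          · exact n2_7_6 (by omega)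
          · rcases e1_4 with h | h | h | h | h | h
            · omega
            · omega
            · exact n2_7_3 (by omega)
            · omega
            · exact n0_3_5 (by omega)
            · omega
          · exact d2_4 (by omega)
          · exact n3_5_2 (by omega)
          · exact d1_2 (by omega)
        · exact d0_3 (by omega)
      · omega
      · rcases e1_3 with h | h | h | h | h | h
        · exact n5_7_0 (by omega)
        · exact n5_7_2 (by omega)
        · exact n3_7_5 (by omega)
        · exact n1_5_4 (by omega)
        · exact n5_7_6 (by omega)
        · exact d0_3 (by omega)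
      · exact n0_7_1 (by omega)
      · rcases e1_3 with h | h | h | h | h | h
        · rcases e0_2 with h | h | h | h | h | h
          · omega
          · exact n2_7_0 (by omega)
          · rcases e1_4 with h | h | h | h | h | h
            · exact n0_3_5 (by omega)
            · exact n1_5_4 (by omega)
            · omega
            · exact d0_1 (by omega)
            · exact n1_2_5 (by omega)
            · omega
          · exact d2_4 (by omega)
          · exact d2_5 (by omega)
          · exact d1_2 (by omega)
        · omega
        · exact n3_7_5 (by omega)
        · exact n3_7_6 (by omega)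
        · rcases e1_4 with h | h | h | h | h | h
          · exact n4_5_3 (by omega)
          · omega
          · exact d0_1 (by omega)
          · exact d0_1 (by omega)
          · exact n0_3_5 (by omega)
          · exact d0_4 (by omega)
        · exact d0_3 (by omega)
      · exact d1_5 (by omega)
    · rcases e0_5 with h | h | h | h | h | h
      · rcases e1_3 with h | h | h | h | h | h
        · omega
        · omega
        · exact n3_7_6 (by omega)
        · exact n3_6_4 (by omega)
        · exact n3_5_4 (by omega)
        · exact d0_3 (by omega)
      · omega
      · rcases e1_3 with h | h | h | h | h | h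
        · exact n5_7_0 (by omega)
        · exact n5_7_2 (by omega)
        · exact n3_7_6 (by omega)
        · exact n1_6_4 (by omega)
        · exact n1_5_4 (by omega)
        · exact d0_3 (by omega)
      · rcases e1_4 with h | h | h | h | h | h
        · exact n5_7_0 (by omega)
        · exact n5_7_2 (by omega)
        · exact n5_7_3 (by omega)
        · exact n1_6_4 (by omega)
        · exact d0_1 (by omega)
        · exact d0_4 (by omega)
      · exact d4_5 (by omega)
      · exact d1_5 (by omega)
    · exact d1_4 (by omega)

theorem c3 (x0 x1 x2 x3 x4 x5 x6 x7 : ℕ) (h1 : x3 = 1)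
    (p0 : 2 ≤ x0) (p1 : 2 ≤ x1) (p2 : 2 ≤ x2) (p4 : 2 ≤ x4) (p5 : 2 ≤ x5) (p6 : 2 ≤ x6) (p7 : 2 ≤ x7)
    (d0_1 : NE x0 x1)
    (d0_2 : NE x0 x2)
    (d0_3 : NE x0 x3)
    (d0_4 : NE x0 x4)
    (d0_6 : NE x0 x6)
    (d0_7 : NE x0 x7)
    (d1_2 : NE x1 x2)
    (d1_4 : NE x1 x4)
    (d1_5 : NE x1 x5)
    (d2_4 : NE x2 x4)
    (d2_5 : NE x2 x5)
    (d4_5 : NE x4 x5)
    (e0_1 : O6 (x0 + x1) x2 x3 x4 x5 x6 x7)
    (e0_2 : O6 (x0 + x2) x1 x3 x4 x5 x6 x7)
    (n0_3_1 : NE (x0 + x3) x1)
    (n0_3_2 : NE (x0 + x3) x2)
    (n0_3_4 : NE (x0 + x3) x4)
    (n0_3_6 : NE (x0 + x3) x6)
    (n0_3_7 : NE (x0 + x3) x7)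
    (e0_4 : O6 (x0 + x4) x1 x2 x3 x5 x6 x7)
    (e0_5 : O6 (x0 + x5) x1 x2 x3 x4 x6 x7)
    (n0_6_1 : NE (x0 + x6) x1)
    (n0_6_2 : NE (x0 + x6) x2)
    (n0_6_3 : NE (x0 + x6) x3)
    (n0_6_4 : NE (x0 + x6) x4)
    (n0_6_5 : NE (x0 + x6) x5)
    (n0_6_7 : NE (x0 + x6) x7)
    (n0_7_1 : NE (x0 + x7) x1)
    (n0_7_2 : NE (x0 + x7) x2)
    (n0_7_3 : NE (x0 + x7) x3)
    (n0_7_5 : NE (x0 + x7) x5)
    (n0_7_6 : NE (x0 + x7) x6)
    (n1_2_3 : NE (x1 + x2) x3)
    (n1_2_4 : NE (x1 + x2) x4)
    (n1_2_5 : NE (x1 + x2) x5)
    (n1_2_6 : NE (x1 + x2) x6)
    (n1_2_7 : NE (x1 + x2) x7)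
    (e1_3 : O6 (x1 + x3) x0 x2 x4 x5 x6 x7)
    (e1_4 : O6 (x1 + x4) x0 x2 x3 x5 x6 x7)
    (n1_5_2 : NE (x1 + x5) x2)
    (n1_5_6 : NE (x1 + x5) x6)
    (n1_5_7 : NE (x1 + x5) x7)
    (n1_6_2 : NE (x1 + x6) x2)
    (n1_6_4 : NE (x1 + x6) x4)
    (n1_6_5 : NE (x1 + x6) x5)
    (n1_6_7 : NE (x1 + x6) x7)
    (n1_7_2 : NE (x1 + x7) x2)
    (n1_7_4 : NE (x1 + x7) x4)
    (n1_7_5 : NE (x1 + x7) x5)
    (n1_7_6 : NE (x1 + x7) x6)
    (e2_3 : O6 (x2 + x3) x0 x1 x4 x5 x6 x7)
    (e2_4 : O6 (x2 + x4) x0 x1 x3 x5 x6 x7)
    (n2_5_0 : NE (x2 + x5) x0)
    (n2_5_3 : NE (x2 + x5) x3)
    (n2_5_4 : NE (x2 + x5) x4)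
    (n2_5_6 : NE (x2 + x5) x6)
    (n2_5_7 : NE (x2 + x5) x7)
    (n2_6_0 : NE (x2 + x6) x0)
    (n2_6_1 : NE (x2 + x6) x1)
    (n2_6_3 : NE (x2 + x6) x3)
    (n2_6_5 : NE (x2 + x6) x5)
    (n2_6_7 : NE (x2 + x6) x7)
    (n2_7_0 : NE (x2 + x7) x0)
    (n2_7_1 : NE (x2 + x7) x1)
    (n2_7_3 : NE (x2 + x7) x3)
    (n2_7_5 : NE (x2 + x7) x5)
    (n2_7_6 : NE (x2 + x7) x6)
    (n3_4_1 : NE (x3 + x4) x1)
    (n3_4_2 : NE (x3 + x4) x2)
    (n3_4_5 : NE (x3 + x4) x5)
    (n3_5_1 : NE (x3 + x5) x1)
    (n3_5_2 : NE (x3 + x5) x2)
    (n3_5_4 : NE (x3 + x5) x4)
    (n3_5_6 : NE (x3 + x5) x6)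
    (n3_5_7 : NE (x3 + x5) x7)
    (n3_6_1 : NE (x3 + x6) x1)
    (n3_6_2 : NE (x3 + x6) x2)
    (n3_6_5 : NE (x3 + x6) x5)
    (n3_6_7 : NE (x3 + x6) x7)
    (n3_7_1 : NE (x3 + x7) x1)
    (n3_7_2 : NE (x3 + x7) x2)
    (n3_7_5 : NE (x3 + x7) x5)
    (n3_7_6 : NE (x3 + x7) x6)
    (n4_5_1 : NE (x4 + x5) x1)
    (n4_6_1 : NE (x4 + x6) x1)
    (n4_6_2 : NE (x4 + x6) x2)
    (n4_6_3 : NE (x4 + x6) x3)
    (n4_6_7 : NE (x4 + x6) x7)
    (n4_7_1 : NE (x4 + x7) x1)
    (n4_7_2 : NE (x4 + x7) x2)
    (n4_7_3 : NE (x4 + x7) x3)
    (n4_7_6 : NE (x4 + x7) x6)
    (n5_6_0 : NE (x5 + x6) x0)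
    (n5_6_3 : NE (x5 + x6) x3)
    (n5_6_7 : NE (x5 + x6) x7)
    (n5_7_0 : NE (x5 + x7) x0)
    (n5_7_3 : NE (x5 + x7) x3)
    (n5_7_6 : NE (x5 + x7) x6)
    : False := by
  rcases e0_1 with h | h | h | h | h | h
  · rcases e2_4 with h | h | h | h | h | h
    · omega
    · omega
    · omega
    · rcases e0_4 with h | h | h | h | h | h
      · rcases e0_5 with h | h | h | h | h | h
        · exact n2_5_4 (by omega)
        · exact d0_2 (by omega)
        · exact n1_2_3 (by omega)
        · exact n1_2_4 (by omega)
        · exact n1_2_6 (by omega)
        · exact n1_2_7 (by omega)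
      · exact n1_2_5 (by omega)
      · omega
      · exact d0_2 (by omega)
      · exact n1_6_5 (by omega)
      · exact n1_7_5 (by omega)
    · rcases e0_4 with h | h | h | h | h | h
      · rcases e1_4 with h | h | h | h | h | h
        · exact d0_1 (by omega)
        · exact d0_4 (by omega)
        · exact n0_3_6 (by omega)
        · rcases e1_3 with h | h | h | h | h | h
          · exact n3_5_1 (by omega)
          · exact d0_3 (by omega)
          · exact n3_6_5 (by omega)
          · exact n0_3_1 (by omega)
          · exact n0_3_2 (by omega)
          · rcases e2_3 with h | h | h | h | h | h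
            · exact n3_5_4 (by omega)
            · exact n0_7_1 (by omega)
            · omega
            · exact n0_3_4 (by omega)
            · exact n0_3_1 (by omega)
            · exact n0_6_5 (by omega)
        · exact d1_2 (by omega)
        · exact n0_7_6 (by omega)
      · exact n1_2_6 (by omega)
      · omega
      · exact n1_5_6 (by omega)
      · exact d0_2 (by omega)
      · exact n1_7_6 (by omega)
    · rcases e0_4 with h | h | h | h | h | h
      · rcases e1_4 with h | h | h | h | h | h
        · exact d0_1 (by omega)
        · exact d0_4 (by omega)
        · exact n0_3_7 (by omega)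
        · rcases e1_3 with h | h | h | h | h | h
          · exact n3_5_1 (by omega)
          · exact d0_3 (by omega)
          · exact n3_7_5 (by omega)
          · exact n0_3_1 (by omega)
          · rcases e2_3 with h | h | h | h | h | h
            · exact n3_5_4 (by omega)
            · exact n0_6_1 (by omega)
            · omega
            · exact n0_3_4 (by omega)
            · exact n0_7_5 (by omega)
            · exact n0_3_1 (by omega)
          · exact n0_3_2 (by omega)
        · exact n0_6_7 (by omega)
        · exact d1_2 (by omega)
      · exact n1_2_7 (by omega)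
      · omega
      · exact n1_5_7 (by omega)
      · exact n1_6_7 (by omega)
      · exact d0_2 (by omega)
  · omega
  · rcases e2_4 with h | h | h | h | h | h
    · omega
    · omega
    · omega
    · rcases e0_2 with h | h | h | h | h | h
      · rcases e0_4 with h | h | h | h | h | h
        · exact d1_2 (by omega)
        · exact d1_2 (by omega)
        · omega
        · exact d0_2 (by omega)
        · rcases e0_5 with h | h | h | h | h | h
          · exact d0_6 (by omega)
          · omega
          · exact n2_6_3 (by omega)
          · exact d0_4 (by omega)
          · exact d0_1 (by omega)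
          · exact n2_6_7 (by omega)
        · rcases e0_5 with h | h | h | h | h | h
          · exact d0_7 (by omega)
          · omega
          · exact n2_7_3 (by omega)
          · exact d0_4 (by omega)
          · exact n2_7_6 (by omega)
          · exact d0_1 (by omega)
      · omega
      · exact d1_2 (by omega)
      · exact d0_4 (by omega)
      · exact n1_6_5 (by omega)
      · exact n1_7_5 (by omega)
    · rcases e0_2 with h | h | h | h | h | h
      · rcases e1_4 with h | h | h | h | h | h
        · exact d0_4 (by omega)
        · exact n0_6_2 (by omega)
        · exact n0_6_3 (by omega)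
        · exact n0_6_5 (by omega)
        · exact d1_2 (by omega)
        · exact n0_6_7 (by omega)
      · omega
      · exact d1_2 (by omega)
      · exact n1_5_6 (by omega)
      · exact d0_4 (by omega)
      · exact n1_7_6 (by omega)
    · rcases e0_2 with h | h | h | h | h | h
      · rcases e1_4 with h | h | h | h | h | h
        · exact d0_4 (by omega)
        · exact n0_7_2 (by omega)
        · exact n0_7_3 (by omega)
        · exact n0_7_5 (by omega)
        · exact n0_7_6 (by omega)
        · exact d1_2 (by omega)
      · omega
      · exact d1_2 (by omega)
      · exact n1_5_7 (by omega)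
      · exact n1_6_7 (by omega)
      · exact d0_4 (by omega)
  · rcases e0_2 with h | h | h | h | h | h
    · rcases e1_4 with h | h | h | h | h | h
      · omega
      · exact n4_5_1 (by omega)
      · omega
      · exact d0_4 (by omega)
      · rcases e0_4 with h | h | h | h | h | h
        · exact n1_2_6 (by omega)
        · rcases e1_3 with h | h | h | h | h | h
          · exact n3_6_2 (by omega)
          · exact n3_5_1 (by omega)
          · omega
          · exact d0_3 (by omega)
          · exact n0_3_2 (by omega)
          · rcases e2_3 with h | h | h | h | h | h
            · exact n2_7_5 (by omega)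
            · exact d0_3 (by omega)
            · exact n0_7_1 (by omega)
            · omega
            · exact n0_3_1 (by omega)
            · exact d1_2 (by omega)
        · omega
        · exact d1_4 (by omega)
        · exact d0_1 (by omega)
        · exact n2_7_6 (by omega)
      · rcases e0_4 with h | h | h | h | h | h
        · exact n1_2_7 (by omega)
        · rcases e1_3 with h | h | h | h | h | h
          · exact n3_7_2 (by omega)
          · exact n3_5_1 (by omega)
          · omega
          · exact d0_3 (by omega)
          · rcases e2_3 with h | h | h | h | h | h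
            · exact n2_6_5 (by omega)
            · exact d0_3 (by omega)
            · exact n0_6_1 (by omega)
            · omega
            · exact d1_2 (by omega)
            · exact n0_3_1 (by omega)
          · exact n0_3_2 (by omega)
        · omega
        · exact d1_4 (by omega)
        · exact n2_6_7 (by omega)
        · exact d0_1 (by omega)
    · omega
    · rcases e1_4 with h | h | h | h | h | h
      · exact n2_5_0 (by omega)
      · omega
      · exact n2_5_3 (by omega)
      · exact d0_4 (by omega)
      · exact n2_5_6 (by omega)
      · exact n2_5_7 (by omega)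
    · exact d1_2 (by omega)
    · rcases e0_4 with h | h | h | h | h | h
      · rcases e1_3 with h | h | h | h | h | h
        · omega
        · exact n3_5_6 (by omega)
        · exact n3_5_1 (by omega)
        · exact d0_3 (by omega)
        · exact n3_4_2 (by omega)
        · rcases e0_5 with h | h | h | h | h | h
          · exact n0_6_2 (by omega)
          · rcases e2_3 with h | h | h | h | h | h
            · exact n1_7_4 (by omega)
            · omega
            · omega
            · exact n0_7_1 (by omega)
            · exact d0_3 (by omega)
            · exact n0_6_1 (by omega)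
          · omega
          · exact n0_6_2 (by omega)
          · exact d2_5 (by omega)
          · omega
      · rcases e2_3 with h | h | h | h | h | h
        · omega
        · exact n3_6_5 (by omega)
        · exact n3_5_1 (by omega)
        · exact n3_4_1 (by omega)
        · exact d0_3 (by omega)
        · rcases e0_5 with h | h | h | h | h | h
          · exact n0_6_2 (by omega)
          · exact d4_5 (by omega)
          · exact n5_6_7 (by omega)
          · rcases e1_3 with h | h | h | h | h | h
            · exact n1_7_6 (by omega)
            · omega
            · omega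
            · exact d0_3 (by omega)
            · omega
            · exact n0_6_1 (by omega)
          · exact d1_4 (by omega)
          · exact n3_4_5 (by omega)
      · omega
      · exact d1_4 (by omega)
      · exact d2_4 (by omega)
      · rcases e0_5 with h | h | h | h | h | h
        · exact n0_6_2 (by omega)
        · rcases e2_3 with h | h | h | h | h | h
          · omega
          · omega
          · exact n3_6_7 (by omega)
          · exact n3_5_1 (by omega)
          · exact d0_3 (by omega)
          · exact n3_5_4 (by omega)
        · omega
        · rcases e1_4 with h | h | h | h | h | h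
          · omega
          · exact n1_7_6 (by omega)
          · omega
          · exact d0_4 (by omega)
          · exact n1_5_2 (by omega)
          · exact d0_1 (by omega)
        · exact d2_5 (by omega)
        · exact d4_5 (by omega)
    · rcases e0_4 with h | h | h | h | h | h
      · rcases e1_3 with h | h | h | h | h | h
        · omega
        · exact n3_5_7 (by omega)
        · exact n3_5_1 (by omega)
        · exact d0_3 (by omega)
        · rcases e0_5 with h | h | h | h | h | h
          · exact n0_7_2 (by omega)
          · rcases e2_3 with h | h | h | h | h | h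
            · exact n1_6_4 (by omega)
            · omega
            · omega
            · exact n0_6_1 (by omega)
            · exact n0_7_1 (by omega)
            · exact d0_3 (by omega)
          · omega
          · exact n0_7_2 (by omega)
          · omega
          · exact d2_5 (by omega)
        · exact n3_4_2 (by omega)
      · rcases e2_3 with h | h | h | h | h | h
        · omega
        · exact n3_7_5 (by omega)
        · exact n3_5_1 (by omega)
        · exact n3_4_1 (by omega)
        · rcases e0_5 with h | h | h | h | h | h
          · exact n0_7_2 (by omega)
          · exact d4_5 (by omega)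
          · exact n5_7_6 (by omega)
          · rcases e1_3 with h | h | h | h | h | h
            · exact n1_6_7 (by omega)
            · omega
            · omega
            · exact d0_3 (by omega)
            · exact n0_7_1 (by omega)
            · omega
          · exact n3_4_5 (by omega)
          · exact d1_4 (by omega)
        · exact d0_3 (by omega)
      · omega
      · exact d1_4 (by omega)
      · rcases e0_5 with h | h | h | h | h | h
        · exact n0_6_4 (by omega)
        · rcases e2_3 with h | h | h | h | h | h
          · omega
          · omega
          · exact n3_7_6 (by omega)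
          · exact n3_5_1 (by omega)
          · exact n3_5_4 (by omega)
          · exact d0_3 (by omega)
        · omega
        · rcases e1_4 with h | h | h | h | h | h
          · omega
          · exact n1_6_7 (by omega)
          · omega
          · exact d0_4 (by omega)
          · exact d0_1 (by omega)
          · exact n1_5_2 (by omega)
        · exact d4_5 (by omega)
        · exact d2_5 (by omega)
      · exact d2_4 (by omega)
  · rcases e0_2 with h | h | h | h | h | h
    · rcases e1_4 with h | h | h | h | h | h
      · omega
      · exact n4_6_1 (by omega)
      · omega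
      · rcases e0_5 with h | h | h | h | h | h
        · exact d2_5 (by omega)
        · exact n4_6_2 (by omega)
        · exact n4_6_3 (by omega)
        · omega
        · exact d1_5 (by omega)
        · exact n4_6_7 (by omega)
      · exact d0_4 (by omega)
      · rcases e0_4 with h | h | h | h | h | h
        · exact n1_2_7 (by omega)
        · rcases e0_5 with h | h | h | h | h | h
          · exact d2_5 (by omega)
          · exact n1_5_7 (by omega)
          · omega
          · exact n5_6_7 (by omega)
          · exact d1_5 (by omega)
          · rcases e1_3 with h | h | h | h | h | h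
            · exact n3_5_4 (by omega)
            · exact n3_6_1 (by omega)
            · omega
            · exact n0_3_4 (by omega)
            · exact d0_3 (by omega)
            · exact n0_3_2 (by omega)
        · omega
        · exact n2_5_7 (by omega)
        · exact d1_4 (by omega)
        · exact d0_1 (by omega)
    · omega
    · rcases e1_4 with h | h | h | h | h | h
      · exact n2_6_0 (by omega)
      · omega
      · exact n2_6_3 (by omega)
      · exact n2_6_5 (by omega)
      · exact d0_4 (by omega)
      · exact n2_6_7 (by omega)
    · rcases e0_4 with h | h | h | h | h | h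
      · rcases e1_3 with h | h | h | h | h | h
        · omega
        · exact n3_6_5 (by omega)
        · exact n3_5_2 (by omega)
        · exact n3_4_2 (by omega)
        · exact d0_3 (by omega)
        · rcases e0_5 with h | h | h | h | h | h
          · exact d4_5 (by omega)
          · exact n0_6_1 (by omega)
          · exact n5_6_7 (by omega)
          · rcases e1_4 with h | h | h | h | h | h
            · exact d0_1 (by omega)
            · exact n1_6_4 (by omega)
            · exact n5_6_3 (by omega)
            · exact n0_7_3 (by omega)
            · exact d0_4 (by omega)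
            · exact n0_3_1 (by omega)
          · exact d1_5 (by omega)
          · exact n3_4_5 (by omega)
      · rcases e2_3 with h | h | h | h | h | h
        · omega
        · exact n3_5_6 (by omega)
        · exact n3_5_2 (by omega)
        · exact d0_3 (by omega)
        · exact n3_4_1 (by omega)
        · rcases e0_5 with h | h | h | h | h | h
          · rcases e1_3 with h | h | h | h | h | h
            · exact n1_7_5 (by omega)
            · omega
            · omega
            · exact n0_7_2 (by omega)
            · exact d0_3 (by omega)
            · exact n0_6_1 (by omega)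
          · exact n0_6_1 (by omega)
          · omega
          · exact n0_6_1 (by omega)
          · exact d1_5 (by omega)
          · omega
      · omega
      · exact d2_4 (by omega)
      · exact d1_4 (by omega)
      · rcases e0_5 with h | h | h | h | h | h
        · rcases e1_3 with h | h | h | h | h | h
          · omega
          · omega
          · exact n3_6_7 (by omega)
          · exact n3_5_2 (by omega)
          · exact d0_3 (by omega)
          · exact n3_5_4 (by omega)
        · exact n0_6_1 (by omega)
        · omega
        · rcases e1_4 with h | h | h | h | h | h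
          · exact n5_6_0 (by omega)
          · exact n1_7_5 (by omega)
          · exact n5_6_3 (by omega)
          · exact n1_5_2 (by omega)
          · exact d0_4 (by omega)
          · exact d0_1 (by omega)
        · exact d1_5 (by omega)
        · exact d4_5 (by omega)
    · exact d1_2 (by omega)
    · rcases e0_4 with h | h | h | h | h | h
      · rcases e1_3 with h | h | h | h | h | h
        · omega
        · exact n3_6_7 (by omega)
        · exact n3_6_1 (by omega)
        · rcases e0_5 with h | h | h | h | h | h
          · exact n3_6_1 (by omega)
          · exact n3_6_2 (by omega)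
          · exact n1_7_2 (by omega)
          · omega
          · omega
          · exact d2_5 (by omega)
        · exact d0_3 (by omega)
        · exact n3_4_2 (by omega)
      · rcases e2_3 with h | h | h | h | h | h
        · omega
        · exact n3_7_6 (by omega)
        · exact n3_6_1 (by omega)
        · rcases e0_5 with h | h | h | h | h | h
          · exact n3_7_1 (by omega)
          · exact n3_6_1 (by omega)
          · exact n2_6_1 (by omega)
          · omega
          · exact d1_5 (by omega)
          · omega
        · exact n3_4_1 (by omega)
        · exact d0_3 (by omega)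
      · omega
      · rcases e0_5 with h | h | h | h | h | h
        · rcases e1_3 with h | h | h | h | h | h
          · omega
          · exact n3_6_7 (by omega)
          · omega
          · exact n3_5_4 (by omega)
          · exact d0_3 (by omega)
          · exact n3_5_2 (by omega)
        · rcases e2_3 with h | h | h | h | h | h
          · omega
          · exact n3_7_6 (by omega)
          · omega
          · exact n3_5_4 (by omega)
          · exact n3_5_1 (by omega)
          · exact d0_3 (by omega)
        · omega
        · exact n0_6_1 (by omega)
        · exact d1_5 (by omega)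
        · exact d2_5 (by omega)
      · exact d1_4 (by omega)
      · exact d2_4 (by omega)
  · rcases e0_2 with h | h | h | h | h | h
    · rcases e1_4 with h | h | h | h | h | h
      · omega
      · exact n4_7_1 (by omega)
      · omega
      · rcases e0_5 with h | h | h | h | h | h
        · exact d2_5 (by omega)
        · exact n4_7_2 (by omega)
        · exact n4_7_3 (by omega)
        · omega
        · exact n4_7_6 (by omega)
        · exact d1_5 (by omega)
      · rcases e0_4 with h | h | h | h | h | h
        · exact n1_2_6 (by omega)
        · rcases e0_5 with h | h | h | h | h | h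
          · exact d2_5 (by omega)
          · exact n1_5_6 (by omega)
          · omega
          · exact n5_7_6 (by omega)
          · rcases e1_3 with h | h | h | h | h | h
            · exact n3_5_4 (by omega)
            · exact n3_6_5 (by omega)
            · omega
            · exact n0_3_4 (by omega)
            · exact n0_3_2 (by omega)
            · exact d0_3 (by omega)
          · exact d1_5 (by omega)
        · omega
        · exact n2_5_6 (by omega)
        · exact d0_1 (by omega)
        · exact d1_4 (by omega)
      · exact d0_4 (by omega)
    · omega
    · rcases e1_4 with h | h | h | h | h | h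
      · exact n2_7_0 (by omega)
      · omega
      · exact n2_7_3 (by omega)
      · exact n2_7_5 (by omega)
      · exact n2_7_6 (by omega)
      · exact d0_4 (by omega)
    · rcases e0_4 with h | h | h | h | h | h
      · rcases e1_3 with h | h | h | h | h | h
        · omega
        · exact n3_7_5 (by omega)
        · exact n3_5_2 (by omega)
        · exact n3_4_2 (by omega)
        · rcases e0_5 with h | h | h | h | h | h
          · exact d4_5 (by omega)
          · exact n0_7_1 (by omega)
          · exact n5_7_6 (by omega)
          · rcases e1_4 with h | h | h | h | h | h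
            · exact d0_1 (by omega)
            · exact n1_7_4 (by omega)
            · exact n5_7_3 (by omega)
            · exact n0_6_3 (by omega)
            · exact n0_3_1 (by omega)
            · exact d0_4 (by omega)
          · exact n3_4_5 (by omega)
          · exact d1_5 (by omega)
        · exact d0_3 (by omega)
      · rcases e2_3 with h | h | h | h | h | h
        · omega
        · exact n3_5_7 (by omega)
        · exact n3_5_2 (by omega)
        · exact d0_3 (by omega)
        · rcases e0_5 with h | h | h | h | h | h
          · rcases e1_3 with h | h | h | h | h | h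
            · exact n1_6_5 (by omega)
            · omega
            · omega
            · exact n0_6_2 (by omega)
            · exact n0_7_1 (by omega)
            · exact d0_3 (by omega)
          · exact n0_7_1 (by omega)
          · omega
          · exact n0_7_1 (by omega)
          · omega
          · exact d1_5 (by omega)
        · exact n3_4_1 (by omega)
      · omega
      · exact d2_4 (by omega)
      · rcases e0_5 with h | h | h | h | h | h
        · rcases e1_3 with h | h | h | h | h | h
          · omega
          · omega
          · exact n3_7_6 (by omega)
          · exact n3_5_2 (by omega)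
          · exact n3_5_4 (by omega)
          · exact d0_3 (by omega)
        · exact n0_6_4 (by omega)
        · omega
        · rcases e1_4 with h | h | h | h | h | h
          · exact n5_7_0 (by omega)
          · exact n1_6_5 (by omega)
          · exact n5_7_3 (by omega)
          · exact n1_5_2 (by omega)
          · exact d0_1 (by omega)
          · exact d0_4 (by omega)
        · exact d4_5 (by omega)
        · exact d1_5 (by omega)
      · exact d1_4 (by omega)
    · rcases e0_4 with h | h | h | h | h | h
      · rcases e1_3 with h | h | h | h | h | h
        · omega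
        · exact n3_7_6 (by omega)
        · exact n3_6_2 (by omega)
        · rcases e0_5 with h | h | h | h | h | h
          · exact n3_6_2 (by omega)
          · exact n3_7_2 (by omega)
          · exact n1_6_2 (by omega)
          · omega
          · exact d2_5 (by omega)
          · omega
        · exact n3_4_2 (by omega)
        · exact d0_3 (by omega)
      · rcases e2_3 with h | h | h | h | h | h
        · omega
        · exact n3_6_7 (by omega)
        · exact n3_6_2 (by omega)
        · rcases e0_5 with h | h | h | h | h | h
          · exact n3_6_1 (by omega)
          · exact n3_6_2 (by omega)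
          · exact n2_7_1 (by omega)
          · omega
          · omega
          · exact d1_5 (by omega)
        · exact d0_3 (by omega)
        · exact n3_4_1 (by omega)
      · omega
      · rcases e0_5 with h | h | h | h | h | h
        · rcases e1_3 with h | h | h | h | h | h
          · omega
          · exact n3_7_6 (by omega)
          · omega
          · exact n3_5_4 (by omega)
          · exact n3_5_2 (by omega)
          · exact d0_3 (by omega)
        · rcases e2_3 with h | h | h | h | h | h
          · omega
          · exact n3_6_7 (by omega)
          · omega
          · exact n3_5_4 (by omega)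
          · exact d0_3 (by omega)
          · exact n3_5_1 (by omega)
        · omega
        · exact n0_6_2 (by omega)
        · exact d2_5 (by omega)
        · exact d1_5 (by omega)
      · exact d2_4 (by omega)
      · exact d1_4 (by omega)
    · exact d1_2 (by omega)

theorem c4 (x0 x1 x2 x3 x4 x5 x6 x7 : ℕ) (h1 : x4 = 1)
    (p0 : 2 ≤ x0) (p1 : 2 ≤ x1) (p2 : 2 ≤ x2) (p3 : 2 ≤ x3) (p5 : 2 ≤ x5) (p6 : 2 ≤ x6) (p7 : 2 ≤ x7)
    (d0_1 : NE x0 x1)
    (d0_2 : NE x0 x2)
    (d0_3 : NE x0 x3)
    (d0_4 : NE x0 x4)
    (d0_5 : NE x0 x5)
    (d0_6 : NE x0 x6)
    (d0_7 : NE x0 x7)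
    (d1_2 : NE x1 x2)
    (d1_4 : NE x1 x4)
    (d1_5 : NE x1 x5)
    (d2_4 : NE x2 x4)
    (d2_5 : NE x2 x5)
    (d3_4 : NE x3 x4)
    (d4_5 : NE x4 x5)
    (e0_1 : O6 (x0 + x1) x2 x3 x4 x5 x6 x7)
    (e0_2 : O6 (x0 + x2) x1 x3 x4 x5 x6 x7)
    (n0_3_1 : NE (x0 + x3) x1)
    (n0_3_2 : NE (x0 + x3) x2)
    (n0_3_4 : NE (x0 + x3) x4)
    (e0_4 : O6 (x0 + x4) x1 x2 x3 x5 x6 x7)
    (e0_5 : O6 (x0 + x5) x1 x2 x3 x4 x6 x7)
    (n0_6_1 : NE (x0 + x6) x1)
    (n0_6_2 : NE (x0 + x6) x2)
    (n0_6_4 : NE (x0 + x6) x4)
    (n0_6_5 : NE (x0 + x6) x5)
    (n0_6_7 : NE (x0 + x6) x7)
    (n0_7_1 : NE (x0 + x7) x1)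
    (n0_7_2 : NE (x0 + x7) x2)
    (n0_7_4 : NE (x0 + x7) x4)
    (n0_7_5 : NE (x0 + x7) x5)
    (n0_7_6 : NE (x0 + x7) x6)
    (e1_3 : O6 (x1 + x3) x0 x2 x4 x5 x6 x7)
    (e1_4 : O6 (x1 + x4) x0 x2 x3 x5 x6 x7)
    (n1_5_2 : NE (x1 + x5) x2)
    (n1_5_3 : NE (x1 + x5) x3)
    (n1_5_4 : NE (x1 + x5) x4)
    (n1_5_6 : NE (x1 + x5) x6)
    (n1_5_7 : NE (x1 + x5) x7)
    (n1_6_0 : NE (x1 + x6) x0)
    (n1_6_2 : NE (x1 + x6) x2)
    (n1_6_3 : NE (x1 + x6) x3)
    (n1_6_4 : NE (x1 + x6) x4)
    (n1_6_5 : NE (x1 + x6) x5)
    (n1_6_7 : NE (x1 + x6) x7)
    (n1_7_0 : NE (x1 + x7) x0)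
    (n1_7_2 : NE (x1 + x7) x2)
    (n1_7_3 : NE (x1 + x7) x3)
    (n1_7_4 : NE (x1 + x7) x4)
    (n1_7_5 : NE (x1 + x7) x5)
    (n1_7_6 : NE (x1 + x7) x6)
    (e2_3 : O6 (x2 + x3) x0 x1 x4 x5 x6 x7)
    (e2_4 : O6 (x2 + x4) x0 x1 x3 x5 x6 x7)
    (n2_5_0 : NE (x2 + x5) x0)
    (n2_5_1 : NE (x2 + x5) x1)
    (n2_5_3 : NE (x2 + x5) x3)
    (n2_5_4 : NE (x2 + x5) x4)
    (n2_5_6 : NE (x2 + x5) x6)
    (n2_5_7 : NE (x2 + x5) x7)
    (n2_6_0 : NE (x2 + x6) x0)
    (n2_6_3 : NE (x2 + x6) x3)
    (n2_6_4 : NE (x2 + x6) x4)
    (n2_6_5 : NE (x2 + x6) x5)
    (n2_6_7 : NE (x2 + x6) x7)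
    (n2_7_0 : NE (x2 + x7) x0)
    (n2_7_3 : NE (x2 + x7) x3)
    (n2_7_4 : NE (x2 + x7) x4)
    (n2_7_5 : NE (x2 + x7) x5)
    (n2_7_6 : NE (x2 + x7) x6)
    (n3_4_0 : NE (x3 + x4) x0)
    (n3_4_1 : NE (x3 + x4) x1)
    (n3_4_2 : NE (x3 + x4) x2)
    (n3_4_5 : NE (x3 + x4) x5)
    (n3_5_1 : NE (x3 + x5) x1)
    (n3_5_2 : NE (x3 + x5) x2)
    (n3_5_4 : NE (x3 + x5) x4)
    (n3_6_1 : NE (x3 + x6) x1)
    (n3_6_2 : NE (x3 + x6) x2)
    (n3_6_4 : NE (x3 + x6) x4)
    (n3_6_5 : NE (x3 + x6) x5)
    (n3_6_7 : NE (x3 + x6) x7)
    (n3_7_1 : NE (x3 + x7) x1)
    (n3_7_2 : NE (x3 + x7) x2)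
    (n3_7_4 : NE (x3 + x7) x4)
    (n3_7_5 : NE (x3 + x7) x5)
    (n3_7_6 : NE (x3 + x7) x6)
    (n4_5_3 : NE (x4 + x5) x3)
    (n4_6_1 : NE (x4 + x6) x1)
    (n4_6_2 : NE (x4 + x6) x2)
    (n4_6_5 : NE (x4 + x6) x5)
    (n4_6_7 : NE (x4 + x6) x7)
    (n4_7_6 : NE (x4 + x7) x6)
    (n5_6_0 : NE (x5 + x6) x0)
    (n5_6_4 : NE (x5 + x6) x4)
    (n5_6_7 : NE (x5 + x6) x7)
    (n5_7_0 : NE (x5 + x7) x0)
    (n5_7_4 : NE (x5 + x7) x4)
    (n5_7_6 : NE (x5 + x7) x6)
    : False := by
  rcases e0_1 with h | h | h | h | h | h
  · rcases e2_3 with h | h | h | h | h | h
    · omega
    · omega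
    · omega
    · rcases e1_3 with h | h | h | h | h | h
      · rcases e0_2 with h | h | h | h | h | h
        · exact d0_5 (by omega)
        · exact n1_5_3 (by omega)
        · exact n1_5_4 (by omega)
        · exact d0_2 (by omega)
        · exact n1_5_6 (by omega)
        · exact n1_5_7 (by omega)
      · exact d0_3 (by omega)
      · omega
      · exact d1_2 (by omega)
      · exact n0_6_5 (by omega)
      · exact n0_7_5 (by omega)
    · rcases e1_3 with h | h | h | h | h | h
      · rcases e0_2 with h | h | h | h | h | h
        · exact d0_6 (by omega)
        · exact n1_6_3 (by omega)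
        · exact n1_6_4 (by omega)
        · exact n1_6_5 (by omega)
        · exact d0_2 (by omega)
        · exact n1_6_7 (by omega)
      · exact d0_3 (by omega)
      · omega
      · rcases e0_2 with h | h | h | h | h | h
        · exact n0_6_5 (by omega)
        · rcases e2_4 with h | h | h | h | h | h
          · exact n4_5_3 (by omega)
          · exact n3_4_2 (by omega)
          · exact d0_4 (by omega)
          · exact d2_4 (by omega)
          · exact d3_4 (by omega)
          · rcases e1_4 with h | h | h | h | h | h
            · exact n1_7_3 (by omega)
            · exact d0_4 (by omega)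
            · omega
            · exact d3_4 (by omega)
            · exact n0_3_4 (by omega)
            · exact n0_3_1 (by omega)
        · omega
        · rcases e0_4 with h | h | h | h | h | h
          · exact n3_4_2 (by omega)
          · exact d1_4 (by omega)
          · exact d0_4 (by omega)
          · exact d2_4 (by omega)
          · exact d4_5 (by omega)
          · rcases e2_4 with h | h | h | h | h | h
            · exact n1_7_0 (by omega)
            · exact n3_4_0 (by omega)
            · exact n1_7_3 (by omega)
            · exact d0_4 (by omega)
            · omega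
            · exact d0_2 (by omega)
        · exact d0_3 (by omega)
        · rcases e2_4 with h | h | h | h | h | h
          · exact n4_5_3 (by omega)
          · exact n4_6_5 (by omega)
          · rcases e1_4 with h | h | h | h | h | h
            · exact n0_7_6 (by omega)
            · exact d0_4 (by omega)
            · exact n0_6_5 (by omega)
            · exact d0_7 (by omega)
            · exact n0_3_4 (by omega)
            · omega
          · exact n4_7_6 (by omega)
          · exact d3_4 (by omega)
          · exact d0_4 (by omega)
      · exact d1_2 (by omega)
      · exact n0_7_6 (by omega)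
    · rcases e1_3 with h | h | h | h | h | h
      · rcases e0_2 with h | h | h | h | h | h
        · exact d0_7 (by omega)
        · exact n1_7_3 (by omega)
        · exact n1_7_4 (by omega)
        · exact n1_7_5 (by omega)
        · exact n1_7_6 (by omega)
        · exact d0_2 (by omega)
      · exact d0_3 (by omega)
      · omega
      · rcases e0_2 with h | h | h | h | h | h
        · exact n0_7_5 (by omega)
        · rcases e2_4 with h | h | h | h | h | h
          · exact n4_5_3 (by omega)
          · exact n3_4_2 (by omega)
          · exact d0_4 (by omega)
          · exact d2_4 (by omega)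
          · rcases e1_4 with h | h | h | h | h | h
            · exact n1_6_3 (by omega)
            · exact d0_4 (by omega)
            · omega
            · exact d3_4 (by omega)
            · exact n0_3_1 (by omega)
            · exact n0_3_4 (by omega)
          · exact d3_4 (by omega)
        · omega
        · rcases e0_4 with h | h | h | h | h | h
          · exact n3_4_2 (by omega)
          · exact d1_4 (by omega)
          · exact d0_4 (by omega)
          · exact d2_4 (by omega)
          · rcases e2_4 with h | h | h | h | h | h
            · exact n1_6_0 (by omega)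
            · exact n3_4_0 (by omega)
            · exact n1_6_3 (by omega)
            · exact d0_4 (by omega)
            · exact d0_2 (by omega)
            · omega
          · exact d4_5 (by omega)
        · rcases e2_4 with h | h | h | h | h | h
          · exact n4_5_3 (by omega)
          · exact n4_6_2 (by omega)
          · rcases e1_4 with h | h | h | h | h | h
            · exact n0_6_7 (by omega)
            · exact d0_4 (by omega)
            · exact n0_6_1 (by omega)
            · exact d0_6 (by omega)
            · omega
            · exact n0_3_4 (by omega)
          · exact n4_6_7 (by omega)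
          · exact d0_4 (by omega)
          · exact d3_4 (by omega)
        · exact d0_3 (by omega)
      · exact n0_6_7 (by omega)
      · exact d1_2 (by omega)
  · rcases e2_3 with h | h | h | h | h | h
    · omega
    · omega
    · omega
    · rcases e0_2 with h | h | h | h | h | h
      · rcases e0_5 with h | h | h | h | h | h
        · exact d2_5 (by omega)
        · omega
        · exact d0_3 (by omega)
        · omega
        · rcases e1_4 with h | h | h | h | h | h
          · exact n4_5_3 (by omega)
          · exact n3_4_1 (by omega)
          · exact d0_4 (by omega)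
          · exact d1_4 (by omega)
          · exact d3_4 (by omega)
          · rcases e2_4 with h | h | h | h | h | h
            · exact n2_7_3 (by omega)
            · exact d0_4 (by omega)
            · omega
            · exact d3_4 (by omega)
            · exact n0_3_4 (by omega)
            · exact n0_3_1 (by omega)
        · rcases e1_4 with h | h | h | h | h | h
          · exact n4_5_3 (by omega)
          · exact n3_4_1 (by omega)
          · exact d0_4 (by omega)
          · exact d1_4 (by omega)
          · rcases e2_4 with h | h | h | h | h | h
            · exact n2_6_3 (by omega)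
            · exact d0_4 (by omega)
            · omega
            · exact d3_4 (by omega)
            · exact n0_3_1 (by omega)
            · exact n0_3_4 (by omega)
          · exact d3_4 (by omega)
      · exact d1_2 (by omega)
      · omega
      · exact d0_3 (by omega)
      · exact n1_6_5 (by omega)
      · exact n1_7_5 (by omega)
    · rcases e0_2 with h | h | h | h | h | h
      · rcases e1_3 with h | h | h | h | h | h
        · exact d0_3 (by omega)
        · exact n0_6_2 (by omega)
        · exact n0_6_4 (by omega)
        · exact n0_6_5 (by omega)
        · exact n0_3_1 (by omega)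
        · exact n0_6_7 (by omega)
      · exact d1_2 (by omega)
      · omega
      · exact n1_5_6 (by omega)
      · exact d0_3 (by omega)
      · exact n1_7_6 (by omega)
    · rcases e0_2 with h | h | h | h | h | h
      · rcases e1_3 with h | h | h | h | h | h
        · exact d0_3 (by omega)
        · exact n0_7_2 (by omega)
        · exact n0_7_4 (by omega)
        · exact n0_7_5 (by omega)
        · exact n0_7_6 (by omega)
        · exact n0_3_1 (by omega)
      · exact d1_2 (by omega)
      · omega
      · exact n1_5_7 (by omega)
      · exact n1_6_7 (by omega)
      · exact d0_3 (by omega)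
  · omega
  · rcases e0_2 with h | h | h | h | h | h
    · rcases e1_3 with h | h | h | h | h | h
      · omega
      · exact n3_5_1 (by omega)
      · omega
      · exact d0_3 (by omega)
      · rcases e2_3 with h | h | h | h | h | h
        · exact n2_6_5 (by omega)
        · exact d0_3 (by omega)
        · omega
        · rcases e0_4 with h | h | h | h | h | h
          · exact d2_4 (by omega)
          · exact n3_4_1 (by omega)
          · exact d0_4 (by omega)
          · exact d1_4 (by omega)
          · exact d4_5 (by omega)
          · rcases e1_4 with h | h | h | h | h | h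
            · exact n1_7_3 (by omega)
            · exact n3_4_0 (by omega)
            · exact n2_7_3 (by omega)
            · exact d0_4 (by omega)
            · omega
            · exact d0_1 (by omega)
        · exact d1_2 (by omega)
        · exact n0_7_6 (by omega)
      · rcases e2_3 with h | h | h | h | h | h
        · exact n2_7_5 (by omega)
        · exact d0_3 (by omega)
        · omega
        · rcases e0_4 with h | h | h | h | h | h
          · exact d2_4 (by omega)
          · exact n3_4_1 (by omega)
          · exact d0_4 (by omega)
          · exact d1_4 (by omega)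
          · rcases e1_4 with h | h | h | h | h | h
            · exact n1_6_3 (by omega)
            · exact n3_4_0 (by omega)
            · exact n2_6_3 (by omega)
            · exact d0_4 (by omega)
            · exact d0_1 (by omega)
            · omega
          · exact d4_5 (by omega)
        · exact n0_6_7 (by omega)
        · exact d1_2 (by omega)
    · rcases e1_3 with h | h | h | h | h | h
      · exact n2_5_0 (by omega)
      · omega
      · exact n2_5_4 (by omega)
      · exact d0_3 (by omega)
      · exact n2_5_6 (by omega)
      · exact n2_5_7 (by omega)
    · omega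
    · exact d1_2 (by omega)
    · rcases e0_5 with h | h | h | h | h | h
      · exact n0_6_2 (by omega)
      · rcases e2_3 with h | h | h | h | h | h
        · omega
        · exact n3_6_5 (by omega)
        · omega
        · exact n3_5_1 (by omega)
        · exact d0_3 (by omega)
        · rcases e0_4 with h | h | h | h | h | h
          · rcases e1_3 with h | h | h | h | h | h
            · exact n1_7_6 (by omega)
            · exact n0_6_7 (by omega)
            · exact n0_7_2 (by omega)
            · exact d0_3 (by omega)
            · exact n3_4_2 (by omega)
            · exact n0_6_1 (by omega)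
          · exact d4_5 (by omega)
          · exact n4_6_7 (by omega)
          · exact d1_4 (by omega)
          · exact d2_4 (by omega)
          · exact n3_5_4 (by omega)
      · rcases e2_3 with h | h | h | h | h | h
        · exact n5_6_0 (by omega)
        · exact n3_6_5 (by omega)
        · exact n5_6_4 (by omega)
        · exact n2_5_1 (by omega)
        · exact d0_3 (by omega)
        · exact n5_6_7 (by omega)
      · omega
      · exact d2_5 (by omega)
      · rcases e2_3 with h | h | h | h | h | h
        · rcases e1_3 with h | h | h | h | h | h
          · exact n0_6_7 (by omega)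
          · exact n2_6_7 (by omega)
          · exact n4_6_7 (by omega)
          · exact d0_3 (by omega)
          · exact n2_6_5 (by omega)
          · exact n2_5_1 (by omega)
        · exact n3_6_5 (by omega)
        · omega
        · exact n3_6_7 (by omega)
        · exact d0_3 (by omega)
        · rcases e0_4 with h | h | h | h | h | h
          · rcases e1_3 with h | h | h | h | h | h
            · exact n1_5_2 (by omega)
            · exact d0_3 (by omega)
            · exact n0_7_2 (by omega)
            · exact d0_3 (by omega)
            · exact n3_4_2 (by omega)
            · exact n0_6_7 (by omega)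
          · exact n3_4_5 (by omega)
          · exact n4_6_7 (by omega)
          · exact d1_4 (by omega)
          · exact d2_4 (by omega)
          · exact d4_5 (by omega)
    · rcases e0_5 with h | h | h | h | h | h
      · exact n0_7_2 (by omega)
      · rcases e2_3 with h | h | h | h | h | h
        · omega
        · exact n3_7_5 (by omega)
        · omega
        · exact n3_5_1 (by omega)
        · rcases e0_4 with h | h | h | h | h | h
          · rcases e1_3 with h | h | h | h | h | h
            · exact n1_6_7 (by omega)
            · exact n0_7_6 (by omega)
            · exact n0_6_2 (by omega)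
            · exact d0_3 (by omega)
            · exact n0_7_1 (by omega)
            · exact n3_4_2 (by omega)
          · exact d4_5 (by omega)
          · exact n4_7_6 (by omega)
          · exact d1_4 (by omega)
          · exact n3_5_4 (by omega)
          · exact d2_4 (by omega)
        · exact d0_3 (by omega)
      · rcases e2_3 with h | h | h | h | h | h
        · exact n5_7_0 (by omega)
        · exact n3_7_5 (by omega)
        · exact n5_7_4 (by omega)
        · exact n2_5_1 (by omega)
        · exact n5_7_6 (by omega)
        · exact d0_3 (by omega)
      · omega
      · rcases e2_3 with h | h | h | h | h | h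
        · rcases e1_3 with h | h | h | h | h | h
          · exact n0_7_6 (by omega)
          · exact n2_7_6 (by omega)
          · exact n4_7_6 (by omega)
          · exact d0_3 (by omega)
          · exact n2_5_1 (by omega)
          · exact n2_7_5 (by omega)
        · exact n3_7_5 (by omega)
        · omega
        · exact n3_7_6 (by omega)
        · rcases e0_4 with h | h | h | h | h | h
          · rcases e1_3 with h | h | h | h | h | h
            · exact n1_5_2 (by omega)
            · exact d0_3 (by omega)
            · exact n0_6_2 (by omega)
            · exact d0_3 (by omega)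
            · exact n0_7_6 (by omega)
            · exact n3_4_2 (by omega)
          · exact n3_4_5 (by omega)
          · exact n4_7_6 (by omega)
          · exact d1_4 (by omega)
          · exact d4_5 (by omega)
          · exact d2_4 (by omega)
        · exact d0_3 (by omega)
      · exact d2_5 (by omega)
  · rcases e0_2 with h | h | h | h | h | h
    · rcases e1_3 with h | h | h | h | h | h
      · omega
      · exact n3_6_1 (by omega)
      · omega
      · rcases e0_5 with h | h | h | h | h | h
        · exact d2_5 (by omega)
        · exact n3_6_2 (by omega)
        · omega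
        · exact n3_6_4 (by omega)
        · exact d1_5 (by omega)
        · exact n3_6_7 (by omega)
      · exact d0_3 (by omega)
      · rcases e2_3 with h | h | h | h | h | h
        · exact n2_7_6 (by omega)
        · exact d0_3 (by omega)
        · omega
        · rcases e1_4 with h | h | h | h | h | h
          · exact n4_5_3 (by omega)
          · exact n4_6_1 (by omega)
          · rcases e2_4 with h | h | h | h | h | h
            · exact n0_6_7 (by omega)
            · exact d0_4 (by omega)
            · exact n0_6_1 (by omega)
            · exact d0_6 (by omega)
            · omega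
            · exact n0_3_4 (by omega)
          · exact n4_6_7 (by omega)
          · exact d0_4 (by omega)
          · exact d3_4 (by omega)
        · exact n0_6_7 (by omega)
        · exact n0_6_1 (by omega)
    · rcases e1_3 with h | h | h | h | h | h
      · exact n2_6_0 (by omega)
      · omega
      · exact n2_6_4 (by omega)
      · exact n2_6_5 (by omega)
      · exact d0_3 (by omega)
      · exact n2_6_7 (by omega)
    · omega
    · rcases e0_5 with h | h | h | h | h | h
      · rcases e1_3 with h | h | h | h | h | h
        · omega
        · exact n3_6_5 (by omega)
        · omega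
        · exact n3_5_2 (by omega)
        · exact d0_3 (by omega)
        · rcases e0_4 with h | h | h | h | h | h
          · exact d4_5 (by omega)
          · rcases e1_4 with h | h | h | h | h | h
            · exact d0_5 (by omega)
            · omega
            · exact n2_5_3 (by omega)
            · exact d0_5 (by omega)
            · exact d0_4 (by omega)
            · exact n0_3_2 (by omega)
          · exact n4_6_7 (by omega)
          · exact d2_4 (by omega)
          · exact d1_4 (by omega)
          · exact n3_5_4 (by omega)
      · exact n0_6_1 (by omega)
      · rcases e1_3 with h | h | h | h | h | h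
        · exact n5_6_0 (by omega)
        · exact n3_6_5 (by omega)
        · exact n5_6_4 (by omega)
        · exact n1_5_2 (by omega)
        · exact d0_3 (by omega)
        · exact n5_6_7 (by omega)
      · omega
      · exact d1_5 (by omega)
      · rcases e1_3 with h | h | h | h | h | h
        · rcases e2_3 with h | h | h | h | h | h
          · exact n0_6_7 (by omega)
          · exact n1_6_7 (by omega)
          · exact n4_6_7 (by omega)
          · exact d0_3 (by omega)
          · exact n1_6_5 (by omega)
          · exact n1_5_2 (by omega)
        · exact n3_6_5 (by omega)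
        · omega
        · exact n3_6_7 (by omega)
        · exact d0_3 (by omega)
        · rcases e0_4 with h | h | h | h | h | h
          · exact n3_4_5 (by omega)
          · rcases e2_3 with h | h | h | h | h | h
            · exact n2_5_1 (by omega)
            · exact d0_3 (by omega)
            · exact n0_7_1 (by omega)
            · exact d0_3 (by omega)
            · exact n3_4_1 (by omega)
            · exact n0_6_7 (by omega)
          · exact n4_6_7 (by omega)
          · exact d2_4 (by omega)
          · exact d1_4 (by omega)
          · exact d4_5 (by omega)
    · exact d1_2 (by omega)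
    · rcases e0_5 with h | h | h | h | h | h
      · rcases e1_3 with h | h | h | h | h | h
        · omega
        · exact n3_6_7 (by omega)
        · omega
        · exact n3_6_1 (by omega)
        · exact d0_3 (by omega)
        · exact n3_5_2 (by omega)
      · rcases e2_3 with h | h | h | h | h | h
        · omega
        · exact n3_7_6 (by omega)
        · omega
        · exact n3_6_1 (by omega)
        · exact n3_5_1 (by omega)
        · exact d0_3 (by omega)
      · rcases e1_3 with h | h | h | h | h | h
        · exact n5_6_0 (by omega)
        · exact n3_6_7 (by omega)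
        · exact n5_6_4 (by omega)
        · exact n1_7_2 (by omega)
        · exact d0_3 (by omega)
        · exact n1_5_2 (by omega)
      · omega
      · exact d1_5 (by omega)
      · exact d2_5 (by omega)
  · rcases e0_2 with h | h | h | h | h | h
    · rcases e1_3 with h | h | h | h | h | h
      · omega
      · exact n3_7_1 (by omega)
      · omega
      · rcases e0_5 with h | h | h | h | h | h
        · exact d2_5 (by omega)
        · exact n3_7_2 (by omega)
        · omega
        · exact n3_7_4 (by omega)
        · exact n3_7_6 (by omega)
        · exact d1_5 (by omega)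
      · rcases e2_3 with h | h | h | h | h | h
        · exact n2_6_7 (by omega)
        · exact d0_3 (by omega)
        · omega
        · rcases e1_4 with h | h | h | h | h | h
          · exact n4_5_3 (by omega)
          · exact n4_6_5 (by omega)
          · rcases e2_4 with h | h | h | h | h | h
            · exact n0_7_6 (by omega)
            · exact d0_4 (by omega)
            · exact n0_6_5 (by omega)
            · exact d0_7 (by omega)
            · exact n0_3_4 (by omega)
            · omega
          · exact n4_7_6 (by omega)
          · exact d3_4 (by omega)
          · exact d0_4 (by omega)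
        · exact n0_7_1 (by omega)
        · exact n0_7_6 (by omega)
      · exact d0_3 (by omega)
    · rcases e1_3 with h | h | h | h | h | h
      · exact n2_7_0 (by omega)
      · omega
      · exact n2_7_4 (by omega)
      · exact n2_7_5 (by omega)
      · exact n2_7_6 (by omega)
      · exact d0_3 (by omega)
    · omega
    · rcases e0_5 with h | h | h | h | h | h
      · rcases e1_3 with h | h | h | h | h | h
        · omega
        · exact n3_7_5 (by omega)
        · omega
        · exact n3_5_2 (by omega)
        · rcases e0_4 with h | h | h | h | h | h
          · exact d4_5 (by omega)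
          · rcases e1_4 with h | h | h | h | h | h
            · exact d0_5 (by omega)
            · omega
            · exact n2_5_3 (by omega)
            · exact d0_5 (by omega)
            · exact n0_3_2 (by omega)
            · exact d0_4 (by omega)
          · exact n4_7_6 (by omega)
          · exact d2_4 (by omega)
          · exact n3_5_4 (by omega)
          · exact d1_4 (by omega)
        · exact d0_3 (by omega)
      · exact n0_7_1 (by omega)
      · rcases e1_3 with h | h | h | h | h | h
        · exact n5_7_0 (by omega)
        · exact n3_7_5 (by omega)
        · exact n5_7_4 (by omega)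
        · exact n1_5_2 (by omega)
        · exact n5_7_6 (by omega)
        · exact d0_3 (by omega)
      · omega
      · rcases e1_3 with h | h | h | h | h | h
        · rcases e2_3 with h | h | h | h | h | h
          · exact n0_7_6 (by omega)
          · exact n1_7_6 (by omega)
          · exact n4_7_6 (by omega)
          · exact d0_3 (by omega)
          · exact n1_5_2 (by omega)
          · exact n1_7_5 (by omega)
        · exact n3_7_5 (by omega)
        · omega
        · exact n3_7_6 (by omega)
        · rcases e0_4 with h | h | h | h | h | h
          · exact n3_4_5 (by omega)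
          · rcases e2_3 with h | h | h | h | h | h
            · exact n2_5_1 (by omega)
            · exact d0_3 (by omega)
            · exact n0_6_1 (by omega)
            · exact d0_3 (by omega)
            · exact n0_7_6 (by omega)
            · exact n3_4_1 (by omega)
          · exact n4_7_6 (by omega)
          · exact d2_4 (by omega)
          · exact d4_5 (by omega)
          · exact d1_4 (by omega)
        · exact d0_3 (by omega)
      · exact d1_5 (by omega)
    · rcases e0_5 with h | h | h | h | h | h
      · rcases e1_3 with h | h | h | h | h | h
        · omega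
        · exact n3_7_6 (by omega)
        · omega
        · exact n3_6_2 (by omega)
        · exact n3_5_2 (by omega)
        · exact d0_3 (by omega)
      · rcases e2_3 with h | h | h | h | h | h
        · omega
        · exact n3_6_7 (by omega)
        · omega
        · exact n3_6_2 (by omega)
        · exact d0_3 (by omega)
        · exact n3_5_1 (by omega)
      · rcases e1_3 with h | h | h | h | h | h
        · exact n5_7_0 (by omega)
        · exact n3_7_6 (by omega)
        · exact n5_7_4 (by omega)
        · exact n1_6_2 (by omega)
        · exact n1_5_2 (by omega)
        · exact d0_3 (by omega)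
      · omega
      · exact d2_5 (by omega)
      · exact d1_5 (by omega)
    · exact d1_2 (by omega)

theorem c5 (x0 x1 x2 x3 x4 x5 x6 x7 : ℕ) (h1 : x5 = 1)
    (p0 : 2 ≤ x0) (p1 : 2 ≤ x1) (p2 : 2 ≤ x2) (p3 : 2 ≤ x3) (p4 : 2 ≤ x4) (p6 : 2 ≤ x6) (p7 : 2 ≤ x7)
    (d0_1 : NE x0 x1)
    (d0_2 : NE x0 x2)
    (d0_3 : NE x0 x3)
    (d0_4 : NE x0 x4)
    (d0_6 : NE x0 x6)
    (d0_7 : NE x0 x7)
    (d1_2 : NE x1 x2)
    (d1_4 : NE x1 x4)
    (d1_5 : NE x1 x5)
    (d2_4 : NE x2 x4)
    (d2_5 : NE x2 x5)
    (d3_4 : NE x3 x4)
    (e0_1 : O6 (x0 + x1) x2 x3 x4 x5 x6 x7)
    (e0_2 : O6 (x0 + x2) x1 x3 x4 x5 x6 x7)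
    (n0_3_1 : NE (x0 + x3) x1)
    (n0_3_2 : NE (x0 + x3) x2)
    (n0_3_4 : NE (x0 + x3) x4)
    (n0_3_5 : NE (x0 + x3) x5)
    (n0_3_6 : NE (x0 + x3) x6)
    (n0_3_7 : NE (x0 + x3) x7)
    (e0_4 : O6 (x0 + x4) x1 x2 x3 x5 x6 x7)
    (e0_5 : O6 (x0 + x5) x1 x2 x3 x4 x6 x7)
    (n0_6_1 : NE (x0 + x6) x1)
    (n0_6_2 : NE (x0 + x6) x2)
    (n0_6_3 : NE (x0 + x6) x3)
    (n0_6_4 : NE (x0 + x6) x4)
    (n0_6_5 : NE (x0 + x6) x5)
    (n0_6_7 : NE (x0 + x6) x7)
    (n0_7_1 : NE (x0 + x7) x1)
    (n0_7_2 : NE (x0 + x7) x2)
    (n0_7_3 : NE (x0 + x7) x3)
    (n0_7_4 : NE (x0 + x7) x4)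
    (n0_7_5 : NE (x0 + x7) x5)
    (n0_7_6 : NE (x0 + x7) x6)
    (n1_2_5 : NE (x1 + x2) x5)
    (e1_3 : O6 (x1 + x3) x0 x2 x4 x5 x6 x7)
    (e1_4 : O6 (x1 + x4) x0 x2 x3 x5 x6 x7)
    (n1_5_3 : NE (x1 + x5) x3)
    (n1_5_4 : NE (x1 + x5) x4)
    (n1_5_6 : NE (x1 + x5) x6)
    (n1_5_7 : NE (x1 + x5) x7)
    (n1_6_0 : NE (x1 + x6) x0)
    (n1_6_2 : NE (x1 + x6) x2)
    (n1_6_3 : NE (x1 + x6) x3)
    (n1_6_4 : NE (x1 + x6) x4)
    (n1_6_5 : NE (x1 + x6) x5)
    (n1_6_7 : NE (x1 + x6) x7)
    (n1_7_0 : NE (x1 + x7) x0)
    (n1_7_2 : NE (x1 + x7) x2)
    (n1_7_3 : NE (x1 + x7) x3)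
    (n1_7_4 : NE (x1 + x7) x4)
    (n1_7_5 : NE (x1 + x7) x5)
    (n1_7_6 : NE (x1 + x7) x6)
    (e2_3 : O6 (x2 + x3) x0 x1 x4 x5 x6 x7)
    (e2_4 : O6 (x2 + x4) x0 x1 x3 x5 x6 x7)
    (n2_5_6 : NE (x2 + x5) x6)
    (n2_5_7 : NE (x2 + x5) x7)
    (n2_6_0 : NE (x2 + x6) x0)
    (n2_6_3 : NE (x2 + x6) x3)
    (n2_6_4 : NE (x2 + x6) x4)
    (n2_6_5 : NE (x2 + x6) x5)
    (n2_6_7 : NE (x2 + x6) x7)
    (n2_7_0 : NE (x2 + x7) x0)
    (n2_7_3 : NE (x2 + x7) x3)
    (n2_7_4 : NE (x2 + x7) x4)
    (n2_7_5 : NE (x2 + x7) x5)
    (n2_7_6 : NE (x2 + x7) x6)
    (n3_4_1 : NE (x3 + x4) x1)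
    (n3_4_2 : NE (x3 + x4) x2)
    (n3_6_1 : NE (x3 + x6) x1)
    (n3_6_2 : NE (x3 + x6) x2)
    (n3_6_5 : NE (x3 + x6) x5)
    (n3_6_7 : NE (x3 + x6) x7)
    (n3_7_1 : NE (x3 + x7) x1)
    (n3_7_2 : NE (x3 + x7) x2)
    (n3_7_5 : NE (x3 + x7) x5)
    (n3_7_6 : NE (x3 + x7) x6)
    (n4_5_1 : NE (x4 + x5) x1)
    (n4_5_2 : NE (x4 + x5) x2)
    (n4_6_0 : NE (x4 + x6) x0)
    (n4_6_1 : NE (x4 + x6) x1)
    (n4_6_5 : NE (x4 + x6) x5)
    (n4_6_7 : NE (x4 + x6) x7)
    (n4_7_0 : NE (x4 + x7) x0)
    (n4_7_1 : NE (x4 + x7) x1)
    (n4_7_5 : NE (x4 + x7) x5)
    (n4_7_6 : NE (x4 + x7) x6)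
    (n5_6_7 : NE (x5 + x6) x7)
    (n5_7_6 : NE (x5 + x7) x6)
    : False := by
  rcases e0_1 with h | h | h | h | h | h
  · rcases e2_3 with h | h | h | h | h | h
    · omega
    · omega
    · rcases e1_3 with h | h | h | h | h | h
      · rcases e0_2 with h | h | h | h | h | h
        · exact d0_4 (by omega)
        · omega
        · exact d0_2 (by omega)
        · omega
        · rcases e0_4 with h | h | h | h | h | h
          · exact n3_6_1 (by omega)
          · exact d1_4 (by omega)
          · omega
          · omega
          · exact d0_1 (by omega)
          · exact n3_6_7 (by omega)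
        · rcases e0_4 with h | h | h | h | h | h
          · exact n3_7_1 (by omega)
          · exact d1_4 (by omega)
          · omega
          · omega
          · exact n3_7_6 (by omega)
          · exact d0_1 (by omega)
      · exact d0_3 (by omega)
      · exact d1_2 (by omega)
      · omega
      · exact n0_6_4 (by omega)
      · exact n0_7_4 (by omega)
    · omega
    · rcases e1_3 with h | h | h | h | h | h
      · rcases e0_2 with h | h | h | h | h | h
        · exact d0_6 (by omega)
        · exact n1_6_3 (by omega)
        · exact n1_6_4 (by omega)
        · exact n1_6_5 (by omega)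
        · exact d0_2 (by omega)
        · exact n1_6_7 (by omega)
      · exact d0_3 (by omega)
      · rcases e2_4 with h | h | h | h | h | h
        · exact n1_6_0 (by omega)
        · omega
        · exact n1_6_3 (by omega)
        · exact n1_6_5 (by omega)
        · exact d0_2 (by omega)
        · exact n1_6_7 (by omega)
      · omega
      · exact d1_2 (by omega)
      · exact n0_7_6 (by omega)
    · rcases e1_3 with h | h | h | h | h | h
      · rcases e0_2 with h | h | h | h | h | h
        · exact d0_7 (by omega)
        · exact n1_7_3 (by omega)
        · exact n1_7_4 (by omega)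
        · exact n1_7_5 (by omega)
        · exact n1_7_6 (by omega)
        · exact d0_2 (by omega)
      · exact d0_3 (by omega)
      · rcases e2_4 with h | h | h | h | h | h
        · exact n1_7_0 (by omega)
        · omega
        · exact n1_7_3 (by omega)
        · exact n1_7_5 (by omega)
        · exact n1_7_6 (by omega)
        · exact d0_2 (by omega)
      · omega
      · exact n0_6_7 (by omega)
      · exact d1_2 (by omega)
  · rcases e2_3 with h | h | h | h | h | h
    · omega
    · omega
    · rcases e0_2 with h | h | h | h | h | h
      · rcases e0_4 with h | h | h | h | h | h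
        · exact d2_4 (by omega)
        · omega
        · exact d0_3 (by omega)
        · omega
        · rcases e1_4 with h | h | h | h | h | h
          · exact n2_6_0 (by omega)
          · exact n3_4_1 (by omega)
          · exact d0_4 (by omega)
          · omega
          · exact d0_1 (by omega)
          · exact n2_6_7 (by omega)
        · rcases e1_4 with h | h | h | h | h | h
          · exact n2_7_0 (by omega)
          · exact n3_4_1 (by omega)
          · exact d0_4 (by omega)
          · omega
          · exact n2_7_6 (by omega)
          · exact d0_1 (by omega)
      · exact d1_2 (by omega)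
      · exact d0_3 (by omega)
      · exact n1_5_4 (by omega)
      · exact n1_6_4 (by omega)
      · exact n1_7_4 (by omega)
    · omega
    · rcases e0_2 with h | h | h | h | h | h
      · rcases e1_3 with h | h | h | h | h | h
        · exact d0_3 (by omega)
        · exact n0_6_2 (by omega)
        · exact n0_6_4 (by omega)
        · exact n0_6_5 (by omega)
        · exact n0_3_1 (by omega)
        · exact n0_6_7 (by omega)
      · exact d1_2 (by omega)
      · rcases e0_4 with h | h | h | h | h | h
        · rcases e1_3 with h | h | h | h | h | h
          · exact d0_3 (by omega)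
          · omega
          · exact n0_6_2 (by omega)
          · omega
          · exact n0_3_1 (by omega)
          · rcases e2_4 with h | h | h | h | h | h
            · exact d0_4 (by omega)
            · exact d0_2 (by omega)
            · exact n2_6_7 (by omega)
            · omega
            · exact n0_3_1 (by omega)
            · exact n0_3_1 (by omega)
        · exact n0_3_1 (by omega)
        · exact d1_4 (by omega)
        · omega
        · exact d0_1 (by omega)
        · rcases e0_5 with h | h | h | h | h | h
          · exact n5_7_6 (by omega)
          · rcases e2_4 with h | h | h | h | h | h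
            · exact d0_4 (by omega)
            · exact n2_7_3 (by omega)
            · exact n4_5_1 (by omega)
            · omega
            · exact n0_3_7 (by omega)
            · omega
          · exact d1_5 (by omega)
          · exact d2_5 (by omega)
          · exact n1_2_5 (by omega)
          · exact n1_5_6 (by omega)
      · exact n1_5_6 (by omega)
      · exact d0_3 (by omega)
      · exact n1_7_6 (by omega)
    · rcases e0_2 with h | h | h | h | h | h
      · rcases e1_3 with h | h | h | h | h | h
        · exact d0_3 (by omega)
        · exact n0_7_2 (by omega)
        · exact n0_7_4 (by omega)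
        · exact n0_7_5 (by omega)
        · exact n0_7_6 (by omega)
        · exact n0_3_1 (by omega)
      · exact d1_2 (by omega)
      · rcases e0_4 with h | h | h | h | h | h
        · rcases e1_3 with h | h | h | h | h | h
          · exact d0_3 (by omega)
          · omega
          · exact n0_7_2 (by omega)
          · omega
          · rcases e2_4 with h | h | h | h | h | h
            · exact d0_4 (by omega)
            · exact d0_2 (by omega)
            · exact n2_7_6 (by omega)
            · omega
            · exact n0_3_1 (by omega)
            · exact n0_3_1 (by omega)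
          · exact n0_3_1 (by omega)
        · exact n0_3_1 (by omega)
        · exact d1_4 (by omega)
        · omega
        · rcases e0_5 with h | h | h | h | h | h
          · exact n5_6_7 (by omega)
          · rcases e2_4 with h | h | h | h | h | h
            · exact d0_4 (by omega)
            · exact n2_6_3 (by omega)
            · exact n4_5_1 (by omega)
            · omega
            · omega
            · exact n0_3_6 (by omega)
          · exact d1_5 (by omega)
          · exact d2_5 (by omega)
          · exact n1_5_7 (by omega)
          · exact n1_2_5 (by omega)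
        · exact d0_1 (by omega)
      · exact n1_5_7 (by omega)
      · exact n1_6_7 (by omega)
      · exact d0_3 (by omega)
  · rcases e2_4 with h | h | h | h | h | h
    · omega
    · omega
    · rcases e0_2 with h | h | h | h | h | h
      · rcases e1_4 with h | h | h | h | h | h
        · exact n0_3_4 (by omega)
        · exact n0_3_2 (by omega)
        · exact d1_2 (by omega)
        · exact n0_3_5 (by omega)
        · exact n0_3_6 (by omega)
        · exact n0_3_7 (by omega)
      · exact d0_4 (by omega)
      · exact d1_2 (by omega)
      · exact n1_5_3 (by omega)
      · exact n1_6_3 (by omega)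
      · exact n1_7_3 (by omega)
    · omega
    · rcases e0_2 with h | h | h | h | h | h
      · rcases e1_4 with h | h | h | h | h | h
        · exact d0_4 (by omega)
        · exact n0_6_2 (by omega)
        · exact n0_6_3 (by omega)
        · exact n0_6_5 (by omega)
        · exact d1_2 (by omega)
        · exact n0_6_7 (by omega)
      · rcases e0_4 with h | h | h | h | h | h
        · exact n0_3_2 (by omega)
        · rcases e2_3 with h | h | h | h | h | h
          · exact d0_3 (by omega)
          · omega
          · exact n0_6_1 (by omega)
          · omega
          · exact n0_3_1 (by omega)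
          · rcases e1_4 with h | h | h | h | h | h
            · exact d0_4 (by omega)
            · exact d0_1 (by omega)
            · exact n1_6_7 (by omega)
            · omega
            · exact n0_3_1 (by omega)
            · exact n0_3_1 (by omega)
        · exact d2_4 (by omega)
        · omega
        · exact d0_2 (by omega)
        · rcases e0_5 with h | h | h | h | h | h
          · rcases e1_4 with h | h | h | h | h | h
            · exact d0_4 (by omega)
            · exact n1_7_3 (by omega)
            · exact n4_5_2 (by omega)
            · omega
            · exact n0_3_7 (by omega)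
            · omega
          · exact n5_7_6 (by omega)
          · exact d2_5 (by omega)
          · exact d1_5 (by omega)
          · exact n1_2_5 (by omega)
          · exact n2_5_6 (by omega)
      · exact d1_2 (by omega)
      · exact n1_5_6 (by omega)
      · exact d0_4 (by omega)
      · exact n1_7_6 (by omega)
    · rcases e0_2 with h | h | h | h | h | h
      · rcases e1_4 with h | h | h | h | h | h
        · exact d0_4 (by omega)
        · exact n0_7_2 (by omega)
        · exact n0_7_3 (by omega)
        · exact n0_7_5 (by omega)
        · exact n0_7_6 (by omega)
        · exact d1_2 (by omega)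
      · rcases e0_4 with h | h | h | h | h | h
        · exact n0_3_2 (by omega)
        · rcases e2_3 with h | h | h | h | h | h
          · exact d0_3 (by omega)
          · omega
          · exact n0_7_1 (by omega)
          · omega
          · rcases e1_4 with h | h | h | h | h | h
            · exact d0_4 (by omega)
            · exact d0_1 (by omega)
            · exact n1_7_6 (by omega)
            · omega
            · exact n0_3_1 (by omega)
            · exact n0_3_1 (by omega)
          · exact n0_3_1 (by omega)
        · exact d2_4 (by omega)
        · omega
        · rcases e0_5 with h | h | h | h | h | h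
          · rcases e1_4 with h | h | h | h | h | h
            · exact d0_4 (by omega)
            · exact n1_6_3 (by omega)
            · exact n4_5_2 (by omega)
            · omega
            · omega
            · exact n0_3_6 (by omega)
          · exact n5_6_7 (by omega)
          · exact d2_5 (by omega)
          · exact d1_5 (by omega)
          · exact n2_5_7 (by omega)
          · exact n1_2_5 (by omega)
        · exact d0_2 (by omega)
      · exact d1_2 (by omega)
      · exact n1_5_7 (by omega)
      · exact n1_6_7 (by omega)
      · exact d0_4 (by omega)
  · omega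
  · rcases e0_2 with h | h | h | h | h | h
    · rcases e1_3 with h | h | h | h | h | h
      · omega
      · exact n3_6_1 (by omega)
      · rcases e0_4 with h | h | h | h | h | h
        · exact d2_4 (by omega)
        · exact n3_6_2 (by omega)
        · omega
        · exact n3_6_5 (by omega)
        · exact d1_4 (by omega)
        · exact n3_6_7 (by omega)
      · omega
      · exact d0_3 (by omega)
      · rcases e1_4 with h | h | h | h | h | h
        · omega
        · exact n4_6_1 (by omega)
        · rcases e2_3 with h | h | h | h | h | h
          · exact n2_7_6 (by omega)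
          · exact d0_3 (by omega)
          · exact n2_6_0 (by omega)
          · omega
          · exact n0_6_7 (by omega)
          · exact n0_6_1 (by omega)
        · omega
        · exact d0_4 (by omega)
        · exact d3_4 (by omega)
    · rcases e1_3 with h | h | h | h | h | h
      · exact n2_6_0 (by omega)
      · omega
      · exact n2_6_4 (by omega)
      · exact n2_6_5 (by omega)
      · exact d0_3 (by omega)
      · exact n2_6_7 (by omega)
    · rcases e1_4 with h | h | h | h | h | h
      · exact n2_6_0 (by omega)
      · omega
      · exact n2_6_3 (by omega)
      · exact n2_6_5 (by omega)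
      · exact d0_4 (by omega)
      · exact n2_6_7 (by omega)
    · omega
    · exact d1_2 (by omega)
    · rcases e0_4 with h | h | h | h | h | h
      · rcases e1_3 with h | h | h | h | h | h
        · omega
        · exact n3_6_7 (by omega)
        · exact n3_6_1 (by omega)
        · omega
        · exact d0_3 (by omega)
        · exact n3_4_2 (by omega)
      · rcases e2_3 with h | h | h | h | h | h
        · omega
        · exact n3_7_6 (by omega)
        · exact n3_6_1 (by omega)
        · omega
        · exact n3_4_1 (by omega)
        · exact d0_3 (by omega)
      · rcases e1_3 with h | h | h | h | h | h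
        · exact n4_6_0 (by omega)
        · exact n3_6_7 (by omega)
        · exact n1_7_2 (by omega)
        · exact n4_6_5 (by omega)
        · exact d0_3 (by omega)
        · exact n4_6_7 (by omega)
      · omega
      · exact d1_4 (by omega)
      · exact d2_4 (by omega)
  · rcases e0_2 with h | h | h | h | h | h
    · rcases e1_3 with h | h | h | h | h | h
      · omega
      · exact n3_7_1 (by omega)
      · rcases e0_4 with h | h | h | h | h | h
        · exact d2_4 (by omega)
        · exact n3_7_2 (by omega)
        · omega
        · exact n3_7_5 (by omega)
        · exact n3_7_6 (by omega)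
        · exact d1_4 (by omega)
      · omega
      · rcases e1_4 with h | h | h | h | h | h
        · omega
        · exact n4_7_1 (by omega)
        · rcases e2_3 with h | h | h | h | h | h
          · exact n2_6_7 (by omega)
          · exact d0_3 (by omega)
          · exact n2_6_3 (by omega)
          · omega
          · exact n0_7_1 (by omega)
          · exact n0_7_6 (by omega)
        · omega
        · exact d3_4 (by omega)
        · exact d0_4 (by omega)
      · exact d0_3 (by omega)
    · rcases e1_3 with h | h | h | h | h | h
      · exact n2_7_0 (by omega)
      · omega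
      · exact n2_7_4 (by omega)
      · exact n2_7_5 (by omega)
      · exact n2_7_6 (by omega)
      · exact d0_3 (by omega)
    · rcases e1_4 with h | h | h | h | h | h
      · exact n2_7_0 (by omega)
      · omega
      · exact n2_7_3 (by omega)
      · exact n2_7_5 (by omega)
      · exact n2_7_6 (by omega)
      · exact d0_4 (by omega)
    · omega
    · rcases e0_4 with h | h | h | h | h | h
      · rcases e1_3 with h | h | h | h | h | h
        · omega
        · exact n3_7_6 (by omega)
        · exact n3_6_2 (by omega)
        · omega
        · exact n3_4_2 (by omega)
        · exact d0_3 (by omega)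
      · rcases e2_3 with h | h | h | h | h | h
        · omega
        · exact n3_6_7 (by omega)
        · exact n3_6_2 (by omega)
        · omega
        · exact d0_3 (by omega)
        · exact n3_4_1 (by omega)
      · rcases e1_3 with h | h | h | h | h | h
        · exact n4_7_0 (by omega)
        · exact n3_7_6 (by omega)
        · exact n1_6_2 (by omega)
        · exact n4_7_5 (by omega)
        · exact n4_7_6 (by omega)
        · exact d0_3 (by omega)
      · omega
      · exact d2_4 (by omega)
      · exact d1_4 (by omega)
    · exact d1_2 (by omega)

theorem c6 (x0 x1 x2 x3 x4 x5 x6 x7 : ℕ) (h1 : x6 = 1)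
    (p0 : 2 ≤ x0) (p1 : 2 ≤ x1) (p2 : 2 ≤ x2) (p3 : 2 ≤ x3) (p4 : 2 ≤ x4) (p5 : 2 ≤ x5) (p7 : 2 ≤ x7)
    (d0_1 : NE x0 x1)
    (d0_2 : NE x0 x2)
    (d0_3 : NE x0 x3)
    (d0_4 : NE x0 x4)
    (d0_5 : NE x0 x5)
    (d1_2 : NE x1 x2)
    (d1_4 : NE x1 x4)
    (d1_5 : NE x1 x5)
    (d2_4 : NE x2 x4)
    (d2_5 : NE x2 x5)
    (d3_4 : NE x3 x4)
    (e0_1 : O6 (x0 + x1) x2 x3 x4 x5 x6 x7)
    (e0_2 : O6 (x0 + x2) x1 x3 x4 x5 x6 x7)
    (n0_3_1 : NE (x0 + x3) x1)
    (n0_3_2 : NE (x0 + x3) x2)
    (n0_3_4 : NE (x0 + x3) x4)
    (n0_3_5 : NE (x0 + x3) x5)
    (n0_3_6 : NE (x0 + x3) x6)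
    (n0_3_7 : NE (x0 + x3) x7)
    (e0_4 : O6 (x0 + x4) x1 x2 x3 x5 x6 x7)
    (e0_5 : O6 (x0 + x5) x1 x2 x3 x4 x6 x7)
    (n0_6_5 : NE (x0 + x6) x5)
    (n0_7_1 : NE (x0 + x7) x1)
    (n0_7_2 : NE (x0 + x7) x2)
    (n0_7_3 : NE (x0 + x7) x3)
    (n0_7_4 : NE (x0 + x7) x4)
    (n0_7_5 : NE (x0 + x7) x5)
    (n0_7_6 : NE (x0 + x7) x6)
    (n1_2_3 : NE (x1 + x2) x3)
    (n1_2_5 : NE (x1 + x2) x5)
    (e1_3 : O6 (x1 + x3) x0 x2 x4 x5 x6 x7)
    (e1_4 : O6 (x1 + x4) x0 x2 x3 x5 x6 x7)
    (n1_5_0 : NE (x1 + x5) x0)
    (n1_5_2 : NE (x1 + x5) x2)
    (n1_5_3 : NE (x1 + x5) x3)
    (n1_5_4 : NE (x1 + x5) x4)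
    (n1_5_6 : NE (x1 + x5) x6)
    (n1_5_7 : NE (x1 + x5) x7)
    (n1_6_3 : NE (x1 + x6) x3)
    (n1_6_4 : NE (x1 + x6) x4)
    (n1_6_5 : NE (x1 + x6) x5)
    (n1_6_7 : NE (x1 + x6) x7)
    (n1_7_0 : NE (x1 + x7) x0)
    (n1_7_2 : NE (x1 + x7) x2)
    (n1_7_3 : NE (x1 + x7) x3)
    (n1_7_4 : NE (x1 + x7) x4)
    (n1_7_5 : NE (x1 + x7) x5)
    (n1_7_6 : NE (x1 + x7) x6)
    (e2_3 : O6 (x2 + x3) x0 x1 x4 x5 x6 x7)
    (e2_4 : O6 (x2 + x4) x0 x1 x3 x5 x6 x7)
    (n2_5_0 : NE (x2 + x5) x0)
    (n2_5_3 : NE (x2 + x5) x3)
    (n2_5_4 : NE (x2 + x5) x4)
    (n2_5_6 : NE (x2 + x5) x6)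
    (n2_5_7 : NE (x2 + x5) x7)
    (n2_6_3 : NE (x2 + x6) x3)
    (n2_7_0 : NE (x2 + x7) x0)
    (n2_7_3 : NE (x2 + x7) x3)
    (n2_7_4 : NE (x2 + x7) x4)
    (n2_7_5 : NE (x2 + x7) x5)
    (n2_7_6 : NE (x2 + x7) x6)
    (n3_4_1 : NE (x3 + x4) x1)
    (n3_4_2 : NE (x3 + x4) x2)
    (n3_4_6 : NE (x3 + x4) x6)
    (n3_4_7 : NE (x3 + x4) x7)
    (n3_5_1 : NE (x3 + x5) x1)
    (n3_5_2 : NE (x3 + x5) x2)
    (n3_5_4 : NE (x3 + x5) x4)
    (n3_5_6 : NE (x3 + x5) x6)
    (n3_5_7 : NE (x3 + x5) x7)
    (n3_6_7 : NE (x3 + x6) x7)
    (n3_7_1 : NE (x3 + x7) x1)
    (n3_7_2 : NE (x3 + x7) x2)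
    (n3_7_4 : NE (x3 + x7) x4)
    (n3_7_5 : NE (x3 + x7) x5)
    (n3_7_6 : NE (x3 + x7) x6)
    (n4_5_0 : NE (x4 + x5) x0)
    (n4_5_1 : NE (x4 + x5) x1)
    (n4_5_3 : NE (x4 + x5) x3)
    (n4_5_6 : NE (x4 + x5) x6)
    (n4_5_7 : NE (x4 + x5) x7)
    (n4_7_0 : NE (x4 + x7) x0)
    (n4_7_5 : NE (x4 + x7) x5)
    (n4_7_6 : NE (x4 + x7) x6)
    : False := by
  rcases e0_1 with h | h | h | h | h | h
  · rcases e2_3 with h | h | h | h | h | h
    · omega
    · omega
    · rcases e0_4 with h | h | h | h | h | h
      · omega
      · exact d1_4 (by omega)
      · omega
      · rcases e2_4 with h | h | h | h | h | h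
        · exact n1_5_0 (by omega)
        · omega
        · exact n0_3_5 (by omega)
        · exact d0_2 (by omega)
        · exact n1_5_6 (by omega)
        · exact n1_5_7 (by omega)
      · omega
      · rcases e2_4 with h | h | h | h | h | h
        · exact n1_7_0 (by omega)
        · omega
        · exact n0_3_7 (by omega)
        · exact n1_7_5 (by omega)
        · exact n1_7_6 (by omega)
        · exact d0_2 (by omega)
    · rcases e0_5 with h | h | h | h | h | h
      · omega
      · exact d1_5 (by omega)
      · omega
      · rcases e1_4 with h | h | h | h | h | h
        · exact n2_5_0 (by omega)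
        · exact d0_4 (by omega)
        · exact n0_3_4 (by omega)
        · exact n0_3_4 (by omega)
        · exact n2_5_6 (by omega)
        · exact n2_5_7 (by omega)
      · omega
      · rcases e0_2 with h | h | h | h | h | h
        · exact n0_7_5 (by omega)
        · rcases e2_4 with h | h | h | h | h | h
          · omega
          · exact n3_4_2 (by omega)
          · exact d0_4 (by omega)
          · exact d3_4 (by omega)
          · omega
          · exact n0_3_4 (by omega)
        · exact n3_4_7 (by omega)
        · exact d0_3 (by omega)
        · exact n3_6_7 (by omega)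
        · exact d2_5 (by omega)
    · omega
    · rcases e2_4 with h | h | h | h | h | h
      · omega
      · omega
      · rcases e0_4 with h | h | h | h | h | h
        · rcases e0_2 with h | h | h | h | h | h
          · exact d1_2 (by omega)
          · exact d0_4 (by omega)
          · exact d1_2 (by omega)
          · rcases e1_3 with h | h | h | h | h | h
            · exact n1_7_5 (by omega)
            · exact d0_3 (by omega)
            · exact n0_7_2 (by omega)
            · exact d0_1 (by omega)
            · omega
            · exact d1_2 (by omega)
          · omega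
          · exact d0_3 (by omega)
        · exact n1_2_3 (by omega)
        · exact d0_2 (by omega)
        · exact n1_5_3 (by omega)
        · exact n1_6_3 (by omega)
        · exact n1_7_3 (by omega)
      · rcases e1_4 with h | h | h | h | h | h
        · rcases e0_2 with h | h | h | h | h | h
          · exact d0_5 (by omega)
          · exact n1_5_3 (by omega)
          · exact n1_5_4 (by omega)
          · exact d0_2 (by omega)
          · exact n1_5_6 (by omega)
          · exact d0_3 (by omega)
        · exact d0_4 (by omega)
        · exact n0_3_5 (by omega)
        · exact d1_2 (by omega)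
        · exact n0_6_5 (by omega)
        · exact n0_3_4 (by omega)
      · omega
      · exact d3_4 (by omega)
  · rcases e2_3 with h | h | h | h | h | h
    · omega
    · omega
    · rcases e0_2 with h | h | h | h | h | h
      · rcases e0_4 with h | h | h | h | h | h
        · exact d2_4 (by omega)
        · omega
        · exact d0_3 (by omega)
        · rcases e1_4 with h | h | h | h | h | h
          · exact n2_5_0 (by omega)
          · exact n3_4_1 (by omega)
          · exact d0_4 (by omega)
          · exact d0_1 (by omega)
          · omega
          · exact n2_5_7 (by omega)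
        · omega
        · rcases e1_4 with h | h | h | h | h | h
          · exact n2_7_0 (by omega)
          · exact n3_4_1 (by omega)
          · exact d0_4 (by omega)
          · exact n2_7_5 (by omega)
          · omega
          · exact d0_1 (by omega)
      · exact d1_2 (by omega)
      · exact d0_3 (by omega)
      · exact n1_5_4 (by omega)
      · exact n1_6_4 (by omega)
      · exact n1_7_4 (by omega)
    · rcases e0_2 with h | h | h | h | h | h
      · rcases e1_4 with h | h | h | h | h | h
        · exact n4_5_3 (by omega)
        · exact n3_4_1 (by omega)
        · exact d0_4 (by omega)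
        · exact d1_4 (by omega)
        · omega
        · rcases e0_5 with h | h | h | h | h | h
          · exact n0_7_4 (by omega)
          · omega
          · exact d0_3 (by omega)
          · exact n3_5_7 (by omega)
          · omega
          · exact d3_4 (by omega)
      · exact d1_2 (by omega)
      · rcases e0_5 with h | h | h | h | h | h
        · exact n3_4_1 (by omega)
        · exact n3_4_2 (by omega)
        · exact d1_5 (by omega)
        · exact d2_5 (by omega)
        · exact n3_4_6 (by omega)
        · exact n3_4_7 (by omega)
      · exact d0_3 (by omega)
      · exact n1_6_5 (by omega)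
      · exact n1_7_5 (by omega)
    · omega
    · rcases e0_2 with h | h | h | h | h | h
      · rcases e1_3 with h | h | h | h | h | h
        · exact d0_3 (by omega)
        · exact n0_7_2 (by omega)
        · exact n0_7_4 (by omega)
        · exact n0_7_5 (by omega)
        · exact n0_7_6 (by omega)
        · exact n0_3_1 (by omega)
      · exact d1_2 (by omega)
      · rcases e0_4 with h | h | h | h | h | h
        · rcases e0_5 with h | h | h | h | h | h
          · exact n1_5_7 (by omega)
          · rcases e1_3 with h | h | h | h | h | h
            · exact d0_3 (by omega)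
            · exact n0_7_5 (by omega)
            · exact n0_7_2 (by omega)
            · omega
            · omega
            · exact n0_3_1 (by omega)
          · exact d1_5 (by omega)
          · exact d2_5 (by omega)
          · omega
          · exact n1_2_5 (by omega)
        · exact n0_3_1 (by omega)
        · exact d1_4 (by omega)
        · rcases e0_5 with h | h | h | h | h | h
          · rcases e1_3 with h | h | h | h | h | h
            · exact d0_3 (by omega)
            · omega
            · exact n3_5_2 (by omega)
            · exact n0_7_2 (by omega)
            · omega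
            · exact n0_3_1 (by omega)
          · exact n0_3_1 (by omega)
          · exact d1_5 (by omega)
          · exact n0_3_1 (by omega)
          · omega
          · exact n1_2_5 (by omega)
        · omega
        · exact d0_1 (by omega)
      · exact n1_5_7 (by omega)
      · exact n1_6_7 (by omega)
      · exact d0_3 (by omega)
  · rcases e2_4 with h | h | h | h | h | h
    · omega
    · omega
    · rcases e0_2 with h | h | h | h | h | h
      · rcases e1_4 with h | h | h | h | h | h
        · exact n0_3_4 (by omega)
        · exact n0_3_2 (by omega)
        · exact d1_2 (by omega)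
        · exact n0_3_5 (by omega)
        · exact n0_3_6 (by omega)
        · exact n0_3_7 (by omega)
      · exact d0_4 (by omega)
      · exact d1_2 (by omega)
      · exact n1_5_3 (by omega)
      · exact n1_6_3 (by omega)
      · exact n1_7_3 (by omega)
    · rcases e0_2 with h | h | h | h | h | h
      · rcases e1_3 with h | h | h | h | h | h
        · exact n3_5_4 (by omega)
        · exact n3_4_1 (by omega)
        · exact d0_3 (by omega)
        · exact n0_3_4 (by omega)
        · omega
        · rcases e0_5 with h | h | h | h | h | h
          · exact n0_7_3 (by omega)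
          · omega
          · exact n4_5_7 (by omega)
          · exact d0_4 (by omega)
          · omega
          · exact d3_4 (by omega)
      · rcases e0_5 with h | h | h | h | h | h
        · exact n3_4_1 (by omega)
        · exact n3_4_2 (by omega)
        · exact d2_5 (by omega)
        · exact d1_5 (by omega)
        · exact n3_4_6 (by omega)
        · exact n3_4_7 (by omega)
      · exact d1_2 (by omega)
      · exact d0_4 (by omega)
      · exact n1_6_5 (by omega)
      · exact n1_7_5 (by omega)
    · omega
    · rcases e0_2 with h | h | h | h | h | h
      · rcases e1_4 with h | h | h | h | h | h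
        · exact d0_4 (by omega)
        · exact n0_7_2 (by omega)
        · exact n0_7_3 (by omega)
        · exact n0_7_5 (by omega)
        · exact n0_7_6 (by omega)
        · exact d1_2 (by omega)
      · rcases e0_4 with h | h | h | h | h | h
        · exact n0_3_2 (by omega)
        · rcases e0_5 with h | h | h | h | h | h
          · rcases e1_4 with h | h | h | h | h | h
            · exact d0_4 (by omega)
            · exact d0_1 (by omega)
            · exact d0_5 (by omega)
            · exact d0_3 (by omega)
            · exact n2_5_6 (by omega)
            · exact n0_3_1 (by omega)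
          · exact n2_5_7 (by omega)
          · exact d2_5 (by omega)
          · exact d1_5 (by omega)
          · omega
          · exact n1_2_5 (by omega)
        · exact d2_4 (by omega)
        · rcases e0_5 with h | h | h | h | h | h
          · exact n0_3_2 (by omega)
          · rcases e2_3 with h | h | h | h | h | h
            · exact d0_3 (by omega)
            · omega
            · exact n3_5_1 (by omega)
            · exact n0_7_1 (by omega)
            · omega
            · exact n0_3_1 (by omega)
          · exact d2_5 (by omega)
          · exact n0_3_2 (by omega)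
          · omega
          · exact n1_2_5 (by omega)
        · omega
        · exact d0_2 (by omega)
      · exact d1_2 (by omega)
      · exact n1_5_7 (by omega)
      · exact n1_6_7 (by omega)
      · exact d0_4 (by omega)
  · rcases e0_2 with h | h | h | h | h | h
    · rcases e1_3 with h | h | h | h | h | h
      · omega
      · exact n3_5_1 (by omega)
      · rcases e0_4 with h | h | h | h | h | h
        · exact d2_4 (by omega)
        · exact n3_5_2 (by omega)
        · omega
        · exact d1_4 (by omega)
        · exact n3_5_6 (by omega)
        · exact n3_5_7 (by omega)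
      · exact d0_3 (by omega)
      · omega
      · rcases e1_4 with h | h | h | h | h | h
        · omega
        · exact n4_5_1 (by omega)
        · rcases e0_4 with h | h | h | h | h | h
          · exact n1_2_3 (by omega)
          · rcases e2_3 with h | h | h | h | h | h
            · exact n2_7_5 (by omega)
            · exact d0_3 (by omega)
            · exact n0_7_1 (by omega)
            · exact d0_2 (by omega)
            · omega
            · exact d1_2 (by omega)
          · exact d0_1 (by omega)
          · exact d1_4 (by omega)
          · exact n2_6_3 (by omega)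
          · exact n2_5_0 (by omega)
        · exact d0_4 (by omega)
        · omega
        · exact d3_4 (by omega)
    · rcases e1_3 with h | h | h | h | h | h
      · exact n2_5_0 (by omega)
      · omega
      · exact n2_5_4 (by omega)
      · exact d0_3 (by omega)
      · exact n2_5_6 (by omega)
      · exact n2_5_7 (by omega)
    · rcases e1_4 with h | h | h | h | h | h
      · exact n2_5_0 (by omega)
      · omega
      · exact n2_5_3 (by omega)
      · exact d0_4 (by omega)
      · exact n2_5_6 (by omega)
      · exact n2_5_7 (by omega)
    · exact d1_2 (by omega)
    · omega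
    · rcases e0_4 with h | h | h | h | h | h
      · rcases e1_3 with h | h | h | h | h | h
        · omega
        · exact n3_5_7 (by omega)
        · exact n3_5_1 (by omega)
        · exact d0_3 (by omega)
        · omega
        · exact n3_4_2 (by omega)
      · rcases e2_3 with h | h | h | h | h | h
        · omega
        · exact n3_7_5 (by omega)
        · exact n3_5_1 (by omega)
        · exact n3_4_1 (by omega)
        · omega
        · exact d0_3 (by omega)
      · rcases e1_3 with h | h | h | h | h | h
        · exact n4_5_0 (by omega)
        · exact n3_5_7 (by omega)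
        · exact n1_7_2 (by omega)
        · exact d0_3 (by omega)
        · exact n4_5_6 (by omega)
        · exact n4_5_7 (by omega)
      · exact d1_4 (by omega)
      · omega
      · exact d2_4 (by omega)
  · omega
  · rcases e0_2 with h | h | h | h | h | h
    · rcases e1_3 with h | h | h | h | h | h
      · omega
      · exact n3_7_1 (by omega)
      · rcases e0_4 with h | h | h | h | h | h
        · exact d2_4 (by omega)
        · exact n3_7_2 (by omega)
        · omega
        · exact n3_7_5 (by omega)
        · exact n3_7_6 (by omega)
        · exact d1_4 (by omega)
      · rcases e0_5 with h | h | h | h | h | h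
        · exact d2_5 (by omega)
        · exact n3_7_2 (by omega)
        · omega
        · exact n3_7_4 (by omega)
        · exact n3_7_6 (by omega)
        · exact d1_5 (by omega)
      · omega
      · exact d0_3 (by omega)
    · rcases e1_3 with h | h | h | h | h | h
      · exact n2_7_0 (by omega)
      · omega
      · exact n2_7_4 (by omega)
      · exact n2_7_5 (by omega)
      · exact n2_7_6 (by omega)
      · exact d0_3 (by omega)
    · rcases e1_4 with h | h | h | h | h | h
      · exact n2_7_0 (by omega)
      · omega
      · exact n2_7_3 (by omega)
      · exact n2_7_5 (by omega)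
      · exact n2_7_6 (by omega)
      · exact d0_4 (by omega)
    · rcases e0_4 with h | h | h | h | h | h
      · rcases e1_3 with h | h | h | h | h | h
        · omega
        · exact n3_7_5 (by omega)
        · exact n3_5_2 (by omega)
        · exact n3_4_2 (by omega)
        · omega
        · exact d0_3 (by omega)
      · rcases e2_3 with h | h | h | h | h | h
        · omega
        · exact n3_5_7 (by omega)
        · exact n3_5_2 (by omega)
        · exact d0_3 (by omega)
        · omega
        · exact n3_4_1 (by omega)
      · rcases e1_3 with h | h | h | h | h | h
        · exact n4_7_0 (by omega)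
        · exact n3_7_5 (by omega)
        · exact n1_5_2 (by omega)
        · exact n4_7_5 (by omega)
        · exact n4_7_6 (by omega)
        · exact d0_3 (by omega)
      · exact d2_4 (by omega)
      · omega
      · exact d1_4 (by omega)
    · omega
    · exact d1_2 (by omega)

theorem c7 (x0 x1 x2 x3 x4 x5 x6 x7 : ℕ) (h1 : x7 = 1)
    (p0 : 2 ≤ x0) (p1 : 2 ≤ x1) (p2 : 2 ≤ x2) (p3 : 2 ≤ x3) (p4 : 2 ≤ x4) (p5 : 2 ≤ x5) (p6 : 2 ≤ x6)
    (d0_1 : NE x0 x1)
    (d0_2 : NE x0 x2)
    (d0_3 : NE x0 x3)
    (d0_4 : NE x0 x4)
    (d0_5 : NE x0 x5)
    (d1_2 : NE x1 x2)
    (d1_4 : NE x1 x4)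
    (d1_5 : NE x1 x5)
    (d2_4 : NE x2 x4)
    (d2_5 : NE x2 x5)
    (d3_4 : NE x3 x4)
    (e0_1 : O6 (x0 + x1) x2 x3 x4 x5 x6 x7)
    (e0_2 : O6 (x0 + x2) x1 x3 x4 x5 x6 x7)
    (n0_3_1 : NE (x0 + x3) x1)
    (n0_3_2 : NE (x0 + x3) x2)
    (n0_3_4 : NE (x0 + x3) x4)
    (n0_3_5 : NE (x0 + x3) x5)
    (n0_3_6 : NE (x0 + x3) x6)
    (n0_3_7 : NE (x0 + x3) x7)
    (e0_4 : O6 (x0 + x4) x1 x2 x3 x5 x6 x7)
    (e0_5 : O6 (x0 + x5) x1 x2 x3 x4 x6 x7)
    (n0_6_1 : NE (x0 + x6) x1)
    (n0_6_2 : NE (x0 + x6) x2)
    (n0_6_3 : NE (x0 + x6) x3)
    (n0_6_4 : NE (x0 + x6) x4)
    (n0_6_5 : NE (x0 + x6) x5)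
    (n0_6_7 : NE (x0 + x6) x7)
    (n0_7_5 : NE (x0 + x7) x5)
    (n1_2_3 : NE (x1 + x2) x3)
    (n1_2_5 : NE (x1 + x2) x5)
    (e1_3 : O6 (x1 + x3) x0 x2 x4 x5 x6 x7)
    (e1_4 : O6 (x1 + x4) x0 x2 x3 x5 x6 x7)
    (n1_5_0 : NE (x1 + x5) x0)
    (n1_5_2 : NE (x1 + x5) x2)
    (n1_5_3 : NE (x1 + x5) x3)
    (n1_5_4 : NE (x1 + x5) x4)
    (n1_5_6 : NE (x1 + x5) x6)
    (n1_5_7 : NE (x1 + x5) x7)
    (n1_6_0 : NE (x1 + x6) x0)
    (n1_6_2 : NE (x1 + x6) x2)
    (n1_6_3 : NE (x1 + x6) x3)
    (n1_6_4 : NE (x1 + x6) x4)
    (n1_6_5 : NE (x1 + x6) x5)
    (n1_6_7 : NE (x1 + x6) x7)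
    (n1_7_3 : NE (x1 + x7) x3)
    (n1_7_4 : NE (x1 + x7) x4)
    (n1_7_5 : NE (x1 + x7) x5)
    (n1_7_6 : NE (x1 + x7) x6)
    (e2_3 : O6 (x2 + x3) x0 x1 x4 x5 x6 x7)
    (e2_4 : O6 (x2 + x4) x0 x1 x3 x5 x6 x7)
    (n2_5_0 : NE (x2 + x5) x0)
    (n2_5_3 : NE (x2 + x5) x3)
    (n2_5_4 : NE (x2 + x5) x4)
    (n2_5_6 : NE (x2 + x5) x6)
    (n2_5_7 : NE (x2 + x5) x7)
    (n2_6_0 : NE (x2 + x6) x0)
    (n2_6_3 : NE (x2 + x6) x3)
    (n2_6_4 : NE (x2 + x6) x4)
    (n2_6_5 : NE (x2 + x6) x5)
    (n2_6_7 : NE (x2 + x6) x7)
    (n2_7_3 : NE (x2 + x7) x3)
    (n3_4_1 : NE (x3 + x4) x1)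
    (n3_4_2 : NE (x3 + x4) x2)
    (n3_4_6 : NE (x3 + x4) x6)
    (n3_4_7 : NE (x3 + x4) x7)
    (n3_5_1 : NE (x3 + x5) x1)
    (n3_5_2 : NE (x3 + x5) x2)
    (n3_5_4 : NE (x3 + x5) x4)
    (n3_5_6 : NE (x3 + x5) x6)
    (n3_5_7 : NE (x3 + x5) x7)
    (n3_6_1 : NE (x3 + x6) x1)
    (n3_6_2 : NE (x3 + x6) x2)
    (n3_6_4 : NE (x3 + x6) x4)
    (n3_6_5 : NE (x3 + x6) x5)
    (n3_6_7 : NE (x3 + x6) x7)
    (n3_7_6 : NE (x3 + x7) x6)
    (n4_5_0 : NE (x4 + x5) x0)
    (n4_5_1 : NE (x4 + x5) x1)
    (n4_5_3 : NE (x4 + x5) x3)
    (n4_5_6 : NE (x4 + x5) x6)
    (n4_5_7 : NE (x4 + x5) x7)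
    (n4_6_0 : NE (x4 + x6) x0)
    (n4_6_5 : NE (x4 + x6) x5)
    (n4_6_7 : NE (x4 + x6) x7)
    : False := by
  rcases e0_1 with h | h | h | h | h | h
  · rcases e2_3 with h | h | h | h | h | h
    · omega
    · omega
    · rcases e0_4 with h | h | h | h | h | h
      · omega
      · exact d1_4 (by omega)
      · omega
      · rcases e2_4 with h | h | h | h | h | h
        · exact n1_5_0 (by omega)
        · omega
        · exact n0_3_5 (by omega)
        · exact d0_2 (by omega)
        · exact n1_5_6 (by omega)
        · exact n1_5_7 (by omega)
      · rcases e2_4 with h | h | h | h | h | h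
        · exact n1_6_0 (by omega)
        · omega
        · exact n0_3_6 (by omega)
        · exact n1_6_5 (by omega)
        · exact d0_2 (by omega)
        · exact n1_6_7 (by omega)
      · omega
    · rcases e0_5 with h | h | h | h | h | h
      · omega
      · exact d1_5 (by omega)
      · omega
      · rcases e1_4 with h | h | h | h | h | h
        · exact n2_5_0 (by omega)
        · exact d0_4 (by omega)
        · exact n0_3_4 (by omega)
        · exact n0_3_4 (by omega)
        · exact n2_5_6 (by omega)
        · exact n2_5_7 (by omega)
      · rcases e0_2 with h | h | h | h | h | h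
        · exact n0_6_5 (by omega)
        · rcases e2_4 with h | h | h | h | h | h
          · omega
          · exact n3_4_2 (by omega)
          · exact d0_4 (by omega)
          · exact d3_4 (by omega)
          · exact n0_3_4 (by omega)
          · omega
        · exact n3_4_6 (by omega)
        · exact d0_3 (by omega)
        · exact d2_5 (by omega)
        · exact n3_7_6 (by omega)
      · omega
    · rcases e2_4 with h | h | h | h | h | h
      · omega
      · omega
      · rcases e0_4 with h | h | h | h | h | h
        · rcases e0_2 with h | h | h | h | h | h
          · exact d1_2 (by omega)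
          · exact d0_4 (by omega)
          · exact d1_2 (by omega)
          · rcases e1_3 with h | h | h | h | h | h
            · exact n1_6_5 (by omega)
            · exact d0_3 (by omega)
            · exact n0_6_2 (by omega)
            · exact d0_1 (by omega)
            · exact d1_2 (by omega)
            · omega
          · exact d0_3 (by omega)
          · omega
        · exact n1_2_3 (by omega)
        · exact d0_2 (by omega)
        · exact n1_5_3 (by omega)
        · exact n1_6_3 (by omega)
        · exact n1_7_3 (by omega)
      · rcases e1_4 with h | h | h | h | h | h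
        · rcases e0_2 with h | h | h | h | h | h
          · exact d0_5 (by omega)
          · exact n1_5_3 (by omega)
          · exact n1_5_4 (by omega)
          · exact d0_2 (by omega)
          · exact d0_3 (by omega)
          · exact n1_5_7 (by omega)
        · exact d0_4 (by omega)
        · exact n0_3_5 (by omega)
        · exact d1_2 (by omega)
        · exact n0_3_4 (by omega)
        · exact n0_7_5 (by omega)
      · exact d3_4 (by omega)
      · omega
    · omega
  · rcases e2_3 with h | h | h | h | h | h
    · omega
    · omega
    · rcases e0_2 with h | h | h | h | h | h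
      · rcases e0_4 with h | h | h | h | h | h
        · exact d2_4 (by omega)
        · omega
        · exact d0_3 (by omega)
        · rcases e1_4 with h | h | h | h | h | h
          · exact n2_5_0 (by omega)
          · exact n3_4_1 (by omega)
          · exact d0_4 (by omega)
          · exact d0_1 (by omega)
          · exact n2_5_6 (by omega)
          · omega
        · rcases e1_4 with h | h | h | h | h | h
          · exact n2_6_0 (by omega)
          · exact n3_4_1 (by omega)
          · exact d0_4 (by omega)
          · exact n2_6_5 (by omega)
          · exact d0_1 (by omega)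
          · omega
        · omega
      · exact d1_2 (by omega)
      · exact d0_3 (by omega)
      · exact n1_5_4 (by omega)
      · exact n1_6_4 (by omega)
      · exact n1_7_4 (by omega)
    · rcases e0_2 with h | h | h | h | h | h
      · rcases e1_4 with h | h | h | h | h | h
        · exact n4_5_3 (by omega)
        · exact n3_4_1 (by omega)
        · exact d0_4 (by omega)
        · exact d1_4 (by omega)
        · rcases e0_5 with h | h | h | h | h | h
          · exact n0_6_4 (by omega)
          · omega
          · exact d0_3 (by omega)
          · exact n3_5_6 (by omega)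
          · exact d3_4 (by omega)
          · omega
        · omega
      · exact d1_2 (by omega)
      · rcases e0_5 with h | h | h | h | h | h
        · exact n3_4_1 (by omega)
        · exact n3_4_2 (by omega)
        · exact d1_5 (by omega)
        · exact d2_5 (by omega)
        · exact n3_4_6 (by omega)
        · exact n3_4_7 (by omega)
      · exact d0_3 (by omega)
      · exact n1_6_5 (by omega)
      · exact n1_7_5 (by omega)
    · rcases e0_2 with h | h | h | h | h | h
      · rcases e1_3 with h | h | h | h | h | h
        · exact d0_3 (by omega)
        · exact n0_6_2 (by omega)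
        · exact n0_6_4 (by omega)
        · exact n0_6_5 (by omega)
        · exact n0_3_1 (by omega)
        · exact n0_6_7 (by omega)
      · exact d1_2 (by omega)
      · rcases e0_4 with h | h | h | h | h | h
        · rcases e0_5 with h | h | h | h | h | h
          · exact n1_5_6 (by omega)
          · rcases e1_3 with h | h | h | h | h | h
            · exact d0_3 (by omega)
            · exact n0_6_5 (by omega)
            · exact n0_6_2 (by omega)
            · omega
            · exact n0_3_1 (by omega)
            · omega
          · exact d1_5 (by omega)
          · exact d2_5 (by omega)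
          · exact n1_2_5 (by omega)
          · omega
        · exact n0_3_1 (by omega)
        · exact d1_4 (by omega)
        · rcases e0_5 with h | h | h | h | h | h
          · rcases e1_3 with h | h | h | h | h | h
            · exact d0_3 (by omega)
            · omega
            · exact n3_5_2 (by omega)
            · exact n0_6_2 (by omega)
            · exact n0_3_1 (by omega)
            · omega
          · exact n0_3_1 (by omega)
          · exact d1_5 (by omega)
          · exact n0_3_1 (by omega)
          · exact n1_2_5 (by omega)
          · omega
        · exact d0_1 (by omega)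
        · omega
      · exact n1_5_6 (by omega)
      · exact d0_3 (by omega)
      · exact n1_7_6 (by omega)
    · omega
  · rcases e2_4 with h | h | h | h | h | h
    · omega
    · omega
    · rcases e0_2 with h | h | h | h | h | h
      · rcases e1_4 with h | h | h | h | h | h
        · exact n0_3_4 (by omega)
        · exact n0_3_2 (by omega)
        · exact d1_2 (by omega)
        · exact n0_3_5 (by omega)
        · exact n0_3_6 (by omega)
        · exact n0_3_7 (by omega)
      · exact d0_4 (by omega)
      · exact d1_2 (by omega)
      · exact n1_5_3 (by omega)
      · exact n1_6_3 (by omega)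
      · exact n1_7_3 (by omega)
    · rcases e0_2 with h | h | h | h | h | h
      · rcases e1_3 with h | h | h | h | h | h
        · exact n3_5_4 (by omega)
        · exact n3_4_1 (by omega)
        · exact d0_3 (by omega)
        · exact n0_3_4 (by omega)
        · rcases e0_5 with h | h | h | h | h | h
          · exact n0_6_3 (by omega)
          · omega
          · exact n4_5_6 (by omega)
          · exact d0_4 (by omega)
          · exact d3_4 (by omega)
          · omega
        · omega
      · rcases e0_5 with h | h | h | h | h | h
        · exact n3_4_1 (by omega)
        · exact n3_4_2 (by omega)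
        · exact d2_5 (by omega)
        · exact d1_5 (by omega)
        · exact n3_4_6 (by omega)
        · exact n3_4_7 (by omega)
      · exact d1_2 (by omega)
      · exact d0_4 (by omega)
      · exact n1_6_5 (by omega)
      · exact n1_7_5 (by omega)
    · rcases e0_2 with h | h | h | h | h | h
      · rcases e1_4 with h | h | h | h | h | h
        · exact d0_4 (by omega)
        · exact n0_6_2 (by omega)
        · exact n0_6_3 (by omega)
        · exact n0_6_5 (by omega)
        · exact d1_2 (by omega)
        · exact n0_6_7 (by omega)
      · rcases e0_4 with h | h | h | h | h | h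
        · exact n0_3_2 (by omega)
        · rcases e0_5 with h | h | h | h | h | h
          · rcases e1_4 with h | h | h | h | h | h
            · exact d0_4 (by omega)
            · exact d0_1 (by omega)
            · exact d0_5 (by omega)
            · exact d0_3 (by omega)
            · exact n0_3_1 (by omega)
            · exact n2_5_7 (by omega)
          · exact n2_5_6 (by omega)
          · exact d2_5 (by omega)
          · exact d1_5 (by omega)
          · exact n1_2_5 (by omega)
          · omega
        · exact d2_4 (by omega)
        · rcases e0_5 with h | h | h | h | h | h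
          · exact n0_3_2 (by omega)
          · rcases e2_3 with h | h | h | h | h | h
            · exact d0_3 (by omega)
            · omega
            · exact n3_5_1 (by omega)
            · exact n0_6_1 (by omega)
            · exact n0_3_1 (by omega)
            · omega
          · exact d2_5 (by omega)
          · exact n0_3_2 (by omega)
          · exact n1_2_5 (by omega)
          · omega
        · exact d0_2 (by omega)
        · omega
      · exact d1_2 (by omega)
      · exact n1_5_6 (by omega)
      · exact d0_4 (by omega)
      · exact n1_7_6 (by omega)
    · omega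
  · rcases e0_2 with h | h | h | h | h | h
    · rcases e1_3 with h | h | h | h | h | h
      · omega
      · exact n3_5_1 (by omega)
      · rcases e0_4 with h | h | h | h | h | h
        · exact d2_4 (by omega)
        · exact n3_5_2 (by omega)
        · omega
        · exact d1_4 (by omega)
        · exact n3_5_6 (by omega)
        · exact n3_5_7 (by omega)
      · exact d0_3 (by omega)
      · rcases e1_4 with h | h | h | h | h | h
        · omega
        · exact n4_5_1 (by omega)
        · rcases e0_4 with h | h | h | h | h | h
          · exact n1_2_3 (by omega)
          · rcases e2_3 with h | h | h | h | h | h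
            · exact n2_6_5 (by omega)
            · exact d0_3 (by omega)
            · exact n0_6_1 (by omega)
            · exact d0_2 (by omega)
            · exact d1_2 (by omega)
            · omega
          · exact d0_1 (by omega)
          · exact d1_4 (by omega)
          · exact n2_5_0 (by omega)
          · exact n2_7_3 (by omega)
        · exact d0_4 (by omega)
        · exact d3_4 (by omega)
        · omega
      · omega
    · rcases e1_3 with h | h | h | h | h | h
      · exact n2_5_0 (by omega)
      · omega
      · exact n2_5_4 (by omega)
      · exact d0_3 (by omega)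
      · exact n2_5_6 (by omega)
      · exact n2_5_7 (by omega)
    · rcases e1_4 with h | h | h | h | h | h
      · exact n2_5_0 (by omega)
      · omega
      · exact n2_5_3 (by omega)
      · exact d0_4 (by omega)
      · exact n2_5_6 (by omega)
      · exact n2_5_7 (by omega)
    · exact d1_2 (by omega)
    · rcases e0_4 with h | h | h | h | h | h
      · rcases e1_3 with h | h | h | h | h | h
        · omega
        · exact n3_5_6 (by omega)
        · exact n3_5_1 (by omega)
        · exact d0_3 (by omega)
        · exact n3_4_2 (by omega)
        · omega
      · rcases e2_3 with h | h | h | h | h | h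
        · omega
        · exact n3_6_5 (by omega)
        · exact n3_5_1 (by omega)
        · exact n3_4_1 (by omega)
        · exact d0_3 (by omega)
        · omega
      · rcases e1_3 with h | h | h | h | h | h
        · exact n4_5_0 (by omega)
        · exact n3_5_6 (by omega)
        · exact n1_6_2 (by omega)
        · exact d0_3 (by omega)
        · exact n4_5_6 (by omega)
        · exact n4_5_7 (by omega)
      · exact d1_4 (by omega)
      · exact d2_4 (by omega)
      · omega
    · omega
  · rcases e0_2 with h | h | h | h | h | h
    · rcases e1_3 with h | h | h | h | h | h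
      · omega
      · exact n3_6_1 (by omega)
      · rcases e0_4 with h | h | h | h | h | h
        · exact d2_4 (by omega)
        · exact n3_6_2 (by omega)
        · omega
        · exact n3_6_5 (by omega)
        · exact d1_4 (by omega)
        · exact n3_6_7 (by omega)
      · rcases e0_5 with h | h | h | h | h | h
        · exact d2_5 (by omega)
        · exact n3_6_2 (by omega)
        · omega
        · exact n3_6_4 (by omega)
        · exact d1_5 (by omega)
        · exact n3_6_7 (by omega)
      · exact d0_3 (by omega)
      · omega
    · rcases e1_3 with h | h | h | h | h | h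
      · exact n2_6_0 (by omega)
      · omega
      · exact n2_6_4 (by omega)
      · exact n2_6_5 (by omega)
      · exact d0_3 (by omega)
      · exact n2_6_7 (by omega)
    · rcases e1_4 with h | h | h | h | h | h
      · exact n2_6_0 (by omega)
      · omega
      · exact n2_6_3 (by omega)
      · exact n2_6_5 (by omega)
      · exact d0_4 (by omega)
      · exact n2_6_7 (by omega)
    · rcases e0_4 with h | h | h | h | h | h
      · rcases e1_3 with h | h | h | h | h | h
        · omega
        · exact n3_6_5 (by omega)
        · exact n3_5_2 (by omega)
        · exact n3_4_2 (by omega)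
        · exact d0_3 (by omega)
        · omega
      · rcases e2_3 with h | h | h | h | h | h
        · omega
        · exact n3_5_6 (by omega)
        · exact n3_5_2 (by omega)
        · exact d0_3 (by omega)
        · exact n3_4_1 (by omega)
        · omega
      · rcases e1_3 with h | h | h | h | h | h
        · exact n4_6_0 (by omega)
        · exact n3_6_5 (by omega)
        · exact n1_5_2 (by omega)
        · exact n4_6_5 (by omega)
        · exact d0_3 (by omega)
        · exact n4_6_7 (by omega)
      · exact d2_4 (by omega)
      · exact d1_4 (by omega)
      · omega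
    · exact d1_2 (by omega)
    · omega
  · omega

/-- the labels -/
def lab : Fin 8 → ℕ := ![2, 3, 4, 5, 6, 8, 9, 10]

/-- the graph -/
def G : SimpleGraph (Fin 8) := SimpleGraph.fromRel fun u v => ∃ w, lab w = lab u + lab v

instance : DecidableRel G.Adj := fun u v => by unfold G; infer_instance

theorem no_one (x : Fin 8 → ℕ) (hi : Function.Injective x) (hp : ∀ v, 0 < x v)
    (h : ∀ u v, u ≠ v → (G.Adj u v ↔ ∃ w, x w = x u + x v)) (u : Fin 8) : x u ≠ 1 := by
  intro h1
  have p : ∀ v, v ≠ u → 2 ≤ x v := fun v hv => by
    have := hp v
    have : x v ≠ x u := fun e => hv (hi e)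
    omega
  have d : ∀ a b, a ≠ b → NE (x a) (x b) := fun a b hab e => hab (hi e)
  have nn : ∀ a b c, a ≠ b → ¬ G.Adj a b → NE (x a + x b) (x c) :=
    fun a b c hab hn e => hn ((h a b hab).2 ⟨c, e.symm⟩)
  have ee : ∀ a b c1 c2 c3 c4 c5 c6, G.Adj a b →
      (∀ w, w = a ∨ w = b ∨ w = c1 ∨ w = c2 ∨ w = c3 ∨ w = c4 ∨ w = c5 ∨ w = c6) →
      O6 (x a + x b) (x c1) (x c2) (x c3) (x c4) (x c5) (x c6) := by
    intro a b c1 c2 c3 c4 c5 c6 hab hw
    obtain ⟨w, e⟩ := (h a b hab.ne).1 hab
    have := hp a
    have := hp b
    unfold O6
    rcases hw w with rfl | rfl | rfl | rfl | rfl | rfl | rfl | rfl <;> omega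
  fin_cases u
  · exact c0 (x 0) (x 1) (x 2) (x 3) (x 4) (x 5) (x 6) (x 7) h1
      (p 1 (by decide)) (p 2 (by decide))
      (p 3 (by decide)) (p 4 (by decide))
      (p 5 (by decide)) (p 6 (by decide))
      (p 7 (by decide)) (d 0 1 (by decide))
      (d 0 2 (by decide)) (d 0 3 (by decide))
      (d 0 4 (by decide)) (d 1 2 (by decide))
      (d 1 4 (by decide)) (d 1 5 (by decide))
      (d 1 6 (by decide)) (d 1 7 (by decide))
      (d 2 5 (by decide)) (d 3 4 (by decide))
      (ee 0 1 2 3 4 5 6 7 (by decide) (by decide)) (ee 0 2 1 3 4 5 6 7 (by decide) (by decide))
      (nn 0 3 1 (by decide) (by decide)) (nn 0 3 2 (by decide) (by decide))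
      (nn 0 3 4 (by decide) (by decide)) (nn 0 3 5 (by decide) (by decide))
      (nn 0 3 6 (by decide) (by decide)) (nn 0 3 7 (by decide) (by decide))
      (ee 0 4 1 2 3 5 6 7 (by decide) (by decide)) (ee 0 5 1 2 3 4 6 7 (by decide) (by decide))
      (nn 0 6 1 (by decide) (by decide)) (nn 0 6 2 (by decide) (by decide))
      (nn 0 6 3 (by decide) (by decide)) (nn 0 6 4 (by decide) (by decide))
      (nn 0 6 5 (by decide) (by decide)) (nn 0 6 7 (by decide) (by decide))
      (nn 0 7 1 (by decide) (by decide)) (nn 0 7 2 (by decide) (by decide))
      (nn 0 7 3 (by decide) (by decide)) (nn 0 7 4 (by decide) (by decide))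
      (nn 0 7 5 (by decide) (by decide)) (nn 0 7 6 (by decide) (by decide))
      (nn 1 2 3 (by decide) (by decide)) (nn 1 2 4 (by decide) (by decide))
      (nn 1 2 5 (by decide) (by decide)) (nn 1 2 6 (by decide) (by decide))
      (nn 1 2 7 (by decide) (by decide)) (ee 1 3 0 2 4 5 6 7 (by decide) (by decide))
      (ee 1 4 0 2 3 5 6 7 (by decide) (by decide)) (nn 1 5 0 (by decide) (by decide))
      (nn 1 5 2 (by decide) (by decide)) (nn 1 5 3 (by decide) (by decide))
      (nn 1 5 4 (by decide) (by decide)) (nn 1 5 6 (by decide) (by decide))
      (nn 1 5 7 (by decide) (by decide)) (nn 1 6 0 (by decide) (by decide))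
      (nn 1 6 2 (by decide) (by decide)) (nn 1 6 3 (by decide) (by decide))
      (nn 1 6 4 (by decide) (by decide)) (nn 1 6 5 (by decide) (by decide))
      (nn 1 6 7 (by decide) (by decide)) (nn 1 7 0 (by decide) (by decide))
      (nn 1 7 2 (by decide) (by decide)) (nn 1 7 3 (by decide) (by decide))
      (nn 1 7 4 (by decide) (by decide)) (nn 1 7 5 (by decide) (by decide))
      (nn 1 7 6 (by decide) (by decide)) (ee 2 3 0 1 4 5 6 7 (by decide) (by decide))
      (ee 2 4 0 1 3 5 6 7 (by decide) (by decide)) (nn 2 5 0 (by decide) (by decide))
      (nn 2 5 3 (by decide) (by decide)) (nn 2 5 6 (by decide) (by decide))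
      (nn 2 5 7 (by decide) (by decide)) (nn 2 6 3 (by decide) (by decide))
      (nn 2 6 5 (by decide) (by decide)) (nn 2 6 7 (by decide) (by decide))
      (nn 2 7 3 (by decide) (by decide)) (nn 2 7 5 (by decide) (by decide))
      (nn 2 7 6 (by decide) (by decide)) (nn 3 4 1 (by decide) (by decide))
      (nn 3 4 2 (by decide) (by decide)) (nn 3 4 6 (by decide) (by decide))
      (nn 3 4 7 (by decide) (by decide)) (nn 3 5 0 (by decide) (by decide))
      (nn 3 5 2 (by decide) (by decide)) (nn 3 5 6 (by decide) (by decide))
      (nn 3 5 7 (by decide) (by decide)) (nn 3 6 0 (by decide) (by decide))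
      (nn 3 6 2 (by decide) (by decide)) (nn 3 6 4 (by decide) (by decide))
      (nn 3 6 5 (by decide) (by decide)) (nn 3 6 7 (by decide) (by decide))
      (nn 3 7 0 (by decide) (by decide)) (nn 3 7 2 (by decide) (by decide))
      (nn 3 7 4 (by decide) (by decide)) (nn 3 7 5 (by decide) (by decide))
      (nn 3 7 6 (by decide) (by decide)) (nn 4 5 3 (by decide) (by decide))
      (nn 4 5 6 (by decide) (by decide)) (nn 4 5 7 (by decide) (by decide))
      (nn 4 6 0 (by decide) (by decide)) (nn 4 6 1 (by decide) (by decide))
      (nn 4 6 5 (by decide) (by decide)) (nn 4 6 7 (by decide) (by decide))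
      (nn 4 7 0 (by decide) (by decide)) (nn 4 7 1 (by decide) (by decide))
      (nn 4 7 5 (by decide) (by decide)) (nn 4 7 6 (by decide) (by decide))
  · exact c1 (x 0) (x 1) (x 2) (x 3) (x 4) (x 5) (x 6) (x 7) h1
      (p 0 (by decide)) (p 2 (by decide))
      (p 3 (by decide)) (p 4 (by decide))
      (p 5 (by decide)) (p 6 (by decide))
      (p 7 (by decide)) (d 0 1 (by decide))
      (d 0 2 (by decide)) (d 0 3 (by decide))
      (d 0 4 (by decide)) (d 0 5 (by decide))
      (d 0 6 (by decide)) (d 0 7 (by decide))
      (d 1 2 (by decide)) (d 1 4 (by decide))
      (d 1 5 (by decide)) (d 2 4 (by decide))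
      (d 2 5 (by decide)) (d 4 5 (by decide))
      (ee 0 1 2 3 4 5 6 7 (by decide) (by decide)) (ee 0 2 1 3 4 5 6 7 (by decide) (by decide))
      (nn 0 3 1 (by decide) (by decide)) (nn 0 3 2 (by decide) (by decide))
      (nn 0 3 4 (by decide) (by decide)) (nn 0 3 5 (by decide) (by decide))
      (nn 0 3 6 (by decide) (by decide)) (nn 0 3 7 (by decide) (by decide))
      (ee 0 4 1 2 3 5 6 7 (by decide) (by decide)) (ee 0 5 1 2 3 4 6 7 (by decide) (by decide))
      (nn 0 6 1 (by decide) (by decide)) (nn 0 6 2 (by decide) (by decide))
      (nn 0 6 3 (by decide) (by decide)) (nn 0 6 4 (by decide) (by decide))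
      (nn 0 6 5 (by decide) (by decide)) (nn 0 6 7 (by decide) (by decide))
      (nn 0 7 1 (by decide) (by decide)) (nn 0 7 2 (by decide) (by decide))
      (nn 0 7 3 (by decide) (by decide)) (nn 0 7 4 (by decide) (by decide))
      (nn 0 7 5 (by decide) (by decide)) (nn 0 7 6 (by decide) (by decide))
      (nn 1 2 0 (by decide) (by decide)) (nn 1 2 4 (by decide) (by decide))
      (nn 1 2 5 (by decide) (by decide)) (ee 1 3 0 2 4 5 6 7 (by decide) (by decide))
      (ee 1 4 0 2 3 5 6 7 (by decide) (by decide)) (nn 1 5 0 (by decide) (by decide))
      (nn 1 5 2 (by decide) (by decide)) (nn 1 5 3 (by decide) (by decide))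
      (nn 1 5 4 (by decide) (by decide)) (nn 1 5 6 (by decide) (by decide))
      (nn 1 5 7 (by decide) (by decide)) (nn 1 6 0 (by decide) (by decide))
      (nn 1 6 3 (by decide) (by decide)) (nn 1 6 4 (by decide) (by decide))
      (nn 1 6 5 (by decide) (by decide)) (nn 1 6 7 (by decide) (by decide))
      (nn 1 7 0 (by decide) (by decide)) (nn 1 7 3 (by decide) (by decide))
      (nn 1 7 5 (by decide) (by decide)) (nn 1 7 6 (by decide) (by decide))
      (ee 2 3 0 1 4 5 6 7 (by decide) (by decide)) (ee 2 4 0 1 3 5 6 7 (by decide) (by decide))
      (nn 2 5 0 (by decide) (by decide)) (nn 2 5 1 (by decide) (by decide))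
      (nn 2 5 3 (by decide) (by decide)) (nn 2 5 4 (by decide) (by decide))
      (nn 2 5 6 (by decide) (by decide)) (nn 2 5 7 (by decide) (by decide))
      (nn 2 6 3 (by decide) (by decide)) (nn 2 6 4 (by decide) (by decide))
      (nn 2 6 5 (by decide) (by decide)) (nn 2 6 7 (by decide) (by decide))
      (nn 2 7 3 (by decide) (by decide)) (nn 2 7 4 (by decide) (by decide))
      (nn 2 7 5 (by decide) (by decide)) (nn 2 7 6 (by decide) (by decide))
      (nn 3 4 1 (by decide) (by decide)) (nn 3 4 2 (by decide) (by decide))
      (nn 3 4 5 (by decide) (by decide)) (nn 3 4 6 (by decide) (by decide))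
      (nn 3 4 7 (by decide) (by decide)) (nn 3 5 0 (by decide) (by decide))
      (nn 3 5 1 (by decide) (by decide)) (nn 3 5 2 (by decide) (by decide))
      (nn 3 5 4 (by decide) (by decide)) (nn 3 5 6 (by decide) (by decide))
      (nn 3 5 7 (by decide) (by decide)) (nn 3 6 1 (by decide) (by decide))
      (nn 3 6 2 (by decide) (by decide)) (nn 3 6 4 (by decide) (by decide))
      (nn 3 6 5 (by decide) (by decide)) (nn 3 6 7 (by decide) (by decide))
      (nn 3 7 1 (by decide) (by decide)) (nn 3 7 2 (by decide) (by decide))
      (nn 3 7 4 (by decide) (by decide)) (nn 3 7 5 (by decide) (by decide))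
      (nn 3 7 6 (by decide) (by decide)) (nn 4 5 0 (by decide) (by decide))
      (nn 4 5 1 (by decide) (by decide)) (nn 4 5 2 (by decide) (by decide))
      (nn 4 5 3 (by decide) (by decide)) (nn 4 5 6 (by decide) (by decide))
      (nn 4 5 7 (by decide) (by decide)) (nn 4 6 0 (by decide) (by decide))
      (nn 4 6 1 (by decide) (by decide)) (nn 4 6 5 (by decide) (by decide))
      (nn 4 6 7 (by decide) (by decide)) (nn 4 7 0 (by decide) (by decide))
      (nn 4 7 1 (by decide) (by decide)) (nn 4 7 5 (by decide) (by decide))
      (nn 4 7 6 (by decide) (by decide)) (nn 5 6 0 (by decide) (by decide))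
      (nn 5 6 1 (by decide) (by decide)) (nn 5 6 3 (by decide) (by decide))
      (nn 5 6 7 (by decide) (by decide)) (nn 5 7 0 (by decide) (by decide))
      (nn 5 7 1 (by decide) (by decide)) (nn 5 7 3 (by decide) (by decide))
      (nn 5 7 6 (by decide) (by decide))
  · exact c2 (x 0) (x 1) (x 2) (x 3) (x 4) (x 5) (x 6) (x 7) h1
      (p 0 (by decide)) (p 1 (by decide))
      (p 3 (by decide)) (p 4 (by decide))
      (p 5 (by decide)) (p 6 (by decide))
      (p 7 (by decide)) (d 0 1 (by decide))
      (d 0 2 (by decide)) (d 0 3 (by decide))
      (d 0 4 (by decide)) (d 0 5 (by decide))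
      (d 0 6 (by decide)) (d 0 7 (by decide))
      (d 1 2 (by decide)) (d 1 4 (by decide))
      (d 1 5 (by decide)) (d 2 4 (by decide))
      (d 2 5 (by decide)) (d 4 5 (by decide))
      (d 6 7 (by decide)) (ee 0 1 2 3 4 5 6 7 (by decide) (by decide))
      (ee 0 2 1 3 4 5 6 7 (by decide) (by decide)) (nn 0 3 1 (by decide) (by decide))
      (nn 0 3 2 (by decide) (by decide)) (nn 0 3 4 (by decide) (by decide))
      (nn 0 3 5 (by decide) (by decide)) (nn 0 3 6 (by decide) (by decide))
      (nn 0 3 7 (by decide) (by decide)) (ee 0 4 1 2 3 5 6 7 (by decide) (by decide))
      (ee 0 5 1 2 3 4 6 7 (by decide) (by decide)) (nn 0 6 1 (by decide) (by decide))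
      (nn 0 6 2 (by decide) (by decide)) (nn 0 6 3 (by decide) (by decide))
      (nn 0 6 4 (by decide) (by decide)) (nn 0 6 5 (by decide) (by decide))
      (nn 0 6 7 (by decide) (by decide)) (nn 0 7 1 (by decide) (by decide))
      (nn 0 7 2 (by decide) (by decide)) (nn 0 7 3 (by decide) (by decide))
      (nn 0 7 4 (by decide) (by decide)) (nn 0 7 5 (by decide) (by decide))
      (nn 0 7 6 (by decide) (by decide)) (nn 1 2 0 (by decide) (by decide))
      (nn 1 2 3 (by decide) (by decide)) (nn 1 2 4 (by decide) (by decide))
      (nn 1 2 5 (by decide) (by decide)) (nn 1 2 6 (by decide) (by decide))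
      (nn 1 2 7 (by decide) (by decide)) (ee 1 3 0 2 4 5 6 7 (by decide) (by decide))
      (ee 1 4 0 2 3 5 6 7 (by decide) (by decide)) (nn 1 5 0 (by decide) (by decide))
      (nn 1 5 2 (by decide) (by decide)) (nn 1 5 3 (by decide) (by decide))
      (nn 1 5 4 (by decide) (by decide)) (nn 1 5 6 (by decide) (by decide))
      (nn 1 5 7 (by decide) (by decide)) (nn 1 6 0 (by decide) (by decide))
      (nn 1 6 3 (by decide) (by decide)) (nn 1 6 4 (by decide) (by decide))
      (nn 1 6 7 (by decide) (by decide)) (nn 1 7 0 (by decide) (by decide))
      (nn 1 7 3 (by decide) (by decide)) (nn 1 7 4 (by decide) (by decide))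
      (nn 1 7 6 (by decide) (by decide)) (ee 2 3 0 1 4 5 6 7 (by decide) (by decide))
      (ee 2 4 0 1 3 5 6 7 (by decide) (by decide)) (nn 2 5 0 (by decide) (by decide))
      (nn 2 5 1 (by decide) (by decide)) (nn 2 5 3 (by decide) (by decide))
      (nn 2 5 4 (by decide) (by decide)) (nn 2 5 6 (by decide) (by decide))
      (nn 2 5 7 (by decide) (by decide)) (nn 2 6 0 (by decide) (by decide))
      (nn 2 6 3 (by decide) (by decide)) (nn 2 6 4 (by decide) (by decide))
      (nn 2 6 5 (by decide) (by decide)) (nn 2 6 7 (by decide) (by decide))
      (nn 2 7 0 (by decide) (by decide)) (nn 2 7 3 (by decide) (by decide))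
      (nn 2 7 5 (by decide) (by decide)) (nn 2 7 6 (by decide) (by decide))
      (nn 3 4 1 (by decide) (by decide)) (nn 3 4 2 (by decide) (by decide))
      (nn 3 4 5 (by decide) (by decide)) (nn 3 4 6 (by decide) (by decide))
      (nn 3 4 7 (by decide) (by decide)) (nn 3 5 0 (by decide) (by decide))
      (nn 3 5 1 (by decide) (by decide)) (nn 3 5 2 (by decide) (by decide))
      (nn 3 5 4 (by decide) (by decide)) (nn 3 5 6 (by decide) (by decide))
      (nn 3 5 7 (by decide) (by decide)) (nn 3 6 1 (by decide) (by decide))
      (nn 3 6 2 (by decide) (by decide)) (nn 3 6 4 (by decide) (by decide))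
      (nn 3 6 5 (by decide) (by decide)) (nn 3 6 7 (by decide) (by decide))
      (nn 3 7 1 (by decide) (by decide)) (nn 3 7 2 (by decide) (by decide))
      (nn 3 7 4 (by decide) (by decide)) (nn 3 7 5 (by decide) (by decide))
      (nn 3 7 6 (by decide) (by decide)) (nn 4 5 0 (by decide) (by decide))
      (nn 4 5 1 (by decide) (by decide)) (nn 4 5 2 (by decide) (by decide))
      (nn 4 5 3 (by decide) (by decide)) (nn 4 5 6 (by decide) (by decide))
      (nn 4 5 7 (by decide) (by decide)) (nn 4 6 0 (by decide) (by decide))
      (nn 4 6 2 (by decide) (by decide)) (nn 4 6 5 (by decide) (by decide))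
      (nn 4 6 7 (by decide) (by decide)) (nn 4 7 0 (by decide) (by decide))
      (nn 4 7 2 (by decide) (by decide)) (nn 4 7 5 (by decide) (by decide))
      (nn 4 7 6 (by decide) (by decide)) (nn 5 6 0 (by decide) (by decide))
      (nn 5 6 2 (by decide) (by decide)) (nn 5 6 3 (by decide) (by decide))
      (nn 5 6 7 (by decide) (by decide)) (nn 5 7 0 (by decide) (by decide))
      (nn 5 7 2 (by decide) (by decide)) (nn 5 7 3 (by decide) (by decide))
      (nn 5 7 6 (by decide) (by decide))
  · exact c3 (x 0) (x 1) (x 2) (x 3) (x 4) (x 5) (x 6) (x 7) h1
      (p 0 (by decide)) (p 1 (by decide))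
      (p 2 (by decide)) (p 4 (by decide))
      (p 5 (by decide)) (p 6 (by decide))
      (p 7 (by decide)) (d 0 1 (by decide))
      (d 0 2 (by decide)) (d 0 3 (by decide))
      (d 0 4 (by decide)) (d 0 6 (by decide))
      (d 0 7 (by decide)) (d 1 2 (by decide))
      (d 1 4 (by decide)) (d 1 5 (by decide))
      (d 2 4 (by decide)) (d 2 5 (by decide))
      (d 4 5 (by decide)) (ee 0 1 2 3 4 5 6 7 (by decide) (by decide))
      (ee 0 2 1 3 4 5 6 7 (by decide) (by decide)) (nn 0 3 1 (by decide) (by decide))
      (nn 0 3 2 (by decide) (by decide)) (nn 0 3 4 (by decide) (by decide))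
      (nn 0 3 6 (by decide) (by decide)) (nn 0 3 7 (by decide) (by decide))
      (ee 0 4 1 2 3 5 6 7 (by decide) (by decide)) (ee 0 5 1 2 3 4 6 7 (by decide) (by decide))
      (nn 0 6 1 (by decide) (by decide)) (nn 0 6 2 (by decide) (by decide))
      (nn 0 6 3 (by decide) (by decide)) (nn 0 6 4 (by decide) (by decide))
      (nn 0 6 5 (by decide) (by decide)) (nn 0 6 7 (by decide) (by decide))
      (nn 0 7 1 (by decide) (by decide)) (nn 0 7 2 (by decide) (by decide))
      (nn 0 7 3 (by decide) (by decide)) (nn 0 7 5 (by decide) (by decide))
      (nn 0 7 6 (by decide) (by decide)) (nn 1 2 3 (by decide) (by decide))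
      (nn 1 2 4 (by decide) (by decide)) (nn 1 2 5 (by decide) (by decide))
      (nn 1 2 6 (by decide) (by decide)) (nn 1 2 7 (by decide) (by decide))
      (ee 1 3 0 2 4 5 6 7 (by decide) (by decide)) (ee 1 4 0 2 3 5 6 7 (by decide) (by decide))
      (nn 1 5 2 (by decide) (by decide)) (nn 1 5 6 (by decide) (by decide))
      (nn 1 5 7 (by decide) (by decide)) (nn 1 6 2 (by decide) (by decide))
      (nn 1 6 4 (by decide) (by decide)) (nn 1 6 5 (by decide) (by decide))
      (nn 1 6 7 (by decide) (by decide)) (nn 1 7 2 (by decide) (by decide))
      (nn 1 7 4 (by decide) (by decide)) (nn 1 7 5 (by decide) (by decide))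
      (nn 1 7 6 (by decide) (by decide)) (ee 2 3 0 1 4 5 6 7 (by decide) (by decide))
      (ee 2 4 0 1 3 5 6 7 (by decide) (by decide)) (nn 2 5 0 (by decide) (by decide))
      (nn 2 5 3 (by decide) (by decide)) (nn 2 5 4 (by decide) (by decide))
      (nn 2 5 6 (by decide) (by decide)) (nn 2 5 7 (by decide) (by decide))
      (nn 2 6 0 (by decide) (by decide)) (nn 2 6 1 (by decide) (by decide))
      (nn 2 6 3 (by decide) (by decide)) (nn 2 6 5 (by decide) (by decide))
      (nn 2 6 7 (by decide) (by decide)) (nn 2 7 0 (by decide) (by decide))
      (nn 2 7 1 (by decide) (by decide)) (nn 2 7 3 (by decide) (by decide))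
      (nn 2 7 5 (by decide) (by decide)) (nn 2 7 6 (by decide) (by decide))
      (nn 3 4 1 (by decide) (by decide)) (nn 3 4 2 (by decide) (by decide))
      (nn 3 4 5 (by decide) (by decide)) (nn 3 5 1 (by decide) (by decide))
      (nn 3 5 2 (by decide) (by decide)) (nn 3 5 4 (by decide) (by decide))
      (nn 3 5 6 (by decide) (by decide)) (nn 3 5 7 (by decide) (by decide))
      (nn 3 6 1 (by decide) (by decide)) (nn 3 6 2 (by decide) (by decide))
      (nn 3 6 5 (by decide) (by decide)) (nn 3 6 7 (by decide) (by decide))
      (nn 3 7 1 (by decide) (by decide)) (nn 3 7 2 (by decide) (by decide))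
      (nn 3 7 5 (by decide) (by decide)) (nn 3 7 6 (by decide) (by decide))
      (nn 4 5 1 (by decide) (by decide)) (nn 4 6 1 (by decide) (by decide))
      (nn 4 6 2 (by decide) (by decide)) (nn 4 6 3 (by decide) (by decide))
      (nn 4 6 7 (by decide) (by decide)) (nn 4 7 1 (by decide) (by decide))
      (nn 4 7 2 (by decide) (by decide)) (nn 4 7 3 (by decide) (by decide))
      (nn 4 7 6 (by decide) (by decide)) (nn 5 6 0 (by decide) (by decide))
      (nn 5 6 3 (by decide) (by decide)) (nn 5 6 7 (by decide) (by decide))
      (nn 5 7 0 (by decide) (by decide)) (nn 5 7 3 (by decide) (by decide))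
      (nn 5 7 6 (by decide) (by decide))
  · exact c4 (x 0) (x 1) (x 2) (x 3) (x 4) (x 5) (x 6) (x 7) h1
      (p 0 (by decide)) (p 1 (by decide))
      (p 2 (by decide)) (p 3 (by decide))
      (p 5 (by decide)) (p 6 (by decide))
      (p 7 (by decide)) (d 0 1 (by decide))
      (d 0 2 (by decide)) (d 0 3 (by decide))
      (d 0 4 (by decide)) (d 0 5 (by decide))
      (d 0 6 (by decide)) (d 0 7 (by decide))
      (d 1 2 (by decide)) (d 1 4 (by decide))
      (d 1 5 (by decide)) (d 2 4 (by decide))
      (d 2 5 (by decide)) (d 3 4 (by decide))
      (d 4 5 (by decide)) (ee 0 1 2 3 4 5 6 7 (by decide) (by decide))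
      (ee 0 2 1 3 4 5 6 7 (by decide) (by decide)) (nn 0 3 1 (by decide) (by decide))
      (nn 0 3 2 (by decide) (by decide)) (nn 0 3 4 (by decide) (by decide))
      (ee 0 4 1 2 3 5 6 7 (by decide) (by decide)) (ee 0 5 1 2 3 4 6 7 (by decide) (by decide))
      (nn 0 6 1 (by decide) (by decide)) (nn 0 6 2 (by decide) (by decide))
      (nn 0 6 4 (by decide) (by decide)) (nn 0 6 5 (by decide) (by decide))
      (nn 0 6 7 (by decide) (by decide)) (nn 0 7 1 (by decide) (by decide))
      (nn 0 7 2 (by decide) (by decide)) (nn 0 7 4 (by decide) (by decide))
      (nn 0 7 5 (by decide) (by decide)) (nn 0 7 6 (by decide) (by decide))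
      (ee 1 3 0 2 4 5 6 7 (by decide) (by decide)) (ee 1 4 0 2 3 5 6 7 (by decide) (by decide))
      (nn 1 5 2 (by decide) (by decide)) (nn 1 5 3 (by decide) (by decide))
      (nn 1 5 4 (by decide) (by decide)) (nn 1 5 6 (by decide) (by decide))
      (nn 1 5 7 (by decide) (by decide)) (nn 1 6 0 (by decide) (by decide))
      (nn 1 6 2 (by decide) (by decide)) (nn 1 6 3 (by decide) (by decide))
      (nn 1 6 4 (by decide) (by decide)) (nn 1 6 5 (by decide) (by decide))
      (nn 1 6 7 (by decide) (by decide)) (nn 1 7 0 (by decide) (by decide))
      (nn 1 7 2 (by decide) (by decide)) (nn 1 7 3 (by decide) (by decide))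
      (nn 1 7 4 (by decide) (by decide)) (nn 1 7 5 (by decide) (by decide))
      (nn 1 7 6 (by decide) (by decide)) (ee 2 3 0 1 4 5 6 7 (by decide) (by decide))
      (ee 2 4 0 1 3 5 6 7 (by decide) (by decide)) (nn 2 5 0 (by decide) (by decide))
      (nn 2 5 1 (by decide) (by decide)) (nn 2 5 3 (by decide) (by decide))
      (nn 2 5 4 (by decide) (by decide)) (nn 2 5 6 (by decide) (by decide))
      (nn 2 5 7 (by decide) (by decide)) (nn 2 6 0 (by decide) (by decide))
      (nn 2 6 3 (by decide) (by decide)) (nn 2 6 4 (by decide) (by decide))
      (nn 2 6 5 (by decide) (by decide)) (nn 2 6 7 (by decide) (by decide))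
      (nn 2 7 0 (by decide) (by decide)) (nn 2 7 3 (by decide) (by decide))
      (nn 2 7 4 (by decide) (by decide)) (nn 2 7 5 (by decide) (by decide))
      (nn 2 7 6 (by decide) (by decide)) (nn 3 4 0 (by decide) (by decide))
      (nn 3 4 1 (by decide) (by decide)) (nn 3 4 2 (by decide) (by decide))
      (nn 3 4 5 (by decide) (by decide)) (nn 3 5 1 (by decide) (by decide))
      (nn 3 5 2 (by decide) (by decide)) (nn 3 5 4 (by decide) (by decide))
      (nn 3 6 1 (by decide) (by decide)) (nn 3 6 2 (by decide) (by decide))
      (nn 3 6 4 (by decide) (by decide)) (nn 3 6 5 (by decide) (by decide))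
      (nn 3 6 7 (by decide) (by decide)) (nn 3 7 1 (by decide) (by decide))
      (nn 3 7 2 (by decide) (by decide)) (nn 3 7 4 (by decide) (by decide))
      (nn 3 7 5 (by decide) (by decide)) (nn 3 7 6 (by decide) (by decide))
      (nn 4 5 3 (by decide) (by decide)) (nn 4 6 1 (by decide) (by decide))
      (nn 4 6 2 (by decide) (by decide)) (nn 4 6 5 (by decide) (by decide))
      (nn 4 6 7 (by decide) (by decide)) (nn 4 7 6 (by decide) (by decide))
      (nn 5 6 0 (by decide) (by decide)) (nn 5 6 4 (by decide) (by decide))
      (nn 5 6 7 (by decide) (by decide)) (nn 5 7 0 (by decide) (by decide))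
      (nn 5 7 4 (by decide) (by decide)) (nn 5 7 6 (by decide) (by decide))
  · exact c5 (x 0) (x 1) (x 2) (x 3) (x 4) (x 5) (x 6) (x 7) h1
      (p 0 (by decide)) (p 1 (by decide))
      (p 2 (by decide)) (p 3 (by decide))
      (p 4 (by decide)) (p 6 (by decide))
      (p 7 (by decide)) (d 0 1 (by decide))
      (d 0 2 (by decide)) (d 0 3 (by decide))
      (d 0 4 (by decide)) (d 0 6 (by decide))
      (d 0 7 (by decide)) (d 1 2 (by decide))
      (d 1 4 (by decide)) (d 1 5 (by decide))
      (d 2 4 (by decide)) (d 2 5 (by decide))
      (d 3 4 (by decide)) (ee 0 1 2 3 4 5 6 7 (by decide) (by decide))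
      (ee 0 2 1 3 4 5 6 7 (by decide) (by decide)) (nn 0 3 1 (by decide) (by decide))
      (nn 0 3 2 (by decide) (by decide)) (nn 0 3 4 (by decide) (by decide))
      (nn 0 3 5 (by decide) (by decide)) (nn 0 3 6 (by decide) (by decide))
      (nn 0 3 7 (by decide) (by decide)) (ee 0 4 1 2 3 5 6 7 (by decide) (by decide))
      (ee 0 5 1 2 3 4 6 7 (by decide) (by decide)) (nn 0 6 1 (by decide) (by decide))
      (nn 0 6 2 (by decide) (by decide)) (nn 0 6 3 (by decide) (by decide))
      (nn 0 6 4 (by decide) (by decide)) (nn 0 6 5 (by decide) (by decide))
      (nn 0 6 7 (by decide) (by decide)) (nn 0 7 1 (by decide) (by decide))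
      (nn 0 7 2 (by decide) (by decide)) (nn 0 7 3 (by decide) (by decide))
      (nn 0 7 4 (by decide) (by decide)) (nn 0 7 5 (by decide) (by decide))
      (nn 0 7 6 (by decide) (by decide)) (nn 1 2 5 (by decide) (by decide))
      (ee 1 3 0 2 4 5 6 7 (by decide) (by decide)) (ee 1 4 0 2 3 5 6 7 (by decide) (by decide))
      (nn 1 5 3 (by decide) (by decide)) (nn 1 5 4 (by decide) (by decide))
      (nn 1 5 6 (by decide) (by decide)) (nn 1 5 7 (by decide) (by decide))
      (nn 1 6 0 (by decide) (by decide)) (nn 1 6 2 (by decide) (by decide))
      (nn 1 6 3 (by decide) (by decide)) (nn 1 6 4 (by decide) (by decide))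
      (nn 1 6 5 (by decide) (by decide)) (nn 1 6 7 (by decide) (by decide))
      (nn 1 7 0 (by decide) (by decide)) (nn 1 7 2 (by decide) (by decide))
      (nn 1 7 3 (by decide) (by decide)) (nn 1 7 4 (by decide) (by decide))
      (nn 1 7 5 (by decide) (by decide)) (nn 1 7 6 (by decide) (by decide))
      (ee 2 3 0 1 4 5 6 7 (by decide) (by decide)) (ee 2 4 0 1 3 5 6 7 (by decide) (by decide))
      (nn 2 5 6 (by decide) (by decide)) (nn 2 5 7 (by decide) (by decide))
      (nn 2 6 0 (by decide) (by decide)) (nn 2 6 3 (by decide) (by decide))
      (nn 2 6 4 (by decide) (by decide)) (nn 2 6 5 (by decide) (by decide))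
      (nn 2 6 7 (by decide) (by decide)) (nn 2 7 0 (by decide) (by decide))
      (nn 2 7 3 (by decide) (by decide)) (nn 2 7 4 (by decide) (by decide))
      (nn 2 7 5 (by decide) (by decide)) (nn 2 7 6 (by decide) (by decide))
      (nn 3 4 1 (by decide) (by decide)) (nn 3 4 2 (by decide) (by decide))
      (nn 3 6 1 (by decide) (by decide)) (nn 3 6 2 (by decide) (by decide))
      (nn 3 6 5 (by decide) (by decide)) (nn 3 6 7 (by decide) (by decide))
      (nn 3 7 1 (by decide) (by decide)) (nn 3 7 2 (by decide) (by decide))
      (nn 3 7 5 (by decide) (by decide)) (nn 3 7 6 (by decide) (by decide))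
      (nn 4 5 1 (by decide) (by decide)) (nn 4 5 2 (by decide) (by decide))
      (nn 4 6 0 (by decide) (by decide)) (nn 4 6 1 (by decide) (by decide))
      (nn 4 6 5 (by decide) (by decide)) (nn 4 6 7 (by decide) (by decide))
      (nn 4 7 0 (by decide) (by decide)) (nn 4 7 1 (by decide) (by decide))
      (nn 4 7 5 (by decide) (by decide)) (nn 4 7 6 (by decide) (by decide))
      (nn 5 6 7 (by decide) (by decide)) (nn 5 7 6 (by decide) (by decide))
  · exact c6 (x 0) (x 1) (x 2) (x 3) (x 4) (x 5) (x 6) (x 7) h1
      (p 0 (by decide)) (p 1 (by decide))
      (p 2 (by decide)) (p 3 (by decide))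
      (p 4 (by decide)) (p 5 (by decide))
      (p 7 (by decide)) (d 0 1 (by decide))
      (d 0 2 (by decide)) (d 0 3 (by decide))
      (d 0 4 (by decide)) (d 0 5 (by decide))
      (d 1 2 (by decide)) (d 1 4 (by decide))
      (d 1 5 (by decide)) (d 2 4 (by decide))
      (d 2 5 (by decide)) (d 3 4 (by decide))
      (ee 0 1 2 3 4 5 6 7 (by decide) (by decide)) (ee 0 2 1 3 4 5 6 7 (by decide) (by decide))
      (nn 0 3 1 (by decide) (by decide)) (nn 0 3 2 (by decide) (by decide))
      (nn 0 3 4 (by decide) (by decide)) (nn 0 3 5 (by decide) (by decide))
      (nn 0 3 6 (by decide) (by decide)) (nn 0 3 7 (by decide) (by decide))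
      (ee 0 4 1 2 3 5 6 7 (by decide) (by decide)) (ee 0 5 1 2 3 4 6 7 (by decide) (by decide))
      (nn 0 6 5 (by decide) (by decide)) (nn 0 7 1 (by decide) (by decide))
      (nn 0 7 2 (by decide) (by decide)) (nn 0 7 3 (by decide) (by decide))
      (nn 0 7 4 (by decide) (by decide)) (nn 0 7 5 (by decide) (by decide))
      (nn 0 7 6 (by decide) (by decide)) (nn 1 2 3 (by decide) (by decide))
      (nn 1 2 5 (by decide) (by decide)) (ee 1 3 0 2 4 5 6 7 (by decide) (by decide))
      (ee 1 4 0 2 3 5 6 7 (by decide) (by decide)) (nn 1 5 0 (by decide) (by decide))
      (nn 1 5 2 (by decide) (by decide)) (nn 1 5 3 (by decide) (by decide))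
      (nn 1 5 4 (by decide) (by decide)) (nn 1 5 6 (by decide) (by decide))
      (nn 1 5 7 (by decide) (by decide)) (nn 1 6 3 (by decide) (by decide))
      (nn 1 6 4 (by decide) (by decide)) (nn 1 6 5 (by decide) (by decide))
      (nn 1 6 7 (by decide) (by decide)) (nn 1 7 0 (by decide) (by decide))
      (nn 1 7 2 (by decide) (by decide)) (nn 1 7 3 (by decide) (by decide))
      (nn 1 7 4 (by decide) (by decide)) (nn 1 7 5 (by decide) (by decide))
      (nn 1 7 6 (by decide) (by decide)) (ee 2 3 0 1 4 5 6 7 (by decide) (by decide))
      (ee 2 4 0 1 3 5 6 7 (by decide) (by decide)) (nn 2 5 0 (by decide) (by decide))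
      (nn 2 5 3 (by decide) (by decide)) (nn 2 5 4 (by decide) (by decide))
      (nn 2 5 6 (by decide) (by decide)) (nn 2 5 7 (by decide) (by decide))
      (nn 2 6 3 (by decide) (by decide)) (nn 2 7 0 (by decide) (by decide))
      (nn 2 7 3 (by decide) (by decide)) (nn 2 7 4 (by decide) (by decide))
      (nn 2 7 5 (by decide) (by decide)) (nn 2 7 6 (by decide) (by decide))
      (nn 3 4 1 (by decide) (by decide)) (nn 3 4 2 (by decide) (by decide))
      (nn 3 4 6 (by decide) (by decide)) (nn 3 4 7 (by decide) (by decide))
      (nn 3 5 1 (by decide) (by decide)) (nn 3 5 2 (by decide) (by decide))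
      (nn 3 5 4 (by decide) (by decide)) (nn 3 5 6 (by decide) (by decide))
      (nn 3 5 7 (by decide) (by decide)) (nn 3 6 7 (by decide) (by decide))
      (nn 3 7 1 (by decide) (by decide)) (nn 3 7 2 (by decide) (by decide))
      (nn 3 7 4 (by decide) (by decide)) (nn 3 7 5 (by decide) (by decide))
      (nn 3 7 6 (by decide) (by decide)) (nn 4 5 0 (by decide) (by decide))
      (nn 4 5 1 (by decide) (by decide)) (nn 4 5 3 (by decide) (by decide))
      (nn 4 5 6 (by decide) (by decide)) (nn 4 5 7 (by decide) (by decide))
      (nn 4 7 0 (by decide) (by decide)) (nn 4 7 5 (by decide) (by decide))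
      (nn 4 7 6 (by decide) (by decide))
  · exact c7 (x 0) (x 1) (x 2) (x 3) (x 4) (x 5) (x 6) (x 7) h1
      (p 0 (by decide)) (p 1 (by decide))
      (p 2 (by decide)) (p 3 (by decide))
      (p 4 (by decide)) (p 5 (by decide))
      (p 6 (by decide)) (d 0 1 (by decide))
      (d 0 2 (by decide)) (d 0 3 (by decide))
      (d 0 4 (by decide)) (d 0 5 (by decide))
      (d 1 2 (by decide)) (d 1 4 (by decide))
      (d 1 5 (by decide)) (d 2 4 (by decide))
      (d 2 5 (by decide)) (d 3 4 (by decide))
      (ee 0 1 2 3 4 5 6 7 (by decide) (by decide)) (ee 0 2 1 3 4 5 6 7 (by decide) (by decide))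
      (nn 0 3 1 (by decide) (by decide)) (nn 0 3 2 (by decide) (by decide))
      (nn 0 3 4 (by decide) (by decide)) (nn 0 3 5 (by decide) (by decide))
      (nn 0 3 6 (by decide) (by decide)) (nn 0 3 7 (by decide) (by decide))
      (ee 0 4 1 2 3 5 6 7 (by decide) (by decide)) (ee 0 5 1 2 3 4 6 7 (by decide) (by decide))
      (nn 0 6 1 (by decide) (by decide)) (nn 0 6 2 (by decide) (by decide))
      (nn 0 6 3 (by decide) (by decide)) (nn 0 6 4 (by decide) (by decide))
      (nn 0 6 5 (by decide) (by decide)) (nn 0 6 7 (by decide) (by decide))
      (nn 0 7 5 (by decide) (by decide)) (nn 1 2 3 (by decide) (by decide))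
      (nn 1 2 5 (by decide) (by decide)) (ee 1 3 0 2 4 5 6 7 (by decide) (by decide))
      (ee 1 4 0 2 3 5 6 7 (by decide) (by decide)) (nn 1 5 0 (by decide) (by decide))
      (nn 1 5 2 (by decide) (by decide)) (nn 1 5 3 (by decide) (by decide))
      (nn 1 5 4 (by decide) (by decide)) (nn 1 5 6 (by decide) (by decide))
      (nn 1 5 7 (by decide) (by decide)) (nn 1 6 0 (by decide) (by decide))
      (nn 1 6 2 (by decide) (by decide)) (nn 1 6 3 (by decide) (by decide))
      (nn 1 6 4 (by decide) (by decide)) (nn 1 6 5 (by decide) (by decide))
      (nn 1 6 7 (by decide) (by decide)) (nn 1 7 3 (by decide) (by decide))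
      (nn 1 7 4 (by decide) (by decide)) (nn 1 7 5 (by decide) (by decide))
      (nn 1 7 6 (by decide) (by decide)) (ee 2 3 0 1 4 5 6 7 (by decide) (by decide))
      (ee 2 4 0 1 3 5 6 7 (by decide) (by decide)) (nn 2 5 0 (by decide) (by decide))
      (nn 2 5 3 (by decide) (by decide)) (nn 2 5 4 (by decide) (by decide))
      (nn 2 5 6 (by decide) (by decide)) (nn 2 5 7 (by decide) (by decide))
      (nn 2 6 0 (by decide) (by decide)) (nn 2 6 3 (by decide) (by decide))
      (nn 2 6 4 (by decide) (by decide)) (nn 2 6 5 (by decide) (by decide))
      (nn 2 6 7 (by decide) (by decide)) (nn 2 7 3 (by decide) (by decide))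
      (nn 3 4 1 (by decide) (by decide)) (nn 3 4 2 (by decide) (by decide))
      (nn 3 4 6 (by decide) (by decide)) (nn 3 4 7 (by decide) (by decide))
      (nn 3 5 1 (by decide) (by decide)) (nn 3 5 2 (by decide) (by decide))
      (nn 3 5 4 (by decide) (by decide)) (nn 3 5 6 (by decide) (by decide))
      (nn 3 5 7 (by decide) (by decide)) (nn 3 6 1 (by decide) (by decide))
      (nn 3 6 2 (by decide) (by decide)) (nn 3 6 4 (by decide) (by decide))
      (nn 3 6 5 (by decide) (by decide)) (nn 3 6 7 (by decide) (by decide))
      (nn 3 7 6 (by decide) (by decide)) (nn 4 5 0 (by decide) (by decide))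
      (nn 4 5 1 (by decide) (by decide)) (nn 4 5 3 (by decide) (by decide))
      (nn 4 5 6 (by decide) (by decide)) (nn 4 5 7 (by decide) (by decide))
      (nn 4 6 0 (by decide) (by decide)) (nn 4 6 5 (by decide) (by decide))
      (nn 4 6 7 (by decide) (by decide))

end Pool.Agent.H6.SumLab
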