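import Mathlib

set_option autoImplicit false

namespace Pool.Agent.H6.Thr

open Classical in
/-- `G` is `k`-threshold: thresholds `θ 0 < ... < θ (k-1)` and real ranks such that distinct
`v, w` are adjacent iff the number of `i` with `θ i ≤ r v + r w` is odd. -/
def KThr {V : Type} (G : SimpleGraph V) (k : ℕ) : Prop :=
  ∃ θ : Fin k → ℝ, StrictMono θ ∧ ∃ r : V → ℝ, ∀ v w, v ≠ w →
    (G.Adj v w ↔ Odd (Finset.univ.filter fun i => θ i ≤ r v + r w).card)

/-- The edge set of `G` is the union of the edge sets of `k` threshold (`1`-threshold) graphs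
on the same vertex set. -/
def Cover {V : Type} (G : SimpleGraph V) (k : ℕ) : Prop :=
  ∃ H : Fin k → SimpleGraph V, (∀ i, KThr (H i) 1) ∧ G.edgeSet = ⋃ i, (H i).edgeSet

open Classical in
lemma chain (k N : ℕ) (θ : Fin k → ℝ) (p : ℕ → ℝ) (s : ℕ → ℕ → ℝ) (P : ℝ → Prop)
    (hP : ∀ x y, x ≤ y → ¬(P x ↔ P y) → ∃ a, x < θ a ∧ θ a ≤ y)
    (H : ∀ l r i, l ≤ N → r ≤ N → i < N → (P (p i + s l r) ↔ l ≤ i ∧ i < r)) (d : ℕ) :
    ∀ l r, r ≤ N → l + 3 ^ d ≤ r → ∃ i j, l ≤ i ∧ i < r ∧ l ≤ j ∧ j < r ∧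
      d ≤ (Finset.univ.filter fun c : Fin k × Fin k => θ c.2 - θ c.1 < p j - p i).card := by
  induction d with
  | zero => intro l r _ h; exact ⟨l, l, le_rfl, by omega, le_rfl, by omega, Nat.zero_le _⟩
  | succ d ih =>
    intro l r hr h
    have hp : 1 ≤ 3 ^ d := Nat.one_le_pow _ _ (by omega)
    rw [pow_succ] at h
    obtain ⟨i0, hi0, hmin⟩ := Finset.exists_min_image (Finset.Ico l r) p ⟨l, by simp; omega⟩
    obtain ⟨j0, hj0, hmax⟩ := Finset.exists_max_image (Finset.Ico l r) p ⟨l, by simp; omega⟩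
    simp only [Finset.mem_Ico] at hi0 hj0 hmin hmax
    have : ∃ l', l ≤ l' ∧ l' + 3 ^ d ≤ r ∧ ¬(l' ≤ i0 ∧ i0 < l' + 3 ^ d) ∧
        ¬(l' ≤ j0 ∧ j0 < l' + 3 ^ d) := by
      by_contra hc
      have h1 := not_exists.1 hc l
      have h2 := not_exists.1 hc (l + 3 ^ d)
      have h3 := not_exists.1 hc (l + 2 * 3 ^ d)
      generalize 3 ^ d = e at *
      omega
    obtain ⟨l', h1, h2, h3, h4⟩ := this
    obtain ⟨i, j, a1, a2, a3, a4, hc⟩ := ih l' (l' + 3 ^ d) (by omega) le_rfl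
    have e := fun t (ht : t < N) => H l' (l' + 3 ^ d) t (by omega) (by omega) ht
    have m1 := hmin i (by omega)
    have m2 := hmax j (by omega)
    obtain ⟨a, b1, b2⟩ := hP (p i0 + s l' (l' + 3 ^ d)) (p i + s l' (l' + 3 ^ d)) (by linarith)
      (by rw [e i0 (by omega), e i (by omega)]; omega)
    obtain ⟨b, b3, b4⟩ := hP (p j + s l' (l' + 3 ^ d)) (p j0 + s l' (l' + 3 ^ d)) (by linarith)
      (by rw [e j0 (by omega), e j (by omega)]; omega)
    refine ⟨i0, j0, hi0.1, hi0.2, hj0.1, hj0.2, ?_⟩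
    refine lt_of_le_of_lt hc (Finset.card_lt_card ⟨fun c => ?_, fun h => ?_⟩)
    · simp only [Finset.mem_filter, Finset.mem_univ, true_and]
      intro h; linarith
    · have := @h (a, b) (by simp only [Finset.mem_filter, Finset.mem_univ, true_and]; linarith)
      simp only [Finset.mem_filter, Finset.mem_univ, true_and] at this
      linarith

/-- threshold graph of given ranks -/
def thr {V : Type} (r : V → ℝ) : SimpleGraph V where
  Adj v w := v ≠ w ∧ 0 ≤ r v + r w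
  symm := ⟨fun _ _ h => ⟨h.1.symm, by linarith [h.2]⟩⟩
  loopless := ⟨fun _ h => h.1 rfl⟩

lemma thr_kthr {V : Type} (r : V → ℝ) : KThr (thr r) 1 := by
  refine ⟨fun _ => 0, fun a b h => absurd h (by rw [Subsingleton.elim a b]; exact lt_irrefl _),
    r, fun v w h => ?_⟩
  by_cases c : 0 ≤ r v + r w <;> simp [thr, h, c]

abbrev W (N : ℕ) := Fin N ⊕ (Fin (N + 1) × Fin (N + 1))

def r1 (N : ℕ) : W N → ℝ := Sum.elim (fun i => -(i.1 : ℝ) - 1) fun c => (c.1.1 : ℝ)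
def r2 (N : ℕ) : W N → ℝ := Sum.elim (fun i => (i.1 : ℝ)) fun c => -(c.2.1 : ℝ)
def HH (N : ℕ) : SimpleGraph (W N) := thr (r1 N) ⊔ thr (r2 N)

lemma HH_adj (N : ℕ) (i : Fin N) (l r : Fin (N + 1)) :
    (HH N).Adj (.inl i) (.inr (l, r)) ↔ ¬(l.1 ≤ i.1 ∧ i.1 < r.1) := by
  have e1 : (0 : ℝ) ≤ -(i.1 : ℝ) - 1 + l.1 ↔ i.1 + 1 ≤ l.1 := by
    rw [← Nat.cast_le (α := ℝ)]; push_cast; constructor <;> intro h <;> linarith
  have e2 : (0 : ℝ) ≤ (i.1 : ℝ) + -(r.1 : ℝ) ↔ r.1 ≤ i.1 := by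
    rw [← Nat.cast_le (α := ℝ)]; constructor <;> intro h <;> linarith
  simp only [HH, thr, r1, r2, SimpleGraph.sup_adj, Sum.elim_inl, Sum.elim_inr, e1, e2, ne_eq,
    reduceCtorEq, not_false_eq_true, true_and]
  omega

open Classical in
lemma no_rep (C k : ℕ) (hk : k ≤ C) (G : SimpleGraph (W (3 ^ (C * C + 1)))) (c : Prop)
    (hG : ∀ i l r, G.Adj (.inl i) (.inr (l, r)) ↔ (c ↔ (l.1 ≤ i.1 ∧ i.1 < r.1))) : ¬ KThr G k := by
  rintro ⟨θ, -, ρ, h⟩
  obtain ⟨i, j, -, -, -, -, hc⟩ := chain k (3 ^ (C * C + 1)) θ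
    (fun i => if h : i < 3 ^ (C * C + 1) then ρ (.inl ⟨i, h⟩) else 0)
    (fun l r => if h : l < 3 ^ (C * C + 1) + 1 ∧ r < 3 ^ (C * C + 1) + 1 then
      ρ (.inr (⟨l, h.1⟩, ⟨r, h.2⟩)) else 0)
    (fun x => c ↔ Odd (Finset.univ.filter fun i => θ i ≤ x).card)
    (fun x y hxy hn => by
      by_contra hc
      apply hn
      have : (Finset.univ.filter fun i => θ i ≤ x) = Finset.univ.filter fun i => θ i ≤ y := by
        ext a
        simp only [Finset.mem_filter, Finset.mem_univ, true_and]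
        refine ⟨fun h => h.trans hxy, fun h => ?_⟩
        by_contra h'
        exact hc ⟨a, not_le.1 h', h⟩
      rw [this])
    (fun l r i hl hr hi => by
      have h1 : l < 3 ^ (C * C + 1) + 1 ∧ r < 3 ^ (C * C + 1) + 1 := by omega
      simp only [hi, h1, dite_true, and_self]
      rw [← h _ _ (by simp), hG]
      dsimp only
      tauto)
    (C * C + 1) 0 _ le_rfl (by omega)
  have h1 := Finset.card_le_univ (Finset.univ.filter fun c : Fin k × Fin k => θ c.2 - θ c.1 <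
    (if h : j < 3 ^ (C * C + 1) then ρ (.inl ⟨j, h⟩) else 0) -
    (if h : i < 3 ^ (C * C + 1) then ρ (.inl ⟨i, h⟩) else 0))
  have h2 : k * k ≤ C * C := Nat.mul_le_mul hk hk
  simp only [Fintype.card_prod, Fintype.card_fin] at h1
  omega

theorem main (C : ℕ) : ∃ (V : Type) (_ : Finite V) (H : SimpleGraph V),
    IsLeast {k | Cover H k} 2 ∧ (∀ k ≤ C, ¬ KThr H k) ∧ ∀ k ≤ C, ¬ KThr Hᶜ k := by
  have a : ∀ k ≤ C + 1, ¬ KThr (HH (3 ^ ((C + 1) * (C + 1) + 1))) k := fun k hk =>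
    no_rep (C + 1) k hk _ False fun i l r => by rw [HH_adj]; tauto
  refine ⟨W _, inferInstance, HH (3 ^ ((C + 1) * (C + 1) + 1)), ⟨⟨![thr (r1 _), thr (r2 _)], ?_, ?_⟩, ?_⟩,
    fun k hk => a k (by omega), fun k hk => no_rep (C + 1) k (by omega) _ True fun i l r => ?_⟩
  · intro i; fin_cases i <;> exact thr_kthr _
  · ext e; simp [HH, Fin.exists_fin_two]
  · rintro k ⟨H, h1, h2⟩
    by_contra hk
    have : k = 0 ∨ k = 1 := by omega
    rcases this with rfl | rfl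
    · refine a 0 (by omega) ⟨Fin.elim0, fun x => x.elim0, fun _ => 0, fun v w _ => ?_⟩
      rw [← SimpleGraph.mem_edgeSet, h2]
      simp
    · refine a 1 (by omega) ?_
      have : HH (3 ^ ((C + 1) * (C + 1) + 1)) = H 0 := by
        rw [← SimpleGraph.edgeSet_inj, h2]
        ext e; simp
      rw [this]; exact h1 0
  · rw [SimpleGraph.compl_adj, HH_adj]; simp

end Pool.Agent.H6.Thr
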