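import Mathlib

set_option autoImplicit false

namespace Pool.Agent.H6.Thr2

def E (θ1 θ2 θ3 s : ℝ) : Prop := (θ1 ≤ s ∧ s < θ2) ∨ θ3 ≤ s

def Rep {V : Type} (θ1 θ2 θ3 : ℝ) (G : SimpleGraph V) : Prop :=
  ∃ r : V → ℝ, ∀ v w, v ≠ w → (G.Adj v w ↔ E θ1 θ2 θ3 (r v + r w))

lemma claw (p0 p1 p2 p3 : ℝ)
    (h12 : (p1 < p0 ∧ p1 < p2) ∨ (p0 < p1 ∧ p2 < p1)) (h21 : (p2 < p0 ∧ p2 < p1) ∨ (p0 < p2 ∧ p1 < p2))
    (h13 : (p1 < p0 ∧ p1 < p3) ∨ (p0 < p1 ∧ p3 < p1)) (h31 : (p3 < p0 ∧ p3 < p1) ∨ (p0 < p3 ∧ p1 < p3))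
    (h23 : (p2 < p0 ∧ p2 < p3) ∨ (p0 < p2 ∧ p3 < p2)) (h32 : (p3 < p0 ∧ p3 < p2) ∨ (p0 < p3 ∧ p2 < p3)) :
    False := by
  rcases h12 with h12 | h12 <;> rcases h21 with h21 | h21 <;> rcases h13 with h13 | h13 <;>
  rcases h31 with h31 | h31 <;> rcases h23 with h23 | h23 <;> rcases h32 with h32 | h32 <;>
  linarith [h12.1, h12.2, h21.1, h21.2, h13.1, h13.2, h31.1, h31.2, h23.1, h23.2, h32.1, h32.2]

lemma nonE {θ1 θ2 θ3 s : ℝ} (h : ¬ E θ1 θ2 θ3 s) : (s < θ1 ∨ θ2 ≤ s) ∧ s < θ3 := by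
  simp only [E, not_or, not_and_or, not_le, not_lt] at h
  exact h

lemma outside {θ1 θ2 θ3 p q u z : ℝ} (h1 : θ1 ≤ p + z ∧ p + z < θ2) (h2 : θ1 ≤ q + z ∧ q + z < θ2)
    (h : ¬ E θ1 θ2 θ3 (u + z)) : (u < p ∧ u < q) ∨ (p < u ∧ q < u) := by
  rcases (nonE h).1 with h | h
  · left; constructor <;> linarith [h1.1, h2.1]
  · right; constructor <;> linarith [h1.2, h2.2]

lemma smono (h : ℤ → ℝ) (L : ℤ) (hb : ∀ c, -1 ≤ c → c ≤ L →
    (h c < h (c + 1) ∧ h (c + 1) < h (c + 2)) ∨ (h (c + 1) < h c ∧ h (c + 2) < h (c + 1)))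
    (h0 : h (-1) < h 0) : ∀ u v, -1 ≤ u → u < v → v ≤ L → h u < h v := by
  have s : ∀ c, -1 ≤ c → c ≤ L → h c < h (c + 1) := by
    intro c hc
    induction c, hc using Int.leInduction with
    | base => intro _; simpa using h0
    | succ c hc ih =>
      intro hL
      have := ih (by omega)
      rcases hb c hc (by omega) with e | e
      · rw [show c + 1 + 1 = c + 2 by ring]; exact e.2
      · linarith [e.1]
  intro u v hu huv
  have : u + 1 ≤ v := huv
  induction v, this using Int.leInduction with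
  | base => intro hL; exact s u hu (by omega)
  | succ v hv ih => intro hL; exact (ih (by omega) (by omega)).trans (s v (by omega) (by omega))

lemma core (a b M : ℤ) (ha : 3 ≤ a) (hb : a + 2 ≤ b) (hM : (a + 1) * (b - 1) + 6 * b ≤ M)
    (θ1 θ2 θ3 : ℝ) (f g : ℤ → ℝ)
    (H : ∀ x y, -M ≤ x → x ≤ M → -M ≤ y → y ≤ M →
      (((0 ≤ x + y ∧ x + y < a) ∨ a + b ≤ x + y) ↔ E θ1 θ2 θ3 (f x + g y))) :
    ((b : ℝ) - 1) * (θ2 - θ1) ≤ ((a : ℝ) + 1) * (θ3 - θ2) := by
  have hP : 0 ≤ (a + 1) * (b - 1) := mul_nonneg (by omega) (by omega)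
  obtain ⟨P, hPe⟩ : ∃ P, P = (a + 1) * (b - 1) := ⟨_, rfl⟩
  rw [← hPe] at hP hM
  have yes : ∀ x y, -M ≤ x → x ≤ M → -M ≤ y → y ≤ M → ((0 ≤ x + y ∧ x + y < a) ∨ a + b ≤ x + y) →
      E θ1 θ2 θ3 (f x + g y) := fun x y a1 a2 a3 a4 h => (H x y a1 a2 a3 a4).1 h
  have no : ∀ x y, -M ≤ x → x ≤ M → -M ≤ y → y ≤ M → ¬((0 ≤ x + y ∧ x + y < a) ∨ a + b ≤ x + y) →
      ¬ E θ1 θ2 θ3 (f x + g y) := fun x y a1 a2 a3 a4 h h' => h ((H x y a1 a2 a3 a4).2 h')
  have forceA : ∀ x y, -M ≤ x → x ≤ M → -M + b ≤ y → y + b ≤ M → 0 ≤ x + y → x + y < a →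
      θ1 ≤ f x + g y ∧ f x + g y < θ2 := by
    intro x y a1 a2 a3 a4 a5 a6
    rcases yes x y a1 a2 (by omega) (by omega) (.inl ⟨a5, a6⟩) with h | h
    · exact h
    exfalso
    have ed : ∀ u v, -M ≤ u → u ≤ M → -M ≤ v → v ≤ M →
        ¬((0 ≤ u + y ∧ u + y < a) ∨ a + b ≤ u + y) → ¬((0 ≤ x + v ∧ x + v < a) ∨ a + b ≤ x + v) →
        ((0 ≤ u + v ∧ u + v < a) ∨ a + b ≤ u + v) → θ1 ≤ f u + g v ∧ f u + g v < θ2 := by
      intro u v b1 b2 b3 b4 n1 n2 e
      have c1 := (nonE (no u y b1 b2 (by omega) (by omega) n1)).2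
      have c2 := (nonE (no x v a1 a2 b3 b4 n2)).2
      rcases yes u v b1 b2 b3 b4 e with h' | h'
      · exact h'
      · linarith
    have e01 := ed (b - y) (y - b + 2) (by omega) (by omega) (by omega) (by omega) (by omega) (by omega) (by omega)
    have e02 := ed (b - y) (y + a) (by omega) (by omega) (by omega) (by omega) (by omega) (by omega) (by omega)
    have e03 := ed (b - y) (y + a + 1) (by omega) (by omega) (by omega) (by omega) (by omega) (by omega) (by omega)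
    have e11 := ed (b - 2 - y) (y - b + 2) (by omega) (by omega) (by omega) (by omega) (by omega) (by omega) (by omega)
    have e22 := ed (-1 - y) (y + a) (by omega) (by omega) (by omega) (by omega) (by omega) (by omega) (by omega)
    have e33 := ed (-a - 1 - y) (y + a + 1) (by omega) (by omega) (by omega) (by omega) (by omega) (by omega) (by omega)
    refine claw (f (b - y)) (f (b - 2 - y)) (f (-1 - y)) (f (-a - 1 - y))
      (outside e02 e22 (no _ _ ?_ ?_ ?_ ?_ ?_)) (outside e01 e11 (no _ _ ?_ ?_ ?_ ?_ ?_))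
      (outside e03 e33 (no _ _ ?_ ?_ ?_ ?_ ?_)) (outside e01 e11 (no _ _ ?_ ?_ ?_ ?_ ?_))
      (outside e03 e33 (no _ _ ?_ ?_ ?_ ?_ ?_)) (outside e02 e22 (no _ _ ?_ ?_ ?_ ?_ ?_)) <;> omega
  have betw : ∀ c, -1 ≤ c → c ≤ P + 2 * b →
      (f c < f (c + 1) ∧ f (c + 1) < f (c + 2)) ∨ (f (c + 1) < f c ∧ f (c + 2) < f (c + 1)) := by
    intro c c1 c2
    have o1 := outside (forceA c (a - 2 - c) (by omega) (by omega) (by omega) (by omega) (by omega) (by omega))
      (forceA (c + 1) (a - 2 - c) (by omega) (by omega) (by omega) (by omega) (by omega) (by omega))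
      (no (c + 2) (a - 2 - c) (by omega) (by omega) (by omega) (by omega) (by omega))
    have o2 := outside (forceA (c + 1) (-c - 1) (by omega) (by omega) (by omega) (by omega) (by omega) (by omega))
      (forceA (c + 2) (-c - 1) (by omega) (by omega) (by omega) (by omega) (by omega) (by omega))
      (no c (-c - 1) (by omega) (by omega) (by omega) (by omega) (by omega))
    rcases o1 with o1 | o1 <;> rcases o2 with o2 | o2
    · linarith [o1.1, o2.2]
    · exact .inr ⟨o2.1, o1.2⟩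
    · exact .inl ⟨o2.1, o1.2⟩
    · linarith [o1.1, o2.2]
  have inc : f (-1) < f 0 := by
    rcases betw (-1) le_rfl (by omega) with e | e
    · simpa using e.1
    exfalso
    have dec := smono (fun c => -f c) (P + 2 * b) (fun c c1 c2 => by
      rcases betw c c1 c2 with e | e
      · right; constructor <;> linarith [e.1, e.2]
      · left; constructor <;> linarith [e.1, e.2]) (by simpa using e.1)
    have d1 := dec (-1) 0 (by omega) (by omega) (by omega)
    have d2 := dec 0 a (by omega) (by omega) (by omega)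
    have d3 := dec a (a + b) (by omega) (by omega) (by omega)
    have t2 := forceA 0 0 (by omega) (by omega) (by omega) (by omega) (by omega) (by omega)
    have t3 := nonE (no a 0 (by omega) (by omega) (by omega) (by omega) (by omega))
    have t4 := yes (a + b) 0 (by omega) (by omega) (by omega) (by omega) (by omega)
    rcases t3.1 with t | t
    · rcases t4 with t4 | t4
      · linarith [t4.1]
      · have t5 := nonE (no (-1) 0 (by omega) (by omega) (by omega) (by omega) (by omega))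
        linarith [t5.2]
    · linarith [t2.2]
  have mono := smono f (P + 2 * b) betw inc
  have up : ∀ x, 0 ≤ x → x + (a + 1) ≤ P → θ2 - θ1 ≤ f (x + (a + 1)) - f x := by
    intro x x1 x2
    have t1 := nonE (no x (-x - 1) (by omega) (by omega) (by omega) (by omega) (by omega))
    have t2 := forceA (x + 1) (-x - 1) (by omega) (by omega) (by omega) (by omega) (by omega) (by omega)
    have t3 := nonE (no (x + (a + 1)) (-x - 1) (by omega) (by omega) (by omega) (by omega) (by omega))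
    have m1 := mono x (x + 1) (by omega) (by omega) (by omega)
    have m2 := mono (x + 1) (x + (a + 1)) (by omega) (by omega) (by omega)
    rcases t1.1 with t1 | t1 <;> rcases t3.1 with t3 | t3 <;> linarith [t2.1, t2.2]
  have dn : ∀ x, 0 ≤ x → x + (b - 1) ≤ P → f (x + (b - 1)) - f x ≤ θ3 - θ2 := by
    intro x x1 x2
    have t1 := forceA (x - 1) (a - x) (by omega) (by omega) (by omega) (by omega) (by omega) (by omega)
    have t2 := nonE (no x (a - x) (by omega) (by omega) (by omega) (by omega) (by omega))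
    have t3 := nonE (no (x + (b - 1)) (a - x) (by omega) (by omega) (by omega) (by omega) (by omega))
    have m1 := mono (x - 1) x (by omega) (by omega) (by omega)
    rcases t2.1 with t2 | t2 <;> linarith [t1.1, t3.2]
  have c1 : ∀ j : ℕ, (j : ℤ) ≤ b - 1 → (j : ℝ) * (θ2 - θ1) ≤ f (j * (a + 1)) - f 0 := by
    intro j
    induction j with
    | zero => simp
    | succ j ih =>
      intro hj
      push_cast at hj ⊢
      have := ih (by omega)
      have u := up (j * (a + 1)) (by positivity) (by rw [hPe]; nlinarith)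
      rw [show ((j : ℤ) + 1) * (a + 1) = j * (a + 1) + (a + 1) by ring]
      linarith
  have c2 : ∀ j : ℕ, (j : ℤ) ≤ a + 1 → f (j * (b - 1)) - f 0 ≤ (j : ℝ) * (θ3 - θ2) := by
    intro j
    induction j with
    | zero => simp
    | succ j ih =>
      intro hj
      push_cast at hj ⊢
      have := ih (by omega)
      have u := dn (j * (b - 1)) (mul_nonneg (by omega) (by omega)) (by rw [hPe]; nlinarith)
      rw [show ((j : ℤ) + 1) * (b - 1) = j * (b - 1) + (b - 1) by ring]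
      linarith
  obtain ⟨j, hj⟩ := Int.eq_ofNat_of_zero_le (show 0 ≤ b - 1 by omega)
  obtain ⟨k, hk⟩ := Int.eq_ofNat_of_zero_le (show 0 ≤ a + 1 by omega)
  have e1 := c1 j hj.ge
  have e2 := c2 k hk.ge
  have hj' : (b : ℝ) - 1 = j := by exact_mod_cast hj
  have hk' : (a : ℝ) + 1 = k := by exact_mod_cast hk
  rw [← hk] at e2
  rw [← hj, mul_comm (b - 1)] at e1
  rw [hj', hk']
  linarith

lemma rep_comap {V W : Type} {θ1 θ2 θ3 : ℝ} {G : SimpleGraph V} (e : W ≃ V) (h : Rep θ1 θ2 θ3 G) :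
    Rep θ1 θ2 θ3 (G.comap e) := by
  obtain ⟨r, h⟩ := h
  exact ⟨r ∘ e, fun v w hvw => h _ _ (e.injective.ne hvw)⟩

lemma rep_compl {V : Type} [Finite V] {θ1 θ2 θ3 : ℝ} (h12 : θ1 ≤ θ2) (h23 : θ2 ≤ θ3)
    {G : SimpleGraph V} (h : Rep θ1 θ2 θ3 G) : Rep (-θ3) (-θ2) (-θ1) Gᶜ := by
  obtain ⟨r, h⟩ := h
  have ev : ∀ s θ : ℝ, ∀ᶠ ε in nhdsWithin (0 : ℝ) (Set.Ioi 0), (θ ≤ s ↔ θ < s + ε) := by
    intro s θ
    by_cases c : θ ≤ s
    · filter_upwards [self_mem_nhdsWithin] with ε hε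
      exact ⟨fun _ => by linarith [Set.mem_Ioi.1 hε], fun _ => c⟩
    · filter_upwards [Ioo_mem_nhdsGT (show (0 : ℝ) < θ - s by linarith)] with ε hε
      exact ⟨fun h => absurd h c, fun h => by linarith [hε.2]⟩
  obtain ⟨ε, hε⟩ := (Filter.eventually_all.2 fun p : V × V =>
    (ev (r p.1 + r p.2) θ1).and ((ev (r p.1 + r p.2) θ2).and (ev (r p.1 + r p.2) θ3))).exists
  refine ⟨fun v => -(r v + ε / 2), fun v w hvw => ?_⟩
  obtain ⟨e1, e2, e3⟩ := hε (v, w)
  dsimp only at e1 e2 e3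
  rw [SimpleGraph.compl_adj, h v w hvw, show -(r v + ε / 2) + -(r w + ε / 2) = -(r v + r w + ε) by ring]
  simp only [E, neg_le_neg_iff, neg_lt_neg_iff, ← e2, ← not_lt (a := θ3) (b := r v + r w + ε),
    ← not_lt (a := θ1) (b := r v + r w + ε), ← e1, ← e3, ← not_le (a := θ2) (b := r v + r w)]
  have i1 : θ2 ≤ r v + r w → θ1 ≤ r v + r w := h12.trans
  have i2 : θ3 ≤ r v + r w → θ2 ≤ r v + r w := h23.trans
  tauto

lemma sep (θ1 θ2 θ3 η1 η2 η3 : ℝ) (h1 : θ1 < θ2) (h2 : θ2 - θ1 < θ3 - θ2) (h3 : η1 < η2) (h4 : η2 < η3)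
    (h : (η3 - η2) * (θ2 - θ1) < (θ3 - θ2) * (η2 - η1)) :
    ∃ (n : ℕ) (G : SimpleGraph (Fin n)), Rep θ1 θ2 θ3 G ∧ ¬ Rep η1 η2 η3 G := by
  obtain ⟨α, hα⟩ : ∃ α, α = θ2 - θ1 := ⟨_, rfl⟩
  obtain ⟨β, hβ⟩ : ∃ β, β = θ3 - θ2 := ⟨_, rfl⟩
  obtain ⟨α', hα'⟩ : ∃ α, α = η2 - η1 := ⟨_, rfl⟩
  obtain ⟨β', hβ'⟩ : ∃ β, β = η3 - η2 := ⟨_, rfl⟩
  rw [← hα, ← hβ] at h2
  rw [← hα, ← hβ, ← hα', ← hβ'] at h
  have p1 : 0 < α := by linarith
  have p2 : 0 < α' := by linarith
  have p3 : 0 < β' := by linarith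
  obtain ⟨a, ha⟩ := exists_nat_gt (3 + 2 * α / (β - α) + α * (α' + β') / (β * α' - β' * α))
  have q1 : 0 < 2 * α / (β - α) := div_pos (by linarith) (by linarith)
  have q2 : 0 < α * (α' + β') / (β * α' - β' * α) := div_pos (by positivity) (by linarith)
  have q3 : 2 * α < a * (β - α) := by rw [← div_lt_iff₀ (by linarith)]; linarith
  have q4 : α * (α' + β') < a * (β * α' - β' * α) := by rw [← div_lt_iff₀ (by linarith)]; linarith
  have q5 : (3 : ℝ) ≤ a := by linarith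
  obtain ⟨b, hb⟩ : ∃ b : ℤ, b = ⌈a * β / α⌉ := ⟨_, rfl⟩
  have q6 : a * β ≤ b * α := by rw [← div_le_iff₀ p1, hb]; exact Int.le_ceil _
  have q7 : (a : ℤ) + 2 ≤ b := by
    have : ((a : ℝ) + 2) * α ≤ b * α := by nlinarith
    exact_mod_cast le_of_mul_le_mul_right this p1
  obtain ⟨M, hM⟩ : ∃ M : ℤ, M = ((a : ℤ) + 1) * (b - 1) + 6 * b := ⟨_, rfl⟩
  let V := Bool × Finset.Icc (-M) M
  let r : V → ℝ := fun v => α / a * (v.2.1 : ℝ) + θ1 / 2
  let G : SimpleGraph V := ⟨fun v w => v ≠ w ∧ E θ1 θ2 θ3 (r v + r w),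
    ⟨fun v w h => ⟨h.1.symm, by rw [add_comm]; exact h.2⟩⟩, ⟨fun v h => h.1 rfl⟩⟩
  have g1 : Rep θ1 θ2 θ3 G := ⟨r, fun v w hvw => ⟨fun h => h.2, fun h => ⟨hvw, h⟩⟩⟩
  refine ⟨_, G.comap (Fintype.equivFin V).symm, rep_comap _ g1, fun hr => ?_⟩
  obtain ⟨F, hF⟩ := rep_comap (Fintype.equivFin V) hr
  have := core a b M (by exact_mod_cast q5) q7 hM.ge η1 η2 η3
    (fun x => if h : x ∈ Finset.Icc (-M) M then F (true, ⟨x, h⟩) else 0)
    (fun x => if h : x ∈ Finset.Icc (-M) M then F (false, ⟨x, h⟩) else 0) (fun x y a1 a2 a3 a4 => by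
      have m1 : x ∈ Finset.Icc (-M) M := Finset.mem_Icc.2 ⟨a1, a2⟩
      have m2 : y ∈ Finset.Icc (-M) M := Finset.mem_Icc.2 ⟨a3, a4⟩
      simp only [m1, m2, dite_true]
      have hne : ((true, ⟨x, m1⟩) : V) ≠ (false, ⟨y, m2⟩) := fun e => by
        have := congrArg Prod.fst e
        simp at this
      rw [← hF _ _ hne]
      simp only [SimpleGraph.comap_adj, Equiv.symm_apply_apply, G, r, E, ne_eq, hne,
        not_false_eq_true, true_and]
      have pa : (0 : ℝ) < a := by linarith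
      have pl : 0 < α / a := div_pos p1 pa
      have e0 : α / a * (x : ℝ) + θ1 / 2 + (α / a * (y : ℝ) + θ1 / 2) = α / a * ((x + y : ℤ) : ℝ) + θ1 := by
        push_cast; ring
      rw [e0]
      generalize x + y = n
      have e1 : θ1 ≤ α / a * (n : ℝ) + θ1 ↔ 0 ≤ n := by
        rw [le_add_iff_nonneg_left, mul_nonneg_iff_of_pos_left pl]; exact Int.cast_nonneg_iff
      have e2 : α / a * (n : ℝ) + θ1 < θ2 ↔ n < a := by
        rw [← lt_sub_iff_add_lt, ← hα, div_mul_eq_mul_div, div_lt_iff₀ pa, mul_lt_mul_iff_right₀ p1]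
        exact_mod_cast Iff.rfl
      have e3 : θ3 ≤ α / a * (n : ℝ) + θ1 ↔ a + b ≤ n := by
        rw [← le_sub_iff_add_le', hb, Int.ceil_le, div_le_iff₀ p1, ← sub_le_iff_le_add,
          div_mul_eq_mul_div, le_div_iff₀ pa, show θ3 - θ1 = α + β by linarith]
        push_cast
        constructor <;> intro h <;> linarith
      rw [e1, e2, e3])
  rw [← hα', ← hβ'] at this
  push_cast at this
  nlinarith [mul_le_mul_of_nonneg_right this p1.le, mul_le_mul_of_nonneg_right q6 p2.le]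

theorem main (t t' : ℝ) (h : 1 < t) (h' : t < t') :
    ∃ (n : ℕ) (G : SimpleGraph (Fin n)), ¬ (Rep (-1) 1 t G ↔ Rep (-1) 1 t' G) := by
  by_cases c : 3 < t'
  · obtain ⟨n, G, g1, g2⟩ := sep (-1) 1 t' (-1) 1 t (by norm_num) (by linarith) (by norm_num) h
      (by linarith)
    exact ⟨n, G, fun e => g2 (e.2 g1)⟩
  · obtain ⟨n, G, g1, g2⟩ := sep (-t) (-1) 1 (-t') (-1) 1 (by linarith) (by linarith) (by linarith)
      (by norm_num) (by linarith)
    refine ⟨n, Gᶜ, fun e => g2 ?_⟩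
    have a := rep_compl (by linarith) (by norm_num) g1
    simp only [neg_neg] at a
    have b := rep_compl (by norm_num) (by linarith) (e.1 a)
    simpa using b

end Pool.Agent.H6.Thr2
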