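import Mathlib

namespace Pool.Agent.H6.Toep

def V (x : ℤ) (j : ℕ) : Prop := ∃ c : ℤ, Odd c ∧ x = 2 ^ j * c

lemma V_le {x : ℤ} {j k : ℕ} (h1 : V x j) (h2 : V x k) : j ≤ k := by
  by_contra hlt
  push Not at hlt
  obtain ⟨c, hc, rfl⟩ := h1
  obtain ⟨e, he, h⟩ := h2
  obtain ⟨t, rfl⟩ := Nat.exists_eq_add_of_lt hlt
  have h3 : (2 : ℤ) ^ k * (2 ^ (t + 1) * c) = 2 ^ k * e := by rw [← h]; ring
  have h4 := mul_left_cancel₀ (by positivity) h3
  have h5 : Even e := by
    rw [← h4, pow_succ]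
    exact ⟨2 ^ t * c, by ring⟩
  exact (Int.not_even_iff_odd.mpr he) h5

lemma V_unique {x : ℤ} {j k : ℕ} (h1 : V x j) (h2 : V x k) : j = k :=
  le_antisymm (V_le h1 h2) (V_le h2 h1)

lemma V_exists {x : ℤ} (hx : x ≠ 0) : ∃ j, V x j := by
  obtain ⟨k, m, hm, h⟩ := Nat.exists_eq_two_pow_mul_odd (Int.natAbs_ne_zero.mpr hx)
  have hm' : Odd (m : ℤ) := by exact_mod_cast hm
  rcases Int.natAbs_eq x with h1 | h1
  · exact ⟨k, m, hm', by rw [h1, h]; push_cast; ring⟩
  · exact ⟨k, -m, hm'.neg, by rw [h1, h]; push_cast; ring⟩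

/-- The vertices of the one-dimensional tiling. -/
def vert (n : ℤ) : Prop := ∃ j, Even j ∧ V (3 * n - 1) j

lemma vert_iff {n : ℤ} {j : ℕ} (h : V (3 * n - 1) j) : vert n ↔ Even j :=
  ⟨fun ⟨_, hk, h'⟩ => V_unique h' h ▸ hk, fun hj => ⟨j, hj, h⟩⟩

lemma V_ex (n : ℤ) : ∃ j, V (3 * n - 1) j := V_exists (by omega)

lemma vert_of_even {n : ℤ} (h : Even n) : vert n := by
  obtain ⟨m, rfl⟩ := h
  exact ⟨0, Even.zero, 3 * (m + m) - 1, ⟨3 * m - 1, by ring⟩, by ring⟩

lemma vert_even (n : ℤ) : vert (-2 * n) := vert_of_even ⟨-n, by ring⟩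

lemma vert_odd (n : ℤ) : vert (-2 * n - 1) ↔ ¬ vert (n + 1) := by
  obtain ⟨j, hj⟩ := V_ex (n + 1)
  have h2 : V (3 * (-2 * n - 1) - 1) (j + 1) := by
    obtain ⟨c, hc, h⟩ := hj
    refine ⟨-c, hc.neg, ?_⟩
    rw [pow_succ]
    linarith
  rw [vert_iff hj, vert_iff h2, Nat.even_add_one]

lemma toep (n : ℤ) : ∃ K : ℕ, ∀ L, K ≤ L → ∀ m : ℤ, vert (n + 2 ^ L * m) ↔ vert n := by
  obtain ⟨j, hj⟩ := V_ex n
  refine ⟨j + 1, fun L hL m => ?_⟩
  have h2 : V (3 * (n + 2 ^ L * m) - 1) j := by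
    obtain ⟨c, hc, h⟩ := hj
    obtain ⟨t, rfl⟩ := Nat.exists_eq_add_of_le hL
    refine ⟨c + 2 * (3 * 2 ^ t * m), hc.add_even (even_two_mul _), ?_⟩
    have : 3 * (n + 2 ^ (j + 1 + t) * m) - 1 = (3 * n - 1) + 3 * 2 ^ (j + 1 + t) * m := by ring
    rw [this, h]
    ring
  rw [vert_iff hj, vert_iff h2]

lemma four_pow (s : ℕ) : ∃ q : ℤ, (4 : ℤ) ^ s = 3 * q + 1 := by
  induction s with
  | zero => exact ⟨0, by norm_num⟩
  | succ s ih =>
    obtain ⟨q, hq⟩ := ih
    exact ⟨4 * q + 1, by rw [pow_succ, hq]; ring⟩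

lemma aper {m : ℤ} (hm : m ≠ 0) : ∃ n, vert n ∧ ¬ vert (n + m) := by
  obtain ⟨j, c, hc, rfl⟩ := V_exists hm
  rcases Nat.even_or_odd j with ⟨s, rfl⟩ | ⟨s, rfl⟩
  · obtain ⟨q, hq⟩ := four_pow s
    have h4 : (2 : ℤ) ^ (s + s) = 3 * q + 1 := by
      rw [← hq, ← two_mul, pow_mul]; norm_num
    refine ⟨2 * q + 1 - 2 ^ (s + s) * c, ?_, ?_⟩
    · refine ⟨s + s, ⟨s, rfl⟩, 2 - 3 * c, ?_, ?_⟩
      · obtain ⟨e, rfl⟩ := hc
        exact ⟨-3 * e - 1, by ring⟩
      · rw [h4]; ring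
    · have h2 : V (3 * (2 * q + 1 - 2 ^ (s + s) * c + 2 ^ (s + s) * c) - 1) (s + s + 1) :=
        ⟨1, odd_one, by rw [pow_succ, h4]; ring⟩
      rw [vert_iff h2, Nat.even_add_one, not_not]
      exact ⟨s, rfl⟩
  · obtain ⟨q, hq⟩ := four_pow (s + 1)
    have h4 : (2 : ℤ) ^ (2 * s + 1) * 2 = 3 * q + 1 := by
      rw [← hq, ← pow_succ, show 2 * s + 1 + 1 = 2 * (s + 1) by ring, pow_mul]; norm_num
    refine ⟨-q, ⟨2 * s + 1 + 1, ⟨s + 1, by ring⟩, -1, by decide, ?_⟩, ?_⟩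
    · rw [pow_succ, h4]; ring
    · have h2 : V (3 * (-q + 2 ^ (2 * s + 1) * c) - 1) (2 * s + 1) := by
        refine ⟨3 * c - 2, ?_, by linear_combination h4⟩
        obtain ⟨e, rfl⟩ := hc
        exact ⟨3 * e, by ring⟩
      rw [vert_iff h2, Nat.even_add_one, not_not]
      exact even_two_mul s

lemma vert_or (n : ℤ) : vert n ∨ vert (n + 1) := by
  rcases Int.even_or_odd n with h | h
  · exact Or.inl (vert_of_even h)
  · exact Or.inr (vert_of_even h.add_one)

open Classical in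
/-- The next vertex. -/
noncomputable def nxt (u : ℤ) : ℤ := if vert (u + 1) then u + 1 else u + 2

lemma nxt_cases (u : ℤ) :
    (vert (u + 1) ∧ nxt u = u + 1) ∨ (¬ vert (u + 1) ∧ nxt u = u + 2) := by
  unfold nxt
  by_cases h : vert (u + 1) <;> simp [h]

lemma vert_nxt (u : ℤ) : vert (nxt u) := by
  rcases nxt_cases u with ⟨h, e⟩ | ⟨h, e⟩
  · rwa [e]
  · rw [e, show u + 2 = u + 1 + 1 by ring]
    exact (vert_or (u + 1)).resolve_left h

lemma lt_nxt (u : ℤ) : u < nxt u := by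
  rcases nxt_cases u with ⟨-, e⟩ | ⟨-, e⟩ <;> omega

lemma nxt_le {u w : ℤ} (hw : vert w) (h : u < w) : nxt u ≤ w := by
  rcases nxt_cases u with ⟨-, e⟩ | ⟨h', e⟩
  · omega
  · have : w ≠ u + 1 := fun h => h' (h ▸ hw)
    omega

lemma exists_prev {w : ℤ} (hw : vert w) : ∃ u, vert u ∧ nxt u = w := by
  by_cases h : vert (w - 1)
  · refine ⟨w - 1, h, ?_⟩
    rcases nxt_cases (w - 1) with ⟨-, e⟩ | ⟨h', -⟩
    · omega
    · exact absurd (by simpa using hw) h'
  · refine ⟨w - 2, (vert_or (w - 2)).resolve_right (by rwa [show w - 2 + 1 = w - 1 by ring]), ?_⟩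
    rcases nxt_cases (w - 2) with ⟨h', -⟩ | ⟨-, e⟩
    · exact absurd (by rwa [show w - 2 + 1 = w - 1 by ring] at h') h
    · omega

lemma cover (t : ℝ) : ∃ u, vert u ∧ 2 * (u : ℝ) ≤ t ∧ t < 2 * (nxt u : ℝ) := by
  have h1 := Int.floor_le (t / 2)
  have h2 := Int.lt_floor_add_one (t / 2)
  by_cases h : vert ⌊t / 2⌋
  · refine ⟨_, h, by linarith, ?_⟩
    have : ((⌊t / 2⌋ + 1 : ℤ) : ℝ) ≤ nxt ⌊t / 2⌋ := by exact_mod_cast lt_nxt _
    push_cast at this
    linarith
  · have h' : ¬ vert (⌊t / 2⌋ - 1 + 1) := by simpa using h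
    refine ⟨⌊t / 2⌋ - 1, (vert_or _).resolve_right h', by push_cast; linarith, ?_⟩
    rcases nxt_cases (⌊t / 2⌋ - 1) with ⟨h'', -⟩ | ⟨-, e⟩
    · exact absurd h'' h'
    · rw [e]; push_cast; linarith

lemma cover_in {p q : ℤ} (hp : vert p) (hq : vert q) (hpq : p < q) {t : ℝ}
    (h1 : 2 * (p : ℝ) ≤ t) (h2 : t ≤ 2 * (q : ℝ)) :
    ∃ u, vert u ∧ p ≤ u ∧ nxt u ≤ q ∧ 2 * (u : ℝ) ≤ t ∧ t ≤ 2 * (nxt u : ℝ) := by
  rcases h2.eq_or_lt with h | h
  · obtain ⟨u, hu, e⟩ := exists_prev hq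
    have hl : (u : ℝ) < q := by rw [← e]; exact_mod_cast lt_nxt u
    refine ⟨u, hu, ?_, e.le, by linarith, by rw [e, h]⟩
    by_contra hc
    have := nxt_le hp (not_le.mp hc)
    omega
  · obtain ⟨u, hu, h3, h4⟩ := cover t
    have h5 : u < q := by
      have : (u : ℝ) < q := by linarith
      exact_mod_cast this
    have h6 : p < nxt u := by
      have : (p : ℝ) < nxt u := by linarith
      exact_mod_cast this
    refine ⟨u, hu, ?_, nxt_le hq h5, h3, h4.le⟩
    by_contra hc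
    have := nxt_le hp (not_le.mp hc)
    omega

/-- Two different tiles of the line do not overlap. -/
lemma tri {u w : ℤ} (hu : vert u) (hw : vert w) : u = w ∨ nxt u ≤ w ∨ nxt w ≤ u := by
  rcases lt_trichotomy u w with h | h | h
  · exact Or.inr (Or.inl (nxt_le hw h))
  · exact Or.inl h
  · exact Or.inr (Or.inr (nxt_le hu h))

/-- Deflation on the line. -/
lemma defl {u m : ℤ} (h : nxt (u + m) = nxt u + m) {n : ℤ} (h1 : -2 * nxt u ≤ n)
    (h2 : n ≤ -2 * u) : vert (n - 2 * m) ↔ vert n := by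
  rcases Int.even_or_odd n with he | ⟨k, rfl⟩
  · exact iff_of_true (vert_of_even (he.sub (even_two_mul m))) (vert_of_even he)
  · have e1 : 2 * k + 1 = -2 * (-k - 1) - 1 := by ring
    have e2 : 2 * k + 1 - 2 * m = -2 * (-k - 1 + m) - 1 := by ring
    rw [e2, e1, vert_odd, vert_odd, not_iff_not]
    have a1 := vert_nxt u
    have a2 := vert_nxt (u + m)
    rcases nxt_cases u with ⟨b1, c1⟩ | ⟨b1, c1⟩ <;>
      rcases nxt_cases (u + m) with ⟨b2, c2⟩ | ⟨b2, c2⟩
    · have : k = -u - 1 := by omega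
      subst this
      refine iff_of_true ?_ ?_
      · convert b2 using 1; ring
      · convert b1 using 1; ring
    · omega
    · omega
    · have : k = -u - 1 ∨ k = -u - 2 := by omega
      rcases this with rfl | rfl
      · refine iff_of_false (fun h' => b2 ?_) (fun h' => b1 ?_)
        · convert h' using 1; ring
        · convert h' using 1; ring
      · refine iff_of_true ?_ ?_
        · convert a2 using 1; rw [c2]; ring
        · convert a1 using 1; rw [c1]; ring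

open Classical in
/-- The vertices in a closed interval. -/
noncomputable def cl (p q : ℤ) : Finset ℤ := (Finset.Icc p q).filter vert

open Classical in
/-- The vertices in an open interval. -/
noncomputable def op (p q : ℤ) : Finset ℤ := (Finset.Ioo p q).filter vert

lemma card_op {p q : ℤ} (hp : vert p) (hq : vert q) (h : p < q) :
    (cl p q).card = (op p q).card + 2 := by
  classical
  have : cl p q = insert p (insert q (op p q)) := by
    ext n
    simp only [cl, op, Finset.mem_filter, Finset.mem_Icc, Finset.mem_insert, Finset.mem_Ioo]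
    constructor
    · rintro ⟨⟨h1, h2⟩, h3⟩
      by_cases a : n = p
      · exact Or.inl a
      by_cases b : n = q
      · exact Or.inr (Or.inl b)
      exact Or.inr (Or.inr ⟨⟨by omega, by omega⟩, h3⟩)
    · rintro (rfl | rfl | ⟨⟨h1, h2⟩, h3⟩)
      · exact ⟨⟨le_rfl, h.le⟩, hp⟩
      · exact ⟨⟨h.le, le_rfl⟩, hq⟩
      · exact ⟨⟨h1.le, h2.le⟩, h3⟩
  rw [this, Finset.card_insert_of_notMem, Finset.card_insert_of_notMem]
  · simp [op]
  · simp [op, h.ne]

lemma cl_succ (p q : ℤ) (h : p ≤ q + 1) :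
    (vert (q + 1) ∧ (cl p (q + 1)).card = (cl p q).card + 1) ∨
    (¬ vert (q + 1) ∧ (cl p (q + 1)).card = (cl p q).card) := by
  classical
  by_cases hv : vert (q + 1)
  · refine Or.inl ⟨hv, ?_⟩
    have : cl p (q + 1) = insert (q + 1) (cl p q) := by
      ext n
      simp only [cl, Finset.mem_filter, Finset.mem_Icc, Finset.mem_insert]
      constructor
      · rintro ⟨⟨h1, h2⟩, h3⟩
        by_cases a : n = q + 1
        · exact Or.inl a
        exact Or.inr ⟨⟨h1, by omega⟩, h3⟩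
      · rintro (rfl | ⟨⟨h1, h2⟩, h3⟩)
        · exact ⟨⟨h, le_rfl⟩, hv⟩
        · exact ⟨⟨h1, by omega⟩, h3⟩
    rw [this, Finset.card_insert_of_notMem]
    simp [cl]
  · refine Or.inr ⟨hv, ?_⟩
    congr 1
    ext n
    simp only [cl, Finset.mem_filter, Finset.mem_Icc]
    constructor
    · rintro ⟨⟨h1, h2⟩, h3⟩
      have : n ≠ q + 1 := fun a => hv (a ▸ h3)
      exact ⟨⟨h1, by omega⟩, h3⟩
    · rintro ⟨⟨h1, h2⟩, h3⟩
      exact ⟨⟨h1, by omega⟩, h3⟩

lemma cl_pred (p q : ℤ) (h : p - 1 ≤ q) :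
    (vert (p - 1) ∧ (cl (p - 1) q).card = (cl p q).card + 1) ∨
    (¬ vert (p - 1) ∧ (cl (p - 1) q).card = (cl p q).card) := by
  classical
  by_cases hv : vert (p - 1)
  · refine Or.inl ⟨hv, ?_⟩
    have : cl (p - 1) q = insert (p - 1) (cl p q) := by
      ext n
      simp only [cl, Finset.mem_filter, Finset.mem_Icc, Finset.mem_insert]
      constructor
      · rintro ⟨⟨h1, h2⟩, h3⟩
        by_cases a : n = p - 1
        · exact Or.inl a
        exact Or.inr ⟨⟨by omega, h2⟩, h3⟩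
      · rintro (rfl | ⟨⟨h1, h2⟩, h3⟩)
        · exact ⟨⟨le_rfl, h⟩, hv⟩
        · exact ⟨⟨by omega, h2⟩, h3⟩
    rw [this, Finset.card_insert_of_notMem]
    simp [cl]
  · refine Or.inr ⟨hv, ?_⟩
    congr 1
    ext n
    simp only [cl, Finset.mem_filter, Finset.mem_Icc]
    constructor
    · rintro ⟨⟨h1, h2⟩, h3⟩
      have : n ≠ p - 1 := fun a => hv (a ▸ h3)
      exact ⟨⟨by omega, h2⟩, h3⟩
    · rintro ⟨⟨h1, h2⟩, h3⟩
      exact ⟨⟨by omega, h2⟩, h3⟩

lemma card_infl {p : ℤ} (hp : vert p) (t : ℕ) :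
    ((cl (-2 * (p + t)) (-2 * p)).card : ℤ) + (cl p (p + t)).card = 2 * t + 2 := by
  classical
  induction t with
  | zero =>
    have h1 : cl p p = {p} := by
      ext n
      simp only [cl, Finset.Icc_self, Finset.mem_filter, Finset.mem_singleton]
      exact ⟨fun h => h.1, fun h => ⟨h, h ▸ hp⟩⟩
    have h2 : cl (-2 * p) (-2 * p) = {-2 * p} := by
      ext n
      simp only [cl, Finset.Icc_self, Finset.mem_filter, Finset.mem_singleton]
      exact ⟨fun h => h.1, fun h => ⟨h, h ▸ vert_even p⟩⟩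
    simp only [Nat.cast_zero, add_zero, h1, h2, Finset.card_singleton]
    norm_num
  | succ t ih =>
    have e1 : p + ((t + 1 : ℕ) : ℤ) = p + t + 1 := by push_cast; ring
    have e2 : -2 * (p + t + 1) = -2 * (p + t) - 1 - 1 := by ring
    rw [e1, e2]
    have a1 := cl_succ p (p + t) (by omega)
    have a2 := cl_pred (-2 * (p + t)) (-2 * p) (by omega)
    have a3 := cl_pred (-2 * (p + t) - 1) (-2 * p) (by omega)
    have a4 := vert_odd (p + t)
    have a5 : vert (-2 * (p + t) - 1 - 1) := e2 ▸ vert_even (p + t + 1)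
    rcases a3 with ⟨-, a3⟩ | ⟨a3, -⟩
    · rcases a1 with ⟨b1, a1⟩ | ⟨b1, a1⟩ <;> rcases a2 with ⟨b2, a2⟩ | ⟨b2, a2⟩
      · exact absurd b1 (a4.mp b2)
      · rw [a3, a2, a1]; push_cast; omega
      · rw [a3, a2, a1]; push_cast; omega
      · exact absurd (a4.mpr b1) b2
    · exact absurd a5 a3

/-- The endpoints of the `k`-th inflation of the tile `[0, 2]`. -/
def pq : ℕ → ℤ × ℤ
  | 0 => (0, 2)
  | k + 1 => (-2 * (pq k).2, -2 * (pq k).1)

lemma pq_len (k : ℕ) : (pq k).2 = (pq k).1 + 2 ^ (k + 1) := by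
  induction k with
  | zero => simp [pq]
  | succ k ih => simp only [pq, ih]; ring

lemma pq_vert (k : ℕ) : vert (pq k).1 ∧ vert (pq k).2 := by
  cases k with
  | zero => exact ⟨vert_of_even (by decide), vert_of_even (by decide)⟩
  | succ k => exact ⟨vert_even _, vert_even _⟩

lemma not_vert_one : ¬ vert 1 := by
  have : V (3 * 1 - 1) 1 := ⟨1, odd_one, by norm_num⟩
  rw [vert_iff this]
  decide

lemma nxt_zero : nxt 0 = 2 := by
  rcases nxt_cases 0 with ⟨h, -⟩ | ⟨-, h⟩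
  · exact absurd (by simpa using h) not_vert_one
  · simpa using h

lemma pq_card (k : ℕ) :
    3 * ((cl (pq k).1 (pq k).2).card : ℤ) = 2 ^ (k + 2) + 3 - (-1) ^ k := by
  classical
  induction k with
  | zero =>
    have : cl 0 2 = {0, 2} := by
      ext n
      simp only [cl, Finset.mem_filter, Finset.mem_Icc, Finset.mem_insert, Finset.mem_singleton]
      constructor
      · rintro ⟨⟨h1, h2⟩, h3⟩
        have : n ≠ 1 := fun a => not_vert_one (a ▸ h3)
        omega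
      · rintro (rfl | rfl)
        · exact ⟨⟨by norm_num, by norm_num⟩, vert_of_even (by decide)⟩
        · exact ⟨⟨by norm_num, by norm_num⟩, vert_of_even (by decide)⟩
    simp only [pq, this]
    norm_num
  | succ k ih =>
    have h := card_infl (pq_vert k).1 (2 ^ (k + 1))
    push_cast at h
    rw [← pq_len k] at h
    simp only [pq]
    linear_combination 3 * h - ih

end Pool.Agent.H6.Toep
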