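import Mathlib

namespace Pool.Agent.H6.TreeLike

open SimpleGraph Cardinal

variable {V : Type} (G : SimpleGraph V)

/-- Any two vertices of `S` are joined by a walk inside `S`. -/
def Conn (S : Set V) : Prop := ∀ a ∈ S, ∀ b ∈ S, ∃ w : G.Walk a b, ∀ c ∈ w.support, c ∈ S

/-- `S` induces a connected subgraph without a cut vertex. -/
def NoCut (S : Set V) : Prop := S.Nonempty ∧ Conn G S ∧ ∀ v ∈ S, Conn G (S \ {v})

def IsBlock (B : Set V) : Prop := Maximal (NoCut G) B

def TL (m n : Cardinal) : Prop :=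
  G.Connected ∧ (∀ B, IsBlock G B → G.IsClique B ∧ #B = n) ∧
    ∀ v, #{B : Set V | IsBlock G B ∧ v ∈ B} = m

/-- Equal or adjacent. -/
def Same (y z : V) : Prop := y = z ∨ G.Adj y z

variable {G}

lemma Same.symm {y z : V} (h : Same G y z) : Same G z y := h.imp Eq.symm Adj.symm

lemma exists_block {S : Set V} (h : NoCut G S) : ∃ B, IsBlock G B ∧ S ⊆ B := by
  obtain ⟨B, h1, h2⟩ := zorn_subset_nonempty {S | NoCut G S} (fun c hc ch ⟨T, hT⟩ => by
    have k : ∀ a ∈ ⋃₀ c, ∀ b ∈ ⋃₀ c, ∃ U ∈ c, a ∈ U ∧ b ∈ U := by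
      rintro a ⟨U, hU, ha⟩ b ⟨W, hW, hb⟩
      rcases ch.total hU hW with e | e
      · exact ⟨W, hW, e ha, hb⟩
      · exact ⟨U, hU, ha, e hb⟩
    refine ⟨⋃₀ c, ⟨(hc hT).1.mono (Set.subset_sUnion_of_mem hT), fun a ha b hb => ?_,
      fun v _ a ha b hb => ?_⟩, fun s hs => Set.subset_sUnion_of_mem hs⟩
    · obtain ⟨U, hU, h1, h2⟩ := k a ha b hb
      obtain ⟨w, hw⟩ := (hc hU).2.1 a h1 b h2
      exact ⟨w, fun x hx => ⟨U, hU, hw x hx⟩⟩
    · obtain ⟨U, hU, h1, h2⟩ := k a ha.1 b hb.1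
      by_cases hv : v ∈ U
      · obtain ⟨w, hw⟩ := (hc hU).2.2 v hv a ⟨h1, ha.2⟩ b ⟨h2, hb.2⟩
        exact ⟨w, fun x hx => ⟨⟨U, hU, (hw x hx).1⟩, (hw x hx).2⟩⟩
      · obtain ⟨w, hw⟩ := (hc hU).2.1 a h1 b h2
        exact ⟨w, fun x hx => ⟨⟨U, hU, hw x hx⟩, fun e => hv (e ▸ hw x hx)⟩⟩) S h
  exact ⟨B, h2, h1⟩

lemma conn_of {S : Set V} {x : V} (h : ∀ a ∈ S, ∃ w : G.Walk a x, ∀ c ∈ w.support, c ∈ S) :
    Conn G S := by
  intro a ha b hb
  obtain ⟨w, hw⟩ := h a ha
  obtain ⟨w', hw'⟩ := h b hb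
  refine ⟨w.append w'.reverse, fun c hc => ?_⟩
  rw [Walk.mem_support_append_iff, Walk.support_reverse, List.mem_reverse] at hc
  exact hc.elim (hw c) (hw' c)

lemma conn_star {S : Set V} {x : V} (hx : x ∈ S) (h : ∀ a ∈ S, Same G a x) : Conn G S := by
  refine conn_of (x := x) fun a ha => ?_
  rcases h a ha with rfl | e
  · exact ⟨.nil, by simpa⟩
  · exact ⟨e.toWalk, by simp [ha, hx]⟩

lemma noCut_two {S : Set V} {x y : V} (hx : x ∈ S) (hy : y ∈ S) (hxy : x ≠ y)
    (h : ∀ a ∈ S, Same G a x ∧ Same G a y) : NoCut G S := by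
  refine ⟨⟨x, hx⟩, conn_star hx fun a ha => (h a ha).1, fun v _ => ?_⟩
  by_cases e : x = v
  · exact conn_star (x := y) ⟨hy, fun g => hxy (e.trans g.symm)⟩ fun a ha => (h a ha.1).2
  · exact conn_star (x := x) ⟨hx, e⟩ fun a ha => (h a ha.1).1

lemma noCut_cycle {x y z : V} (hy : G.Adj x y) (hz : G.Adj x z) (p : G.Walk y z) (hp : p.IsPath)
    (hx : x ∉ p.support) : NoCut G (insert x {c | c ∈ p.support}) := by
  classical
  have k : ∀ v, v ≠ x → ∀ a ∈ insert x {c | c ∈ p.support}, a ≠ v → ∃ w : G.Walk a x,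
      ∀ c ∈ w.support, c ∈ insert x {c | c ∈ p.support} \ {v} := by
    rintro v hv a (rfl | ha) hav
    · exact ⟨.nil, by simpa using hav⟩
    by_cases h1 : v ∈ (p.takeUntil a ha).support
    · refine ⟨(p.dropUntil a ha).concat hz.symm, fun c hc => ?_⟩
      rw [Walk.support_concat, List.mem_append, List.mem_singleton] at hc
      rcases hc with hc | rfl
      · refine ⟨Or.inr (p.support_dropUntil_subset_support ha hc), ?_⟩
        rintro rfl
        have n := hp.support_nodup
        rw [← p.take_spec ha, Walk.support_append, List.nodup_append] at n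
        rw [Walk.mem_support_iff] at hc
        exact n.2.2 c h1 c (hc.resolve_left hav.symm) rfl
      · exact ⟨Or.inl rfl, hv.symm⟩
    · refine ⟨(p.takeUntil a ha).reverse.concat hy.symm, fun c hc => ?_⟩
      rw [Walk.support_concat, List.mem_append, List.mem_singleton, Walk.support_reverse,
        List.mem_reverse] at hc
      rcases hc with hc | rfl
      · exact ⟨Or.inr (p.support_takeUntil_subset_support ha hc), fun e => h1 (e ▸ hc)⟩
      · exact ⟨Or.inl rfl, hv.symm⟩
  have k2 : ∀ a ∈ p.support, ∃ w : G.Walk a z, ∀ c ∈ w.support, c ∈ p.support :=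
    fun a ha => ⟨p.dropUntil a ha, fun c hc => p.support_dropUntil_subset_support ha hc⟩
  refine ⟨⟨x, Or.inl rfl⟩, conn_of (x := z) ?_, fun v _ => ?_⟩
  · rintro a (rfl | ha)
    · exact ⟨hz.toWalk, by simp⟩
    · obtain ⟨w, hw⟩ := k2 a ha
      exact ⟨w, fun c hc => Or.inr (hw c hc)⟩
  · by_cases e : v = x
    · subst e
      refine conn_of (x := z) fun a ha => ?_
      obtain ⟨w, hw⟩ := k2 a (ha.1.resolve_left ha.2)
      exact ⟨w, fun c hc => ⟨Or.inr (hw c hc), fun e => hx (e ▸ hw c hc)⟩⟩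
    · exact conn_of (x := x) fun a ha => k v e a ha.1 ha.2

section
variable (hB : ∀ B, IsBlock G B → G.IsClique B)
include hB

lemma same_mem {B : Set V} (h : IsBlock G B) {y z : V} (hy : y ∈ B) (hz : z ∈ B) : Same G y z :=
  (eq_or_ne y z).imp_right fun e => hB B h hy hz e

lemma same_of_walk {x y z : V} (hy : G.Adj x y) (hz : G.Adj x z) (p : G.Walk y z)
    (hx : x ∉ p.support) : Same G y z := by
  classical
  obtain ⟨B, h1, h2⟩ := exists_block (noCut_cycle hy hz p.bypass p.bypass_isPath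
    fun h => hx (p.support_bypass_subset_support h))
  exact same_mem hB h1 (h2 (Or.inr (Walk.start_mem_support _)))
    (h2 (Or.inr (Walk.end_mem_support _)))

lemma same_trans {x y z w : V} (hy : G.Adj x y) (hz : G.Adj x z) (hw : G.Adj x w)
    (h1 : Same G y z) (h2 : Same G z w) : Same G y w := by
  rcases h1 with rfl | h1
  · exact h2
  rcases h2 with rfl | h2
  · exact Or.inr h1
  exact same_of_walk hB hy hw (.cons h1 h2.toWalk) (by simp [hy.ne, hz.ne, hw.ne])

lemma mem_block {B : Set V} (h : IsBlock G B) {x y z : V} (hx : x ∈ B) (hy : y ∈ B) (hxy : x ≠ y)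
    (h1 : Same G z x) (h2 : Same G z y) : z ∈ B := by
  refine h.2 (noCut_two (Or.inr hx) (Or.inr hy) hxy ?_) (Set.subset_insert z B) (Or.inl rfl)
  rintro a (rfl | ha)
  · exact ⟨h1, h2⟩
  · exact ⟨same_mem hB h ha hx, same_mem hB h ha hy⟩

lemma block_eq {B C : Set V} (h : IsBlock G B) (h' : IsBlock G C) {x y : V} (hxy : x ≠ y)
    (hx : x ∈ B) (hy : y ∈ B) (hx' : x ∈ C) (hy' : y ∈ C) : B = C :=
  Set.Subset.antisymm
    (fun _ hz => mem_block hB h' hx' hy' hxy (same_mem hB h hz hx) (same_mem hB h hz hy))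
    fun _ hz => mem_block hB h hx hy hxy (same_mem hB h' hz hx') (same_mem hB h' hz hy')

omit hB in
lemma edge_block {x y : V} (h : G.Adj x y) : ∃ B, IsBlock G B ∧ x ∈ B ∧ y ∈ B := by
  obtain ⟨B, h1, h2⟩ := exists_block (noCut_two (G := G) (S := {x, y}) (by simp) (by simp) h.ne (by
    rintro a (rfl | rfl)
    · exact ⟨Or.inl rfl, Or.inr h⟩
    · exact ⟨Or.inr h.symm, Or.inl rfl⟩))
  exact ⟨B, h1, h2 (by simp), h2 (by simp)⟩

/-- The neighbours of `a` are the disjoint union of the punctured blocks at `a`. -/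
lemma nb_equiv (a : V) : ∃ σ : (Σ B : {B : Set V | IsBlock G B ∧ a ∈ B}, ↥(B.1 \ {a})) ≃
    G.neighborSet a, ∀ s t, Same G (σ s) (σ t) ↔ s.1 = t.1 := by
  let f : (Σ B : {B : Set V | IsBlock G B ∧ a ∈ B}, ↥(B.1 \ {a})) → G.neighborSet a :=
    fun s => ⟨s.2, hB _ s.1.2.1 s.1.2.2 s.2.2.1 (Ne.symm s.2.2.2)⟩
  have k : ∀ s t, Same G (f s) (f t) ↔ s.1 = t.1 := by
    rintro ⟨B, u⟩ ⟨C, w⟩
    constructor
    · intro h
      exact Subtype.ext (block_eq hB B.2.1 C.2.1 (Ne.symm u.2.2) B.2.2 u.2.1 C.2.2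
        (mem_block hB C.2.1 C.2.2 w.2.1 (Ne.symm w.2.2) (same_mem hB B.2.1 u.2.1 B.2.2) h))
    · rintro rfl
      exact same_mem hB B.2.1 u.2.1 w.2.1
  refine ⟨Equiv.ofBijective f ⟨fun s t e => ?_, fun u => ?_⟩, k⟩
  · have := (k s t).mp (Or.inl (congrArg Subtype.val e))
    obtain ⟨B, u⟩ := s
    obtain ⟨C, w⟩ := t
    cases this
    have e' : u.1 = w.1 := congrArg (fun z : G.neighborSet a => z.1) e
    rw [Subtype.ext e']
  · obtain ⟨B, h1, h2, h3⟩ := edge_block (show G.Adj a u from u.2)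
    exact ⟨⟨⟨B, h1, h2⟩, u, h3, (show G.Adj a u from u.2).ne'⟩, rfl⟩

end

/-- A local isomorphism between two neighbourhoods. -/
def Loc (G : SimpleGraph V) (a a' b b' : V) (g h : V → V) : Prop :=
  (∀ u, G.Adj a u → G.Adj a' (g u) ∧ h (g u) = u) ∧
    (∀ u, G.Adj a' u → G.Adj a (h u) ∧ g (h u) = u) ∧
    (∀ u w, G.Adj a u → G.Adj a w → (Same G u w ↔ Same G (g u) (g w))) ∧
    (G.Adj a b → G.Adj a' b' → Same G (g b) b')

lemma Loc.symm {a a' b b' : V} {g h : V → V} (l : Loc G a a' b b' g h) : Loc G a' a b' b h g := by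
  obtain ⟨h1, h2, h3, h4⟩ := l
  refine ⟨h2, h1, fun u w hu hw => ?_, fun e e' => ?_⟩
  · rw [h3 _ _ (h2 u hu).1 (h2 w hw).1, (h2 u hu).2, (h2 w hw).2]
  · rw [h3 _ _ (h2 _ e).1 e', (h2 _ e).2]
    exact (h4 e' e).symm

lemma exists_loc {m n : Cardinal} (hG : TL G m n) (a a' b b' : V) :
    ∃ g h : V → V, Loc G a a' b b' g h := by
  classical
  have hB : ∀ B, IsBlock G B → G.IsClique B := fun B h => (hG.2.1 B h).1
  obtain ⟨σ, hσ⟩ := nb_equiv hB a
  obtain ⟨τ, hτ⟩ := nb_equiv hB a'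
  obtain ⟨e0⟩ := Cardinal.eq.mp ((hG.2.2 a).trans (hG.2.2 a').symm)
  obtain ⟨e, he⟩ : ∃ e : {B : Set V | IsBlock G B ∧ a ∈ B} ≃ {B : Set V | IsBlock G B ∧ a' ∈ B},
      ∀ (h : G.Adj a b) (h' : G.Adj a' b'), e (σ.symm ⟨b, h⟩).1 = (τ.symm ⟨b', h'⟩).1 := by
    by_cases h : G.Adj a b ∧ G.Adj a' b'
    · exact ⟨e0.trans (Equiv.swap (e0 (σ.symm ⟨b, h.1⟩).1) (τ.symm ⟨b', h.2⟩).1),
        fun _ _ => by simp⟩
    · exact ⟨e0, fun x y => absurd ⟨x, y⟩ h⟩
  have f : ∀ B : {B : Set V | IsBlock G B ∧ a ∈ B}, ↥(B.1 \ {a}) ≃ ↥((e B).1 \ {a'}) := by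
    intro B
    refine (Cardinal.eq.mp (Cardinal.add_one_inj.mp ?_)).some
    have k : ∀ (C : Set V) c, c ∈ C → #↥(C \ {c}) + 1 = #C := fun C c hc => by
      rw [← Cardinal.mk_insert (by simp : c ∉ C \ {c}), Set.insert_sdiff_singleton,
        Set.insert_eq_of_mem hc]
    rw [k _ _ B.2.2, k _ _ (e B).2.2, (hG.2.1 _ B.2.1).2, (hG.2.1 _ (e B).2.1).2]
  let E : G.neighborSet a ≃ G.neighborSet a' := (σ.symm.trans (Equiv.sigmaCongr e f)).trans τ
  have hE : ∀ u, (τ.symm (E u)).1 = e (σ.symm u).1 := fun u => by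
    simp only [E, Equiv.trans_apply, Equiv.symm_apply_apply]; rfl
  have s1 : ∀ u w : G.neighborSet a, Same G u w ↔ (σ.symm u).1 = (σ.symm w).1 := fun u w => by
    rw [← hσ]; simp
  have s2 : ∀ u w : G.neighborSet a', Same G u w ↔ (τ.symm u).1 = (τ.symm w).1 := fun u w => by
    rw [← hτ]; simp
  refine ⟨fun u => if h : G.Adj a u then E ⟨u, h⟩ else u,
    fun u => if h : G.Adj a' u then E.symm ⟨u, h⟩ else u, fun u h => ?_, fun u h => ?_,
    fun u w hu hw => ?_, fun h h' => ?_⟩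
  · have : G.Adj a' (E ⟨u, h⟩) := (E ⟨u, h⟩).2
    simp [h, this]
  · have : G.Adj a (E.symm ⟨u, h⟩) := (E.symm ⟨u, h⟩).2
    simp [h, this]
  · simp only [hu, hw, dite_true]
    rw [s2, hE, hE, e.apply_eq_iff_eq, ← s1]
  · simp only [h, dite_true]
    rw [s2 _ ⟨b', h'⟩, hE, he h h']

section
variable (hc : G.Connected) (hB : ∀ B, IsBlock G B → G.IsClique B) (x : V)
include hc

lemma adj_le {u w : V} (h : G.Adj u w) : G.dist x w ≤ G.dist x u + 1 := by
  have := hc.dist_triangle (u := x) (v := u) (w := w)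
  rwa [dist_eq_one_iff_adj.mpr h] at this

lemma same_le {u w : V} (h : Same G u w) : G.dist x w ≤ G.dist x u + 1 := by
  rcases h with rfl | h
  · omega
  · exact adj_le hc x h

lemma exists_par (u : V) : ∃ q, u ≠ x → G.Adj u q ∧ G.dist x q + 1 = G.dist x u := by
  by_cases h : u = x
  · exact ⟨u, fun e => absurd h e⟩
  obtain ⟨p, hp⟩ := (hc u x).exists_walk_length_eq_dist
  cases p with
  | nil => exact absurd rfl h
  | cons a p =>
    have h1 := dist_le p
    have h2 := adj_le hc x a.symm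
    rw [Walk.length_cons, dist_comm] at hp
    rw [dist_comm] at h1
    exact ⟨_, fun _ => ⟨a, by omega⟩⟩

lemma down (u : V) : ∃ p : G.Walk u x, ∀ c ∈ p.support, c = u ∨ G.dist x c < G.dist x u := by
  induction h : G.dist x u generalizing u with
  | zero =>
    obtain rfl := (hc.dist_eq_zero_iff).mp h
    exact ⟨.nil, by simp⟩
  | succ k ih =>
    obtain ⟨q, hq⟩ := exists_par hc x u
    have hq := hq (by rintro rfl; simp at h)
    obtain ⟨p, hp⟩ := ih q (by omega)
    refine ⟨.cons hq.1 p, fun c hc => ?_⟩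
    rw [Walk.support_cons, List.mem_cons] at hc
    exact hc.imp_right fun e => (hp c e).elim (fun g => by rw [g]; omega) (by omega)

include hB

lemma same_low {a y z : V} (hy : G.Adj a y) (hz : G.Adj a z) (h1 : G.dist x y ≤ G.dist x a)
    (h2 : G.dist x z ≤ G.dist x a) : Same G y z := by
  obtain ⟨p, hp⟩ := down hc x y
  obtain ⟨q, hq⟩ := down hc x z
  refine same_of_walk hB hy hz (p.append q.reverse) fun h => ?_
  rw [Walk.mem_support_append_iff, Walk.support_reverse, List.mem_reverse] at h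
  rcases h with h | h
  · exact (hp a h).elim hy.ne (by omega)
  · exact (hq a h).elim hz.ne (by omega)

lemma par_unique {u y z : V} (hy : G.Adj u y) (hz : G.Adj u z)
    (h1 : G.dist x y + 1 = G.dist x u) (h2 : G.dist x z + 1 = G.dist x u) : y = z := by
  refine (same_low hc hB x hy hz (by omega) (by omega)).resolve_right fun h => ?_
  by_cases e : y = x
  · subst e
    rw [SimpleGraph.dist_self] at h1
    exact h.ne ((hc.dist_eq_zero_iff).mp (by omega))
  obtain ⟨q, hq⟩ := exists_par hc x y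
  obtain ⟨a, b⟩ := hq e
  have := same_le hc x (same_trans hB a h hy.symm (same_low hc hB x a h (by omega) (by omega))
    (Or.inr hz.symm))
  omega

lemma low_same {a y z : V} (hy : G.Adj a y) (hz : G.Adj a z) (h1 : G.dist x y ≤ G.dist x a)
    (h : Same G y z) : G.dist x z ≤ G.dist x a := by
  by_cases e : a = x
  · subst e
    rw [SimpleGraph.dist_self, Nat.le_zero, hc.dist_eq_zero_iff] at h1
    exact absurd h1 hy.ne
  obtain ⟨q, hq⟩ := exists_par hc x a
  obtain ⟨c, d⟩ := hq e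
  have := same_le hc x (same_trans hB c hy hz (same_low hc hB x c hy (by omega) h1) h)
  omega

end

open Classical in
/-- Recursive construction of an automorphism. -/
noncomputable def ph (x x' : V) (p : V → V) (g : V → V → V → V) : ℕ → V → V
  | 0, _ => x'
  | k + 1, u => g (p u) (ph x x' p g k (p u)) u

lemma ph_spec (hc : G.Connected) (hB : ∀ B, IsBlock G B → G.IsClique B) {x x' : V}
    {p p' : V → V} {g h : V → V → V → V}
    (hp : ∀ u, u ≠ x → G.Adj u (p u) ∧ G.dist x (p u) + 1 = G.dist x u)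
    (hp' : ∀ u, u ≠ x' → G.Adj u (p' u) ∧ G.dist x' (p' u) + 1 = G.dist x' u)
    (l : ∀ a a', Loc G a a' (p a) (p' a') (g a a') (h a' a)) :
    (∀ u, ph x' x p' h (G.dist x' (ph x x' p g (G.dist x u) u)) (ph x x' p g (G.dist x u) u) = u) ∧
    ∀ u w, G.Adj u w → G.Adj (ph x x' p g (G.dist x u) u) (ph x x' p g (G.dist x w) w) := by
  have k : ∀ k u, G.dist x u = k → G.dist x' (ph x x' p g k u) = k ∧
      ph x' x p' h k (ph x x' p g k u) = u := by
    intro k
    induction k with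
    | zero => exact fun u e => ⟨by simp [ph], (hc.dist_eq_zero_iff).mp e⟩
    | succ k ih =>
      intro u e
      obtain ⟨a, b⟩ := hp u (by rintro rfl; simp at e)
      obtain ⟨c, d⟩ := ih (p u) (by omega)
      simp only [ph]
      generalize ph x x' p g k (p u) = q at *
      obtain ⟨l1, -, l3, l4⟩ := l (p u) q
      obtain ⟨m1, m2⟩ := l1 u a.symm
      have n1 : G.dist x' (g (p u) q u) = k + 1 := by
        refine le_antisymm (c ▸ adj_le hc x' m1) (Nat.succ_le_of_lt (not_le.mp fun n => ?_))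
        have q1 : q ≠ x' := by
          rintro rfl
          rw [SimpleGraph.dist_self] at c
          exact m1.ne ((hc.dist_eq_zero_iff).mp (by omega))
        have q2 : p u ≠ x := by
          intro r
          rw [r, SimpleGraph.dist_self] at b
          exact q1 ((hc.dist_eq_zero_iff).mp (by omega)).symm
        obtain ⟨r1, r2⟩ := hp _ q2
        obtain ⟨s1, s2⟩ := hp' _ q1
        have t := same_trans hB m1 s1 (l1 _ r1).1
          (same_low hc hB x' m1 s1 (by omega) (by omega)) (l4 r1 s1).symm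
        have := same_le hc x ((l3 _ _ a.symm r1).mpr t).symm
        omega
      obtain ⟨s1, s2⟩ := hp' (g (p u) q u) (by intro r; rw [r] at n1; simp at n1)
      rw [par_unique hc hB x' s1 m1.symm s2 (by omega), d]
      exact ⟨n1, m2⟩
  have k2 : ∀ u w, G.Adj u w → G.dist x u + 1 = G.dist x w →
      G.Adj (ph x x' p g (G.dist x u) u) (ph x x' p g (G.dist x w) w) := by
    intro u w a e
    obtain ⟨b, c⟩ := hp w (by rintro rfl; simp at e)
    rw [← e]
    simp only [ph]
    rw [par_unique hc hB x b a.symm c e]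
    exact ((l _ _).1 w a).1
  refine ⟨fun u => by rw [(k _ u rfl).1, (k _ u rfl).2], fun u w a => ?_⟩
  have h1 := adj_le hc x a
  have h2 := adj_le hc x a.symm
  rcases lt_trichotomy (G.dist x u) (G.dist x w) with e | e | e
  · exact k2 u w a (by omega)
  · have u1 : u ≠ x := by
      rintro rfl
      rw [SimpleGraph.dist_self] at e
      exact a.ne ((hc.dist_eq_zero_iff).mp e.symm)
    have w1 : w ≠ x := by
      rintro rfl
      rw [SimpleGraph.dist_self] at e
      exact u1 ((hc.dist_eq_zero_iff).mp e).symm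
    obtain ⟨b, c⟩ := hp u u1
    obtain ⟨b', c'⟩ := hp w w1
    have s : G.Adj w (p u) := (same_low hc hB x a b (by omega) (by omega)).resolve_left
      fun r => by rw [← r] at c; omega
    have t := par_unique hc hB x b' s c' (by omega)
    rw [← e, ← c]
    simp only [ph]
    rw [t]
    obtain ⟨l1, -, l3, -⟩ := l (p u) (ph x x' p g (G.dist x (p u)) (p u))
    refine ((l3 u w b.symm s.symm).mp (Or.inr a)).resolve_left fun r => a.ne ?_
    rw [← (l1 u b.symm).2, r, (l1 w s.symm).2]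
  · exact (k2 w u a.symm (by omega)).symm

lemma exists_aut {m n : Cardinal} (hG : TL G m n) {x y x' y' : V} (e : G.Adj x y)
    (e' : G.Adj x' y') : ∃ φ : G ≃g G, φ x = x' ∧ Same G (φ y) y' := by
  classical
  have hB : ∀ B, IsBlock G B → G.IsClique B := fun B h => (hG.2.1 B h).1
  have k : ∀ x y, ∃ p : V → V, p x = y ∧
      ∀ u, u ≠ x → G.Adj u (p u) ∧ G.dist x (p u) + 1 = G.dist x u := by
    intro x y
    choose p hp using exists_par hG.1 x
    exact ⟨fun u => if u = x then y else p u, by simp, fun u h => by simpa [h] using hp u h⟩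
  obtain ⟨p, p0, hp⟩ := k x y
  obtain ⟨p', p0', hp'⟩ := k x' y'
  choose g h l using fun a a' => exists_loc hG a a' (p a) (p' a')
  obtain ⟨a1, a2⟩ := ph_spec hG.1 hB (h := fun a' a => h a a') hp hp' l
  obtain ⟨b1, b2⟩ := ph_spec hG.1 hB (g := fun a' a => h a a') (h := g) hp' hp
    fun a' a => (l a a').symm
  refine ⟨⟨⟨fun u => ph x x' p g (G.dist x u) u,
    fun u => ph x' x p' (fun a' a => h a a') (G.dist x' u) u, a1, b1⟩, fun {u w} =>
    ⟨fun r => ?_, a2 u w⟩⟩, by simp [ph], ?_⟩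
  · have := b2 _ _ r
    simp only [Equiv.coe_fn_mk] at this
    rwa [a1, a1] at this
  · have d : G.dist x y = 1 := dist_eq_one_iff_adj.mpr e
    obtain ⟨-, c⟩ := hp y e.ne'
    have : p y = x := ((hG.1.dist_eq_zero_iff).mp (by omega)).symm
    change Same G (ph x x' p g (G.dist x y) y) y'
    rw [d]
    simp only [ph]
    rw [this]
    have := (l x x').2.2.2
    rw [p0, p0'] at this
    exact this e e'

/-- The topology of pointwise convergence on the automorphism group. -/
abbrev autTop (G : SimpleGraph V) : TopologicalSpace (G ≃g G) :=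
  .induced (fun g => (g : V → V)) (@Pi.topologicalSpace V (fun _ => V) fun _ => ⊥)

/-- Amenability of a topological group. -/
def Amenable (Γ : Type) [Group Γ] [TopologicalSpace Γ] : Prop :=
  ∀ (X : Type) [TopologicalSpace X] [CompactSpace X] [T2Space X] [Nonempty X] [MulAction Γ X]
    [ContinuousSMul Γ X], ∃ μ : @MeasureTheory.Measure X (borel X), μ Set.univ = 1 ∧
      ∀ (g : Γ) (s : Set X), @MeasurableSet X (borel X) s → μ ((fun x => g • x) ⁻¹' s) = μ s

/-- The flow of orientations. -/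
def Ori (G : SimpleGraph V) : Set (V → V → Bool) :=
  {P | (∀ x y z, G.Adj x y → G.Adj x z → P x y = true → (P x z = true ↔ Same G y z)) ∧
    ∀ x y, G.Adj x y → P x y = true ∨ P y x = true}

lemma ori_closed : IsClosed (Ori G) := by
  have c : ∀ x y, IsClopen {P : V → V → Bool | P x y = true} := fun x y =>
    (isClopen_discrete {true}).preimage (f := fun P : V → V → Bool => P x y) (by fun_prop)
  simp only [Ori, Set.ofPred_and, Set.ofPred_forall]
  refine (isClosed_iInter fun x => isClosed_iInter fun y => isClosed_iInter fun z =>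
    isClosed_iInter fun _ => ?_).inter (isClosed_iInter fun x => isClosed_iInter fun y =>
      isClosed_iInter fun _ => (c x y).1.union (c y x).1)
  rw [← Set.ofPred_forall]
  exact (isClosed_discrete {b : Bool × Bool | G.Adj x z → b.1 = true →
    (b.2 = true ↔ Same G y z)}).preimage (f := fun P : V → V → Bool => (P x y, P x z))
    (by fun_prop)

lemma same_map (g : G ≃g G) (y z : V) : Same G (g y) (g z) ↔ Same G y z := by
  simp [Same, g.map_rel_iff]

instance : MulAction (G ≃g G) (Ori G) where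
  smul g P := ⟨fun u v => P.1 (g.symm u) (g.symm v), fun x y z a b c => by
    rw [← same_map g.symm]
    exact P.2.1 _ _ _ (g.symm.map_rel_iff.mpr a) (g.symm.map_rel_iff.mpr b) c,
    fun x y a => P.2.2 _ _ (g.symm.map_rel_iff.mpr a)⟩
  one_smul _ := rfl
  mul_smul _ _ _ := rfl

lemma ori_cont : @ContinuousSMul (G ≃g G) (Ori G) _ (autTop G) _ := by
  let := autTop G
  let : TopologicalSpace V := ⊥
  have : DiscreteTopology V := ⟨rfl⟩
  have c : ∀ w, Continuous fun g : G ≃g G => g w := fun w =>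
    (continuous_apply w).comp continuous_induced_dom
  refine ⟨Continuous.subtype_mk (continuous_pi fun u => continuous_pi fun v =>
    continuous_iff_continuousAt.mpr fun q => ?_) _⟩
  have k : ∀ w, ∀ᶠ r : (G ≃g G) × Ori G in nhds q, r.1.symm w = q.1.symm w := by
    intro w
    have := ((c (q.1.symm w)).comp continuous_fst).continuousAt (x := q).eventually
      ((isOpen_discrete {w}).mem_nhds (by simp))
    exact this.mono fun r hr => by
      rw [RelIso.symm_apply_eq]; exact (show r.1 (q.1.symm w) = w from hr).symm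
  refine ContinuousAt.congr (f := fun r : (G ≃g G) × Ori G => r.2.1 (q.1.symm u) (q.1.symm v))
    (((continuous_apply _).comp ((continuous_apply _).comp
      (continuous_subtype_val.comp continuous_snd))).continuousAt) ?_
  filter_upwards [k u, k v] with r h1 h2
  rw [h1, h2]

lemma ori_nonempty (hc : G.Connected) (hB : ∀ B, IsBlock G B → G.IsClique B) :
    Nonempty (Ori G) := by
  obtain ⟨o⟩ := hc.nonempty
  refine ⟨⟨fun x y => decide (G.dist o y ≤ G.dist o x), fun x y z a b c => ?_, fun x y _ => ?_⟩⟩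
  · simp only [decide_eq_true_eq] at c ⊢
    exact ⟨same_low hc hB o a b c, low_same hc hB o a b c⟩
  · simpa using le_total _ _

open MeasureTheory in
lemma null_of {X ι : Type} [MeasurableSpace X] {μ : Measure X} (h : μ Set.univ = 1) [Infinite ι]
    (s : ι → Set X) (hm : ∀ i, MeasurableSet (s i)) (hd : Pairwise fun i j => Disjoint (s i) (s j))
    {c : ENNReal} (hc : ∀ i, μ (s i) = c) : c = 0 := by
  by_contra h0
  have e := Infinite.natEmbedding ι
  have := measure_iUnion (μ := μ) (f := fun k => s (e k))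
    (fun i j g => hd (e.injective.ne g)) fun k => hm _
  simp only [hc, ENNReal.tsum_const_eq_top_of_ne_zero h0] at this
  exact absurd (this ▸ h ▸ measure_mono (Set.subset_univ _) : (⊤ : ENNReal) ≤ 1) (by simp)

open MeasureTheory in
theorem not_amenable {m n : Cardinal} (hG : TL G m n) (hm : 2 ≤ m) (hn : 2 ≤ n)
    (h : ℵ₀ ≤ m ∨ ℵ₀ ≤ n) : ¬ @Amenable (G ≃g G) _ (autTop G) := by
  intro hA
  have hB : ∀ B, IsBlock G B → G.IsClique B := fun B h => (hG.2.1 B h).1
  let := autTop G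
  have := ori_cont (G := G)
  have := ori_nonempty hG.1 hB
  have : CompactSpace (Ori G) := isCompact_iff_compactSpace.mp ori_closed.isCompact
  obtain ⟨μ, h1, h2⟩ := hA (Ori G)
  borelize ↥(Ori G)
  let E : V → V → Bool → Set (Ori G) := fun x y b => {P | P.1 x y = b}
  have mE : ∀ x y b, MeasurableSet (E x y b) := fun x y b =>
    ((isOpen_discrete {b}).preimage (f := fun P : Ori G => P.1 x y) ((continuous_apply _).comp
      ((continuous_apply _).comp continuous_subtype_val))).measurableSet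
  have inv : ∀ b x y x' y', G.Adj x y → G.Adj x' y' → μ (E x y b) = μ (E x' y' b) := by
    intro b x y x' y' a a'
    obtain ⟨φ, rfl, s⟩ := exists_aut hG a a'
    have e1 : (fun P => φ • P) ⁻¹' E (φ x) (φ y) b = E x y b := by
      ext P
      change P.1 (φ.symm (φ x)) (φ.symm (φ y)) = b ↔ _
      simp [E]
    have e2 : E (φ x) (φ y) b = E (φ x) y' b := by
      ext P
      have a2 : G.Adj (φ x) (φ y) := φ.map_rel_iff.mpr a
      have : P.1 (φ x) (φ y) = P.1 (φ x) y' := Bool.eq_iff_iff.mpr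
        ⟨fun r => (P.2.1 _ _ _ a2 a' r).mpr s, fun r => (P.2.1 _ _ _ a' a2 r).mpr s.symm⟩
      simp [E, this]
    rw [← e1, h2 _ _ (mE _ _ _), e2]
  have pt : ∀ B, IsBlock G B → ∀ u, ∃ v, u ∈ B → v ∈ B ∧ G.Adj u v := by
    intro B b u
    by_cases hu : u ∈ B
    · obtain ⟨v, hv⟩ := (Cardinal.two_le_iff' (⟨u, hu⟩ : B)).mp ((hG.2.1 B b).2 ▸ hn)
      exact ⟨v, fun _ => ⟨v.2, hB B b hu v.2 fun e => hv (Subtype.ext e.symm)⟩⟩
    · exact ⟨u, fun e => absurd e hu⟩
  choose v hv using pt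
  obtain ⟨x⟩ := hG.1.nonempty
  have ns : ∀ B C : {B : Set V | IsBlock G B ∧ x ∈ B}, B ≠ C →
      ¬ Same G (v B B.2.1 x) (v C C.2.1 x) := by
    intro B C e s
    obtain ⟨b1, b2⟩ := hv B B.2.1 x B.2.2
    obtain ⟨c1, c2⟩ := hv C C.2.1 x C.2.2
    exact e (Subtype.ext (block_eq hB B.2.1 C.2.1 b2.ne B.2.2 b1 C.2.2
      (mem_block hB C.2.1 C.2.2 c1 c2.ne (Or.inr b2.symm) s)))
  obtain ⟨B, C, hBC⟩ := Cardinal.two_le_iff.mp ((hG.2.2 x).symm ▸ hm)
  have b2 := (hv B B.2.1 x B.2.2).2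
  have c2 := (hv C C.2.1 x C.2.2).2
  have fin : ∀ s t : Set (Ori G), μ s = 0 → μ t = 0 → (∀ P, P ∈ s ∨ P ∈ t) → False := by
    intro s t a b c
    have := measure_union_null a b
    rw [(Set.eq_univ_of_forall c : s ∪ t = Set.univ), h1] at this
    exact one_ne_zero this
  rcases h with h | h
  · have := Cardinal.infinite_iff.mpr ((hG.2.2 x).symm ▸ h)
    have z := null_of h1 (fun D : {B : Set V | IsBlock G B ∧ x ∈ B} => E x (v D D.2.1 x) true)
      (fun _ => mE _ _ _) (fun D D' e => Set.disjoint_left.mpr fun P r r' => ns D D' e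
        ((P.2.1 _ _ _ (hv D D.2.1 x D.2.2).2 (hv D' D'.2.1 x D'.2.2).2 r).mp r'))
      fun D => inv true _ _ _ _ (hv D D.2.1 x D.2.2).2 b2
    exact fin _ _ z ((inv true _ _ _ _ b2.symm b2).trans z) fun P => P.2.2 _ _ b2
  · have := Cardinal.infinite_iff.mpr ((hG.2.1 B B.2.1).2.symm ▸ h)
    have z := null_of h1 (fun u : B.1 => E u (v B B.2.1 u) false)
      (fun _ => mE _ _ _) (fun u w e => Set.disjoint_left.mpr fun P r r' => by
        have a := hB B B.2.1 u.2 w.2 fun g => e (Subtype.ext g)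
        obtain ⟨u1, u2⟩ := hv B B.2.1 u u.2
        obtain ⟨w1, w2⟩ := hv B B.2.1 w w.2
        rcases P.2.2 _ _ a with g | g
        · exact absurd (((P.2.1 _ _ _ a u2 g).mpr (same_mem hB B.2.1 w.2 u1)).symm.trans r)
            (by simp)
        · exact absurd (((P.2.1 _ _ _ a.symm w2 g).mpr (same_mem hB B.2.1 u.2 w1)).symm.trans r')
            (by simp))
      fun u => inv false _ _ _ _ (hv B B.2.1 u u.2).2 b2
    refine fin _ _ z ((inv false _ _ _ _ c2 b2).trans z) fun P => ?_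
    by_contra g
    simp only [E, Set.mem_ofPred_eq, not_or, Bool.not_eq_false] at g
    exact ns B C hBC ((P.2.1 _ _ _ b2 c2 g.1).mp g.2)

end Pool.Agent.H6.TreeLike
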