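import Mathlib
import Pool.Agent.H6.NCMatch

set_option linter.unusedSectionVars false

namespace Pool.Agent.H6.TriArea

open Finset Pool.Agent.H6.NCMatch Filter Topology

def cr (u v : ℝ × ℝ) : ℝ := u.1 * v.2 - u.2 * v.1

lemma near (P Q R w : ℝ × ℝ) (hd : cr (Q - P) (R - P) ≠ 0) (s : ℝ) (h0 : 0 < s) (h1 : s < 1)
    (hw : 0 < cr (Q - P) w / cr (Q - P) (R - P)) :
    ∀ᶠ t : ℝ in 𝓝[>] 0, P + s • (Q - P) + t • w ∈
      interior (convexHull ℝ ({P, R, Q} : Set (ℝ × ℝ))) := by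
  let a : ℝ × ℝ → ℝ := fun z => cr (Q - P) (z - P) / cr (Q - P) (R - P)
  let b : ℝ × ℝ → ℝ := fun z => cr (z - P) (R - P) / cr (Q - P) (R - P)
  have ha : Continuous a := by unfold a cr; fun_prop
  have hb : Continuous b := by unfold b cr; fun_prop
  let O : Set (ℝ × ℝ) := {z | 0 < a z} ∩ ({z | 0 < b z} ∩ {z | 0 < 1 - a z - b z})
  have hO : IsOpen O := (isOpen_lt continuous_const ha).inter
    ((isOpen_lt continuous_const hb).inter (isOpen_lt continuous_const (by fun_prop)))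
  have hsub : O ⊆ convexHull ℝ ({P, R, Q} : Set (ℝ × ℝ)) := by
    rintro z ⟨z1, z2, z3⟩
    have hc := convex_convexHull ℝ ({P, R, Q} : Set (ℝ × ℝ))
    have key := hc.sum_mem (t := (univ : Finset (Fin 3))) (w := ![1 - a z - b z, a z, b z])
      (z := ![P, R, Q]) (fun i _ => by
        fin_cases i
        · exact le_of_lt z3
        · exact le_of_lt z1
        · exact le_of_lt z2) (by simp [Fin.sum_univ_three]; ring)
      (fun i _ => subset_convexHull _ _ (by fin_cases i <;> simp))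
    convert key using 1
    simp only [Fin.sum_univ_three, Matrix.cons_val_zero, Matrix.cons_val_one, Matrix.cons_val]
    have hd' := hd
    simp only [cr, Prod.fst_sub, Prod.snd_sub] at hd'
    ext
    · simp only [a, b, cr, Prod.fst_add, Prod.smul_fst, Prod.fst_sub, Prod.snd_sub, smul_eq_mul]
      field_simp
      ring
    · simp only [a, b, cr, Prod.snd_add, Prod.smul_snd, Prod.fst_sub, Prod.snd_sub, smul_eq_mul]
      field_simp
      ring
  have hz : Tendsto (fun t : ℝ => P + s • (Q - P) + t • w) (𝓝[>] 0) (𝓝 (P + s • (Q - P))) := by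
    have : Continuous fun t : ℝ => P + s • (Q - P) + t • w := by fun_prop
    simpa using (this.tendsto 0).mono_left nhdsWithin_le_nhds
  have a0 : a (P + s • (Q - P)) = 0 := by
    simp only [a, cr, add_sub_cancel_left, Prod.smul_fst, Prod.smul_snd, smul_eq_mul]
    rw [div_eq_zero_iff]
    left
    ring
  have b0 : b (P + s • (Q - P)) = s := by
    simp only [b, add_sub_cancel_left]
    rw [div_eq_iff hd]
    simp only [cr, Prod.smul_fst, Prod.smul_snd, smul_eq_mul]
    ring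
  have e1 : ∀ᶠ t : ℝ in 𝓝[>] 0, 0 < b (P + s • (Q - P) + t • w) :=
    ((hb.tendsto _).comp hz).eventually (lt_mem_nhds (by rw [b0]; exact h0))
  have e2 : ∀ᶠ t : ℝ in 𝓝[>] 0,
      0 < 1 - a (P + s • (Q - P) + t • w) - b (P + s • (Q - P) + t • w) := by
    have hc : Continuous fun z => 1 - a z - b z := by fun_prop
    exact ((hc.tendsto _).comp hz).eventually (lt_mem_nhds (by rw [a0, b0]; linarith))
  filter_upwards [e1, e2, self_mem_nhdsWithin] with t t1 t2 t3
  refine interior_maximal hsub hO ⟨?_, t1, t2⟩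
  have : a (P + s • (Q - P) + t • w) = t * (cr (Q - P) w / cr (Q - P) (R - P)) := by
    simp only [a]
    rw [← mul_div_assoc]
    congr 1
    simp only [cr, Prod.fst_add, Prod.snd_add, Prod.smul_fst, Prod.smul_snd, Prod.fst_sub,
      Prod.snd_sub, smul_eq_mul]
    ring
  simp only [Set.mem_ofPred_eq, this]
  exact mul_pos t3 hw

lemma cross (P Q R P' Q' R' : ℝ × ℝ) (hd : cr (Q - P) (R - P) ≠ 0)
    (hd' : cr (Q' - P') (R' - P') ≠ 0) (hD : cr (Q - P) (Q' - P') ≠ 0) (s s' : ℝ)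
    (h0 : 0 < s) (h1 : s < 1) (h0' : 0 < s') (h1' : s' < 1)
    (he : P + s • (Q - P) = P' + s' • (Q' - P')) :
    ¬ Disjoint (interior (convexHull ℝ ({P, R, Q} : Set (ℝ × ℝ))))
      (interior (convexHull ℝ ({P', R', Q'} : Set (ℝ × ℝ)))) := by
  let w : ℝ × ℝ := (cr (Q - P) (R - P) * cr (Q - P) (Q' - P')) • (Q' - P') -
    (cr (Q' - P') (R' - P') * cr (Q - P) (Q' - P')) • (Q - P)
  have w1 : cr (Q - P) w = cr (Q - P) (Q' - P') ^ 2 * cr (Q - P) (R - P) := by
    simp only [w, cr, Prod.smul_fst, Prod.smul_snd, Prod.fst_sub, Prod.snd_sub, smul_eq_mul]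
    ring
  have w2 : cr (Q' - P') w = cr (Q - P) (Q' - P') ^ 2 * cr (Q' - P') (R' - P') := by
    simp only [w, cr, Prod.smul_fst, Prod.smul_snd, Prod.fst_sub, Prod.snd_sub, smul_eq_mul]
    ring
  have n1 := near P Q R w hd s h0 h1 (by rw [w1, mul_div_cancel_right₀ _ hd]; positivity)
  have n2 := near P' Q' R' w hd' s' h0' h1' (by rw [w2, mul_div_cancel_right₀ _ hd']; positivity)
  obtain ⟨t, t1, t2⟩ := (n1.and n2).exists
  rw [← he] at t2
  exact Set.not_disjoint_iff.mpr ⟨_, t1, t2⟩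

variable {N : ℕ}

/-- The points of the configuration. -/
noncomputable def pt (α β : ℝ) (y : Fin N → ℝ) (k : Fin N) : ℝ × ℝ := (α * (k : ℕ), β * y k)

lemma cr_pt (α β : ℝ) (y : Fin N → ℝ) {l r : Fin N} (h : l < r) (m : Fin N) :
    cr (pt α β y r - pt α β y l) (pt α β y m - pt α β y l) =
      α * β * ((((r : ℕ) : ℝ) - (l : ℕ)) * (y m - ln y (l, r) m)) := by
  have := (sub_pos.mpr (cast_lt' h)).ne'
  simp only [cr, pt, ln, Prod.fst_sub, Prod.snd_sub]
  field_simp
  ring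

lemma affine_root {A B lo hi u v : ℝ} (h1 : A * lo + B ≠ 0) (h2 : A * hi + B ≠ 0)
    (u1 : lo ≤ u) (u2 : u ≤ hi) (v1 : lo ≤ v) (v2 : v ≤ hi) (hu : 0 ≤ A * u + B)
    (hv : A * v + B ≤ 0) : A ≠ 0 ∧ ∃ x, lo < x ∧ x < hi ∧ A * x + B = 0 := by
  rcases lt_trichotomy A 0 with h | h | h
  · have a : 0 < A * lo + B := lt_of_le_of_ne (by nlinarith) h1.symm
    have b : A * hi + B < 0 := lt_of_le_of_ne (by nlinarith) h2
    refine ⟨h.ne, -B / A, ?_, ?_, by field_simp [h.ne]; ring⟩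
    · rw [lt_div_iff_of_neg h]; linarith
    · rw [div_lt_iff_of_neg h]; linarith
  · subst h
    simp only [zero_mul, zero_add] at *
    exact absurd (le_antisymm hv hu) h1
  · have a : A * lo + B < 0 := lt_of_le_of_ne (by nlinarith) h1
    have b : 0 < A * hi + B := lt_of_le_of_ne (by nlinarith) h2.symm
    refine ⟨h.ne', -B / A, ?_, ?_, by field_simp [h.ne']; ring⟩
    · rw [lt_div_iff₀ h]; linarith
    · rw [div_lt_iff₀ h]; linarith

lemma nc_of_disjoint {α β : ℝ} (hα : 0 < α) (hβ : 0 < β) {y : Fin N → ℝ} (hg : GP y univ)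
    {l m r l' m' r' : Fin N} (a1 : l < m) (a2 : m < r) (b1 : l' < m') (b2 : m' < r')
    (c1 : l ≠ l') (c2 : l ≠ r') (c3 : r ≠ l') (c4 : r ≠ r')
    (hd : Disjoint (interior (convexHull ℝ ({pt α β y l, pt α β y m, pt α β y r} : Set (ℝ × ℝ))))
      (interior (convexHull ℝ ({pt α β y l', pt α β y m', pt α β y r'} : Set (ℝ × ℝ))))) :
    NC y (l, r) (l', r') := by
  by_contra hn
  unfold NC Below at hn
  push Not at hn
  obtain ⟨⟨u, u1, u2, u3, u4, hu⟩, ⟨v, v1, v2, v3, v4, hv⟩⟩ := hn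
  simp only at u1 u2 u3 u4 v1 v2 v3 v4
  have g : ∀ i j k : Fin N, i < k → k < j → ln y (i, j) k ≠ y k := fun i j k =>
    hg i (mem_univ _) j (mem_univ _) k (mem_univ _)
  have p := sub_pos.mpr (cast_lt' (a1.trans a2))
  have p' := sub_pos.mpr (cast_lt' (b1.trans b2))
  set σ : ℝ := (y r - y l) / (((r : ℕ) : ℝ) - (l : ℕ)) with hσ
  set σ' : ℝ := (y r' - y l') / (((r' : ℕ) : ℝ) - (l' : ℕ)) with hσ'
  have form : ∀ k, ln y (l, r) k - ln y (l', r') k =
      (σ - σ') * ((k : ℕ) : ℝ) + (y l - σ * (l : ℕ) - y l' + σ' * (l' : ℕ)) := by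
    intro k
    simp only [ln, hσ, hσ']
    ring
  have hlo : ln y (l, r) (max l l') - ln y (l', r') (max l l') ≠ 0 := by
    rw [sub_ne_zero]
    rcases lt_or_gt_of_ne c1 with h | h
    · rw [max_eq_right h.le, ln_left y (l', r')]
      exact g _ _ _ h (lt_of_le_of_ne (u3.trans u2) c3.symm)
    · rw [max_eq_left h.le, ln_left y (l, r)]
      exact (g _ _ _ h (lt_of_le_of_ne (u1.trans u4) c2)).symm
  have hhi : ln y (l, r) (min r r') - ln y (l', r') (min r r') ≠ 0 := by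
    rw [sub_ne_zero]
    rcases lt_or_gt_of_ne c4 with h | h
    · rw [min_eq_left h.le, ln_right y (e := (l, r)) (a1.trans a2)]
      exact (g _ _ _ (lt_of_le_of_ne (u3.trans u2) c3.symm) h).symm
    · rw [min_eq_right h.le, ln_right y (e := (l', r')) (b1.trans b2)]
      exact g _ _ _ (lt_of_le_of_ne (u1.trans u4) c2) h
  rw [form] at hlo hhi
  obtain ⟨hA, x, x1, x2, x3⟩ := affine_root hlo hhi (cast_le' (max_le u1 u3))
    (cast_le' (le_min u2 u4)) (cast_le' (max_le v3 v1)) (cast_le' (le_min v4 v2))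
    (by rw [← form]; linarith) (by rw [← form]; linarith)
  have x4 := (cast_le' (le_max_left l l')).trans_lt x1
  have x5 := (cast_le' (le_max_right l l')).trans_lt x1
  have x6 := x2.trans_le (cast_le' (min_le_left r r'))
  have x7 := x2.trans_le (cast_le' (min_le_right r r'))
  have y1 : y r = y l + σ * (((r : ℕ) : ℝ) - (l : ℕ)) := by
    rw [hσ, div_mul_cancel₀ _ p.ne']; ring
  have y2 : y r' = y l' + σ' * (((r' : ℕ) : ℝ) - (l' : ℕ)) := by
    rw [hσ', div_mul_cancel₀ _ p'.ne']; ring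
  refine cross _ _ _ _ _ _ ?_ ?_ ?_ ((x - (l : ℕ)) / (((r : ℕ) : ℝ) - (l : ℕ)))
    ((x - (l' : ℕ)) / (((r' : ℕ) : ℝ) - (l' : ℕ))) (div_pos (by linarith) p)
    ((div_lt_one p).mpr (by linarith)) (div_pos (by linarith) p')
    ((div_lt_one p').mpr (by linarith)) ?_ hd
  · rw [cr_pt _ _ _ (a1.trans a2)]
    exact mul_ne_zero (by positivity) (mul_ne_zero p.ne' (sub_ne_zero.mpr (g _ _ _ a1 a2).symm))
  · rw [cr_pt _ _ _ (b1.trans b2)]
    exact mul_ne_zero (by positivity) (mul_ne_zero p'.ne' (sub_ne_zero.mpr (g _ _ _ b1 b2).symm))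
  · have : cr (pt α β y r - pt α β y l) (pt α β y r' - pt α β y l') =
        -(α * β * ((((r : ℕ) : ℝ) - (l : ℕ)) * (((r' : ℕ) : ℝ) - (l' : ℕ))) * (σ - σ')) := by
      simp only [cr, pt, Prod.fst_sub, Prod.snd_sub]
      rw [y1, y2]
      ring
    rw [this, neg_ne_zero]
    exact mul_ne_zero (by positivity) hA
  · clear_value σ σ'
    ext
    · simp only [pt, Prod.fst_add, Prod.smul_fst, Prod.fst_sub, smul_eq_mul]
      field_simp
      ring
    · simp only [pt, Prod.snd_add, Prod.smul_snd, Prod.snd_sub, smul_eq_mul]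
      rw [y1, y2]
      field_simp
      linear_combination (((r : ℕ) : ℝ) - (l : ℕ)) * (((r' : ℕ) : ℝ) - (l' : ℕ)) * x3

section Union

variable {L : ℕ} [NeZero L]

/-- Set the coordinates in `A` to zero. -/
def zer (A : Finset (Fin N)) (y : Fin N → Fin L) : Fin N → Fin L :=
  fun k => if k ∈ A then 0 else y k

lemma fiber {τ : Type} (A : Finset (Fin N)) (Opt : (Fin N → Fin L) → Finset τ) (c W : ℕ)
    (hc : ∀ z, (Opt z).card ≤ c) (U : (Fin N → Fin L) → τ → Fin N → Finset (Fin L))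
    (B : Finset (Fin N → Fin L))
    (hB : ∀ y ∈ B, ∃ t ∈ Opt (zer A y), ∀ a ∈ A, y a ∈ U (zer A y) t a ∧
      (U (zer A y) t a).card ≤ W) :
    B.card ≤ L ^ (N - A.card) * (c * W ^ A.card) := by
  classical
  have sub : B ⊆ (Fintype.piFinset fun k => if k ∈ A then ({0} : Finset (Fin L)) else univ).biUnion
      fun z => ((Opt z).filter fun t => ∀ a ∈ A, (U z t a).card ≤ W).biUnion
        fun t => Fintype.piFinset fun k => if k ∈ A then U z t k else {z k} := by
    intro y hy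
    obtain ⟨t, ht, h⟩ := hB y hy
    refine mem_biUnion.mpr ⟨zer A y, Fintype.mem_piFinset.mpr fun k => ?_,
      mem_biUnion.mpr ⟨t, mem_filter.mpr ⟨ht, fun a ha => (h a ha).2⟩,
        Fintype.mem_piFinset.mpr fun k => ?_⟩⟩
    · by_cases hk : k ∈ A <;> simp [zer, hk]
    · by_cases hk : k ∈ A
      · simpa [hk] using (h k hk).1
      · simp [zer, hk]
  refine (card_le_card sub).trans ((card_biUnion_le_card_mul _ _ (c * W ^ A.card) ?_).trans
    (Nat.mul_le_mul_right _ (le_of_eq ?_)))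
  · intro z _
    refine (card_biUnion_le_card_mul _ _ (W ^ A.card) ?_).trans
      (Nat.mul_le_mul_right _ ((card_filter_le _ _).trans (hc z)))
    intro t ht
    rw [Fintype.card_piFinset]
    simp only [apply_ite card, card_singleton]
    rw [prod_ite_mem, univ_inter]
    exact prod_le_pow_card _ _ _ (mem_filter.mp ht).2
  · rw [Fintype.card_piFinset]
    simp only [apply_ite card, card_singleton, card_univ, Fintype.card_fin]
    rw [prod_ite, prod_const_one, one_mul, prod_const]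
    congr 1
    have : (univ.filter fun k => ¬ k ∈ A) = Aᶜ := by ext; simp
    rw [this, card_compl, Fintype.card_fin]

/-- The real heights. -/
def re (y : Fin N → Fin L) : Fin N → ℝ := fun k => ((y k : ℕ) : ℝ)

lemma ln_zer (A : Finset (Fin N)) (y : Fin N → Fin L) {e : Fin N × Fin N} (h1 : e.1 ∉ A)
    (h2 : e.2 ∉ A) : ln (re (zer A y)) e = ln (re y) e := by
  ext k
  simp [ln, re, zer, h1, h2]

lemma re_inj {a b : Fin L} (h : ((a : ℕ) : ℝ) = (b : ℕ)) : a = b := Fin.ext (by exact_mod_cast h)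

open Classical in
lemma bad_gp : (univ.filter fun y : Fin N → Fin L => ¬ GP (re y) univ).card ≤
    N ^ 3 * L ^ (N - 1) := by
  have sub : (univ.filter fun y : Fin N → Fin L => ¬ GP (re y) univ) ⊆
      (univ : Finset (Fin N × Fin N × Fin N)).biUnion fun p => univ.filter
        fun y => p.1 < p.2.2 ∧ p.2.2 < p.2.1 ∧ ln (re y) (p.1, p.2.1) p.2.2 = re y p.2.2 := by
    intro y hy
    have := (mem_filter.mp hy).2
    unfold GP at this
    push Not at this
    obtain ⟨i, -, j, -, k, -, h⟩ := this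
    exact mem_biUnion.mpr ⟨(i, j, k), mem_univ _, mem_filter.mpr ⟨mem_univ _, h⟩⟩
  refine (card_le_card sub).trans ((card_biUnion_le_card_mul _ _ (L ^ (N - 1)) ?_).trans
    (le_of_eq ?_))
  · rintro ⟨i, j, k⟩ -
    have := fiber (L := L) {k} (fun _ => ({()} : Finset Unit)) 1 1 (fun _ => by simp)
      (fun z _ a => univ.filter fun v => ((v : ℕ) : ℝ) = ln (re z) (i, j) a)
      (univ.filter fun y => i < k ∧ k < j ∧ ln (re y) (i, j) k = re y k) (by
        intro y hy
        obtain ⟨-, h1, h2, h3⟩ := mem_filter.mp hy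
        refine ⟨(), by simp, fun a ha => ?_⟩
        rw [mem_singleton.mp ha]
        refine ⟨mem_filter.mpr ⟨mem_univ _, ?_⟩, card_le_one.mpr fun a ha b hb => re_inj ?_⟩
        · rw [ln_zer _ _ (by simpa using h1.ne) (by simpa using h2.ne')]
          exact h3.symm
        · rw [(mem_filter.mp ha).2, (mem_filter.mp hb).2])
    simpa using this
  · simp only [card_univ, Fintype.card_prod, Fintype.card_fin]
    ring

open Classical in
/-- Heights at `a` close to some edge of `M`. -/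
noncomputable def near' (L : ℕ) (H : ℝ) (y : Fin N → ℝ) (M : Finset (Fin N × Fin N)) (a : Fin N) :
    Finset (Fin L) :=
  univ.filter fun v => ∃ e ∈ M, e.1 < a ∧ a < e.2 ∧
    (((e.2 : ℕ) : ℝ) - (e.1 : ℕ)) * |((v : ℕ) : ℝ) - ln y e a| ≤ H

lemma card_close (c ρ : ℝ) (hρ : 0 ≤ ρ) (V : Finset (Fin L))
    (hV : ∀ v ∈ V, |((v : ℕ) : ℝ) - c| ≤ ρ) : (V.card : ℝ) ≤ 2 * ρ + 1 := by
  have h1 : V.card ≤ (Icc ⌈c - ρ⌉ ⌊c + ρ⌋).card := by
    refine card_le_card_of_injOn (fun v => ((v : ℕ) : ℤ)) (fun v hv => ?_) fun a _ b _ h => ?_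
    · have := abs_le.mp (hV v hv)
      simp only [coe_Icc, Set.mem_Icc]
      refine ⟨Int.ceil_le.mpr ?_, Int.le_floor.mpr ?_⟩ <;> push_cast <;> linarith [this.1, this.2]
    · exact Fin.ext (by simpa using h)
  rw [Int.card_Icc] at h1
  have h2 := Int.le_ceil (c - ρ)
  have h3 := Int.floor_le (c + ρ)
  rcases le_or_gt 0 (⌊c + ρ⌋ + 1 - ⌈c - ρ⌉) with h | h
  · have h4 : (V.card : ℤ) ≤ ⌊c + ρ⌋ + 1 - ⌈c - ρ⌉ := by omega
    have h5 : (V.card : ℝ) ≤ ⌊c + ρ⌋ + 1 - ⌈c - ρ⌉ := by exact_mod_cast h4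
    linarith
  · have : V.card = 0 := by omega
    rw [this]
    push_cast
    linarith

lemma sum_near (H : ℝ) (hH : 0 ≤ H) (y : Fin N → ℝ) (M : Finset (Fin N × Fin N))
    (hM : ∀ e ∈ M, e.1 < e.2) :
    ∑ a, ((near' L H y M a).card : ℝ) ≤ M.card * (2 * H + N) := by
  classical
  have h1 : ∀ a, ((near' L H y M a).card : ℝ) ≤ ∑ e ∈ M, if a ∈ Ioo e.1 e.2 then
      2 * (H / (((e.2 : ℕ) : ℝ) - (e.1 : ℕ))) + 1 else 0 := by
    intro a
    have sub : near' L H y M a ⊆ M.biUnion fun e => univ.filter fun v : Fin L => e.1 < a ∧ a < e.2 ∧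
        (((e.2 : ℕ) : ℝ) - (e.1 : ℕ)) * |((v : ℕ) : ℝ) - ln y e a| ≤ H := by
      intro v hv
      obtain ⟨e, he, h⟩ := (mem_filter.mp hv).2
      exact mem_biUnion.mpr ⟨e, he, mem_filter.mpr ⟨mem_univ _, h⟩⟩
    have := (Nat.cast_le (α := ℝ)).mpr ((card_le_card sub).trans card_biUnion_le)
    rw [Nat.cast_sum] at this
    refine this.trans (sum_le_sum fun e he => ?_)
    have p := sub_pos.mpr (cast_lt' (hM e he))
    split_ifs with h
    · refine card_close (ln y e a) _ (by positivity) _ fun v hv => ?_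
      rw [le_div_iff₀ p, mul_comm]
      exact (mem_filter.mp hv).2.2.2
    · rw [filter_false_of_mem fun v _ hv => h (mem_Ioo.mpr ⟨hv.1, hv.2.1⟩)]
      simp
  refine (sum_le_sum fun a _ => h1 a).trans ?_
  rw [sum_comm, ← nsmul_eq_mul]
  refine sum_le_card_nsmul _ _ _ fun e he => ?_
  have p := sub_pos.mpr (cast_lt' (hM e he))
  rw [sum_ite_mem, univ_inter, sum_const, nsmul_eq_mul, Fin.card_Ioo]
  have h2 : (((e.2 : ℕ) - (e.1 : ℕ) - 1 : ℕ) : ℝ) ≤ ((e.2 : ℕ) : ℝ) - (e.1 : ℕ) := by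
    rw [← Nat.cast_sub (le_of_lt (hM e he))]
    exact_mod_cast Nat.sub_le _ _
  have h3 : ((e.2 : ℕ) : ℝ) - (e.1 : ℕ) ≤ N := by
    have : ((e.2 : ℕ) : ℝ) ≤ N := by exact_mod_cast e.2.2.le
    have : (0 : ℝ) ≤ (e.1 : ℕ) := by positivity
    linarith
  calc _ ≤ (((e.2 : ℕ) : ℝ) - (e.1 : ℕ)) * (2 * (H / (((e.2 : ℕ) : ℝ) - (e.1 : ℕ))) + 1) :=
        mul_le_mul_of_nonneg_right h2 (by positivity)
    _ = 2 * H + (((e.2 : ℕ) : ℝ) - (e.1 : ℕ)) := by field_simp
    _ ≤ _ := by linarith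

open Classical in
/-- Configurations with a matching and `q` apexes close to it. -/
lemma bad_main (H : ℝ) (n q W : ℕ) :
    (univ.filter fun y : Fin N → Fin L => GP (re y) univ ∧ ∃ A : Finset (Fin N), A.card = q ∧
      ∃ M ∈ mats (re y) Aᶜ n, ∀ a ∈ A, y a ∈ near' L H (re y) M a ∧
        (near' L H (re y) M a).card ≤ W).card ≤
      2 ^ N * (L ^ (N - q) * ((2 ^ 46) ^ N * W ^ q)) := by
  have sub : (univ.filter fun y : Fin N → Fin L => GP (re y) univ ∧
      ∃ A : Finset (Fin N), A.card = q ∧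
      ∃ M ∈ mats (re y) Aᶜ n, ∀ a ∈ A, y a ∈ near' L H (re y) M a ∧
        (near' L H (re y) M a).card ≤ W) ⊆ (univ.filter fun A : Finset (Fin N) => A.card = q).biUnion
      fun A => univ.filter fun y => GP (re y) univ ∧
        ∃ M ∈ mats (re y) Aᶜ n, ∀ a ∈ A, y a ∈ near' L H (re y) M a ∧
        (near' L H (re y) M a).card ≤ W := by
    intro y hy
    obtain ⟨-, h1, A, h2, h3⟩ := mem_filter.mp hy
    exact mem_biUnion.mpr ⟨A, mem_filter.mpr ⟨mem_univ _, h2⟩, mem_filter.mpr ⟨mem_univ _, h1, h3⟩⟩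
  refine (card_le_card sub).trans ((card_biUnion_le_card_mul _ _
    (L ^ (N - q) * ((2 ^ 46) ^ N * W ^ q)) ?_).trans (Nat.mul_le_mul_right _ ?_))
  · intro A hA
    rw [← (mem_filter.mp hA).2]
    refine fiber A (fun z => if GP (re z) Aᶜ then mats (re z) Aᶜ n else ∅) _ W (fun z => ?_)
      (fun z M a => near' L H (re z) M a) _ fun y hy => ?_
    · split_ifs with h
      · refine (count (re z) _ Aᶜ rfl h n).trans (Nat.pow_le_pow_right (by norm_num) ?_)
        simpa using card_le_univ Aᶜ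
      · simp
    · obtain ⟨-, h1, M, h2, h3⟩ := mem_filter.mp hy
      obtain ⟨h4, h5⟩ := mem_mats.mp h2
      have key : ∀ e ∈ M, ln (re (zer A y)) e = ln (re y) e := fun e he =>
        ln_zer A y (mem_compl.mp (h4.1 e he).1) (mem_compl.mp (h4.1 e he).2.1)
      have g : GP (re (zer A y)) Aᶜ := by
        intro i hi j hj k hk a b
        rw [ln_zer A y (mem_compl.mp hi) (mem_compl.mp hj)]
        have := h1 i (mem_univ _) j (mem_univ _) k (mem_univ _) a b
        simpa [re, zer, mem_compl.mp hk] using this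
      have hn : ∀ a, near' L H (re (zer A y)) M a = near' L H (re y) M a := by
        intro a
        unfold near'
        refine filter_congr fun v _ => exists_congr fun e => and_congr_right fun he => ?_
        rw [key e he]
      refine ⟨M, ?_, fun a ha => ?_⟩
      · rw [if_pos g]
        refine mem_mats.mpr ⟨⟨h4.1, fun e he f hf hne => ?_⟩, h5⟩
        have := h4.2 e he f hf hne
        unfold NC Below at this ⊢
        rwa [key e he, key f hf]
      · rw [hn]
        exact h3 a ha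
  · refine (card_filter_le _ _).trans (le_of_eq ?_)
    simp

lemma exists_good (q : ℕ) (hq : 0 < q) (H : ℝ) (W : ℕ) (hW : 2 * (3 * (4 * q)) ^ 3 < W)
    (hL : L = 2 ^ 565 * W) : ∃ y : Fin (3 * (4 * q)) → Fin L, GP (re y) univ ∧
      ¬ ∃ A : Finset (Fin (3 * (4 * q))), A.card = q ∧
      ∃ M ∈ mats (re y) Aᶜ (4 * q), ∀ a ∈ A, y a ∈ near' L H (re y) M a ∧
        (near' L H (re y) M a).card ≤ W := by
  classical
  by_contra hc
  have b1 := bad_gp (N := 3 * (4 * q)) (L := L)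
  have b2 := bad_main (N := 3 * (4 * q)) (L := L) H (4 * q) q W
  have b3 := card_filter_add_card_filter_not (s := (univ : Finset (Fin (3 * (4 * q)) → Fin L)))
    fun y => GP (re y) univ
  rw [filter_congr (q := fun y => GP (re y) univ) fun y _ => ⟨fun h => h.1, fun h => ⟨h, by
    by_contra h'
    exact hc ⟨y, h, h'⟩⟩⟩] at b2
  simp only [card_univ, Fintype.card_pi, Fintype.card_fin, prod_const] at b3
  have hL0 : 0 < L := Nat.pos_of_ne_zero (NeZero.ne L)
  have e1 : L ^ (3 * (4 * q)) = L ^ (3 * (4 * q) - 1) * L := by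
    rw [← pow_succ]; congr 1; omega
  have e2 : L ^ (3 * (4 * q)) = L ^ (3 * (4 * q) - q) * L ^ q := by
    rw [← pow_add]; congr 1; omega
  have hWL : W ≤ L := by
    rw [hL]
    exact Nat.le_mul_of_pos_left _ (by positivity)
  have c1 : 2 * ((3 * (4 * q)) ^ 3 * L ^ (3 * (4 * q) - 1)) < L ^ (3 * (4 * q)) := by
    rw [e1, ← mul_assoc, mul_comm (L ^ _)]
    exact Nat.mul_lt_mul_of_pos_right (by omega) (by positivity)
  have c2 : 2 * (2 ^ (3 * (4 * q)) * (L ^ (3 * (4 * q) - q) * ((2 ^ 46) ^ (3 * (4 * q)) * W ^ q)))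
      ≤ L ^ (3 * (4 * q)) := by
    rw [e2]
    have : 2 * (2 ^ (3 * (4 * q)) * (2 ^ 46) ^ (3 * (4 * q))) ≤ (2 ^ 565) ^ q := by
      rw [← pow_mul, ← pow_mul, ← pow_add, ← pow_succ']
      exact Nat.pow_le_pow_right (by norm_num) (by omega)
    have h2 : L ^ q = (2 ^ 565) ^ q * W ^ q := by rw [hL, mul_pow]
    rw [h2]
    generalize (2 ^ 565) ^ q = a at this
    generalize (2 ^ 46) ^ (3 * (4 * q)) = b at this
    calc _ = L ^ (3 * (4 * q) - q) * ((2 * (2 ^ (3 * (4 * q)) * b)) * W ^ q) := by ring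
      _ ≤ _ := Nat.mul_le_mul_left _ (Nat.mul_le_mul_right _ this)
  omega

end Union

lemma sort3 (p : Fin N → ℝ × ℝ) (a b c : Fin N) (h1 : a ≠ b) (h2 : a ≠ c) (h3 : b ≠ c) :
    ∃ l m r : Fin N, l < m ∧ m < r ∧ ({p a, p b, p c} : Set (ℝ × ℝ)) = {p l, p m, p r} ∧
      |((p b).1 - (p a).1) * ((p c).2 - (p a).2) - ((p c).1 - (p a).1) * ((p b).2 - (p a).2)| =
        |cr (p r - p l) (p m - p l)| ∧ (l = a ∨ l = b ∨ l = c) ∧ (m = a ∨ m = b ∨ m = c) ∧
        (r = a ∨ r = b ∨ r = c) := by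
  simp only [cr, Prod.fst_sub, Prod.snd_sub, abs_eq_abs]
  rcases lt_or_gt_of_ne h1 with x | x <;> rcases lt_or_gt_of_ne h2 with y | y <;>
    rcases lt_or_gt_of_ne h3 with z | z
  · exact ⟨a, b, c, x, z, rfl, Or.inr (by ring), by simp, by simp, by simp⟩
  · exact ⟨a, c, b, y, z, by ext; simp; tauto, Or.inl (by ring), by simp, by simp, by simp⟩
  · exact absurd (x.trans (z.trans y)) (lt_irrefl _)
  · exact ⟨c, a, b, y, x, by ext; simp; tauto, Or.inr (by ring), by simp, by simp, by simp⟩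
  · exact ⟨b, a, c, x, y, by ext; simp; tauto, Or.inl (by ring), by simp, by simp, by simp⟩
  · exact absurd (x.trans (y.trans z)) (lt_irrefl _)
  · exact ⟨b, c, a, z, y, by ext; simp; tauto, Or.inr (by ring), by simp, by simp, by simp⟩
  · exact ⟨c, b, a, z, x, by ext; simp; tauto, Or.inl (by ring), by simp, by simp, by simp⟩

end Pool.Agent.H6.TriArea
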