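import Mathlib

/-! A graph of tree-width two whose expansion has a Turan number above the crosscut bound. -/

namespace Pool.Agent.H6.Tw

open Finset SimpleGraph

theorem star_conn {V : Type*} (T : SimpleGraph V) (S : Set V) (c : V) (hc : c ∈ S)
    (h : ∀ i ∈ S, i = c ∨ T.Adj c i) : (T.induce S).Connected := by
  have : Nonempty S := ⟨⟨c, hc⟩⟩
  have key : ∀ i : S, (T.induce S).Reachable ⟨c, hc⟩ i := by
    rintro ⟨i, hi⟩
    rcases h i hi with rfl | h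
    · rfl
    · exact Adj.reachable h
  exact ⟨fun a b => (key a).symm.trans (key b)⟩

theorem walk_in {V : Type*} (T : SimpleGraph V) (S : Set V) (h : (T.induce S).Connected)
    (a b : V) (ha : a ∈ S) (hb : b ∈ S) : ∃ W : T.Walk a b, ∀ v ∈ W.support, v ∈ S := by
  obtain ⟨W⟩ := h.preconnected ⟨a, ha⟩ ⟨b, hb⟩
  refine ⟨W.map (Embedding.induce S).toHom, fun v hv => ?_⟩
  obtain ⟨w, -, rfl⟩ := List.mem_map.1 ((Walk.support_map (Embedding.induce S).toHom W) ▸ hv)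
  exact w.2

theorem cross {V : Type*} {T : SimpleGraph V} (Y Z : Set V) {a b : V} (W : T.Walk a b)
    (h : ∀ u v, s(u, v) ∈ W.edges → (u ∈ Y ∧ v ∈ Y) ∨ (u ∈ Z ∧ v ∈ Z)) (ha : a ∈ Y) (hb : b ∈ Z) :
    ∃ v ∈ W.support, v ∈ Y ∧ v ∈ Z := by
  induction W with
  | nil => exact ⟨_, by simp, ha, hb⟩
  | @cons a c b hac W ih =>
    by_cases hz : a ∈ Z
    · exact ⟨a, by simp, ha, hz⟩
    · have := h a c (by simp)
      obtain ⟨v, hv, h2⟩ := ih (fun u v huv => h u v (by simp [huv])) (by tauto) hb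
      exact ⟨v, by simp [hv], h2⟩

theorem helly {V : Type*} {T : SimpleGraph V} (hT : T.IsAcyclic) (X Y Z : Set V)
    (hX : (T.induce X).Connected) (hY : (T.induce Y).Connected) (hZ : (T.induce Z).Connected)
    (p q r : V) (pX : p ∈ X) (pY : p ∈ Y) (qY : q ∈ Y) (qZ : q ∈ Z) (rX : r ∈ X) (rZ : r ∈ Z) :
    ∃ v, v ∈ X ∧ v ∈ Y ∧ v ∈ Z := by
  classical
  obtain ⟨P, hP⟩ := walk_in T Y hY p q pY qY
  obtain ⟨Q, hQ⟩ := walk_in T Z hZ q r qZ rZ
  obtain ⟨R, hR⟩ := walk_in T X hX p r pX rX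
  have e : R.bypass = (P.append Q).bypass :=
    congrArg Subtype.val ((hT.subsingleton_path p r).elim ⟨_, R.bypass_isPath⟩
      ⟨_, (P.append Q).bypass_isPath⟩)
  obtain ⟨v, hv, h⟩ := cross Y Z R.bypass (by
    intro u v huv
    rw [e] at huv
    have := Walk.edges_bypass_subset_edges _ huv
    rw [Walk.edges_append, List.mem_append] at this
    rcases this with h | h
    · exact Or.inl ⟨hP _ (P.fst_mem_support_of_mem_edges h), hP _ (P.snd_mem_support_of_mem_edges h)⟩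
    · exact Or.inr ⟨hQ _ (Q.fst_mem_support_of_mem_edges h), hQ _ (Q.snd_mem_support_of_mem_edges h)⟩)
    pY rZ
  exact ⟨v, hR _ (Walk.support_bypass_subset_support _ hv), h⟩

/-- the graph: a triangle `1 2 3`, a hub `0` joined to `1, 2` and ten leaves, a hub `4` joined
to `3` and ten leaves -/
def G : SimpleGraph (Fin 25) := SimpleGraph.fromRel fun u v =>
  (u.1 = 0 ∧ (v.1 = 1 ∨ v.1 = 2 ∨ (5 ≤ v.1 ∧ v.1 < 15))) ∨ (u.1 = 1 ∧ (v.1 = 2 ∨ v.1 = 3)) ∨
    (u.1 = 2 ∧ v.1 = 3) ∨ (u.1 = 4 ∧ (v.1 = 3 ∨ 15 ≤ v.1))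

instance : DecidableRel G.Adj := fun u v => by unfold G; infer_instance

/-- the decomposition tree -/
def T : SimpleGraph (Fin 23) := SimpleGraph.fromRel fun i j =>
  (i.1 = 0 ∧ (j.1 = 1 ∨ (3 ≤ j.1 ∧ j.1 < 13))) ∨ (i.1 = 2 ∧ (j.1 = 1 ∨ 13 ≤ j.1))

instance : DecidableRel T.Adj := fun u v => by unfold T; infer_instance

/-- the bags -/
def B (i : Fin 23) : Finset (Fin 25) := univ.filter fun v =>
  (i.1 = 0 ∧ v.1 ≤ 2) ∨ (i.1 = 1 ∧ 1 ≤ v.1 ∧ v.1 ≤ 3) ∨ (i.1 = 2 ∧ 3 ≤ v.1 ∧ v.1 ≤ 4) ∨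
    (3 ≤ i.1 ∧ i.1 < 13 ∧ (v.1 = 0 ∨ v.1 = i.1 + 2)) ∨ (13 ≤ i.1 ∧ (v.1 = 4 ∨ v.1 = i.1 + 2))

theorem T_tree : T.IsTree := by
  rw [isTree_iff_connected_and_card]
  refine ⟨?_, ?_⟩
  · have h1 : ∀ i : Fin 23, i = 1 ∨ T.Adj 1 i ∨ T.Adj 0 i ∨ T.Adj 2 i := by decide +kernel
    have a0 : T.Adj 1 0 := by decide +kernel
    have a2 : T.Adj 1 2 := by decide +kernel
    have key : ∀ i, T.Reachable 1 i := by
      intro i
      rcases h1 i with rfl | h | h | h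
      · rfl
      · exact h.reachable
      · exact a0.reachable.trans h.reachable
      · exact a2.reachable.trans h.reachable
    exact ⟨fun a b => (key a).symm.trans (key b)⟩
  · have h := T.sum_degrees_eq_twice_card_edges
    have h2 : ∑ v, T.degree v = 44 := by decide +kernel
    rw [Nat.card_eq_fintype_card, Nat.card_eq_fintype_card, ← edgeFinset_card, Fintype.card_fin]
    omega

theorem width2 : ∃ (m : ℕ) (T : SimpleGraph (Fin m)) (B : Fin m → Finset (Fin 25)),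
    T.IsTree ∧ (∀ i, (B i).card ≤ 3) ∧ (∀ v, ∃ i, v ∈ B i) ∧
    (∀ u v, G.Adj u v → ∃ i, u ∈ B i ∧ v ∈ B i) ∧
    (∀ v, (T.induce {i | v ∈ B i}).Connected) := by
  refine ⟨23, T, B, T_tree, by decide +kernel, by decide +kernel, by decide +kernel, fun v => ?_⟩
  have h : ∀ v : Fin 25, ∃ c, v ∈ B c ∧ ∀ i, v ∈ B i → i = c ∨ T.Adj c i := by decide +kernel
  obtain ⟨c, h1, h2⟩ := h v
  exact star_conn T _ c h1 h2

theorem not_width1 : ¬ ∃ (m : ℕ) (T : SimpleGraph (Fin m)) (B : Fin m → Finset (Fin 25)),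
    T.IsTree ∧ (∀ i, (B i).card ≤ 2) ∧ (∀ v, ∃ i, v ∈ B i) ∧
    (∀ u v, G.Adj u v → ∃ i, u ∈ B i ∧ v ∈ B i) ∧
    (∀ v, (T.induce {i | v ∈ B i}).Connected) := by
  rintro ⟨m, T, B, hT, h2, -, he, hc⟩
  obtain ⟨p, p1, p2⟩ := he 1 2 (by decide)
  obtain ⟨q, q1, q2⟩ := he 2 3 (by decide)
  obtain ⟨r, r1, r2⟩ := he 1 3 (by decide)
  obtain ⟨v, v1, v2, v3⟩ := helly hT.isAcyclic _ _ _ (hc 1) (hc 2) (hc 3) p q r p1 p2 q1 q2 r1 r2
  have : ({1, 2, 3} : Finset (Fin 25)) ⊆ B v := by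
    intro x hx
    simp only [mem_insert, mem_singleton] at hx
    rcases hx with rfl | rfl | rfl
    · exact v1
    · exact v2
    · exact v3
  have h3 := (card_le_card this).trans (h2 v)
  exact absurd h3 (by decide)

theorem sigma_le : sInf {c : ℕ | ∃ S : Finset (Fin 25), (∀ u ∈ S, ∀ v ∈ S, ¬ G.Adj u v) ∧
    c = S.card + {e ∈ G.edgeSet | ∀ v ∈ e, v ∉ S}.ncard} ≤ 5 := by
  refine le_trans (Nat.sInf_le ⟨{0, 4}, by decide, rfl⟩) ?_
  have h : {e ∈ G.edgeSet | ∀ v ∈ e, v ∉ ({0, 4} : Finset (Fin 25))} ⊆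
      {s(1, 2), s(1, 3), s(2, 3)} := by
    rintro e ⟨he, h⟩
    induction e using Sym2.ind with
    | h a b =>
      have key : ∀ a b : Fin 25, G.Adj a b → a ∉ ({0, 4} : Finset (Fin 25)) →
          b ∉ ({0, 4} : Finset (Fin 25)) →
          s(a, b) = s(1, 2) ∨ s(a, b) = s(1, 3) ∨ s(a, b) = s(2, 3) := by decide +kernel
      exact key a b he (h a (by simp)) (h b (by simp))
  have h1 := Set.ncard_le_ncard h (Set.toFinite _)
  have h2 : ({s(1, 2), s(1, 3), s(2, 3)} : Set (Sym2 (Fin 25))).ncard ≤ 3 :=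
    (Set.ncard_insert_le _ _).trans (by
      have := Set.ncard_insert_le s((1 : Fin 25), 3) {s(2, 3)}
      rw [Set.ncard_singleton] at this
      omega)
  have h3 : ({0, 4} : Finset (Fin 25)).card = 2 := by decide
  omega

/-- complete tripartite triple system with parts `s`, `a`, `a` -/
def tp (s a : ℕ) : Finset (Finset (Fin (s + a + a))) :=
  (univ : Finset (Fin s × Fin a × Fin a)).image fun p =>
    {⟨p.1.1, by omega⟩, ⟨s + p.2.1.1, by omega⟩, ⟨s + a + p.2.2.1, by omega⟩}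

theorem tp_card (s a : ℕ) : (tp s a).card = s * a * a := by
  rw [tp, card_image_of_injective]
  · simp [mul_assoc]
  · rintro ⟨x, y, z⟩ ⟨x', y', z'⟩ h
    have h1 := Finset.ext_iff.1 h ⟨x.1, by omega⟩
    have h2 := Finset.ext_iff.1 h ⟨s + y.1, by omega⟩
    have h3 := Finset.ext_iff.1 h ⟨s + a + z.1, by omega⟩
    simp only [mem_insert, mem_singleton, Fin.mk.injEq, true_or, or_true, true_iff] at h1 h2 h3
    have := x.2; have := y.2; have := z.2; have := x'.2; have := y'.2; have := z'.2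
    simp only [Prod.mk.injEq, Fin.ext_iff]
    omega

theorem tp_three (s a : ℕ) : ∀ e ∈ tp s a, e.card = 3 := by
  intro e he
  obtain ⟨⟨x, y, z⟩, -, rfl⟩ := mem_image.1 he
  have := x.2; have := y.2; have := z.2
  refine card_eq_three.2 ⟨_, _, _, ?_, ?_, ?_, rfl⟩ <;> simp only [ne_eq, Fin.mk.injEq] <;> omega

theorem tp_mem (s a : ℕ) (p q r : Fin (s + a + a)) (h : ({p, q, r} : Finset _) ∈ tp s a)
    (hpq : p ≠ q) : (p.1 < s ∨ q.1 < s ∨ r.1 < s) ∧ ¬ (p.1 < s ∧ q.1 < s) ∧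
      ¬ (s ≤ p.1 ∧ p.1 < s + a ∧ s ≤ q.1 ∧ q.1 < s + a) ∧ ¬ (s + a ≤ p.1 ∧ s + a ≤ q.1) := by
  obtain ⟨⟨x, y, z⟩, -, h⟩ := mem_image.1 h
  have h1 := Finset.ext_iff.1 h ⟨x.1, by omega⟩
  have h2 := Finset.ext_iff.1 h p
  have h3 := Finset.ext_iff.1 h q
  simp only [mem_insert, mem_singleton, Fin.ext_iff, true_or, or_true, true_iff, iff_true,
    ne_eq] at h1 h2 h3 hpq
  have := x.2; have := y.2; have := z.2
  omega

theorem free (a : ℕ) : ¬ ∃ (φ : Fin 25 → Fin (9 + a + a)) (w : Fin 25 → Fin 25 → Fin (9 + a + a)),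
    Function.Injective φ ∧
    (∀ u v, G.Adj u v → (∀ x, w u v ≠ φ x) ∧ ({φ u, φ v, w u v} : Finset _) ∈ tp 9 a) ∧
    (∀ u v u' v', G.Adj u v → G.Adj u' v' → w u v = w u' v' →
      (u = u' ∧ v = v') ∨ (u = v' ∧ v = u')) := by
  rintro ⟨φ, w, h1, h2, h3⟩
  have key : ∀ u v, G.Adj u v → _ := fun u v h => tp_mem 9 a _ _ _ (h2 u v h).2 (h1.ne h.ne)
  have hub : ∀ (h : Fin 25) (l : Fin 10 → Fin 25), Function.Injective l → (∀ i, G.Adj h (l i)) →
      (φ h).1 < 9 := by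
    intro h l hl ha
    by_contra hc
    have hlt : ∀ i, (if (φ (l i)).1 < 9 then φ (l i) else w h (l i)).1 < 9 := by
      intro i
      have := (key _ _ (ha i)).1
      split_ifs <;> omega
    have hinj : Function.Injective fun i : Fin 10 =>
        (⟨(if (φ (l i)).1 < 9 then φ (l i) else w h (l i)).1, hlt i⟩ : Fin 9) := by
      intro i j hij
      have e := Fin.ext (Fin.mk.inj hij)
      split_ifs at e
      · exact hl (h1 e)
      · exact absurd e.symm ((h2 _ _ (ha j)).1 _)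
      · exact absurd e ((h2 _ _ (ha i)).1 _)
      · rcases h3 _ _ _ _ (ha i) (ha j) e with ⟨-, e⟩ | ⟨e, -⟩
        · exact hl e
        · exact absurd e (ha j).ne
    have := Fintype.card_le_of_injective _ hinj
    simp at this
  have a0 := hub 0 ![5, 6, 7, 8, 9, 10, 11, 12, 13, 14] (by decide) (by decide)
  have a4 := hub 4 ![15, 16, 17, 18, 19, 20, 21, 22, 23, 24] (by decide) (by decide)
  have b1 := key 0 1 (by decide)
  have b2 := key 0 2 (by decide)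
  have b3 := key 4 3 (by decide)
  have c1 := key 1 2 (by decide)
  have c2 := key 1 3 (by decide)
  have c3 := key 2 3 (by decide)
  omega

theorem not_equiv (f : ℕ → ℕ) (σ : ℕ) (hσ : σ ≤ 5) (hf : ∀ a, 9 * a * a ≤ f (9 + a + a)) :
    ¬ Asymptotics.IsEquivalent Filter.atTop (fun n => (f n : ℝ))
      (fun n : ℕ => ((σ : ℝ) - 1) * ((n.choose 2 : ℕ) : ℝ)) := by
  intro h
  have h1 := (Asymptotics.isLittleO_iff.1 h.isLittleO) (c := 1 / 20) (by norm_num)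
  obtain ⟨N, hN⟩ := Filter.eventually_atTop.1 h1
  have h2 := hN (9 + (N + 1000) + (N + 1000)) (by omega)
  have h3 : ((9 * (N + 1000) * (N + 1000) : ℕ) : ℝ) ≤ _ := Nat.cast_le.2 (hf (N + 1000))
  simp only [Pi.sub_apply, Real.norm_eq_abs, Nat.cast_choose_two] at h2
  have h4 : (σ : ℝ) ≤ 5 := by exact_mod_cast hσ
  have h5 : (0 : ℝ) ≤ σ := Nat.cast_nonneg _
  have h6 : (0 : ℝ) ≤ N := Nat.cast_nonneg _
  set c : ℝ := ((9 + (N + 1000) + (N + 1000) : ℕ) : ℝ) *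
    (((9 + (N + 1000) + (N + 1000) : ℕ) : ℝ) - 1) / 2 with hc
  have h7 : 0 ≤ c := by rw [hc]; push_cast; nlinarith
  have h8 : |((σ : ℝ) - 1) * c| ≤ 4 * c := by
    rw [abs_le]; constructor <;> nlinarith
  have h9 := (le_abs_self _).trans h2
  have h10 : ((σ : ℝ) - 1) * c ≤ 4 * c := by nlinarith
  have h11 : ((9 * (N + 1000) * (N + 1000) : ℕ) : ℝ) ≤ 21 / 5 * c := by linarith
  rw [hc] at h11
  push_cast at h11
  nlinarith

end Pool.Agent.H6.Tw
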