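import Mathlib

namespace Pool.Agent.H6.Vec

open Set Submodule Module MvPolynomial

variable {α W : Type} [AddCommGroup W]

/-- The vector matroid of a finite family. -/
noncomputable def vecM [Finite α] (F : Type) [Field F] [Module F W] (v : α → W) : Matroid α :=
  (IndepMatroid.ofFinite (E := univ) (toFinite _) (fun I => LinearIndepOn F v I)
    (linearIndepOn_empty _ _) (fun _ _ hJ hIJ => hJ.mono hIJ)
    (fun I J hI hJ hlt => by
      by_contra! hn
      have h2 : span F (v '' J) ≤ span F (v '' I) := by
        rw [span_le]
        rintro _ ⟨e, he, rfl⟩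
        by_cases heI : e ∈ I
        · exact subset_span ⟨e, heI, rfl⟩
        · by_contra h
          exact hn e he heI ((linearIndepOn_insert heI).2 ⟨hI, h⟩)
      have : Fintype I := Fintype.ofFinite I
      have : Fintype J := Fintype.ofFinite J
      have h3 := finrank_span_eq_card (R := F) hI
      have h4 := finrank_span_eq_card (R := F) hJ
      rw [← image_eq_range] at h3 h4
      have : Module.Finite F (span F (v '' I)) := Module.Finite.span_of_finite F (toFinite _)
      have h5 := Submodule.finrank_mono h2
      rw [h3, h4, ← Nat.card_eq_fintype_card, ← Nat.card_eq_fintype_card, Nat.card_coe_set_eq,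
        Nat.card_coe_set_eq] at h5
      omega)
    (fun _ _ => subset_univ _)).matroid

theorem vecM_indep [Finite α] (F : Type) [Field F] [Module F W] (v : α → W) (I : Set α) :
    (vecM F v).Indep I ↔ LinearIndepOn F v I := by
  simp [vecM]

theorem aeval_mon {σ τ K : Type} [CommRing K] (d : σ → τ →₀ ℕ) (u : σ →₀ ℕ) (c : K) :
    aeval (fun i => (monomial (d i) 1 : MvPolynomial τ K)) (monomial u c) =
      monomial (u.sum fun i k => k • d i) c := by
  simp only [aeval_monomial, monomial_finsupp_sum_index, monomial_pow, one_pow, algebraMap_eq]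

theorem eq_zero_of_inj {σ τ K : Type} [CommRing K] (d : σ → τ →₀ ℕ) (f : MvPolynomial σ K)
    (h : aeval (fun i => (monomial (d i) 1 : MvPolynomial τ K)) f = 0)
    (hi : InjOn (fun u : σ →₀ ℕ => u.sum fun i k => k • d i) f.support) : f = 0 := by
  classical
  ext u
  by_contra c
  have hu : u ∈ f.support := mem_support_iff.mpr c
  rw [f.as_sum, map_sum] at h
  have := congrArg (coeff (u.sum fun i k => k • d i)) h
  simp only [aeval_mon, coeff_sum, coeff_monomial] at this
  rw [Finset.sum_eq_single u (fun w hw e => if_neg fun g => e (hi hw hu g)) fun e => absurd hu e,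
    if_pos rfl] at this
  exact c this

end Pool.Agent.H6.Vec
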