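import Mathlib

set_option autoImplicit false

namespace Pool.Agent.H6.Wui

def pos (c v : Nat) : Nat := Nat.mod (Nat.div c (Nat.pow 15 v)) 15

def ext (p q r c : Nat) : Bool :=
  (Nat.blt (pos c q) (pos c p) && Nat.blt (pos c r) (pos c p)) ||
  (Nat.blt (pos c p) (pos c q) && Nat.blt (pos c p) (pos c r))

def near (c u v : Nat) : Bool := Nat.ble (pos c u) (pos c v + 7) && Nat.ble (pos c v) (pos c u + 7)

def chk : List (Nat × Nat × Nat) → List Nat → Bool
  | [], cs => !cs.isEmpty
  | (a, b, c) :: L, cs =>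
    chk L (cs.filter (ext a b c)) && chk L (cs.filter (ext b a c)) && chk L (cs.filter (ext c a b))

def good (τ : Nat × Nat × Nat) (d : Fin 3) (c : Nat) : Prop :=
  (d = 0 → ext τ.1 τ.2.1 τ.2.2 c = true) ∧ (d = 1 → ext τ.2.1 τ.1 τ.2.2 c = true) ∧
    (d = 2 → ext τ.2.2 τ.1 τ.2.1 c = true)

lemma chk_spec (d : Nat × Nat × Nat → Fin 3) : ∀ (L : List (Nat × Nat × Nat)) (cs : List Nat),
    chk L cs = true → ∃ c ∈ cs, ∀ τ ∈ L, good τ (d τ) c
  | [], cs, h => by
    cases cs with
    | nil => simp [chk] at h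
    | cons x xs => exact ⟨x, by simp, by simp⟩
  | (a, b, c) :: L, cs, h => by
    simp only [chk, Bool.and_eq_true] at h
    obtain ⟨⟨h0, h1⟩, h2⟩ := h
    have key : ∀ (P : Nat → Bool), chk L (cs.filter P) = true →
        (∀ x, P x = true → good (a, b, c) (d (a, b, c)) x) →
        ∃ x ∈ cs, ∀ τ ∈ (a, b, c) :: L, good τ (d τ) x := by
      intro P hP hg
      obtain ⟨x, hx, hx'⟩ := chk_spec d L _ hP
      rw [List.mem_filter] at hx
      refine ⟨x, hx.1, fun τ hτ => ?_⟩
      rcases List.mem_cons.1 hτ with rfl | hτ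
      exacts [hg x hx.2, hx' τ hτ]
    have : d (a, b, c) = 0 ∨ d (a, b, c) = 1 ∨ d (a, b, c) = 2 := by
      generalize d (a, b, c) = e
      revert e
      decide
    rcases this with e | e | e
    · exact key _ h0 fun x hx => by simp [good, e, hx]
    · exact key _ h1 fun x hx => by simp [good, e, hx]
    · exact key _ h2 fun x hx => by simp [good, e, hx]

def TL : List (Nat × Nat × Nat) :=
  [(0, 1, 5), (2, 4, 5), (1, 2, 3), (0, 1, 4), (0, 2, 3), (1, 3, 4), (0, 1, 2), (0, 3, 4)]

def cs : List Nat :=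
  [8864895, 1704765, 8814383, 599761, 7746211, 2315836, 948527, 1251233, 7395225, 7603111,
   646899, 483226, 8157511, 130426, 6533251, 93752, 1348995, 9165752, 6531002, 1404152, 6127802,
   9672902, 896520, 799352, 7653270, 1296570, 8464636, 790577, 6634051, 6939795, 549249, 6941625,
   593461, 8963011, 597752, 9671649, 6838577, 135811, 8157556, 8961002, 2008470, 593349, 647011,
   546211, 8359352, 7603156, 1605720, 8056470, 7651920, 6989777, 2416636, 80252, 2315627, 586051,
   7752720, 8964152, 483002, 1254495, 137611, 179461, 1304783, 8414027, 586261, 8505377, 8208390,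
   7601311, 802502, 1704541, 7653990, 643749, 485251, 645002, 78452, 2062261, 7695811, 6840167,
   8464845, 1251345, 7700520, 549361, 186211, 9669752, 79802, 8053320, 543961, 8362261, 8208166,
   599649, 7397475, 7653720, 1704720, 8866261, 1558261, 7603366, 6227461, 8156145, 1352145,
   2109720, 6990195, 7651965, 643861, 8864783, 1254383, 90602, 8363627, 941777, 9705270, 9604358,
   1701345, 9200402, 3139561, 8994399, 2838527, 112411, 7808520, 516961, 3532508, 7604461,
   8191261, 7677345, 6924383, 2078011, 2057858, 2770095, 7348170, 165752, 3196470, 7636861,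
   9655899, 770552, 2870783, 9703261, 9607620, 515611, 972152, 6946095, 9151899, 2287261,
   2329802, 9148861, 2108370, 2768520, 8889983, 2514511, 913877, 210061, 3098402, 872895,
   8181345, 2784961, 2312461, 6924495, 8873011, 8993258, 2484152, 8842845, 1317077, 3193320,
   8845320, 2791261, 7675320, 2381761, 8842733, 8436383, 63377, 3041702, 2364645, 7481258,
   566011, 7705261, 3098820, 567377, 8059845, 7656645, 2868886, 2312911, 8439533, 8191149,
   2413261, 8875020, 8845208, 1684261, 8162783, 2870895, 2055720, 1703370, 3045061, 912302,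
   6995370, 3077011, 9150002, 3189752, 2057970, 213211, 64952, 7725720, 8060520, 8369011,
   9702120, 7378095, 8439645, 6894120, 6993345, 6994020, 6892545, 8389711, 2025811, 8566215,
   8465401, 1704660, 6177196, 8970977, 7344047, 6227237, 586262, 8464561, 6634053, 80012,
   6939735, 1755046, 8363761, 943905, 790697, 1296169, 1296677, 9278130, 231678, 6840047,
   2365937, 534062, 9177330, 1605645, 1298477, 9277892, 7344495, 6531678, 179162, 2518215,
   2109645, 6941295, 78362, 6531331, 7601236, 6990527, 1348905, 9278102, 230312, 7803046,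
   9126692, 6989687, 942527, 7652070, 1296047, 1555021, 7752660, 229996, 7344169, 6581612,
   485044, 8158051, 6838803, 8464785, 2416561, 8364181, 6229262, 533612, 181262, 9177302,
   8467215, 7040745, 483678, 6127803, 891945, 6531121, 484906, 8565781, 792378, 1553236, 8363537,
   179237, 78437, 7803270, 8157421, 6582062, 1755270, 8566201, 1296705, 8414805, 7651860,
   2316181, 485253, 1348877, 9277906, 6128012, 483003, 6840169, 7653645, 8414385, 2518201,
   9126706, 535444, 179912, 992955, 1704436, 4009965, 3909151, 1687785, 3899071, 2538061, 770477,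
   3908311, 3193275, 260821, 3048151, 4000067, 979455, 2346527, 3048781, 3962505, 2282687,
   3854985, 3999871, 112561, 213151, 973127, 978797, 267317, 2531537, 3962477, 3150015, 3811081,
   3807917, 3301005, 875295, 1772821, 2481151, 266897, 3143295, 3955561, 115501, 1023555, 929027,
   68237, 169037, 3848447, 4009727, 2484077, 2535135, 2346555, 3810647, 61937, 3098327, 1725795,
   2497951, 1023135, 3298051, 2380561, 3848237, 210001, 1684201, 4009531, 3858135, 2286061,
   3811067, 4002797, 166531, 267331, 3955785, 2285851, 1584045, 112351, 3801197, 1738395,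
   3291331, 68447, 3956415, 1786051, 1687561, 65297, 3962715, 1785645, 925877, 4009755, 219647,
   1587195, 3810871, 4009517, 3861705, 3300781, 3807931, 2531761, 2282477, 3301215, 4006815,
   3909165, 3902235, 2497531]

def sel (e1 e2 : Bool) (c : Nat) : Bool := (near c 0 1 == e1) && (near c 3 5 == e2)

theorem main : ∀ e1 e2 : Bool, chk TL (cs.filter (sel e1 e2)) = true := by decide +kernel

lemma pos_lt (c v : Nat) : pos c v < 15 := Nat.mod_lt _ (by norm_num)

lemma near_iff (c u v : Nat) : |(pos c u : ℝ) - pos c v| ≤ 7 ↔ near c u v = true := by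
  simp only [near, Bool.and_eq_true, Nat.ble_eq, abs_le]
  constructor
  · rintro ⟨h1, h2⟩
    constructor
    · have : (pos c u : ℝ) ≤ ((pos c v + 7 : ℕ) : ℝ) := by push_cast; linarith
      exact_mod_cast this
    · have : (pos c v : ℝ) ≤ ((pos c u + 7 : ℕ) : ℝ) := by push_cast; linarith
      exact_mod_cast this
  · rintro ⟨h1, h2⟩
    have a1 : (pos c u : ℝ) ≤ ((pos c v + 7 : ℕ) : ℝ) := by exact_mod_cast h1
    have a2 : (pos c v : ℝ) ≤ ((pos c u + 7 : ℕ) : ℝ) := by exact_mod_cast h2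
    push_cast at a1 a2
    constructor <;> linarith

lemma placeZ (p q r : ℤ) (hp : 0 ≤ p ∧ p < 15) (hq : 0 ≤ q ∧ q < 15) (hr : 0 ≤ r ∧ r < 15)
    (h : (q < p ∧ r < p) ∨ (p < q ∧ p < r)) (x y : Bool) :
    ∃ w : ℤ, (|p - w| ≤ 7 ↔ x = true) ∧ (|q - w| ≤ 7 ↔ y = true) ∧ (|r - w| ≤ 7 ↔ y = true) := by
  simp only [abs_le]
  cases x <;> cases y <;> simp only [Bool.false_eq_true, iff_false, iff_true]
  · exact ⟨100, by omega, by omega, by omega⟩
  · rcases h with h | h
    · exact ⟨max q r - 7, by omega, by omega, by omega⟩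
    · exact ⟨min q r + 7, by omega, by omega, by omega⟩
  · rcases h with h | h
    · exact ⟨p + 7, by omega, by omega, by omega⟩
    · exact ⟨p - 7, by omega, by omega, by omega⟩
  · exact ⟨7, by omega, by omega, by omega⟩

lemma place (p q r c : Nat) (h : ext p q r c = true) (x y : Bool) :
    ∃ w : ℝ, (|(pos c p : ℝ) - w| ≤ 7 ↔ x = true) ∧ (|(pos c q : ℝ) - w| ≤ 7 ↔ y = true) ∧
      (|(pos c r : ℝ) - w| ≤ 7 ↔ y = true) := by
  simp only [ext, Bool.or_eq_true, Bool.and_eq_true, Nat.blt_eq] at h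
  have a := pos_lt c p
  have b := pos_lt c q
  have e := pos_lt c r
  obtain ⟨w, h1, h2, h3⟩ := placeZ (pos c p) (pos c q) (pos c r) (by omega) (by omega) (by omega)
    (by omega) x y
  refine ⟨w, ?_, ?_, ?_⟩
  · rw [← h1]; exact_mod_cast Iff.rfl
  · rw [← h2]; exact_mod_cast Iff.rfl
  · rw [← h3]; exact_mod_cast Iff.rfl

theorem core (e1 e2 : Bool) (f : Nat × Nat × Nat → Nat → Bool) :
    ∃ c : Nat, near c 0 1 = e1 ∧ near c 3 5 = e2 ∧ ∀ τ ∈ TL, ∃ w : ℝ,
      (|(pos c τ.1 : ℝ) - w| ≤ 7 ↔ f τ τ.1 = true) ∧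
      (|(pos c τ.2.1 : ℝ) - w| ≤ 7 ↔ f τ τ.2.1 = true) ∧
      (|(pos c τ.2.2 : ℝ) - w| ≤ 7 ↔ f τ τ.2.2 = true) := by
  obtain ⟨c, hc, hg⟩ := chk_spec (fun τ => if f τ τ.2.1 = f τ τ.2.2 then 0 else
    if f τ τ.1 = f τ τ.2.2 then 1 else 2) _ _ (main e1 e2)
  rw [List.mem_filter] at hc
  have hs := hc.2
  simp only [sel, Bool.and_eq_true, beq_iff_eq] at hs
  refine ⟨c, hs.1, hs.2, fun τ hτ => ?_⟩
  obtain ⟨g0, g1, g2⟩ := hg τ hτ
  by_cases k0 : f τ τ.2.1 = f τ τ.2.2
  · obtain ⟨w, a, b, e⟩ := place _ _ _ _ (g0 (by simp [k0])) (f τ τ.1) (f τ τ.2.2)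
    exact ⟨w, a, k0 ▸ b, e⟩
  · by_cases k1 : f τ τ.1 = f τ τ.2.2
    · obtain ⟨w, a, b, e⟩ := place _ _ _ _ (g1 (by simp [k0, k1])) (f τ τ.2.1) (f τ τ.2.2)
      exact ⟨w, k1 ▸ b, a, e⟩
    · obtain ⟨w, a, b, e⟩ := place _ _ _ _ (g2 (by simp [k0, k1])) (f τ τ.2.2) (f τ τ.1)
      have : f τ τ.2.1 = f τ τ.1 := by
        revert k0 k1
        cases f τ τ.1 <;> cases f τ τ.2.1 <;> cases f τ τ.2.2 <;> simp
      exact ⟨w, b, this ▸ e, a⟩

end Pool.Agent.H6.Wui
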